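import Pool.Agent.PTW.Defs

set_option autoImplicit false

namespace Pool.Agent.PTW

open Finset

theorem A1_core (m : ℕ) (hm : 1 ≤ m) : ∀ v : ℤ, (m : ℤ) ∣ v ^ 2 + 1 →
    ∃ x y : ℤ, x ^ 2 + y ^ 2 = m ∧ IsCoprime x y ∧ (m : ℤ) ∣ y - v * x := by
  induction m using Nat.strong_induction_on with
  | _ m ih =>
    intro v hv
    rcases Nat.lt_or_ge m 2 with h1 | h2
    · have hm1 : m = 1 := by omega
      subst hm1
      refine ⟨0, 1, by norm_num, isCoprime_one_right, ?_⟩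
      rw [Nat.cast_one]
      exact one_dvd _
    · have hm0 : (0 : ℤ) < m := by exact_mod_cast hm
      set v0 : ℤ := v % m with hv0
      have a1 : 0 ≤ v0 := Int.emod_nonneg _ hm0.ne'
      have a2 : v0 < m := Int.emod_lt_of_pos _ hm0
      have a3 : (m : ℤ) ∣ v - v0 := Int.dvd_self_sub_emod
      have a4 : (m : ℤ) ∣ v0 ^ 2 + 1 := by
        have e : v0 ^ 2 + 1 = (v ^ 2 + 1) - (v - v0) * (v + v0) := by ring
        rw [e]
        exact dvd_sub hv (a3.mul_right _)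
      obtain ⟨q, hq⟩ := a4
      have hq0 : 0 < q := by
        by_contra hcon
        push Not at hcon
        have : (m : ℤ) * q ≤ 0 := mul_nonpos_of_nonneg_of_nonpos hm0.le hcon
        nlinarith [sq_nonneg v0]
      have hqm : q < m := by
        by_contra hcon
        push Not at hcon
        have b1 : (m : ℤ) * m ≤ m * q := mul_le_mul_of_nonneg_left hcon hm0.le
        have b2 : v0 ^ 2 ≤ ((m : ℤ) - 1) ^ 2 := by
          apply pow_le_pow_left₀ a1
          omega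
        have b3 : (2 : ℤ) ≤ m := by exact_mod_cast h2
        nlinarith
      obtain ⟨m', rfl⟩ := Int.eq_ofNat_of_zero_le hq0.le
      have c1 : 1 ≤ m' := by exact_mod_cast hq0
      have c2 : m' < m := by exact_mod_cast hqm
      obtain ⟨a, b, hab, -, hd⟩ := ih m' c2 c1 v0 ⟨m, by rw [hq, mul_comm]⟩
      obtain ⟨t, ht⟩ := hd
      -- b = v0 a + m' t ; a + v0 b = m' x, v0 a - b = m' y
      have hm' : (m' : ℤ) ≠ 0 := hq0.ne'
      set x : ℤ := m * a + v0 * t with hx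
      set y : ℤ := -t with hy
      have e1 : a + v0 * b = m' * x := by
        have : b = v0 * a + m' * t := by linarith
        rw [this, hx]
        linear_combination a * hq
      have e2 : v0 * a - b = m' * y := by
        rw [hy]
        linarith
      have e3 : x ^ 2 + y ^ 2 = m := by
        have h3 : (m' : ℤ) ^ 2 * (x ^ 2 + y ^ 2) = (m' : ℤ) ^ 2 * m := by
          calc (m' : ℤ) ^ 2 * (x ^ 2 + y ^ 2) = (m' * x) ^ 2 + (m' * y) ^ 2 := by ring
            _ = (a + v0 * b) ^ 2 + (v0 * a - b) ^ 2 := by rw [e1, e2]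
            _ = (v0 ^ 2 + 1) * (a ^ 2 + b ^ 2) := by ring
            _ = (m' : ℤ) ^ 2 * m := by rw [hab, hq]; ring
        exact mul_left_cancel₀ (pow_ne_zero 2 hm') h3
      have e4 : x * a - y * b = 1 := by
        have h4 : (m' : ℤ) * (x * a - y * b) = m' * 1 := by
          calc (m' : ℤ) * (x * a - y * b) = (m' * x) * a - (m' * y) * b := by ring
            _ = (a + v0 * b) * a - (v0 * a - b) * b := by rw [e1, e2]
            _ = a ^ 2 + b ^ 2 := by ring
            _ = m' * 1 := by rw [hab, mul_one]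
        exact mul_left_cancel₀ hm' h4
      have e5 : (m : ℤ) ∣ y - v0 * x := by
        refine ⟨-b, ?_⟩
        have h5 : (m' : ℤ) * (y - v0 * x) = m' * (m * (-b)) := by
          calc (m' : ℤ) * (y - v0 * x) = (m' * y) - v0 * (m' * x) := by ring
            _ = (v0 * a - b) - v0 * (a + v0 * b) := by rw [e1, e2]
            _ = -b * (v0 ^ 2 + 1) := by ring
            _ = m' * (m * (-b)) := by rw [hq]; ring
        exact mul_left_cancel₀ hm' h5
      refine ⟨x, y, e3, ⟨a, -b, by linarith⟩, ?_⟩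
      have e6 : y - v * x = (y - v0 * x) - (v - v0) * x := by ring
      rw [e6]
      exact dvd_sub e5 (a3.mul_right _)

/-- rotation -/
theorem A1_rot (m : ℕ) (v x y : ℤ) (hv : (m : ℤ) ∣ v ^ 2 + 1) (h : (m : ℤ) ∣ y - v * x) : (m : ℤ) ∣ x - v * (-y) := by
  have e : x - v * (-y) = (v ^ 2 + 1) * x + v * (y - v * x) := by ring
  rw [e]
  exact dvd_add (hv.mul_right _) (h.mul_left _)

/-- [PTW-A1] Thue's lemma with the root of `-1`.
Proof. `m = 1`: take `(0, 1)`. `m ≥ 2`, `t = Nat.sqrt m`, so `t ^ 2 ≤ m < (t + 1) ^ 2`: the `(t + 1) ^ 2 > m` pairs `(x, y)` with `0 ≤ x, y ≤ t` give two distinct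
pairs with the same `y - v x mod m` (pigeonhole); the difference `(x, y) ≠ 0` has `|x|, |y| ≤ t`, `m ∣ y - v x`, so `m ∣ x ^ 2 + y ^ 2`
(`y ^ 2 ≡ v ^ 2 x ^ 2 ≡ - x ^ 2`), `0 < x ^ 2 + y ^ 2 ≤ 2 t ^ 2 ≤ 2 m`; it is `m` or `2 m`; `2 m` only if `|x| = |y| = t`, `t ^ 2 = m`, then `t ∣ m ∣ y - v x`..., here
`x ^ 2 + y ^ 2 = 2 m`, `t ^ 2 = m`, `x = ± t`, `y = ± t`, `t ^ 2 ∣ y - v x = t (± 1 - ± v)` so `t ∣ v ∓ 1`, and `t ∣ v ^ 2 + 1`, so `t ∣ 2`; `t = 2`, `m = 4` but `4 ∤ v ^ 2 + 1`; `t = 1`, `m = 1`.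
Coprime: if a prime `p` divides `x` and `y` then `p ^ 2 ∣ m`; `m = p ^ 2 m'`, `y / p = v (x / p) + (m / p) j`, so `m' = (x / p) ^ 2 + (y / p) ^ 2 ≡ (x/p) ^ 2 (1 + v ^ 2) ≡ 0 mod m / p = p m'`, contradiction.
Rotation: `(x, y) → (- y, x)` keeps `m ∣ y - v x` (`x + v y ≡ x + v ^ 2 x = 0`); one of the four rotations has `|x| ≤ y`, `1 ≤ y`. -/
theorem thue (m v : ℕ) (hm : 1 ≤ m) (h : m ∣ v ^ 2 + 1) :
    ∃ x y : ℤ, x ^ 2 + y ^ 2 = m ∧ IsCoprime x y ∧ (m : ℤ) ∣ y - v * x ∧ |x| ≤ y ∧ 1 ≤ y := by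
  have hv : (m : ℤ) ∣ (v : ℤ) ^ 2 + 1 := by exact_mod_cast h
  obtain ⟨x, y, h1, h2, h3⟩ := A1_core m hm v hv
  have hpos : (1 : ℤ) ≤ m := by exact_mod_cast hm
  have key : ∀ x y : ℤ, x ^ 2 + y ^ 2 = m → |x| ≤ y → 1 ≤ y := by
    intro x y h h'
    have h0 : 0 ≤ y := (abs_nonneg x).trans h'
    rcases h0.eq_or_lt with h0 | h0
    · rw [← h0] at h h'
      have hx : x = 0 := abs_eq_zero.1 (le_antisymm h' (abs_nonneg x))
      rw [hx] at h
      norm_num at h
      omega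
    · omega
  rcases le_or_gt |x| |y| with hle | hlt
  · rcases le_or_gt 0 y with hy | hy
    · rw [abs_of_nonneg hy] at hle
      exact ⟨x, y, h1, h2, h3, hle, key x y h1 hle⟩
    · rw [abs_of_neg hy] at hle
      have hle' : |(-x)| ≤ -y := by rwa [abs_neg]
      have h1' : (-x) ^ 2 + (-y) ^ 2 = (m : ℤ) := by rw [neg_sq, neg_sq, h1]
      refine ⟨-x, -y, h1', (h2.neg_left).neg_right, ?_, hle', key _ _ h1' hle'⟩
      have e : -y - v * (-x) = -(y - v * x) := by ring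
      rw [e]
      exact (dvd_neg).2 h3
  · rcases le_or_gt 0 x with hx | hx
    · rw [abs_of_nonneg hx] at hlt
      have hle' : |(-y)| ≤ x := by rw [abs_neg]; exact hlt.le
      have h1' : (-y) ^ 2 + x ^ 2 = (m : ℤ) := by rw [neg_sq, add_comm, h1]
      exact ⟨-y, x, h1', (h2.symm).neg_left, A1_rot m v x y hv h3, hle', key _ _ h1' hle'⟩
    · rw [abs_of_neg hx] at hlt
      have hle' : |y| ≤ -x := hlt.le
      have h1' : y ^ 2 + (-x) ^ 2 = (m : ℤ) := by rw [neg_sq, add_comm, h1]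
      refine ⟨y, -x, h1', (h2.symm).neg_right, ?_, hle', key _ _ h1' hle'⟩
      have e : -x - v * y = -(x - v * (-y)) := by ring
      rw [e]
      exact (dvd_neg).2 (A1_rot m v x y hv h3)

end Pool.Agent.PTW
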