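import Pool.Agent.PTW.Defs

set_option autoImplicit false

namespace Pool.Agent.PTW

open Finset

/-- [PTW-A2a] `m = a ^ 2 + b ^ 2`, `b ≡ v a mod m`, `v, w` roots of `-1` mod `m`, `k`, `(m, k) = 1`.
Proof. `b ∣ a c - N`; put `e = (a c - N) / b`, so `a c - b e = N`; `b k ∣ c (a - b w) - N = b (e - c w)`, so `k ∣ e - w c`. Put `s = a e + b c`. Then `s b = a (a c - N) + b ^ 2 c = c m - a N`.
mod `m`: `v N = v a c - v b e ≡ b c + a e = s` (`v a ≡ b`, `v b ≡ v ^ 2 a ≡ - a`). mod `k`: `s ≡ c (a w + b)`, `w N ≡ w (a c - b w c) = c (a w - b w ^ 2) ≡ c (a w + b)`. -/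
theorem bij1 (N m k v w : ℕ) (a b c : ℤ) (hb : 1 ≤ b) (hm : a ^ 2 + b ^ 2 = m) (hv : m ∣ v ^ 2 + 1) (hw : k ∣ w ^ 2 + 1)
    (hab : (m : ℤ) ∣ b - v * a) (h : b * k ∣ c * (a - b * w) - N) :
    ∃ s : ℤ, s * b = c * m - a * N ∧ (m : ℤ) ∣ s - N * v ∧ (k : ℤ) ∣ s - N * w := by
  obtain ⟨j, hj⟩ := h
  obtain ⟨t, ht⟩ := hab
  obtain ⟨u, hu⟩ : (m : ℤ) ∣ (v : ℤ) ^ 2 + 1 := by exact_mod_cast hv
  obtain ⟨r, hr⟩ : (k : ℤ) ∣ (w : ℤ) ^ 2 + 1 := by exact_mod_cast hw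
  have hm' : a ^ 2 + b ^ 2 = (m : ℤ) := hm
  -- e = k j + w c
  have hN : (N : ℤ) = a * c - b * (k * j + w * c) := by linear_combination -hj
  refine ⟨a * (k * j + w * c) + b * c, ?_, ⟨t * c + (u * a + v * t) * (k * j + w * c), ?_⟩,
    ⟨j * (a + w * b) + b * c * r, ?_⟩⟩
  · rw [hN, ← hm']
    ring
  · rw [hN]
    linear_combination (c + v * (k * j + w * c)) * ht + a * (k * j + w * c) * hu
  · rw [hN]
    linear_combination b * c * hr

/-- [PTW-A2b] the converse.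
Proof. mod `m`: `s b + a N ≡ N (v b + a) ≡ 0`, `s a - b N ≡ N (v a - b) ≡ 0`. Put `c = (s b + a N) / m`, `e = (s a - b N) / m`. `a c - b e = N (a ^ 2 + b ^ 2) / m = N`.
`m (e - w c) = s a - b N - w s b - w a N`; mod `k`, `s ≡ w N`: `w N a - b N - w ^ 2 N b - w a N ≡ 0`. As `(m, k) = 1`: `k ∣ e - w c`, and `c (a - b w) - N = b e - b w c = b (e - w c)`. -/
theorem bij2 (N m k v w : ℕ) (a b s : ℤ) (hb : 1 ≤ b) (hm : a ^ 2 + b ^ 2 = m) (hv : m ∣ v ^ 2 + 1) (hw : k ∣ w ^ 2 + 1)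
    (hab : (m : ℤ) ∣ b - v * a) (hk : Nat.Coprime m k) (h1 : (m : ℤ) ∣ s - N * v) (h2 : (k : ℤ) ∣ s - N * w) :
    ∃ c : ℤ, s * b = c * m - a * N ∧ b * k ∣ c * (a - b * w) - N := by
  obtain ⟨p, hp⟩ := h1
  obtain ⟨q, hq⟩ := h2
  obtain ⟨t, ht⟩ := hab
  obtain ⟨u, hu⟩ : (m : ℤ) ∣ (v : ℤ) ^ 2 + 1 := by exact_mod_cast hv
  obtain ⟨r, hr⟩ : (k : ℤ) ∣ (w : ℤ) ^ 2 + 1 := by exact_mod_cast hw
  have hm' : a ^ 2 + b ^ 2 = (m : ℤ) := hm
  have hm0 : (m : ℤ) ≠ 0 := by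
    rw [← hm']
    positivity
  set c : ℤ := N * (u * a + v * t) + p * b with hc
  set e : ℤ := p * a - N * t with he
  have hs : s = N * v + m * p := by linarith
  have e1 : m * c = s * b + a * N := by
    rw [hs, hc]
    linear_combination (-(N : ℤ) * a) * hu - (N : ℤ) * v * ht
  have e2 : m * e = s * a - b * N := by
    rw [hs, he]
    linear_combination (N : ℤ) * ht
  have e3 : a * c - b * e = N := by
    apply mul_left_cancel₀ hm0
    linear_combination a * e1 - b * e2 + (N : ℤ) * hm'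
  have e4 : (k : ℤ) ∣ e - w * c := by
    have hco : IsCoprime (k : ℤ) (m : ℤ) := Nat.isCoprime_iff_coprime.2 hk.symm
    refine hco.dvd_of_dvd_mul_left ⟨q * (a - w * b) - b * N * r, ?_⟩
    linear_combination e2 - w * e1 + (a - w * b) * hq - b * N * hr
  obtain ⟨j, hj⟩ := e4
  refine ⟨c, ?_, ⟨j, ?_⟩⟩
  · linarith
  · linear_combination e3 + b * hj

/-- the root over `s` -/
theorem A2_fib (N m s : ℕ) (hm : 1 ≤ m) (hN : Nat.Coprime m N) :
    (∑ v ∈ roots m, if (m : ℤ) ∣ s - N * v then 1 else 0) = if m ∣ N ^ 2 + s ^ 2 then 1 else 0 := by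
  have hm0 : (0 : ℤ) < m := by exact_mod_cast hm
  have hco : IsCoprime (m : ℤ) (N : ℤ) := Nat.isCoprime_iff_coprime.2 hN
  obtain ⟨x, y, hxy⟩ := hco
  obtain ⟨v0, hv0⟩ := Int.eq_ofNat_of_zero_le (Int.emod_nonneg ((s : ℤ) * y) hm0.ne')
  have a2 : v0 < m := by
    have h := Int.emod_lt_of_pos ((s : ℤ) * y) hm0
    rw [hv0] at h
    exact_mod_cast h
  have a3 : (m : ℤ) ∣ s * y - v0 := by
    rw [← hv0]
    exact Int.dvd_self_sub_emod
  have a4 : (m : ℤ) ∣ s - N * v0 := by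
    have e : (s : ℤ) - N * v0 = m * (s * x) + N * (s * y - v0) := by linear_combination (-(s : ℤ)) * hxy
    rw [e]
    exact dvd_add (Dvd.intro _ rfl) (a3.mul_left _)
  have huni : ∀ v ∈ range m, ((m : ℤ) ∣ s - N * v ↔ v = v0) := by
    intro v hv
    rw [Finset.mem_range] at hv
    constructor
    · intro h
      have h1 : (m : ℤ) ∣ N * ((v : ℤ) - v0) := by
        have e : (N : ℤ) * ((v : ℤ) - v0) = (s - N * v0) - (s - N * v) := by ring
        rw [e]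
        exact dvd_sub a4 h
      have h2 : (m : ℤ) ∣ (v : ℤ) - v0 := (Nat.isCoprime_iff_coprime.2 hN).dvd_of_dvd_mul_left h1
      have h3 : (v0 : ℤ) ≡ v [ZMOD m] := (Int.modEq_iff_dvd).2 h2
      have h4 : v0 ≡ v [MOD m] := (Int.natCast_modEq_iff).1 h3
      exact (Nat.ModEq.eq_of_lt_of_lt h4 a2 hv).symm
    · rintro rfl
      exact a4
  have hroot : v0 ∈ roots m ↔ m ∣ N ^ 2 + s ^ 2 := by
    unfold roots
    rw [Finset.mem_filter, Finset.mem_range]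
    have e1 : (m : ℤ) ∣ (N : ℤ) ^ 2 + s ^ 2 ↔ (m : ℤ) ∣ (v0 : ℤ) ^ 2 + 1 := by
      have e : (N : ℤ) ^ 2 + s ^ 2 = N ^ 2 * ((v0 : ℤ) ^ 2 + 1) + (s - N * v0) * (s + N * v0) := by ring
      rw [e, dvd_add_left (a4.mul_right ((s : ℤ) + N * v0))]
      exact ⟨fun h => (IsCoprime.pow_right (Nat.isCoprime_iff_coprime.2 hN)).dvd_of_dvd_mul_left h, fun h => h.mul_left _⟩
    constructor
    · rintro ⟨-, h⟩
      have : (m : ℤ) ∣ (N : ℤ) ^ 2 + s ^ 2 := e1.2 (by exact_mod_cast h)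
      exact_mod_cast this
    · intro h
      refine ⟨a2, ?_⟩
      have : (m : ℤ) ∣ (v0 : ℤ) ^ 2 + 1 := e1.1 (by exact_mod_cast h)
      exact_mod_cast this
  have hsum : (∑ v ∈ roots m, if (m : ℤ) ∣ s - N * v then 1 else 0) = ∑ v ∈ roots m, if v = v0 then 1 else 0 := by
    refine Finset.sum_congr rfl fun v hv => ?_
    have hv' : v ∈ range m := (Finset.mem_filter.1 hv).1
    by_cases h : v = v0
    · rw [if_pos h, if_pos ((huni v hv').2 h)]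
    · rw [if_neg h, if_neg fun h' => h ((huni v hv').1 h')]
  rw [hsum, Finset.sum_ite_eq']
  by_cases h : v0 ∈ roots m
  · rw [if_pos h, if_pos (hroot.1 h)]
  · rw [if_neg h, if_neg fun h' => h (hroot.2 h')]

/-- [PTW-A2c] the roots parametrise the `s` with `m k ∣ N ^ 2 + s ^ 2`, `(m, k) = 1 = (m k, N)`.
Proof. Fiber the `s` over `(v, w)`, `v = s N⁻¹ mod m`, `w = s N⁻¹ mod k` (`N` is a unit mod `m` and mod `k`): `m k ∣ N ^ 2 + s ^ 2` iff `m` and `k` divide it iff `v`, `w` are roots;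
`(m : ℤ) ∣ s - N v` determines `v ∈ range m`. -/
theorem cA_roots (N m k : ℕ) (hm : 1 ≤ m) (hk : 1 ≤ k) (h : Nat.Coprime m k) (hN : Nat.Coprime (m * k) N) :
    cA N (m * k) = ∑ v ∈ roots m, ∑ w ∈ roots k,
      ((Icc 1 N).filter (fun s : ℕ => (m : ℤ) ∣ s - N * v ∧ (k : ℤ) ∣ s - N * w)).card := by
  have h1 : Nat.Coprime m N := Nat.Coprime.coprime_dvd_left (Dvd.intro _ rfl) hN
  have h2 : Nat.Coprime k N := Nat.Coprime.coprime_dvd_left (Dvd.intro_left _ rfl) hN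
  have h3 : ∀ v w : ℕ, ((Icc 1 N).filter (fun s : ℕ => (m : ℤ) ∣ s - N * v ∧ (k : ℤ) ∣ s - N * w)).card =
      ∑ s ∈ Icc 1 N, (if (m : ℤ) ∣ s - N * v then 1 else 0) * (if (k : ℤ) ∣ s - N * w then 1 else 0) := by
    intro v w
    rw [Finset.card_filter]
    refine Finset.sum_congr rfl fun s _ => ?_
    by_cases a : (m : ℤ) ∣ s - N * v
    · by_cases b : (k : ℤ) ∣ s - N * w
      · rw [if_pos a, if_pos b, if_pos ⟨a, b⟩]
      · rw [if_pos a, if_neg b, if_neg fun h => b h.2]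
    · rw [if_neg a, if_neg fun h => a h.1, zero_mul]
  have h4 : ∑ v ∈ roots m, ∑ w ∈ roots k,
      ((Icc 1 N).filter (fun s : ℕ => (m : ℤ) ∣ s - N * v ∧ (k : ℤ) ∣ s - N * w)).card =
      ∑ s ∈ Icc 1 N, (∑ v ∈ roots m, if (m : ℤ) ∣ s - N * v then 1 else 0) *
        (∑ w ∈ roots k, if (k : ℤ) ∣ s - N * w then 1 else 0) := by
    calc ∑ v ∈ roots m, ∑ w ∈ roots k,
      ((Icc 1 N).filter (fun s : ℕ => (m : ℤ) ∣ s - N * v ∧ (k : ℤ) ∣ s - N * w)).card =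
        ∑ v ∈ roots m, ∑ w ∈ roots k, ∑ s ∈ Icc 1 N,
          (if (m : ℤ) ∣ s - N * v then 1 else 0) * (if (k : ℤ) ∣ s - N * w then 1 else 0) :=
          Finset.sum_congr rfl fun v _ => Finset.sum_congr rfl fun w _ => h3 v w
      _ = ∑ v ∈ roots m, ∑ s ∈ Icc 1 N, ∑ w ∈ roots k,
          (if (m : ℤ) ∣ s - N * v then 1 else 0) * (if (k : ℤ) ∣ s - N * w then 1 else 0) :=
          Finset.sum_congr rfl fun v _ => Finset.sum_comm
      _ = ∑ s ∈ Icc 1 N, ∑ v ∈ roots m, ∑ w ∈ roots k,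
          (if (m : ℤ) ∣ s - N * v then 1 else 0) * (if (k : ℤ) ∣ s - N * w then 1 else 0) := Finset.sum_comm
      _ = _ := Finset.sum_congr rfl fun s _ => (Finset.sum_mul_sum _ _ _ _).symm
  rw [h4]
  unfold cA
  rw [Finset.card_filter]
  refine Finset.sum_congr rfl fun s _ => ?_
  rw [A2_fib N m s hm h1, A2_fib N k s hk h2]
  by_cases a : m ∣ N ^ 2 + s ^ 2
  · by_cases b : k ∣ N ^ 2 + s ^ 2
    · rw [if_pos a, if_pos b, if_pos (h.mul_dvd_of_dvd_of_dvd a b)]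
    · rw [if_pos a, if_neg b, if_neg fun h' => b (dvd_of_mul_left_dvd h')]
  · rw [if_neg a, if_neg fun h' => a (dvd_of_mul_right_dvd h'), zero_mul]

end Pool.Agent.PTW
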