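import Pool.Agent.PTW.A1
import Pool.Agent.PTW.A2

set_option autoImplicit false

namespace Pool.Agent.PTW

open Finset

/-- [PTW-A10a1] Proof. `thue` and choice. Injectivity: `m = a ^ 2 + b ^ 2` is determined by the pair, and `b ≡ v a ≡ v' a mod m` with `(a, m) = 1` gives `v = v'` (`v, v' < m`). -/
theorem pairs : ∃ P : ℕ → ℕ → ℤ × ℕ, (∀ m v : ℕ, 1 ≤ m → v ∈ roots m →
      (P m v).1 ^ 2 + ((P m v).2 : ℤ) ^ 2 = m ∧ IsCoprime (P m v).1 ((P m v).2 : ℤ) ∧ (m : ℤ) ∣ ((P m v).2 : ℤ) - v * (P m v).1 ∧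
      |(P m v).1| ≤ (P m v).2 ∧ 1 ≤ (P m v).2) ∧
    (∀ m v m' v' : ℕ, 1 ≤ m → v ∈ roots m → 1 ≤ m' → v' ∈ roots m' → P m v = P m' v' → m = m' ∧ v = v') := by
  have h : ∀ m v : ℕ, ∃ p : ℤ × ℕ, 1 ≤ m → v ∈ roots m →
      p.1 ^ 2 + (p.2 : ℤ) ^ 2 = m ∧ IsCoprime p.1 (p.2 : ℤ) ∧ (m : ℤ) ∣ (p.2 : ℤ) - v * p.1 ∧
      |p.1| ≤ p.2 ∧ 1 ≤ p.2 := by
    intro m v
    by_cases h : 1 ≤ m ∧ v ∈ roots m
    · obtain ⟨x, y, h1, h2, h3, h4, h5⟩ := thue m v h.1 (mem_filter.1 h.2).2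
      have hy : ((y.toNat : ℕ) : ℤ) = y := Int.toNat_of_nonneg (by omega)
      refine ⟨(x, y.toNat), fun _ _ => ?_⟩
      simp only [hy]
      exact ⟨h1, h2, h3, h4, by omega⟩
    · exact ⟨(0, 0), fun h1 h2 => absurd ⟨h1, h2⟩ h⟩
  choose P hP using h
  refine ⟨P, hP, ?_⟩
  intro m v m' v' hm hv hm' hv' he
  obtain ⟨h1, h2, h3, h4, h5⟩ := hP m v hm hv
  obtain ⟨h1', h2', h3', h4', h5'⟩ := hP m' v' hm' hv'
  rw [← he] at h1' h2' h3' h4' h5'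
  have hmm : m = m' := by
    have : (m : ℤ) = m' := by rw [← h1, ← h1']
    exact_mod_cast this
  subst hmm
  refine ⟨rfl, ?_⟩
  have hc : IsCoprime (m : ℤ) (P m v).1 := by
    rw [← h1]
    have h6 : IsCoprime (((P m v).2 : ℤ) ^ 2) (P m v).1 := h2.symm.pow_left
    have h7 : (P m v).1 ^ 2 + ((P m v).2 : ℤ) ^ 2 = ((P m v).2 : ℤ) ^ 2 + (P m v).1 * (P m v).1 := by ring
    rw [h7]
    exact h6.add_mul_left_left _
  have hd : (m : ℤ) ∣ (P m v).1 * ((v : ℤ) - v') := by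
    have := dvd_sub h3' h3
    have h8 : ((P m v).2 : ℤ) - v' * (P m v).1 - (((P m v).2 : ℤ) - v * (P m v).1) = (P m v).1 * ((v : ℤ) - v') := by ring
    rwa [h8] at this
  have hd2 : (m : ℤ) ∣ (v : ℤ) - v' := hc.dvd_of_dvd_mul_left hd
  have hv1 : v < m := mem_range.1 (mem_filter.1 hv).1
  have hv2 : v' < m := mem_range.1 (mem_filter.1 hv').1
  have := Int.eq_zero_of_abs_lt_dvd hd2 (by rw [abs_lt]; constructor <;> omega)
  omega

/-- [PTW-A10a2] Proof. By `pairs` the sum is at most the number of pairs `(a, b)` with `1 ≤ b`, `b ^ 2 ≤ M`, `|a| ≤ b`, i.e. `≤ ∑_{b ≤ √M} (2 b + 1) ≤ 3 M`. -/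
theorem sum_rho (M : ℕ) : ∑ m ∈ Icc 1 M, (rho m : ℝ) ≤ 3 * M := by
  obtain ⟨P, hP, hinj⟩ := pairs
  have h1 : ∑ m ∈ Icc 1 M, rho m = ((Icc 1 M).sigma (fun m => roots m)).card := by
    rw [card_sigma]
    rfl
  have h2 : ((Icc 1 M).sigma (fun m => roots m)).card ≤
      ((Icc 1 (Nat.sqrt M)).sigma (fun b : ℕ => Icc (-(b : ℤ)) b)).card := by
    refine card_le_card_of_injOn (fun x => ⟨(P x.1 x.2).2, (P x.1 x.2).1⟩) ?_ ?_
    · rintro ⟨m, v⟩ hx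
      rw [mem_coe, mem_sigma] at hx
      obtain ⟨hm, hv⟩ := hx
      have hm1 := (mem_Icc.1 hm).1
      have hm2 := (mem_Icc.1 hm).2
      obtain ⟨g1, g2, g3, g4, g5⟩ := hP m v hm1 hv
      rw [mem_coe, mem_sigma, mem_Icc, mem_Icc]
      refine ⟨⟨g5, ?_⟩, (abs_le.1 g4).1, (abs_le.1 g4).2⟩
      rw [Nat.le_sqrt]
      have : (((P m v).2 * (P m v).2 : ℕ) : ℤ) ≤ (M : ℤ) := by
        push_cast
        have hM : (m : ℤ) ≤ M := by exact_mod_cast hm2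
        nlinarith [sq_nonneg (P m v).1]
      exact_mod_cast this
    · rintro ⟨m, v⟩ hx ⟨m', v'⟩ hx' he
      rw [mem_coe, mem_sigma] at hx hx'
      simp only [Sigma.mk.injEq, heq_eq_eq] at he
      obtain ⟨e1, e2⟩ := hinj m v m' v' (mem_Icc.1 hx.1).1 hx.2 (mem_Icc.1 hx'.1).1 hx'.2
        (Prod.ext he.2 he.1)
      rw [e1, e2]
  have h3 : ((Icc 1 (Nat.sqrt M)).sigma (fun b : ℕ => Icc (-(b : ℤ)) b)).card =
      ∑ b ∈ Icc 1 (Nat.sqrt M), (2 * b + 1) := by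
    rw [card_sigma]
    refine sum_congr rfl fun b _ => ?_
    rw [Int.card_Icc]
    omega
  have h4 : ∀ s : ℕ, ∑ b ∈ Icc 1 s, (2 * b + 1) = s ^ 2 + 2 * s := by
    intro s
    induction s with
    | zero => rfl
    | succ s ih =>
      rw [sum_Icc_succ_top (by omega), ih]
      ring
  have h5 : ∑ m ∈ Icc 1 M, rho m ≤ 3 * M := by
    rw [h1]
    refine h2.trans ?_
    rw [h3, h4]
    have h6 : Nat.sqrt M * Nat.sqrt M ≤ M := Nat.sqrt_le M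
    have h7 : Nat.sqrt M ≤ Nat.sqrt M * Nat.sqrt M := Nat.le_mul_self _
    nlinarith
  calc ∑ m ∈ Icc 1 M, (rho m : ℝ) = ((∑ m ∈ Icc 1 M, rho m : ℕ) : ℝ) := by push_cast; rfl
    _ ≤ ((3 * M : ℕ) : ℝ) := by exact_mod_cast h5
    _ = 3 * M := by push_cast; ring

theorem A10a_count (N m : ℕ) (hm : 1 ≤ m) (c : ℤ) :
    |(((Icc 1 N).filter (fun s : ℕ => (m : ℤ) ∣ (s : ℤ) - c)).card : ℝ) - N / m| ≤ 1 := by
  have e : (Ioc (0 : ℤ) N).filter (fun x => x ≡ c [ZMOD m]) =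
      ((Icc 1 N).filter (fun s : ℕ => (m : ℤ) ∣ (s : ℤ) - c)).map Nat.castEmbedding := by
    ext x
    rw [mem_filter, mem_Ioc, mem_map]
    constructor
    · rintro ⟨⟨h1, h2⟩, h3⟩
      refine ⟨x.toNat, ?_, ?_⟩
      · rw [mem_filter, mem_Icc, Int.toNat_of_nonneg h1.le]
        exact ⟨by omega, (Int.modEq_iff_dvd.1 h3.symm)⟩
      · show ((x.toNat : ℕ) : ℤ) = x
        exact Int.toNat_of_nonneg h1.le
    · rintro ⟨s, hs, rfl⟩
      rw [mem_filter, mem_Icc] at hs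
      show ((0 : ℤ) < (s : ℤ) ∧ (s : ℤ) ≤ N) ∧ (s : ℤ) ≡ c [ZMOD m]
      exact ⟨by omega, (Int.modEq_iff_dvd.2 hs.2).symm⟩
  have hm0 : (0 : ℤ) < (m : ℤ) := by exact_mod_cast hm
  have h1 := Int.Ioc_filter_modEq_card (0 : ℤ) (N : ℤ) hm0 c
  rw [e, card_map] at h1
  set C := ((Icc 1 N).filter (fun s : ℕ => (m : ℤ) ∣ (s : ℤ) - c)).card with hC
  have hmq : (0 : ℚ) < ((m : ℤ) : ℚ) := by exact_mod_cast hm0
  set A := ⌊(((N : ℤ) : ℚ) - (c : ℚ)) / ((m : ℤ) : ℚ)⌋ with hA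
  set B := ⌊(((0 : ℤ) : ℚ) - (c : ℚ)) / ((m : ℤ) : ℚ)⌋ with hB
  have a1 : (A : ℚ) ≤ (((N : ℤ) : ℚ) - (c : ℚ)) / ((m : ℤ) : ℚ) := Int.floor_le _
  have a2 : (((N : ℤ) : ℚ) - (c : ℚ)) / ((m : ℤ) : ℚ) < A + 1 := Int.lt_floor_add_one _
  have b1 : (B : ℚ) ≤ (((0 : ℤ) : ℚ) - (c : ℚ)) / ((m : ℤ) : ℚ) := Int.floor_le _
  have b2 : (((0 : ℤ) : ℚ) - (c : ℚ)) / ((m : ℤ) : ℚ) < B + 1 := Int.lt_floor_add_one _
  have e2 : (((N : ℤ) : ℚ) - (c : ℚ)) / ((m : ℤ) : ℚ) =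
      (N : ℚ) / (m : ℚ) + (((0 : ℤ) : ℚ) - (c : ℚ)) / ((m : ℤ) : ℚ) := by
    push_cast
    ring
  rw [e2] at a1 a2
  have hN : (0 : ℚ) ≤ (N : ℚ) / (m : ℚ) := by positivity
  have hAB : 0 ≤ A - B := by
    have : (B : ℚ) < A + 1 := by linarith
    have h2 : B < A + 1 := by exact_mod_cast this
    omega
  have h3 : (C : ℤ) = A - B := by
    rw [h1]
    exact max_eq_left hAB
  have h4 : (C : ℚ) = A - B := by exact_mod_cast h3
  have h5 : |(C : ℚ) - (N : ℚ) / (m : ℚ)| ≤ 1 := by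
    rw [abs_le, h4]
    constructor <;> linarith
  have h6 : ((|(C : ℚ) - (N : ℚ) / (m : ℚ)| : ℚ) : ℝ) ≤ ((1 : ℚ) : ℝ) := Rat.cast_le.2 h5
  push_cast at h6
  exact h6

/-- [PTW-A10a3] the terms `k = 1`. Proof. `cA_roots` with `k = 1` (`roots 1 = {0}`), the number of `s ∈ [1, N]` in a class mod `m` is `N / m + O(1)` with `|O(1)| ≤ 1`; `sum_rho`. -/
theorem k_one (N M : ℕ) (hN : 1 ≤ N) (a : ℕ → ℝ) (ha : ∀ m, |a m| ≤ 1) :
    |∑ m ∈ (Icc 1 M).filter (fun m => Nat.Coprime m N), a m * ((cA N m : ℝ) - rho m * N / m)| ≤ 3 * M := by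
  have h1 : ∀ m ∈ (Icc 1 M).filter (fun m => Nat.Coprime m N),
      |a m * ((cA N m : ℝ) - rho m * N / m)| ≤ (rho m : ℝ) := by
    intro m hm
    rw [mem_filter, mem_Icc] at hm
    obtain ⟨⟨hm1, hm2⟩, hm3⟩ := hm
    have h2 := cA_roots N m 1 hm1 le_rfl (Nat.coprime_one_right m) (by rw [mul_one]; exact hm3)
    have hr : roots 1 = {0} := by decide
    rw [mul_one, hr] at h2
    have h3 : cA N m = ∑ v ∈ roots m, ((Icc 1 N).filter (fun s : ℕ => (m : ℤ) ∣ (s : ℤ) - (N * v : ℤ))).card := by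
      rw [h2]
      refine sum_congr rfl fun v _ => ?_
      rw [sum_singleton]
      congr 1
      refine filter_congr fun s _ => ?_
      constructor
      · rintro ⟨h4, -⟩
        exact h4
      · intro h4
        refine ⟨h4, ?_⟩
        rw [Nat.cast_one]
        exact one_dvd _
    have h4 : (cA N m : ℝ) - rho m * N / m = ∑ v ∈ roots m,
        ((((Icc 1 N).filter (fun s : ℕ => (m : ℤ) ∣ (s : ℤ) - (N * v : ℤ))).card : ℝ) - N / m) := by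
      rw [sum_sub_distrib, sum_const, nsmul_eq_mul, h3, Nat.cast_sum]
      unfold rho
      ring
    rw [abs_mul, h4]
    have h5 : |∑ v ∈ roots m,
        ((((Icc 1 N).filter (fun s : ℕ => (m : ℤ) ∣ (s : ℤ) - (N * v : ℤ))).card : ℝ) - N / m)| ≤ rho m := by
      refine (abs_sum_le_sum_abs _ _).trans ?_
      refine (sum_le_sum fun (v : ℕ) _ => A10a_count N m hm1 ((N : ℤ) * (v : ℤ))).trans ?_
      rw [sum_const, nsmul_eq_mul, mul_one]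
      exact le_rfl
    calc |a m| * _ ≤ 1 * (rho m : ℝ) := mul_le_mul (ha m) h5 (abs_nonneg _) zero_le_one
      _ = rho m := one_mul _
  refine (abs_sum_le_sum_abs _ _).trans ((sum_le_sum h1).trans ?_)
  refine (sum_le_sum_of_subset_of_nonneg (filter_subset _ _) fun m _ _ => Nat.cast_nonneg _).trans ?_
  exact sum_rho M

end Pool.Agent.PTW
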