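import Pool.Agent.PTW.A7c

set_option autoImplicit false

namespace Pool.Agent.PTW

open Finset

theorem A9_one (N m s : ℕ) (h : Nat.Coprime m N) :
    ((roots m).filter (fun v : ℕ => (m : ℤ) ∣ (s : ℤ) - N * v)).card ≤ if m ∣ N ^ 2 + s ^ 2 then 1 else 0 := by
  by_cases he : (roots m).filter (fun v : ℕ => (m : ℤ) ∣ (s : ℤ) - N * v) = ∅
  · rw [he]; simp
  · obtain ⟨v, hv⟩ := Finset.nonempty_iff_ne_empty.mpr he
    have hv' := hv
    simp only [roots, mem_filter, mem_range] at hv'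
    obtain ⟨⟨hv1, hv2⟩, hv3⟩ := hv'
    have hdiv : m ∣ N ^ 2 + s ^ 2 := by
      have h1 : (m : ℤ) ∣ (N : ℤ) ^ 2 + (s : ℤ) ^ 2 := by
        have e : (N : ℤ) ^ 2 + (s : ℤ) ^ 2 = ((s : ℤ) - N * v) * (s + N * v) + N ^ 2 * ((v : ℤ) ^ 2 + 1) := by ring
        rw [e]
        refine dvd_add (Dvd.dvd.mul_right hv3 _) (Dvd.dvd.mul_left ?_ _)
        exact_mod_cast hv2
      exact_mod_cast h1
    rw [if_pos hdiv, Finset.card_le_one]
    intro a ha b hb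
    simp only [roots, mem_filter, mem_range] at ha hb
    have h1 : (m : ℤ) ∣ (N : ℤ) * ((b : ℤ) - a) := by
      have := dvd_sub ha.2 hb.2
      have e : ((s : ℤ) - N * a) - (s - N * b) = (N : ℤ) * ((b : ℤ) - a) := by ring
      rwa [e] at this
    have h2 : (m : ℤ) ∣ (b : ℤ) - a := by
      refine IsCoprime.dvd_of_dvd_mul_left ?_ h1
      exact_mod_cast Nat.isCoprime_iff_coprime.mpr h
    have h3 : (a : ℤ) ≡ b [ZMOD m] := (Int.modEq_iff_dvd).mpr h2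
    have h4 : a ≡ b [MOD m] := (Int.natCast_modEq_iff).mp h3
    exact Nat.ModEq.eq_of_lt_of_lt h4 ha.1.1 hb.1.1

/-- [PTW-A9a] Proof. For each `s` a pair `(m, k)` with a root pair `(v, w)` counted satisfies `m ∣ N ^ 2 + s ^ 2`, `k ∣ N ^ 2 + s ^ 2` (`s ≡ N v`, `v ^ 2 ≡ - 1`), so `(m, k)` are two divisors, and `v`, `w` are determined by `s` because `(m k, N) = 1`. -/
theorem margin_sum (N M K : ℕ) (S : Finset ℕ) (hN : 1 ≤ N) :
    ∑ m ∈ Icc 1 M, ∑ k ∈ (Icc 1 K).filter (fun k => Nat.Coprime m k ∧ Nat.Coprime (m * k) N),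
      ∑ v ∈ roots m, ∑ w ∈ roots k, (cs N m k v w S : ℝ) ≤ ∑ s ∈ S, ((N ^ 2 + s ^ 2).divisors.card : ℝ) ^ 2 := by
  have hkey : ∑ m ∈ Icc 1 M, ∑ k ∈ (Icc 1 K).filter (fun k => Nat.Coprime m k ∧ Nat.Coprime (m * k) N),
      ∑ v ∈ roots m, ∑ w ∈ roots k, cs N m k v w S ≤ ∑ s ∈ S, (N ^ 2 + s ^ 2).divisors.card ^ 2 := by
    have hcs : ∀ m k v w : ℕ, cs N m k v w S = ∑ s ∈ S, if ((m : ℤ) ∣ (s : ℤ) - N * v ∧ (k : ℤ) ∣ (s : ℤ) - N * w) then 1 else 0 := by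
      intro m k v w
      rw [cs, Finset.card_filter]
    simp only [hcs]
    have hsw : ∑ m ∈ Icc 1 M, ∑ k ∈ (Icc 1 K).filter (fun k => Nat.Coprime m k ∧ Nat.Coprime (m * k) N),
      ∑ v ∈ roots m, ∑ w ∈ roots k, ∑ s ∈ S, (if ((m : ℤ) ∣ (s : ℤ) - N * v ∧ (k : ℤ) ∣ (s : ℤ) - N * w) then 1 else 0)
      = ∑ s ∈ S, ∑ m ∈ Icc 1 M, ∑ k ∈ (Icc 1 K).filter (fun k => Nat.Coprime m k ∧ Nat.Coprime (m * k) N),
      ∑ v ∈ roots m, ∑ w ∈ roots k, (if ((m : ℤ) ∣ (s : ℤ) - N * v ∧ (k : ℤ) ∣ (s : ℤ) - N * w) then 1 else 0) := by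
      rw [Finset.sum_comm' (s := S) (t := fun _ => Icc 1 M) (t' := Icc 1 M) (s' := fun _ => S) (by intro x y; tauto)]
      refine Finset.sum_congr rfl fun m _ => ?_
      rw [Finset.sum_comm' (s := S) (t := fun _ => (Icc 1 K).filter (fun k => Nat.Coprime m k ∧ Nat.Coprime (m * k) N)) (t' := (Icc 1 K).filter (fun k => Nat.Coprime m k ∧ Nat.Coprime (m * k) N)) (s' := fun _ => S) (by intro x y; tauto)]
      refine Finset.sum_congr rfl fun k _ => ?_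
      rw [Finset.sum_comm' (s := S) (t := fun _ => roots m) (t' := roots m) (s' := fun _ => S) (by intro x y; tauto)]
      refine Finset.sum_congr rfl fun v _ => ?_
      rw [Finset.sum_comm]
    rw [hsw]
    refine Finset.sum_le_sum fun s _ => ?_
    have hne : N ^ 2 + s ^ 2 ≠ 0 := by positivity
    have hin : ∀ m k : ℕ, Nat.Coprime (m * k) N →
        ∑ v ∈ roots m, ∑ w ∈ roots k, (if ((m : ℤ) ∣ (s : ℤ) - N * v ∧ (k : ℤ) ∣ (s : ℤ) - N * w) then 1 else 0)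
        ≤ (if m ∣ N ^ 2 + s ^ 2 then 1 else 0) * (if k ∣ N ^ 2 + s ^ 2 then 1 else 0) := by
      intro m k hc
      have e : ∑ v ∈ roots m, ∑ w ∈ roots k, (if ((m : ℤ) ∣ (s : ℤ) - N * v ∧ (k : ℤ) ∣ (s : ℤ) - N * w) then 1 else 0)
          = ((roots m).filter (fun v : ℕ => (m : ℤ) ∣ (s : ℤ) - N * v)).card * ((roots k).filter (fun w : ℕ => (k : ℤ) ∣ (s : ℤ) - N * w)).card := by
        rw [Finset.card_filter, Finset.card_filter, Finset.sum_mul_sum]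
        refine Finset.sum_congr rfl fun v _ => Finset.sum_congr rfl fun w _ => ?_
        by_cases h1 : (m : ℤ) ∣ (s : ℤ) - N * v <;> by_cases h2 : (k : ℤ) ∣ (s : ℤ) - N * w <;> simp [h1, h2]
      rw [e]
      exact Nat.mul_le_mul (A9_one N m s (Nat.Coprime.coprime_mul_right hc)) (A9_one N k s (Nat.Coprime.coprime_mul_left hc))
    calc ∑ m ∈ Icc 1 M, ∑ k ∈ (Icc 1 K).filter (fun k => Nat.Coprime m k ∧ Nat.Coprime (m * k) N),
      ∑ v ∈ roots m, ∑ w ∈ roots k, (if ((m : ℤ) ∣ (s : ℤ) - N * v ∧ (k : ℤ) ∣ (s : ℤ) - N * w) then 1 else 0)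
        ≤ ∑ m ∈ Icc 1 M, ∑ k ∈ Icc 1 K, (if m ∣ N ^ 2 + s ^ 2 then 1 else 0) * (if k ∣ N ^ 2 + s ^ 2 then 1 else 0) := by
          refine Finset.sum_le_sum fun m _ => ?_
          refine (Finset.sum_le_sum fun k hk => hin m k ((mem_filter.mp hk).2.2)).trans ?_
          exact Finset.sum_le_sum_of_subset (Finset.filter_subset _ _)
      _ = ((Icc 1 M).filter (fun m => m ∣ N ^ 2 + s ^ 2)).card * ((Icc 1 K).filter (fun m => m ∣ N ^ 2 + s ^ 2)).card := by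
          rw [Finset.card_filter, Finset.card_filter, Finset.sum_mul_sum]
      _ ≤ (N ^ 2 + s ^ 2).divisors.card * (N ^ 2 + s ^ 2).divisors.card := by
          refine Nat.mul_le_mul (Finset.card_le_card ?_) (Finset.card_le_card ?_)
          · intro x hx; exact Nat.mem_divisors.mpr ⟨(mem_filter.mp hx).2, hne⟩
          · intro x hx; exact Nat.mem_divisors.mpr ⟨(mem_filter.mp hx).2, hne⟩
      _ = (N ^ 2 + s ^ 2).divisors.card ^ 2 := by ring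
  exact_mod_cast hkey

theorem A9_mg (N T : ℕ) (hN : 1 ≤ N) (hT : 1 ≤ T) : ((Mg N T).card : ℝ) ≤ 50 * ((N : ℝ) / T + 1) := by
  have hT0 : (0 : ℝ) < T := by exact_mod_cast hT
  have hx : (0 : ℝ) ≤ 25 * (N : ℝ) / T := by positivity
  have hsub : Mg N T ⊆ Icc 1 ⌊25 * (N : ℝ) / T⌋₊ ∪ Ioc (N - ⌈25 * (N : ℝ) / T⌉₊) N := by
    intro s hs
    simp only [Mg, mem_filter, mem_Icc] at hs
    simp only [mem_union, mem_Icc, mem_Ioc]
    rcases hs.2 with h | h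
    · left
      exact ⟨hs.1.1, Nat.le_floor h.le⟩
    · right
      refine ⟨?_, hs.1.2⟩
      have h1 : (25 * (N : ℝ) / T) ≤ ⌈25 * (N : ℝ) / T⌉₊ := Nat.le_ceil _
      have h2 : (N : ℝ) < s + ⌈25 * (N : ℝ) / T⌉₊ := by linarith
      have h3 : N < s + ⌈25 * (N : ℝ) / T⌉₊ := by exact_mod_cast h2
      have := hs.1.1
      omega
  have h1 := (Finset.card_le_card hsub).trans (Finset.card_union_le _ _)
  rw [Nat.card_Icc, Nat.card_Ioc] at h1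
  have h2 : (Mg N T).card ≤ ⌊25 * (N : ℝ) / T⌋₊ + ⌈25 * (N : ℝ) / T⌉₊ := by omega
  have h3 : ((⌊25 * (N : ℝ) / T⌋₊ : ℕ) : ℝ) ≤ 25 * (N : ℝ) / T := Nat.floor_le hx
  have h4 : ((⌈25 * (N : ℝ) / T⌉₊ : ℕ) : ℝ) < 25 * (N : ℝ) / T + 1 := Nat.ceil_lt_add_one hx
  have h5 : ((Mg N T).card : ℝ) ≤ ⌊25 * (N : ℝ) / T⌋₊ + ⌈25 * (N : ℝ) / T⌉₊ := by exact_mod_cast h2
  have e : 25 * (N : ℝ) / T = 25 * ((N : ℝ) / T) := by ring
  rw [e] at h3 h4 h5
  linarith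

/-- [PTW-A9b] Proof. `margin_sum`, `small` with `ε / 2` (`N ^ 2 + s ^ 2 ≤ 2 N ^ 2`), `#Mg ≤ 50 N / T + 2`. -/
theorem margin_le (ε : ℝ) (hε : 0 < ε) : ∃ C : ℝ, 0 < C ∧ ∀ N T M K : ℕ, 1 ≤ N → 1 ≤ T →
    ∑ m ∈ Icc 1 M, ∑ k ∈ (Icc 1 K).filter (fun k => Nat.Coprime m k ∧ Nat.Coprime (m * k) N),
      ∑ v ∈ roots m, ∑ w ∈ roots k, (cs N m k v w (Mg N T) : ℝ) ≤ C * (N : ℝ) ^ ε * (N / T + 1) := by
  obtain ⟨C₀, hC₀, h⟩ := small (ε / 2) (by positivity)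
  refine ⟨C₀ ^ 2 * 50, by positivity, ?_⟩
  intro N T M K hN hT
  refine (margin_sum N M K (Mg N T) hN).trans ?_
  have hN1 : (1 : ℝ) ≤ N := by exact_mod_cast hN
  have hpow : ((N : ℝ) ^ (ε / 2)) ^ 2 = (N : ℝ) ^ ε := by
    rw [← Real.rpow_natCast, ← Real.rpow_mul (by positivity)]
    congr 1; push_cast; ring
  have hbd : ∀ s ∈ Mg N T, ((N ^ 2 + s ^ 2).divisors.card : ℝ) ^ 2 ≤ C₀ ^ 2 * (N : ℝ) ^ ε := by
    intro s hs
    have hs' : s ≤ N := (mem_Icc.mp (mem_filter.mp hs).1).2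
    have h1 : N ^ 2 + s ^ 2 ≤ 100 * N ^ 10 := by
      have a1 : s ^ 2 ≤ N ^ 2 := Nat.pow_le_pow_left hs' 2
      have a2 : N ^ 2 ≤ N ^ 10 := Nat.pow_le_pow_right hN (by norm_num)
      omega
    have h2 := (h N (N ^ 2 + s ^ 2) hN (by have := Nat.one_le_two_pow (n := 1); nlinarith [hN, sq_nonneg s]) h1).1
    calc ((N ^ 2 + s ^ 2).divisors.card : ℝ) ^ 2 ≤ (C₀ * (N : ℝ) ^ (ε / 2)) ^ 2 := by
          exact pow_le_pow_left₀ (by positivity) h2 2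
      _ = C₀ ^ 2 * (N : ℝ) ^ ε := by rw [mul_pow, hpow]
  calc ∑ s ∈ Mg N T, ((N ^ 2 + s ^ 2).divisors.card : ℝ) ^ 2 ≤ ∑ s ∈ Mg N T, C₀ ^ 2 * (N : ℝ) ^ ε := Finset.sum_le_sum hbd
    _ = (Mg N T).card * (C₀ ^ 2 * (N : ℝ) ^ ε) := by rw [Finset.sum_const, nsmul_eq_mul]
    _ ≤ (50 * ((N : ℝ) / T + 1)) * (C₀ ^ 2 * (N : ℝ) ^ ε) := by
        refine mul_le_mul_of_nonneg_right (A9_mg N T hN hT) (by positivity)
    _ = C₀ ^ 2 * 50 * (N : ℝ) ^ ε * ((N : ℝ) / T + 1) := by ring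

theorem A9_harm (K N : ℕ) (hK : K ≤ N) (hN : 1 ≤ N) : ∑ k ∈ Icc 1 K, (1 : ℝ) / k ≤ 1 + Real.log N := by
  have h1 : ∑ k ∈ Icc 1 K, (1 : ℝ) / k ≤ ∑ k ∈ Icc 1 N, (1 : ℝ) / k := by
    refine Finset.sum_le_sum_of_subset_of_nonneg (Finset.Icc_subset_Icc le_rfl hK) fun i _ _ => by positivity
  refine h1.trans ?_
  have h2 := harmonic_le_one_add_log N
  rw [harmonic_eq_sum_Icc] at h2
  push_cast at h2
  simpa [one_div] using h2

/-- [PTW-A9c] Proof. `|a| ≤ b`: at most `3 b` values of `a`, so the sum is `≤ ∑_{b ≤ B} 3 b (13 N / (T b ^ 2) + 1 / b) * ∑_{k ≤ K} rho k / k`; `rho k ≤ 2 ^ ω(k) ≤ C N ^ (ε/4)` for squarefree `k ≤ N` and `∑ 1 / k ≤ 1 + log N`. -/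
theorem main_err (ε : ℝ) (hε : 0 < ε) : ∃ C : ℝ, 0 < C ∧ ∀ N T B K : ℕ, 1 ≤ N → 1 ≤ T → B ≤ N → K ≤ N →
    ∑ b ∈ Icc 1 B, ∑ a ∈ Icc (-(b : ℤ)) b, ∑ k ∈ (Icc 1 K).filter Squarefree, (rho k : ℝ) * (13 * N / (T * b ^ 2 * k) + 1 / (b * k)) ≤
      C * (N : ℝ) ^ ε * (N / T + B) := by
  obtain ⟨C₀, hC₀, h⟩ := small (ε / 3) (by positivity)
  refine ⟨39 * C₀ ^ 3, by positivity, ?_⟩
  intro N T B K hN hT hB hK
  have hN1 : (1 : ℝ) ≤ N := by exact_mod_cast hN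
  have hT0 : (0 : ℝ) < T := by exact_mod_cast hT
  set X : ℝ := C₀ * (N : ℝ) ^ (ε / 3) with hX
  have hX1 : 1 ≤ X := by
    have : (1 : ℝ) ≤ (N : ℝ) ^ (ε / 3) := Real.one_le_rpow hN1 (by positivity)
    nlinarith
  have hX0 : 0 < X := by linarith
  have hpow : ((N : ℝ) ^ (ε / 3)) ^ 3 = (N : ℝ) ^ ε := by
    rw [← Real.rpow_natCast, ← Real.rpow_mul (by positivity)]
    congr 1; push_cast; ring
  have hX3 : X ^ 3 = C₀ ^ 3 * (N : ℝ) ^ ε := by rw [hX, mul_pow, hpow]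
  have hlog : 1 + Real.log N ≤ X := by
    have := (h N N hN hN (by nlinarith [Nat.pow_le_pow_right hN (show 1 ≤ 10 by norm_num)])).2.2
    linarith
  have hrho : ∀ k ∈ (Icc 1 K).filter Squarefree, (rho k : ℝ) ≤ X := by
    intro k hk
    rw [mem_filter, mem_Icc] at hk
    have h1 : (rho k : ℝ) ≤ 2 ^ k.primeFactors.card := by exact_mod_cast rho_le k hk.2
    have h2 : (2 : ℝ) ^ k.primeFactors.card ≤ 15 ^ k.primeFactors.card := by
      exact pow_le_pow_left₀ (by norm_num) (by norm_num) _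
    have h3 := (h N k hN hk.1.1 (by nlinarith [Nat.pow_le_pow_right hN (show 1 ≤ 10 by norm_num), hk.1.2])).2.1
    linarith
  -- inner sum
  have hin : ∀ b ∈ Icc 1 B, ∀ a ∈ Icc (-(b : ℤ)) b,
      ∑ k ∈ (Icc 1 K).filter Squarefree, (rho k : ℝ) * (13 * N / (T * b ^ 2 * k) + 1 / (b * k)) ≤
        X ^ 2 * (13 * N / (T * b ^ 2) + 1 / b) := by
    intro b hb a _
    have hb0 : (0 : ℝ) < b := by have := (mem_Icc.mp hb).1; exact_mod_cast this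
    calc ∑ k ∈ (Icc 1 K).filter Squarefree, (rho k : ℝ) * (13 * N / (T * b ^ 2 * k) + 1 / (b * k))
        ≤ ∑ k ∈ (Icc 1 K).filter Squarefree, X * (13 * N / (T * b ^ 2 * k) + 1 / (b * k)) := by
          refine Finset.sum_le_sum fun k hk => mul_le_mul_of_nonneg_right (hrho k hk) (by positivity)
      _ ≤ ∑ k ∈ Icc 1 K, X * (13 * N / (T * b ^ 2 * k) + 1 / (b * k)) := by
          refine Finset.sum_le_sum_of_subset_of_nonneg (Finset.filter_subset _ _) fun i _ _ => by positivity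
      _ = X * (13 * N / (T * b ^ 2) + 1 / b) * ∑ k ∈ Icc 1 K, (1 : ℝ) / k := by
          rw [Finset.mul_sum]
          refine Finset.sum_congr rfl fun k hk => ?_
          have hk0 : (0 : ℝ) < k := by have := (mem_Icc.mp hk).1; exact_mod_cast this
          field_simp
      _ ≤ X * (13 * N / (T * b ^ 2) + 1 / b) * X := by
          refine mul_le_mul_of_nonneg_left ((A9_harm K N hK hN).trans hlog) (by positivity)
      _ = X ^ 2 * (13 * N / (T * b ^ 2) + 1 / b) := by ring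
  calc ∑ b ∈ Icc 1 B, ∑ a ∈ Icc (-(b : ℤ)) b, ∑ k ∈ (Icc 1 K).filter Squarefree, (rho k : ℝ) * (13 * N / (T * b ^ 2 * k) + 1 / (b * k))
      ≤ ∑ b ∈ Icc 1 B, ∑ a ∈ Icc (-(b : ℤ)) b, X ^ 2 * (13 * N / (T * b ^ 2) + 1 / b) :=
        Finset.sum_le_sum fun b hb => Finset.sum_le_sum fun a ha => hin b hb a ha
    _ ≤ ∑ b ∈ Icc 1 B, (3 * b) * (X ^ 2 * (13 * N / (T * b ^ 2) + 1 / b)) := by
        refine Finset.sum_le_sum fun b hb => ?_
        have hb1 := (mem_Icc.mp hb).1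
        have hb0 : (0 : ℝ) < b := by exact_mod_cast hb1
        rw [Finset.sum_const, nsmul_eq_mul]
        refine mul_le_mul_of_nonneg_right ?_ (by positivity)
        rw [Int.card_Icc]
        have : ((b : ℤ) + 1 - -(b : ℤ)).toNat ≤ 3 * b := by omega
        exact_mod_cast this
    _ = X ^ 2 * (39 * (N / T) * (∑ b ∈ Icc 1 B, (1 : ℝ) / b) + 3 * B) := by
        have e : ∀ b ∈ Icc 1 B, (3 * (b : ℝ)) * (X ^ 2 * (13 * N / (T * b ^ 2) + 1 / b)) = X ^ 2 * (39 * (N / T)) * (1 / b) + X ^ 2 * 3 := by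
          intro b hb
          have hb0 : (0 : ℝ) < b := by have := (mem_Icc.mp hb).1; exact_mod_cast this
          field_simp
          ring
        rw [Finset.sum_congr rfl e, Finset.sum_add_distrib, ← Finset.mul_sum, Finset.sum_const, Nat.card_Icc, nsmul_eq_mul]
        have : ((B + 1 - 1 : ℕ) : ℝ) = B := by simp
        rw [this]
        ring
    _ ≤ X ^ 2 * (39 * (N / T) * X + 39 * B * X) := by
        refine mul_le_mul_of_nonneg_left ?_ (by positivity)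
        refine add_le_add (mul_le_mul_of_nonneg_left ((A9_harm B N hB hN).trans hlog) (by positivity)) ?_
        have : (0 : ℝ) ≤ B := by positivity
        nlinarith
    _ = 39 * X ^ 3 * (N / T + B) := by ring
    _ = 39 * C₀ ^ 3 * (N : ℝ) ^ ε * (N / T + B) := by rw [hX3]; ring

end Pool.Agent.PTW
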