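import Pool.Agent.PTW.A8b
import Pool.Agent.PTW.A9
import Pool.Agent.PTW.A10a

set_option autoImplicit false

namespace Pool.Agent.PTW

open Finset

theorem A10b_inj {α β : Type*} [DecidableEq β] (S : Finset α) (T : Finset β) (φ : α → β)
    (hφ : ∀ s ∈ S, φ s ∈ T) (hinj : ∀ s ∈ S, ∀ s' ∈ S, φ s = φ s' → s = s') (g : β → ℝ)
    (hg : ∀ t ∈ T, 0 ≤ g t) : ∑ s ∈ S, g (φ s) ≤ ∑ t ∈ T, g t := by
  rw [← Finset.sum_image (f := g) (g := φ) (fun s hs s' hs' h => hinj s hs s' hs' h)]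
  exact Finset.sum_le_sum_of_subset_of_nonneg (fun t ht => by
    obtain ⟨s, hs, rfl⟩ := Finset.mem_image.mp ht
    exact hφ s hs) (fun t ht _ => hg t ht)

/-- one term -/
theorem A10b_term (N T m k v b : ℕ) (j a : ℤ) (hN : 1 ≤ N) (hT : 40 ≤ T) (hb : 1 ≤ b) (hk : 1 ≤ k)
    (hab : |a| ≤ b) (ha : a ∈ Ioc (Iu T b j) (Iu T b (j + 1))) (hm : a ^ 2 + (b : ℤ) ^ 2 = m)
    (hmk : Nat.Coprime m k) (hv : v ∈ roots m) (hvab : (m : ℤ) ∣ b - v * a) :
    |∑ w ∈ roots k, ((cs N m k v w (Icc 1 N) : ℝ) - N / (m * k)) -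
      ∑ w ∈ roots k, ((cJ N (Js N T b j) (Jt N T b j) a b k w : ℝ) -
        ((Ioc (Js N T b j) (Jt N T b j)).card : ℝ) / (b * k))| ≤
      (∑ w ∈ roots k, (cs N m k v w (Mg N T) : ℝ)) +
        (rho k : ℝ) * (13 * N / (T * b ^ 2 * k) + 1 / (b * k)) := by
  have hX := slice3 N T b k j a hN hT hb hk hab ha
  rw [hm] at hX
  have hX' : |((Ioc (Js N T b j) (Jt N T b j)).card : ℝ) / (b * k) - N / ((m : ℝ) * k)| ≤
      13 * N / (T * b ^ 2 * k) + 1 / (b * k) := by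
    simpa using hX
  rw [← Finset.sum_sub_distrib]
  refine (Finset.abs_sum_le_sum_abs _ _).trans ?_
  have h1 : (rho k : ℝ) * (13 * N / (T * b ^ 2 * k) + 1 / (b * k)) =
      ∑ w ∈ roots k, (13 * (N : ℝ) / (T * b ^ 2 * k) + 1 / (b * k)) := by
    rw [Finset.sum_const, nsmul_eq_mul]; rfl
  rw [h1, ← Finset.sum_add_distrib]
  apply Finset.sum_le_sum
  intro w hw
  obtain ⟨c1, c2⟩ := cs_cJ N T m k v w b j a hN hT hb hk hab ha hm hmk hv hw hvab
  have c1' : (cJ N (Js N T b j) (Jt N T b j) a b k w : ℝ) ≤ cs N m k v w (Icc 1 N) := by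
    exact_mod_cast c1
  have c2' : (cs N m k v w (Icc 1 N) : ℝ) ≤ cJ N (Js N T b j) (Jt N T b j) a b k w +
      cs N m k v w (Mg N T) := by exact_mod_cast c2
  have h2 := abs_le.mp hX'
  rw [abs_le]
  constructor
  · linarith [h2.1, h2.2]
  · linarith [h2.1, h2.2]

theorem A10b_dyadic (f : ℕ → ℝ) (L : ℕ) :
    ∑ i ∈ range (L + 1), ∑ k ∈ Ioc (2 ^ i) (2 * 2 ^ i), f k = ∑ k ∈ Ioc 1 (2 ^ (L + 1)), f k := by
  induction L with
  | zero => simp
  | succ n ih =>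
    rw [Finset.sum_range_succ, ih]
    have : 2 * 2 ^ (n + 1) = 2 ^ (n + 1 + 1) := by ring
    rw [this]
    exact Finset.sum_Ioc_consecutive f (Nat.one_le_two_pow) (Nat.pow_le_pow_right (by norm_num) (by omega))

/-- the sum over `k` for one pair `(m, v)` -/
theorem A10b_k (N K m b : ℕ) (β : ℕ → ℝ) (hβN : ∀ k, β k ≠ 0 → Squarefree k ∧ Nat.Coprime k N)
    (s t a : ℤ) (hm : a ^ 2 + (b : ℤ) ^ 2 = m) :
    |∑ k ∈ (Icc 2 K).filter (fun k => Nat.Coprime m k ∧ Nat.Coprime (m * k) N),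
        β k * ∑ w ∈ roots k, ((cJ N s t a b k w : ℝ) - ((Ioc s t).card : ℝ) / (b * k))| ≤
      ∑ i ∈ range (Nat.log 2 K + 1),
        |dev N (2 ^ i) (fun k => if 2 ≤ k ∧ k ≤ K then β k else 0) s t a b| := by
  classical
  by_cases hmN : Nat.Coprime m N
  · have hnat : (a ^ 2 + (b : ℤ) ^ 2).natAbs = m := by rw [hm]; simp
    have key : ∑ k ∈ (Icc 2 K).filter (fun k => Nat.Coprime m k ∧ Nat.Coprime (m * k) N),
        β k * ∑ w ∈ roots k, ((cJ N s t a b k w : ℝ) - ((Ioc s t).card : ℝ) / (b * k)) =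
        ∑ i ∈ range (Nat.log 2 K + 1),
          dev N (2 ^ i) (fun k => if 2 ≤ k ∧ k ≤ K then β k else 0) s t a b := by
      unfold dev
      simp only [hnat]
      have h1 : ∀ i ∈ range (Nat.log 2 K + 1),
          ∑ k ∈ (Ioc (2 ^ i) (2 * 2 ^ i)).filter (fun k : ℕ => Nat.Coprime k m),
            (if 2 ≤ k ∧ k ≤ K then β k else 0) *
              ∑ w ∈ roots k, ((cJ N s t a b k w : ℝ) - ((Ioc s t).card : ℝ) / (b * k)) =
          ∑ k ∈ Ioc (2 ^ i) (2 * 2 ^ i), (if Nat.Coprime k m then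
            (if 2 ≤ k ∧ k ≤ K then β k else 0) *
              ∑ w ∈ roots k, ((cJ N s t a b k w : ℝ) - ((Ioc s t).card : ℝ) / (b * k)) else 0) := by
        intro i _
        rw [Finset.sum_filter]
      rw [Finset.sum_congr rfl h1, A10b_dyadic]
      rw [Finset.sum_filter]
      have hsub : Icc 2 K ⊆ Ioc 1 (2 ^ (Nat.log 2 K + 1)) := by
        intro k hk
        rw [mem_Icc] at hk
        rw [mem_Ioc]
        refine ⟨by omega, ?_⟩
        have : K < 2 ^ (Nat.log 2 K + 1) := Nat.lt_pow_succ_log_self (by norm_num) K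
        omega
      rw [← Finset.sum_subset hsub]
      · apply Finset.sum_congr rfl
        intro k hk
        rw [mem_Icc] at hk
        rw [if_pos (hk : 2 ≤ k ∧ k ≤ K)]
        by_cases hβ : β k = 0
        · simp [hβ]
        · have hkN := (hβN k hβ).2
          by_cases hc : Nat.Coprime k m
          · rw [if_pos hc, if_pos ⟨hc.symm, Nat.Coprime.mul_left hmN hkN⟩]
          · rw [if_neg hc, if_neg]
            intro h
            exact hc h.1.symm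
      · intro k _ hk
        rw [mem_Icc] at hk
        simp [hk]
    rw [key]
    exact Finset.abs_sum_le_sum_abs _ _
  · have : (Icc 2 K).filter (fun k => Nat.Coprime m k ∧ Nat.Coprime (m * k) N) = ∅ := by
      rw [Finset.filter_eq_empty_iff]
      intro k _ h
      exact hmN (Nat.Coprime.coprime_mul_right h.2)
    rw [this]
    simp only [Finset.sum_empty, abs_zero]
    exact Finset.sum_nonneg fun _ _ => abs_nonneg _

/-- [PTW-A10b] reduction of the bilinear form to the deviations of the slices.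
Proof. `cA_roots`, so the form is `∑_{m,k} a_m β_k ∑_v ∑_w (cs N m k v w (Icc 1 N) - N / (m k))`. For every `(m, v)` let `(a, b) = P m v` (`pairs`), `b ≤ √M`, and let `j` be a slice containing `a` (`slice5`). Then by `cs_cJ` and `slice3`
`|∑_w (cs - N/(mk)) - ∑_w (cJ - #J/(b k))| ≤ ∑_w cs N m k v w (Mg N T) + rho k (13 N / (T b ^ 2 k) + 1 / (b k))`; sum over `m, v, k` (`|a_m|, |β_k| ≤ 1`): the first part is `margin_le`, the second `main_err` (`pairs` is injective).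
The main part: for fixed `(m, v)` the condition `(m, k) = 1` is `(k, a ^ 2 + b ^ 2) = 1`, and `(k, N) = 1` holds when `β k ≠ 0`; `Icc 2 K` is covered by the `Ioc (2 ^ i) (2 ^ (i + 1))`, `i ≤ log₂ K`; triangle inequality and injectivity of `P`
(all pairs `(a, b)` of all the slices are added on the right side; the factor `a_m` and the condition `(m, N) = 1` only depend on `(a, b)`). -/
theorem reduction (ε : ℝ) (hε : 0 < ε) : ∃ C : ℝ, 0 < C ∧ ∀ N T M K : ℕ, 1 ≤ N → 40 ≤ T → M ≤ N → K ≤ N →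
    ∀ a β : ℕ → ℝ, (∀ m, |a m| ≤ 1) → (∀ k, |β k| ≤ 1) → (∀ k, β k ≠ 0 → Squarefree k ∧ Nat.Coprime k N) →
    |∑ m ∈ Icc 1 M, ∑ k ∈ (Icc 2 K).filter (fun k => Nat.Coprime m k ∧ Nat.Coprime (m * k) N),
        a m * β k * ((cA N (m * k) : ℝ) - rho m * rho k * N / (m * k))| ≤
      (∑ j ∈ Icc (-(T : ℤ) - 1) T, ∑ i ∈ range (Nat.log 2 K + 1), ∑ b ∈ Icc 1 (Nat.sqrt M),
        ∑ x ∈ (Ioc (Iu T b j) (Iu T b (j + 1))).filter (fun x : ℤ => IsCoprime x (b : ℤ)),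
          |dev N (2 ^ i) (fun k => if 2 ≤ k ∧ k ≤ K then β k else 0) (Js N T b j) (Jt N T b j) x b|) +
      C * (N : ℝ) ^ ε * (N / T + Nat.sqrt M + 1) := by
  classical
  obtain ⟨C1, hC1, hmar⟩ := margin_le ε hε
  obtain ⟨C2, hC2, hmain⟩ := main_err ε hε
  refine ⟨C1 + C2, by positivity, ?_⟩
  intro N T M K hN hT hM hK a β ha hβ hβN
  obtain ⟨P, hP, hPinj⟩ := pairs
  have hJex : ∀ m v : ℕ, 1 ≤ m → v ∈ roots m → ∃ j ∈ Icc (-(T : ℤ) - 1) T,
      (P m v).1 ∈ Ioc (Iu T (P m v).2 j) (Iu T (P m v).2 (j + 1)) := by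
    intro m v hm hv
    obtain ⟨-, -, -, h4, h5⟩ := hP m v hm hv
    exact slice5 T (P m v).2 (P m v).1 hT h5 h4
  choose! J hJ1 hJ2 using hJex
  -- the functions
  set β' : ℕ → ℝ := fun k => if 2 ≤ k ∧ k ≤ K then β k else 0 with hβ'
  set Sf : ℕ → ℕ → ℕ → ℝ := fun m v k => ∑ w ∈ roots k,
    ((cJ N (Js N T (P m v).2 (J m v)) (Jt N T (P m v).2 (J m v)) (P m v).1 (P m v).2 k w : ℝ) -
      ((Ioc (Js N T (P m v).2 (J m v)) (Jt N T (P m v).2 (J m v))).card : ℝ) / ((P m v).2 * k)) with hSf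
  set Xf : ℕ → ℕ → ℝ := fun b k => (rho k : ℝ) * (13 * N / (T * b ^ 2 * k) + 1 / (b * k)) with hXf
  set fil : ℕ → Finset ℕ := fun m => (Icc 2 K).filter (fun k => Nat.Coprime m k ∧ Nat.Coprime (m * k) N) with hfil
  have hX0 : ∀ b k, 0 ≤ Xf b k := fun b k => by rw [hXf]; positivity
  -- step 1: expansion and error
  have step1 : |∑ m ∈ Icc 1 M, ∑ k ∈ fil m, a m * β k * ((cA N (m * k) : ℝ) - rho m * rho k * N / (m * k)) -
      ∑ m ∈ Icc 1 M, ∑ k ∈ fil m, ∑ v ∈ roots m, a m * β k * Sf m v k| ≤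
      (∑ m ∈ Icc 1 M, ∑ k ∈ fil m, ∑ v ∈ roots m, ∑ w ∈ roots k, (cs N m k v w (Mg N T) : ℝ)) +
      ∑ m ∈ Icc 1 M, ∑ k ∈ fil m, ∑ v ∈ roots m, (if Squarefree k then Xf (P m v).2 k else 0) := by
    rw [← Finset.sum_sub_distrib, ← Finset.sum_add_distrib]
    refine (Finset.abs_sum_le_sum_abs _ _).trans (Finset.sum_le_sum fun m hm => ?_)
    rw [← Finset.sum_sub_distrib, ← Finset.sum_add_distrib]
    refine (Finset.abs_sum_le_sum_abs _ _).trans (Finset.sum_le_sum fun k hk => ?_)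
    rw [mem_Icc] at hm
    rw [hfil, mem_filter, mem_Icc] at hk
    obtain ⟨⟨hk2, hkK⟩, hmk, hmkN⟩ := hk
    have hm1 : 1 ≤ m := hm.1
    have hk1 : 1 ≤ k := by omega
    have hexp : (cA N (m * k) : ℝ) - rho m * rho k * N / (m * k) =
        ∑ v ∈ roots m, ∑ w ∈ roots k, ((cs N m k v w (Icc 1 N) : ℝ) - N / (m * k)) := by
      rw [cA_roots N m k hm1 hk1 hmk hmkN]
      push_cast
      simp only [Finset.sum_sub_distrib, Finset.sum_const, nsmul_eq_mul]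
      have h1 : ((roots m).card : ℝ) = rho m := rfl
      have h2 : ((roots k).card : ℝ) = rho k := rfl
      rw [h1, h2]
      congr 1
      ring
    rw [hexp, Finset.mul_sum, ← Finset.sum_sub_distrib, ← Finset.sum_add_distrib]
    refine (Finset.abs_sum_le_sum_abs _ _).trans (Finset.sum_le_sum fun v hv => ?_)
    obtain ⟨h1, h2, h3, h4, h5⟩ := hP m v hm1 hv
    have hterm := A10b_term N T m k v (P m v).2 (J m v) (P m v).1 hN hT h5 hk1 h4
      (hJ2 m v hm1 hv) h1 hmk hv h3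
    rw [← mul_sub, abs_mul, abs_mul]
    have hE0 : 0 ≤ ∑ w ∈ roots k, (cs N m k v w (Mg N T) : ℝ) :=
      Finset.sum_nonneg fun _ _ => Nat.cast_nonneg _
    by_cases hb0 : β k = 0
    · rw [hb0]
      simp only [abs_zero, mul_zero, zero_mul]
      split_ifs
      · exact add_nonneg hE0 (hX0 _ _)
      · linarith
    · rw [if_pos (hβN k hb0).1]
      have h6 : |a m| * |β k| ≤ 1 := mul_le_one₀ (ha m) (abs_nonneg _) (hβ k)
      calc |a m| * |β k| * |∑ w ∈ roots k, ((cs N m k v w (Icc 1 N) : ℝ) - N / (m * k)) - Sf m v k|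
          ≤ 1 * |∑ w ∈ roots k, ((cs N m k v w (Icc 1 N) : ℝ) - N / (m * k)) - Sf m v k| :=
            mul_le_mul_of_nonneg_right h6 (abs_nonneg _)
        _ ≤ _ := by rw [one_mul]; exact hterm
  -- step 2: margin
  have step2 : (∑ m ∈ Icc 1 M, ∑ k ∈ fil m, ∑ v ∈ roots m, ∑ w ∈ roots k, (cs N m k v w (Mg N T) : ℝ)) ≤
      C1 * (N : ℝ) ^ ε * (N / T + 1) := by
    refine le_trans ?_ (hmar N T M K hN (by omega))
    apply Finset.sum_le_sum
    intro m _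
    apply Finset.sum_le_sum_of_subset_of_nonneg
    · intro k hk
      rw [hfil, mem_filter, mem_Icc] at hk
      rw [mem_filter, mem_Icc]
      exact ⟨⟨by omega, hk.1.2⟩, hk.2⟩
    · intro k _ _
      exact Finset.sum_nonneg fun _ _ => Finset.sum_nonneg fun _ _ => Nat.cast_nonneg _
  -- step 3: main error
  have hbM : ∀ m v : ℕ, 1 ≤ m → m ≤ M → v ∈ roots m → (P m v).2 ∈ Icc 1 (Nat.sqrt M) := by
    intro m v hm hmM hv
    obtain ⟨h1, h2, h3, h4, h5⟩ := hP m v hm hv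
    rw [mem_Icc]
    refine ⟨h5, ?_⟩
    rw [Nat.le_sqrt']
    have : ((P m v).2 : ℤ) ^ 2 ≤ M := by
      have h6 : 0 ≤ (P m v).1 ^ 2 := sq_nonneg _
      have h7 : (m : ℤ) ≤ M := by exact_mod_cast hmM
      linarith
    exact_mod_cast this
  have step3 : (∑ m ∈ Icc 1 M, ∑ k ∈ fil m, ∑ v ∈ roots m, (if Squarefree k then Xf (P m v).2 k else 0)) ≤
      C2 * (N : ℝ) ^ ε * (N / T + Nat.sqrt M) := by
    refine le_trans ?_ (hmain N T (Nat.sqrt M) K hN (by omega) ((Nat.sqrt_le_self M).trans hM) hK)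
    have e1 : (∑ m ∈ Icc 1 M, ∑ k ∈ fil m, ∑ v ∈ roots m, (if Squarefree k then Xf (P m v).2 k else 0)) ≤
        ∑ m ∈ Icc 1 M, ∑ v ∈ roots m, ∑ k ∈ (Icc 1 K).filter Squarefree, Xf (P m v).2 k := by
      apply Finset.sum_le_sum
      intro m _
      rw [Finset.sum_comm]
      apply Finset.sum_le_sum
      intro v _
      rw [← Finset.sum_filter]
      apply Finset.sum_le_sum_of_subset_of_nonneg
      · intro k hk
        rw [mem_filter, hfil, mem_filter, mem_Icc] at hk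
        rw [mem_filter, mem_Icc]
        exact ⟨⟨by omega, hk.1.1.2⟩, hk.2⟩
      · intro k _ _
        exact hX0 _ _
    refine e1.trans ?_
    have e2 : ∑ m ∈ Icc 1 M, ∑ v ∈ roots m, ∑ k ∈ (Icc 1 K).filter Squarefree, Xf (P m v).2 k =
        ∑ q ∈ (Icc 1 M).sigma (fun m => roots m),
          (fun r : (_ : ℕ) × ℤ => ∑ k ∈ (Icc 1 K).filter Squarefree, Xf r.1 k)
            ⟨(P q.1 q.2).2, (P q.1 q.2).1⟩ := by
      rw [Finset.sum_sigma]
    have e3 : ∑ b ∈ Icc 1 (Nat.sqrt M), ∑ x ∈ Icc (-(b : ℤ)) b, ∑ k ∈ (Icc 1 K).filter Squarefree, Xf b k =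
        ∑ r ∈ (Icc 1 (Nat.sqrt M)).sigma (fun b => Icc (-(b : ℤ)) b),
          (fun r : (_ : ℕ) × ℤ => ∑ k ∈ (Icc 1 K).filter Squarefree, Xf r.1 k) r := by
      rw [Finset.sum_sigma]
    rw [e2]
    refine le_trans (A10b_inj _ ((Icc 1 (Nat.sqrt M)).sigma (fun b => Icc (-(b : ℤ)) b))
      (fun q : (_ : ℕ) × ℕ => (⟨(P q.1 q.2).2, (P q.1 q.2).1⟩ : (_ : ℕ) × ℤ)) ?_ ?_
      (fun r : (_ : ℕ) × ℤ => ∑ k ∈ (Icc 1 K).filter Squarefree, Xf r.1 k) ?_) (le_of_eq e3.symm)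
    · intro q hq
      rw [mem_sigma, mem_Icc] at hq
      rw [mem_sigma]
      refine ⟨hbM _ _ hq.1.1 hq.1.2 hq.2, ?_⟩
      obtain ⟨h1, h2, h3, h4, h5⟩ := hP q.1 q.2 hq.1.1 hq.2
      rw [mem_Icc]
      exact abs_le.mp h4
    · intro q hq q' hq' h
      rw [mem_sigma, mem_Icc] at hq hq'
      have h1 : (P q.1 q.2).2 = (P q'.1 q'.2).2 := congrArg Sigma.fst h
      have h2 : (P q.1 q.2).1 = (P q'.1 q'.2).1 := by
        have := (Sigma.mk.inj_iff.mp h).2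
        exact eq_of_heq this
      have h3 : P q.1 q.2 = P q'.1 q'.2 := Prod.ext h2 h1
      obtain ⟨h4, h5⟩ := hPinj q.1 q.2 q'.1 q'.2 hq.1.1 hq.2 hq'.1.1 hq'.2 h3
      exact Sigma.ext h4 (heq_of_eq h5)
    · intro r _
      exact Finset.sum_nonneg fun k _ => hX0 _ _
  -- step 4: the main part
  have step4 : |∑ m ∈ Icc 1 M, ∑ k ∈ fil m, ∑ v ∈ roots m, a m * β k * Sf m v k| ≤
      ∑ j ∈ Icc (-(T : ℤ) - 1) T, ∑ i ∈ range (Nat.log 2 K + 1), ∑ b ∈ Icc 1 (Nat.sqrt M),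
        ∑ x ∈ (Ioc (Iu T b j) (Iu T b (j + 1))).filter (fun x : ℤ => IsCoprime x (b : ℤ)),
          |dev N (2 ^ i) β' (Js N T b j) (Jt N T b j) x b| := by
    set G : ℤ → ℕ → ℤ → ℝ := fun j b x => ∑ i ∈ range (Nat.log 2 K + 1),
      |dev N (2 ^ i) β' (Js N T b j) (Jt N T b j) x b| with hG
    have f1 : |∑ m ∈ Icc 1 M, ∑ k ∈ fil m, ∑ v ∈ roots m, a m * β k * Sf m v k| ≤
        ∑ m ∈ Icc 1 M, ∑ v ∈ roots m, G (J m v) (P m v).2 (P m v).1 := by
      refine (Finset.abs_sum_le_sum_abs _ _).trans (Finset.sum_le_sum fun m hm => ?_)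
      rw [Finset.sum_comm]
      refine (Finset.abs_sum_le_sum_abs _ _).trans (Finset.sum_le_sum fun v hv => ?_)
      rw [mem_Icc] at hm
      obtain ⟨h1, h2, h3, h4, h5⟩ := hP m v hm.1 hv
      have h6 : ∑ k ∈ fil m, a m * β k * Sf m v k = a m * ∑ k ∈ fil m, β k * Sf m v k := by
        rw [Finset.mul_sum]
        exact Finset.sum_congr rfl fun k _ => by ring
      rw [h6, abs_mul]
      calc |a m| * |∑ k ∈ fil m, β k * Sf m v k| ≤ 1 * |∑ k ∈ fil m, β k * Sf m v k| :=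
            mul_le_mul_of_nonneg_right (ha m) (abs_nonneg _)
        _ ≤ _ := by
            rw [one_mul]
            exact A10b_k N K m (P m v).2 β hβN (Js N T (P m v).2 (J m v)) (Jt N T (P m v).2 (J m v))
              (P m v).1 h1
    refine f1.trans ?_
    have e2 : ∑ m ∈ Icc 1 M, ∑ v ∈ roots m, G (J m v) (P m v).2 (P m v).1 =
        ∑ q ∈ (Icc 1 M).sigma (fun m => roots m),
          (fun r : (_ : ℤ × ℕ) × ℤ => G r.1.1 r.1.2 r.2)
            ⟨(J q.1 q.2, (P q.1 q.2).2), (P q.1 q.2).1⟩ := by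
      rw [Finset.sum_sigma]
    set TT : Finset ((_ : ℤ × ℕ) × ℤ) := ((Icc (-(T : ℤ) - 1) T) ×ˢ (Icc 1 (Nat.sqrt M))).sigma
      (fun jb => (Ioc (Iu T jb.2 jb.1) (Iu T jb.2 (jb.1 + 1))).filter
        (fun x : ℤ => IsCoprime x (jb.2 : ℤ))) with hTT
    have e3 : ∑ j ∈ Icc (-(T : ℤ) - 1) T, ∑ i ∈ range (Nat.log 2 K + 1), ∑ b ∈ Icc 1 (Nat.sqrt M),
        ∑ x ∈ (Ioc (Iu T b j) (Iu T b (j + 1))).filter (fun x : ℤ => IsCoprime x (b : ℤ)),
          |dev N (2 ^ i) β' (Js N T b j) (Jt N T b j) x b| =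
        ∑ r ∈ TT, (fun r : (_ : ℤ × ℕ) × ℤ => G r.1.1 r.1.2 r.2) r := by
      rw [hTT, Finset.sum_sigma, Finset.sum_product]
      apply Finset.sum_congr rfl
      intro j _
      rw [Finset.sum_comm]
      apply Finset.sum_congr rfl
      intro b _
      rw [Finset.sum_comm]
    rw [e2, e3]
    apply A10b_inj _ TT (fun q : (_ : ℕ) × ℕ =>
      (⟨(J q.1 q.2, (P q.1 q.2).2), (P q.1 q.2).1⟩ : (_ : ℤ × ℕ) × ℤ)) ?_ ?_
      (fun r : (_ : ℤ × ℕ) × ℤ => G r.1.1 r.1.2 r.2) ?_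
    · intro q hq
      rw [mem_sigma, mem_Icc] at hq
      obtain ⟨h1, h2, h3, h4, h5⟩ := hP q.1 q.2 hq.1.1 hq.2
      rw [hTT, mem_sigma, mem_product, mem_filter]
      exact ⟨⟨hJ1 _ _ hq.1.1 hq.2, hbM _ _ hq.1.1 hq.1.2 hq.2⟩, hJ2 _ _ hq.1.1 hq.2, h2⟩
    · intro q hq q' hq' h
      rw [mem_sigma, mem_Icc] at hq hq'
      have h0 : (J q.1 q.2, (P q.1 q.2).2) = (J q'.1 q'.2, (P q'.1 q'.2).2) := congrArg Sigma.fst h
      have h1 : (P q.1 q.2).2 = (P q'.1 q'.2).2 := (Prod.mk.inj h0).2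
      have h2 : (P q.1 q.2).1 = (P q'.1 q'.2).1 := by
        have := (Sigma.mk.inj_iff.mp h).2
        exact eq_of_heq this
      have h3 : P q.1 q.2 = P q'.1 q'.2 := Prod.ext h2 h1
      obtain ⟨h4, h5⟩ := hPinj q.1 q.2 q'.1 q'.2 hq.1.1 hq.2 hq'.1.1 hq'.2 h3
      exact Sigma.ext h4 (heq_of_eq h5)
    · intro r _
      exact Finset.sum_nonneg fun _ _ => abs_nonneg _
  -- assembly
  have hNε : 0 ≤ (N : ℝ) ^ ε := by positivity
  have hNT : 0 ≤ (N : ℝ) / T := by positivity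
  have hsq : (0 : ℝ) ≤ Nat.sqrt M := Nat.cast_nonneg _
  have habs : |∑ m ∈ Icc 1 M, ∑ k ∈ fil m, a m * β k * ((cA N (m * k) : ℝ) - rho m * rho k * N / (m * k))| ≤
      |∑ m ∈ Icc 1 M, ∑ k ∈ fil m, ∑ v ∈ roots m, a m * β k * Sf m v k| +
      |∑ m ∈ Icc 1 M, ∑ k ∈ fil m, a m * β k * ((cA N (m * k) : ℝ) - rho m * rho k * N / (m * k)) -
      ∑ m ∈ Icc 1 M, ∑ k ∈ fil m, ∑ v ∈ roots m, a m * β k * Sf m v k| := by
    have := abs_add_le (∑ m ∈ Icc 1 M, ∑ k ∈ fil m, ∑ v ∈ roots m, a m * β k * Sf m v k)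
      (∑ m ∈ Icc 1 M, ∑ k ∈ fil m, a m * β k * ((cA N (m * k) : ℝ) - rho m * rho k * N / (m * k)) -
      ∑ m ∈ Icc 1 M, ∑ k ∈ fil m, ∑ v ∈ roots m, a m * β k * Sf m v k)
    simpa using this
  have hfin : C1 * (N : ℝ) ^ ε * (N / T + 1) + C2 * (N : ℝ) ^ ε * (N / T + Nat.sqrt M) ≤
      (C1 + C2) * (N : ℝ) ^ ε * (N / T + Nat.sqrt M + 1) := by
    have h1 : 0 ≤ C1 * (N : ℝ) ^ ε * Nat.sqrt M := by positivity
    have h2 : 0 ≤ C2 * (N : ℝ) ^ ε := by positivity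
    nlinarith [h1, h2]
  linarith [habs, step1, step2, step3, step4, hfin]

end Pool.Agent.PTW
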