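import Pool.Agent.PTW.A7e
import Pool.Agent.PTW.A10b

set_option autoImplicit false

namespace Pool.Agent.PTW

open Finset

lemma A10c_rpow_le {N : ℕ} (hN : 1 ≤ N) {a b : ℝ} (h : a ≤ b) : (N : ℝ) ^ a ≤ (N : ℝ) ^ b :=
  Real.rpow_le_rpow_of_exponent_le (by exact_mod_cast hN) h

lemma A10c_one_le {N : ℕ} (hN : 1 ≤ N) {a : ℝ} (h : 0 ≤ a) : (1 : ℝ) ≤ (N : ℝ) ^ a :=
  Real.one_le_rpow (by exact_mod_cast hN) h

lemma A10c_inner (ε η C : ℝ) (hC : 0 < C) (h0 : 0 < ε)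
    (hvar : ∀ N B K : ℕ, 1 ≤ N → 1 ≤ B → B ≤ N → 1 ≤ K → K ≤ N →
      ∀ β : ℕ → ℝ, (∀ k, |β k| ≤ 1) → (∀ k, β k ≠ 0 → Squarefree k ∧ Nat.Coprime k N) →
      ∀ u v s t : ℕ → ℤ, (∀ b ∈ Icc 1 B, v b - u b ≤ b ∧ ((Ioc (s b) (t b)).card : ℝ) ≤ 3 * N / b) →
      ∑ b ∈ Icc 1 B, ∑ a ∈ (Ioc (u b) (v b)).filter (fun a : ℤ => IsCoprime a (b : ℤ)),
        (dev N K β (s b) (t b) a b) ^ 2 ≤
          C * (N : ℝ) ^ η * (N + (B : ℝ) ^ ((3 : ℝ) / 2) * (K : ℝ) ^ 3))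
    (N T M K : ℕ) (hN : 1 ≤ N) (hT : 40 ≤ T) (hM1 : 1 ≤ M) (hM : (M : ℝ) ≤ (N : ℝ) ^ (1 - ε))
    (hK1 : 1 ≤ K) (hK : (K : ℝ) ≤ (N : ℝ) ^ (1 / 12 - ε)) (β : ℕ → ℝ) (hβ1 : ∀ k, |β k| ≤ 1)
    (hβ2 : ∀ k, β k ≠ 0 → Squarefree k ∧ Nat.Coprime k N) (j : ℤ) :
    ∑ b ∈ Icc 1 (Nat.sqrt M),
      ∑ x ∈ (Ioc (Iu T b j) (Iu T b (j + 1))).filter (fun x : ℤ => IsCoprime x (b : ℤ)),
        |dev N K β (Js N T b j) (Jt N T b j) x b| ≤
      Real.sqrt (2 * C) * (N : ℝ) ^ (1 - ε / 2 + η / 2) := by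
  have hN0 : (0 : ℝ) < N := by exact_mod_cast hN
  have hN1 : (1 : ℝ) ≤ N := by exact_mod_cast hN
  have hMN : M ≤ N := by
    have h : (M : ℝ) ≤ N := hM.trans (by
      simpa using A10c_rpow_le hN (show (1 - ε) ≤ 1 by linarith))
    exact_mod_cast h
  have hKN : K ≤ N := by
    have h : (K : ℝ) ≤ N := hK.trans (by
      simpa using A10c_rpow_le hN (show (1 / 12 - ε) ≤ 1 by linarith))
    exact_mod_cast h
  set B := Nat.sqrt M with hB
  have hB1 : 1 ≤ B := Nat.le_sqrt.2 (by simpa using hM1)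
  have hBB : B * B ≤ M := Nat.sqrt_le M
  have hBN : B ≤ N := (Nat.sqrt_le_self M).trans hMN
  have hv := hvar N B K hN hB1 hBN hK1 hKN β hβ1 hβ2 (fun b => Iu T b j) (fun b => Iu T b (j + 1))
    (fun b => Js N T b j) (fun b => Jt N T b j) (fun b hb => by
      rw [mem_Icc] at hb
      exact slice4 N T b j hT hb.1 (hb.2.trans hBN))
  -- Cauchy-Schwarz
  have hcs : (∑ b ∈ Icc 1 B,
      ∑ x ∈ (Ioc (Iu T b j) (Iu T b (j + 1))).filter (fun x : ℤ => IsCoprime x (b : ℤ)),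
        |dev N K β (Js N T b j) (Jt N T b j) x b|) ^ 2 ≤
      (∑ b ∈ Icc 1 B,
        (((Ioc (Iu T b j) (Iu T b (j + 1))).filter (fun x : ℤ => IsCoprime x (b : ℤ))).card : ℝ)) *
      ∑ b ∈ Icc 1 B, ∑ a ∈ (Ioc (Iu T b j) (Iu T b (j + 1))).filter
        (fun a : ℤ => IsCoprime a (b : ℤ)), (dev N K β (Js N T b j) (Jt N T b j) a b) ^ 2 := by
    rw [Finset.sum_sigma', Finset.sum_sigma']
    refine (sq_sum_le_card_mul_sum_sq).trans ?_
    rw [Finset.card_sigma]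
    push_cast
    refine mul_le_mul_of_nonneg_left (Finset.sum_le_sum fun i _ => ?_) (by positivity)
    rw [sq_abs]
  have hcount : (∑ b ∈ Icc 1 B,
        (((Ioc (Iu T b j) (Iu T b (j + 1))).filter (fun x : ℤ => IsCoprime x (b : ℤ))).card : ℝ)) ≤
      M := by
    have h1 : ∀ b ∈ Icc 1 B,
        (((Ioc (Iu T b j) (Iu T b (j + 1))).filter (fun x : ℤ => IsCoprime x (b : ℤ))).card : ℝ) ≤
          B := by
      intro b hb
      rw [mem_Icc] at hb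
      have h2 := (slice4 N T b j hT hb.1 (hb.2.trans hBN)).1
      have h3 : ((Ioc (Iu T b j) (Iu T b (j + 1))).filter
          (fun x : ℤ => IsCoprime x (b : ℤ))).card ≤ b := by
        refine (Finset.card_filter_le _ _).trans ?_
        rw [Int.card_Ioc]
        omega
      exact_mod_cast h3.trans hb.2
    refine (Finset.sum_le_sum h1).trans ?_
    rw [Finset.sum_const, Nat.card_Icc, nsmul_eq_mul, Nat.add_sub_cancel]
    exact_mod_cast hBB
  have hB32 : (B : ℝ) ^ ((3 : ℝ) / 2) ≤ (N : ℝ) ^ ((1 - ε) * (3 / 4)) := by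
    have h1 : (B : ℝ) ^ (2 : ℕ) ≤ (N : ℝ) ^ (1 - ε) := by
      refine le_trans ?_ hM
      rw [pow_two]
      exact_mod_cast hBB
    have h2 : (B : ℝ) ^ ((3 : ℝ) / 2) = ((B : ℝ) ^ (2 : ℕ)) ^ ((3 : ℝ) / 4) := by
      rw [← Real.rpow_natCast, ← Real.rpow_mul (by positivity)]
      norm_num
    rw [h2, Real.rpow_mul hN0.le]
    exact Real.rpow_le_rpow (by positivity) h1 (by norm_num)
  have hK3 : (K : ℝ) ^ 3 ≤ (N : ℝ) ^ ((1 / 12 - ε) * 3) := by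
    rw [Real.rpow_mul hN0.le]
    have : (((N : ℝ) ^ (1 / 12 - ε)) ^ (3 : ℝ)) = ((N : ℝ) ^ (1 / 12 - ε)) ^ (3 : ℕ) := by
      rw [← Real.rpow_natCast]
      norm_num
    rw [this]
    exact pow_le_pow_left₀ (by positivity) hK 3
  have hmain : (M : ℝ) * (N + (B : ℝ) ^ ((3 : ℝ) / 2) * (K : ℝ) ^ 3) ≤ 2 * (N : ℝ) ^ (2 - ε) := by
    have h1 : (M : ℝ) * N ≤ (N : ℝ) ^ (2 - ε) := by
      have : (N : ℝ) ^ (2 - ε) = (N : ℝ) ^ (1 - ε) * N := by
        rw [show (2 - ε) = (1 - ε) + 1 by ring, Real.rpow_add hN0, Real.rpow_one]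
      rw [this]
      exact mul_le_mul_of_nonneg_right hM hN0.le
    have h2 : (M : ℝ) * ((B : ℝ) ^ ((3 : ℝ) / 2) * (K : ℝ) ^ 3) ≤ (N : ℝ) ^ (2 - ε) := by
      calc (M : ℝ) * ((B : ℝ) ^ ((3 : ℝ) / 2) * (K : ℝ) ^ 3)
          ≤ (N : ℝ) ^ (1 - ε) * ((N : ℝ) ^ ((1 - ε) * (3 / 4)) * (N : ℝ) ^ ((1 / 12 - ε) * 3)) := by
            gcongr
        _ = (N : ℝ) ^ ((1 - ε) + ((1 - ε) * (3 / 4) + (1 / 12 - ε) * 3)) := by
            rw [Real.rpow_add hN0, Real.rpow_add hN0]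
        _ ≤ (N : ℝ) ^ (2 - ε) := A10c_rpow_le hN (by nlinarith)
    rw [mul_add]
    linarith
  refine (abs_le.1 (abs_le_of_sq_le_sq (b := Real.sqrt (2 * C) * (N : ℝ) ^ (1 - ε / 2 + η / 2)) ?_
    (by positivity))).2
  have hpos : 0 ≤ ∑ b ∈ Icc 1 B, ∑ a ∈ (Ioc (Iu T b j) (Iu T b (j + 1))).filter
        (fun a : ℤ => IsCoprime a (b : ℤ)), (dev N K β (Js N T b j) (Jt N T b j) a b) ^ 2 :=
    Finset.sum_nonneg fun _ _ => Finset.sum_nonneg fun _ _ => sq_nonneg _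
  calc (∑ b ∈ Icc 1 B,
      ∑ x ∈ (Ioc (Iu T b j) (Iu T b (j + 1))).filter (fun x : ℤ => IsCoprime x (b : ℤ)),
        |dev N K β (Js N T b j) (Jt N T b j) x b|) ^ 2 ≤ _ := hcs
    _ ≤ (M : ℝ) * (C * (N : ℝ) ^ η * (N + (B : ℝ) ^ ((3 : ℝ) / 2) * (K : ℝ) ^ 3)) :=
        mul_le_mul hcount hv hpos (by positivity)
    _ = C * (N : ℝ) ^ η * ((M : ℝ) * (N + (B : ℝ) ^ ((3 : ℝ) / 2) * (K : ℝ) ^ 3)) := by ring
    _ ≤ C * (N : ℝ) ^ η * (2 * (N : ℝ) ^ (2 - ε)) :=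
        mul_le_mul_of_nonneg_left hmain (by positivity)
    _ = (Real.sqrt (2 * C) * (N : ℝ) ^ (1 - ε / 2 + η / 2)) ^ 2 := by
        rw [mul_pow, Real.sq_sqrt (by positivity), ← Real.rpow_natCast, ← Real.rpow_mul hN0.le,
          show ((1 - ε / 2 + η / 2) * ((2 : ℕ) : ℝ)) = η + (2 - ε) by push_cast; ring,
          Real.rpow_add hN0]
        ring

lemma A10c_log (η : ℝ) (hη : 0 < η) (N K : ℕ) (hN : 1 ≤ N) (hK : K ≤ N) :
    ((Nat.log 2 K + 1 : ℕ) : ℝ) ≤ (1 / (η * Real.log 2) + 1) * (N : ℝ) ^ η := by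
  have hN0 : (0 : ℝ) < N := by exact_mod_cast hN
  have hl2 : 0 < Real.log 2 := Real.log_pos (by norm_num)
  have h1 : (Nat.log 2 K : ℝ) * Real.log 2 ≤ Real.log N := by
    have h2 : 2 ^ Nat.log 2 K ≤ N := by
      rcases Nat.eq_zero_or_pos K with h | h
      · subst h
        simpa using hN
      · exact (Nat.pow_log_le_self 2 h.ne').trans hK
    have h3 : ((2 : ℝ) ^ Nat.log 2 K) ≤ N := by exact_mod_cast h2
    have h4 := Real.log_le_log (by positivity) h3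
    rwa [Real.log_pow] at h4
  have h5 : Real.log N ≤ (N : ℝ) ^ η / η := Real.log_le_rpow_div hN0.le hη
  have h6 : (Nat.log 2 K : ℝ) ≤ 1 / (η * Real.log 2) * (N : ℝ) ^ η := by
    rw [show 1 / (η * Real.log 2) * (N : ℝ) ^ η = ((N : ℝ) ^ η / η) / Real.log 2 by field_simp,
      le_div_iff₀ hl2]
    exact h1.trans h5
  have h7 := A10c_one_le hN hη.le
  push_cast
  linarith

/-- [PTW-A10c] LEVEL OF DISTRIBUTION `13/12`.
Proof. `k = 1`: `k_one` (`≤ 3 M ≤ 3 N ^ (1 - ε)`). `k ≥ 2`: `reduction` with `ε / 100` and `T = ⌈N ^ (ε/5)⌉ + 40`. For fixed `j`, `i` (only `2 ^ i ≤ K`): Cauchy-Schwarz, the number of `(x, b)` is `≤ ∑_{b ≤ √M} b ≤ M` (`slice4`), and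
`var` with `ε / 100` (`slice4` gives its hypotheses, `√M ≤ N`, `2 ^ i ≤ K ≤ N`): `(M * C N ^ (ε/100) (N + M ^ (3/4) K ^ 3)) ^ (1/2)`; `M N ≤ N ^ (2 - ε)`, `M ^ (7/4) K ^ 3 ≤ N ^ (2 - 19 ε / 4)`. So each is `≤ C N ^ (1 - ε/2 + ε/200)`; the number of `(j, i)` is
`≤ (2 T + 2) (log₂ K + 1) ≤ C N ^ (ε/5 + ε/100)`; and `N / T ≤ N ^ (1 - ε/5)`. All exponents are `≤ 1 - ε/10`. -/
theorem LD (ε : ℝ) (h0 : 0 < ε) (h1 : ε ≤ 1 / 100) : ∃ C : ℝ, 0 < C ∧ ∀ N M K : ℕ, 1 ≤ N → (M : ℝ) ≤ (N : ℝ) ^ (1 - ε) →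
    (K : ℝ) ≤ (N : ℝ) ^ (1 / 12 - ε) → ∀ a β : ℕ → ℝ, (∀ m, |a m| ≤ 1) → (∀ k, |β k| ≤ 1) →
    (∀ k, β k ≠ 0 → Squarefree k ∧ Nat.Coprime k N) →
    |∑ m ∈ Icc 1 M, ∑ k ∈ (Icc 1 K).filter (fun k => Nat.Coprime m k ∧ Nat.Coprime (m * k) N),
        a m * β k * ((cA N (m * k) : ℝ) - rho m * rho k * N / (m * k))| ≤ C * (N : ℝ) ^ (1 - ε / 10) := by
  set η : ℝ := ε / 100 with hη
  have hη0 : 0 < η := by rw [hη]; positivity
  obtain ⟨C1, hC1, hred⟩ := reduction η hη0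
  obtain ⟨C2, hC2, hvar⟩ := var η hη0
  have hl2 : 0 < Real.log 2 := Real.log_pos (by norm_num)
  set C3 : ℝ := 1 / (η * Real.log 2) + 1 with hC3
  have hC3' : 0 < C3 := by rw [hC3]; positivity
  refine ⟨3 + 86 * C3 * Real.sqrt (2 * C2) + 3 * C1, by positivity, ?_⟩
  intro N M K hN hM hK a β ha hβ hβ2
  have hN0 : (0 : ℝ) < N := by exact_mod_cast hN
  have hMN : M ≤ N := by
    have h : (M : ℝ) ≤ N := hM.trans (by
      simpa using A10c_rpow_le hN (show (1 - ε) ≤ 1 by linarith))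
    exact_mod_cast h
  have hKN : K ≤ N := by
    have h : (K : ℝ) ≤ N := hK.trans (by
      simpa using A10c_rpow_le hN (show (1 / 12 - ε) ≤ 1 by linarith))
    exact_mod_cast h
  rcases Nat.eq_zero_or_pos M with hM0 | hM1
  · subst hM0
    simp only [Icc_eq_empty_of_lt Nat.zero_lt_one, sum_empty, abs_zero]
    positivity
  set P : ℝ := (N : ℝ) ^ (1 - ε / 10) with hP
  have hP0 : 0 < P := by rw [hP]; positivity
  set F : ℕ → ℕ → ℝ := fun m k => a m * β k * ((cA N (m * k) : ℝ) - rho m * rho k * N / (m * k)) with hF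
  -- the two parts
  have hsplit : ∑ m ∈ Icc 1 M, ∑ k ∈ (Icc 1 K).filter (fun k => Nat.Coprime m k ∧ Nat.Coprime (m * k) N),
      F m k = (∑ m ∈ Icc 1 M, ∑ k ∈ (Icc 1 K ∩ {1}).filter (fun k => Nat.Coprime m k ∧ Nat.Coprime (m * k) N),
      F m k) + ∑ m ∈ Icc 1 M, ∑ k ∈ (Icc 2 K).filter (fun k => Nat.Coprime m k ∧ Nat.Coprime (m * k) N),
      F m k := by
    rw [← Finset.sum_add_distrib]
    refine Finset.sum_congr rfl fun m _ => ?_
    rw [← Finset.sum_union]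
    · refine Finset.sum_congr ?_ fun _ _ => rfl
      ext k
      simp only [mem_filter, mem_union, mem_inter, mem_Icc, mem_singleton]
      constructor
      · rintro ⟨⟨h2, h3⟩, h4⟩
        rcases Nat.lt_or_ge k 2 with h5 | h5
        · exact Or.inl ⟨⟨⟨h2, h3⟩, by omega⟩, h4⟩
        · exact Or.inr ⟨⟨h5, h3⟩, h4⟩
      · rintro (⟨⟨h2, -⟩, h4⟩ | ⟨⟨h2, h3⟩, h4⟩)
        · exact ⟨h2, h4⟩
        · exact ⟨⟨by omega, h3⟩, h4⟩
    · rw [Finset.disjoint_left]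
      intro k hk hk'
      simp only [mem_filter, mem_inter, mem_Icc, mem_singleton] at hk hk'
      omega
  have hpart1 : |∑ m ∈ Icc 1 M, ∑ k ∈ (Icc 1 K ∩ {1}).filter
      (fun k => Nat.Coprime m k ∧ Nat.Coprime (m * k) N), F m k| ≤ 3 * P := by
    have hMP : (M : ℝ) ≤ P := hM.trans (A10c_rpow_le hN (by linarith))
    rcases Nat.eq_zero_or_pos K with hK0 | hK1
    · subst hK0
      have : ∀ m ∈ Icc 1 M, ∑ k ∈ (Icc 1 0 ∩ {1}).filter
          (fun k => Nat.Coprime m k ∧ Nat.Coprime (m * k) N), F m k = 0 := by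
        intro m _
        rw [Icc_eq_empty_of_lt Nat.zero_lt_one, Finset.empty_inter, Finset.filter_empty,
          Finset.sum_empty]
      rw [Finset.sum_eq_zero this, abs_zero]
      positivity
    · have hI : Icc 1 K ∩ {1} = ({1} : Finset ℕ) := by
        ext k
        simp only [mem_inter, mem_Icc, mem_singleton]
        omega
      have hrho1 : rho 1 = 1 := by
        unfold rho roots
        decide
      have heq : ∑ m ∈ Icc 1 M, ∑ k ∈ (Icc 1 K ∩ {1}).filter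
          (fun k => Nat.Coprime m k ∧ Nat.Coprime (m * k) N), F m k =
          β 1 * ∑ m ∈ (Icc 1 M).filter (fun m => Nat.Coprime m N),
            a m * ((cA N m : ℝ) - rho m * N / m) := by
        rw [hI, Finset.mul_sum, Finset.sum_filter]
        refine Finset.sum_congr rfl fun m _ => ?_
        rw [Finset.sum_filter, Finset.sum_singleton]
        by_cases hc : Nat.Coprime m N
        · rw [if_pos ⟨Nat.coprime_one_right m, by rwa [mul_one]⟩, if_pos hc]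
          simp only [hF, hrho1, mul_one, Nat.cast_one]
          ring
        · rw [if_neg (fun h => hc (by simpa using h.2)), if_neg hc]
      rw [heq, abs_mul]
      have h2 := k_one N M hN a ha
      calc |β 1| * |∑ m ∈ (Icc 1 M).filter (fun m => Nat.Coprime m N),
            a m * ((cA N m : ℝ) - rho m * N / m)| ≤ 1 * (3 * M) :=
            mul_le_mul (hβ 1) h2 (abs_nonneg _) zero_le_one
        _ ≤ 3 * P := by linarith
  -- the slices
  set T : ℕ := ⌈(N : ℝ) ^ (ε / 5)⌉₊ + 40 with hT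
  have hT40 : 40 ≤ T := by omega
  have hTge : (N : ℝ) ^ (ε / 5) ≤ T := by
    rw [hT]
    push_cast
    linarith [Nat.le_ceil ((N : ℝ) ^ (ε / 5))]
  have hone5 : (1 : ℝ) ≤ (N : ℝ) ^ (ε / 5) := A10c_one_le hN (by positivity)
  have hTle : (T : ℝ) ≤ 42 * (N : ℝ) ^ (ε / 5) := by
    rw [hT]
    push_cast
    have := Nat.ceil_lt_add_one (show (0 : ℝ) ≤ (N : ℝ) ^ (ε / 5) by positivity)
    linarith
  have hr := hred N T M K hN hT40 hMN hKN a β ha hβ hβ2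
  set β' : ℕ → ℝ := fun k => if 2 ≤ k ∧ k ≤ K then β k else 0 with hβ'
  have hβ'1 : ∀ k, |β' k| ≤ 1 := by
    intro k
    simp only [hβ']
    split_ifs
    · exact hβ k
    · simp
  have hβ'2 : ∀ k, β' k ≠ 0 → Squarefree k ∧ Nat.Coprime k N := by
    intro k hk
    simp only [hβ'] at hk
    split_ifs at hk
    · exact hβ2 k hk
    · exact absurd rfl hk
  have hS : ∑ j ∈ Icc (-(T : ℤ) - 1) T, ∑ i ∈ range (Nat.log 2 K + 1), ∑ b ∈ Icc 1 (Nat.sqrt M),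
        ∑ x ∈ (Ioc (Iu T b j) (Iu T b (j + 1))).filter (fun x : ℤ => IsCoprime x (b : ℤ)),
          |dev N (2 ^ i) β' (Js N T b j) (Jt N T b j) x b| ≤
      86 * C3 * Real.sqrt (2 * C2) * P := by
    have hin : ∀ j ∈ Icc (-(T : ℤ) - 1) T, ∀ i ∈ range (Nat.log 2 K + 1),
        ∑ b ∈ Icc 1 (Nat.sqrt M),
        ∑ x ∈ (Ioc (Iu T b j) (Iu T b (j + 1))).filter (fun x : ℤ => IsCoprime x (b : ℤ)),
          |dev N (2 ^ i) β' (Js N T b j) (Jt N T b j) x b| ≤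
        Real.sqrt (2 * C2) * (N : ℝ) ^ (1 - ε / 2 + η / 2) := by
      intro j _ i hi
      refine A10c_inner ε η C2 hC2 h0 hvar N T M (2 ^ i) hN hT40 hM1 hM Nat.one_le_two_pow ?_ β'
        hβ'1 hβ'2 j
      rw [mem_range] at hi
      rcases Nat.eq_zero_or_pos K with hK0 | hK1
      · subst hK0
        have : i = 0 := by
          rw [Nat.log_zero_right] at hi
          omega
        subst this
        rw [pow_zero, Nat.cast_one]
        exact A10c_one_le hN (by linarith)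
      · refine le_trans ?_ hK
        have h2 : 2 ^ i ≤ K :=
          (Nat.pow_le_pow_right (by norm_num) (by omega)).trans (Nat.pow_log_le_self 2 hK1.ne')
        exact_mod_cast h2
    calc _ ≤ ∑ j ∈ Icc (-(T : ℤ) - 1) T, ∑ i ∈ range (Nat.log 2 K + 1),
          Real.sqrt (2 * C2) * (N : ℝ) ^ (1 - ε / 2 + η / 2) :=
          Finset.sum_le_sum fun j hj => Finset.sum_le_sum fun i hi => hin j hj i hi
      _ = ((Icc (-(T : ℤ) - 1) T).card : ℝ) * (((Nat.log 2 K + 1 : ℕ) : ℝ) *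
          (Real.sqrt (2 * C2) * (N : ℝ) ^ (1 - ε / 2 + η / 2))) := by
          rw [Finset.sum_const, Finset.sum_const, nsmul_eq_mul, nsmul_eq_mul, card_range]
      _ ≤ (86 * (N : ℝ) ^ (ε / 5)) * ((C3 * (N : ℝ) ^ η) *
          (Real.sqrt (2 * C2) * (N : ℝ) ^ (1 - ε / 2 + η / 2))) := by
          have hcard : ((Icc (-(T : ℤ) - 1) T).card : ℝ) ≤ 86 * (N : ℝ) ^ (ε / 5) := by
            rw [Int.card_Icc]
            have : ((T : ℤ) + 1 - (-(T : ℤ) - 1)).toNat = 2 * T + 2 := by omega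
            rw [this]
            push_cast
            linarith
          have hlog := A10c_log η hη0 N K hN hKN
          exact mul_le_mul hcard (mul_le_mul_of_nonneg_right hlog (by positivity)) (by positivity)
            (by positivity)
      _ = 86 * C3 * Real.sqrt (2 * C2) * (N : ℝ) ^ (ε / 5 + (η + (1 - ε / 2 + η / 2))) := by
          rw [Real.rpow_add hN0 (ε / 5), Real.rpow_add hN0 η]
          ring
      _ ≤ 86 * C3 * Real.sqrt (2 * C2) * P := by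
          refine mul_le_mul_of_nonneg_left (A10c_rpow_le hN ?_) (by positivity)
          rw [hη]
          linarith
  have hE : C1 * (N : ℝ) ^ η * (N / T + Nat.sqrt M + 1) ≤ 3 * C1 * P := by
    have hT0 : (0 : ℝ) < T := lt_of_lt_of_le (by positivity) hTge
    have e1 : (N : ℝ) ^ η * (N / T) ≤ P := by
      have h2 : (N : ℝ) / T ≤ (N : ℝ) ^ (1 - ε / 5) := by
        rw [div_le_iff₀ hT0, Real.rpow_sub hN0, Real.rpow_one, div_mul_eq_mul_div,
          le_div_iff₀ (by positivity)]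
        exact mul_le_mul_of_nonneg_left hTge hN0.le
      calc (N : ℝ) ^ η * (N / T) ≤ (N : ℝ) ^ η * (N : ℝ) ^ (1 - ε / 5) :=
            mul_le_mul_of_nonneg_left h2 (by positivity)
        _ = (N : ℝ) ^ (η + (1 - ε / 5)) := by rw [Real.rpow_add hN0]
        _ ≤ P := A10c_rpow_le hN (by rw [hη]; linarith)
    have e2 : (N : ℝ) ^ η * (Nat.sqrt M : ℝ) ≤ P := by
      have h2 : (Nat.sqrt M : ℝ) ≤ (N : ℝ) ^ ((1 : ℝ) / 2) := by
        have h3 : ((Nat.sqrt M : ℕ) : ℝ) ^ 2 ≤ N := by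
          have : Nat.sqrt M * Nat.sqrt M ≤ N := (Nat.sqrt_le M).trans hMN
          rw [pow_two]
          exact_mod_cast this
        rw [← Real.sqrt_eq_rpow]
        exact Real.le_sqrt_of_sq_le h3
      calc (N : ℝ) ^ η * (Nat.sqrt M : ℝ) ≤ (N : ℝ) ^ η * (N : ℝ) ^ ((1 : ℝ) / 2) :=
            mul_le_mul_of_nonneg_left h2 (by positivity)
        _ = (N : ℝ) ^ (η + 1 / 2) := by rw [Real.rpow_add hN0]
        _ ≤ P := A10c_rpow_le hN (by rw [hη]; linarith)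
    have e3 : (N : ℝ) ^ η ≤ P := A10c_rpow_le hN (by rw [hη]; linarith)
    calc C1 * (N : ℝ) ^ η * (N / T + Nat.sqrt M + 1)
        = C1 * ((N : ℝ) ^ η * (N / T) + (N : ℝ) ^ η * (Nat.sqrt M : ℝ) + (N : ℝ) ^ η) := by ring
      _ ≤ C1 * (P + P + P) := mul_le_mul_of_nonneg_left (by linarith) hC1.le
      _ = 3 * C1 * P := by ring
  have hgoal : |∑ m ∈ Icc 1 M, ∑ k ∈ (Icc 1 K).filter
      (fun k => Nat.Coprime m k ∧ Nat.Coprime (m * k) N), F m k| ≤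
      (3 + 86 * C3 * Real.sqrt (2 * C2) + 3 * C1) * P := by
    rw [hsplit]
    refine (abs_add_le _ _).trans ?_
    have : |∑ m ∈ Icc 1 M, ∑ k ∈ (Icc 2 K).filter
      (fun k => Nat.Coprime m k ∧ Nat.Coprime (m * k) N), F m k| ≤
        86 * C3 * Real.sqrt (2 * C2) * P + 3 * C1 * P := hr.trans (add_le_add hS hE)
    linarith
  exact hgoal

end Pool.Agent.PTW
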