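import Pool.Agent.PTW.Defs

set_option autoImplicit false

namespace Pool.Agent.PTW

open Finset

theorem ee_eq (q : ℕ) [NeZero q] (x : ℤ) : ee q x = ZMod.stdAddChar (x : ZMod q) := by
  rw [ZMod.stdAddChar_coe]; rfl

theorem A3_real (q : ℕ) (x : ℤ) : ee q x = Complex.exp (Complex.I * ((2 * Real.pi * x / q : ℝ) : ℂ)) := by
  unfold ee
  refine congrArg _ ?_
  push_cast
  ring

theorem A3_norm (q : ℕ) (x : ℤ) : ‖ee q x‖ = 1 := by
  rw [A3_real, mul_comm, Complex.norm_exp_ofReal_mul_I]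

theorem A3_add (q : ℕ) (x y : ℤ) : ee q (x + y) = ee q x * ee q y := by
  unfold ee
  rw [← Complex.exp_add]
  refine congrArg _ ?_
  push_cast
  ring

theorem A3_zero (q : ℕ) : ee q 0 = 1 := by
  unfold ee
  simp

theorem A3_sumHs (q : ℕ) (hq : 1 ≤ q) (f : ZMod q → ℂ) [NeZero q] :
    ∑ H ∈ Hs q, f ((H : ℤ) : ZMod q) = ∑ x : ZMod q, f x := by
  refine Finset.sum_bij (fun H _ => ((H : ℤ) : ZMod q)) (fun _ _ => Finset.mem_univ _) ?_ ?_ (fun _ _ => rfl)
  · intro a ha b hb hab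
    simp only [Hs, Finset.mem_filter, Finset.mem_Icc] at ha hb
    have h1 : (q : ℤ) ∣ b - a := by
      rw [← Int.modEq_iff_dvd]
      exact (ZMod.intCast_eq_intCast_iff a b q).1 hab
    obtain ⟨k, hk⟩ := h1
    have hq0 : (0 : ℤ) < q := by exact_mod_cast hq
    have hk1 : k < 1 := by
      by_contra hc
      have : (q : ℤ) * 1 ≤ q * k := mul_le_mul_of_nonneg_left (by omega) hq0.le
      omega
    have hk2 : -1 < k := by
      by_contra hc
      have : (q : ℤ) * k ≤ q * (-1) := mul_le_mul_of_nonneg_left (by omega) hq0.le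
      omega
    have hk0 : k = 0 := by omega
    rw [hk0, mul_zero] at hk
    omega
  · intro x _
    have h := ZMod.valMinAbs_mem_Ioc x
    refine ⟨x.valMinAbs, ?_, ZMod.coe_valMinAbs x⟩
    simp only [Hs, Finset.mem_filter, Finset.mem_Icc]
    have h1 := h.1
    have h2 := h.2
    refine ⟨⟨?_, ?_⟩, ?_, ?_⟩ <;> omega

theorem A3_orth (q : ℕ) (hq : 1 ≤ q) (t : ℤ) :
    ∑ H ∈ Hs q, ee q (H * t) = if (q : ℤ) ∣ t then (q : ℂ) else 0 := by
  have : NeZero q := ⟨by omega⟩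
  have h1 : ∀ H ∈ Hs q, ee q (H * t) = ZMod.stdAddChar (((H : ℤ) : ZMod q) * ((t : ℤ) : ZMod q)) := by
    intro H _
    rw [ee_eq, Int.cast_mul]
  rw [Finset.sum_congr rfl h1,
    A3_sumHs q hq (fun x => ZMod.stdAddChar (x * ((t : ℤ) : ZMod q))),
    AddChar.sum_mulShift _ (ZMod.isPrimitive_stdAddChar q), ZMod.card]
  simp only [ZMod.intCast_zmod_eq_zero_iff_dvd]
  split_ifs <;> simp

/-- [PTW-A3a] finite Fourier expansion of the number of members of a class in an interval.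
Proof. `∑_{H ∈ Hs q} ee q (H (γ - c)) = q` if `q ∣ c - γ`, else `0` (`Hs q` is a complete system of residues, `ee_eq`, `AddChar.sum_mulShift`, `ZMod.isPrimitive_stdAddChar`); swap the sums. -/
theorem cfi_count (q : ℕ) (hq : 1 ≤ q) (u v γ : ℤ) :
    (((Ioc u v).filter (fun c : ℤ => (q : ℤ) ∣ c - γ)).card : ℂ) = ∑ H ∈ Hs q, cfi q u v H * ee q (H * γ) := by
  have hq0 : (q : ℂ) ≠ 0 := by
    have : q ≠ 0 := by omega
    exact_mod_cast this
  have h1 : ∀ H ∈ Hs q, cfi q u v H * ee q (H * γ) = ∑ c ∈ Ioc u v, ee q (H * (γ - c)) / q := by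
    intro H _
    unfold cfi
    rw [div_mul_eq_mul_div, Finset.sum_mul, Finset.sum_div]
    refine Finset.sum_congr rfl (fun c _ => ?_)
    rw [← A3_add]
    have : -(H * c) + H * γ = H * (γ - c) := by ring
    rw [this]
  rw [Finset.sum_congr rfl h1, Finset.sum_comm, Finset.card_filter, Nat.cast_sum]
  refine Finset.sum_congr rfl (fun c _ => ?_)
  rw [← Finset.sum_div, A3_orth q hq (γ - c)]
  have h2 : ((q : ℤ) ∣ c - γ) ↔ ((q : ℤ) ∣ γ - c) := dvd_sub_comm
  by_cases h : (q : ℤ) ∣ γ - c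
  · rw [if_pos (h2.2 h), if_pos h, div_self hq0, Nat.cast_one]
  · rw [if_neg (fun h' => h (h2.1 h')), if_neg h, zero_div, Nat.cast_zero]

theorem cfi_zero (q : ℕ) (hq : 1 ≤ q) (u v : ℤ) : cfi q u v 0 = ((Ioc u v).card : ℂ) / q := by
  unfold cfi
  have h1 : ∀ c ∈ Ioc u v, ee q (-(0 * c)) = 1 := by
    intro c _
    rw [zero_mul, neg_zero, A3_zero]
  rw [Finset.sum_congr rfl h1, Finset.sum_const, nsmul_eq_mul, mul_one]

/-- [PTW-A3b] trivial bound -/
theorem cfi_le_card (q : ℕ) (hq : 1 ≤ q) (u v H : ℤ) : ‖cfi q u v H‖ ≤ ((Ioc u v).card : ℝ) / q := by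
  unfold cfi
  rw [norm_div, Complex.norm_natCast]
  refine div_le_div_of_nonneg_right ?_ (Nat.cast_nonneg q)
  refine (norm_sum_le _ _).trans ?_
  rw [Finset.sum_congr rfl (fun c _ => A3_norm q (-(H * c))), Finset.sum_const, nsmul_eq_mul, mul_one]

theorem A3_tele (q : ℕ) (H u v : ℤ) (huv : u ≤ v) :
    (∑ c ∈ Ioc u v, ee q (-(H * c))) * (ee q (-H) - 1) = ee q (-(H * (v + 1))) - ee q (-(H * (u + 1))) := by
  induction v, huv using Int.le_induction with
  | base => simp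
  | succ v hv ih =>
    have h1 : Ioc u (v + 1) = insert (v + 1) (Ioc u v) := by
      ext c
      simp only [Finset.mem_insert, Finset.mem_Ioc]
      omega
    have h2 : (v + 1) ∉ Ioc u v := by
      simp only [Finset.mem_Ioc]
      omega
    rw [h1, Finset.sum_insert h2, add_mul, ih, mul_sub, ← A3_add]
    have h3 : -(H * (v + 1)) + -H = -(H * (v + 1 + 1)) := by ring
    rw [h3]
    ring

/-- [PTW-A3c] geometric sum: `|∑ ζ ^ c| ≤ 2 / |ζ - 1| = 1 / |sin (π H / q)| ≤ q / (2 |H|)` because `|H| ≤ q / 2` and `sin (π t) ≥ 2 t` for `0 ≤ t ≤ 1/2`. -/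
theorem cfi_le_inv (q : ℕ) (hq : 1 ≤ q) (u v H : ℤ) (hH : H ∈ Hs q) (h0 : H ≠ 0) : ‖cfi q u v H‖ ≤ 1 / (2 * |(H : ℝ)|) := by
  have hq0 : (0 : ℝ) < q := by exact_mod_cast hq
  have hH0 : 0 < |(H : ℝ)| := abs_pos.2 (by exact_mod_cast h0)
  rcases le_or_gt u v with huv | huv
  · have h1 := A3_tele q H u v huv
    have h2 : ‖ee q (-(H * (v + 1))) - ee q (-(H * (u + 1)))‖ ≤ 2 := by
      refine (norm_sub_le _ _).trans ?_
      rw [A3_norm, A3_norm]
      norm_num
    have h3 : ‖ee q (-H) - 1‖ = 2 * |Real.sin (Real.pi * H / q)| := by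
      rw [A3_real, Complex.norm_exp_I_mul_ofReal_sub_one]
      have : (2 * Real.pi * ((-H : ℤ) : ℝ) / q) / 2 = -(Real.pi * H / q) := by
        push_cast
        ring
      rw [this, Real.sin_neg, norm_mul, norm_neg, Real.norm_eq_abs, Real.norm_eq_abs, abs_of_pos (by norm_num : (0 : ℝ) < 2)]
    have h4 : |Real.pi * H / q| = Real.pi * |(H : ℝ)| / q := by
      rw [abs_div, abs_mul, abs_of_pos Real.pi_pos, abs_of_pos hq0]
    have hH' : 2 * |(H : ℝ)| ≤ q := by
      simp only [Hs, Finset.mem_filter, Finset.mem_Icc] at hH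
      have h5 : 2 * |H| ≤ q := by
        rcases abs_cases H with h | h <;> omega
      have : ((2 * |H| : ℤ) : ℝ) ≤ ((q : ℤ) : ℝ) := by exact_mod_cast h5
      push_cast at this
      exact this
    have h5 : |Real.pi * H / q| ≤ Real.pi / 2 := by
      rw [h4, div_le_div_iff₀ hq0 (by norm_num)]
      nlinarith [Real.pi_pos]
    have h6 := Real.mul_abs_le_abs_sin h5
    rw [h4] at h6
    have h7 : 2 / Real.pi * (Real.pi * |(H : ℝ)| / q) = 2 * |(H : ℝ)| / q := by
      field_simp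
    rw [h7] at h6
    have h8 : 4 * |(H : ℝ)| / q ≤ ‖ee q (-H) - 1‖ := by
      rw [h3]
      calc 4 * |(H : ℝ)| / q = 2 * (2 * |(H : ℝ)| / q) := by ring
        _ ≤ _ := by linarith
    have h9 : ‖∑ c ∈ Ioc u v, ee q (-(H * c))‖ * (4 * |(H : ℝ)| / q) ≤ 2 := by
      refine (mul_le_mul_of_nonneg_left h8 (norm_nonneg _)).trans ?_
      rw [← norm_mul, h1]
      exact h2
    unfold cfi
    rw [norm_div, Complex.norm_natCast, div_le_div_iff₀ hq0 (by positivity)]
    have h10 : ‖∑ c ∈ Ioc u v, ee q (-(H * c))‖ * (4 * |(H : ℝ)| / q) * q = ‖∑ c ∈ Ioc u v, ee q (-(H * c))‖ * (4 * |(H : ℝ)|) := by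
      field_simp
    have h11 := mul_le_mul_of_nonneg_right h9 hq0.le
    rw [h10] at h11
    linarith
  · have h1 : Ioc u v = ∅ := Finset.Ioc_eq_empty (by omega)
    unfold cfi
    rw [h1, Finset.sum_empty, zero_div, norm_zero]
    positivity

end Pool.Agent.PTW
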