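import Pool.Agent.PTW.A3

set_option autoImplicit false

namespace Pool.Agent.PTW

open Finset

theorem A4a_sum (q : ℕ) : ∑ H ∈ (Hs q).erase 0, 1 / (2 * |(H : ℝ)|) ≤ 1 + Real.log q := by
  have h1 : ∑ H ∈ (Hs q).erase 0, 1 / (2 * |(H : ℝ)|) =
      ∑ H ∈ (Hs q).erase 0, 1 / (2 * ((H.natAbs : ℕ) : ℝ)) := by
    refine sum_congr rfl fun H _ => ?_
    rw [Nat.cast_natAbs, Int.cast_abs]
  have h2 : ∀ H ∈ (Hs q).erase 0, H.natAbs ∈ Icc 1 (q / 2) := by
    intro H hH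
    rw [mem_erase, Hs, mem_filter, mem_Icc] at hH
    rw [mem_Icc]
    omega
  rw [h1, ← sum_fiberwise_of_maps_to h2]
  have h5 : ∑ j ∈ Icc 1 (q / 2), ∑ H ∈ ((Hs q).erase 0).filter (fun H => H.natAbs = j),
      1 / (2 * ((H.natAbs : ℕ) : ℝ)) ≤ ∑ j ∈ Icc 1 (q / 2), ((j : ℝ))⁻¹ := by
    refine sum_le_sum fun j hj => ?_
    have h3 : ∑ H ∈ ((Hs q).erase 0).filter (fun H => H.natAbs = j), 1 / (2 * ((H.natAbs : ℕ) : ℝ)) =
        ∑ H ∈ ((Hs q).erase 0).filter (fun H => H.natAbs = j), 1 / (2 * (j : ℝ)) :=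
      sum_congr rfl fun H hH => by rw [(mem_filter.1 hH).2]
    have h4 : (((Hs q).erase 0).filter (fun H => H.natAbs = j)).card ≤ 2 := by
      have : ((Hs q).erase 0).filter (fun H => H.natAbs = j) ⊆ ({(j : ℤ), -(j : ℤ)} : Finset ℤ) := by
        intro H hH
        rw [mem_filter] at hH
        rw [mem_insert, mem_singleton]
        omega
      exact (card_le_card this).trans Finset.card_le_two
    have hj1 : 1 ≤ j := (mem_Icc.1 hj).1
    have hj0 : (0 : ℝ) < (j : ℝ) := by exact_mod_cast hj1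
    rw [h3, sum_const, nsmul_eq_mul]
    have h6 : ((((Hs q).erase 0).filter (fun H => H.natAbs = j)).card : ℝ) ≤ 2 := by exact_mod_cast h4
    calc ((((Hs q).erase 0).filter (fun H => H.natAbs = j)).card : ℝ) * (1 / (2 * (j : ℝ))) ≤
        2 * (1 / (2 * (j : ℝ))) := mul_le_mul_of_nonneg_right h6 (by positivity)
      _ = (j : ℝ)⁻¹ := by field_simp
  refine h5.trans ?_
  have h7 : ∑ j ∈ Icc 1 (q / 2), ((j : ℝ))⁻¹ = ((harmonic (q / 2) : ℚ) : ℝ) := by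
    rw [harmonic_eq_sum_Icc]
    push_cast
    rfl
  rw [h7]
  refine (harmonic_le_one_add_log (q / 2)).trans ?_
  rcases Nat.eq_zero_or_pos (q / 2) with h0 | h0
  · rw [h0, Nat.cast_zero, Real.log_zero]
    have : 0 ≤ Real.log (q : ℝ) := Real.log_natCast_nonneg q
    linarith
  · have h8 : ((q / 2 : ℕ) : ℝ) ≤ (q : ℝ) := by exact_mod_cast Nat.div_le_self q 2
    have h9 : (0 : ℝ) < ((q / 2 : ℕ) : ℝ) := by exact_mod_cast h0
    have := Real.log_le_log h9 h8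
    linarith

theorem A4a_zero_mem (q : ℕ) (hq : 1 ≤ q) : (0 : ℤ) ∈ Hs q := by
  rw [Hs, mem_filter, mem_Icc]
  omega

/-- [PTW-A4a] completion of an incomplete sum over an interval of at most `q` integers.
Proof. Put `Fhat H = ∑_{x mod q} F x ψ (- H x)`, so (orthogonality) `F a = (1/q) ∑_{H ∈ Hs q} Fhat H * ee q (H a)` and `∑_{a ∈ (u, v]} F a = ∑_{H ∈ Hs q} Fhat H * cfi q u v (-H)`.
`‖cfi q u v 0‖ ≤ 1` (`cfi_le_card`, `v - u ≤ q`), `‖cfi q u v (-H)‖ ≤ 1 / (2 |H|)` for `H ≠ 0` (`cfi_le_inv`; for `2 H = q` use that `cfi q u v (-H) = cfi q u v H`); the sum over `H ≠ 0` is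
`≤ ∑_{1 ≤ j ≤ q/2} 1 / j ≤ 1 + log q` (`harmonic_le_one_add_log`). Total `≤ 2 + log q`. -/
theorem completion (q : ℕ) [NeZero q] (F : ZMod q → ℂ) (D : ℝ) (u v : ℤ) (huv : v - u ≤ q)
    (hD : ∀ l : ZMod q, ‖∑ x : ZMod q, F x * ZMod.stdAddChar (l * x)‖ ≤ D) :
    ‖∑ a ∈ Ioc u v, F (a : ZMod q)‖ ≤ (2 + Real.log q) * D := by
  have hq : 1 ≤ q := NeZero.one_le
  have hD0 : 0 ≤ D := (norm_nonneg _).trans (hD 0)
  have e1 : ∑ a ∈ Ioc u v, F (a : ZMod q) =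
      ∑ x : ZMod q, F x * (((Ioc u v).filter (fun c : ℤ => (q : ℤ) ∣ c - (x.val : ℤ))).card : ℂ) := by
    rw [← sum_fiberwise_of_maps_to (s := Ioc u v) (t := (univ : Finset (ZMod q)))
      (g := fun a : ℤ => (a : ZMod q)) (fun a _ => mem_univ _)]
    refine sum_congr rfl fun x _ => ?_
    have e2 : (Ioc u v).filter (fun a : ℤ => (a : ZMod q) = x) =
        (Ioc u v).filter (fun c : ℤ => (q : ℤ) ∣ c - (x.val : ℤ)) := by
      refine filter_congr fun a _ => ?_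
      have e3 : ((x.val : ℤ) : ZMod q) = x := by
        rw [Int.cast_natCast, ZMod.natCast_zmod_val]
      rw [← ZMod.intCast_zmod_eq_zero_iff_dvd, Int.cast_sub, e3, sub_eq_zero]
    rw [← e2, sum_congr rfl (fun a ha => by rw [(mem_filter.1 ha).2]), sum_const, nsmul_eq_mul, mul_comm]
  have e4 : ∑ a ∈ Ioc u v, F (a : ZMod q) =
      ∑ H ∈ Hs q, cfi q u v H * ∑ x : ZMod q, F x * ZMod.stdAddChar ((H : ZMod q) * x) := by
    rw [e1]
    have e5 : ∀ x : ZMod q, F x * (((Ioc u v).filter (fun c : ℤ => (q : ℤ) ∣ c - (x.val : ℤ))).card : ℂ) =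
        ∑ H ∈ Hs q, cfi q u v H * (F x * ZMod.stdAddChar ((H : ZMod q) * x)) := by
      intro x
      rw [cfi_count q hq u v (x.val : ℤ), mul_sum]
      refine sum_congr rfl fun H _ => ?_
      have e6 : (((H * (x.val : ℤ) : ℤ)) : ZMod q) = (H : ZMod q) * x := by
        rw [Int.cast_mul, Int.cast_natCast, ZMod.natCast_zmod_val]
      rw [ee_eq, e6]
      ring
    rw [sum_congr rfl (fun x _ => e5 x), sum_comm]
    refine sum_congr rfl fun H _ => ?_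
    rw [mul_sum]
  rw [e4]
  have e7 : ‖∑ H ∈ Hs q, cfi q u v H * ∑ x : ZMod q, F x * ZMod.stdAddChar ((H : ZMod q) * x)‖ ≤
      ∑ H ∈ Hs q, ‖cfi q u v H‖ * D := by
    refine (norm_sum_le _ _).trans (sum_le_sum fun H _ => ?_)
    rw [norm_mul]
    exact mul_le_mul_of_nonneg_left (hD _) (norm_nonneg _)
  refine e7.trans ?_
  rw [← sum_mul]
  refine mul_le_mul_of_nonneg_right ?_ hD0
  rw [← add_sum_erase _ _ (A4a_zero_mem q hq)]
  have e8 : ‖cfi q u v 0‖ ≤ 1 := by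
    refine (cfi_le_card q hq u v 0).trans ?_
    have hq0 : (0 : ℝ) < (q : ℝ) := by exact_mod_cast hq
    rw [div_le_one hq0, Int.card_Ioc]
    have : (v - u).toNat ≤ q := by omega
    exact_mod_cast this
  have e9 : ∑ H ∈ (Hs q).erase 0, ‖cfi q u v H‖ ≤ ∑ H ∈ (Hs q).erase 0, 1 / (2 * |(H : ℝ)|) :=
    sum_le_sum fun H hH => cfi_le_inv q hq u v H (mem_of_mem_erase hH) (ne_of_mem_erase hH)
  have e10 := A4a_sum q
  linarith

end Pool.Agent.PTW
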