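import Pool.Agent.PTW.Defs

set_option autoImplicit false

namespace Pool.Agent.PTW

open Finset

/-- [PTW-A4b1] the standard character under the Chinese remainder theorem.
Proof. With `u = (q₂ : ZMod q₁)⁻¹`, `v = (q₁ : ZMod q₂)⁻¹`: `x / (q₁ q₂) = (x u / q₁) + (x v / q₂) mod 1` since `u q₂ + v q₁ ≡ 1 mod q₁ q₂`. `ZMod.stdAddChar_coe` for an integer representative of `x`. -/
theorem char_mul (q₁ q₂ : ℕ) [NeZero q₁] [NeZero q₂] [NeZero (q₁ * q₂)] (h : Nat.Coprime q₁ q₂) (x : ℤ) :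
    (ZMod.stdAddChar (x : ZMod (q₁ * q₂)) : ℂ) =
      ZMod.stdAddChar ((x : ZMod q₁) * (q₂ : ZMod q₁)⁻¹) * ZMod.stdAddChar ((x : ZMod q₂) * (q₁ : ZMod q₂)⁻¹) := by
  have h1 : ((q₁ : ℤ) * (q₂ : ℤ)) ∣
      1 - (((((q₂ : ZMod q₁)⁻¹).val : ℕ) : ℤ) * q₂ + ((((q₁ : ZMod q₂)⁻¹).val : ℕ) : ℤ) * q₁) := by
    have hc : IsCoprime (q₁ : ℤ) (q₂ : ℤ) := Nat.isCoprime_iff_coprime.2 h
    refine hc.mul_dvd ?_ ?_
    · rw [← ZMod.intCast_zmod_eq_zero_iff_dvd]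
      push_cast
      rw [ZMod.natCast_zmod_val, ZMod.inv_mul_of_unit _ ((ZMod.isUnit_iff_coprime q₂ q₁).2 h.symm)]
      simp
    · rw [← ZMod.intCast_zmod_eq_zero_iff_dvd]
      push_cast
      rw [ZMod.natCast_zmod_val, ZMod.inv_mul_of_unit _ ((ZMod.isUnit_iff_coprime q₁ q₂).2 h)]
      simp
  have h2 : (x : ZMod (q₁ * q₂)) = ((x * (((((q₂ : ZMod q₁)⁻¹).val : ℕ) : ℤ) * q₂ +
      ((((q₁ : ZMod q₂)⁻¹).val : ℕ) : ℤ) * q₁) : ℤ) : ZMod (q₁ * q₂)) := by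
    rw [← sub_eq_zero, ← Int.cast_sub, ZMod.intCast_zmod_eq_zero_iff_dvd]
    obtain ⟨k, hk⟩ := h1
    refine ⟨x * k, ?_⟩
    push_cast
    linear_combination x * hk
  have h3 : (x : ZMod q₁) * (q₂ : ZMod q₁)⁻¹ =
      ((x * ((((q₂ : ZMod q₁)⁻¹).val : ℕ) : ℤ) : ℤ) : ZMod q₁) := by
    push_cast
    rw [ZMod.natCast_zmod_val]
  have h4 : (x : ZMod q₂) * (q₁ : ZMod q₂)⁻¹ =
      ((x * ((((q₁ : ZMod q₂)⁻¹).val : ℕ) : ℤ) : ℤ) : ZMod q₂) := by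
    push_cast
    rw [ZMod.natCast_zmod_val]
  have hq1 : (q₁ : ℂ) ≠ 0 := Nat.cast_ne_zero.2 (NeZero.ne q₁)
  have hq2 : (q₂ : ℂ) ≠ 0 := Nat.cast_ne_zero.2 (NeZero.ne q₂)
  rw [h3, h4, h2, ZMod.stdAddChar_coe, ZMod.stdAddChar_coe, ZMod.stdAddChar_coe, ← Complex.exp_add]
  congr 1
  push_cast
  field_simp

/-- inverses of units under ring homs -/
private theorem A4b_inv {m n : ℕ} (φ : ZMod m →+* ZMod n) (a : ZMod m) (ha : IsUnit a) :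
    φ a⁻¹ = (φ a)⁻¹ := by
  have h1 : φ a * φ a⁻¹ = 1 := by rw [← map_mul, ZMod.mul_inv_of_unit a ha, map_one]
  have h2 : (φ a)⁻¹ * φ a = 1 := ZMod.inv_mul_of_unit _ (ha.map φ)
  calc φ a⁻¹ = (φ a)⁻¹ * φ a * φ a⁻¹ := by rw [h2, one_mul]
    _ = (φ a)⁻¹ * (φ a * φ a⁻¹) := mul_assoc _ _ _
    _ = (φ a)⁻¹ := by rw [h1, mul_one]

/-- [PTW-A4b2] multiplicativity of the complete sums. `α ^ 2 = β ^ 2` makes both `x - α` and `x - β` units on the range of summation.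
Proof. `ZMod.chineseRemainder`: `x ↔ (y, z)`; `IsUnit` is componentwise; for a unit `t` mod `q₁ q₂` the inverse reduces to the inverse mod `q₁`, `q₂` (cast is a ring hom, `map_units_inv` style or
`ZMod.inv_coe_unit`); then `char_mul` applied to an integer representative of the argument. `x - α` is a unit because `(x - α) (x + α) = x ^ 2 - α ^ 2` is; same for `β`. -/
theorem CS_mul (q₁ q₂ : ℕ) [NeZero q₁] [NeZero q₂] [NeZero (q₁ * q₂)] (h : Nat.Coprime q₁ q₂) (α β A B l : ℤ)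
    (hαβ : ((q₁ * q₂ : ℕ) : ℤ) ∣ α ^ 2 - β ^ 2) :
    CS (q₁ * q₂) α β A B l =
      CS q₁ α β (A * (q₂ : ZMod q₁)⁻¹) (B * (q₂ : ZMod q₁)⁻¹) (l * (q₂ : ZMod q₁)⁻¹) *
      CS q₂ α β (A * (q₁ : ZMod q₂)⁻¹) (B * (q₁ : ZMod q₂)⁻¹) (l * (q₁ : ZMod q₂)⁻¹) := by
  classical
  have hf : ∀ (q : ℕ) [NeZero q] (a b c d l : ZMod q), CS q a b c d l =
      ∑ x : ZMod q, if IsUnit (x ^ 2 - a ^ 2) then
        (ZMod.stdAddChar (c * (x - a)⁻¹ - d * (x - b)⁻¹ + l * x) : ℂ) else 0 := by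
    intro q _ a b c d l
    rw [CS, Finset.sum_filter]
  rw [hf, hf, hf, Fintype.sum_mul_sum, ← Fintype.sum_prod_type']
  refine Fintype.sum_equiv (ZMod.chineseRemainder h).toEquiv _ _ fun x => ?_
  set φ₁ : ZMod (q₁ * q₂) →+* ZMod q₁ :=
    (RingHom.fst _ _).comp (ZMod.chineseRemainder h : ZMod (q₁ * q₂) →+* ZMod q₁ × ZMod q₂)
  set φ₂ : ZMod (q₁ * q₂) →+* ZMod q₂ :=
    (RingHom.snd _ _).comp (ZMod.chineseRemainder h : ZMod (q₁ * q₂) →+* ZMod q₁ × ZMod q₂)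
  show _ = (if IsUnit ((φ₁ x) ^ 2 - (α : ZMod q₁) ^ 2) then _ else 0) *
    (if IsUnit ((φ₂ x) ^ 2 - (α : ZMod q₂) ^ 2) then _ else 0)
  have hu : IsUnit (x ^ 2 - (α : ZMod (q₁ * q₂)) ^ 2) ↔
      IsUnit ((φ₁ x) ^ 2 - (α : ZMod q₁) ^ 2) ∧ IsUnit ((φ₂ x) ^ 2 - (α : ZMod q₂) ^ 2) := by
    rw [← MulEquiv.isUnit_map (ZMod.chineseRemainder h), Prod.isUnit_iff]
    have e1 : ((ZMod.chineseRemainder h) (x ^ 2 - (α : ZMod (q₁ * q₂)) ^ 2)).1 =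
        (φ₁ x) ^ 2 - (α : ZMod q₁) ^ 2 := by
      have : φ₁ (x ^ 2 - (α : ZMod (q₁ * q₂)) ^ 2) = (φ₁ x) ^ 2 - (α : ZMod q₁) ^ 2 := by
        rw [map_sub, map_pow, map_pow, map_intCast]
      exact this
    have e2 : ((ZMod.chineseRemainder h) (x ^ 2 - (α : ZMod (q₁ * q₂)) ^ 2)).2 =
        (φ₂ x) ^ 2 - (α : ZMod q₂) ^ 2 := by
      have : φ₂ (x ^ 2 - (α : ZMod (q₁ * q₂)) ^ 2) = (φ₂ x) ^ 2 - (α : ZMod q₂) ^ 2 := by
        rw [map_sub, map_pow, map_pow, map_intCast]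
      exact this
    rw [e1, e2]
  by_cases hx : IsUnit (x ^ 2 - (α : ZMod (q₁ * q₂)) ^ 2)
  · rw [if_pos hx, if_pos (hu.1 hx).1, if_pos (hu.1 hx).2]
    have hα : IsUnit (x - (α : ZMod (q₁ * q₂))) := by
      have : x ^ 2 - (α : ZMod (q₁ * q₂)) ^ 2 = (x - α) * (x + α) := by ring
      rw [this] at hx
      exact isUnit_of_mul_isUnit_left hx
    have hβ : IsUnit (x - (β : ZMod (q₁ * q₂))) := by
      have h5 : (α : ZMod (q₁ * q₂)) ^ 2 = (β : ZMod (q₁ * q₂)) ^ 2 := by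
        have h6 := (ZMod.intCast_zmod_eq_zero_iff_dvd (α ^ 2 - β ^ 2) (q₁ * q₂)).2 hαβ
        push_cast at h6
        exact sub_eq_zero.1 h6
      have : x ^ 2 - (α : ZMod (q₁ * q₂)) ^ 2 = (x - β) * (x + β) := by rw [h5]; ring
      rw [this] at hx
      exact isUnit_of_mul_isUnit_left hx
    obtain ⟨j, hj⟩ := ZMod.intCast_surjective ((A : ZMod (q₁ * q₂)) *
      (x - (α : ZMod (q₁ * q₂)))⁻¹ - (B : ZMod (q₁ * q₂)) * (x - (β : ZMod (q₁ * q₂)))⁻¹ +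
      (l : ZMod (q₁ * q₂)) * x)
    rw [← hj, char_mul q₁ q₂ h j]
    have g1 : (j : ZMod q₁) = (A : ZMod q₁) * (φ₁ x - (α : ZMod q₁))⁻¹ -
        (B : ZMod q₁) * (φ₁ x - (β : ZMod q₁))⁻¹ + (l : ZMod q₁) * φ₁ x := by
      have := congrArg φ₁ hj
      rw [map_intCast, map_add, map_sub, map_mul, map_mul, map_mul, A4b_inv φ₁ _ hα,
        A4b_inv φ₁ _ hβ, map_sub, map_sub, map_intCast, map_intCast, map_intCast, map_intCast,
        map_intCast] at this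
      exact this
    have g2 : (j : ZMod q₂) = (A : ZMod q₂) * (φ₂ x - (α : ZMod q₂))⁻¹ -
        (B : ZMod q₂) * (φ₂ x - (β : ZMod q₂))⁻¹ + (l : ZMod q₂) * φ₂ x := by
      have := congrArg φ₂ hj
      rw [map_intCast, map_add, map_sub, map_mul, map_mul, map_mul, A4b_inv φ₂ _ hα,
        A4b_inv φ₂ _ hβ, map_sub, map_sub, map_intCast, map_intCast, map_intCast, map_intCast,
        map_intCast] at this
      exact this
    rw [g1, g2]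
    have k1 : ((ZMod.chineseRemainder h).toEquiv x).1 = φ₁ x := rfl
    have k2 : ((ZMod.chineseRemainder h).toEquiv x).2 = φ₂ x := rfl
    rw [k1, k2]
    congr 2
    · ring
    · ring
  · rw [if_neg hx]
    by_cases h5 : IsUnit ((φ₁ x) ^ 2 - (α : ZMod q₁) ^ 2)
    · rw [if_neg (fun h6 => hx (hu.2 ⟨h5, h6⟩)), mul_zero]
    · rw [if_neg h5, zero_mul]

end Pool.Agent.PTW
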