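import Pool.Agent.PTW.Defs
import Pool.Agent.KLW.E

set_option autoImplicit false

namespace Pool.Agent.PTW

open Finset

theorem CS_trivial (q : ℕ) [NeZero q] (α β A B l : ZMod q) : ‖CS q α β A B l‖ ≤ q := by
  classical
  unfold CS
  refine (norm_sum_le _ _).trans ?_
  rw [Finset.sum_congr rfl (fun x _ => AddChar.norm_apply _ _), Finset.sum_const, nsmul_eq_mul,
    mul_one]
  have h1 := Finset.card_le_univ ((univ : Finset (ZMod q)).filter
    (fun x => IsUnit (x ^ 2 - α ^ 2)))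
  rw [ZMod.card] at h1
  exact_mod_cast h1

theorem A4c_kl (p : ℕ) [Fact p.Prime] (α A l : ZMod p) (h : A ≠ 0) :
    ‖∑ x ∈ (univ : Finset (ZMod p)).filter (fun x => x ≠ α),
      (ZMod.stdAddChar (A * (x - α)⁻¹ + l * x) : ℂ)‖ ≤ 2 * Real.sqrt p := by
  have e : ∑ x ∈ (univ : Finset (ZMod p)).filter (fun x => x ≠ α),
      (ZMod.stdAddChar (A * (x - α)⁻¹ + l * x) : ℂ) =
      (ZMod.stdAddChar (l * α) : ℂ) * Pool.Agent.MP_2f88e5_nt.kl p l A := by
    unfold Pool.Agent.MP_2f88e5_nt.kl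
    rw [mul_sum]
    symm
    refine sum_bij (fun (u : (ZMod p)ˣ) _ => α + (u : ZMod p)) ?_ ?_ ?_ ?_
    · intro u _
      rw [mem_filter]
      refine ⟨mem_univ _, fun hu => u.ne_zero ?_⟩
      linear_combination hu
    · intro u _ v _ huv
      exact Units.ext (add_left_cancel huv)
    · intro x hx
      have hx' : x ≠ α := (mem_filter.1 hx).2
      refine ⟨Units.mk0 (x - α) (sub_ne_zero.2 hx'), mem_univ _, ?_⟩
      rw [Units.val_mk0]
      ring
    · intro u _
      rw [← AddChar.map_add_eq_mul, Units.val_inv_eq_inv_val]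
      congr 1
      have e1 : α + (u : ZMod p) - α = u := by ring
      rw [e1]
      ring
  rw [e, norm_mul, AddChar.norm_apply, one_mul]
  exact KLW.kl_bound p (fun hh => h hh.2)

theorem A4c_one (p : ℕ) [Fact p.Prime] : 1 ≤ Real.sqrt p := by
  have hpp : p.Prime := Fact.out
  rw [Real.one_le_sqrt]
  exact_mod_cast hpp.one_lt.le

/-- [PTW-A4c1] the case `α = β = 0`, `A ≠ B`: a Kloosterman sum.
Proof. `x ^ 2` is a unit iff `x ≠ 0`; the sum over the units is `kl p l (A - B)` (`Pool.Agent.MP_2f88e5_nt.kl`), `KLW.kl_bound`. -/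
theorem CS_local1 (p : ℕ) [Fact p.Prime] (A B l : ZMod p) (h : A ≠ B) : ‖CS p 0 0 A B l‖ ≤ 3 * Real.sqrt p := by
  classical
  have e : CS p 0 0 A B l = ∑ x ∈ (univ : Finset (ZMod p)).filter (fun x => x ≠ 0),
      (ZMod.stdAddChar ((A - B) * (x - 0)⁻¹ + l * x) : ℂ) := by
    unfold CS
    have hf : (univ : Finset (ZMod p)).filter (fun x => IsUnit (x ^ 2 - 0 ^ 2)) =
        (univ : Finset (ZMod p)).filter (fun x => x ≠ 0) := by
      refine filter_congr fun x _ => ?_
      rw [isUnit_iff_ne_zero]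
      have e1 : x ^ 2 - 0 ^ 2 = x ^ 2 := by ring
      rw [e1]
      exact pow_ne_zero_iff two_ne_zero
    rw [hf]
    refine sum_congr rfl fun x _ => ?_
    congr 1
    ring
  rw [e]
  have h1 := A4c_kl p 0 (A - B) l (sub_ne_zero.2 h)
  linarith [A4c_one p]

/-- [PTW-A4c2] the case `B = 0`, `A ≠ 0`.
Proof. `ZMod p` is a field: `x ^ 2 - α ^ 2 ≠ 0` iff `x ≠ α` and `x ≠ - α`. Put `x = α + y`: `∑_{y ≠ 0} ψ (A y⁻¹ + l y) ψ (l α)` minus (if `- α ≠ α`) one term of modulus `1`; `≤ 2 √p + 1 ≤ 3 √p`. -/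
theorem CS_local2 (p : ℕ) [Fact p.Prime] (α β A l : ZMod p) (h : A ≠ 0) : ‖CS p α β A 0 l‖ ≤ 3 * Real.sqrt p := by
  classical
  have hf : (univ : Finset (ZMod p)).filter (fun x => IsUnit (x ^ 2 - α ^ 2)) =
      ((univ : Finset (ZMod p)).filter (fun x => x ≠ α)).filter (fun x => x ≠ -α) := by
    rw [filter_filter]
    refine filter_congr fun x _ => ?_
    rw [isUnit_iff_ne_zero]
    have e1 : x ^ 2 - α ^ 2 = (x - α) * (x - -α) := by ring
    rw [e1, mul_ne_zero_iff, sub_ne_zero, sub_ne_zero]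
  have hsplit := sum_filter_add_sum_filter_not ((univ : Finset (ZMod p)).filter (fun x => x ≠ α))
    (fun x => x ≠ -α) (fun x => (ZMod.stdAddChar (A * (x - α)⁻¹ + l * x) : ℂ))
  have hone : ‖∑ x ∈ ((univ : Finset (ZMod p)).filter (fun x => x ≠ α)).filter
      (fun x => ¬ x ≠ -α), (ZMod.stdAddChar (A * (x - α)⁻¹ + l * x) : ℂ)‖ ≤ 1 := by
    refine (norm_sum_le _ _).trans ?_
    rw [Finset.sum_congr rfl (fun x _ => AddChar.norm_apply _ _), Finset.sum_const, nsmul_eq_mul,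
      mul_one]
    have h1 : (((univ : Finset (ZMod p)).filter (fun x => x ≠ α)).filter
        (fun x => ¬ x ≠ -α)).card ≤ ({-α} : Finset (ZMod p)).card := by
      refine card_le_card fun x hx => ?_
      have hx' := (mem_filter.1 hx).2
      rw [mem_singleton]
      exact not_not.1 hx'
    rw [card_singleton] at h1
    exact_mod_cast h1
  have e : CS p α β A 0 l = ∑ x ∈ ((univ : Finset (ZMod p)).filter (fun x => x ≠ α)).filter
      (fun x => x ≠ -α), (ZMod.stdAddChar (A * (x - α)⁻¹ + l * x) : ℂ) := by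
    unfold CS
    rw [hf]
    refine sum_congr rfl fun x _ => ?_
    congr 1
    ring
  have h2 := A4c_kl p α A l h
  rw [← hsplit] at h2
  rw [e]
  have h3 := norm_sub_norm_le (∑ x ∈ ((univ : Finset (ZMod p)).filter (fun x => x ≠ α)).filter
      (fun x => x ≠ -α), (ZMod.stdAddChar (A * (x - α)⁻¹ + l * x) : ℂ))
      (-∑ x ∈ ((univ : Finset (ZMod p)).filter (fun x => x ≠ α)).filter
      (fun x => ¬ x ≠ -α), (ZMod.stdAddChar (A * (x - α)⁻¹ + l * x) : ℂ))
  rw [norm_neg, sub_neg_eq_add] at h3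
  linarith [A4c_one p]

/-- [PTW-A4c3] the case `A = 0`, `B ≠ 0`: `α ^ 2 = β ^ 2`, so the range of summation does not change if `α` is replaced by `β`; then as `CS_local2`. -/
theorem CS_local3 (p : ℕ) [Fact p.Prime] (α β B l : ZMod p) (hαβ : α ^ 2 = β ^ 2) (h : B ≠ 0) : ‖CS p α β 0 B l‖ ≤ 3 * Real.sqrt p := by
  classical
  have e : CS p α β 0 B l = CS p β α (-B) 0 l := by
    unfold CS
    rw [hαβ]
    refine sum_congr rfl fun x _ => ?_
    congr 1
    ring
  rw [e]
  exact CS_local2 p β α (-B) l (neg_ne_zero.2 h)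

end Pool.Agent.PTW
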