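import Pool.Agent.PTW.A4b
import Pool.Agent.PTW.A4c

set_option autoImplicit false

namespace Pool.Agent.PTW

open Finset

/-- the primes at which the Weil bound is used -/
def GoodP (α β A B : ℤ) (p : ℕ) : Prop :=
  ((p : ℤ) ∣ α ∧ (p : ℤ) ∣ β ∧ ¬ (p : ℤ) ∣ A - B) ∨ ((p : ℤ) ∣ B ∧ ¬ (p : ℤ) ∣ A) ∨ ((p : ℤ) ∣ A ∧ ¬ (p : ℤ) ∣ B)

theorem A4d_good_mul (α β A B t : ℤ) (p : ℕ) (hp : p.Prime) (ht : ¬ (p : ℤ) ∣ t) (h : GoodP α β A B p) :
    GoodP α β (A * t) (B * t) p := by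
  have hpi : Prime (p : ℤ) := Nat.prime_iff_prime_int.mp hp
  rcases h with ⟨h1, h2, h3⟩ | ⟨h1, h2⟩ | ⟨h1, h2⟩
  · refine Or.inl ⟨h1, h2, ?_⟩
    intro hh
    rw [← sub_mul] at hh
    rcases hpi.dvd_or_dvd hh with h | h
    · exact h3 h
    · exact ht h
  · refine Or.inr (Or.inl ⟨Dvd.dvd.mul_right h1 t, ?_⟩)
    intro hh
    rcases hpi.dvd_or_dvd hh with h | h
    · exact h2 h
    · exact ht h
  · refine Or.inr (Or.inr ⟨Dvd.dvd.mul_right h1 t, ?_⟩)
    intro hh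
    rcases hpi.dvd_or_dvd hh with h | h
    · exact h2 h
    · exact ht h

theorem A4d_local (p q' : ℕ) (hp : p.Prime) [Fact p.Prime] (α β A B l : ℤ) (hcop : Nat.Coprime p q')
    (hαβ : (p : ℤ) ∣ α ^ 2 - β ^ 2) (h : GoodP α β A B p) :
    ‖CS p (α : ZMod p) β (A * (q' : ZMod p)⁻¹) (B * (q' : ZMod p)⁻¹) (l * (q' : ZMod p)⁻¹)‖ ≤ 3 * Real.sqrt p := by
  have hu : (q' : ZMod p) ≠ 0 := by
    intro h0
    rw [ZMod.natCast_eq_zero_iff] at h0
    have := (Nat.Prime.coprime_iff_not_dvd hp).mp hcop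
    exact this h0
  have hui : (q' : ZMod p)⁻¹ ≠ 0 := inv_ne_zero hu
  have hz : ∀ x : ℤ, (p : ℤ) ∣ x → ((x : ℤ) : ZMod p) = 0 := fun x hx => (ZMod.intCast_zmod_eq_zero_iff_dvd x p).mpr hx
  have hnz : ∀ x : ℤ, ¬ (p : ℤ) ∣ x → ((x : ℤ) : ZMod p) ≠ 0 := fun x hx h0 => hx ((ZMod.intCast_zmod_eq_zero_iff_dvd x p).mp h0)
  rcases h with ⟨h1, h2, h3⟩ | ⟨h1, h2⟩ | ⟨h1, h2⟩
  · rw [hz α h1, hz β h2]
    apply CS_local1
    intro hh
    have hAB := mul_right_cancel₀ hui hh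
    apply hnz (A - B) h3
    push_cast
    rw [hAB, sub_self]
  · rw [hz B h1, zero_mul]
    apply CS_local2
    exact mul_ne_zero (hnz A h2) hui
  · rw [hz A h1, zero_mul]
    apply CS_local3
    · have := hz _ hαβ
      push_cast at this
      exact sub_eq_zero.mp this
    · exact mul_ne_zero (hnz B h2) hui

/-- [PTW-A4d] Proof. Induction on `G` (for all `q, A, B, l`). `G = ∅`: `CS_trivial`. `G = insert p G'`: `q = p q'`, `p ∤ q'` (as `¬ p ^ 2 ∣ q`); `CS_mul` with `q₁ = p`, `q₂ = q'`: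
the first factor is `≤ 3 √p` (`CS_local1-3`; the unit `(q')⁻¹` does not change the conditions mod `p`, write the elements of `ZMod q'` of the second factor as casts of integers:
`A' = A t` with `t` an integer representing `p⁻¹` mod `q'`, prime to every member of `G'`, so `GoodP α β (A t) (B t)` holds for the members of `G'`), the second `≤ q' ∏_{G'} (3 / √p)`. `p * (3 / √p) = 3 √p`. -/
theorem CS_bound (G : Finset ℕ) (q : ℕ) [NeZero q] (α β A B l : ℤ) (hαβ : (q : ℤ) ∣ α ^ 2 - β ^ 2)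
    (hG : ∀ p ∈ G, p.Prime ∧ p ∣ q ∧ ¬ p ^ 2 ∣ q ∧ GoodP α β A B p) :
    ‖CS q α β A B l‖ ≤ q * ∏ p ∈ G, (3 / Real.sqrt p) := by
  induction G using Finset.induction_on generalizing q A B l with
  | empty => simpa using CS_trivial q (α : ZMod q) β A B l
  | insert p G' hpG' ih =>
    obtain ⟨hp, hpq, hp2, hgood⟩ := hG p (Finset.mem_insert_self p G')
    obtain ⟨q', rfl⟩ := hpq
    have hq0 : p * q' ≠ 0 := NeZero.ne _
    haveI hq'0 : NeZero q' := ⟨fun h => hq0 (by rw [h, mul_zero])⟩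
    haveI hp0 : NeZero p := ⟨hp.ne_zero⟩
    haveI hpf : Fact p.Prime := ⟨hp⟩
    have hpq' : ¬ p ∣ q' := by
      intro h
      apply hp2
      rw [pow_two]
      exact Nat.mul_dvd_mul_left p h
    have hcop : Nat.Coprime p q' := (Nat.Prime.coprime_iff_not_dvd hp).mpr hpq'
    rw [CS_mul p q' hcop α β A B l hαβ, norm_mul]
    have hdp : (p : ℤ) ∣ α ^ 2 - β ^ 2 := dvd_trans ⟨(q' : ℤ), by push_cast; ring⟩ hαβ
    have hdq : (q' : ℤ) ∣ α ^ 2 - β ^ 2 := dvd_trans ⟨(p : ℤ), by push_cast; ring⟩ hαβ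
    have h1 := A4d_local p q' hp α β A B l hcop hdp hgood
    set t : ℤ := (((p : ZMod q')⁻¹).val : ℤ) with ht
    have htc : ((t : ℤ) : ZMod q') = (p : ZMod q')⁻¹ := by
      rw [ht]
      simp
    have htp : (q' : ℤ) ∣ t * p - 1 := by
      rw [← ZMod.intCast_zmod_eq_zero_iff_dvd]
      push_cast
      rw [htc]
      have := ZMod.coe_mul_inv_eq_one p hcop
      rw [mul_comm, this, sub_self]
    have hcond : ∀ r ∈ G', r.Prime ∧ r ∣ q' ∧ ¬ r ^ 2 ∣ q' ∧ GoodP α β (A * t) (B * t) r := by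
      intro r hr
      obtain ⟨hrp, hrq, hr2, hrg⟩ := hG r (Finset.mem_insert_of_mem hr)
      have hne : r ≠ p := fun h => hpG' (h ▸ hr)
      have hrq' : r ∣ q' := by
        rcases (Nat.Prime.dvd_mul hrp).mp hrq with h | h
        · exact absurd ((Nat.prime_dvd_prime_iff_eq hrp hp).mp h) hne
        · exact h
      refine ⟨hrp, hrq', fun h => hr2 (dvd_mul_of_dvd_right h p), ?_⟩
      apply A4d_good_mul α β A B t r hrp _ hrg
      intro hrt
      have h2 : (r : ℤ) ∣ t * p - 1 := dvd_trans (Int.natCast_dvd_natCast.mpr hrq') htp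
      have h3 : (r : ℤ) ∣ t * p := Dvd.dvd.mul_right hrt _
      have h4 : (r : ℤ) ∣ 1 := by
        have := dvd_sub h3 h2
        simpa using this
      have h5 : r ∣ 1 := by exact_mod_cast h4
      exact hrp.one_lt.ne' (Nat.dvd_one.mp h5)
    have h2 := ih q' (A * t) (B * t) (l * t) hdq hcond
    push_cast at h2
    rw [htc] at h2
    have hprod : (∏ r ∈ insert p G', (3 / Real.sqrt (r : ℝ))) = (3 / Real.sqrt (p : ℝ)) * ∏ r ∈ G', (3 / Real.sqrt (r : ℝ)) :=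
      Finset.prod_insert hpG'
    rw [hprod]
    have hpp : (0 : ℝ) < p := by exact_mod_cast hp.pos
    have hsq : Real.sqrt (p : ℝ) * Real.sqrt (p : ℝ) = p := Real.mul_self_sqrt hpp.le
    have hsp : (0 : ℝ) < Real.sqrt (p : ℝ) := Real.sqrt_pos.mpr hpp
    have h3 : (p : ℝ) * (3 / Real.sqrt (p : ℝ)) = 3 * Real.sqrt p := by
      field_simp
      nlinarith [hsq]
    calc _ ≤ (3 * Real.sqrt (p : ℝ)) * ((q' : ℝ) * ∏ r ∈ G', (3 / Real.sqrt (r : ℝ))) := by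
          exact mul_le_mul h1 h2 (norm_nonneg _) (by positivity)
      _ = ((p : ℝ) * (3 / Real.sqrt (p : ℝ))) * ((q' : ℝ) * ∏ r ∈ G', (3 / Real.sqrt (r : ℝ))) := by rw [h3]
      _ = _ := by push_cast; ring

end Pool.Agent.PTW
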