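import Pool.Agent.PTW.A4a
import Pool.Agent.PTW.A4d

set_option autoImplicit false

namespace Pool.Agent.PTW

open Finset

theorem A4e_ee (q : ℕ) [NeZero q] (y : ℤ) : ee q y = ZMod.stdAddChar (y : ZMod q) := by
  rw [ZMod.stdAddChar_coe]
  rfl

theorem A4e_iv (q : ℕ) [NeZero q] (z : ℤ) : ((iv q z : ℤ) : ZMod q) = (z : ZMod q)⁻¹ := by
  unfold iv
  rw [Int.cast_natCast, ZMod.natCast_zmod_val]

theorem A4e_iv_dvd (q : ℕ) [NeZero q] (z : ℤ) (hz : IsCoprime (q : ℤ) z) :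
    (q : ℤ) ∣ z * iv q z - 1 := by
  rw [← ZMod.intCast_zmod_eq_zero_iff_dvd]
  push_cast
  rw [A4e_iv, ZMod.mul_inv_of_unit _ ((ZMod.coe_int_isUnit_iff_isCoprime z q).2 hz), sub_self]

theorem A4e_fac (b k L N w : ℕ) (H a : ℤ) (hb : 1 ≤ b) (hkL : k ∣ L) (hL : 1 ≤ L)
    [NeZero (b * L)] (hu : IsCoprime ((b * L : ℕ) : ℤ) (a - b * w)) :
    ee (b * k) (H * (N * iv (b * k) (a - b * w))) =
      ZMod.stdAddChar (((H * (L / k : ℕ) * N : ℤ) : ZMod (b * L)) *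
        ((a - b * w : ℤ) : ZMod (b * L))⁻¹) := by
  obtain ⟨k', rfl⟩ := hkL
  have hk : 0 < k := Nat.pos_of_ne_zero fun h => by simp [h] at hL
  have hk' : 0 < k' := Nat.pos_of_ne_zero fun h => by simp [h] at hL
  have : NeZero (b * k) := ⟨(Nat.mul_pos hb hk).ne'⟩
  rw [Nat.mul_div_cancel_left k' hk]
  set z : ℤ := a - b * w with hz
  set q : ℕ := b * (k * k') with hq
  have hqq : (q : ℤ) = ((b * k : ℕ) : ℤ) * (k' : ℤ) := by
    rw [hq]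
    push_cast
    ring
  have h2 : IsCoprime ((b * k : ℕ) : ℤ) z := by
    rw [hqq] at hu
    exact hu.of_mul_left_left
  have h3 := A4e_iv_dvd (b * k) z h2
  have h1 := A4e_iv_dvd q z hu
  have h1' : ((b * k : ℕ) : ℤ) ∣ z * iv q z - 1 := dvd_trans (by rw [hqq]; exact dvd_mul_right _ _) h1
  have h4 : ((b * k : ℕ) : ℤ) ∣ iv (b * k) z - iv q z := by
    refine h2.dvd_of_dvd_mul_left ?_
    have h5 := dvd_sub h3 h1'
    have h6 : z * iv (b * k) z - 1 - (z * iv q z - 1) = z * (iv (b * k) z - iv q z) := by ring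
    rwa [h6] at h5
  have h5 : (q : ℤ) ∣ (k' : ℤ) * H * N * iv (b * k) z - H * k' * N * iv q z := by
    obtain ⟨m, hm⟩ := h4
    refine ⟨H * N * m, ?_⟩
    rw [hqq]
    calc (k' : ℤ) * H * N * iv (b * k) z - H * k' * N * iv q z
        = k' * H * N * (iv (b * k) z - iv q z) := by ring
      _ = _ := by rw [hm]; ring
  have h6 : ee (b * k) (H * (N * iv (b * k) z)) = ee q (k' * H * N * iv (b * k) z) := by
    unfold ee
    congr 1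
    have hb' : (b : ℂ) ≠ 0 := by
      have : b ≠ 0 := by omega
      exact_mod_cast this
    have hk1 : (k : ℂ) ≠ 0 := by exact_mod_cast hk.ne'
    have hk2 : (k' : ℂ) ≠ 0 := by exact_mod_cast hk'.ne'
    rw [hq]
    push_cast
    field_simp
  rw [h6, A4e_ee]
  congr 1
  have h7 : ((k' * H * N * iv (b * k) z : ℤ) : ZMod q) = ((H * k' * N * iv q z : ℤ) : ZMod q) := by
    have h8 := (ZMod.intCast_zmod_eq_zero_iff_dvd _ q).2 h5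
    rw [Int.cast_sub] at h8
    exact sub_eq_zero.1 h8
  rw [h7, Int.cast_mul, A4e_iv]

theorem A4e_cop (b k₁ k₂ w a : ℤ) (L : ℤ) (hw : L ∣ w ^ 2 + 1) (h1 : k₁ ∣ L) (h2 : k₂ ∣ L)
    (h3 : L ∣ k₁ * k₂) :
    (IsCoprime a b ∧ IsCoprime (a ^ 2 + b ^ 2) (k₁ * k₂)) ↔
      IsCoprime (b * L) (a ^ 2 - (b * w) ^ 2) := by
  rw [IsCoprime.mul_left_iff]
  have e1 : IsCoprime b (a ^ 2 - (b * w) ^ 2) ↔ IsCoprime a b := by
    have h4 : a ^ 2 - (b * w) ^ 2 = a ^ 2 + b * (-(b * w ^ 2)) := by ring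
    rw [h4, IsCoprime.add_mul_left_right_iff, isCoprime_comm]
    exact IsCoprime.pow_left_iff (by norm_num)
  have e2 : IsCoprime L (a ^ 2 - (b * w) ^ 2) ↔ IsCoprime (a ^ 2 + b ^ 2) (k₁ * k₂) := by
    obtain ⟨m, hm⟩ := hw
    have h4 : a ^ 2 - (b * w) ^ 2 = a ^ 2 + b ^ 2 + L * (-(b ^ 2 * m)) := by
      have : w ^ 2 = L * m - 1 := by rw [← hm]; ring
      rw [mul_pow, this]
      ring
    rw [h4, IsCoprime.add_mul_left_right_iff, isCoprime_comm]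
    constructor
    · intro h
      rw [IsCoprime.mul_right_iff]
      exact ⟨h.of_isCoprime_of_dvd_right h1, h.of_isCoprime_of_dvd_right h2⟩
    · intro h
      exact h.of_isCoprime_of_dvd_right h3
  rw [e1, e2]

/-- [PTW-A4e] the incomplete sum is bounded by the complete sums modulo `q = b L`, `L = lcm k₁ k₂`. The `G` is any set of good primes.
Here `w₁, w₂` are roots of `-1` modulo `L` (not only modulo `k₁`, `k₂`).
Proof. Let `k₁' = L / k₁`, `k₂' = L / k₂` (integers; `q = b k₁ k₁' = b k₂ k₂'`). `ee (b k₁) y = ee q (k₁' y)`. For `a` in the range of summation `a - b w_i` is prime to `q`: mod `p ∣ b` it is `a`; mod `p ∣ L`, `(a - b w)(a + b w) = a ^ 2 - b ^ 2 w ^ 2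
≡ a ^ 2 + b ^ 2`, and `(a ^ 2 + b ^ 2, L) = 1`. `iv (b k₁) (a - b w₁)` is congruent modulo `b k₁` to the inverse modulo `q`. So the summand is `ψ_q (A (a - α)⁻¹ - B (a - β)⁻¹)` with
`A = H₁ k₁' N`, `B = H₂ k₂' N`, `α = b w₁`, `β = b w₂`; the condition of the sum is `IsUnit (a ^ 2 - α ^ 2 : ZMod q)` (mod `p ∣ b`: `a ^ 2`; mod `p ∣ L`, : `a ^ 2 + b ^ 2`; the case `p ∣ b` and `p ∣ L`: both say `p ∤ a`).
`q ∣ α ^ 2 - β ^ 2 = b ^ 2 (w₁ ^ 2 - w₂ ^ 2)`. Apply `completion` (with `F x = ψ (A (x - α)⁻¹ - B (x - β)⁻¹)` on the units, `0` elsewhere; `v - u ≤ b ≤ q`) and `CS_bound`. -/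
theorem IS_le (N b k₁ k₂ w₁ w₂ : ℕ) (H₁ H₂ u v : ℤ) (hb : 1 ≤ b) (hk₁ : 1 ≤ k₁) (hk₂ : 1 ≤ k₂)
    (hw₁ : Nat.lcm k₁ k₂ ∣ w₁ ^ 2 + 1) (hw₂ : Nat.lcm k₁ k₂ ∣ w₂ ^ 2 + 1) (huv : v - u ≤ b) (G : Finset ℕ)
    (hG : ∀ p ∈ G, p.Prime ∧ p ∣ b * Nat.lcm k₁ k₂ ∧ ¬ p ^ 2 ∣ b * Nat.lcm k₁ k₂ ∧
      GoodP (b * w₁) (b * w₂) (H₁ * (Nat.lcm k₁ k₂ / k₁ : ℕ) * N) (H₂ * (Nat.lcm k₁ k₂ / k₂ : ℕ) * N) p) :
    ‖IS N b k₁ k₂ w₁ w₂ H₁ H₂ u v‖ ≤
      (2 + Real.log (b * Nat.lcm k₁ k₂ : ℕ)) * ((b * Nat.lcm k₁ k₂ : ℕ) * ∏ p ∈ G, (3 / Real.sqrt p)) := by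
  classical
  set L : ℕ := Nat.lcm k₁ k₂ with hLdef
  have hL : 1 ≤ L := Nat.lcm_pos hk₁ hk₂
  have hd1 : k₁ ∣ L := Nat.dvd_lcm_left _ _
  have hd2 : k₂ ∣ L := Nat.dvd_lcm_right _ _
  have hd3 : L ∣ k₁ * k₂ := Nat.lcm_dvd_mul k₁ k₂
  have : NeZero (b * L) := ⟨(Nat.mul_pos hb hL).ne'⟩
  set q : ℕ := b * L with hq
  set A : ℤ := H₁ * (L / k₁ : ℕ) * N with hA
  set B : ℤ := H₂ * (L / k₂ : ℕ) * N with hB
  have hw1 : (L : ℤ) ∣ (w₁ : ℤ) ^ 2 + 1 := by exact_mod_cast hw₁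
  have hw2 : (L : ℤ) ∣ (w₂ : ℤ) ^ 2 + 1 := by exact_mod_cast hw₂
  have hαβ : (q : ℤ) ∣ ((b : ℤ) * w₁) ^ 2 - ((b : ℤ) * w₂) ^ 2 := by
    have h1 : ((b : ℤ) * w₁) ^ 2 - ((b : ℤ) * w₂) ^ 2 =
        (b : ℤ) * (b * (((w₁ : ℤ) ^ 2 + 1) - ((w₂ : ℤ) ^ 2 + 1))) := by ring
    rw [h1, hq]
    push_cast
    exact mul_dvd_mul_left _ ((dvd_sub hw1 hw2).mul_left _)
  have hαβ' : (((b : ℤ) * w₁ : ℤ) : ZMod q) ^ 2 = (((b : ℤ) * w₂ : ℤ) : ZMod q) ^ 2 := by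
    have h2 := (ZMod.intCast_zmod_eq_zero_iff_dvd _ q).2 hαβ
    rw [Int.cast_sub, Int.cast_pow, Int.cast_pow] at h2
    exact sub_eq_zero.1 h2
  set F : ZMod q → ℂ := fun x => if IsUnit (x ^ 2 - (((b : ℤ) * w₁ : ℤ) : ZMod q) ^ 2) then
    ZMod.stdAddChar ((A : ZMod q) * (x - (((b : ℤ) * w₁ : ℤ) : ZMod q))⁻¹ -
      (B : ZMod q) * (x - (((b : ℤ) * w₂ : ℤ) : ZMod q))⁻¹) else 0 with hF
  have hIS : IS N b k₁ k₂ w₁ w₂ H₁ H₂ u v = ∑ a ∈ Ioc u v, F (a : ZMod q) := by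
    unfold IS
    rw [sum_filter]
    refine sum_congr rfl fun a _ => ?_
    have hc : (IsCoprime a (b : ℤ) ∧ IsCoprime (a ^ 2 + (b : ℤ) ^ 2) ((k₁ * k₂ : ℕ) : ℤ)) ↔
        IsUnit ((a : ZMod q) ^ 2 - (((b : ℤ) * w₁ : ℤ) : ZMod q) ^ 2) := by
      have h3 : (a : ZMod q) ^ 2 - (((b : ℤ) * w₁ : ℤ) : ZMod q) ^ 2 =
          ((a ^ 2 - (b * w₁) ^ 2 : ℤ) : ZMod q) := by push_cast; ring
      rw [h3, ZMod.coe_int_isUnit_iff_isCoprime, hq]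
      push_cast
      exact A4e_cop b k₁ k₂ w₁ a L hw1 (by exact_mod_cast hd1) (by exact_mod_cast hd2)
        (by exact_mod_cast hd3)
    by_cases h : IsUnit ((a : ZMod q) ^ 2 - (((b : ℤ) * w₁ : ℤ) : ZMod q) ^ 2)
    · rw [if_pos (hc.2 h), hF]
      simp only
      rw [if_pos h]
      have hu1 : IsCoprime (q : ℤ) (a - b * w₁) := by
        rw [← ZMod.coe_int_isUnit_iff_isCoprime]
        have h4 : (a : ZMod q) ^ 2 - (((b : ℤ) * w₁ : ℤ) : ZMod q) ^ 2 =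
            ((a - b * w₁ : ℤ) : ZMod q) * ((a + b * w₁ : ℤ) : ZMod q) := by push_cast; ring
        rw [h4] at h
        exact isUnit_of_mul_isUnit_left h
      have hu2 : IsCoprime (q : ℤ) (a - b * w₂) := by
        rw [← ZMod.coe_int_isUnit_iff_isCoprime]
        have h4 : (a : ZMod q) ^ 2 - (((b : ℤ) * w₂ : ℤ) : ZMod q) ^ 2 =
            ((a - b * w₂ : ℤ) : ZMod q) * ((a + b * w₂ : ℤ) : ZMod q) := by push_cast; ring
        rw [hαβ', h4] at h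
        exact isUnit_of_mul_isUnit_left h
      rw [A4e_fac b k₁ L N w₁ H₁ a hb hd1 hL hu1, A4e_fac b k₂ L N w₂ H₂ a hb hd2 hL hu2,
        ← AddChar.map_neg_eq_conj, ← AddChar.map_add_eq_mul, ← sub_eq_add_neg, Int.cast_sub,
        Int.cast_sub]
    · rw [if_neg (fun h' => h (hc.1 h')), hF]
      simp only
      rw [if_neg h]
  rw [hIS]
  refine completion q F _ u v ?_ ?_
  · have h5 : (b : ℤ) ≤ (q : ℤ) := by
      rw [hq]
      exact_mod_cast Nat.le_mul_of_pos_right b hL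
    linarith
  · intro l
    have hl : ((l.val : ℤ) : ZMod q) = l := by
      rw [Int.cast_natCast, ZMod.natCast_zmod_val]
    have h6 := CS_bound G q ((b : ℤ) * w₁) ((b : ℤ) * w₂) A B (l.val : ℤ) hαβ hG
    rw [hl] at h6
    refine le_trans (le_of_eq ?_) h6
    congr 1
    unfold CS
    rw [sum_filter]
    refine sum_congr rfl fun x _ => ?_
    rw [hF]
    simp only
    by_cases h : IsUnit (x ^ 2 - (((b : ℤ) * w₁ : ℤ) : ZMod q) ^ 2)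
    · rw [if_pos h, if_pos h, ← AddChar.map_add_eq_mul]
    · rw [if_neg h, if_neg h, zero_mul]

end Pool.Agent.PTW
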