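import Pool.Agent.PTW.A4e

set_option autoImplicit false

namespace Pool.Agent.PTW

open Finset

theorem A4f_prod_union_le (A B : Finset ℕ) (hB : ∀ p ∈ B, 1 ≤ p) :
    ∏ p ∈ A ∪ B, p ≤ (∏ p ∈ A, p) * ∏ p ∈ B, p := by
  rw [← Finset.prod_union_inter]
  refine Nat.le_mul_of_pos_right _ ?_
  exact Finset.prod_pos fun p hp => hB p (Finset.mem_inter.1 hp).2

theorem A4f_prod_mono {A B : Finset ℕ} (h : A ⊆ B) (hB : ∀ p ∈ B, 1 ≤ p) : ∏ p ∈ A, p ≤ ∏ p ∈ B, p :=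
  Finset.prod_le_prod_of_subset_of_one_le' h fun p hp _ => hB p hp

theorem A4f_prod_le {S : Finset ℕ} {n : ℕ} (hn : 0 < n) (hp : ∀ p ∈ S, p.Prime) (hd : ∀ p ∈ S, p ∣ n) :
    ∏ p ∈ S, p ≤ n :=
  Nat.le_of_dvd hn (Finset.prod_primes_dvd n (fun p h => (hp p h).prime) hd)

theorem A4f_cop {k₁ k₂ : ℕ} (hk₂ : Squarefree k₂) : Nat.Coprime k₁ (k₂ / Nat.gcd k₁ k₂) := by
  refine Nat.Coprime.symm (Nat.coprime_of_dvd fun p hp h1 h2 => ?_)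
  have h3 : p ∣ k₂ := h1.trans (Nat.div_dvd_of_dvd (Nat.gcd_dvd_right k₁ k₂))
  have h4 : p ∣ Nat.gcd k₁ k₂ := Nat.dvd_gcd h2 h3
  have h5 : p * p ∣ k₂ := by
    have h6 := Nat.mul_dvd_mul h4 h1
    rwa [Nat.mul_div_cancel' (Nat.gcd_dvd_right k₁ k₂)] at h6
  exact hp.one_lt.ne' (Nat.isUnit_iff.1 (hk₂ p h5))

theorem A4f_lcm (k₁ k₂ : ℕ) : Nat.lcm k₁ k₂ = k₁ * (k₂ / Nat.gcd k₁ k₂) := by
  unfold Nat.lcm
  rw [Nat.mul_div_assoc _ (Nat.gcd_dvd_right k₁ k₂)]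

theorem A4f_sqf {k₁ k₂ : ℕ} (hk₁ : Squarefree k₁) (hk₂ : Squarefree k₂) : Squarefree (Nat.lcm k₁ k₂) := by
  rw [A4f_lcm, Nat.squarefree_mul (A4f_cop hk₂)]
  exact ⟨hk₁, hk₂.squarefree_of_dvd (Nat.div_dvd_of_dvd (Nat.gcd_dvd_right k₁ k₂))⟩

theorem A4f_sqrt_prod (G : Finset ℕ) : ∏ p ∈ G, Real.sqrt p = Real.sqrt ((∏ p ∈ G, p : ℕ) : ℝ) := by
  induction G using Finset.induction_on with
  | empty => simp
  | insert a s ha ih =>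
    rw [Finset.prod_insert ha, Finset.prod_insert ha, ih, Nat.cast_mul, Real.sqrt_mul (Nat.cast_nonneg _)]

/-- the inequality in the natural numbers -/
theorem A4f_nat (N b k₁ k₂ : ℕ) (H₁ H₂ : ℤ) (hb : 1 ≤ b) (hk₁ : Squarefree k₁) (hk₂ : Squarefree k₂)
    (G : Finset ℕ)
    (hG : G = (b.primeFactors.filter (fun p => ¬ p ^ 2 ∣ b ∧ ¬ p ∣ Nat.lcm k₁ k₂ ∧ ¬ (p : ℤ) ∣ (H₁ * k₂ - H₂ * k₁) * N)) ∪
      ((k₁.primeFactors.filter (fun p => ¬ p ∣ k₂ ∧ ¬ p ∣ b ∧ ¬ (p : ℤ) ∣ H₁)) ∪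
       (k₂.primeFactors.filter (fun p => ¬ p ∣ k₁ ∧ ¬ p ∣ b ∧ ¬ (p : ℤ) ∣ H₂)))) :
    Nat.lcm k₁ k₂ ^ 2 * bone b (Nat.lcm k₁ k₂) ≤
      (Int.gcd ((H₁ * k₂ - H₂ * k₁) * N) (bone b (Nat.lcm k₁ k₂)) * (k₁ * k₂) *
        Nat.gcd b (Nat.lcm k₁ k₂) * Int.gcd H₁ k₁ * Int.gcd H₂ k₂) * ∏ p ∈ G, p := by
  have hk₁0 : 0 < k₁ := Nat.pos_of_ne_zero hk₁.ne_zero
  have hk₂0 : 0 < k₂ := Nat.pos_of_ne_zero hk₂.ne_zero
  set L := Nat.lcm k₁ k₂ with hL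
  have hL0 : 0 < L := Nat.lcm_pos hk₁0 hk₂0
  have hLs : Squarefree L := A4f_sqf hk₁ hk₂
  have hk₁L : k₁ ∣ L := Nat.dvd_lcm_left k₁ k₂
  have hk₂L : k₂ ∣ L := Nat.dvd_lcm_right k₁ k₂
  set D : ℤ := (H₁ * k₂ - H₂ * k₁) * N with hD
  set G₁ := b.primeFactors.filter (fun p => ¬ p ^ 2 ∣ b ∧ ¬ p ∣ L ∧ ¬ (p : ℤ) ∣ D) with hG₁
  set G₂ := k₁.primeFactors.filter (fun p => ¬ p ∣ k₂ ∧ ¬ p ∣ b ∧ ¬ (p : ℤ) ∣ H₁) with hG₂
  set G₃ := k₂.primeFactors.filter (fun p => ¬ p ∣ k₁ ∧ ¬ p ∣ b ∧ ¬ (p : ℤ) ∣ H₂) with hG₃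
  have hdis : Disjoint G₁ (G₂ ∪ G₃) := by
    rw [Finset.disjoint_left]
    intro p hp hp'
    have h1 := (Finset.mem_filter.1 hp).2.2.1
    rcases Finset.mem_union.1 hp' with h | h
    · exact h1 ((Nat.dvd_of_mem_primeFactors (Finset.mem_filter.1 h).1).trans hk₁L)
    · exact h1 ((Nat.dvd_of_mem_primeFactors (Finset.mem_filter.1 h).1).trans hk₂L)
  have hdis' : Disjoint G₂ G₃ := by
    rw [Finset.disjoint_left]
    intro p hp hp'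
    exact (Finset.mem_filter.1 hp).2.1 (Nat.dvd_of_mem_primeFactors (Finset.mem_filter.1 hp').1)
  have hprod : ∏ p ∈ G, p = (∏ p ∈ G₁, p) * ((∏ p ∈ G₂, p) * ∏ p ∈ G₃, p) := by
    rw [hG, Finset.prod_union hdis, Finset.prod_union hdis']
  -- the part of b
  have hbone0 : 0 < bone b L := by
    unfold bone
    exact Finset.prod_pos fun p hp => (Nat.prime_of_mem_primeFactors (Finset.mem_filter.1 hp).1).pos
  have hB : bone b L ≤ (∏ p ∈ G₁, p) * Int.gcd D (bone b L) := by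
    have h1 : bone b L = ∏ p ∈ b.primeFactors.filter (fun p => ¬ p ^ 2 ∣ b ∧ ¬ p ∣ L), p := rfl
    set B₁ := b.primeFactors.filter (fun p => ¬ p ^ 2 ∣ b ∧ ¬ p ∣ L) with hB₁
    set B₂ := B₁.filter (fun p : ℕ => (p : ℤ) ∣ D) with hB₂
    have hsub : B₁ ⊆ G₁ ∪ B₂ := by
      intro p hp
      by_cases h : (p : ℤ) ∣ D
      · exact Finset.mem_union_right _ (Finset.mem_filter.2 ⟨hp, h⟩)
      · refine Finset.mem_union_left _ (Finset.mem_filter.2 ⟨(Finset.mem_filter.1 hp).1, ?_⟩)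
        exact ⟨(Finset.mem_filter.1 hp).2.1, (Finset.mem_filter.1 hp).2.2, h⟩
    have hpB : ∀ p ∈ B₁, p.Prime := fun p hp => Nat.prime_of_mem_primeFactors (Finset.mem_filter.1 hp).1
    have hpos : ∀ p ∈ G₁ ∪ B₂, 1 ≤ p := by
      intro p hp
      rcases Finset.mem_union.1 hp with h | h
      · exact (Nat.prime_of_mem_primeFactors (Finset.mem_filter.1 h).1).pos
      · exact (hpB p (Finset.mem_filter.1 h).1).pos
    have h2 : ∏ p ∈ B₂, p ≤ Int.gcd D (bone b L) := by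
      refine A4f_prod_le ?_ (fun p hp => hpB p (Finset.mem_filter.1 hp).1) fun p hp => ?_
      · exact Int.gcd_pos_of_ne_zero_right _ (by exact_mod_cast hbone0.ne')
      · have h3 : p ∣ bone b L := by
          rw [h1]
          exact Finset.dvd_prod_of_mem (fun p => p) (Finset.mem_filter.1 hp).1
        have h4 : (p : ℤ) ∣ (Int.gcd D (bone b L) : ℤ) :=
          Int.dvd_coe_gcd (Finset.mem_filter.1 hp).2 (Int.natCast_dvd_natCast.2 h3)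
        exact Int.natCast_dvd_natCast.1 h4
    calc bone b L = ∏ p ∈ B₁, p := h1
      _ ≤ ∏ p ∈ G₁ ∪ B₂, p := A4f_prod_mono hsub hpos
      _ ≤ (∏ p ∈ G₁, p) * ∏ p ∈ B₂, p := A4f_prod_union_le _ _ fun p hp => hpos p (Finset.mem_union_right _ hp)
      _ ≤ _ := Nat.mul_le_mul_left _ h2
  -- the part of L
  have hLL : L ≤ ((∏ p ∈ G₂, p) * ∏ p ∈ G₃, p) * (Nat.gcd k₁ k₂ * (Nat.gcd b L * (Int.gcd H₁ k₁ * Int.gcd H₂ k₂))) := by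
    set P := L.primeFactors with hP
    have hpP : ∀ p ∈ P, p.Prime := fun p hp => Nat.prime_of_mem_primeFactors hp
    set S4 := P.filter (fun p => p ∣ Nat.gcd k₁ k₂) with hS4
    set S5 := P.filter (fun p => p ∣ Nat.gcd b L) with hS5
    set S6 := P.filter (fun p => p ∣ Int.gcd H₁ k₁) with hS6
    set S7 := P.filter (fun p => p ∣ Int.gcd H₂ k₂) with hS7
    have hsub : P ⊆ (G₂ ∪ G₃) ∪ (S4 ∪ (S5 ∪ (S6 ∪ S7))) := by
      intro p hp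
      have hpp := hpP p hp
      have hpL : p ∣ L := Nat.dvd_of_mem_primeFactors hp
      have hor : p ∣ k₁ ∨ p ∣ k₂ := by
        have h1 : p ∣ k₁ * k₂ := hpL.trans (Nat.lcm_dvd_mul k₁ k₂)
        exact (Nat.Prime.dvd_mul hpp).1 h1
      simp only [Finset.mem_union, hS4, hS5, hS6, hS7, hG₂, hG₃, Finset.mem_filter, Nat.mem_primeFactors]
      by_cases hb' : p ∣ b
      · right; right; left
        exact ⟨hp, Nat.dvd_gcd hb' hpL⟩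
      by_cases h12 : p ∣ Nat.gcd k₁ k₂
      · right; left
        exact ⟨hp, h12⟩
      rcases hor with h | h
      · have h2 : ¬ p ∣ k₂ := fun h2 => h12 (Nat.dvd_gcd h h2)
        by_cases hH : (p : ℤ) ∣ H₁
        · right; right; right; left
          refine ⟨hp, ?_⟩
          have h4 : (p : ℤ) ∣ (Int.gcd H₁ k₁ : ℤ) := Int.dvd_coe_gcd hH (Int.natCast_dvd_natCast.2 h)
          exact Int.natCast_dvd_natCast.1 h4
        · left; left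
          exact ⟨⟨hpp, h, hk₁0.ne'⟩, h2, hb', hH⟩
      · have h2 : ¬ p ∣ k₁ := fun h2 => h12 (Nat.dvd_gcd h2 h)
        by_cases hH : (p : ℤ) ∣ H₂
        · right; right; right; right
          refine ⟨hp, ?_⟩
          have h4 : (p : ℤ) ∣ (Int.gcd H₂ k₂ : ℤ) := Int.dvd_coe_gcd hH (Int.natCast_dvd_natCast.2 h)
          exact Int.natCast_dvd_natCast.1 h4
        · left; right
          exact ⟨⟨hpp, h, hk₂0.ne'⟩, h2, hb', hH⟩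
    have hpG : ∀ p ∈ G₂ ∪ G₃, 1 ≤ p := by
      intro p hp
      rcases Finset.mem_union.1 hp with h | h
      · exact (Nat.prime_of_mem_primeFactors (Finset.mem_filter.1 h).1).pos
      · exact (Nat.prime_of_mem_primeFactors (Finset.mem_filter.1 h).1).pos
    have hpS : ∀ p ∈ S4 ∪ (S5 ∪ (S6 ∪ S7)), 1 ≤ p := by
      intro p hp
      simp only [Finset.mem_union, hS4, hS5, hS6, hS7, Finset.mem_filter] at hp
      rcases hp with h | h | h | h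
      all_goals exact (hpP p h.1).pos
    have hpos : ∀ p ∈ (G₂ ∪ G₃) ∪ (S4 ∪ (S5 ∪ (S6 ∪ S7))), 1 ≤ p := fun p hp =>
      (Finset.mem_union.1 hp).elim (hpG p) (hpS p)
    have e4 : ∏ p ∈ S4, p ≤ Nat.gcd k₁ k₂ :=
      A4f_prod_le (Nat.gcd_pos_of_pos_left _ hk₁0) (fun p hp => hpP p (Finset.mem_filter.1 hp).1) fun p hp => (Finset.mem_filter.1 hp).2
    have e5 : ∏ p ∈ S5, p ≤ Nat.gcd b L :=
      A4f_prod_le (Nat.gcd_pos_of_pos_left _ hb) (fun p hp => hpP p (Finset.mem_filter.1 hp).1) fun p hp => (Finset.mem_filter.1 hp).2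
    have e6 : ∏ p ∈ S6, p ≤ Int.gcd H₁ k₁ :=
      A4f_prod_le (Int.gcd_pos_of_ne_zero_right _ (by exact_mod_cast hk₁0.ne')) (fun p hp => hpP p (Finset.mem_filter.1 hp).1)
        fun p hp => (Finset.mem_filter.1 hp).2
    have e7 : ∏ p ∈ S7, p ≤ Int.gcd H₂ k₂ :=
      A4f_prod_le (Int.gcd_pos_of_ne_zero_right _ (by exact_mod_cast hk₂0.ne')) (fun p hp => hpP p (Finset.mem_filter.1 hp).1)
        fun p hp => (Finset.mem_filter.1 hp).2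
    calc L = ∏ p ∈ P, p := (Nat.prod_primeFactors_of_squarefree hLs).symm
      _ ≤ ∏ p ∈ (G₂ ∪ G₃) ∪ (S4 ∪ (S5 ∪ (S6 ∪ S7))), p := A4f_prod_mono hsub hpos
      _ ≤ (∏ p ∈ G₂ ∪ G₃, p) * ∏ p ∈ S4 ∪ (S5 ∪ (S6 ∪ S7)), p := A4f_prod_union_le _ _ hpS
      _ ≤ _ := by
        rw [Finset.prod_union hdis']
        refine Nat.mul_le_mul_left _ ?_
        refine (A4f_prod_union_le _ _ fun p hp => hpS p (Finset.mem_union_right _ hp)).trans (Nat.mul_le_mul e4 ?_)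
        refine (A4f_prod_union_le _ _ fun p hp => hpS p (Finset.mem_union_right _ (Finset.mem_union_right _ hp))).trans
          (Nat.mul_le_mul e5 ?_)
        exact (A4f_prod_union_le _ _ fun p hp => hpS p (Finset.mem_union_right _ (Finset.mem_union_right _
          (Finset.mem_union_right _ hp)))).trans (Nat.mul_le_mul e6 e7)
  have hgL : Nat.gcd k₁ k₂ * L = k₁ * k₂ := Nat.gcd_mul_lcm k₁ k₂
  calc L ^ 2 * bone b L = L * L * bone b L := by ring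
    _ ≤ L * (((∏ p ∈ G₂, p) * ∏ p ∈ G₃, p) * (Nat.gcd k₁ k₂ * (Nat.gcd b L * (Int.gcd H₁ k₁ * Int.gcd H₂ k₂)))) *
        ((∏ p ∈ G₁, p) * Int.gcd D (bone b L)) := Nat.mul_le_mul (Nat.mul_le_mul_left _ hLL) hB
    _ = (Int.gcd D (bone b L) * (Nat.gcd k₁ k₂ * L) * Nat.gcd b L * Int.gcd H₁ k₁ * Int.gcd H₂ k₂) *
        ((∏ p ∈ G₁, p) * ((∏ p ∈ G₂, p) * ∏ p ∈ G₃, p)) := by ring
    _ = _ := by rw [hgL, hprod]

/-- [PTW-A4f1] the elementary inequality for the chosen set of good primes.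
Proof. `L = lcm k₁ k₂` is squarefree, `g = gcd k₁ k₂`, `L g = k₁ k₂`. Let `G₁ = {p ∣ b : p ^ 2 ∤ b, p ∤ L, p ∤ X N}`, `G₂ = {p ∣ k₁ : p ∤ k₂, p ∤ b, p ∤ H₁}`, `G₃ = {p ∣ k₂ : p ∤ k₁, p ∤ b, p ∤ H₂}` (`G` is their disjoint union).
`∏_{G₁} p ≥ bone b L / gcd (X N, bone b L)`, and the product of ALL `p ∣ L`, `p ∤ g`, `p ∤ b` is `≥ L / (g gcd (b, L))`, so `∏_{G₂ ∪ G₃} p ≥ L / (g gcd(b,L) gcd(H₁,k₁) gcd(H₂,k₂))`.
So `b L / √(∏_G p) ≤ b √(gcd(XN, bone) / bone) * √(L g gcd(b,L) gcd(H₁,k₁) gcd(H₂,k₂))`, and `L g = k₁ k₂`. -/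
theorem good_set (N b k₁ k₂ : ℕ) (H₁ H₂ : ℤ) (hb : 1 ≤ b) (hN : 1 ≤ N) (hk₁ : Squarefree k₁) (hk₂ : Squarefree k₂)
    (h0 : H₁ * k₂ - H₂ * k₁ ≠ 0) (G : Finset ℕ)
    (hG : G = (b.primeFactors.filter (fun p => ¬ p ^ 2 ∣ b ∧ ¬ p ∣ Nat.lcm k₁ k₂ ∧ ¬ (p : ℤ) ∣ (H₁ * k₂ - H₂ * k₁) * N)) ∪
      ((k₁.primeFactors.filter (fun p => ¬ p ∣ k₂ ∧ ¬ p ∣ b ∧ ¬ (p : ℤ) ∣ H₁)) ∪
       (k₂.primeFactors.filter (fun p => ¬ p ∣ k₁ ∧ ¬ p ∣ b ∧ ¬ (p : ℤ) ∣ H₂)))) :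
    (b * Nat.lcm k₁ k₂ : ℝ) * ∏ p ∈ G, (3 / Real.sqrt p) ≤
      3 ^ (b * Nat.lcm k₁ k₂).primeFactors.card * (b / Real.sqrt (bone b (Nat.lcm k₁ k₂))) *
        Real.sqrt (Int.gcd ((H₁ * k₂ - H₂ * k₁) * N) (bone b (Nat.lcm k₁ k₂))) * Real.sqrt (k₁ * k₂) *
        Real.sqrt (Nat.gcd b (Nat.lcm k₁ k₂)) * Real.sqrt (Int.gcd H₁ k₁) * Real.sqrt (Int.gcd H₂ k₂) := by
  have hnat := A4f_nat N b k₁ k₂ H₁ H₂ hb hk₁ hk₂ G hG
  have hk₁0 : 0 < k₁ := Nat.pos_of_ne_zero hk₁.ne_zero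
  have hk₂0 : 0 < k₂ := Nat.pos_of_ne_zero hk₂.ne_zero
  have hGp : ∀ p ∈ G, p.Prime ∧ p ∣ b * Nat.lcm k₁ k₂ := by
    intro p hp
    rw [hG] at hp
    rcases Finset.mem_union.1 hp with h | h
    · have h1 := (Finset.mem_filter.1 h).1
      exact ⟨Nat.prime_of_mem_primeFactors h1, (Nat.dvd_of_mem_primeFactors h1).mul_right _⟩
    · rcases Finset.mem_union.1 h with h | h
      · have h1 := (Finset.mem_filter.1 h).1
        exact ⟨Nat.prime_of_mem_primeFactors h1,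
          ((Nat.dvd_of_mem_primeFactors h1).trans (Nat.dvd_lcm_left k₁ k₂)).mul_left _⟩
      · have h1 := (Finset.mem_filter.1 h).1
        exact ⟨Nat.prime_of_mem_primeFactors h1,
          ((Nat.dvd_of_mem_primeFactors h1).trans (Nat.dvd_lcm_right k₁ k₂)).mul_left _⟩
  set L := Nat.lcm k₁ k₂ with hL
  have hL0 : 0 < L := Nat.lcm_pos hk₁0 hk₂0
  have hbL : b * L ≠ 0 := Nat.mul_ne_zero (by omega) hL0.ne'
  have hcard : G.card ≤ (b * L).primeFactors.card :=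
    Finset.card_le_card fun p hp => Nat.mem_primeFactors.2 ⟨(hGp p hp).1, (hGp p hp).2, hbL⟩
  have hbone0 : 0 < bone b L := by
    unfold bone
    exact Finset.prod_pos fun p hp => (Nat.prime_of_mem_primeFactors (Finset.mem_filter.1 hp).1).pos
  have hPi0 : 0 < ∏ p ∈ G, p := Finset.prod_pos fun p hp => (hGp p hp).1.pos
  set Pi := ∏ p ∈ G, p with hPi
  set gB := Int.gcd ((H₁ * k₂ - H₂ * k₁) * N) (bone b L) with hgB
  have h1 : ∏ p ∈ G, (3 / Real.sqrt p) = 3 ^ G.card / Real.sqrt (Pi : ℝ) := by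
    rw [Finset.prod_div_distrib, Finset.prod_const, A4f_sqrt_prod]
  have hs : (0 : ℝ) < Real.sqrt (Pi : ℝ) := Real.sqrt_pos.2 (by exact_mod_cast hPi0)
  have hs' : (0 : ℝ) < Real.sqrt (bone b L : ℝ) := Real.sqrt_pos.2 (by exact_mod_cast hbone0)
  have hb0 : (0 : ℝ) < b := by exact_mod_cast hb
  have h2 : (L : ℝ) * Real.sqrt (bone b L : ℝ) ≤ Real.sqrt gB * Real.sqrt (k₁ * k₂) *
        Real.sqrt (Nat.gcd b L) * Real.sqrt (Int.gcd H₁ k₁) * Real.sqrt (Int.gcd H₂ k₂) * Real.sqrt (Pi : ℝ) := by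
    rw [← Real.sqrt_mul (by positivity), ← Real.sqrt_mul (by positivity), ← Real.sqrt_mul (by positivity),
      ← Real.sqrt_mul (by positivity), ← Real.sqrt_mul (by positivity)]
    have h3 : (L : ℝ) * Real.sqrt (bone b L : ℝ) = Real.sqrt ((L : ℝ) ^ 2 * (bone b L : ℝ)) := by
      rw [Real.sqrt_mul (by positivity), Real.sqrt_sq (Nat.cast_nonneg L)]
    rw [h3]
    refine Real.sqrt_le_sqrt ?_
    exact_mod_cast hnat
  have h3 : (b * L : ℝ) / Real.sqrt (Pi : ℝ) ≤ (b / Real.sqrt (bone b L)) *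
        Real.sqrt gB * Real.sqrt (k₁ * k₂) *
        Real.sqrt (Nat.gcd b L) * Real.sqrt (Int.gcd H₁ k₁) * Real.sqrt (Int.gcd H₂ k₂) := by
    rw [div_le_iff₀ hs]
    have h4 : (b / Real.sqrt (bone b L)) * Real.sqrt gB * Real.sqrt (k₁ * k₂) *
        Real.sqrt (Nat.gcd b L) * Real.sqrt (Int.gcd H₁ k₁) * Real.sqrt (Int.gcd H₂ k₂) * Real.sqrt (Pi : ℝ) =
        (b * (Real.sqrt gB * Real.sqrt (k₁ * k₂) *
        Real.sqrt (Nat.gcd b L) * Real.sqrt (Int.gcd H₁ k₁) * Real.sqrt (Int.gcd H₂ k₂) * Real.sqrt (Pi : ℝ))) /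
          Real.sqrt (bone b L) := by ring
    rw [h4, le_div_iff₀ hs', mul_assoc]
    exact mul_le_mul_of_nonneg_left h2 hb0.le
  rw [h1]
  have h5 : (3 : ℝ) ^ G.card ≤ 3 ^ (b * L).primeFactors.card := pow_le_pow_right₀ (by norm_num) hcard
  calc (b * L : ℝ) * (3 ^ G.card / Real.sqrt (Pi : ℝ)) = 3 ^ G.card * ((b * L : ℝ) / Real.sqrt (Pi : ℝ)) := by ring
    _ ≤ 3 ^ (b * L).primeFactors.card * ((b / Real.sqrt (bone b L)) *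
        Real.sqrt gB * Real.sqrt (k₁ * k₂) *
        Real.sqrt (Nat.gcd b L) * Real.sqrt (Int.gcd H₁ k₁) * Real.sqrt (Int.gcd H₂ k₂)) :=
      mul_le_mul h5 h3 (by positivity) (by positivity)
    _ = _ := by ring

theorem A4f_ivc (b k w W : ℕ) (a : ℤ) (h : W ≡ w [MOD k]) : iv (b * k) (a - b * W) = iv (b * k) (a - b * w) := by
  unfold iv
  have h1 : ((a - b * W : ℤ) : ZMod (b * k)) = ((a - b * w : ℤ) : ZMod (b * k)) := by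
    rw [ZMod.intCast_eq_intCast_iff_dvd_sub]
    have h2 : (k : ℤ) ∣ (W : ℤ) - w := by
      have := (Nat.modEq_iff_dvd.1 h.symm)
      exact this
    obtain ⟨t, ht⟩ := h2
    refine ⟨t, ?_⟩
    push_cast
    linear_combination (b : ℤ) * ht
  rw [h1]

/-- the sum depends on the roots modulo `k₁`, `k₂` only -/
theorem A4f_IS (N b k₁ k₂ w₁ w₂ W₁ W₂ : ℕ) (H₁ H₂ u v : ℤ) (h₁ : W₁ ≡ w₁ [MOD k₁]) (h₂ : W₂ ≡ w₂ [MOD k₂]) :
    IS N b k₁ k₂ W₁ W₂ H₁ H₂ u v = IS N b k₁ k₂ w₁ w₂ H₁ H₂ u v := by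
  unfold IS
  refine Finset.sum_congr rfl fun a _ => ?_
  rw [A4f_ivc b k₁ w₁ W₁ a h₁, A4f_ivc b k₂ w₂ W₂ a h₂]

/-- a root modulo the least common multiple -/
theorem A4f_root {k₁ k₂ w₁ w₂ : ℕ} (hk₂ : Squarefree k₂) (hw₁ : k₁ ∣ w₁ ^ 2 + 1) (hw₂ : k₂ ∣ w₂ ^ 2 + 1) :
    ∃ W : ℕ, W ≡ w₁ [MOD k₁] ∧ Nat.lcm k₁ k₂ ∣ W ^ 2 + 1 := by
  have hc := A4f_cop (k₁ := k₁) hk₂
  obtain ⟨W, hW⟩ := Nat.chineseRemainder hc w₁ w₂
  refine ⟨W, hW.1, ?_⟩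
  rw [A4f_lcm]
  refine Nat.Coprime.mul_dvd_of_dvd_of_dvd hc ?_ ?_
  · have h1 : W ^ 2 + 1 ≡ w₁ ^ 2 + 1 [MOD k₁] := (hW.1.pow 2).add_right 1
    exact (Nat.modEq_zero_iff_dvd.1 (h1.trans (Nat.modEq_zero_iff_dvd.2 hw₁)))
  · have h1 : W ^ 2 + 1 ≡ w₂ ^ 2 + 1 [MOD k₂ / Nat.gcd k₁ k₂] := (hW.2.pow 2).add_right 1
    exact (Nat.modEq_zero_iff_dvd.1 (h1.trans (Nat.modEq_zero_iff_dvd.2
      ((Nat.div_dvd_of_dvd (Nat.gcd_dvd_right k₁ k₂)).trans hw₂))))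

/-- [PTW-A4f2] the bound for the incomplete sum; now `w₁`, `w₂` are roots modulo `k₁`, `k₂` only.
Proof. Choose by CRT (`L` squarefree: `L = k₁ * (k₂ / g)`, coprime factors) `W₁ ≡ w₁ mod k₁`, `W₁ ≡ w₂ mod k₂ / g`, a root modulo `L`, and `W₂ ≡ w₂ mod k₂`, `W₂ ≡ w₁ mod k₁ / g`;
`IS` does not change when `w₁` is replaced by `W₁` (`a - b w₁ ≡ a - b W₁ mod b k₁`). Then `IS_le` with the set `G` of `good_set` (check `GoodP`: for `p ∣ b`, `p ∤ L`: `α = b W₁`, `β = b W₂` are `≡ 0`, and `A - B = (H₁ (L/k₁) - H₂ (L/k₂)) N`,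
`g (A - B) = (H₁ k₂ - H₂ k₁) N` since `L / k₁ = k₂ / g`; for `p ∣ k₁`, `p ∤ k₂`, `p ∤ b`: `p ∣ L / k₂`, so `p ∣ B`, and `p ∤ A = H₁ (L/k₁) N` as `p ∤ N`; `p ^ 2 ∤ b L` since `L` is squarefree) and `good_set`. -/
theorem inc (N b k₁ k₂ w₁ w₂ : ℕ) (H₁ H₂ u v : ℤ) (hN : 1 ≤ N) (hb : 1 ≤ b) (hk₁ : Squarefree k₁) (hk₂ : Squarefree k₂)
    (hN₁ : Nat.Coprime k₁ N) (hN₂ : Nat.Coprime k₂ N) (hw₁ : k₁ ∣ w₁ ^ 2 + 1) (hw₂ : k₂ ∣ w₂ ^ 2 + 1)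
    (h0 : H₁ * k₂ - H₂ * k₁ ≠ 0) (huv : v - u ≤ b) :
    ‖IS N b k₁ k₂ w₁ w₂ H₁ H₂ u v‖ ≤
      (2 + Real.log (b * Nat.lcm k₁ k₂ : ℕ)) * (3 ^ (b * Nat.lcm k₁ k₂).primeFactors.card * (b / Real.sqrt (bone b (Nat.lcm k₁ k₂))) *
        Real.sqrt (Int.gcd ((H₁ * k₂ - H₂ * k₁) * N) (bone b (Nat.lcm k₁ k₂))) * Real.sqrt (k₁ * k₂) *
        Real.sqrt (Nat.gcd b (Nat.lcm k₁ k₂)) * Real.sqrt (Int.gcd H₁ k₁) * Real.sqrt (Int.gcd H₂ k₂)) := by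
  have hk₁0 : 0 < k₁ := Nat.pos_of_ne_zero hk₁.ne_zero
  have hk₂0 : 0 < k₂ := Nat.pos_of_ne_zero hk₂.ne_zero
  obtain ⟨W₁, hW₁, hL₁⟩ := A4f_root hk₂ hw₁ hw₂
  obtain ⟨W₂, hW₂, hL₂'⟩ := A4f_root (k₁ := k₂) (k₂ := k₁) hk₁ hw₂ hw₁
  have hL₂ : Nat.lcm k₁ k₂ ∣ W₂ ^ 2 + 1 := by rwa [Nat.lcm_comm]
  rw [← A4f_IS N b k₁ k₂ w₁ w₂ W₁ W₂ H₁ H₂ u v hW₁ hW₂]
  have hLs : Squarefree (Nat.lcm k₁ k₂) := A4f_sqf hk₁ hk₂
  have hk₁L : k₁ ∣ Nat.lcm k₁ k₂ := Nat.dvd_lcm_left k₁ k₂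
  have hk₂L : k₂ ∣ Nat.lcm k₁ k₂ := Nat.dvd_lcm_right k₁ k₂
  have hg0 : 0 < Nat.gcd k₁ k₂ := Nat.gcd_pos_of_pos_left _ hk₁0
  -- the quotients
  have q₁ : Nat.lcm k₁ k₂ / k₁ = k₂ / Nat.gcd k₁ k₂ := by
    rw [A4f_lcm, Nat.mul_div_cancel_left _ hk₁0]
  have q₂ : Nat.lcm k₁ k₂ / k₂ = k₁ / Nat.gcd k₁ k₂ := by
    rw [Nat.lcm_comm, A4f_lcm, Nat.mul_div_cancel_left _ hk₂0, Nat.gcd_comm]
  have g₁ : Nat.gcd k₁ k₂ * (Nat.lcm k₁ k₂ / k₁) = k₂ := by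
    rw [q₁, Nat.mul_div_cancel' (Nat.gcd_dvd_right k₁ k₂)]
  have g₂ : Nat.gcd k₁ k₂ * (Nat.lcm k₁ k₂ / k₂) = k₁ := by
    rw [q₂, Nat.mul_div_cancel' (Nat.gcd_dvd_left k₁ k₂)]
  obtain ⟨G, hG⟩ : ∃ G : Finset ℕ, G = (b.primeFactors.filter (fun p => ¬ p ^ 2 ∣ b ∧ ¬ p ∣ Nat.lcm k₁ k₂ ∧ ¬ (p : ℤ) ∣ (H₁ * k₂ - H₂ * k₁) * N)) ∪
      ((k₁.primeFactors.filter (fun p => ¬ p ∣ k₂ ∧ ¬ p ∣ b ∧ ¬ (p : ℤ) ∣ H₁)) ∪
       (k₂.primeFactors.filter (fun p => ¬ p ∣ k₁ ∧ ¬ p ∣ b ∧ ¬ (p : ℤ) ∣ H₂))) := ⟨_, rfl⟩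
  have hgood := good_set N b k₁ k₂ H₁ H₂ hb hN hk₁ hk₂ h0 G hG
  -- no squares
  have hsq1 : ∀ p : ℕ, p.Prime → ¬ p ^ 2 ∣ b → ¬ p ∣ Nat.lcm k₁ k₂ → ¬ p ^ 2 ∣ b * Nat.lcm k₁ k₂ := by
    intro p hp h1 h2 h3
    exact h1 ((Nat.Coprime.pow_left 2 ((Nat.Prime.coprime_iff_not_dvd hp).2 h2)).dvd_of_dvd_mul_right h3)
  have hsq2 : ∀ p : ℕ, p.Prime → ¬ p ∣ b → ¬ p ^ 2 ∣ b * Nat.lcm k₁ k₂ := by
    intro p hp h1 h3
    have h4 := (Nat.Coprime.pow_left 2 ((Nat.Prime.coprime_iff_not_dvd hp).2 h1)).dvd_of_dvd_mul_left h3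
    rw [sq] at h4
    exact hp.one_lt.ne' (Nat.isUnit_iff.1 (hLs p h4))
  have hkey : ∀ p ∈ G, p.Prime ∧ p ∣ b * Nat.lcm k₁ k₂ ∧ ¬ p ^ 2 ∣ b * Nat.lcm k₁ k₂ ∧
      GoodP (b * W₁) (b * W₂) (H₁ * (Nat.lcm k₁ k₂ / k₁ : ℕ) * N) (H₂ * (Nat.lcm k₁ k₂ / k₂ : ℕ) * N) p := by
    intro p hp
    rw [hG] at hp
    rcases Finset.mem_union.1 hp with h | h
    · obtain ⟨h1, h2, h3, h4⟩ := Finset.mem_filter.1 h
      have hpp := Nat.prime_of_mem_primeFactors h1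
      have hpb := Nat.dvd_of_mem_primeFactors h1
      refine ⟨hpp, hpb.mul_right _, hsq1 p hpp h2 h3, Or.inl ⟨?_, ?_, fun h5 => h4 ?_⟩⟩
      · exact (Int.natCast_dvd_natCast.2 hpb).mul_right _
      · exact (Int.natCast_dvd_natCast.2 hpb).mul_right _
      · have g₁' : ((Nat.gcd k₁ k₂ : ℕ) : ℤ) * ((Nat.lcm k₁ k₂ / k₁ : ℕ) : ℤ) = k₂ := by exact_mod_cast g₁
        have g₂' : ((Nat.gcd k₁ k₂ : ℕ) : ℤ) * ((Nat.lcm k₁ k₂ / k₂ : ℕ) : ℤ) = k₁ := by exact_mod_cast g₂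
        have h6 : (H₁ * k₂ - H₂ * k₁) * N = (Nat.gcd k₁ k₂ : ℕ) *
            (H₁ * (Nat.lcm k₁ k₂ / k₁ : ℕ) * N - H₂ * (Nat.lcm k₁ k₂ / k₂ : ℕ) * N) := by
          linear_combination (-(H₁ * N)) * g₁' + (H₂ * N) * g₂'
        rw [h6]
        exact h5.mul_left _
    · rcases Finset.mem_union.1 h with h | h
      · obtain ⟨h1, h2, h3, h4⟩ := Finset.mem_filter.1 h
        have hpp := Nat.prime_of_mem_primeFactors h1
        have hpk := Nat.dvd_of_mem_primeFactors h1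
        have hpZ : Prime (p : ℤ) := Nat.prime_iff_prime_int.1 hpp
        refine ⟨hpp, (hpk.trans hk₁L).mul_left _, hsq2 p hpp h3, Or.inr (Or.inl ⟨?_, fun h5 => ?_⟩)⟩
        · have h6 : p ∣ Nat.lcm k₁ k₂ / k₂ := by
            have h7 : p ∣ Nat.gcd k₁ k₂ * (Nat.lcm k₁ k₂ / k₂) := by rw [g₂]; exact hpk
            rcases (Nat.Prime.dvd_mul hpp).1 h7 with h8 | h8
            · exact absurd (h8.trans (Nat.gcd_dvd_right k₁ k₂)) h2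
            · exact h8
          exact ((Int.natCast_dvd_natCast.2 h6).mul_left _).mul_right _
        · rcases hpZ.dvd_or_dvd h5 with h6 | h6
          · rcases hpZ.dvd_or_dvd h6 with h7 | h7
            · exact h4 h7
            · have h8 := Int.natCast_dvd_natCast.1 h7
              rw [q₁] at h8
              exact h2 (h8.trans (Nat.div_dvd_of_dvd (Nat.gcd_dvd_right k₁ k₂)))
          · have h7 := Int.natCast_dvd_natCast.1 h6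
            exact hpp.one_lt.ne' (Nat.eq_one_of_dvd_coprimes hN₁ hpk h7)
      · obtain ⟨h1, h2, h3, h4⟩ := Finset.mem_filter.1 h
        have hpp := Nat.prime_of_mem_primeFactors h1
        have hpk := Nat.dvd_of_mem_primeFactors h1
        have hpZ : Prime (p : ℤ) := Nat.prime_iff_prime_int.1 hpp
        refine ⟨hpp, (hpk.trans hk₂L).mul_left _, hsq2 p hpp h3, Or.inr (Or.inr ⟨?_, fun h5 => ?_⟩)⟩
        · have h6 : p ∣ Nat.lcm k₁ k₂ / k₁ := by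
            have h7 : p ∣ Nat.gcd k₁ k₂ * (Nat.lcm k₁ k₂ / k₁) := by rw [g₁]; exact hpk
            rcases (Nat.Prime.dvd_mul hpp).1 h7 with h8 | h8
            · exact absurd (h8.trans (Nat.gcd_dvd_left k₁ k₂)) h2
            · exact h8
          exact ((Int.natCast_dvd_natCast.2 h6).mul_left _).mul_right _
        · rcases hpZ.dvd_or_dvd h5 with h6 | h6
          · rcases hpZ.dvd_or_dvd h6 with h7 | h7
            · exact h4 h7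
            · have h8 := Int.natCast_dvd_natCast.1 h7
              rw [q₂] at h8
              exact h2 (h8.trans (Nat.div_dvd_of_dvd (Nat.gcd_dvd_left k₁ k₂)))
          · have h7 := Int.natCast_dvd_natCast.1 h6
            exact hpp.one_lt.ne' (Nat.eq_one_of_dvd_coprimes hN₂ hpk h7)
  refine (IS_le N b k₁ k₂ W₁ W₂ H₁ H₂ u v hb hk₁0 hk₂0 hL₁ hL₂ huv G hkey).trans ?_
  refine mul_le_mul_of_nonneg_left ?_ ?_
  · have h1 : ((b * Nat.lcm k₁ k₂ : ℕ) : ℝ) = (b : ℝ) * (Nat.lcm k₁ k₂ : ℝ) := by push_cast; ring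
    rw [h1]
    exact hgood
  · have h1 : (0 : ℝ) ≤ Real.log ((b * Nat.lcm k₁ k₂ : ℕ) : ℝ) := Real.log_natCast_nonneg _
    linarith

end Pool.Agent.PTW
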