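import Pool.Agent.PTW.Defs

set_option autoImplicit false

namespace Pool.Agent.PTW

open Finset

theorem A5a_pow (x : ℝ) (hx : 0 ≤ x) : x ^ ((3 : ℝ) / 2) = x * Real.sqrt x := by
  have h : (3 : ℝ) / 2 = 1 + 1 / 2 := by norm_num
  rw [h, Real.rpow_add' hx (by norm_num), Real.rpow_one, Real.sqrt_eq_rpow]

/-- [PTW-A5a] Proof. `√n ≤ √Y`, `√(gcd (Z, n)) ≤ gcd (Z, n) ≤ ∑_{d ∣ Z, d ∣ n} d`, so the sum is `≤ √Y ∑_{d ∣ Z} d * (Y / d) ≤ √Y * Y * τ(Z)`. -/
theorem sum_gcd (Z Y : ℕ) (hZ : 1 ≤ Z) :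
    ∑ n ∈ Icc 1 Y, Real.sqrt n * Real.sqrt (Nat.gcd Z n) ≤ (Y : ℝ) ^ ((3 : ℝ) / 2) * Z.divisors.card := by
  have h1 : ∀ n ∈ Icc 1 Y, Real.sqrt n * Real.sqrt (Nat.gcd Z n) ≤
      Real.sqrt Y * ∑ d ∈ Z.divisors, (if d ∣ n then (d : ℝ) else 0) := by
    intro n hn
    have hn' := Finset.mem_Icc.1 hn
    refine mul_le_mul (Real.sqrt_le_sqrt (by exact_mod_cast hn'.2)) ?_ (Real.sqrt_nonneg _) (Real.sqrt_nonneg _)
    have hg : 1 ≤ Nat.gcd Z n := Nat.gcd_pos_of_pos_left n hZ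
    have hg1 : (1 : ℝ) ≤ (Nat.gcd Z n : ℝ) := by exact_mod_cast hg
    have h2 : Real.sqrt (Nat.gcd Z n) ≤ (Nat.gcd Z n : ℝ) :=
      Real.sqrt_le_iff.2 ⟨by linarith, by nlinarith⟩
    refine h2.trans ?_
    have h3 : Nat.gcd Z n ∈ Z.divisors := Nat.mem_divisors.2 ⟨Nat.gcd_dvd_left _ _, by omega⟩
    have h4 := Finset.single_le_sum (f := fun d : ℕ => if d ∣ n then (d : ℝ) else 0)
      (fun d _ => by split_ifs <;> positivity) h3
    simp only [if_pos (Nat.gcd_dvd_right Z n)] at h4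
    exact h4
  refine (Finset.sum_le_sum h1).trans ?_
  rw [← Finset.mul_sum, Finset.sum_comm, A5a_pow _ (Nat.cast_nonneg Y)]
  have h5 : ∀ d ∈ Z.divisors, ∑ n ∈ Icc 1 Y, (if d ∣ n then (d : ℝ) else 0) ≤ Y := by
    intro d hd
    have hd0 : 0 < d := Nat.pos_of_mem_divisors hd
    rw [← Finset.sum_filter, Finset.sum_const, nsmul_eq_mul]
    have h6 : ((Icc 1 Y).filter (fun n => d ∣ n)).card = Y / d := by
      have : Icc 1 Y = Ioc 0 Y := by
        ext n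
        simp only [Finset.mem_Icc, Finset.mem_Ioc]
        omega
      rw [this, Nat.Ioc_filter_dvd_card_eq_div]
    rw [h6]
    have h7 : Y / d * d ≤ Y := Nat.div_mul_le_self Y d
    exact_mod_cast h7
  have h8 := Finset.sum_le_sum h5
  rw [Finset.sum_const, nsmul_eq_mul] at h8
  calc Real.sqrt Y * ∑ d ∈ Z.divisors, ∑ n ∈ Icc 1 Y, (if d ∣ n then (d : ℝ) else 0)
      ≤ Real.sqrt Y * (Z.divisors.card * Y) := mul_le_mul_of_nonneg_left h8 (Real.sqrt_nonneg _)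
    _ = _ := by ring

theorem A5a_split (t : ℕ) (ht : 1 ≤ t) (h : ∀ p : ℕ, p.Prime → p ∣ t → p ^ 2 ∣ t) :
    ∃ q : ℕ × ℕ, q.1 ^ 2 * q.2 ^ 3 = t := by
  obtain ⟨a, b, hab, ha⟩ := Nat.sq_mul_squarefree t
  have hb0 : b ≠ 0 := by
    rintro rfl
    simp at hab
    omega
  have h1 : a ∣ b := by
    rw [← Nat.prod_primeFactors_of_squarefree ha]
    refine (Finset.prod_dvd_prod_of_subset _ _ _ ?_).trans (Nat.prod_primeFactors_dvd b)
    intro p hp
    have hpp := Nat.prime_of_mem_primeFactors hp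
    have hpa := Nat.dvd_of_mem_primeFactors hp
    rw [Nat.mem_primeFactors]
    refine ⟨hpp, ?_, hb0⟩
    by_contra hpb
    have h2 : p ^ 2 ∣ b ^ 2 * a := by
      rw [hab]
      exact h p hpp (by rw [← hab]; exact hpa.mul_left _)
    have h3 : Nat.Coprime (p ^ 2) (b ^ 2) := Nat.Coprime.pow 2 2 ((Nat.Prime.coprime_iff_not_dvd hpp).2 hpb)
    have h4 : p ^ 2 ∣ a := h3.dvd_of_dvd_mul_left h2
    rw [sq] at h4
    have h5 := ha p h4
    exact hpp.one_lt.ne' (Nat.isUnit_iff.1 h5)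
  obtain ⟨x, rfl⟩ := h1
  refine ⟨(x, a), ?_⟩
  rw [← hab]
  ring

theorem A5a_y (B : ℕ) (hB : 1 ≤ B) :
    ∑ y ∈ Icc 1 B, 1 / ((y : ℝ) * Real.sqrt y) ≤ 3 - 2 / Real.sqrt B := by
  induction B, hB using Nat.le_induction with
  | base => simp; norm_num
  | succ n hn ih =>
    have hIcc : Icc 1 (n + 1) = insert (n + 1) (Icc 1 n) := by
      ext c
      simp only [Finset.mem_insert, Finset.mem_Icc]
      omega
    have hnot : (n + 1) ∉ Icc 1 n := by
      simp only [Finset.mem_Icc]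
      omega
    rw [hIcc, Finset.sum_insert hnot]
    have hn0 : (0 : ℝ) < n := by exact_mod_cast hn
    have h1 : (0 : ℝ) < ((n + 1 : ℕ) : ℝ) := by positivity
    set a := Real.sqrt n with ha
    set b := Real.sqrt ((n + 1 : ℕ) : ℝ) with hb
    have ha0 : 0 < a := Real.sqrt_pos.2 hn0
    have hb0 : 0 < b := Real.sqrt_pos.2 h1
    have ha2 : a ^ 2 = n := Real.sq_sqrt hn0.le
    have hb2 : b ^ 2 = ((n + 1 : ℕ) : ℝ) := Real.sq_sqrt h1.le
    have hab : a ≤ b := Real.sqrt_le_sqrt (by push_cast; linarith)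
    have hba : b ^ 2 = a ^ 2 + 1 := by
      rw [ha2, hb2]
      push_cast
      ring
    have h2 : 1 / (((n + 1 : ℕ) : ℝ) * b) ≤ 2 / a - 2 / b := by
      rw [← hb2, div_sub_div _ _ ha0.ne' hb0.ne', div_le_div_iff₀ (by positivity) (by positivity)]
      have h3 : (2 * b - a * 2) * (b + a) = 2 := by
        have : (2 * b - a * 2) * (b + a) = 2 * (b ^ 2 - a ^ 2) := by ring
        rw [this, hba]
        ring
      have h4 : b + a ≤ 2 * b := by linarith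
      have h5 : 0 ≤ 2 * b - a * 2 := by linarith
      have h6 : 2 ≤ (2 * b - a * 2) * (2 * b) := by
        calc (2 : ℝ) = (2 * b - a * 2) * (b + a) := h3.symm
          _ ≤ _ := mul_le_mul_of_nonneg_left h4 h5
      have h7 : 1 ≤ (2 * b - a * 2) * b := by linarith
      have h8 : 0 < b ^ 2 := by positivity
      calc 1 * (a * b) ≤ b * b := by rw [one_mul]; exact mul_le_mul_of_nonneg_right hab hb0.le
        _ = b ^ 2 * 1 := by ring
        _ ≤ b ^ 2 * ((2 * b - a * 2) * b) := mul_le_mul_of_nonneg_left h7 h8.le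
        _ = (2 * b - a * 2) * (b ^ 2 * b) := by ring
    linarith

open Classical in
/-- [PTW-A5b] powerful numbers. Proof. `t` with `p ∣ t → p ^ 2 ∣ t` is `x ^ 2 y ^ 3` (`x, y ≥ 1`), so the sum is at most `∑_{x ≤ B} ∑_{y ≤ B} 1 / (x y ^ (3/2)) ≤ (1 + log B) * 3` (`∑ y ^ (-3/2) ≤ 1 + ∫_1^∞ = 3`). -/
theorem sum_powerful (B : ℕ) (hB : 1 ≤ B) :
    ∑ t ∈ (Icc 1 B).filter (fun t => ∀ p : ℕ, p.Prime → p ∣ t → p ^ 2 ∣ t), 1 / Real.sqrt t ≤ 3 * (1 + Real.log B) := by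
  set S := (Icc 1 B).filter (fun t => ∀ p : ℕ, p.Prime → p ∣ t → p ^ 2 ∣ t) with hS
  have h1 : ∀ t : ℕ, ∃ q : ℕ × ℕ, t ∈ S → q.1 ^ 2 * q.2 ^ 3 = t := by
    intro t
    by_cases ht : t ∈ S
    · rw [hS, Finset.mem_filter, Finset.mem_Icc] at ht
      obtain ⟨q, hq⟩ := A5a_split t ht.1.1 ht.2
      exact ⟨q, fun _ => hq⟩
    · exact ⟨(0, 0), fun h => absurd h ht⟩
  choose φ hφ using h1
  have h2 : ∀ t ∈ S, 1 / Real.sqrt t = 1 / ((φ t).1 : ℝ) * (1 / (((φ t).2 : ℝ) * Real.sqrt ((φ t).2 : ℝ))) := by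
    intro t ht
    have h3 := hφ t ht
    have h4 : ((t : ℕ) : ℝ) = ((φ t).1 : ℝ) ^ 2 * (((φ t).2 : ℝ) ^ 2 * ((φ t).2 : ℝ)) := by
      rw [← pow_succ, ← Nat.cast_pow, ← Nat.cast_pow, ← Nat.cast_mul, h3]
    rw [h4, Real.sqrt_mul (by positivity), Real.sqrt_mul (by positivity), Real.sqrt_sq (by positivity),
      Real.sqrt_sq (by positivity), one_div_mul_one_div]
  rw [Finset.sum_congr rfl h2]
  have hinj : Set.InjOn φ (S : Set ℕ) := by
    intro a ha b hb hab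
    rw [← hφ a ha, ← hφ b hb, hab]
  rw [← Finset.sum_image (f := fun q : ℕ × ℕ => 1 / (q.1 : ℝ) * (1 / ((q.2 : ℝ) * Real.sqrt (q.2 : ℝ)))) hinj]
  have hsub : S.image φ ⊆ Icc 1 B ×ˢ Icc 1 B := by
    intro q hq
    rw [Finset.mem_image] at hq
    obtain ⟨t, ht, rfl⟩ := hq
    have h3 := hφ t ht
    rw [hS, Finset.mem_filter, Finset.mem_Icc] at ht
    have ht1 := ht.1.1
    have ht2 := ht.1.2
    have hx : (φ t).1 ≠ 0 := by
      intro h0
      rw [h0] at h3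
      simp at h3
      omega
    have hy : (φ t).2 ≠ 0 := by
      intro h0
      rw [h0] at h3
      simp at h3
      omega
    have hx' : 1 ≤ (φ t).1 := by omega
    have hy' : 1 ≤ (φ t).2 := by omega
    rw [Finset.mem_product, Finset.mem_Icc, Finset.mem_Icc]
    have h5 : (φ t).1 ≤ (φ t).1 ^ 2 * (φ t).2 ^ 3 := by
      calc (φ t).1 = (φ t).1 ^ 1 * 1 := by ring
        _ ≤ (φ t).1 ^ 2 * (φ t).2 ^ 3 := Nat.mul_le_mul (Nat.pow_le_pow_right hx' (by norm_num)) (Nat.one_le_pow _ _ hy')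
    have h6 : (φ t).2 ≤ (φ t).1 ^ 2 * (φ t).2 ^ 3 := by
      calc (φ t).2 = 1 * (φ t).2 ^ 1 := by ring
        _ ≤ (φ t).1 ^ 2 * (φ t).2 ^ 3 := Nat.mul_le_mul (Nat.one_le_pow _ _ hx') (Nat.pow_le_pow_right hy' (by norm_num))
    refine ⟨⟨hx', ?_⟩, hy', ?_⟩ <;> omega
  refine (Finset.sum_le_sum_of_subset_of_nonneg hsub (fun q _ _ => by positivity)).trans ?_
  rw [Finset.sum_product]
  simp only
  rw [← Finset.sum_mul_sum]
  have h7 : ∑ x ∈ Icc 1 B, 1 / (x : ℝ) ≤ 1 + Real.log B := by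
    have h8 := harmonic_le_one_add_log B
    rw [harmonic_eq_sum_Icc] at h8
    push_cast at h8
    simpa only [one_div] using h8
  have h9 : ∑ y ∈ Icc 1 B, 1 / ((y : ℝ) * Real.sqrt y) ≤ 3 := by
    have h10 := A5a_y B hB
    have h11 : 0 ≤ 2 / Real.sqrt (B : ℝ) := by positivity
    linarith
  rw [mul_comm]
  exact mul_le_mul h9 h7 (Finset.sum_nonneg (fun x _ => by positivity)) (by norm_num)

/-- local factor -/
noncomputable def A5a_g (p v : ℕ) : ℝ := if v = 0 then 1 else (Real.sqrt p)⁻¹ ^ (v - 1)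

theorem A5a_gsum (p n : ℕ) (hp : 2 ≤ p) : ∑ v ∈ range n, A5a_g p v ≤ 5 := by
  have hs2 : (7 / 5 : ℝ) ≤ Real.sqrt 2 := Real.le_sqrt_of_sq_le (by norm_num)
  have hp2 : Real.sqrt 2 ≤ Real.sqrt p := Real.sqrt_le_sqrt (by exact_mod_cast hp)
  have hr : (Real.sqrt p)⁻¹ ≤ 5 / 7 := by
    rw [inv_le_comm₀ (by linarith) (by norm_num)]
    norm_num
    linarith
  have hr0 : 0 ≤ (Real.sqrt p)⁻¹ := by positivity
  set r := (Real.sqrt p)⁻¹ with hrdef
  have hgeo : ∀ m : ℕ, ∑ v ∈ range m, r ^ v ≤ 7 / 2 := by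
    intro m
    have h1 : (∑ v ∈ range m, r ^ v) * (r - 1) = r ^ m - 1 := geom_sum_mul r m
    have h2 : 0 ≤ r ^ m := pow_nonneg hr0 m
    have h3 : 0 ≤ ∑ v ∈ range m, r ^ v := Finset.sum_nonneg (fun _ _ => pow_nonneg hr0 _)
    nlinarith
  cases n with
  | zero => simp
  | succ m =>
    rw [Finset.sum_range_succ']
    have h4 : ∀ k ∈ range m, A5a_g p (k + 1) = r ^ k := by
      intro k _
      unfold A5a_g
      rw [if_neg (by omega)]
      rfl
    rw [Finset.sum_congr rfl h4]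
    have h5 : A5a_g p 0 = 1 := by simp [A5a_g]
    rw [h5]
    have := hgeo m
    linarith

theorem A5a_loc (p v d L : ℕ) (hp : p.Prime) (hpd : ¬ p ∣ d) (hpL : ¬ p ∣ L) (hd : 1 ≤ d) :
    Real.sqrt ((Nat.gcd (p ^ v * d) (p * L) : ℕ) / ((p ^ v * d : ℕ) : ℝ)) = A5a_g p v * Real.sqrt ((Nat.gcd d L : ℕ) / (d : ℝ)) := by
  have hcL : Nat.Coprime p L := (Nat.Prime.coprime_iff_not_dvd hp).2 hpL
  have hcd : Nat.Coprime p d := (Nat.Prime.coprime_iff_not_dvd hp).2 hpd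
  have h1 : Nat.gcd (p ^ v * d) (p * L) = Nat.gcd (p ^ v * d) p * Nat.gcd d L := by
    rw [Nat.Coprime.gcd_mul _ hcL, Nat.Coprime.gcd_mul_left_cancel d (Nat.Coprime.pow_left v hcL)]
  rw [h1]
  have hp0 : (0 : ℝ) < p := by exact_mod_cast hp.pos
  have hd0 : (0 : ℝ) < d := by exact_mod_cast hd
  cases v with
  | zero =>
    have h2 : Nat.gcd (p ^ 0 * d) p = 1 := by
      rw [pow_zero, one_mul]
      exact hcd.symm
    rw [h2, one_mul, pow_zero, one_mul]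
    simp [A5a_g]
  | succ k =>
    have h2 : Nat.gcd (p ^ (k + 1) * d) p = p := by
      apply Nat.gcd_eq_right
      exact (dvd_pow_self p (by omega)).mul_right d
    rw [h2]
    unfold A5a_g
    rw [if_neg (by omega), Nat.add_sub_cancel]
    have h3 : (((p * Nat.gcd d L : ℕ) : ℝ)) / ((p ^ (k + 1) * d : ℕ) : ℝ) = ((Real.sqrt p)⁻¹ ^ k) ^ 2 * ((Nat.gcd d L : ℕ) / (d : ℝ)) := by
      rw [← pow_mul, mul_comm k 2, pow_mul, inv_pow, Real.sq_sqrt hp0.le, inv_pow, pow_succ]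
      push_cast
      field_simp
    rw [h3, Real.sqrt_mul (by positivity), Real.sqrt_sq (by positivity)]

open Classical in
theorem A5a_smooth (P : Finset ℕ) (hP : ∀ p ∈ P, p.Prime) (B : ℕ) :
    ∑ D ∈ (Icc 1 B).filter (fun D => ∀ p : ℕ, p.Prime → p ∣ D → p ∈ P), Real.sqrt ((Nat.gcd D (∏ p ∈ P, p) : ℕ) / (D : ℝ)) ≤ 5 ^ P.card := by
  induction P using Finset.induction_on with
  | empty =>
    have h1 : (Icc 1 B).filter (fun D => ∀ p : ℕ, p.Prime → p ∣ D → p ∈ (∅ : Finset ℕ)) ⊆ {1} := by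
      intro D hD
      rw [Finset.mem_filter, Finset.mem_Icc] at hD
      rw [Finset.mem_singleton]
      by_contra hne
      obtain ⟨p, hp, hpD⟩ := Nat.exists_prime_and_dvd hne
      exact absurd (hD.2 p hp hpD) (Finset.notMem_empty p)
    refine (Finset.sum_le_sum_of_subset_of_nonneg h1 (fun _ _ _ => Real.sqrt_nonneg _)).trans ?_
    simp
  | insert p P hpP ih =>
    have hpp : p.Prime := hP p (Finset.mem_insert_self p P)
    have hP' : ∀ q ∈ P, q.Prime := fun q hq => hP q (Finset.mem_insert_of_mem hq)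
    have ih' := ih hP'
    have hpL : ¬ p ∣ ∏ q ∈ P, q := by
      intro h
      obtain ⟨q, hq, hpq⟩ := (Prime.dvd_finsetProd_iff hpp.prime _).1 h
      have := (Nat.prime_dvd_prime_iff_eq hpp (hP' q hq)).1 hpq
      exact hpP (this ▸ hq)
    set S := (Icc 1 B).filter (fun D => ∀ q : ℕ, q.Prime → q ∣ D → q ∈ insert p P) with hS
    set S' := (Icc 1 B).filter (fun D => ∀ q : ℕ, q.Prime → q ∣ D → q ∈ P) with hS'
    let φ : ℕ → ℕ × ℕ := fun D => (D.factorization p, D / p ^ D.factorization p)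
    have hdec : ∀ D ∈ S, p ^ (φ D).1 * (φ D).2 = D := fun D _ => Nat.ordProj_mul_ordCompl_eq_self D p
    have h1 : ∀ D ∈ S, Real.sqrt ((Nat.gcd D (∏ q ∈ insert p P, q) : ℕ) / (D : ℝ)) =
        A5a_g p (φ D).1 * Real.sqrt ((Nat.gcd (φ D).2 (∏ q ∈ P, q) : ℕ) / ((φ D).2 : ℝ)) := by
      intro D hD
      have hD' := hD
      rw [hS, Finset.mem_filter, Finset.mem_Icc] at hD'
      have hD0 : D ≠ 0 := by omega
      rw [Finset.prod_insert hpP]
      have h2 := A5a_loc p (φ D).1 (φ D).2 (∏ q ∈ P, q) hpp (Nat.not_dvd_ordCompl hpp hD0) hpL (Nat.ordCompl_pos p hD0)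
      rw [hdec D hD] at h2
      exact h2
    rw [Finset.sum_congr rfl h1]
    have hinj : Set.InjOn φ (S : Set ℕ) := by
      intro a ha b hb hab
      rw [← hdec a ha, ← hdec b hb, hab]
    rw [← Finset.sum_image (f := fun q : ℕ × ℕ => A5a_g p q.1 * Real.sqrt ((Nat.gcd q.2 (∏ q ∈ P, q) : ℕ) / (q.2 : ℝ))) hinj]
    have hsub : S.image φ ⊆ range (B + 1) ×ˢ S' := by
      intro q hq
      rw [Finset.mem_image] at hq
      obtain ⟨D, hD, rfl⟩ := hq
      have hD' := hD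
      rw [hS, Finset.mem_filter, Finset.mem_Icc] at hD'
      have hD0 : D ≠ 0 := by omega
      rw [Finset.mem_product, Finset.mem_range, hS', Finset.mem_filter, Finset.mem_Icc]
      refine ⟨?_, ⟨Nat.ordCompl_pos p hD0, (Nat.ordCompl_le D p).trans hD'.1.2⟩, ?_⟩
      · have := Nat.factorization_lt p hD0
        show D.factorization p < B + 1
        omega
      · intro q hq hqD
        have h3 : q ∈ insert p P := hD'.2 q hq (hqD.trans (Nat.ordCompl_dvd D p))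
        rcases Finset.mem_insert.1 h3 with h4 | h4
        · subst h4
          exact absurd hqD (Nat.not_dvd_ordCompl hq hD0)
        · exact h4
    have hg0 : ∀ v : ℕ, 0 ≤ A5a_g p v := by
      intro v
      unfold A5a_g
      split_ifs <;> positivity
    refine (Finset.sum_le_sum_of_subset_of_nonneg hsub (fun q _ _ => mul_nonneg (hg0 _) (Real.sqrt_nonneg _))).trans ?_
    rw [Finset.sum_product]
    simp only
    rw [← Finset.sum_mul_sum, Finset.card_insert_of_notMem hpP, pow_succ, mul_comm]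
    exact mul_le_mul ih' (A5a_gsum p (B + 1) hpp.two_le) (Finset.sum_nonneg (fun v _ => hg0 v)) (by positivity)

open Classical in
/-- [PTW-A5c] numbers composed of the primes of the squarefree `L`.
Proof. Induction on the number of primes of `L` (or: product of the truncated local sums): `D = p ^ v D'`, `gcd (D, L) / D` is multiplicative, local factor `1 + ∑_{v ≥ 1} p ^ (-(v - 1) / 2) ≤ 1 + 1 / (1 - 2 ^ (-1/2)) < 5`. -/
theorem sum_smooth (L B : ℕ) (hL : Squarefree L) :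
    ∑ D ∈ (Icc 1 B).filter (fun D => ∀ p : ℕ, p.Prime → p ∣ D → p ∣ L), Real.sqrt (Nat.gcd D L / D) ≤ 5 ^ L.primeFactors.card := by
  have h := A5a_smooth L.primeFactors (fun p hp => Nat.prime_of_mem_primeFactors hp) B
  rw [Nat.prod_primeFactors_of_squarefree hL] at h
  have hL0 : L ≠ 0 := hL.ne_zero
  have h1 : (Icc 1 B).filter (fun D => ∀ p : ℕ, p.Prime → p ∣ D → p ∣ L) = (Icc 1 B).filter (fun D => ∀ p : ℕ, p.Prime → p ∣ D → p ∈ L.primeFactors) := by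
    refine Finset.filter_congr (fun D _ => ?_)
    refine forall_congr' (fun p => ?_)
    refine forall_congr' (fun hp => ?_)
    refine forall_congr' (fun _ => ?_)
    rw [Nat.mem_primeFactors]
    exact ⟨fun h => ⟨hp, h, hL0⟩, fun h => h.2.1⟩
  rw [h1]
  exact h

open Classical in
/-- the part of `b` composed of the primes with `P` -/
noncomputable def A5a_part (P : ℕ → Prop) (b : ℕ) : ℕ := ∏ p ∈ b.primeFactors.filter P, p ^ b.factorization p

theorem A5a_part_pos (P : ℕ → Prop) (b : ℕ) : 1 ≤ A5a_part P b := by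
  classical
  unfold A5a_part
  refine Nat.one_le_iff_ne_zero.2 (Finset.prod_ne_zero_iff.2 (fun p hp => ?_))
  have hp' := Nat.prime_of_mem_primeFactors (Finset.mem_filter.1 hp).1
  exact pow_ne_zero _ hp'.ne_zero

theorem A5a_part_prime (P : ℕ → Prop) (b p : ℕ) (hp : p.Prime) (h : p ∣ A5a_part P b) :
    P p ∧ p ^ b.factorization p ∣ A5a_part P b := by
  classical
  unfold A5a_part at h ⊢
  obtain ⟨q, hq, hpq⟩ := (Prime.dvd_finsetProd_iff hp.prime _).1 h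
  have hq' := Finset.mem_filter.1 hq
  have h1 : p = q := (Nat.prime_dvd_prime_iff_eq hp (Nat.prime_of_mem_primeFactors hq'.1)).1 (hp.dvd_of_dvd_pow hpq)
  subst h1
  exact ⟨hq'.2, Finset.dvd_prod_of_mem (fun p => p ^ b.factorization p) hq⟩

theorem A5a_bone_pos (b L : ℕ) : 1 ≤ bone b L := by
  unfold bone
  refine Nat.one_le_iff_ne_zero.2 (Finset.prod_ne_zero_iff.2 (fun p hp => ?_))
  exact (Nat.prime_of_mem_primeFactors (Finset.mem_filter.1 hp).1).ne_zero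

theorem A5a_dec (b L : ℕ) (hb : 1 ≤ b) :
    A5a_part (fun p => p ∣ L) b * A5a_part (fun p => ¬ p ∣ L ∧ p ^ 2 ∣ b) b * bone b L = b := by
  classical
  have h1 : ∏ p ∈ b.primeFactors, p ^ b.factorization p = b := by
    have := Nat.prod_factorization_pow_eq_self (n := b) (by omega)
    rw [Finsupp.prod, Nat.support_factorization] at this
    exact this
  have h2 : bone b L = ∏ p ∈ (b.primeFactors.filter (fun p => ¬ p ∣ L)).filter (fun p => ¬ p ^ 2 ∣ b), p ^ b.factorization p := by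
    unfold bone
    have h3 : b.primeFactors.filter (fun p => ¬ p ^ 2 ∣ b ∧ ¬ p ∣ L) = (b.primeFactors.filter (fun p => ¬ p ∣ L)).filter (fun p => ¬ p ^ 2 ∣ b) := by
      rw [Finset.filter_filter]
      refine Finset.filter_congr (fun p _ => ?_)
      exact and_comm
    rw [h3]
    refine Finset.prod_congr rfl (fun p hp => ?_)
    rw [Finset.mem_filter, Finset.mem_filter] at hp
    have hpp := Nat.prime_of_mem_primeFactors hp.1.1
    have hpb := Nat.dvd_of_mem_primeFactors hp.1.1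
    have h4 : 1 ≤ b.factorization p := (hpp.pow_dvd_iff_le_factorization (by omega)).1 (by rwa [pow_one])
    have h5 : ¬ 2 ≤ b.factorization p := fun h => hp.2 ((hpp.pow_dvd_iff_le_factorization (by omega)).2 h)
    have h6 : b.factorization p = 1 := by omega
    rw [h6, pow_one]
  have h7 : A5a_part (fun p => ¬ p ∣ L ∧ p ^ 2 ∣ b) b = ∏ p ∈ (b.primeFactors.filter (fun p => ¬ p ∣ L)).filter (fun p => p ^ 2 ∣ b), p ^ b.factorization p := by
    unfold A5a_part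
    rw [Finset.filter_filter]
    refine Finset.prod_congr ?_ (fun _ _ => rfl)
    ext p
    simp only [Finset.mem_filter]
  have h8 : A5a_part (fun p => p ∣ L) b = ∏ p ∈ b.primeFactors.filter (fun p => p ∣ L), p ^ b.factorization p := by
    unfold A5a_part
    refine Finset.prod_congr ?_ (fun _ _ => rfl)
    ext p
    simp only [Finset.mem_filter]
  rw [h2, h7, h8, mul_assoc, Finset.prod_filter_mul_prod_filter_not, Finset.prod_filter_mul_prod_filter_not, h1]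

theorem A5a_coprime_part (P : ℕ → Prop) (b L : ℕ) (hP : ∀ p, P p → ¬ p ∣ L) : Nat.Coprime (A5a_part P b) L := by
  by_contra h
  obtain ⟨p, hp, h1, h2⟩ := Nat.Prime.not_coprime_iff_dvd.1 h
  exact hP p (A5a_part_prime P b p hp h1).1 h2

theorem A5a_coprime_bone (b L : ℕ) : Nat.Coprime (bone b L) L := by
  by_contra h
  obtain ⟨p, hp, h1, h2⟩ := Nat.Prime.not_coprime_iff_dvd.1 h
  unfold bone at h1
  obtain ⟨q, hq, hpq⟩ := (Prime.dvd_finsetProd_iff hp.prime _).1 h1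
  have hq' := Finset.mem_filter.1 hq
  have h3 : p = q := (Nat.prime_dvd_prime_iff_eq hp (Nat.prime_of_mem_primeFactors hq'.1)).1 hpq
  subst h3
  exact hq'.2.2 h2

/-- [PTW-A5d] Proof. `b = D t b₁`, pairwise coprime: `b₁ = bone b L`, `D` the part composed of primes of `L`, `t` the rest (`p ∣ t → p ^ 2 ∣ t`); `b ↦ (D, t, b₁)` is injective, `gcd (b, L) = gcd (D, L)`,
`b / √b₁ = D t √b₁`. For fixed `D, t` the sum over `b₁ ≤ B / (D t)` is `≤ (B / (D t)) ^ (3/2) τ(Z)` (`sum_gcd`). So the total is `≤ B ^ (3/2) τ(Z) ∑_D √(gcd(D, L) / D) ∑_t 1 / √t`. -/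
theorem sum_b (Z L B : ℕ) (hZ : 1 ≤ Z) (hL : Squarefree L) (hB : 1 ≤ B) :
    ∑ b ∈ Icc 1 B, (b / Real.sqrt (bone b L)) * Real.sqrt (Nat.gcd Z (bone b L)) * Real.sqrt (Nat.gcd b L) ≤
      (B : ℝ) ^ ((3 : ℝ) / 2) * Z.divisors.card * 5 ^ L.primeFactors.card * (3 * (1 + Real.log B)) := by
  classical
  set SD := (Icc 1 B).filter (fun D => ∀ p : ℕ, p.Prime → p ∣ D → p ∣ L) with hSD
  set ST := (Icc 1 B).filter (fun t => ∀ p : ℕ, p.Prime → p ∣ t → p ^ 2 ∣ t) with hST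
  let φ : ℕ → (Σ _ : ℕ × ℕ, ℕ) := fun b => ⟨(A5a_part (fun p => p ∣ L) b, A5a_part (fun p => ¬ p ∣ L ∧ p ^ 2 ∣ b) b), bone b L⟩
  have hdec : ∀ b ∈ Icc 1 B, (φ b).1.1 * (φ b).1.2 * (φ b).2 = b := fun b hb => A5a_dec b L (Finset.mem_Icc.1 hb).1
  let F : (Σ _ : ℕ × ℕ, ℕ) → ℝ := fun q => ((q.1.1 : ℝ) * q.1.2 * Real.sqrt (Nat.gcd q.1.1 L)) * (Real.sqrt q.2 * Real.sqrt (Nat.gcd Z q.2))
  have h1 : ∀ b ∈ Icc 1 B, (b / Real.sqrt (bone b L)) * Real.sqrt (Nat.gcd Z (bone b L)) * Real.sqrt (Nat.gcd b L) = F (φ b) := by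
    intro b hb
    have hd := hdec b hb
    have hg : Nat.gcd b L = Nat.gcd (φ b).1.1 L := by
      have hc1 : Nat.Coprime (φ b).1.2 L := A5a_coprime_part _ b L (fun p hp => hp.1)
      have hc2 : Nat.Coprime (φ b).2 L := A5a_coprime_bone b L
      conv_lhs => rw [← hd]
      rw [Nat.Coprime.gcd_mul_right_cancel _ hc2, Nat.Coprime.gcd_mul_right_cancel _ hc1]
    have hb1 : (0 : ℝ) < ((φ b).2 : ℝ) := by exact_mod_cast A5a_bone_pos b L
    have hs : Real.sqrt ((φ b).2 : ℝ) * Real.sqrt ((φ b).2 : ℝ) = (φ b).2 := Real.mul_self_sqrt hb1.le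
    have hs0 : 0 < Real.sqrt ((φ b).2 : ℝ) := Real.sqrt_pos.2 hb1
    have hbr : (b : ℝ) = ((φ b).1.1 : ℝ) * ((φ b).1.2 : ℝ) * ((φ b).2 : ℝ) := by
      rw [← Nat.cast_mul, ← Nat.cast_mul, hd]
    have hq : (b : ℝ) / Real.sqrt ((φ b).2 : ℝ) = ((φ b).1.1 : ℝ) * ((φ b).1.2 : ℝ) * Real.sqrt ((φ b).2 : ℝ) := by
      rw [div_eq_iff hs0.ne', mul_assoc, hs, hbr]
    show ((b : ℝ) / Real.sqrt ((φ b).2 : ℝ)) * Real.sqrt (Nat.gcd Z (φ b).2) * Real.sqrt (Nat.gcd b L) = F (φ b)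
    rw [hg, hq]
    show _ = (((φ b).1.1 : ℝ) * (φ b).1.2 * Real.sqrt (Nat.gcd (φ b).1.1 L)) * (Real.sqrt (φ b).2 * Real.sqrt (Nat.gcd Z (φ b).2))
    ring
  rw [Finset.sum_congr rfl h1]
  have hinj : Set.InjOn φ ((Icc 1 B : Finset ℕ) : Set ℕ) := by
    intro a ha b hb hab
    rw [← hdec a ha, ← hdec b hb, hab]
  rw [← Finset.sum_image (f := F) hinj]
  have hF0 : ∀ q, 0 ≤ F q := by
    intro q
    show 0 ≤ ((q.1.1 : ℝ) * q.1.2 * Real.sqrt (Nat.gcd q.1.1 L)) * (Real.sqrt q.2 * Real.sqrt (Nat.gcd Z q.2))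
    positivity
  have hsub : (Icc 1 B).image φ ⊆ (SD ×ˢ ST).sigma (fun q => Icc 1 (B / (q.1 * q.2))) := by
    intro q hq
    rw [Finset.mem_image] at hq
    obtain ⟨b, hb, rfl⟩ := hq
    have hd := hdec b hb
    rw [Finset.mem_Icc] at hb
    have hp1 : 1 ≤ (φ b).1.1 := A5a_part_pos _ b
    have hp2 : 1 ≤ (φ b).1.2 := A5a_part_pos _ b
    have hp3 : 1 ≤ (φ b).2 := A5a_bone_pos b L
    rw [Finset.mem_sigma, Finset.mem_product, Finset.mem_Icc, hSD, hST, Finset.mem_filter, Finset.mem_filter, Finset.mem_Icc, Finset.mem_Icc]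
    have hdv1 : (φ b).1.1 ∣ b := ⟨(φ b).1.2 * (φ b).2, by rw [← mul_assoc]; exact hd.symm⟩
    have hdv2 : (φ b).1.2 ∣ b := ⟨(φ b).1.1 * (φ b).2, by rw [← mul_assoc, mul_comm (φ b).1.2]; exact hd.symm⟩
    refine ⟨⟨⟨⟨hp1, ?_⟩, ?_⟩, ⟨hp2, ?_⟩, ?_⟩, hp3, ?_⟩
    · exact (Nat.le_of_dvd hb.1 hdv1).trans hb.2
    · intro p hp hpd
      exact (A5a_part_prime _ b p hp hpd).1
    · exact (Nat.le_of_dvd hb.1 hdv2).trans hb.2
    · intro p hp hpd
      have h2 := A5a_part_prime _ b p hp hpd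
      refine dvd_trans (pow_dvd_pow p ?_) h2.2
      exact (hp.pow_dvd_iff_le_factorization (by omega)).1 h2.1.2
    · rw [Nat.le_div_iff_mul_le (Nat.mul_pos hp1 hp2), mul_comm, hd]
      exact hb.2
  refine (Finset.sum_le_sum_of_subset_of_nonneg hsub (fun q _ _ => hF0 q)).trans ?_
  rw [Finset.sum_sigma]
  have h2 : ∀ q ∈ SD ×ˢ ST, ∑ n ∈ Icc 1 (B / (q.1 * q.2)), F ⟨q, n⟩ ≤
      ((B : ℝ) ^ ((3 : ℝ) / 2) * Z.divisors.card) * (Real.sqrt (Nat.gcd q.1 L / q.1) * (1 / Real.sqrt q.2)) := by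
    intro q hq
    rw [Finset.mem_product, hSD, hST, Finset.mem_filter, Finset.mem_filter, Finset.mem_Icc, Finset.mem_Icc] at hq
    have hq1 : (0 : ℝ) < q.1 := by exact_mod_cast hq.1.1.1
    have hq2 : (0 : ℝ) < q.2 := by exact_mod_cast hq.2.1.1
    have h3 : ∀ n ∈ Icc 1 (B / (q.1 * q.2)), F ⟨q, n⟩ = ((q.1 : ℝ) * q.2 * Real.sqrt (Nat.gcd q.1 L)) * (Real.sqrt n * Real.sqrt (Nat.gcd Z n)) := fun n _ => rfl
    rw [Finset.sum_congr rfl h3, ← Finset.mul_sum]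
    refine (mul_le_mul_of_nonneg_left (sum_gcd Z (B / (q.1 * q.2)) hZ) (by positivity)).trans ?_
    have h4 : (((B / (q.1 * q.2) : ℕ)) : ℝ) ≤ (B : ℝ) / ((q.1 : ℝ) * q.2) := by
      have := Nat.cast_div_le (α := ℝ) (m := B) (n := q.1 * q.2)
      push_cast at this
      exact this
    have h5 : (((B / (q.1 * q.2) : ℕ)) : ℝ) ^ ((3 : ℝ) / 2) ≤ ((B : ℝ) / ((q.1 : ℝ) * q.2)) ^ ((3 : ℝ) / 2) :=
      Real.rpow_le_rpow (Nat.cast_nonneg _) h4 (by norm_num)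
    have h6 : ((B : ℝ) / ((q.1 : ℝ) * q.2)) ^ ((3 : ℝ) / 2) = (B : ℝ) ^ ((3 : ℝ) / 2) / ((q.1 : ℝ) * q.2 * (Real.sqrt q.1 * Real.sqrt q.2)) := by
      rw [Real.div_rpow (Nat.cast_nonneg _) (by positivity), A5a_pow ((q.1 : ℝ) * q.2) (by positivity), Real.sqrt_mul hq1.le]
    rw [h6] at h5
    have hs1 : 0 < Real.sqrt (q.1 : ℝ) := Real.sqrt_pos.2 hq1
    have hs2 : 0 < Real.sqrt (q.2 : ℝ) := Real.sqrt_pos.2 hq2
    calc (q.1 : ℝ) * q.2 * Real.sqrt (Nat.gcd q.1 L) * ((((B / (q.1 * q.2) : ℕ)) : ℝ) ^ ((3 : ℝ) / 2) * Z.divisors.card)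
        ≤ (q.1 : ℝ) * q.2 * Real.sqrt (Nat.gcd q.1 L) * ((B : ℝ) ^ ((3 : ℝ) / 2) / ((q.1 : ℝ) * q.2 * (Real.sqrt q.1 * Real.sqrt q.2)) * Z.divisors.card) :=
          mul_le_mul_of_nonneg_left (mul_le_mul_of_nonneg_right h5 (Nat.cast_nonneg _)) (by positivity)
      _ = _ := by
          rw [Real.sqrt_div (Nat.cast_nonneg _)]
          field_simp
  refine (Finset.sum_le_sum h2).trans ?_
  rw [← Finset.mul_sum, Finset.sum_product]
  simp only
  rw [← Finset.sum_mul_sum, mul_assoc ((B : ℝ) ^ ((3 : ℝ) / 2) * (Z.divisors.card : ℝ))]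
  refine mul_le_mul_of_nonneg_left ?_ (by positivity)
  refine mul_le_mul ?_ ?_ (Finset.sum_nonneg (fun _ _ => by positivity)) (by positivity)
  · have := sum_smooth L B hL
    exact this
  · have := sum_powerful B hB
    exact this

end Pool.Agent.PTW
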