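import Pool.Agent.PTW.Defs

set_option autoImplicit false

namespace Pool.Agent.PTW

open Finset

/-- a sum over the nonzero integers of `[-H, H]` -/
theorem A6_split (H : ℕ) (f : ℤ → ℝ) :
    ∑ h ∈ (Icc (-(H : ℤ)) H).erase 0, f h = ∑ n ∈ Icc 1 H, f (n : ℤ) + ∑ n ∈ Icc 1 H, f (-(n : ℤ)) := by
  have e : (Icc (-(H : ℤ)) H).erase 0 =
      (Icc 1 H).image (fun n : ℕ => (n : ℤ)) ∪ (Icc 1 H).image (fun n : ℕ => -(n : ℤ)) := by
    ext h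
    simp only [mem_erase, mem_Icc, mem_union, mem_image]
    constructor
    · rintro ⟨h0, h1, h2⟩
      rcases lt_or_gt_of_ne h0 with h3 | h3
      · right
        exact ⟨h.natAbs, ⟨by omega, by omega⟩, by omega⟩
      · left
        exact ⟨h.natAbs, ⟨by omega, by omega⟩, by omega⟩
    · rintro (⟨n, ⟨h1, h2⟩, rfl⟩ | ⟨n, ⟨h1, h2⟩, rfl⟩)
      · exact ⟨by omega, by omega, by omega⟩
      · exact ⟨by omega, by omega, by omega⟩
  have hd : Disjoint ((Icc 1 H).image (fun n : ℕ => (n : ℤ))) ((Icc 1 H).image (fun n : ℕ => -(n : ℤ))) := by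
    rw [Finset.disjoint_left]
    intro h h1 h2
    simp only [mem_image, mem_Icc] at h1 h2
    obtain ⟨n, h3, h4⟩ := h1
    obtain ⟨m, h5, h6⟩ := h2
    omega
  rw [e, Finset.sum_union hd, Finset.sum_image, Finset.sum_image]
  · intro a _ b _ hab
    dsimp only at hab
    omega
  · intro a _ b _ hab
    dsimp only at hab
    omega

theorem A6_harm (m H : ℕ) (hm : m ≤ H) (hH : 1 ≤ H) : ∑ j ∈ Icc 1 m, (1 : ℝ) / j ≤ 1 + Real.log H := by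
  have hH' : (1 : ℝ) ≤ H := by exact_mod_cast hH
  have h0 := Real.log_nonneg hH'
  rcases Nat.eq_zero_or_pos m with h | h
  · subst h
    simp only [Nat.lt_one_iff, pos_of_gt, Icc_eq_empty_of_lt, sum_empty]
    linarith
  · have h1 := harmonic_le_one_add_log m
    have h2 : ((harmonic m : ℚ) : ℝ) = ∑ j ∈ Icc 1 m, (1 : ℝ) / j := by
      rw [harmonic_eq_sum_Icc]
      push_cast
      exact Finset.sum_congr rfl fun j _ => (one_div _).symm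
    rw [h2] at h1
    have h3 : Real.log m ≤ Real.log H :=
      Real.log_le_log (by exact_mod_cast h) (by exact_mod_cast hm)
    linarith

theorem A6_dvd (d H : ℕ) (hd : 1 ≤ d) (hH : 1 ≤ H) :
    ∑ n ∈ (Icc 1 H).filter (fun n => d ∣ n), (d : ℝ) * (1 / n) ≤ 1 + Real.log H := by
  have e : (Icc 1 H).filter (fun n => d ∣ n) = (Icc 1 (H / d)).image (fun j => d * j) := by
    ext n
    simp only [mem_filter, mem_Icc, mem_image]
    constructor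
    · rintro ⟨⟨h1, h2⟩, j, rfl⟩
      refine ⟨j, ⟨?_, ?_⟩, rfl⟩
      · exact Nat.pos_of_ne_zero fun h => by rw [h] at h1; omega
      · rw [Nat.le_div_iff_mul_le (by omega), mul_comm]
        exact h2
    · rintro ⟨j, ⟨h1, h2⟩, rfl⟩
      rw [Nat.le_div_iff_mul_le (by omega), mul_comm] at h2
      exact ⟨⟨Nat.mul_pos (by omega) h1, h2⟩, dvd_mul_right _ _⟩
  rw [e, Finset.sum_image]
  · refine le_trans (le_of_eq ?_) (A6_harm (H / d) H (Nat.div_le_self H d) hH)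
    refine Finset.sum_congr rfl fun j hj => ?_
    rw [mem_Icc] at hj
    have h1 : (0 : ℝ) < d := by exact_mod_cast hd
    have h2 : (0 : ℝ) < j := by exact_mod_cast hj.1
    push_cast
    field_simp
  · intro a _ b _ hab
    exact Nat.eq_of_mul_eq_mul_left (by omega) hab

theorem A6_half (k H : ℕ) (hk : 1 ≤ k) (hH : 1 ≤ H) :
    ∑ n ∈ Icc 1 H, Real.sqrt (Nat.gcd n k) * (1 / (n : ℝ)) ≤ k.divisors.card * (1 + Real.log H) := by
  have h1 : ∀ n ∈ Icc 1 H, Real.sqrt (Nat.gcd n k) * (1 / (n : ℝ)) ≤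
      ∑ d ∈ k.divisors, (if d ∣ n then (d : ℝ) * (1 / n) else 0) := by
    intro n hn
    rw [mem_Icc] at hn
    have hg : 1 ≤ Nat.gcd n k := Nat.gcd_pos_of_pos_left _ (by omega)
    have hgR : (1 : ℝ) ≤ (Nat.gcd n k : ℝ) := by exact_mod_cast hg
    have h2 : Real.sqrt (Nat.gcd n k) ≤ (Nat.gcd n k : ℝ) := by
      rw [Real.sqrt_le_left (by linarith)]
      nlinarith
    have h3 : (0 : ℝ) ≤ 1 / n := by positivity
    have h4 : (if Nat.gcd n k ∣ n then ((Nat.gcd n k : ℕ) : ℝ) * (1 / (n : ℝ)) else 0) ≤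
        ∑ d ∈ k.divisors, (if d ∣ n then (d : ℝ) * (1 / n) else 0) :=
      Finset.single_le_sum (f := fun d : ℕ => if d ∣ n then (d : ℝ) * (1 / (n : ℝ)) else 0)
        (fun d _ => by split_ifs <;> positivity)
        (Nat.mem_divisors.2 ⟨Nat.gcd_dvd_right n k, by omega⟩)
    rw [if_pos (Nat.gcd_dvd_left n k)] at h4
    exact (mul_le_mul_of_nonneg_right h2 h3).trans h4
  refine (Finset.sum_le_sum h1).trans ?_
  rw [Finset.sum_comm]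
  calc ∑ d ∈ k.divisors, ∑ n ∈ Icc 1 H, (if d ∣ n then (d : ℝ) * (1 / n) else 0)
      ≤ ∑ d ∈ k.divisors, (1 + Real.log H) := by
        refine Finset.sum_le_sum fun d hd => ?_
        rw [← Finset.sum_filter]
        exact A6_dvd d H (Nat.pos_of_mem_divisors hd) hH
    _ = k.divisors.card * (1 + Real.log H) := by rw [Finset.sum_const, nsmul_eq_mul]

/-- [PTW-A6a] Proof. `√(gcd (h, k)) ≤ gcd (h, k) ≤ ∑_{d ∣ k, d ∣ h} d`; `∑_{0 < |h| ≤ H, d ∣ h} 1 / |h| = (2 / d) ∑_{j ≤ H / d} 1 / j ≤ (2 / d) (1 + log H)`. -/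
theorem sum_h (k H : ℕ) (hk : 1 ≤ k) (hH : 1 ≤ H) :
    ∑ h ∈ (Icc (-(H : ℤ)) H).erase 0, Real.sqrt (Int.gcd h k) * (1 / |(h : ℝ)|) ≤ 2 * k.divisors.card * (1 + Real.log H) := by
  rw [A6_split]
  have h1 := A6_half k H hk hH
  have e1 : ∑ n ∈ Icc 1 H, Real.sqrt (Int.gcd (n : ℤ) k) * (1 / |(((n : ℤ) : ℤ) : ℝ)|) =
      ∑ n ∈ Icc 1 H, Real.sqrt (Nat.gcd n k) * (1 / (n : ℝ)) := by
    refine Finset.sum_congr rfl fun n _ => ?_
    have h2 : Int.gcd (n : ℤ) k = Nat.gcd n k := by simp [Int.gcd]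
    rw [h2]
    have h3 : |(((n : ℤ) : ℤ) : ℝ)| = (n : ℝ) := by
      rw [Int.cast_natCast, abs_of_nonneg (Nat.cast_nonneg n)]
    rw [h3]
  have e2 : ∑ n ∈ Icc 1 H, Real.sqrt (Int.gcd (-(n : ℤ)) k) * (1 / |((-(n : ℤ) : ℤ) : ℝ)|) =
      ∑ n ∈ Icc 1 H, Real.sqrt (Nat.gcd n k) * (1 / (n : ℝ)) := by
    refine Finset.sum_congr rfl fun n _ => ?_
    have h2 : Int.gcd (-(n : ℤ)) k = Nat.gcd n k := by simp [Int.gcd]
    rw [h2]
    have h3 : |((-(n : ℤ) : ℤ) : ℝ)| = (n : ℝ) := by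
      rw [Int.cast_neg, abs_neg, Int.cast_natCast, abs_of_nonneg (Nat.cast_nonneg n)]
    rw [h3]
  rw [e1, e2]
  linarith

theorem A6_min (W : ℝ) (hW : 0 ≤ W) (H : ℕ) :
    ∑ n ∈ Icc 1 H, (min W (1 / (n : ℝ))) ^ 2 ≤ 4 * W * (H * W / (1 + H * W)) := by
  induction H with
  | zero => simp
  | succ H ih =>
    rw [Finset.sum_Icc_succ_top (by omega)]
    have h0 : (0 : ℝ) ≤ H := Nat.cast_nonneg H
    have h1 : 0 < 1 + (H : ℝ) * W := by positivity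
    have h2 : 0 < 1 + ((H : ℝ) + 1) * W := by positivity
    have h3 : (min W (1 / ((H : ℝ) + 1))) ^ 2 ≤
        4 * W * (((H : ℝ) + 1) * W / (1 + ((H : ℝ) + 1) * W)) - 4 * W * (H * W / (1 + H * W)) := by
      have e : 4 * W * (((H : ℝ) + 1) * W / (1 + ((H : ℝ) + 1) * W)) - 4 * W * (H * W / (1 + H * W)) =
          4 * W ^ 2 / ((1 + ((H : ℝ) + 1) * W) * (1 + H * W)) := by
        field_simp
        ring
      rw [e, le_div_iff₀ (mul_pos h2 h1)]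
      have h5 : 0 < (H : ℝ) + 1 := by linarith
      have hm0 : 0 ≤ min W (1 / ((H : ℝ) + 1)) := le_min hW (by positivity)
      rcases le_total (((H : ℝ) + 1) * W) 1 with h4 | h4
      · have h6 : (min W (1 / ((H : ℝ) + 1))) ^ 2 ≤ W ^ 2 :=
          pow_le_pow_left₀ hm0 (min_le_left _ _) 2
        have h7 : (1 + ((H : ℝ) + 1) * W) * (1 + H * W) ≤ 2 * 2 := by
          apply mul_le_mul _ _ h1.le (by norm_num)
          · linarith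
          · nlinarith
        have h8 : 0 ≤ W ^ 2 := sq_nonneg W
        calc _ ≤ W ^ 2 * (2 * 2) := mul_le_mul h6 h7 (by positivity) h8
          _ = 4 * W ^ 2 := by ring
      · have h6 : (min W (1 / ((H : ℝ) + 1))) ^ 2 ≤ (1 / ((H : ℝ) + 1)) ^ 2 :=
          pow_le_pow_left₀ hm0 (min_le_right _ _) 2
        have h7 : (1 + ((H : ℝ) + 1) * W) * (1 + H * W) ≤
            (2 * (((H : ℝ) + 1) * W)) * (2 * (((H : ℝ) + 1) * W)) := by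
          apply mul_le_mul _ _ h1.le (by positivity)
          · linarith
          · nlinarith
        calc _ ≤ (1 / ((H : ℝ) + 1)) ^ 2 * ((2 * (((H : ℝ) + 1) * W)) * (2 * (((H : ℝ) + 1) * W))) :=
              mul_le_mul h6 h7 (by positivity) (by positivity)
          _ = 4 * W ^ 2 := by
              field_simp
              ring
    push_cast at h3 ⊢
    linarith

/-- [PTW-A6b] Proof. `W ≤ 1`: the `h` with `|h| ≤ 1 / W` give `≤ 2 W`, the others `≤ 2 ∑_{h > 1/W} 1 / h ^ 2 ≤ 4 W`. `W > 1`: `≤ 2 ∑ 1 / h ^ 2 ≤ 4 ≤ 4 W`. -/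
theorem sum_wsq (H : ℕ) (W : ℝ) (hW : 0 ≤ W) :
    ∑ h ∈ (Icc (-(H : ℤ)) H).erase 0, (min W (1 / |(h : ℝ)|)) ^ 2 ≤ 8 * W := by
  rw [A6_split]
  have h1 := A6_min W hW H
  have h0 : (0 : ℝ) ≤ H := Nat.cast_nonneg H
  have h2 : (H : ℝ) * W / (1 + H * W) ≤ 1 := by
    rw [div_le_one (by positivity)]
    linarith
  have h3 : 4 * W * (H * W / (1 + H * W)) ≤ 4 * W * 1 := mul_le_mul_of_nonneg_left h2 (by linarith)
  have e1 : ∑ n ∈ Icc 1 H, (min W (1 / |(((n : ℤ) : ℤ) : ℝ)|)) ^ 2 =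
      ∑ n ∈ Icc 1 H, (min W (1 / (n : ℝ))) ^ 2 := by
    refine Finset.sum_congr rfl fun n _ => ?_
    rw [Int.cast_natCast, abs_of_nonneg (Nat.cast_nonneg n)]
  have e2 : ∑ n ∈ Icc 1 H, (min W (1 / |((-(n : ℤ) : ℤ) : ℝ)|)) ^ 2 =
      ∑ n ∈ Icc 1 H, (min W (1 / (n : ℝ))) ^ 2 := by
    refine Finset.sum_congr rfl fun n _ => ?_
    rw [Int.cast_neg, abs_neg, Int.cast_natCast, abs_of_nonneg (Nat.cast_nonneg n)]
  rw [e1, e2]
  linarith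

theorem A6_count (K H : ℕ) (T : ℝ) (hT : ∀ n : ℕ, 1 ≤ n → n ≤ 2 * K * H → (n.divisors.card : ℝ) ≤ T)
    (k₂ : ℕ) (hk₂ : k₂ ∈ Ioc K (2 * K)) (h₁ : ℤ) (hh : h₁ ∈ (Icc (-(H : ℤ)) H).erase 0) :
    ∑ k₁ ∈ Ioc K (2 * K), ((((Icc (-(H : ℤ)) H).erase 0).filter
      (fun h₂ => h₁ * k₂ = h₂ * k₁)).card : ℝ) ≤ T := by
  rw [mem_Ioc] at hk₂
  rw [mem_erase, mem_Icc] at hh
  have hn1 : 1 ≤ h₁.natAbs * k₂ := Nat.mul_pos (Int.natAbs_pos.2 hh.1) (by omega)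
  have hn2 : h₁.natAbs * k₂ ≤ 2 * K * H := by
    calc h₁.natAbs * k₂ ≤ H * (2 * K) := Nat.mul_le_mul (by omega) hk₂.2
      _ = 2 * K * H := by ring
  refine le_trans ?_ (hT _ hn1 hn2)
  have h1 : ∀ k₁ ∈ Ioc K (2 * K), ((((Icc (-(H : ℤ)) H).erase 0).filter
      (fun h₂ => h₁ * k₂ = h₂ * k₁)).card : ℝ) ≤ (if k₁ ∣ h₁.natAbs * k₂ then 1 else 0) := by
    intro k₁ hk₁
    rw [mem_Ioc] at hk₁
    split_ifs with hd
    · have h2 : (((Icc (-(H : ℤ)) H).erase 0).filter (fun h₂ => h₁ * k₂ = h₂ * k₁)).card ≤ 1 := by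
        rw [Finset.card_le_one]
        intro a ha b hb
        rw [mem_filter] at ha hb
        have h3 : a * (k₁ : ℤ) = b * k₁ := ha.2.symm.trans hb.2
        exact mul_right_cancel₀ (by omega) h3
      exact_mod_cast h2
    · have h2 : (((Icc (-(H : ℤ)) H).erase 0).filter (fun h₂ => h₁ * k₂ = h₂ * k₁)) = ∅ := by
        rw [Finset.filter_eq_empty_iff]
        intro a _ ha
        apply hd
        have h3 : (h₁ * (k₂ : ℤ)).natAbs = (a * (k₁ : ℤ)).natAbs := by rw [ha]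
        rw [Int.natAbs_mul, Int.natAbs_mul, Int.natAbs_natCast, Int.natAbs_natCast] at h3
        rw [h3]
        exact dvd_mul_left _ _
      rw [h2]
      simp
  refine (Finset.sum_le_sum h1).trans ?_
  rw [Finset.sum_boole]
  have h2 : (Ioc K (2 * K)).filter (fun k₁ => k₁ ∣ h₁.natAbs * k₂) ⊆ (h₁.natAbs * k₂).divisors := by
    intro k hk
    rw [mem_filter] at hk
    exact Nat.mem_divisors.2 ⟨hk.2, by omega⟩
  exact_mod_cast Finset.card_le_card h2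

theorem A6_one (K H : ℕ) (W T : ℝ) (hW : 0 ≤ W) (hT0 : 0 ≤ T)
    (hT : ∀ n : ℕ, 1 ≤ n → n ≤ 2 * K * H → (n.divisors.card : ℝ) ≤ T) :
    ∑ k₁ ∈ Ioc K (2 * K), ∑ k₂ ∈ Ioc K (2 * K), ∑ h₁ ∈ (Icc (-(H : ℤ)) H).erase 0,
      ∑ h₂ ∈ (Icc (-(H : ℤ)) H).erase 0, (if h₁ * k₂ = h₂ * k₁ then (min W (1 / |(h₁ : ℝ)|)) ^ 2 else 0) ≤
      8 * T * K * W := by
  rw [Finset.sum_comm]
  have h1 : ∀ k₂ ∈ Ioc K (2 * K), ∑ k₁ ∈ Ioc K (2 * K), ∑ h₁ ∈ (Icc (-(H : ℤ)) H).erase 0,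
      ∑ h₂ ∈ (Icc (-(H : ℤ)) H).erase 0, (if h₁ * k₂ = h₂ * k₁ then (min W (1 / |(h₁ : ℝ)|)) ^ 2 else 0) ≤
      8 * T * W := by
    intro k₂ hk₂
    rw [Finset.sum_comm]
    have h2 : ∀ h₁ ∈ (Icc (-(H : ℤ)) H).erase 0, ∑ k₁ ∈ Ioc K (2 * K),
        ∑ h₂ ∈ (Icc (-(H : ℤ)) H).erase 0, (if h₁ * k₂ = h₂ * k₁ then (min W (1 / |(h₁ : ℝ)|)) ^ 2 else 0) ≤
        T * (min W (1 / |(h₁ : ℝ)|)) ^ 2 := by
      intro h₁ hh
      have h3 := A6_count K H T hT k₂ hk₂ h₁ hh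
      have e : ∑ k₁ ∈ Ioc K (2 * K), ∑ h₂ ∈ (Icc (-(H : ℤ)) H).erase 0,
          (if h₁ * k₂ = h₂ * k₁ then (min W (1 / |(h₁ : ℝ)|)) ^ 2 else 0) =
          (∑ k₁ ∈ Ioc K (2 * K), ((((Icc (-(H : ℤ)) H).erase 0).filter
            (fun h₂ => h₁ * k₂ = h₂ * k₁)).card : ℝ)) * (min W (1 / |(h₁ : ℝ)|)) ^ 2 := by
        rw [Finset.sum_mul]
        refine Finset.sum_congr rfl fun k₁ _ => ?_
        rw [← Finset.sum_filter, Finset.sum_const, nsmul_eq_mul]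
      rw [e]
      exact mul_le_mul_of_nonneg_right h3 (sq_nonneg _)
    refine (Finset.sum_le_sum h2).trans ?_
    rw [← Finset.mul_sum]
    have h4 := mul_le_mul_of_nonneg_left (sum_wsq H W hW) hT0
    linarith
  refine (Finset.sum_le_sum h1).trans ?_
  rw [Finset.sum_const, Nat.card_Ioc, nsmul_eq_mul]
  have h2 : 2 * K - K = K := by omega
  rw [h2]
  apply le_of_eq
  ring

theorem A6_two (K H : ℕ) (W T : ℝ) (hW : 0 ≤ W) (hT0 : 0 ≤ T)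
    (hT : ∀ n : ℕ, 1 ≤ n → n ≤ 2 * K * H → (n.divisors.card : ℝ) ≤ T) :
    ∑ k₁ ∈ Ioc K (2 * K), ∑ k₂ ∈ Ioc K (2 * K), ∑ h₁ ∈ (Icc (-(H : ℤ)) H).erase 0,
      ∑ h₂ ∈ (Icc (-(H : ℤ)) H).erase 0, (if h₁ * k₂ = h₂ * k₁ then (min W (1 / |(h₂ : ℝ)|)) ^ 2 else 0) ≤
      8 * T * K * W := by
  have h := A6_one K H W T hW hT0 hT
  refine le_trans (le_of_eq ?_) h
  rw [Finset.sum_comm]
  refine Finset.sum_congr rfl fun k₂ _ => Finset.sum_congr rfl fun k₁ _ => ?_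
  rw [Finset.sum_comm]
  refine Finset.sum_congr rfl fun h₂ _ => Finset.sum_congr rfl fun h₁ _ => ?_
  by_cases hc : h₁ * (k₂ : ℤ) = h₂ * k₁
  · rw [if_pos hc, if_pos hc.symm]
  · rw [if_neg hc, if_neg fun h' => hc h'.symm]

/-- [PTW-A6c] the diagonal.
Proof. `w(h₁) w(h₂) ≤ (w(h₁) ^ 2 + w(h₂) ^ 2) / 2`. For given `h₁`, `k₂` the pairs `(k₁, h₂)` with `h₂ k₁ = h₁ k₂` number at most `τ(|h₁| k₂) ≤ T` (`k₁` is a positive divisor, `h₂` is determined), so the first half is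
`≤ (1/2) T K ∑ w(h₁) ^ 2`; the same for the second half (given `h₂`, `k₁`). `sum_wsq`. -/
theorem diag (K H : ℕ) (W T : ℝ) (hW : 0 ≤ W) (hT0 : 0 ≤ T) (hT : ∀ n : ℕ, 1 ≤ n → n ≤ 2 * K * H → (n.divisors.card : ℝ) ≤ T) :
    ∑ k₁ ∈ Ioc K (2 * K), ∑ k₂ ∈ Ioc K (2 * K), ∑ h₁ ∈ (Icc (-(H : ℤ)) H).erase 0,
      ∑ h₂ ∈ ((Icc (-(H : ℤ)) H).erase 0).filter (fun h₂ => h₁ * k₂ = h₂ * k₁),
        min W (1 / |(h₁ : ℝ)|) * min W (1 / |(h₂ : ℝ)|) ≤ 8 * T * K * W := by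
  have h1 := A6_one K H W T hW hT0 hT
  have h2 := A6_two K H W T hW hT0 hT
  have h3 : ∑ k₁ ∈ Ioc K (2 * K), ∑ k₂ ∈ Ioc K (2 * K), ∑ h₁ ∈ (Icc (-(H : ℤ)) H).erase 0,
      ∑ h₂ ∈ ((Icc (-(H : ℤ)) H).erase 0).filter (fun h₂ => h₁ * k₂ = h₂ * k₁),
        min W (1 / |(h₁ : ℝ)|) * min W (1 / |(h₂ : ℝ)|) ≤
      1 / 2 * (∑ k₁ ∈ Ioc K (2 * K), ∑ k₂ ∈ Ioc K (2 * K), ∑ h₁ ∈ (Icc (-(H : ℤ)) H).erase 0,
        ∑ h₂ ∈ (Icc (-(H : ℤ)) H).erase 0, (if h₁ * k₂ = h₂ * k₁ then (min W (1 / |(h₁ : ℝ)|)) ^ 2 else 0)) +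
      1 / 2 * (∑ k₁ ∈ Ioc K (2 * K), ∑ k₂ ∈ Ioc K (2 * K), ∑ h₁ ∈ (Icc (-(H : ℤ)) H).erase 0,
        ∑ h₂ ∈ (Icc (-(H : ℤ)) H).erase 0, (if h₁ * k₂ = h₂ * k₁ then (min W (1 / |(h₂ : ℝ)|)) ^ 2 else 0)) := by
    simp only [Finset.mul_sum, ← Finset.sum_add_distrib]
    refine Finset.sum_le_sum fun k₁ _ => Finset.sum_le_sum fun k₂ _ => Finset.sum_le_sum fun h₁ _ => ?_
    rw [Finset.sum_filter]
    refine Finset.sum_le_sum fun h₂ _ => ?_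
    split_ifs
    · nlinarith [sq_nonneg (min W (1 / |(h₁ : ℝ)|) - min W (1 / |(h₂ : ℝ)|))]
    · linarith
  linarith

end Pool.Agent.PTW
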