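import Pool.Agent.PTW.A3

set_option autoImplicit false

namespace Pool.Agent.PTW

open Finset

theorem A7a_norm_ee (q : ℕ) (x : ℤ) : ‖ee q x‖ = 1 := by
  unfold ee
  have h : 2 * (Real.pi : ℂ) * Complex.I * x / q = ((2 * Real.pi * x / q : ℝ) : ℂ) * Complex.I := by
    push_cast
    ring
  rw [h, Complex.norm_exp_ofReal_mul_I]

theorem A7a_cop_iff (k : ℕ) (x : ℤ) : IsCoprime x (k : ℤ) ↔ Nat.Coprime k x.natAbs := by
  rw [Int.isCoprime_iff_gcd_eq_one, Int.gcd_eq_natAbs, Int.natAbs_natCast, Nat.gcd_comm]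

theorem A7a_cop_iff2 (k₁ k₂ : ℕ) (x : ℤ) : IsCoprime x ((k₁ * k₂ : ℕ) : ℤ) ↔
    (Nat.Coprime k₁ x.natAbs ∧ Nat.Coprime k₂ x.natAbs) := by
  rw [Nat.cast_mul, IsCoprime.mul_right_iff, A7a_cop_iff, A7a_cop_iff]

/-- `a - b w` is prime to `b k` -/
theorem A7a_cop (a b k w : ℤ) (h1 : IsCoprime a b) (h2 : IsCoprime (a ^ 2 + b ^ 2) k)
    (hw : k ∣ w ^ 2 + 1) : IsCoprime (b * k) (a - b * w) := by
  rw [IsCoprime.mul_left_iff]
  constructor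
  · have h3 : a - b * w = a + b * (-w) := by ring
    rw [h3, IsCoprime.add_mul_left_right_iff]
    exact h1.symm
  · obtain ⟨m, hm⟩ := hw
    have h4 : IsCoprime k ((a - b * w) * (a + b * w)) := by
      have h5 : (a - b * w) * (a + b * w) = a ^ 2 + b ^ 2 + k * (-(b ^ 2 * m)) := by
        have : w ^ 2 = k * m - 1 := by rw [← hm]; ring
        calc (a - b * w) * (a + b * w) = a ^ 2 - b ^ 2 * w ^ 2 := by ring
          _ = _ := by rw [this]; ring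
      rw [h5, IsCoprime.add_mul_left_right_iff]
      exact h2.symm
    exact h4.of_mul_right_left

theorem A7a_iv_dvd (q : ℕ) [NeZero q] (z : ℤ) (hz : IsCoprime (q : ℤ) z) :
    (q : ℤ) ∣ z * iv q z - 1 := by
  rw [← ZMod.intCast_zmod_eq_zero_iff_dvd]
  push_cast
  have h1 : ((iv q z : ℤ) : ZMod q) = (z : ZMod q)⁻¹ := by
    unfold iv
    rw [Int.cast_natCast, ZMod.natCast_zmod_val]
  rw [h1, ZMod.mul_inv_of_unit _ ((ZMod.coe_int_isUnit_iff_isCoprime z q).2 hz), sub_self]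

/-- the Fourier expansion of one deviation -/
theorem A7a_one (N b k w : ℕ) (s t a : ℤ) (hb : 1 ≤ b) (hk : 1 ≤ k) (hw : w ∈ roots k)
    (hab : IsCoprime a (b : ℤ)) (hk2 : Nat.Coprime k (a ^ 2 + (b : ℤ) ^ 2).natAbs) :
    ((cJ N s t a b k w : ℂ) - ((Ioc s t).card : ℂ) / (b * k)) =
      ∑ H ∈ (Hs (b * k)).erase 0,
        cfi (b * k) s t H * ee (b * k) (H * (N * iv (b * k) (a - b * w))) := by
  have hq : 1 ≤ b * k := Nat.mul_pos hb hk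
  have : NeZero (b * k) := ⟨by omega⟩
  have hw' : (k : ℤ) ∣ (w : ℤ) ^ 2 + 1 := by
    have h1 := (mem_filter.1 hw).2
    exact_mod_cast h1
  have hz : IsCoprime ((b * k : ℕ) : ℤ) (a - b * w) := by
    push_cast
    exact A7a_cop a b k w hab ((A7a_cop_iff k _).2 hk2) hw'
  set z : ℤ := a - b * w with hzdef
  have hiv := A7a_iv_dvd (b * k) z hz
  have hc : cJ N s t a b k w =
      ((Ioc s t).filter (fun c : ℤ => ((b * k : ℕ) : ℤ) ∣ c - N * iv (b * k) z)).card := by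
    unfold cJ
    congr 1
    refine filter_congr fun c _ => ?_
    rw [← hzdef]
    constructor
    · intro h
      have h1 := dvd_sub (h.mul_right (iv (b * k) z)) (hiv.mul_left c)
      have h2 : (c * z - N) * iv (b * k) z - c * (z * iv (b * k) z - 1) =
          c - N * iv (b * k) z := by ring
      rwa [h2] at h1
    · intro h
      have h1 := dvd_add (h.mul_right z) (hiv.mul_left (N : ℤ))
      have h2 : (c - N * iv (b * k) z) * z + N * (z * iv (b * k) z - 1) = c * z - N := by ring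
      rwa [h2] at h1
  have h0 : (0 : ℤ) ∈ Hs (b * k) := by
    unfold Hs
    rw [mem_filter, mem_Icc]
    have : (1 : ℤ) ≤ ((b * k : ℕ) : ℤ) := by exact_mod_cast hq
    refine ⟨⟨?_, ?_⟩, ?_, ?_⟩ <;> linarith
  rw [hc, cfi_count (b * k) hq s t, ← add_sum_erase _ _ h0, cfi_zero (b * k) hq]
  have hee : ee (b * k) (0 * (N * iv (b * k) z)) = 1 := by
    unfold ee
    simp
  rw [hee, mul_one]
  push_cast
  ring

theorem A7a_IS (N b k₁ k₂ w₁ w₂ : ℕ) (H₁ H₂ u v : ℤ) : IS N b k₁ k₂ w₁ w₂ H₁ H₂ u v =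
    ∑ a ∈ (Ioc u v).filter (fun a : ℤ => IsCoprime a (b : ℤ)),
      if Nat.Coprime k₁ (a ^ 2 + (b : ℤ) ^ 2).natAbs ∧
        Nat.Coprime k₂ (a ^ 2 + (b : ℤ) ^ 2).natAbs then
      ee (b * k₁) (H₁ * (N * iv (b * k₁) (a - b * w₁))) *
        (starRingEnd ℂ) (ee (b * k₂) (H₂ * (N * iv (b * k₂) (a - b * w₂)))) else 0 := by
  rw [← sum_filter]
  unfold IS
  refine sum_congr ?_ fun _ _ => rfl
  ext a
  rw [mem_filter, mem_filter, mem_filter, A7a_cop_iff2]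
  tauto

/-- the terms of the expansion of `dev` -/
noncomputable def A7a_f (N b : ℕ) (β : ℕ → ℝ) (s t a : ℤ) (i : Σ _ : ℕ, ℕ × ℤ) : ℂ :=
  if Nat.Coprime i.1 (a ^ 2 + (b : ℤ) ^ 2).natAbs then
    (β i.1 : ℂ) * (cfi (b * i.1) s t i.2.2 *
      ee (b * i.1) (i.2.2 * (N * iv (b * i.1) (a - b * i.2.1)))) else 0

/-- the index set -/
noncomputable def A7a_T (K b : ℕ) : Finset (Σ _ : ℕ, ℕ × ℤ) :=
  (Ioc K (2 * K)).sigma fun k => roots k ×ˢ (Hs (b * k)).erase 0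

theorem A7a_dev (N K b : ℕ) (β : ℕ → ℝ) (s t a : ℤ) (hb : 1 ≤ b) (hab : IsCoprime a (b : ℤ)) :
    ((dev N K β s t a b : ℝ) : ℂ) = ∑ i ∈ A7a_T K b, A7a_f N b β s t a i := by
  unfold dev A7a_T
  rw [sum_filter, sum_sigma, Complex.ofReal_sum]
  refine sum_congr rfl fun k hk => ?_
  have hk1 : 1 ≤ k := by
    have := (mem_Ioc.1 hk).1
    omega
  rw [sum_product]
  by_cases hc : Nat.Coprime k (a ^ 2 + (b : ℤ) ^ 2).natAbs
  · rw [if_pos hc]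
    push_cast
    rw [mul_sum]
    refine sum_congr rfl fun w hw => ?_
    have h1 := A7a_one N b k w s t a hb hk1 hw hab hc
    rw [h1, mul_sum]
    refine sum_congr rfl fun H _ => ?_
    unfold A7a_f
    simp only
    rw [if_pos hc]
  · rw [if_neg hc]
    rw [Complex.ofReal_zero]
    symm
    refine sum_eq_zero fun w _ => sum_eq_zero fun H _ => ?_
    unfold A7a_f
    simp only
    rw [if_neg hc]

theorem A7a_pair (N b : ℕ) (β : ℕ → ℝ) (s t u v : ℤ) (i j : Σ _ : ℕ, ℕ × ℤ) :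
    ‖∑ a ∈ (Ioc u v).filter (fun a : ℤ => IsCoprime a (b : ℤ)),
      A7a_f N b β s t a i * (starRingEnd ℂ) (A7a_f N b β s t a j)‖ =
    |β i.1| * |β j.1| * (‖cfi (b * i.1) s t i.2.2‖ * ‖cfi (b * j.1) s t j.2.2‖ *
      ‖IS N b i.1 j.1 i.2.1 j.2.1 i.2.2 j.2.2 u v‖) := by
  have h1 : ∑ a ∈ (Ioc u v).filter (fun a : ℤ => IsCoprime a (b : ℤ)),
      A7a_f N b β s t a i * (starRingEnd ℂ) (A7a_f N b β s t a j) =
      ((β i.1 : ℂ) * (β j.1 : ℂ) * (cfi (b * i.1) s t i.2.2 *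
        (starRingEnd ℂ) (cfi (b * j.1) s t j.2.2))) *
        IS N b i.1 j.1 i.2.1 j.2.1 i.2.2 j.2.2 u v := by
    rw [A7a_IS, mul_sum]
    refine sum_congr rfl fun a _ => ?_
    unfold A7a_f
    by_cases h2 : Nat.Coprime i.1 (a ^ 2 + (b : ℤ) ^ 2).natAbs
    · by_cases h3 : Nat.Coprime j.1 (a ^ 2 + (b : ℤ) ^ 2).natAbs
      · rw [if_pos h2, if_pos h3, if_pos ⟨h2, h3⟩]
        rw [map_mul, map_mul, Complex.conj_ofReal]
        ring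
      · have hn : ¬ (Nat.Coprime i.1 (a ^ 2 + (b : ℤ) ^ 2).natAbs ∧
            Nat.Coprime j.1 (a ^ 2 + (b : ℤ) ^ 2).natAbs) := fun h => h3 h.2
        rw [if_neg hn, if_neg h3, map_zero, mul_zero, mul_zero]
    · have hn : ¬ (Nat.Coprime i.1 (a ^ 2 + (b : ℤ) ^ 2).natAbs ∧
          Nat.Coprime j.1 (a ^ 2 + (b : ℤ) ^ 2).natAbs) := fun h => h2 h.1
      rw [if_neg hn, if_neg h2, zero_mul, mul_zero]
  rw [h1, norm_mul, norm_mul, norm_mul, norm_mul, RCLike.norm_conj, Complex.norm_real,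
    Complex.norm_real, Real.norm_eq_abs, Real.norm_eq_abs]
  ring

theorem A7a_re (K b : ℕ) (g : ℕ → ℕ → ℕ → ℕ → ℤ → ℤ → ℝ) :
    ∑ i ∈ A7a_T K b, ∑ j ∈ A7a_T K b, g i.1 j.1 i.2.1 j.2.1 i.2.2 j.2.2 =
    ∑ k₁ ∈ Ioc K (2 * K), ∑ k₂ ∈ Ioc K (2 * K), ∑ w₁ ∈ roots k₁, ∑ w₂ ∈ roots k₂,
      ∑ H₁ ∈ (Hs (b * k₁)).erase 0, ∑ H₂ ∈ (Hs (b * k₂)).erase 0, g k₁ k₂ w₁ w₂ H₁ H₂ := by
  unfold A7a_T
  rw [sum_sigma]
  refine sum_congr rfl fun k₁ _ => ?_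
  rw [sum_product]
  simp_rw [sum_sigma, sum_product]
  calc ∑ w₁ ∈ roots k₁, ∑ H₁ ∈ (Hs (b * k₁)).erase 0, ∑ k₂ ∈ Ioc K (2 * K),
        ∑ w₂ ∈ roots k₂, ∑ H₂ ∈ (Hs (b * k₂)).erase 0, g k₁ k₂ w₁ w₂ H₁ H₂
      = ∑ w₁ ∈ roots k₁, ∑ k₂ ∈ Ioc K (2 * K), ∑ H₁ ∈ (Hs (b * k₁)).erase 0,
        ∑ w₂ ∈ roots k₂, ∑ H₂ ∈ (Hs (b * k₂)).erase 0, g k₁ k₂ w₁ w₂ H₁ H₂ :=
        sum_congr rfl fun w₁ _ => sum_comm
    _ = ∑ k₂ ∈ Ioc K (2 * K), ∑ w₁ ∈ roots k₁, ∑ H₁ ∈ (Hs (b * k₁)).erase 0,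
        ∑ w₂ ∈ roots k₂, ∑ H₂ ∈ (Hs (b * k₂)).erase 0, g k₁ k₂ w₁ w₂ H₁ H₂ := sum_comm
    _ = _ := sum_congr rfl fun k₂ _ => sum_congr rfl fun w₁ _ => sum_comm

/-- [PTW-A7a] expansion of the square for fixed `b`.
Proof. For `a` prime to `b` and `k` prime to `a ^ 2 + b ^ 2`, `w ∈ roots k`: `a - b w` is prime to `b k` (mod `p ∣ b` it is `a`; mod `p ∣ k`, `(a - b w) (a + b w) ≡ a ^ 2 + b ^ 2`), so with `γ = N iv (b k) (a - b w)`: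
`b k ∣ c (a - b w) - N` iff `b k ∣ c - γ`; `cfi_count`, `cfi_zero`: `cJ - #J / (b k) = ∑_{H ∈ Hs (b k), H ≠ 0} cfi (b k) s t H * ee (b k) (H γ)`. So `dev` is (the complex number) `∑_k β_k ∑_w ∑_H ...`;
`dev ^ 2 = dev * conj dev`; swap the sum over `a` inside; the two conditions `(k_i, a ^ 2 + b ^ 2) = 1` together are the condition of `IS` (for `k_i ≥ 1`). Triangle inequality. -/
theorem dev_sq (N K b : ℕ) (β : ℕ → ℝ) (s t u v : ℤ) (hb : 1 ≤ b) :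
    ∑ a ∈ (Ioc u v).filter (fun a : ℤ => IsCoprime a (b : ℤ)), (dev N K β s t a b) ^ 2 ≤
      ∑ k₁ ∈ Ioc K (2 * K), ∑ k₂ ∈ Ioc K (2 * K), |β k₁| * |β k₂| * ∑ w₁ ∈ roots k₁, ∑ w₂ ∈ roots k₂,
        ∑ H₁ ∈ (Hs (b * k₁)).erase 0, ∑ H₂ ∈ (Hs (b * k₂)).erase 0,
          ‖cfi (b * k₁) s t H₁‖ * ‖cfi (b * k₂) s t H₂‖ * ‖IS N b k₁ k₂ w₁ w₂ H₁ H₂ u v‖ := by
  have h1 : ((∑ a ∈ (Ioc u v).filter (fun a : ℤ => IsCoprime a (b : ℤ)),
      (dev N K β s t a b) ^ 2 : ℝ) : ℂ) =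
      ∑ i ∈ A7a_T K b, ∑ j ∈ A7a_T K b,
        ∑ a ∈ (Ioc u v).filter (fun a : ℤ => IsCoprime a (b : ℤ)),
          A7a_f N b β s t a i * (starRingEnd ℂ) (A7a_f N b β s t a j) := by
    rw [Complex.ofReal_sum]
    have h2 : ∀ a ∈ (Ioc u v).filter (fun a : ℤ => IsCoprime a (b : ℤ)),
        (((dev N K β s t a b) ^ 2 : ℝ) : ℂ) = ∑ i ∈ A7a_T K b, ∑ j ∈ A7a_T K b,
          A7a_f N b β s t a i * (starRingEnd ℂ) (A7a_f N b β s t a j) := by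
      intro a ha
      have h3 := A7a_dev N K b β s t a hb (mem_filter.1 ha).2
      rw [← sum_mul_sum, ← map_sum, ← h3, Complex.conj_ofReal]
      push_cast
      ring
    rw [sum_congr rfl h2, sum_comm]
    exact sum_congr rfl fun i _ => sum_comm
  have h4 : ∑ a ∈ (Ioc u v).filter (fun a : ℤ => IsCoprime a (b : ℤ)),
      (dev N K β s t a b) ^ 2 ≤ ∑ i ∈ A7a_T K b, ∑ j ∈ A7a_T K b,
        |β i.1| * |β j.1| * (‖cfi (b * i.1) s t i.2.2‖ * ‖cfi (b * j.1) s t j.2.2‖ *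
          ‖IS N b i.1 j.1 i.2.1 j.2.1 i.2.2 j.2.2 u v‖) := by
    calc ∑ a ∈ (Ioc u v).filter (fun a : ℤ => IsCoprime a (b : ℤ)), (dev N K β s t a b) ^ 2
        ≤ ‖((∑ a ∈ (Ioc u v).filter (fun a : ℤ => IsCoprime a (b : ℤ)),
            (dev N K β s t a b) ^ 2 : ℝ) : ℂ)‖ := by
          rw [Complex.norm_real]
          exact le_abs_self _
      _ ≤ _ := by
          rw [h1]
          refine (norm_sum_le _ _).trans (sum_le_sum fun i _ => ?_)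
          refine (norm_sum_le _ _).trans (sum_le_sum fun j _ => ?_)
          exact (A7a_pair N b β s t u v i j).le
  refine h4.trans (le_of_eq ?_)
  rw [A7a_re K b (fun k₁ k₂ w₁ w₂ H₁ H₂ => |β k₁| * |β k₂| * (‖cfi (b * k₁) s t H₁‖ *
    ‖cfi (b * k₂) s t H₂‖ * ‖IS N b k₁ k₂ w₁ w₂ H₁ H₂ u v‖))]
  refine sum_congr rfl fun k₁ _ => sum_congr rfl fun k₂ _ => ?_
  simp only [mul_sum]

/-- [PTW-A7b] trivial bound -/
theorem IS_triv (N b k₁ k₂ w₁ w₂ : ℕ) (H₁ H₂ u v : ℤ) (huv : v - u ≤ b) : ‖IS N b k₁ k₂ w₁ w₂ H₁ H₂ u v‖ ≤ b := by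
  unfold IS
  refine (norm_sum_le _ _).trans ?_
  have h1 : ∀ a : ℤ, ‖ee (b * k₁) (H₁ * (N * iv (b * k₁) (a - b * w₁))) *
      (starRingEnd ℂ) (ee (b * k₂) (H₂ * (N * iv (b * k₂) (a - b * w₂))))‖ = 1 := by
    intro a
    rw [norm_mul, RCLike.norm_conj, A7a_norm_ee, A7a_norm_ee, mul_one]
  simp_rw [h1]
  rw [sum_const, nsmul_eq_mul, mul_one]
  refine Nat.cast_le.2 ((card_filter_le _ _).trans ?_)
  rw [Int.card_Ioc]
  omega

end Pool.Agent.PTW
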