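import Pool.Agent.PTW.Defs
import Pool.Agent.Lib.helper69.DivisorBound

set_option autoImplicit false

namespace Pool.Agent.PTW

open Finset

theorem A7c_two_pow (n : ℕ) (hn : n ≠ 0) : 2 ^ n.primeFactors.card ≤ n.divisors.card := by
  rw [Nat.card_divisors hn, ← Finset.prod_const]
  refine Finset.prod_le_prod' fun p hp => ?_
  have := (Nat.prime_of_mem_primeFactors hp).factorization_pos_of_dvd hn (Nat.dvd_of_mem_primeFactors hp)
  omega

/-- [PTW-A7c1] all the small factors at once. Proof. `card_divisors_le_rpow` (Lib.helper69) with `ε / 40`; `2 ^ ω(n) ≤ τ(n)`, so `15 ^ ω(n) ≤ τ(n) ^ 4`; `log n ≤ C n ^ (ε/20)`. -/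
theorem small (ε : ℝ) (hε : 0 < ε) : ∃ C : ℝ, 1 ≤ C ∧ ∀ N n : ℕ, 1 ≤ N → 1 ≤ n → n ≤ 100 * N ^ 10 →
    (n.divisors.card : ℝ) ≤ C * (N : ℝ) ^ ε ∧ (15 : ℝ) ^ n.primeFactors.card ≤ C * (N : ℝ) ^ ε ∧ 2 + Real.log n ≤ C * (N : ℝ) ^ ε := by
  obtain ⟨C0, h0, hC0⟩ := Pool.Agent.Lib.helper69.card_divisors_le_rpow (ε / 40) (by positivity)
  set D : ℝ := C0 * (100 : ℝ) ^ (ε / 40) with hD
  have hD1 : 1 ≤ D := by
    have : (1 : ℝ) ≤ (100 : ℝ) ^ (ε / 40) := Real.one_le_rpow (by norm_num) (by positivity)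
    nlinarith
  have hl : 0 ≤ Real.log 100 := Real.log_nonneg (by norm_num)
  have hE : 0 ≤ 2 + Real.log 100 + 10 / ε := by positivity
  refine ⟨D ^ 4 + (2 + Real.log 100 + 10 / ε), ?_, fun N n hN hn hnN => ?_⟩
  · have : 1 ≤ D ^ 4 := one_le_pow₀ hD1
    linarith
  have hN1 : (1 : ℝ) ≤ N := by exact_mod_cast hN
  have hN0 : (0 : ℝ) < N := by linarith
  have hn0 : (0 : ℝ) < n := by exact_mod_cast hn
  have hnr : (n : ℝ) ≤ 100 * (N : ℝ) ^ 10 := by exact_mod_cast hnN
  have hNe : 1 ≤ (N : ℝ) ^ ε := Real.one_le_rpow hN1 hε.le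
  have e1 : (n : ℝ) ^ (ε / 40) ≤ (100 : ℝ) ^ (ε / 40) * (N : ℝ) ^ (ε / 4) := by
    refine (Real.rpow_le_rpow hn0.le hnr (by positivity)).trans (le_of_eq ?_)
    rw [Real.mul_rpow (by norm_num) (by positivity), ← Real.rpow_natCast (N : ℝ) 10, ← Real.rpow_mul hN0.le]
    congr 2
    push_cast
    ring
  have e2 : (n.divisors.card : ℝ) ≤ D * (N : ℝ) ^ (ε / 4) := by
    refine (hC0 n hn).trans ?_
    rw [hD, mul_assoc]
    exact mul_le_mul_of_nonneg_left e1 (by linarith)
  have hd1 : (1 : ℝ) ≤ (n.divisors.card : ℝ) := by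
    have : 0 < n.divisors.card := Finset.card_pos.2 ⟨1, Nat.one_mem_divisors.2 (by omega)⟩
    exact_mod_cast this
  have e3 : (n.divisors.card : ℝ) ^ 4 ≤ D ^ 4 * (N : ℝ) ^ ε := by
    refine (pow_le_pow_left₀ (by linarith) e2 4).trans (le_of_eq ?_)
    rw [mul_pow, ← Real.rpow_natCast ((N : ℝ) ^ (ε / 4)) 4, ← Real.rpow_mul hN0.le]
    congr 2
    push_cast
    ring
  have e4 : D ^ 4 * (N : ℝ) ^ ε ≤ (D ^ 4 + (2 + Real.log 100 + 10 / ε)) * (N : ℝ) ^ ε := by
    have : 0 ≤ (2 + Real.log 100 + 10 / ε) * (N : ℝ) ^ ε := mul_nonneg hE (by linarith)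
    linarith
  refine ⟨?_, ?_, ?_⟩
  · have : (n.divisors.card : ℝ) ≤ (n.divisors.card : ℝ) ^ 4 := le_self_pow₀ hd1 (by norm_num)
    linarith
  · have h1 : (2 : ℝ) ^ n.primeFactors.card ≤ (n.divisors.card : ℝ) := by exact_mod_cast A7c_two_pow n (by omega)
    have h2 : (15 : ℝ) ^ n.primeFactors.card ≤ ((2 : ℝ) ^ n.primeFactors.card) ^ 4 := by
      rw [← pow_mul, mul_comm n.primeFactors.card 4, pow_mul]
      exact pow_le_pow_left₀ (by norm_num) (by norm_num) _
    have h3 : ((2 : ℝ) ^ n.primeFactors.card) ^ 4 ≤ (n.divisors.card : ℝ) ^ 4 := pow_le_pow_left₀ (by positivity) h1 4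
    linarith
  · have h1 : Real.log n ≤ Real.log 100 + 10 * Real.log N := by
      refine (Real.log_le_log hn0 hnr).trans (le_of_eq ?_)
      rw [Real.log_mul (by norm_num) (by positivity), Real.log_pow]
      push_cast
      ring
    have h2 : Real.log N ≤ (N : ℝ) ^ ε / ε := Real.log_le_rpow_div hN0.le hε
    have h3 : 0 ≤ D ^ 4 * (N : ℝ) ^ ε := by positivity
    have h4 : 2 + Real.log n ≤ 2 + Real.log 100 + 10 / ε * (N : ℝ) ^ ε := by
      have : 10 * ((N : ℝ) ^ ε / ε) = 10 / ε * (N : ℝ) ^ ε := by ring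
      linarith
    have h5 : 2 + Real.log 100 ≤ (2 + Real.log 100) * (N : ℝ) ^ ε := by
      nlinarith
    linarith

theorem A7c_mul (a b : ℕ) (ha : 0 < a) (hb : 0 < b) (h : Nat.Coprime a b) : rho (a * b) ≤ rho a * rho b := by
  unfold rho
  rw [← Finset.card_product]
  refine Finset.card_le_card_of_injOn (fun v => (v % a, v % b)) ?_ ?_
  · intro v hv
    have hv' := Finset.mem_coe.1 hv
    unfold roots at hv'
    rw [Finset.mem_filter] at hv'
    have key : ∀ c : ℕ, 0 < c → c ∣ a * b → v % c ∈ roots c := by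
      intro c hc hd
      unfold roots
      rw [Finset.mem_filter, Finset.mem_range]
      refine ⟨Nat.mod_lt _ hc, ?_⟩
      have h1 : c ∣ v ^ 2 + 1 := hd.trans hv'.2
      have h2 : (v % c) ^ 2 + 1 ≡ v ^ 2 + 1 [MOD c] := ((Nat.mod_modEq v c).pow 2).add_right 1
      exact (Nat.ModEq.dvd_iff h2 (dvd_refl c)).2 h1
    exact Finset.mem_coe.2 (Finset.mem_product.2 ⟨key a ha (Dvd.intro _ rfl), key b hb (Dvd.intro_left _ rfl)⟩)
  · intro v hv w hw hvw
    have hv' := Finset.mem_coe.1 hv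
    have hw' := Finset.mem_coe.1 hw
    unfold roots at hv' hw'
    rw [Finset.mem_filter, Finset.mem_range] at hv' hw'
    simp only [Prod.mk.injEq] at hvw
    exact Nat.ModEq.eq_of_lt_of_lt ((Nat.modEq_and_modEq_iff_modEq_mul h).1 hvw) hv'.1 hw'.1

theorem A7c_prime (p : ℕ) (hp : p.Prime) : rho p ≤ 2 := by
  unfold rho
  rcases (roots p).eq_empty_or_nonempty with h | ⟨v0, h0⟩
  · rw [h]
    exact Nat.zero_le _
  · have hsub : roots p ⊆ {v0, p - v0} := by
      intro v hv
      unfold roots at hv h0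
      rw [Finset.mem_filter, Finset.mem_range] at hv h0
      rw [Finset.mem_insert, Finset.mem_singleton]
      have h1 : (p : ℤ) ∣ ((v : ℤ) - v0) * (v + v0) := by
        have a1 : (p : ℤ) ∣ (v : ℤ) ^ 2 + 1 := by exact_mod_cast hv.2
        have a2 : (p : ℤ) ∣ (v0 : ℤ) ^ 2 + 1 := by exact_mod_cast h0.2
        have e : ((v : ℤ) - v0) * (v + v0) = ((v : ℤ) ^ 2 + 1) - ((v0 : ℤ) ^ 2 + 1) := by ring
        rw [e]
        exact dvd_sub a1 a2
      rcases (Nat.prime_iff_prime_int.1 hp).dvd_or_dvd h1 with h2 | h2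
      · left
        have h3 : (v0 : ℤ) ≡ v [ZMOD p] := (Int.modEq_iff_dvd).2 h2
        exact (Nat.ModEq.eq_of_lt_of_lt ((Int.natCast_modEq_iff).1 h3) h0.1 hv.1).symm
      · have h3 : p ∣ v + v0 := by exact_mod_cast h2
        obtain ⟨c, hc⟩ := h3
        have hc2 : c < 2 := by
          by_contra hcon
          push Not at hcon
          have : p * 2 ≤ p * c := Nat.mul_le_mul_left p hcon
          omega
        interval_cases c
        · left; omega
        · right; omega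
    exact (Finset.card_le_card hsub).trans Finset.card_le_two

/-- [PTW-A7c2] Proof. `roots` is multiplicative, at most `2` roots modulo a prime; or: by `Nat.recOnPosPrimePosCoprime`/induction on the squarefree `k`. -/
theorem rho_le (k : ℕ) (hk : Squarefree k) : rho k ≤ 2 ^ k.primeFactors.card := by
  induction k using Nat.recOnPosPrimePosCoprime with
  | prime_pow p n hp hn =>
    have h1 : n = 1 := by
      by_contra hcon
      have : ¬ Squarefree (p ^ n) := by
        rw [Nat.squarefree_pow_iff hp.ne_one (by omega)]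
        exact fun h => hcon h.2
      exact this hk
    subst h1
    rw [pow_one, hp.primeFactors, Finset.card_singleton, pow_one]
    exact A7c_prime p hp
  | zero => exact absurd hk not_squarefree_zero
  | one =>
    have : rho 1 = 1 := by decide
    rw [this]
    exact Nat.one_le_two_pow
  | coprime a b ha hb hab iha ihb =>
    have h1 := (Nat.squarefree_mul hab).1 hk
    rw [hab.primeFactors_mul, Finset.card_union_of_disjoint hab.disjoint_primeFactors, pow_add]
    exact (A7c_mul a b (by omega) (by omega) hab).trans (Nat.mul_le_mul (iha h1.1) (ihb h1.2))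

end Pool.Agent.PTW
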