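import Pool.Agent.PTW.A4f
import Pool.Agent.PTW.A5a
import Pool.Agent.PTW.A6
import Pool.Agent.PTW.A7c

set_option autoImplicit false

namespace Pool.Agent.PTW

open Finset

theorem A7d_swap (SB S : Finset ℕ) (R : Finset ℤ) (RR : ℕ → ℕ → ℤ → Finset ℤ) (g : ℕ → ℕ → ℕ → ℤ → ℤ → ℝ) (D : ℝ) :
    ∑ b ∈ SB, ∑ k₁ ∈ S, ∑ k₂ ∈ S, D * ∑ H₁ ∈ R, ∑ H₂ ∈ RR k₁ k₂ H₁, g b k₁ k₂ H₁ H₂ =
      ∑ k₁ ∈ S, ∑ k₂ ∈ S, D * ∑ H₁ ∈ R, ∑ H₂ ∈ RR k₁ k₂ H₁, ∑ b ∈ SB, g b k₁ k₂ H₁ H₂ := by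
  rw [Finset.sum_comm]
  refine Finset.sum_congr rfl fun k₁ _ => ?_
  rw [Finset.sum_comm]
  refine Finset.sum_congr rfl fun k₂ _ => ?_
  rw [← Finset.mul_sum]
  congr 1
  rw [Finset.sum_comm]
  refine Finset.sum_congr rfl fun H₁ _ => ?_
  rw [Finset.sum_comm]

/-- the bound for one term -/
noncomputable def A7d_F (N b k₁ k₂ : ℕ) (H₁ H₂ : ℤ) : ℝ :=
  (b / Real.sqrt (bone b (Nat.lcm k₁ k₂))) *
    Real.sqrt (Nat.gcd ((H₁ * k₂ - H₂ * k₁) * N).natAbs (bone b (Nat.lcm k₁ k₂))) * Real.sqrt (Nat.gcd b (Nat.lcm k₁ k₂))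

theorem A7d_F_nonneg (N b k₁ k₂ : ℕ) (H₁ H₂ : ℤ) : 0 ≤ A7d_F N b k₁ k₂ H₁ H₂ := by
  unfold A7d_F
  positivity

theorem A7d_term (N b k₁ k₂ w₁ w₂ : ℕ) (H₁ H₂ u v : ℤ) (D : ℝ) (hN : 1 ≤ N) (hb : 1 ≤ b) (hk₁ : Squarefree k₁) (hk₂ : Squarefree k₂)
    (hN₁ : Nat.Coprime k₁ N) (hN₂ : Nat.Coprime k₂ N) (hw₁ : w₁ ∈ roots k₁) (hw₂ : w₂ ∈ roots k₂)
    (h0 : H₁ * k₂ ≠ H₂ * k₁) (huv : v - u ≤ b)
    (hD1 : 2 + Real.log (b * Nat.lcm k₁ k₂ : ℕ) ≤ D) (hD2 : (15 : ℝ) ^ (b * Nat.lcm k₁ k₂).primeFactors.card ≤ D) :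
    ‖IS N b k₁ k₂ w₁ w₂ H₁ H₂ u v‖ ≤
      D ^ 2 * (Real.sqrt (k₁ * k₂) * (Real.sqrt (Int.gcd H₁ k₁) * Real.sqrt (Int.gcd H₂ k₂))) * A7d_F N b k₁ k₂ H₁ H₂ := by
  have hw1 : k₁ ∣ w₁ ^ 2 + 1 := (Finset.mem_filter.mp hw₁).2
  have hw2 : k₂ ∣ w₂ ^ 2 + 1 := (Finset.mem_filter.mp hw₂).2
  have h := inc N b k₁ k₂ w₁ w₂ H₁ H₂ u v hN hb hk₁ hk₂ hN₁ hN₂ hw1 hw2 (sub_ne_zero.mpr h0) huv
  have h3 : (3 : ℝ) ^ (b * Nat.lcm k₁ k₂).primeFactors.card ≤ D :=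
    le_trans (pow_le_pow_left₀ (by norm_num) (by norm_num) _) hD2
  have hk1 : 1 ≤ k₁ := Nat.one_le_iff_ne_zero.mpr hk₁.ne_zero
  have hk2 : 1 ≤ k₂ := Nat.one_le_iff_ne_zero.mpr hk₂.ne_zero
  have hL : 1 ≤ Nat.lcm k₁ k₂ := Nat.one_le_iff_ne_zero.mpr (Nat.lcm_ne_zero hk₁.ne_zero hk₂.ne_zero)
  have hbL : (1 : ℝ) ≤ ((b * Nat.lcm k₁ k₂ : ℕ) : ℝ) := by exact_mod_cast Nat.mul_le_mul hb hL
  have hlog : 0 ≤ 2 + Real.log (b * Nat.lcm k₁ k₂ : ℕ) := by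
    have := Real.log_nonneg hbL
    linarith
  have hD0 : 0 ≤ D := le_trans hlog hD1
  have hZ : (Int.gcd ((H₁ * k₂ - H₂ * k₁) * N) (bone b (Nat.lcm k₁ k₂)) : ℕ) =
      Nat.gcd ((H₁ * k₂ - H₂ * k₁) * N).natAbs (bone b (Nat.lcm k₁ k₂)) := rfl
  have hF0 := A7d_F_nonneg N b k₁ k₂ H₁ H₂
  have hG0 : 0 ≤ Real.sqrt (k₁ * k₂) * (Real.sqrt (Int.gcd H₁ k₁) * Real.sqrt (Int.gcd H₂ k₂)) := by positivity
  calc ‖IS N b k₁ k₂ w₁ w₂ H₁ H₂ u v‖ ≤ _ := h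
    _ = (2 + Real.log (b * Nat.lcm k₁ k₂ : ℕ)) * (3 : ℝ) ^ (b * Nat.lcm k₁ k₂).primeFactors.card *
        ((Real.sqrt (k₁ * k₂) * (Real.sqrt (Int.gcd H₁ k₁) * Real.sqrt (Int.gcd H₂ k₂))) * A7d_F N b k₁ k₂ H₁ H₂) := by
        rw [hZ]
        unfold A7d_F
        ring
    _ ≤ (D * D) * ((Real.sqrt (k₁ * k₂) * (Real.sqrt (Int.gcd H₁ k₁) * Real.sqrt (Int.gcd H₂ k₂))) * A7d_F N b k₁ k₂ H₁ H₂) := by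
        apply mul_le_mul_of_nonneg_right _ (mul_nonneg hG0 hF0)
        exact mul_le_mul hD1 h3 (by positivity) hD0
    _ = _ := by ring

theorem A7d_Hs_sub (q M : ℕ) (h : q ≤ M) : (Hs q).erase 0 ⊆ (Icc (-(M : ℤ)) M).erase 0 := by
  intro x hx
  rw [Finset.mem_erase] at hx ⊢
  refine ⟨hx.1, ?_⟩
  have := (Finset.mem_filter.mp hx.2).1
  rw [Finset.mem_Icc] at this ⊢
  have hq : (q : ℤ) ≤ M := by exact_mod_cast h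
  exact ⟨by linarith [this.1], by linarith [this.2]⟩

/-- the sums over the roots and the enlargement of the ranges of `H₁, H₂` -/
theorem A7d_inner (N b k₁ k₂ M : ℕ) (u v : ℤ) (D : ℝ) (hN : 1 ≤ N) (hb : 1 ≤ b) (hk₁ : Squarefree k₁) (hk₂ : Squarefree k₂)
    (hN₁ : Nat.Coprime k₁ N) (hN₂ : Nat.Coprime k₂ N) (huv : v - u ≤ b)
    (hD1 : 2 + Real.log (b * Nat.lcm k₁ k₂ : ℕ) ≤ D) (hD2 : (15 : ℝ) ^ (b * Nat.lcm k₁ k₂).primeFactors.card ≤ D)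
    (hr1 : (rho k₁ : ℝ) ≤ D) (hr2 : (rho k₂ : ℝ) ≤ D) (hM1 : b * k₁ ≤ M) (hM2 : b * k₂ ≤ M) :
    ∑ w₁ ∈ roots k₁, ∑ w₂ ∈ roots k₂,
        ∑ H₁ ∈ (Hs (b * k₁)).erase 0, ∑ H₂ ∈ ((Hs (b * k₂)).erase 0).filter (fun H₂ => H₁ * k₂ ≠ H₂ * k₁),
          1 / (2 * |(H₁ : ℝ)|) * (1 / (2 * |(H₂ : ℝ)|)) * ‖IS N b k₁ k₂ w₁ w₂ H₁ H₂ u v‖ ≤
      D ^ 2 * ∑ H₁ ∈ (Icc (-(M : ℤ)) M).erase 0, ∑ H₂ ∈ ((Icc (-(M : ℤ)) M).erase 0).filter (fun H₂ => H₁ * k₂ ≠ H₂ * k₁),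
        1 / (2 * |(H₁ : ℝ)|) * (1 / (2 * |(H₂ : ℝ)|)) *
          (D ^ 2 * (Real.sqrt (k₁ * k₂) * (Real.sqrt (Int.gcd H₁ k₁) * Real.sqrt (Int.gcd H₂ k₂))) * A7d_F N b k₁ k₂ H₁ H₂) := by
  set G : ℝ := ∑ H₁ ∈ (Icc (-(M : ℤ)) M).erase 0, ∑ H₂ ∈ ((Icc (-(M : ℤ)) M).erase 0).filter (fun H₂ => H₁ * k₂ ≠ H₂ * k₁),
        1 / (2 * |(H₁ : ℝ)|) * (1 / (2 * |(H₂ : ℝ)|)) *
          (D ^ 2 * (Real.sqrt (k₁ * k₂) * (Real.sqrt (Int.gcd H₁ k₁) * Real.sqrt (Int.gcd H₂ k₂))) * A7d_F N b k₁ k₂ H₁ H₂) with hG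
  have hterm0 : ∀ H₁ H₂ : ℤ, 0 ≤ 1 / (2 * |(H₁ : ℝ)|) * (1 / (2 * |(H₂ : ℝ)|)) *
          (D ^ 2 * (Real.sqrt (k₁ * k₂) * (Real.sqrt (Int.gcd H₁ k₁) * Real.sqrt (Int.gcd H₂ k₂))) * A7d_F N b k₁ k₂ H₁ H₂) := by
    intro H₁ H₂
    have := A7d_F_nonneg N b k₁ k₂ H₁ H₂
    positivity
  have hG0 : 0 ≤ G := Finset.sum_nonneg fun H₁ _ => Finset.sum_nonneg fun H₂ _ => hterm0 H₁ H₂
  have hD0 : 0 ≤ D := le_trans (Nat.cast_nonneg _) hr1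
  have key : ∀ w₁ ∈ roots k₁, ∀ w₂ ∈ roots k₂,
      ∑ H₁ ∈ (Hs (b * k₁)).erase 0, ∑ H₂ ∈ ((Hs (b * k₂)).erase 0).filter (fun H₂ => H₁ * k₂ ≠ H₂ * k₁),
          1 / (2 * |(H₁ : ℝ)|) * (1 / (2 * |(H₂ : ℝ)|)) * ‖IS N b k₁ k₂ w₁ w₂ H₁ H₂ u v‖ ≤ G := by
    intro w₁ hw₁ w₂ hw₂
    calc _ ≤ ∑ H₁ ∈ (Hs (b * k₁)).erase 0, ∑ H₂ ∈ ((Hs (b * k₂)).erase 0).filter (fun H₂ => H₁ * k₂ ≠ H₂ * k₁),
          1 / (2 * |(H₁ : ℝ)|) * (1 / (2 * |(H₂ : ℝ)|)) *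
          (D ^ 2 * (Real.sqrt (k₁ * k₂) * (Real.sqrt (Int.gcd H₁ k₁) * Real.sqrt (Int.gcd H₂ k₂))) * A7d_F N b k₁ k₂ H₁ H₂) := by
          refine Finset.sum_le_sum fun H₁ _ => Finset.sum_le_sum fun H₂ hH₂ => ?_
          apply mul_le_mul_of_nonneg_left _ (by positivity)
          exact A7d_term N b k₁ k₂ w₁ w₂ H₁ H₂ u v D hN hb hk₁ hk₂ hN₁ hN₂ hw₁ hw₂ (Finset.mem_filter.mp hH₂).2 huv hD1 hD2
      _ ≤ ∑ H₁ ∈ (Hs (b * k₁)).erase 0, ∑ H₂ ∈ ((Icc (-(M : ℤ)) M).erase 0).filter (fun H₂ => H₁ * k₂ ≠ H₂ * k₁),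
          1 / (2 * |(H₁ : ℝ)|) * (1 / (2 * |(H₂ : ℝ)|)) *
          (D ^ 2 * (Real.sqrt (k₁ * k₂) * (Real.sqrt (Int.gcd H₁ k₁) * Real.sqrt (Int.gcd H₂ k₂))) * A7d_F N b k₁ k₂ H₁ H₂) := by
          refine Finset.sum_le_sum fun H₁ _ => ?_
          apply Finset.sum_le_sum_of_subset_of_nonneg
          · exact Finset.filter_subset_filter _ (A7d_Hs_sub _ _ hM2)
          · intro H₂ _ _
            exact hterm0 H₁ H₂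
      _ ≤ G := by
          apply Finset.sum_le_sum_of_subset_of_nonneg (A7d_Hs_sub _ _ hM1)
          intro H₁ _ _
          exact Finset.sum_nonneg fun H₂ _ => hterm0 H₁ H₂
  calc _ ≤ ∑ w₁ ∈ roots k₁, ∑ w₂ ∈ roots k₂, G :=
        Finset.sum_le_sum fun w₁ hw₁ => Finset.sum_le_sum fun w₂ hw₂ => key w₁ hw₁ w₂ hw₂
    _ = (rho k₁ : ℝ) * ((rho k₂ : ℝ) * G) := by
        simp only [Finset.sum_const, nsmul_eq_mul]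
        rfl
    _ ≤ D * (D * G) := by
        apply mul_le_mul hr1 _ (by positivity) hD0
        exact mul_le_mul_of_nonneg_right hr2 hG0
    _ = _ := by ring

/-- the sum over `b, H₁, H₂` for fixed `k₁, k₂` -/
theorem A7d_k (N B K k₁ k₂ M : ℕ) (D : ℝ) (hN : 1 ≤ N) (hB : 1 ≤ B) (hM : 1 ≤ M)
    (hk₁ : Squarefree k₁) (hk₂ : Squarefree k₂) (hkK₁ : k₁ ≤ 2 * K) (hkK₂ : k₂ ≤ 2 * K)
    (hDZ : ∀ H₁ ∈ (Icc (-(M : ℤ)) M), ∀ H₂ ∈ (Icc (-(M : ℤ)) M), H₁ * k₂ ≠ H₂ * k₁ →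
      ((((H₁ * k₂ - H₂ * k₁) * N).natAbs.divisors.card : ℕ) : ℝ) ≤ D)
    (hDL : (5 : ℝ) ^ (Nat.lcm k₁ k₂).primeFactors.card ≤ D) (hDB : 1 + Real.log B ≤ D)
    (hDM : 1 + Real.log M ≤ D) (hd1 : (k₁.divisors.card : ℝ) ≤ D) (hd2 : (k₂.divisors.card : ℝ) ≤ D) :
    D ^ 2 * ∑ H₁ ∈ (Icc (-(M : ℤ)) M).erase 0, ∑ H₂ ∈ ((Icc (-(M : ℤ)) M).erase 0).filter (fun H₂ => H₁ * k₂ ≠ H₂ * k₁),
        ∑ b ∈ Icc 1 B, 1 / (2 * |(H₁ : ℝ)|) * (1 / (2 * |(H₂ : ℝ)|)) *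
          (D ^ 2 * (Real.sqrt (k₁ * k₂) * (Real.sqrt (Int.gcd H₁ k₁) * Real.sqrt (Int.gcd H₂ k₂))) * A7d_F N b k₁ k₂ H₁ H₂) ≤
      6 * D ^ 11 * ((B : ℝ) ^ ((3 : ℝ) / 2) * K) := by
  have hD0 : 0 ≤ D := le_trans (Nat.cast_nonneg _) hd1
  have hB32 : (0 : ℝ) ≤ (B : ℝ) ^ ((3 : ℝ) / 2) := Real.rpow_nonneg (Nat.cast_nonneg _) _
  have hlogB : 0 ≤ 1 + Real.log B := by
    have : (1 : ℝ) ≤ B := by exact_mod_cast hB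
    linarith [Real.log_nonneg this]
  have hlogM : 0 ≤ 1 + Real.log M := by
    have : (1 : ℝ) ≤ M := by exact_mod_cast hM
    linarith [Real.log_nonneg this]
  have hLsq : Squarefree (Nat.lcm k₁ k₂) := by
    rw [Nat.squarefree_iff_factorization_le_one (Nat.lcm_ne_zero hk₁.ne_zero hk₂.ne_zero)]
    intro p
    rw [Nat.factorization_lcm hk₁.ne_zero hk₂.ne_zero, Finsupp.sup_apply]
    exact sup_le ((Nat.squarefree_iff_factorization_le_one hk₁.ne_zero).mp hk₁ p)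
      ((Nat.squarefree_iff_factorization_le_one hk₂.ne_zero).mp hk₂ p)
  have hsq : Real.sqrt (k₁ * k₂ : ℝ) ≤ 2 * K := by
    rw [Real.sqrt_le_left (by positivity)]
    have h1 : (k₁ : ℝ) ≤ 2 * K := by exact_mod_cast hkK₁
    have h2 : (k₂ : ℝ) ≤ 2 * K := by exact_mod_cast hkK₂
    calc (k₁ : ℝ) * k₂ ≤ (2 * K) * (2 * K) := mul_le_mul h1 h2 (Nat.cast_nonneg _) (by positivity)
      _ = (2 * (K : ℝ)) ^ 2 := by ring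
  -- the sum over `b`
  have hbsum : ∀ H₁ ∈ (Icc (-(M : ℤ)) M).erase 0, ∀ H₂ ∈ ((Icc (-(M : ℤ)) M).erase 0).filter (fun H₂ => H₁ * k₂ ≠ H₂ * k₁),
      ∑ b ∈ Icc 1 B, 1 / (2 * |(H₁ : ℝ)|) * (1 / (2 * |(H₂ : ℝ)|)) *
          (D ^ 2 * (Real.sqrt (k₁ * k₂) * (Real.sqrt (Int.gcd H₁ k₁) * Real.sqrt (Int.gcd H₂ k₂))) * A7d_F N b k₁ k₂ H₁ H₂) ≤
        (D ^ 2 * (2 * K) * (3 * D ^ 3 * (B : ℝ) ^ ((3 : ℝ) / 2)) / 4) *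
          ((Real.sqrt (Int.gcd H₁ k₁) * (1 / |(H₁ : ℝ)|)) * (Real.sqrt (Int.gcd H₂ k₂) * (1 / |(H₂ : ℝ)|))) := by
    intro H₁ hH₁ H₂ hH₂
    rw [Finset.mem_filter] at hH₂
    have hH₁' := (Finset.mem_erase.mp hH₁)
    have hH₂' := (Finset.mem_erase.mp hH₂.1)
    have hne : H₁ * k₂ - H₂ * k₁ ≠ 0 := sub_ne_zero.mpr hH₂.2
    have hZ1 : 1 ≤ ((H₁ * k₂ - H₂ * k₁) * N).natAbs := by
      rw [Nat.one_le_iff_ne_zero, Int.natAbs_ne_zero]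
      have : (N : ℤ) ≠ 0 := by exact_mod_cast (show N ≠ 0 by omega)
      exact mul_ne_zero hne this
    have hsb := sum_b ((H₁ * k₂ - H₂ * k₁) * N).natAbs (Nat.lcm k₁ k₂) B hZ1 hLsq hB
    have hZD := hDZ H₁ hH₁'.2 H₂ hH₂'.2 hH₂.2
    have hF : ∑ b ∈ Icc 1 B, A7d_F N b k₁ k₂ H₁ H₂ ≤ 3 * D ^ 3 * (B : ℝ) ^ ((3 : ℝ) / 2) := by
      calc ∑ b ∈ Icc 1 B, A7d_F N b k₁ k₂ H₁ H₂ ≤ _ := hsb
        _ ≤ (B : ℝ) ^ ((3 : ℝ) / 2) * D * D * (3 * D) := by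
          apply mul_le_mul _ _ (by positivity) (by positivity)
          · apply mul_le_mul _ hDL (by positivity) (by positivity)
            exact mul_le_mul_of_nonneg_left hZD hB32
          · linarith
        _ = _ := by ring
    rw [← Finset.mul_sum, ← Finset.mul_sum]
    have hsum0 : 0 ≤ ∑ b ∈ Icc 1 B, A7d_F N b k₁ k₂ H₁ H₂ := Finset.sum_nonneg fun b _ => A7d_F_nonneg N b k₁ k₂ H₁ H₂
    have e1 : 1 / (2 * |(H₁ : ℝ)|) = (1 / 2) * (1 / |(H₁ : ℝ)|) := by rw [one_div, one_div, one_div, mul_inv]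
    have e2 : 1 / (2 * |(H₂ : ℝ)|) = (1 / 2) * (1 / |(H₂ : ℝ)|) := by rw [one_div, one_div, one_div, mul_inv]
    rw [e1, e2]
    have h10 : 0 ≤ (Real.sqrt (Int.gcd H₁ k₁) * (1 / |(H₁ : ℝ)|)) * (Real.sqrt (Int.gcd H₂ k₂) * (1 / |(H₂ : ℝ)|)) := by positivity
    calc (1 / 2) * (1 / |(H₁ : ℝ)|) * ((1 / 2) * (1 / |(H₂ : ℝ)|)) *
          (D ^ 2 * (Real.sqrt (k₁ * k₂) * (Real.sqrt (Int.gcd H₁ k₁) * Real.sqrt (Int.gcd H₂ k₂))) *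
            ∑ b ∈ Icc 1 B, A7d_F N b k₁ k₂ H₁ H₂)
        = (D ^ 2 * (Real.sqrt (k₁ * k₂) * ∑ b ∈ Icc 1 B, A7d_F N b k₁ k₂ H₁ H₂) / 4) *
          ((Real.sqrt (Int.gcd H₁ k₁) * (1 / |(H₁ : ℝ)|)) * (Real.sqrt (Int.gcd H₂ k₂) * (1 / |(H₂ : ℝ)|))) := by ring
      _ ≤ (D ^ 2 * ((2 * K) * (3 * D ^ 3 * (B : ℝ) ^ ((3 : ℝ) / 2))) / 4) *
          ((Real.sqrt (Int.gcd H₁ k₁) * (1 / |(H₁ : ℝ)|)) * (Real.sqrt (Int.gcd H₂ k₂) * (1 / |(H₂ : ℝ)|))) := by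
          apply mul_le_mul_of_nonneg_right _ h10
          apply div_le_div_of_nonneg_right _ (by norm_num)
          apply mul_le_mul_of_nonneg_left _ (by positivity)
          exact mul_le_mul hsq hF hsum0 (by positivity)
      _ = _ := by ring
  have hs1 := sum_h k₁ M (Nat.one_le_iff_ne_zero.mpr hk₁.ne_zero) hM
  have hs2 := sum_h k₂ M (Nat.one_le_iff_ne_zero.mpr hk₂.ne_zero) hM
  have hs1' : ∑ h ∈ (Icc (-(M : ℤ)) M).erase 0, Real.sqrt (Int.gcd h k₁) * (1 / |(h : ℝ)|) ≤ 2 * D ^ 2 := by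
    refine hs1.trans ?_
    calc 2 * (k₁.divisors.card : ℝ) * (1 + Real.log M) ≤ 2 * D * D := by
          apply mul_le_mul _ hDM hlogM (by positivity)
          linarith
      _ = _ := by ring
  have hs2' : ∑ h ∈ (Icc (-(M : ℤ)) M).erase 0, Real.sqrt (Int.gcd h k₂) * (1 / |(h : ℝ)|) ≤ 2 * D ^ 2 := by
    refine hs2.trans ?_
    calc 2 * (k₂.divisors.card : ℝ) * (1 + Real.log M) ≤ 2 * D * D := by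
          apply mul_le_mul _ hDM hlogM (by positivity)
          linarith
      _ = _ := by ring
  set Q : ℝ := D ^ 2 * (2 * K) * (3 * D ^ 3 * (B : ℝ) ^ ((3 : ℝ) / 2)) / 4 with hQ
  have hQ0 : 0 ≤ Q := by rw [hQ]; positivity
  have hmain : ∑ H₁ ∈ (Icc (-(M : ℤ)) M).erase 0, ∑ H₂ ∈ ((Icc (-(M : ℤ)) M).erase 0).filter (fun H₂ => H₁ * k₂ ≠ H₂ * k₁),
        ∑ b ∈ Icc 1 B, 1 / (2 * |(H₁ : ℝ)|) * (1 / (2 * |(H₂ : ℝ)|)) *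
          (D ^ 2 * (Real.sqrt (k₁ * k₂) * (Real.sqrt (Int.gcd H₁ k₁) * Real.sqrt (Int.gcd H₂ k₂))) * A7d_F N b k₁ k₂ H₁ H₂) ≤
      Q * ((2 * D ^ 2) * (2 * D ^ 2)) := by
    calc _ ≤ ∑ H₁ ∈ (Icc (-(M : ℤ)) M).erase 0, ∑ H₂ ∈ ((Icc (-(M : ℤ)) M).erase 0).filter (fun H₂ => H₁ * k₂ ≠ H₂ * k₁),
          Q * ((Real.sqrt (Int.gcd H₁ k₁) * (1 / |(H₁ : ℝ)|)) * (Real.sqrt (Int.gcd H₂ k₂) * (1 / |(H₂ : ℝ)|))) :=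
          Finset.sum_le_sum fun H₁ hH₁ => Finset.sum_le_sum fun H₂ hH₂ => hbsum H₁ hH₁ H₂ hH₂
      _ ≤ ∑ H₁ ∈ (Icc (-(M : ℤ)) M).erase 0, ∑ H₂ ∈ (Icc (-(M : ℤ)) M).erase 0,
          Q * ((Real.sqrt (Int.gcd H₁ k₁) * (1 / |(H₁ : ℝ)|)) * (Real.sqrt (Int.gcd H₂ k₂) * (1 / |(H₂ : ℝ)|))) := by
          refine Finset.sum_le_sum fun H₁ _ => ?_
          apply Finset.sum_le_sum_of_subset_of_nonneg (Finset.filter_subset _ _)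
          intro H₂ _ _
          positivity
      _ = Q * ((∑ H₁ ∈ (Icc (-(M : ℤ)) M).erase 0, Real.sqrt (Int.gcd H₁ k₁) * (1 / |(H₁ : ℝ)|)) *
          ∑ H₂ ∈ (Icc (-(M : ℤ)) M).erase 0, Real.sqrt (Int.gcd H₂ k₂) * (1 / |(H₂ : ℝ)|)) := by
          rw [Finset.sum_mul_sum, Finset.mul_sum]
          refine Finset.sum_congr rfl fun H₁ _ => ?_
          rw [Finset.mul_sum]
      _ ≤ Q * ((2 * D ^ 2) * (2 * D ^ 2)) := by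
          apply mul_le_mul_of_nonneg_left _ hQ0
          apply mul_le_mul hs1' hs2' _ (by positivity)
          exact Finset.sum_nonneg fun h _ => by positivity
  calc _ ≤ D ^ 2 * (Q * ((2 * D ^ 2) * (2 * D ^ 2))) := mul_le_mul_of_nonneg_left hmain (by positivity)
    _ = 6 * D ^ 11 * ((B : ℝ) ^ ((3 : ℝ) / 2) * K) := by rw [hQ]; ring

/-- [PTW-A7d] the off-diagonal terms.
Proof. `inc` for each term (`IS_le` hypotheses: `k_i` squarefree, prime to `N`). `b L ≤ 4 N ^ 3`, `small` with `ε/20` for `2 + log (b L)`, `3 ^ ω(b L)`, `5 ^ ω(L)`, `rho k ≤ 2 ^ ω(k)`, `1 + log B`.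
`Hs (b k) ⊆ Icc (-(2 B K)) (2 B K)` (`b ≤ B`, `k ≤ 2 K`): enlarge the range of `H₁`, `H₂` to `(Icc (-(2BK)) (2BK)).erase 0` with `H₁ k₂ ≠ H₂ k₁` and exchange the sums so that the sum over `b` is innermost:
`∑_b (b / √bone) √gcd(Z, bone) √gcd(b, L) ≤ B ^ (3/2) τ(Z) 5 ^ ω(L) 3 (1 + log B)` with `Z = |H₁ k₂ - H₂ k₁| N ≤ 8 B K ^ 2 N ≤ 8 N ^ 4`, `Z ≥ 1` (`sum_b`; `Int.gcd X n = Nat.gcd X.natAbs n`). Then `sum_h` twice, `√(k₁ k₂) ≤ 2 K`,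
and the number of `(k₁, k₂)` is `≤ K ^ 2`. -/
theorem offdiag (ε : ℝ) (hε : 0 < ε) : ∃ C : ℝ, 0 < C ∧ ∀ N B K : ℕ, 1 ≤ N → 1 ≤ B → B ≤ N → 1 ≤ K → K ≤ N →
    ∀ u v : ℕ → ℤ, (∀ b ∈ Icc 1 B, v b - u b ≤ b) →
    ∑ b ∈ Icc 1 B, ∑ k₁ ∈ (Ioc K (2 * K)).filter (fun k => Squarefree k ∧ Nat.Coprime k N),
      ∑ k₂ ∈ (Ioc K (2 * K)).filter (fun k => Squarefree k ∧ Nat.Coprime k N), ∑ w₁ ∈ roots k₁, ∑ w₂ ∈ roots k₂,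
        ∑ H₁ ∈ (Hs (b * k₁)).erase 0, ∑ H₂ ∈ ((Hs (b * k₂)).erase 0).filter (fun H₂ => H₁ * k₂ ≠ H₂ * k₁),
          1 / (2 * |(H₁ : ℝ)|) * (1 / (2 * |(H₂ : ℝ)|)) * ‖IS N b k₁ k₂ w₁ w₂ H₁ H₂ (u b) (v b)‖ ≤
      C * (N : ℝ) ^ ε * ((B : ℝ) ^ ((3 : ℝ) / 2) * (K : ℝ) ^ 3) := by
  obtain ⟨C0, hC0, hsmall⟩ := small (ε / 20) (by positivity)
  refine ⟨6 * C0 ^ 11, by positivity, ?_⟩
  intro N B K hN hB hBN hK hKN u v huv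
  set D : ℝ := C0 * (N : ℝ) ^ (ε / 20) with hD
  have hN1 : (1 : ℝ) ≤ N := by exact_mod_cast hN
  have hD0 : 0 ≤ D := by rw [hD]; positivity
  have hsm : ∀ n : ℕ, 1 ≤ n → n ≤ 100 * N ^ 10 →
      (n.divisors.card : ℝ) ≤ D ∧ (15 : ℝ) ^ n.primeFactors.card ≤ D ∧ 2 + Real.log n ≤ D := fun n h1 h2 => hsmall N n hN h1 h2
  have hNp : ∀ i j : ℕ, i ≤ j → N ^ i ≤ N ^ j := fun i j h => Nat.pow_le_pow_right hN h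
  set S := (Ioc K (2 * K)).filter (fun k => Squarefree k ∧ Nat.Coprime k N) with hS
  set M : ℕ := 2 * B * K with hM
  have hMN : M ≤ 2 * N ^ 2 := by
    rw [hM]
    calc 2 * B * K ≤ 2 * N * N := Nat.mul_le_mul (Nat.mul_le_mul_left 2 hBN) hKN
      _ = 2 * N ^ 2 := by ring
  have hM1 : 1 ≤ M := by
    rw [hM]
    have := Nat.mul_le_mul hB hK
    nlinarith
  have hSm : ∀ k ∈ S, Squarefree k ∧ Nat.Coprime k N ∧ 1 ≤ k ∧ k ≤ 2 * K ∧ k ≤ 2 * N := by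
    intro k hk
    rw [hS, Finset.mem_filter, Finset.mem_Ioc] at hk
    refine ⟨hk.2.1, hk.2.2, by omega, hk.1.2, by omega⟩
  have hlcm : ∀ k₁ ∈ S, ∀ k₂ ∈ S, 1 ≤ Nat.lcm k₁ k₂ ∧ Nat.lcm k₁ k₂ ≤ 4 * N ^ 2 := by
    intro k₁ h1 k₂ h2
    obtain ⟨s1, -, p1, -, q1⟩ := hSm k₁ h1
    obtain ⟨s2, -, p2, -, q2⟩ := hSm k₂ h2
    refine ⟨Nat.one_le_iff_ne_zero.mpr (Nat.lcm_ne_zero (by omega) (by omega)), ?_⟩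
    have h3 : Nat.lcm k₁ k₂ ≤ k₁ * k₂ := Nat.le_of_dvd (Nat.mul_pos p1 p2) (Nat.lcm_dvd_mul k₁ k₂)
    calc Nat.lcm k₁ k₂ ≤ k₁ * k₂ := h3
      _ ≤ (2 * N) * (2 * N) := Nat.mul_le_mul q1 q2
      _ = 4 * N ^ 2 := by ring
  have hNN2 := hNp 2 10 (by norm_num)
  have hNN3 := hNp 3 10 (by norm_num)
  have hNN4 := hNp 4 10 (by norm_num)
  have hNN1 : N ≤ N ^ 10 := by simpa using hNp 1 10 (by norm_num)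
  have hstep1 : ∀ b ∈ Icc 1 B, ∀ k₁ ∈ S, ∀ k₂ ∈ S, ∑ w₁ ∈ roots k₁, ∑ w₂ ∈ roots k₂,
        ∑ H₁ ∈ (Hs (b * k₁)).erase 0, ∑ H₂ ∈ ((Hs (b * k₂)).erase 0).filter (fun H₂ => H₁ * k₂ ≠ H₂ * k₁),
          1 / (2 * |(H₁ : ℝ)|) * (1 / (2 * |(H₂ : ℝ)|)) * ‖IS N b k₁ k₂ w₁ w₂ H₁ H₂ (u b) (v b)‖ ≤
      D ^ 2 * ∑ H₁ ∈ (Icc (-(M : ℤ)) M).erase 0, ∑ H₂ ∈ ((Icc (-(M : ℤ)) M).erase 0).filter (fun H₂ => H₁ * k₂ ≠ H₂ * k₁),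
        1 / (2 * |(H₁ : ℝ)|) * (1 / (2 * |(H₂ : ℝ)|)) *
          (D ^ 2 * (Real.sqrt (k₁ * k₂) * (Real.sqrt (Int.gcd H₁ k₁) * Real.sqrt (Int.gcd H₂ k₂))) * A7d_F N b k₁ k₂ H₁ H₂) := by
    intro b hb k₁ hk₁ k₂ hk₂
    rw [Finset.mem_Icc] at hb
    obtain ⟨s1, c1, p1, t1, q1⟩ := hSm k₁ hk₁
    obtain ⟨s2, c2, p2, t2, q2⟩ := hSm k₂ hk₂
    obtain ⟨l1, l2⟩ := hlcm k₁ hk₁ k₂ hk₂
    have hbL : b * Nat.lcm k₁ k₂ ≤ 100 * N ^ 10 := by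
      calc b * Nat.lcm k₁ k₂ ≤ N * (4 * N ^ 2) := Nat.mul_le_mul (by omega) l2
        _ = 4 * N ^ 3 := by ring
        _ ≤ 100 * N ^ 10 := by omega
    have hbL1 : 1 ≤ b * Nat.lcm k₁ k₂ := Nat.mul_pos hb.1 l1
    obtain ⟨-, a2, a3⟩ := hsm _ hbL1 hbL
    have hr : ∀ k : ℕ, Squarefree k → 1 ≤ k → k ≤ 2 * N → (rho k : ℝ) ≤ D := by
      intro k hk h1 h2
      obtain ⟨-, b2, -⟩ := hsm k h1 (by omega)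
      calc (rho k : ℝ) ≤ ((2 ^ k.primeFactors.card : ℕ) : ℝ) := by exact_mod_cast rho_le k hk
        _ = (2 : ℝ) ^ k.primeFactors.card := by push_cast; rfl
        _ ≤ (15 : ℝ) ^ k.primeFactors.card := pow_le_pow_left₀ (by norm_num) (by norm_num) _
        _ ≤ D := b2
    apply A7d_inner N b k₁ k₂ M (u b) (v b) D hN hb.1 s1 s2 c1 c2 (huv b (Finset.mem_Icc.mpr hb)) a3 a2
      (hr k₁ s1 p1 q1) (hr k₂ s2 p2 q2)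
    · rw [hM]
      calc b * k₁ ≤ B * (2 * K) := Nat.mul_le_mul hb.2 t1
        _ = 2 * B * K := by ring
    · rw [hM]
      calc b * k₂ ≤ B * (2 * K) := Nat.mul_le_mul hb.2 t2
        _ = 2 * B * K := by ring
  have hstep2 : ∀ k₁ ∈ S, ∀ k₂ ∈ S,
      D ^ 2 * ∑ H₁ ∈ (Icc (-(M : ℤ)) M).erase 0, ∑ H₂ ∈ ((Icc (-(M : ℤ)) M).erase 0).filter (fun H₂ => H₁ * k₂ ≠ H₂ * k₁),
        ∑ b ∈ Icc 1 B, 1 / (2 * |(H₁ : ℝ)|) * (1 / (2 * |(H₂ : ℝ)|)) *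
          (D ^ 2 * (Real.sqrt (k₁ * k₂) * (Real.sqrt (Int.gcd H₁ k₁) * Real.sqrt (Int.gcd H₂ k₂))) * A7d_F N b k₁ k₂ H₁ H₂) ≤
      6 * D ^ 11 * ((B : ℝ) ^ ((3 : ℝ) / 2) * K) := by
    intro k₁ hk₁ k₂ hk₂
    obtain ⟨s1, c1, p1, t1, q1⟩ := hSm k₁ hk₁
    obtain ⟨s2, c2, p2, t2, q2⟩ := hSm k₂ hk₂
    obtain ⟨l1, l2⟩ := hlcm k₁ hk₁ k₂ hk₂
    have hone : ∀ n : ℕ, 1 ≤ n → n ≤ 100 * N ^ 10 → 1 + Real.log n ≤ D := by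
      intro n h1 h2
      have := (hsm n h1 h2).2.2
      linarith
    apply A7d_k N B K k₁ k₂ M D hN hB hM1 s1 s2 t1 t2
    · intro H₁ hH₁ H₂ hH₂ hne
      rw [Finset.mem_Icc] at hH₁ hH₂
      have hZ1 : 1 ≤ ((H₁ * k₂ - H₂ * k₁) * N).natAbs := by
        rw [Nat.one_le_iff_ne_zero, Int.natAbs_ne_zero]
        have : (N : ℤ) ≠ 0 := by exact_mod_cast (show N ≠ 0 by omega)
        exact mul_ne_zero (sub_ne_zero.mpr hne) this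
      have hZ2 : ((H₁ * k₂ - H₂ * k₁) * N).natAbs ≤ 8 * N ^ 4 := by
        have ha1 : H₁.natAbs ≤ M := by omega
        have ha2 : H₂.natAbs ≤ M := by omega
        have hX : (H₁ * k₂ - H₂ * k₁).natAbs ≤ 8 * N ^ 3 := by
          calc (H₁ * k₂ - H₂ * k₁).natAbs ≤ (H₁ * k₂).natAbs + (H₂ * k₁).natAbs := Int.natAbs_sub_le _ _
            _ = H₁.natAbs * k₂ + H₂.natAbs * k₁ := by simp [Int.natAbs_mul]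
            _ ≤ (2 * N ^ 2) * (2 * N) + (2 * N ^ 2) * (2 * N) :=
                Nat.add_le_add (Nat.mul_le_mul (ha1.trans hMN) q2) (Nat.mul_le_mul (ha2.trans hMN) q1)
            _ = 8 * N ^ 3 := by ring
        calc ((H₁ * k₂ - H₂ * k₁) * N).natAbs = (H₁ * k₂ - H₂ * k₁).natAbs * N := by simp [Int.natAbs_mul]
          _ ≤ (8 * N ^ 3) * N := Nat.mul_le_mul_right N hX
          _ = 8 * N ^ 4 := by ring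
      exact (hsm _ hZ1 (by omega)).1
    · have := (hsm _ l1 (by omega)).2.1
      exact le_trans (pow_le_pow_left₀ (by norm_num) (by norm_num) _) this
    · exact hone B hB (by omega)
    · exact hone M hM1 (by omega)
    · exact (hsm k₁ p1 (by omega)).1
    · exact (hsm k₂ p2 (by omega)).1
  have hcard : (S.card : ℝ) ≤ K := by
    have : S.card ≤ K := by
      calc S.card ≤ (Ioc K (2 * K)).card := Finset.card_filter_le _ _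
        _ = K := by rw [Nat.card_Ioc]; omega
    exact_mod_cast this
  have hQ0 : 0 ≤ 6 * D ^ 11 * ((B : ℝ) ^ ((3 : ℝ) / 2) * K) := by positivity
  calc _ ≤ ∑ b ∈ Icc 1 B, ∑ k₁ ∈ S, ∑ k₂ ∈ S, D ^ 2 * ∑ H₁ ∈ (Icc (-(M : ℤ)) M).erase 0,
        ∑ H₂ ∈ ((Icc (-(M : ℤ)) M).erase 0).filter (fun H₂ => H₁ * k₂ ≠ H₂ * k₁),
        1 / (2 * |(H₁ : ℝ)|) * (1 / (2 * |(H₂ : ℝ)|)) *
          (D ^ 2 * (Real.sqrt (k₁ * k₂) * (Real.sqrt (Int.gcd H₁ k₁) * Real.sqrt (Int.gcd H₂ k₂))) * A7d_F N b k₁ k₂ H₁ H₂) :=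
        Finset.sum_le_sum fun b hb => Finset.sum_le_sum fun k₁ hk₁ => Finset.sum_le_sum fun k₂ hk₂ => hstep1 b hb k₁ hk₁ k₂ hk₂
    _ = ∑ k₁ ∈ S, ∑ k₂ ∈ S, D ^ 2 * ∑ H₁ ∈ (Icc (-(M : ℤ)) M).erase 0,
        ∑ H₂ ∈ ((Icc (-(M : ℤ)) M).erase 0).filter (fun H₂ => H₁ * k₂ ≠ H₂ * k₁), ∑ b ∈ Icc 1 B,
        1 / (2 * |(H₁ : ℝ)|) * (1 / (2 * |(H₂ : ℝ)|)) *
          (D ^ 2 * (Real.sqrt (k₁ * k₂) * (Real.sqrt (Int.gcd H₁ k₁) * Real.sqrt (Int.gcd H₂ k₂))) * A7d_F N b k₁ k₂ H₁ H₂) :=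
        A7d_swap (Icc 1 B) S ((Icc (-(M : ℤ)) M).erase 0)
          (fun k₁ k₂ H₁ => ((Icc (-(M : ℤ)) M).erase 0).filter (fun H₂ => H₁ * k₂ ≠ H₂ * k₁))
          (fun b k₁ k₂ H₁ H₂ => 1 / (2 * |(H₁ : ℝ)|) * (1 / (2 * |(H₂ : ℝ)|)) *
          (D ^ 2 * (Real.sqrt (k₁ * k₂) * (Real.sqrt (Int.gcd H₁ k₁) * Real.sqrt (Int.gcd H₂ k₂))) * A7d_F N b k₁ k₂ H₁ H₂)) (D ^ 2)
    _ ≤ ∑ k₁ ∈ S, ∑ k₂ ∈ S, 6 * D ^ 11 * ((B : ℝ) ^ ((3 : ℝ) / 2) * K) :=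
        Finset.sum_le_sum fun k₁ hk₁ => Finset.sum_le_sum fun k₂ hk₂ => hstep2 k₁ hk₁ k₂ hk₂
    _ = (S.card : ℝ) * ((S.card : ℝ) * (6 * D ^ 11 * ((B : ℝ) ^ ((3 : ℝ) / 2) * K))) := by
        simp only [Finset.sum_const, nsmul_eq_mul]
    _ ≤ K * (K * (6 * D ^ 11 * ((B : ℝ) ^ ((3 : ℝ) / 2) * K))) := by
        apply mul_le_mul hcard _ (by positivity) (by positivity)
        exact mul_le_mul_of_nonneg_right hcard hQ0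
    _ = 6 * D ^ 11 * ((B : ℝ) ^ ((3 : ℝ) / 2) * (K : ℝ) ^ 3) := by ring
    _ ≤ (6 * C0 ^ 11) * (N : ℝ) ^ ε * ((B : ℝ) ^ ((3 : ℝ) / 2) * (K : ℝ) ^ 3) := by
        apply mul_le_mul_of_nonneg_right _ (by positivity)
        have h11 : D ^ 11 = C0 ^ 11 * (N : ℝ) ^ (11 * (ε / 20)) := by
          rw [hD, mul_pow, ← Real.rpow_natCast ((N : ℝ) ^ (ε / 20)) 11, ← Real.rpow_mul (by positivity)]
          congr 2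
          push_cast
          ring
        rw [h11]
        have hle : (N : ℝ) ^ (11 * (ε / 20)) ≤ (N : ℝ) ^ ε := by
          apply Real.rpow_le_rpow_of_exponent_le hN1
          linarith
        calc 6 * (C0 ^ 11 * (N : ℝ) ^ (11 * (ε / 20))) = (6 * C0 ^ 11) * (N : ℝ) ^ (11 * (ε / 20)) := by ring
          _ ≤ (6 * C0 ^ 11) * (N : ℝ) ^ ε := mul_le_mul_of_nonneg_left hle (by positivity)

end Pool.Agent.PTW
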