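import Pool.Agent.PTW.A7a
import Pool.Agent.PTW.A7d

set_option autoImplicit false

namespace Pool.Agent.PTW

open Finset

theorem A7e_weights (S : Finset ℕ) (P : ℕ → Prop) [DecidablePred P] (β : ℕ → ℝ)
    (hβ1 : ∀ k, |β k| ≤ 1) (hβ2 : ∀ k, β k ≠ 0 → P k) (F : ℕ → ℕ → ℝ)
    (hF : ∀ k₁ k₂, 0 ≤ F k₁ k₂) :
    ∑ k₁ ∈ S, ∑ k₂ ∈ S, |β k₁| * |β k₂| * F k₁ k₂ ≤
      ∑ k₁ ∈ S.filter P, ∑ k₂ ∈ S.filter P, F k₁ k₂ := by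
  have h1 : ∑ k₁ ∈ S, ∑ k₂ ∈ S, |β k₁| * |β k₂| * F k₁ k₂ =
      ∑ k₁ ∈ S.filter P, ∑ k₂ ∈ S.filter P, |β k₁| * |β k₂| * F k₁ k₂ := by
    rw [← Finset.sum_filter_of_ne (p := P)]
    · refine Finset.sum_congr rfl fun k₁ _ => ?_
      rw [← Finset.sum_filter_of_ne (p := P)]
      intro k₂ _ hne
      apply hβ2
      intro h0
      apply hne
      rw [h0, abs_zero, mul_zero, zero_mul]
    · intro k₁ _ hne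
      apply hβ2
      intro h0
      apply hne
      refine Finset.sum_eq_zero fun k₂ _ => ?_
      rw [h0, abs_zero, zero_mul, zero_mul]
  rw [h1]
  refine Finset.sum_le_sum fun k₁ _ => Finset.sum_le_sum fun k₂ _ => ?_
  refine mul_le_of_le_one_left (hF k₁ k₂) ?_
  exact mul_le_one₀ (hβ1 k₁) (abs_nonneg _) (hβ1 k₂)

theorem A7e_cfi (N K b B k : ℕ) (s t H : ℤ) (hb : 1 ≤ b) (hK : 1 ≤ K)
    (hk : K < k) (hst : ((Ioc s t).card : ℝ) ≤ 3 * N / b) (hH : H ∈ (Hs (b * k)).erase 0) :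
    ‖cfi (b * k) s t H‖ ≤ min (3 * N / ((b : ℝ) ^ 2 * K)) (1 / |(H : ℝ)|) := by
  have hb0 : (0 : ℝ) < b := by exact_mod_cast hb
  have hK0 : (0 : ℝ) < K := by exact_mod_cast hK
  have hkK : (K : ℝ) ≤ k := by exact_mod_cast hk.le
  have hk0 : (0 : ℝ) < k := lt_of_lt_of_le hK0 hkK
  have hbk : 1 ≤ b * k := Nat.one_le_iff_ne_zero.mpr (Nat.mul_ne_zero (by omega) (by omega))
  rw [Finset.mem_erase] at hH
  refine le_min ?_ ?_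
  · refine (cfi_le_card (b * k) hbk s t H).trans ?_
    push_cast
    calc ((Ioc s t).card : ℝ) / (b * k) ≤ (3 * N / b) / (b * k) := by gcongr
      _ ≤ (3 * N / b) / (b * K) := by gcongr
      _ = 3 * N / ((b : ℝ) ^ 2 * K) := by field_simp
  · refine (cfi_le_inv (b * k) hbk s t H hH.2 hH.1).trans ?_
    have h0 : (0 : ℝ) < |(H : ℝ)| := abs_pos.mpr (by exact_mod_cast hH.1)
    exact one_div_le_one_div_of_le h0 (by linarith)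

theorem A7e_Hs (B K b k : ℕ) (hbB : b ≤ B) (hk : k ≤ 2 * K) :
    (Hs (b * k)).erase 0 ⊆ (Icc (-((2 * B * K : ℕ) : ℤ)) ((2 * B * K : ℕ) : ℤ)).erase 0 := by
  refine Finset.erase_subset_erase 0 ?_
  intro h hh
  rw [Hs, Finset.mem_filter, Finset.mem_Icc] at hh
  have h1 : b * k ≤ 2 * B * K := by
    calc b * k ≤ B * (2 * K) := Nat.mul_le_mul hbB hk
      _ = 2 * B * K := by ring
  have h2 : ((b * k : ℕ) : ℤ) ≤ ((2 * B * K : ℕ) : ℤ) := by exact_mod_cast h1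
  rw [Finset.mem_Icc]
  exact ⟨by linarith [hh.1.1], by linarith [hh.1.2]⟩

theorem A7e_inner (N B K b k₁ k₂ w₁ w₂ : ℕ) (s t u v : ℤ) (hb : 1 ≤ b) (hbB : b ≤ B) (hK : 1 ≤ K)
    (hk₁ : k₁ ∈ Ioc K (2 * K)) (hk₂ : k₂ ∈ Ioc K (2 * K))
    (huv : v - u ≤ b) (hst : ((Ioc s t).card : ℝ) ≤ 3 * N / b) :
    ∑ H₁ ∈ (Hs (b * k₁)).erase 0,
      ∑ H₂ ∈ ((Hs (b * k₂)).erase 0).filter (fun H₂ => H₁ * k₂ = H₂ * k₁),
        ‖cfi (b * k₁) s t H₁‖ * ‖cfi (b * k₂) s t H₂‖ * ‖IS N b k₁ k₂ w₁ w₂ H₁ H₂ u v‖ ≤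
    b * ∑ h₁ ∈ (Icc (-((2 * B * K : ℕ) : ℤ)) ((2 * B * K : ℕ) : ℤ)).erase 0,
      ∑ h₂ ∈ ((Icc (-((2 * B * K : ℕ) : ℤ)) ((2 * B * K : ℕ) : ℤ)).erase 0).filter (fun h₂ => h₁ * k₂ = h₂ * k₁),
        min (3 * N / ((b : ℝ) ^ 2 * K)) (1 / |(h₁ : ℝ)|) * min (3 * N / ((b : ℝ) ^ 2 * K)) (1 / |(h₂ : ℝ)|) := by
  rw [Finset.mem_Ioc] at hk₁ hk₂
  have hb0 : (0 : ℝ) < b := by exact_mod_cast hb
  have hm : ∀ h : ℤ, 0 ≤ min (3 * N / ((b : ℝ) ^ 2 * K)) (1 / |(h : ℝ)|) := fun h =>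
    le_min (by positivity) (by positivity)
  rw [Finset.mul_sum]
  calc _ ≤ ∑ H₁ ∈ (Hs (b * k₁)).erase 0,
      ∑ H₂ ∈ ((Hs (b * k₂)).erase 0).filter (fun H₂ => H₁ * k₂ = H₂ * k₁),
        b * (min (3 * N / ((b : ℝ) ^ 2 * K)) (1 / |(H₁ : ℝ)|) * min (3 * N / ((b : ℝ) ^ 2 * K)) (1 / |(H₂ : ℝ)|)) := by
        refine Finset.sum_le_sum fun H₁ h₁ => Finset.sum_le_sum fun H₂ h₂ => ?_
        rw [Finset.mem_filter] at h₂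
        have e1 := A7e_cfi N K b B k₁ s t H₁ hb hK hk₁.1 hst h₁
        have e2 := A7e_cfi N K b B k₂ s t H₂ hb hK hk₂.1 hst h₂.1
        have e3 := IS_triv N b k₁ k₂ w₁ w₂ H₁ H₂ u v huv
        rw [mul_comm (b : ℝ)]
        exact mul_le_mul (mul_le_mul e1 e2 (norm_nonneg _) (hm _)) e3 (norm_nonneg _)
          (mul_nonneg (hm _) (hm _))
    _ ≤ _ := by
        refine (Finset.sum_le_sum fun H₁ _ => ?_).trans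
          (Finset.sum_le_sum_of_subset_of_nonneg (A7e_Hs B K b k₁ hbB hk₁.2) fun H₁ _ _ => ?_)
        · rw [Finset.mul_sum]
          refine Finset.sum_le_sum_of_subset_of_nonneg
            (Finset.filter_subset_filter _ (A7e_Hs B K b k₂ hbB hk₂.2)) fun H₂ _ _ => ?_
          exact mul_nonneg hb0.le (mul_nonneg (hm _) (hm _))
        · exact mul_nonneg hb0.le (Finset.sum_nonneg fun H₂ _ => mul_nonneg (hm _) (hm _))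

theorem A7e_diag (N B K b : ℕ) (s t u v : ℤ) (R T : ℝ) (hb : 1 ≤ b) (hbB : b ≤ B) (hK : 1 ≤ K)
    (huv : v - u ≤ b) (hst : ((Ioc s t).card : ℝ) ≤ 3 * N / b)
    (hR0 : 0 ≤ R) (hR : ∀ k ∈ (Ioc K (2 * K)).filter (fun k => Squarefree k ∧ Nat.Coprime k N),
      ((roots k).card : ℝ) ≤ R)
    (hT0 : 0 ≤ T) (hT : ∀ n : ℕ, 1 ≤ n → n ≤ 2 * K * (2 * B * K) → (n.divisors.card : ℝ) ≤ T) :
    ∑ k₁ ∈ (Ioc K (2 * K)).filter (fun k => Squarefree k ∧ Nat.Coprime k N),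
      ∑ k₂ ∈ (Ioc K (2 * K)).filter (fun k => Squarefree k ∧ Nat.Coprime k N),
      ∑ w₁ ∈ roots k₁, ∑ w₂ ∈ roots k₂, ∑ H₁ ∈ (Hs (b * k₁)).erase 0,
      ∑ H₂ ∈ ((Hs (b * k₂)).erase 0).filter (fun H₂ => H₁ * k₂ = H₂ * k₁),
        ‖cfi (b * k₁) s t H₁‖ * ‖cfi (b * k₂) s t H₂‖ * ‖IS N b k₁ k₂ w₁ w₂ H₁ H₂ u v‖ ≤
      24 * R ^ 2 * T * N * (1 / b) := by
  have hb0 : (0 : ℝ) < b := by exact_mod_cast hb
  have hK0 : (0 : ℝ) < K := by exact_mod_cast hK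
  have hm : ∀ h : ℤ, 0 ≤ min (3 * N / ((b : ℝ) ^ 2 * K)) (1 / |(h : ℝ)|) := fun h =>
    le_min (by positivity) (by positivity)
  set Dg : ℕ → ℕ → ℝ := fun k₁ k₂ =>
    ∑ h₁ ∈ (Icc (-((2 * B * K : ℕ) : ℤ)) ((2 * B * K : ℕ) : ℤ)).erase 0,
      ∑ h₂ ∈ ((Icc (-((2 * B * K : ℕ) : ℤ)) ((2 * B * K : ℕ) : ℤ)).erase 0).filter (fun h₂ => h₁ * k₂ = h₂ * k₁),
        min (3 * N / ((b : ℝ) ^ 2 * K)) (1 / |(h₁ : ℝ)|) * min (3 * N / ((b : ℝ) ^ 2 * K)) (1 / |(h₂ : ℝ)|)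
    with hDg
  have hDg0 : ∀ k₁ k₂, 0 ≤ Dg k₁ k₂ := fun k₁ k₂ =>
    Finset.sum_nonneg fun _ _ => Finset.sum_nonneg fun _ _ => mul_nonneg (hm _) (hm _)
  have hdiag := diag K (2 * B * K) (3 * N / ((b : ℝ) ^ 2 * K)) T (by positivity) hT0 hT
  have hstep : ∀ k₁ ∈ (Ioc K (2 * K)).filter (fun k => Squarefree k ∧ Nat.Coprime k N),
      ∀ k₂ ∈ (Ioc K (2 * K)).filter (fun k => Squarefree k ∧ Nat.Coprime k N),
      ∑ w₁ ∈ roots k₁, ∑ w₂ ∈ roots k₂, ∑ H₁ ∈ (Hs (b * k₁)).erase 0,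
      ∑ H₂ ∈ ((Hs (b * k₂)).erase 0).filter (fun H₂ => H₁ * k₂ = H₂ * k₁),
        ‖cfi (b * k₁) s t H₁‖ * ‖cfi (b * k₂) s t H₂‖ * ‖IS N b k₁ k₂ w₁ w₂ H₁ H₂ u v‖ ≤
      R ^ 2 * b * Dg k₁ k₂ := by
    intro k₁ hk₁ k₂ hk₂
    have e1 : ∑ w₁ ∈ roots k₁, ∑ w₂ ∈ roots k₂, ∑ H₁ ∈ (Hs (b * k₁)).erase 0,
      ∑ H₂ ∈ ((Hs (b * k₂)).erase 0).filter (fun H₂ => H₁ * k₂ = H₂ * k₁),
        ‖cfi (b * k₁) s t H₁‖ * ‖cfi (b * k₂) s t H₂‖ * ‖IS N b k₁ k₂ w₁ w₂ H₁ H₂ u v‖ ≤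
        ∑ w₁ ∈ roots k₁, ∑ w₂ ∈ roots k₂, b * Dg k₁ k₂ :=
      Finset.sum_le_sum fun w₁ _ => Finset.sum_le_sum fun w₂ _ =>
        A7e_inner N B K b k₁ k₂ w₁ w₂ s t u v hb hbB hK (Finset.mem_filter.mp hk₁).1
          (Finset.mem_filter.mp hk₂).1 huv hst
    refine e1.trans ?_
    rw [Finset.sum_const, Finset.sum_const, nsmul_eq_mul, nsmul_eq_mul, ← mul_assoc]
    have h1 := hR k₁ hk₁
    have h2 := hR k₂ hk₂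
    have h3 : ((roots k₁).card : ℝ) * (roots k₂).card ≤ R ^ 2 := by
      rw [pow_two]
      exact mul_le_mul h1 h2 (Nat.cast_nonneg _) hR0
    calc ((roots k₁).card : ℝ) * (roots k₂).card * (b * Dg k₁ k₂) ≤ R ^ 2 * (b * Dg k₁ k₂) :=
          mul_le_mul_of_nonneg_right h3 (mul_nonneg hb0.le (hDg0 _ _))
      _ = R ^ 2 * b * Dg k₁ k₂ := by ring
  calc _ ≤ ∑ k₁ ∈ (Ioc K (2 * K)).filter (fun k => Squarefree k ∧ Nat.Coprime k N),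
      ∑ k₂ ∈ (Ioc K (2 * K)).filter (fun k => Squarefree k ∧ Nat.Coprime k N), R ^ 2 * b * Dg k₁ k₂ :=
        Finset.sum_le_sum fun k₁ h₁ => Finset.sum_le_sum fun k₂ h₂ => hstep k₁ h₁ k₂ h₂
    _ ≤ ∑ k₁ ∈ Ioc K (2 * K), ∑ k₂ ∈ Ioc K (2 * K), R ^ 2 * b * Dg k₁ k₂ := by
        have hn : ∀ k₁ k₂, 0 ≤ R ^ 2 * b * Dg k₁ k₂ := fun k₁ k₂ =>
          mul_nonneg (by positivity) (hDg0 _ _)
        refine (Finset.sum_le_sum fun k₁ _ => ?_).trans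
          (Finset.sum_le_sum_of_subset_of_nonneg (Finset.filter_subset _ _)
            fun k₁ _ _ => Finset.sum_nonneg fun k₂ _ => hn k₁ k₂)
        exact Finset.sum_le_sum_of_subset_of_nonneg (Finset.filter_subset _ _) fun k₂ _ _ => hn k₁ k₂
    _ = R ^ 2 * b * ∑ k₁ ∈ Ioc K (2 * K), ∑ k₂ ∈ Ioc K (2 * K), Dg k₁ k₂ := by
        rw [Finset.mul_sum]
        exact Finset.sum_congr rfl fun k₁ _ => (Finset.mul_sum _ _ _).symm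
    _ ≤ R ^ 2 * b * (8 * T * K * (3 * N / ((b : ℝ) ^ 2 * K))) :=
        mul_le_mul_of_nonneg_left hdiag (by positivity)
    _ = 24 * R ^ 2 * T * N * (1 / b) := by
        field_simp
        ring

/-- the part with `H₁ k₂ ≠ H₂ k₁` -/
theorem A7e_off (N K b k₁ k₂ w₁ w₂ : ℕ) (s t u v : ℤ) (hb : 1 ≤ b)
    (hk₁ : k₁ ∈ Ioc K (2 * K)) (hk₂ : k₂ ∈ Ioc K (2 * K)) (P : ℤ → ℤ → Prop)
    [∀ H₁, DecidablePred (P H₁)] :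
    ∑ H₁ ∈ (Hs (b * k₁)).erase 0, ∑ H₂ ∈ ((Hs (b * k₂)).erase 0).filter (P H₁),
        ‖cfi (b * k₁) s t H₁‖ * ‖cfi (b * k₂) s t H₂‖ * ‖IS N b k₁ k₂ w₁ w₂ H₁ H₂ u v‖ ≤
    ∑ H₁ ∈ (Hs (b * k₁)).erase 0, ∑ H₂ ∈ ((Hs (b * k₂)).erase 0).filter (P H₁),
        1 / (2 * |(H₁ : ℝ)|) * (1 / (2 * |(H₂ : ℝ)|)) * ‖IS N b k₁ k₂ w₁ w₂ H₁ H₂ u v‖ := by
  rw [Finset.mem_Ioc] at hk₁ hk₂
  have hb1 : 1 ≤ b * k₁ := Nat.one_le_iff_ne_zero.mpr (Nat.mul_ne_zero (by omega) (by omega))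
  have hb2 : 1 ≤ b * k₂ := Nat.one_le_iff_ne_zero.mpr (Nat.mul_ne_zero (by omega) (by omega))
  refine Finset.sum_le_sum fun H₁ h₁ => Finset.sum_le_sum fun H₂ h₂ => ?_
  rw [Finset.mem_filter, Finset.mem_erase] at h₂
  rw [Finset.mem_erase] at h₁
  have e1 := cfi_le_inv (b * k₁) hb1 s t H₁ h₁.2 h₁.1
  have e2 := cfi_le_inv (b * k₂) hb2 s t H₂ h₂.1.2 h₂.1.1
  exact mul_le_mul_of_nonneg_right (mul_le_mul e1 e2 (norm_nonneg _) (by positivity)) (norm_nonneg _)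

/-- [PTW-A7e] the variance estimate.
Proof. `dev_sq` for each `b`; only `k_i` with `β k_i ≠ 0` count. Split the pairs `(H₁, H₂)`: (1) `H₁ k₂ ≠ H₂ k₁`: `cfi_le_inv` and `offdiag` with `ε`. (2) `H₁ k₂ = H₂ k₁`: `IS_triv`, and
`‖cfi (b k) s t H‖ ≤ min W (1 / |H|)` with `W = 3 N / (b ^ 2 K)` (`cfi_le_card`, `#(s,t] ≤ 3 N / b`, `k > K`; `cfi_le_inv`); `diag` with `H = 2 B K`, `T = C N ^ (ε/4)` (`small`, `2 K * 2 B K ≤ 4 N ^ 3`), the number of `(w₁, w₂)` is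
`≤ (2 ^ ω) ^ 2 ≤ C N ^ (ε/4)`: the part is `≤ ∑_b b * C N ^ (ε/2) * 8 K * 3 N / (b ^ 2 K) ≤ 24 C N ^ (1 + ε/2) (1 + log B)`. -/
theorem var (ε : ℝ) (hε : 0 < ε) : ∃ C : ℝ, 0 < C ∧ ∀ N B K : ℕ, 1 ≤ N → 1 ≤ B → B ≤ N → 1 ≤ K → K ≤ N →
    ∀ β : ℕ → ℝ, (∀ k, |β k| ≤ 1) → (∀ k, β k ≠ 0 → Squarefree k ∧ Nat.Coprime k N) →
    ∀ u v s t : ℕ → ℤ, (∀ b ∈ Icc 1 B, v b - u b ≤ b ∧ ((Ioc (s b) (t b)).card : ℝ) ≤ 3 * N / b) →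
    ∑ b ∈ Icc 1 B, ∑ a ∈ (Ioc (u b) (v b)).filter (fun a : ℤ => IsCoprime a (b : ℤ)), (dev N K β (s b) (t b) a b) ^ 2 ≤
      C * (N : ℝ) ^ ε * (N + (B : ℝ) ^ ((3 : ℝ) / 2) * (K : ℝ) ^ 3) := by
  obtain ⟨C₁, hC₁, hoff⟩ := offdiag ε hε
  obtain ⟨C₂, hC₂, hsm⟩ := small (ε / 4) (by linarith)
  refine ⟨C₁ + 24 * C₂ ^ 4, by positivity, ?_⟩
  intro N B K hN hB hBN hK hKN β hβ1 hβ2 u v s t huv
  have hN1 : (1 : ℝ) ≤ N := by exact_mod_cast hN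
  have hN0 : (0 : ℝ) < N := by linarith
  set R : ℝ := C₂ * (N : ℝ) ^ (ε / 4) with hRdef
  have hR0 : 0 ≤ R := by positivity
  have hpow : R ^ 4 = C₂ ^ 4 * (N : ℝ) ^ ε := by
    rw [hRdef, mul_pow, ← Real.rpow_natCast ((N : ℝ) ^ (ε / 4)) 4, ← Real.rpow_mul hN0.le]
    congr 2
    push_cast
    ring
  have hNN : ∀ j, 1 ≤ j → N ≤ N ^ j := fun j hj => Nat.le_self_pow (by omega) N
  have hRk : ∀ k ∈ (Ioc K (2 * K)).filter (fun k => Squarefree k ∧ Nat.Coprime k N),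
      ((roots k).card : ℝ) ≤ R := by
    intro k hk
    rw [Finset.mem_filter, Finset.mem_Ioc] at hk
    have h1 := rho_le k hk.2.1
    have h2 : k ≤ 100 * N ^ 10 := by
      have := hNN 10 (by norm_num)
      omega
    have h3 := (hsm N k hN (by omega) h2).2.1
    have h4 : ((roots k).card : ℝ) ≤ (2 : ℝ) ^ k.primeFactors.card := by
      have : (roots k).card ≤ 2 ^ k.primeFactors.card := h1
      exact_mod_cast this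
    have h5 : (2 : ℝ) ^ k.primeFactors.card ≤ (15 : ℝ) ^ k.primeFactors.card :=
      pow_le_pow_left₀ (by norm_num) (by norm_num) _
    linarith
  have hTn : ∀ n : ℕ, 1 ≤ n → n ≤ 2 * K * (2 * B * K) → (n.divisors.card : ℝ) ≤ R := by
    intro n hn hn2
    refine (hsm N n hN hn ?_).1
    have h1 : 2 * K * (2 * B * K) ≤ 2 * N * (2 * N * N) := by gcongr
    have h2 : N ^ 3 ≤ N ^ 10 := Nat.pow_le_pow_right hN (by norm_num)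
    calc n ≤ 2 * N * (2 * N * N) := hn2.trans h1
      _ = 4 * N ^ 3 := by ring
      _ ≤ 100 * N ^ 10 := by omega
  have hlog : 1 + Real.log B ≤ R := by
    have h2 : B ≤ 100 * N ^ 10 := by
      have := hNN 10 (by norm_num)
      omega
    have := (hsm N B hN hB h2).2.2
    linarith
  have hharm : ∑ b ∈ Icc 1 B, (1 / (b : ℝ)) ≤ 1 + Real.log B := by
    have h := harmonic_le_one_add_log B
    rw [harmonic_eq_sum_Icc] at h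
    push_cast at h
    simpa [one_div] using h
  -- one `b`
  have hone : ∀ b ∈ Icc 1 B, ∑ a ∈ (Ioc (u b) (v b)).filter (fun a : ℤ => IsCoprime a (b : ℤ)), (dev N K β (s b) (t b) a b) ^ 2 ≤
      (∑ k₁ ∈ (Ioc K (2 * K)).filter (fun k => Squarefree k ∧ Nat.Coprime k N),
      ∑ k₂ ∈ (Ioc K (2 * K)).filter (fun k => Squarefree k ∧ Nat.Coprime k N), ∑ w₁ ∈ roots k₁, ∑ w₂ ∈ roots k₂,
        ∑ H₁ ∈ (Hs (b * k₁)).erase 0, ∑ H₂ ∈ ((Hs (b * k₂)).erase 0).filter (fun H₂ => H₁ * k₂ ≠ H₂ * k₁),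
          1 / (2 * |(H₁ : ℝ)|) * (1 / (2 * |(H₂ : ℝ)|)) * ‖IS N b k₁ k₂ w₁ w₂ H₁ H₂ (u b) (v b)‖) +
        24 * R ^ 3 * N * (1 / b) := by
    intro b hb
    obtain ⟨hb1, hbB⟩ := Finset.mem_Icc.mp hb
    have hd := A7e_diag N B K b (s b) (t b) (u b) (v b) R R hb1 hbB hK (huv b hb).1 (huv b hb).2
      hR0 hRk hR0 hTn
    have e0 := dev_sq N K b β (s b) (t b) (u b) (v b) hb1
    have e1 := A7e_weights (Ioc K (2 * K)) (fun k => Squarefree k ∧ Nat.Coprime k N) β hβ1 hβ2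
      (fun k₁ k₂ => ∑ w₁ ∈ roots k₁, ∑ w₂ ∈ roots k₂,
        ∑ H₁ ∈ (Hs (b * k₁)).erase 0, ∑ H₂ ∈ (Hs (b * k₂)).erase 0,
          ‖cfi (b * k₁) (s b) (t b) H₁‖ * ‖cfi (b * k₂) (s b) (t b) H₂‖ * ‖IS N b k₁ k₂ w₁ w₂ H₁ H₂ (u b) (v b)‖)
      (fun k₁ k₂ => by positivity)
    have e2 : ∑ k₁ ∈ (Ioc K (2 * K)).filter (fun k => Squarefree k ∧ Nat.Coprime k N),
      ∑ k₂ ∈ (Ioc K (2 * K)).filter (fun k => Squarefree k ∧ Nat.Coprime k N), ∑ w₁ ∈ roots k₁, ∑ w₂ ∈ roots k₂,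
        ∑ H₁ ∈ (Hs (b * k₁)).erase 0, ∑ H₂ ∈ (Hs (b * k₂)).erase 0,
          ‖cfi (b * k₁) (s b) (t b) H₁‖ * ‖cfi (b * k₂) (s b) (t b) H₂‖ * ‖IS N b k₁ k₂ w₁ w₂ H₁ H₂ (u b) (v b)‖ =
      (∑ k₁ ∈ (Ioc K (2 * K)).filter (fun k => Squarefree k ∧ Nat.Coprime k N),
      ∑ k₂ ∈ (Ioc K (2 * K)).filter (fun k => Squarefree k ∧ Nat.Coprime k N), ∑ w₁ ∈ roots k₁, ∑ w₂ ∈ roots k₂,
        ∑ H₁ ∈ (Hs (b * k₁)).erase 0, ∑ H₂ ∈ ((Hs (b * k₂)).erase 0).filter (fun H₂ => H₁ * k₂ ≠ H₂ * k₁),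
          ‖cfi (b * k₁) (s b) (t b) H₁‖ * ‖cfi (b * k₂) (s b) (t b) H₂‖ * ‖IS N b k₁ k₂ w₁ w₂ H₁ H₂ (u b) (v b)‖) +
      (∑ k₁ ∈ (Ioc K (2 * K)).filter (fun k => Squarefree k ∧ Nat.Coprime k N),
      ∑ k₂ ∈ (Ioc K (2 * K)).filter (fun k => Squarefree k ∧ Nat.Coprime k N), ∑ w₁ ∈ roots k₁, ∑ w₂ ∈ roots k₂,
        ∑ H₁ ∈ (Hs (b * k₁)).erase 0, ∑ H₂ ∈ ((Hs (b * k₂)).erase 0).filter (fun H₂ => H₁ * k₂ = H₂ * k₁),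
          ‖cfi (b * k₁) (s b) (t b) H₁‖ * ‖cfi (b * k₂) (s b) (t b) H₂‖ * ‖IS N b k₁ k₂ w₁ w₂ H₁ H₂ (u b) (v b)‖) := by
      simp only [← Finset.sum_add_distrib]
      refine Finset.sum_congr rfl fun k₁ _ => Finset.sum_congr rfl fun k₂ _ =>
        Finset.sum_congr rfl fun w₁ _ => Finset.sum_congr rfl fun w₂ _ =>
        Finset.sum_congr rfl fun H₁ _ => ?_
      rw [add_comm, ← Finset.sum_filter_add_sum_filter_not ((Hs (b * k₂)).erase 0) (fun H₂ => H₁ * k₂ = H₂ * k₁)]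
    have e3 : (∑ k₁ ∈ (Ioc K (2 * K)).filter (fun k => Squarefree k ∧ Nat.Coprime k N),
      ∑ k₂ ∈ (Ioc K (2 * K)).filter (fun k => Squarefree k ∧ Nat.Coprime k N), ∑ w₁ ∈ roots k₁, ∑ w₂ ∈ roots k₂,
        ∑ H₁ ∈ (Hs (b * k₁)).erase 0, ∑ H₂ ∈ ((Hs (b * k₂)).erase 0).filter (fun H₂ => H₁ * k₂ ≠ H₂ * k₁),
          ‖cfi (b * k₁) (s b) (t b) H₁‖ * ‖cfi (b * k₂) (s b) (t b) H₂‖ * ‖IS N b k₁ k₂ w₁ w₂ H₁ H₂ (u b) (v b)‖) ≤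
        (∑ k₁ ∈ (Ioc K (2 * K)).filter (fun k => Squarefree k ∧ Nat.Coprime k N),
      ∑ k₂ ∈ (Ioc K (2 * K)).filter (fun k => Squarefree k ∧ Nat.Coprime k N), ∑ w₁ ∈ roots k₁, ∑ w₂ ∈ roots k₂,
        ∑ H₁ ∈ (Hs (b * k₁)).erase 0, ∑ H₂ ∈ ((Hs (b * k₂)).erase 0).filter (fun H₂ => H₁ * k₂ ≠ H₂ * k₁),
          1 / (2 * |(H₁ : ℝ)|) * (1 / (2 * |(H₂ : ℝ)|)) * ‖IS N b k₁ k₂ w₁ w₂ H₁ H₂ (u b) (v b)‖) := by
      refine Finset.sum_le_sum fun k₁ h₁ => Finset.sum_le_sum fun k₂ h₂ =>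
        Finset.sum_le_sum fun w₁ _ => Finset.sum_le_sum fun w₂ _ => ?_
      exact A7e_off N K b k₁ k₂ w₁ w₂ (s b) (t b) (u b) (v b) hb1 (Finset.mem_filter.mp h₁).1
        (Finset.mem_filter.mp h₂).1 (fun H₁ H₂ => H₁ * k₂ ≠ H₂ * k₁)
    have e4 : 24 * R ^ 2 * R * N * (1 / (b : ℝ)) = 24 * R ^ 3 * N * (1 / b) := by ring
    rw [e4] at hd
    refine (e0.trans e1).trans ?_
    rw [e2]
    exact add_le_add e3 hd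
  have hsum := Finset.sum_le_sum hone
  rw [Finset.sum_add_distrib, ← Finset.mul_sum] at hsum
  have hoffN := hoff N B K hN hB hBN hK hKN u v (fun b hb => (huv b hb).1)
  have h24 : 24 * R ^ 3 * N * ∑ b ∈ Icc 1 B, (1 / (b : ℝ)) ≤ 24 * C₂ ^ 4 * (N : ℝ) ^ ε * N := by
    calc 24 * R ^ 3 * N * ∑ b ∈ Icc 1 B, (1 / (b : ℝ)) ≤ 24 * R ^ 3 * N * R :=
          mul_le_mul_of_nonneg_left (hharm.trans hlog) (by positivity)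
      _ = 24 * R ^ 4 * N := by ring
      _ = 24 * C₂ ^ 4 * (N : ℝ) ^ ε * N := by rw [hpow]; ring
  have hBK : 0 ≤ (B : ℝ) ^ ((3 : ℝ) / 2) * (K : ℝ) ^ 3 := by positivity
  have hNε : 0 ≤ (N : ℝ) ^ ε := by positivity
  calc _ ≤ C₁ * (N : ℝ) ^ ε * ((B : ℝ) ^ ((3 : ℝ) / 2) * (K : ℝ) ^ 3) + 24 * C₂ ^ 4 * (N : ℝ) ^ ε * N :=
        hsum.trans (add_le_add hoffN h24)
    _ ≤ (C₁ + 24 * C₂ ^ 4) * (N : ℝ) ^ ε * (N + (B : ℝ) ^ ((3 : ℝ) / 2) * (K : ℝ) ^ 3) := by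
        have h1 : 0 ≤ C₁ * (N : ℝ) ^ ε * N := by positivity
        have h2 : 0 ≤ 24 * C₂ ^ 4 * (N : ℝ) ^ ε * ((B : ℝ) ^ ((3 : ℝ) / 2) * (K : ℝ) ^ 3) := by positivity
        nlinarith

end Pool.Agent.PTW
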