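import Pool.Agent.PTW.A2

set_option autoImplicit false

namespace Pool.Agent.PTW

open Finset

theorem A8a_lip {σ r q : ℝ} (h0 : 0 ≤ σ) (h1 : σ ≤ 1) (hr : |r| ≤ 1.03) (hq : |q| ≤ 1.03) :
    |(σ + r) / (1 + r ^ 2) - (σ + q) / (1 + q ^ 2)| ≤ 5 * |r - q| := by
  have d1 : 0 < 1 + r ^ 2 := by positivity
  have d2 : 0 < 1 + q ^ 2 := by positivity
  have e : (σ + r) / (1 + r ^ 2) - (σ + q) / (1 + q ^ 2) =
      ((1 - r * q - σ * (r + q)) / ((1 + r ^ 2) * (1 + q ^ 2))) * (r - q) := by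
    field_simp
    ring
  rw [e, abs_mul]
  refine mul_le_mul_of_nonneg_right ?_ (abs_nonneg _)
  rw [abs_div, abs_of_pos (mul_pos d1 d2), div_le_iff₀ (mul_pos d1 d2)]
  have h2 : |r * q| ≤ 1.03 * 1.03 := by
    rw [abs_mul]
    exact mul_le_mul hr hq (abs_nonneg _) (by norm_num)
  have h3 : |σ * (r + q)| ≤ 1 * 2.06 := by
    rw [abs_mul]
    refine mul_le_mul ?_ ?_ (abs_nonneg _) (by norm_num)
    · rw [abs_of_nonneg h0]
      exact h1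
    · refine (abs_add_le _ _).trans ?_
      linarith
  have h4 : |1 - r * q - σ * (r + q)| ≤ 5 := by
    rw [abs_le] at h2 h3 ⊢
    constructor <;> linarith [h2.1, h2.2, h3.1, h3.2]
  have h5 : 1 ≤ (1 + r ^ 2) * (1 + q ^ 2) := by
    have := mul_nonneg (sq_nonneg r) (sq_nonneg q)
    nlinarith [sq_nonneg r, sq_nonneg q]
  linarith

/-- the geometry of a slice -/
theorem A8a_geo (T b : ℕ) (j a : ℤ) (hT : 40 ≤ T) (hb : 1 ≤ b) (hab : |a| ≤ b)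
    (ha : a ∈ Ioc (Iu T b j) (Iu T b (j + 1))) :
    (j : ℝ) / T < (a : ℝ) / b ∧ (a : ℝ) / b ≤ (j : ℝ) / T + 1 / T ∧ |(a : ℝ) / b| ≤ 1 ∧
      |(j : ℝ) / T| ≤ 1.03 := by
  have hT0 : (40 : ℝ) ≤ T := by exact_mod_cast hT
  have hb0 : (0 : ℝ) < b := by exact_mod_cast hb
  rw [mem_Ioc] at ha
  unfold Iu at ha
  rw [Int.floor_lt, Int.le_floor] at ha
  obtain ⟨h1, h2⟩ := ha
  have h3 : (j : ℝ) / T < (a : ℝ) / b := by
    rw [lt_div_iff₀ hb0]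
    exact h1
  have h4 : (a : ℝ) / b ≤ (j : ℝ) / T + 1 / T := by
    rw [div_le_iff₀ hb0]
    refine h2.trans (le_of_eq ?_)
    push_cast
    ring
  have h5 : |(a : ℝ) / b| ≤ 1 := by
    rw [abs_div, abs_of_pos hb0, div_le_one hb0]
    exact_mod_cast hab
  have h6 : 1 / (T : ℝ) ≤ 1 / 40 := one_div_le_one_div_of_le (by norm_num) hT0
  refine ⟨h3, h4, h5, ?_⟩
  have h7 : (1.03 : ℝ) = 103 / 100 := by norm_num
  rw [h7]
  rw [abs_le] at h5 ⊢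
  constructor
  · linarith [h5.1]
  · linarith [h5.2]

/-- the two bounds -/
theorem A8a_psi (T b : ℕ) (j a : ℤ) (hT : 40 ≤ T) (hb : 1 ≤ b) (hab : |a| ≤ b)
    (ha : a ∈ Ioc (Iu T b j) (Iu T b (j + 1))) {σ : ℝ} (h0 : 0 ≤ σ) (h1 : σ ≤ 1) :
    |(σ + (a : ℝ) / b) / (1 + ((a : ℝ) / b) ^ 2) - (σ + (j : ℝ) / T) / (1 + ((j : ℝ) / T) ^ 2)| ≤
      5 / (T : ℝ) := by
  obtain ⟨g1, g2, g3, g4⟩ := A8a_geo T b j a hT hb hab ha
  refine (A8a_lip h0 h1 (g3.trans (by norm_num)) g4).trans ?_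
  have h2 : |(a : ℝ) / b - (j : ℝ) / T| ≤ 1 / T := by
    rw [abs_le]
    constructor
    · have : (0 : ℝ) ≤ 1 / T := by positivity
      linarith
    · linarith
  have h3 : (5 : ℝ) / T = 5 * (1 / T) := by ring
  rw [h3]
  linarith

/-- the relation between `c` and `s` -/
theorem A8a_rel (N b : ℕ) (a c s : ℤ) (hN : 1 ≤ N) (hb : 1 ≤ b)
    (hs : s * b = c * (a ^ 2 + (b : ℤ) ^ 2) - a * N) :
    (c : ℝ) * b / N * (1 + ((a : ℝ) / b) ^ 2) = (s : ℝ) / N + (a : ℝ) / b := by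
  have hN0 : (0 : ℝ) < N := by exact_mod_cast hN
  have hb0 : (0 : ℝ) < b := by exact_mod_cast hb
  have h : (s : ℝ) * b = c * (a ^ 2 + (b : ℝ) ^ 2) - a * N := by exact_mod_cast hs
  field_simp
  linear_combination (-1 : ℝ) * h

theorem A8a_lt {N b : ℕ} (hN : 1 ≤ N) (hb : 1 ≤ b) (P c : ℝ) :
    (N : ℝ) / b * P < c ↔ P < c * b / N := by
  have hN0 : (0 : ℝ) < N := by exact_mod_cast hN
  have hb0 : (0 : ℝ) < b := by exact_mod_cast hb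
  rw [lt_div_iff₀ hN0, div_mul_eq_mul_div, div_lt_iff₀ hb0, mul_comm P]

theorem A8a_le {N b : ℕ} (hN : 1 ≤ N) (hb : 1 ≤ b) (P c : ℝ) :
    c ≤ (N : ℝ) / b * P ↔ c * b / N ≤ P := by
  rw [← not_lt, ← not_lt, A8a_lt hN hb]

/-- [PTW-A8a1] Proof. `r = a / b ∈ (j / T, (j + 1) / T]`, `|r| ≤ 1`, so `|j / T| ≤ 1 + 1/T ≤ 1.03`. `c b / N = (σ + r) / (1 + r ^ 2)` with `σ = s / N` (from `s b = c m - a N`, `m = a ^ 2 + b ^ 2`).
`|(σ + r) / (1 + r ^ 2) - (σ + r') / (1 + r' ^ 2)| = |r - r'| |1 - r r' - σ (r + r')| / ((1 + r^2)(1 + r'^2)) ≤ 5 |r - r'|` for `0 ≤ σ ≤ 1`, `|r|, |r'| ≤ 1.03` (use it with `σ = 0` and `σ = 1`).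
`c > (N / b) (ψ₀(j/T) + 5/T) ≥ (N / b) ψ₀(r)`, so `σ > 0`; the same at the other end. -/
theorem slice1 (N T b : ℕ) (j a c s : ℤ) (hN : 1 ≤ N) (hT : 40 ≤ T) (hb : 1 ≤ b) (hab : |a| ≤ b)
    (ha : a ∈ Ioc (Iu T b j) (Iu T b (j + 1))) (hs : s * b = c * (a ^ 2 + (b : ℤ) ^ 2) - a * N)
    (hc : c ∈ Ioc (Js N T b j) (Jt N T b j)) : 1 ≤ s ∧ s ≤ N := by
  have hN0 : (0 : ℝ) < N := by exact_mod_cast hN
  have hrel := A8a_rel N b a c s hN hb hs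
  have q0 := A8a_psi T b j a hT hb hab ha (σ := 0) le_rfl zero_le_one
  have q1 := A8a_psi T b j a hT hb hab ha (σ := 1) zero_le_one le_rfl
  rw [zero_add, zero_add] at q0
  rw [mem_Ioc] at hc
  unfold Js Jt at hc
  rw [Int.floor_lt, Int.le_floor, A8a_lt hN hb, A8a_le hN hb] at hc
  obtain ⟨h1, h2⟩ := hc
  have d1 : (0 : ℝ) < 1 + ((a : ℝ) / b) ^ 2 := by positivity
  rw [abs_le] at q0 q1
  constructor
  · have h3 : (a : ℝ) / b / (1 + ((a : ℝ) / b) ^ 2) < (c : ℝ) * b / N := by linarith [q0.2]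
    rw [div_lt_iff₀ d1, hrel] at h3
    have h4 : (0 : ℝ) < (s : ℝ) / N := by linarith
    rw [lt_div_iff₀ hN0, zero_mul] at h4
    exact_mod_cast h4
  · have h3 : (c : ℝ) * b / N ≤ (1 + (a : ℝ) / b) / (1 + ((a : ℝ) / b) ^ 2) := by linarith [q1.1]
    rw [le_div_iff₀ d1, hrel] at h3
    have h4 : (s : ℝ) / N ≤ 1 := by linarith
    rw [div_le_one hN0] at h4
    exact_mod_cast h4

/-- [PTW-A8a2] Proof. As before: `c b / N = ψ_σ(r) = ψ₀(r) + σ / (1 + r ^ 2) ≥ ψ₀(j / T) - 5 / T + 25 / (2.1 T) > ψ₀(j / T) + 5 / T`, and the same at the other end (`ψ_σ(r) = ψ₁(r) - (1 - σ) / (1 + r ^ 2)`). -/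
theorem slice2 (N T b : ℕ) (j a c s : ℤ) (hN : 1 ≤ N) (hT : 40 ≤ T) (hb : 1 ≤ b) (hab : |a| ≤ b)
    (ha : a ∈ Ioc (Iu T b j) (Iu T b (j + 1))) (hs : s * b = c * (a ^ 2 + (b : ℤ) ^ 2) - a * N)
    (h1 : 25 * N / T ≤ (s : ℝ)) (h2 : (s : ℝ) ≤ N - 25 * N / T) : c ∈ Ioc (Js N T b j) (Jt N T b j) := by
  have hN0 : (0 : ℝ) < N := by exact_mod_cast hN
  have hT0 : (0 : ℝ) < T := by
    have : 0 < T := by omega
    exact_mod_cast this
  have hrel := A8a_rel N b a c s hN hb hs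
  have q0 := A8a_psi T b j a hT hb hab ha (σ := 0) le_rfl zero_le_one
  have q1 := A8a_psi T b j a hT hb hab ha (σ := 1) zero_le_one le_rfl
  have g3 := (A8a_geo T b j a hT hb hab ha).2.2.1
  rw [zero_add, zero_add] at q0
  rw [mem_Ioc]
  unfold Js Jt
  rw [Int.floor_lt, Int.le_floor, A8a_lt hN hb, A8a_le hN hb]
  have d1 : (0 : ℝ) < 1 + ((a : ℝ) / b) ^ 2 := by positivity
  have d2 : 1 + ((a : ℝ) / b) ^ 2 ≤ 2 := by
    have := (sq_le_one_iff_abs_le_one _).2 g3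
    linarith
  have hc : (c : ℝ) * b / N = ((s : ℝ) / N + (a : ℝ) / b) / (1 + ((a : ℝ) / b) ^ 2) := by
    rw [eq_div_iff d1.ne', hrel]
  have s1 : 25 / (T : ℝ) ≤ (s : ℝ) / N := by
    rw [le_div_iff₀ hN0]
    refine le_trans (le_of_eq ?_) h1
    ring
  have s2 : (s : ℝ) / N ≤ 1 - 25 / (T : ℝ) := by
    rw [div_le_iff₀ hN0]
    refine h2.trans (le_of_eq ?_)
    ring
  have hT5 : (0 : ℝ) < 1 / T := by positivity
  have e25 : 25 / (T : ℝ) = 25 * (1 / T) := by ring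
  have e5 : 5 / (T : ℝ) = 5 * (1 / T) := by ring
  rw [e25] at s1 s2
  rw [e5] at q0 q1
  rw [e5, hc]
  rw [abs_le] at q0 q1
  constructor
  · have h3 : (25 / 2) * (1 / (T : ℝ)) ≤ (s : ℝ) / N / (1 + ((a : ℝ) / b) ^ 2) := by
      rw [le_div_iff₀ d1]
      have := mul_le_mul_of_nonneg_left d2 (mul_nonneg (by norm_num : (0 : ℝ) ≤ 25 / 2) hT5.le)
      linarith
    rw [add_div]
    linarith [q0.1]
  · have h3 : (25 / 2) * (1 / (T : ℝ)) ≤ (1 - (s : ℝ) / N) / (1 + ((a : ℝ) / b) ^ 2) := by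
      rw [le_div_iff₀ d1]
      have := mul_le_mul_of_nonneg_left d2 (mul_nonneg (by norm_num : (0 : ℝ) ≤ 25 / 2) hT5.le)
      linarith
    have h4 : ((s : ℝ) / N + (a : ℝ) / b) / (1 + ((a : ℝ) / b) ^ 2) =
        (1 + (a : ℝ) / b) / (1 + ((a : ℝ) / b) ^ 2) -
          (1 - (s : ℝ) / N) / (1 + ((a : ℝ) / b) ^ 2) := by
      rw [← sub_div]
      congr 1
      ring
    rw [h4]
    linarith [q1.2]

/-- [PTW-A8a3] Proof. `#(Js, Jt] = (N / b) (1 / (1 + (j/T) ^ 2) - 10 / T) + O(1)` with `|O(1)| ≤ 1` (this main value is positive), `N / m = (N / b ^ 2) / (1 + r ^ 2)`,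
`|1 / (1 + (j/T) ^ 2) - 1 / (1 + r ^ 2)| ≤ |r - j/T| |r + j/T| ≤ 2.1 / T`. -/
theorem slice3 (N T b k : ℕ) (j a : ℤ) (hN : 1 ≤ N) (hT : 40 ≤ T) (hb : 1 ≤ b) (hk : 1 ≤ k) (hab : |a| ≤ b)
    (ha : a ∈ Ioc (Iu T b j) (Iu T b (j + 1))) :
    |((Ioc (Js N T b j) (Jt N T b j)).card : ℝ) / (b * k) - N / ((a ^ 2 + (b : ℤ) ^ 2 : ℤ) * k)| ≤ 13 * N / (T * b ^ 2 * k) + 1 / (b * k) := by
  obtain ⟨g1, g2, g3, g4⟩ := A8a_geo T b j a hT hb hab ha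
  have hN0 : (0 : ℝ) < N := by exact_mod_cast hN
  have hb0 : (0 : ℝ) < b := by exact_mod_cast hb
  have hk0 : (0 : ℝ) < k := by exact_mod_cast hk
  have hT40 : (40 : ℝ) ≤ T := by exact_mod_cast hT
  have hT0 : (0 : ℝ) < T := by linarith
  have hT5 : (0 : ℝ) < 1 / T := by positivity
  have hT6 : 1 / (T : ℝ) ≤ 1 / 40 := one_div_le_one_div_of_le (by norm_num) hT40
  -- the difference of the end points
  have hcard : |((Ioc (Js N T b j) (Jt N T b j)).card : ℝ) -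
      (N : ℝ) / b * (1 / (1 + ((j : ℝ) / T) ^ 2) - 10 / T)| ≤ 1 := by
    have d2 : (0 : ℝ) < 1 + ((j : ℝ) / T) ^ 2 := by positivity
    have e : (N : ℝ) / b * (1 / (1 + ((j : ℝ) / T) ^ 2) - 10 / T) =
        (N : ℝ) / b * ((1 + j / T) / (1 + ((j : ℝ) / T) ^ 2) - 5 / T) -
        (N : ℝ) / b * ((j / T) / (1 + ((j : ℝ) / T) ^ 2) + 5 / T) := by
      rw [add_div]
      ring
    have hpos : 0 ≤ (N : ℝ) / b * (1 / (1 + ((j : ℝ) / T) ^ 2) - 10 / T) := by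
      refine mul_nonneg (by positivity) ?_
      have h1 : ((j : ℝ) / T) ^ 2 ≤ 1.03 ^ 2 := sq_le_sq' (abs_le.1 g4).1 (abs_le.1 g4).2
      have h2 : 1 / (1 + (1.03 : ℝ) ^ 2) ≤ 1 / (1 + ((j : ℝ) / T) ^ 2) :=
        one_div_le_one_div_of_le d2 (by linarith)
      have h3 : (10 : ℝ) / T = 10 * (1 / T) := by ring
      rw [h3]
      norm_num at h2 hT6 ⊢
      linarith
    rw [e] at hpos ⊢
    rw [Int.card_Ioc]
    unfold Js Jt
    generalize (N : ℝ) / b * ((1 + j / T) / (1 + ((j : ℝ) / T) ^ 2) - 5 / T) = y at hpos ⊢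
    generalize (N : ℝ) / b * ((j / T) / (1 + ((j : ℝ) / T) ^ 2) + 5 / T) = x at hpos ⊢
    have h1 : ⌊x⌋ ≤ ⌊y⌋ := Int.floor_le_floor (by linarith)
    have h2 : (((⌊y⌋ - ⌊x⌋).toNat : ℕ) : ℝ) = (⌊y⌋ : ℝ) - ⌊x⌋ := by
      have h3 : (((⌊y⌋ - ⌊x⌋).toNat : ℕ) : ℤ) = ⌊y⌋ - ⌊x⌋ := Int.toNat_of_nonneg (by omega)
      have h4 : (((⌊y⌋ - ⌊x⌋).toNat : ℕ) : ℝ) = ((((⌊y⌋ - ⌊x⌋).toNat : ℕ) : ℤ) : ℝ) := by
        rw [Int.cast_natCast]
      rw [h4, h3]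
      push_cast
      ring
    rw [h2, abs_le]
    have f1 := Int.floor_le x
    have f2 := Int.lt_floor_add_one x
    have f3 := Int.floor_le y
    have f4 := Int.lt_floor_add_one y
    constructor <;> linarith
  generalize ((Ioc (Js N T b j) (Jt N T b j)).card : ℝ) = Cd at hcard
  -- the densities
  have hden : |1 / (1 + ((j : ℝ) / T) ^ 2) - 1 / (1 + ((a : ℝ) / b) ^ 2)| ≤ 3 / (T : ℝ) := by
    generalize (j : ℝ) / T = q at g1 g2 g4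
    generalize (a : ℝ) / b = r at g1 g2 g3
    have d1 : 0 < 1 + r ^ 2 := by positivity
    have d2 : 0 < 1 + q ^ 2 := by positivity
    have e : 1 / (1 + q ^ 2) - 1 / (1 + r ^ 2) = ((r + q) / ((1 + q ^ 2) * (1 + r ^ 2))) *
        (r - q) := by
      field_simp
      ring
    rw [e, abs_mul]
    have h1 : |r - q| ≤ 1 / T := by
      rw [abs_le]
      constructor <;> linarith
    have h2 : |(r + q) / ((1 + q ^ 2) * (1 + r ^ 2))| ≤ 3 := by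
      rw [abs_div, abs_of_pos (mul_pos d2 d1), div_le_iff₀ (mul_pos d2 d1)]
      have h5 : 1 ≤ (1 + q ^ 2) * (1 + r ^ 2) := by
        have := mul_nonneg (sq_nonneg r) (sq_nonneg q)
        nlinarith [sq_nonneg r, sq_nonneg q]
      have h6 : |r + q| ≤ 3 := by
        refine (abs_add_le _ _).trans ?_
        linarith
      linarith
    have h3 : (3 : ℝ) / T = 3 * (1 / T) := by ring
    rw [h3]
    exact mul_le_mul h2 h1 (abs_nonneg _) (by norm_num)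
  have e1 : (N : ℝ) / (((a ^ 2 + (b : ℤ) ^ 2 : ℤ) : ℝ) * k) =
      (N : ℝ) / (b ^ 2 * k) * (1 / (1 + ((a : ℝ) / b) ^ 2)) := by
    push_cast
    have d3 : (0 : ℝ) < (a : ℝ) ^ 2 + (b : ℝ) ^ 2 := by positivity
    have e2 : 1 + ((a : ℝ) / b) ^ 2 = ((a : ℝ) ^ 2 + (b : ℝ) ^ 2) / (b : ℝ) ^ 2 := by
      field_simp
      ring
    rw [e2]
    field_simp
  have e3 : Cd / (b * k) - (N : ℝ) / (b ^ 2 * k) * (1 / (1 + ((a : ℝ) / b) ^ 2)) =
      (Cd - (N : ℝ) / b * (1 / (1 + ((j : ℝ) / T) ^ 2) - 10 / T)) * (1 / (b * k)) +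
      (N : ℝ) / (b ^ 2 * k) * ((1 / (1 + ((j : ℝ) / T) ^ 2) - 1 / (1 + ((a : ℝ) / b) ^ 2)) -
        10 / T) := by
    generalize 1 / (1 + ((a : ℝ) / b) ^ 2) = R
    generalize 1 / (1 + ((j : ℝ) / T) ^ 2) = Q
    field_simp
    ring
  rw [e1, e3]
  generalize Cd - (N : ℝ) / b * (1 / (1 + ((j : ℝ) / T) ^ 2) - 10 / T) = E1 at hcard ⊢
  generalize 1 / (1 + ((j : ℝ) / T) ^ 2) - 1 / (1 + ((a : ℝ) / b) ^ 2) = E2 at hden ⊢
  have hA : |E1 * (1 / ((b : ℝ) * k))| ≤ 1 / (b * k) := by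
    rw [abs_mul, abs_of_pos (by positivity : (0 : ℝ) < 1 / (b * k))]
    exact (mul_le_mul_of_nonneg_right hcard (by positivity)).trans (le_of_eq (one_mul _))
  have hB : |(N : ℝ) / (b ^ 2 * k) * (E2 - 10 / T)| ≤ 13 * (N : ℝ) / (T * b ^ 2 * k) := by
    rw [abs_mul, abs_of_pos (by positivity : (0 : ℝ) < (N : ℝ) / (b ^ 2 * k))]
    have h1 : |E2 - 10 / (T : ℝ)| ≤ 13 / (T : ℝ) := by
      rw [abs_le] at hden ⊢
      have h2 : (13 : ℝ) / T = 13 * (1 / T) := by ring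
      have h3 : (10 : ℝ) / T = 10 * (1 / T) := by ring
      have h4 : (3 : ℝ) / T = 3 * (1 / T) := by ring
      rw [h4] at hden
      rw [h2, h3]
      constructor <;> linarith [hden.1, hden.2]
    refine (mul_le_mul_of_nonneg_left h1 (by positivity)).trans (le_of_eq ?_)
    field_simp
  refine (abs_add_le _ _).trans ?_
  linarith

/-- [PTW-A8a4] Proof. `|⌊x⌋ - ⌊y⌋| ≤ ⌈x - y⌉`; for `b ≥ 1`, `b / T ≤ b`; if `b < T` the length is at most `1 ≤ b`. `#(Js, Jt] ≤ N / b + 1 ≤ 2 N / b` for `b ≤ N`. -/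
theorem slice4 (N T b : ℕ) (j : ℤ) (hT : 40 ≤ T) (hb : 1 ≤ b) (hbN : b ≤ N) :
    Iu T b (j + 1) - Iu T b j ≤ b ∧ ((Ioc (Js N T b j) (Jt N T b j)).card : ℝ) ≤ 3 * N / b := by
  have hb0 : (0 : ℝ) < b := by exact_mod_cast hb
  have hT40 : (40 : ℝ) ≤ T := by exact_mod_cast hT
  have hT0 : (0 : ℝ) < T := by linarith
  have hbN' : (b : ℝ) ≤ N := by exact_mod_cast hbN
  constructor
  · unfold Iu
    have f1 := Int.lt_floor_add_one ((j : ℝ) / T * b)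
    have f2 := Int.floor_le (((j + 1 : ℤ) : ℝ) / T * b)
    have h1 : ((j + 1 : ℤ) : ℝ) / T * b = (j : ℝ) / T * b + b / T := by
      push_cast
      ring
    have h2 : (b : ℝ) / T ≤ b := by
      rw [div_le_iff₀ hT0]
      nlinarith
    have h3 : ((⌊((j + 1 : ℤ) : ℝ) / T * b⌋ - ⌊(j : ℝ) / T * b⌋ : ℤ) : ℝ) < ((b : ℤ) : ℝ) + 1 := by
      push_cast at f2 h1 ⊢
      linarith
    have h4 : ⌊((j + 1 : ℤ) : ℝ) / T * b⌋ - ⌊(j : ℝ) / T * b⌋ < (b : ℤ) + 1 := by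
      exact_mod_cast h3
    omega
  · rw [Int.card_Ioc]
    have d2 : (0 : ℝ) < 1 + ((j : ℝ) / T) ^ 2 := by positivity
    have hNb : 1 ≤ (N : ℝ) / b := by
      rw [le_div_iff₀ hb0]
      linarith
    have h0 : 3 * (N : ℝ) / b = 3 * ((N : ℝ) / b) := by ring
    have h1 : (N : ℝ) / b * ((1 + j / T) / (1 + ((j : ℝ) / T) ^ 2) - 5 / T) -
        (N : ℝ) / b * ((j / T) / (1 + ((j : ℝ) / T) ^ 2) + 5 / T) ≤ (N : ℝ) / b := by
      have e : (N : ℝ) / b * ((1 + j / T) / (1 + ((j : ℝ) / T) ^ 2) - 5 / T) -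
        (N : ℝ) / b * ((j / T) / (1 + ((j : ℝ) / T) ^ 2) + 5 / T) =
          (N : ℝ) / b * (1 / (1 + ((j : ℝ) / T) ^ 2) - 10 / T) := by
        rw [add_div]
        ring
      rw [e]
      have h2 : 1 / (1 + ((j : ℝ) / T) ^ 2) ≤ 1 := by
        rw [div_le_one d2]
        have := sq_nonneg ((j : ℝ) / T)
        linarith
      have h3 : (0 : ℝ) ≤ 10 / T := by positivity
      calc (N : ℝ) / b * (1 / (1 + ((j : ℝ) / T) ^ 2) - 10 / T) ≤ (N : ℝ) / b * 1 :=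
            mul_le_mul_of_nonneg_left (by linarith) (by linarith)
        _ = (N : ℝ) / b := mul_one _
    unfold Js Jt
    generalize (N : ℝ) / b * ((1 + j / T) / (1 + ((j : ℝ) / T) ^ 2) - 5 / T) = y at h1 ⊢
    generalize (N : ℝ) / b * ((j / T) / (1 + ((j : ℝ) / T) ^ 2) + 5 / T) = x at h1 ⊢
    rw [h0]
    have f1 := Int.lt_floor_add_one x
    have f2 := Int.floor_le y
    rcases le_total ⌊x⌋ ⌊y⌋ with h | h
    · have h3 : (((⌊y⌋ - ⌊x⌋).toNat : ℕ) : ℤ) = ⌊y⌋ - ⌊x⌋ := Int.toNat_of_nonneg (by omega)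
      have h4 : (((⌊y⌋ - ⌊x⌋).toNat : ℕ) : ℝ) = ((((⌊y⌋ - ⌊x⌋).toNat : ℕ) : ℤ) : ℝ) := by
        rw [Int.cast_natCast]
      rw [h4, h3]
      push_cast
      linarith
    · have h3 : (⌊y⌋ - ⌊x⌋).toNat = 0 := Int.toNat_of_nonpos (by omega)
      rw [h3]
      push_cast
      linarith

/-- [PTW-A8a5] every `a` with `|a| ≤ b` lies in exactly one slice; `- T - 1 ≤ j ≤ T`. Proof. `j = ⌈a T / b⌉ - 1`. -/
theorem slice5 (T b : ℕ) (a : ℤ) (hT : 40 ≤ T) (hb : 1 ≤ b) (hab : |a| ≤ b) :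
    ∃ j ∈ Icc (-(T : ℤ) - 1) T, a ∈ Ioc (Iu T b j) (Iu T b (j + 1)) := by
  have hb0 : (0 : ℝ) < b := by exact_mod_cast hb
  have hT40 : (40 : ℝ) ≤ T := by exact_mod_cast hT
  have hT0 : (0 : ℝ) < T := by linarith
  have hab' : |(a : ℝ)| ≤ b := by exact_mod_cast hab
  rw [abs_le] at hab'
  have f1 := Int.le_ceil ((a : ℝ) * T / b)
  have f2 := Int.ceil_lt_add_one ((a : ℝ) * T / b)
  refine ⟨⌈(a : ℝ) * T / b⌉ - 1, ?_, ?_⟩
  · rw [mem_Icc]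
    constructor
    · have h1 : -(T : ℝ) ≤ (a : ℝ) * T / b := by
        rw [le_div_iff₀ hb0]
        nlinarith [hab'.1]
      have h2 : (((-(T : ℤ)) : ℤ) : ℝ) ≤ (⌈(a : ℝ) * T / b⌉ : ℝ) := by
        push_cast
        linarith
      have h3 : -(T : ℤ) ≤ ⌈(a : ℝ) * T / b⌉ := by exact_mod_cast h2
      omega
    · have h1 : (a : ℝ) * T / b ≤ T := by
        rw [div_le_iff₀ hb0]
        nlinarith [hab'.2]
      have h2 : ⌈(a : ℝ) * T / b⌉ ≤ (T : ℤ) := by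
        rw [Int.ceil_le]
        push_cast
        exact h1
      omega
  · rw [mem_Ioc]
    unfold Iu
    rw [Int.floor_lt, Int.le_floor]
    constructor
    · rw [← lt_div_iff₀ hb0, div_lt_iff₀ hT0]
      push_cast
      have e : (a : ℝ) / b * T = (a : ℝ) * T / b := by ring
      rw [e]
      linarith
    · rw [← div_le_iff₀ hb0, le_div_iff₀ hT0]
      push_cast
      have e : (a : ℝ) / b * T = (a : ℝ) * T / b := by ring
      rw [e]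
      linarith

end Pool.Agent.PTW
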