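import Pool.Agent.PTW.A8a

set_option autoImplicit false

namespace Pool.Agent.PTW

open Finset

/-- [PTW-A8b] Proof. `bij1`, `bij2` and `slice1`, `slice2`: `c ↦ s = (c m - a N) / b` maps the `c ∈ (Js, Jt]` counted by `cJ` injectively into the `s ∈ [1, N]` counted by `cs`; every counted `s` outside the margin set `Mg` is hit. -/
theorem cs_cJ (N T m k v w b : ℕ) (j a : ℤ) (hN : 1 ≤ N) (hT : 40 ≤ T) (hb : 1 ≤ b) (hk : 1 ≤ k) (hab : |a| ≤ b)
    (ha : a ∈ Ioc (Iu T b j) (Iu T b (j + 1))) (hm : a ^ 2 + (b : ℤ) ^ 2 = m) (hmk : Nat.Coprime m k) (hv : v ∈ roots m) (hw : w ∈ roots k)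
    (hvab : (m : ℤ) ∣ b - v * a) :
    cJ N (Js N T b j) (Jt N T b j) a b k w ≤ cs N m k v w (Icc 1 N) ∧
    cs N m k v w (Icc 1 N) ≤ cJ N (Js N T b j) (Jt N T b j) a b k w + cs N m k v w (Mg N T) := by
  classical
  have hv1 : m ∣ v ^ 2 + 1 := (mem_filter.1 hv).2
  have hw1 : k ∣ w ^ 2 + 1 := (mem_filter.1 hw).2
  have hb' : (1 : ℤ) ≤ b := by exact_mod_cast hb
  have hb0 : (b : ℤ) ≠ 0 := by omega
  have hm0 : (m : ℤ) ≠ 0 := by
    rw [← hm]
    positivity
  constructor
  · unfold cJ cs
    apply Finset.card_le_card_of_injOn (fun c : ℤ => ((c * m - a * N) / b).toNat)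
    · intro c hc
      have hc' := mem_filter.1 (Finset.mem_coe.1 hc)
      have h1 : (b : ℤ) * k ∣ c * (a - b * w) - N := by
        have := hc'.2
        push_cast at this
        exact this
      obtain ⟨s, hs, hs1, hs2⟩ := bij1 N m k v w a b c hb' hm hv1 hw1 hvab h1
      have hs' : s * b = c * (a ^ 2 + (b : ℤ) ^ 2) - a * N := by rw [hm, hs]
      obtain ⟨k1, k2⟩ := slice1 N T b j a c s hN hT hb hab ha hs' hc'.1
      have hq : (c * m - a * N) / b = s := by
        rw [← hs, Int.mul_ediv_cancel _ hb0]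
      have hst : ((s.toNat : ℕ) : ℤ) = s := Int.toNat_of_nonneg (by omega)
      simp only [hq]
      rw [Finset.mem_coe, mem_filter, mem_Icc, hst]
      refine ⟨⟨by omega, by omega⟩, hs1, hs2⟩
    · intro c hc c' hc' hcc
      have hc1 := mem_filter.1 (Finset.mem_coe.1 hc)
      have hc1' := mem_filter.1 (Finset.mem_coe.1 hc')
      have h1 : (b : ℤ) * k ∣ c * (a - b * w) - N := by
        have := hc1.2
        push_cast at this
        exact this
      have h1' : (b : ℤ) * k ∣ c' * (a - b * w) - N := by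
        have := hc1'.2
        push_cast at this
        exact this
      obtain ⟨s, hs, -, -⟩ := bij1 N m k v w a b c hb' hm hv1 hw1 hvab h1
      obtain ⟨s', hs', -, -⟩ := bij1 N m k v w a b c' hb' hm hv1 hw1 hvab h1'
      have e1 : s * b = c * (a ^ 2 + (b : ℤ) ^ 2) - a * N := by rw [hm, hs]
      have e1' : s' * b = c' * (a ^ 2 + (b : ℤ) ^ 2) - a * N := by rw [hm, hs']
      obtain ⟨k1, k2⟩ := slice1 N T b j a c s hN hT hb hab ha e1 hc1.1
      obtain ⟨k1', k2'⟩ := slice1 N T b j a c' s' hN hT hb hab ha e1' hc1'.1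
      have hq : (c * m - a * N) / b = s := by
        rw [← hs, Int.mul_ediv_cancel _ hb0]
      have hq' : (c' * m - a * N) / b = s' := by
        rw [← hs', Int.mul_ediv_cancel _ hb0]
      simp only [hq, hq'] at hcc
      have h2 : s = s' := by omega
      have h3 : c * m = c' * m := by
        rw [h2] at hs
        linarith
      exact mul_right_cancel₀ hm0 h3
  · have hsplit := Finset.card_filter_add_card_filter_not (s := (Icc 1 N).filter (fun s : ℕ => (m : ℤ) ∣ s - N * v ∧ (k : ℤ) ∣ s - N * w)) (fun s => s ∈ Mg N T)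
    unfold cs
    rw [← hsplit, add_comm]
    apply Nat.add_le_add
    · unfold cJ
      apply Finset.card_le_card_of_injOn (fun s : ℕ => ((s : ℤ) * b + a * N) / m)
      · intro s hs
        have hs1 := mem_filter.1 (Finset.mem_coe.1 hs)
        have hs2 := mem_filter.1 hs1.1
        obtain ⟨c, hc, hd⟩ := bij2 N m k v w a b s hb' hm hv1 hw1 hvab hmk hs2.2.1 hs2.2.2
        have hq : ((s : ℤ) * b + a * N) / m = c := by
          have : (s : ℤ) * b + a * N = c * m := by linarith
          rw [this, Int.mul_ediv_cancel _ hm0]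
        have hnot : ¬ ((s : ℝ) < 25 * N / T ∨ (N : ℝ) - 25 * N / T < s) := by
          intro h
          exact hs1.2 (by unfold Mg; exact mem_filter.2 ⟨hs2.1, h⟩)
        push Not at hnot
        have e1 : (s : ℤ) * b = c * (a ^ 2 + (b : ℤ) ^ 2) - a * N := by rw [hm, hc]
        have h4 := slice2 N T b j a c s hN hT hb hab ha e1 (by exact_mod_cast hnot.1) (by exact_mod_cast hnot.2)
        simp only [hq]
        rw [Finset.mem_coe, mem_filter]
        refine ⟨h4, ?_⟩
        push_cast
        exact hd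
      · intro s hs s' hs' hss
        have hs1 := mem_filter.1 (mem_filter.1 (Finset.mem_coe.1 hs)).1
        have hs1' := mem_filter.1 (mem_filter.1 (Finset.mem_coe.1 hs')).1
        obtain ⟨c, hc, -⟩ := bij2 N m k v w a b s hb' hm hv1 hw1 hvab hmk hs1.2.1 hs1.2.2
        obtain ⟨c', hc', -⟩ := bij2 N m k v w a b s' hb' hm hv1 hw1 hvab hmk hs1'.2.1 hs1'.2.2
        have hq : ((s : ℤ) * b + a * N) / m = c := by
          have : (s : ℤ) * b + a * N = c * m := by linarith
          rw [this, Int.mul_ediv_cancel _ hm0]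
        have hq' : ((s' : ℤ) * b + a * N) / m = c' := by
          have : (s' : ℤ) * b + a * N = c' * m := by linarith
          rw [this, Int.mul_ediv_cancel _ hm0]
        simp only [hq, hq'] at hss
        rw [← hss] at hc'
        have h3 : (s : ℤ) * b = s' * b := by rw [hc, hc']
        have h4 : (s : ℤ) = s' := mul_right_cancel₀ hb0 h3
        exact_mod_cast h4
    · apply Finset.card_le_card
      intro s hs
      have hs1 := mem_filter.1 hs
      exact mem_filter.2 ⟨hs1.2, (mem_filter.1 hs1.1).2⟩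

end Pool.Agent.PTW
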