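import Mathlib

/-!
# [PTW] almost primes `n ^ 2 + s ^ 2`, `s < n`: definitions
-/

set_option autoImplicit false

namespace Pool.Agent.PTW

open Finset

/-- the number of `s ∈ [1, N]` with `d ∣ N ^ 2 + s ^ 2` -/
def cA (N d : ℕ) : ℕ := ((Icc 1 N).filter (fun s => d ∣ N ^ 2 + s ^ 2)).card

/-- the roots of `-1` modulo `d` -/
def roots (d : ℕ) : Finset ℕ := (range d).filter (fun v => d ∣ v ^ 2 + 1)

/-- the number of roots of `-1` modulo `d` -/
def rho (d : ℕ) : ℕ := (roots d).card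

/-- the local density of `p ∣ N ^ 2 + s ^ 2` -/
noncomputable def g (N p : ℕ) : ℝ := (((range p).filter (fun s => p ∣ N ^ 2 + s ^ 2)).card : ℝ) / p

/-- the density of the squarefree `d` -/
noncomputable def gg (N d : ℕ) : ℝ := ∏ p ∈ d.primeFactors, g N p

/-- the primes up to `2 ^ E` -/
def SP (E : ℕ) : Finset ℕ := (Icc 1 (2 ^ E)).filter Nat.Prime

/-- the index of the cell of `p`: `x ^ ((ix - 1) / n) ≤ p < x ^ (ix / n)` -/
noncomputable def ix (n : ℕ) (x : ℝ) (p : ℕ) : ℕ := ⌊n * Real.log p / Real.log x⌋₊ + 1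

/-- the Rosser weight (`β = 2`) of a non-increasing list of indices; `true` = upper bound sieve -/
noncomputable def lamL : Bool → ℕ → List ℕ → ℝ
  | _, _, [] => 1
  | true, l, i :: t => if 3 * i ≤ l then - lamL false (l - i) t else 0
  | false, l, i :: t => - lamL true (l - i) t

/-- the pattern of a set of primes: the indices of its members, in decreasing order of the members -/
noncomputable def pat (ix : ℕ → ℕ) (T : Finset ℕ) : List ℕ := (T.sort (· ≥ ·)).map ix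

/-- the Rosser weight of a set of primes -/
noncomputable def lam (ix : ℕ → ℕ) (up : Bool) (l : ℕ) (T : Finset ℕ) : ℝ := lamL up l (pat ix T)

/-- the sum of the weights with a multiplicative density `φ` over the subsets of `S` -/
noncomputable def MT (ix : ℕ → ℕ) (φ : ℕ → ℝ) (up : Bool) (l : ℕ) (S : Finset ℕ) : ℝ :=
  ∑ T ∈ S.powerset, lam ix up l T * ∏ p ∈ T, φ p

/-- the number of `c ∈ (u, v]` with `b k ∣ c (a - b w) - N` -/
noncomputable def cJ (N : ℕ) (u v a : ℤ) (b k w : ℕ) : ℕ :=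
  ((Ioc u v).filter (fun c : ℤ => ((b * k : ℕ) : ℤ) ∣ c * (a - b * w) - N)).card

/-- the finite Fourier coefficient of the interval `(u, v]` modulo `q` -/
noncomputable def cf (q : ℕ) [NeZero q] (u v : ℤ) (h : ZMod q) : ℂ :=
  (∑ c ∈ Ioc u v, ZMod.stdAddChar (-(h * (c : ZMod q)))) / q

open Classical in
/-- the complete sum: `∑ ψ (A (x - α)⁻¹ - B (x - β)⁻¹ + l x)` over the `x` mod `q` with `x ^ 2 - α ^ 2` a unit -/
noncomputable def CS (q : ℕ) [NeZero q] (α β A B l : ZMod q) : ℂ :=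
  ∑ x ∈ (univ : Finset (ZMod q)).filter (fun x => IsUnit (x ^ 2 - α ^ 2)),
    ZMod.stdAddChar (A * (x - α)⁻¹ - B * (x - β)⁻¹ + l * x)

/-- `e (x / q)` -/
noncomputable def ee (q : ℕ) (x : ℤ) : ℂ := Complex.exp (2 * Real.pi * Complex.I * x / q)

/-- an inverse of `z` modulo `q` -/
noncomputable def iv (q : ℕ) (z : ℤ) : ℤ := (((z : ZMod q)⁻¹).val : ℤ)

/-- the absolute least residues modulo `q` -/
noncomputable def Hs (q : ℕ) : Finset ℤ := (Icc (-(q : ℤ)) q).filter (fun h => -(q : ℤ) < 2 * h ∧ 2 * h ≤ q)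

/-- the Fourier coefficient of the interval `(u, v]` modulo `q`, integer frequency -/
noncomputable def cfi (q : ℕ) (u v H : ℤ) : ℂ := (∑ c ∈ Ioc u v, ee q (-(H * c))) / q

open Classical in
/-- the incomplete sum over `a ∈ (u, v]` -/
noncomputable def IS (N b k₁ k₂ w₁ w₂ : ℕ) (H₁ H₂ u v : ℤ) : ℂ :=
  ∑ a ∈ (Ioc u v).filter (fun a : ℤ => IsCoprime a (b : ℤ) ∧ IsCoprime (a ^ 2 + (b : ℤ) ^ 2) ((k₁ * k₂ : ℕ) : ℤ)),
    ee (b * k₁) (H₁ * (N * iv (b * k₁) (a - b * w₁))) * (starRingEnd ℂ) (ee (b * k₂) (H₂ * (N * iv (b * k₂) (a - b * w₂))))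

/-- the product of the primes `p` with `p ∣ b`, `p ^ 2 ∤ b`, `p ∤ L` -/
def bone (b L : ℕ) : ℕ := ∏ p ∈ b.primeFactors.filter (fun p => ¬ p ^ 2 ∣ b ∧ ¬ p ∣ L), p

/-- the deviation `∑_k β_k ∑_w (#{c ∈ (s, t] : b k ∣ c (a - b w) - N} - (t - s) / (b k))` over `k ∈ (K, 2K]` prime to `a ^ 2 + b ^ 2` -/
noncomputable def dev (N K : ℕ) (β : ℕ → ℝ) (s t a : ℤ) (b : ℕ) : ℝ :=
  ∑ k ∈ (Ioc K (2 * K)).filter (fun k : ℕ => Nat.Coprime k (a ^ 2 + (b : ℤ) ^ 2).natAbs),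
    β k * ∑ w ∈ roots k, ((cJ N s t a b k w : ℝ) - ((Ioc s t).card : ℝ) / (b * k))

/-- the number of `s ∈ S` with `s ≡ N v mod m`, `s ≡ N w mod k` -/
def cs (N m k v w : ℕ) (S : Finset ℕ) : ℕ := (S.filter (fun s : ℕ => (m : ℤ) ∣ s - N * v ∧ (k : ℤ) ∣ s - N * w)).card

/-- `(j / T, (j + 1) / T]` times `b`, as an integer interval -/
noncomputable def Iu (T b : ℕ) (j : ℤ) : ℤ := ⌊(j : ℝ) / T * b⌋

/-- end points of the interval of `c` of the slice `j` -/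
noncomputable def Js (N T b : ℕ) (j : ℤ) : ℤ := ⌊(N : ℝ) / b * ((j / T) / (1 + ((j : ℝ) / T) ^ 2) + 5 / T)⌋
noncomputable def Jt (N T b : ℕ) (j : ℤ) : ℤ := ⌊(N : ℝ) / b * ((1 + j / T) / (1 + ((j : ℝ) / T) ^ 2) - 5 / T)⌋

/-- the `s` near the ends of `[1, N]` -/
noncomputable def Mg (N T : ℕ) : Finset ℕ := (Icc 1 N).filter (fun s => (s : ℝ) < 25 * N / T ∨ (N : ℝ) - 25 * N / T < s)

end Pool.Agent.PTW
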