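import Pool.Agent.PTWB.FW
import Pool.Agent.PTW.Defs

/-!
# [PTW-B] fundamental lemma weights for the primes up to `2 ^ E`
-/

set_option autoImplicit false

namespace Pool.Agent.PTW

open Finset Filter

theorem mem_SP {E p : ℕ} : p ∈ SP E ↔ p.Prime ∧ p ≤ 2 ^ E := by
  unfold SP
  rw [mem_filter, mem_Icc]
  constructor
  · rintro ⟨⟨_, h1⟩, h2⟩
    exact ⟨h2, h1⟩
  · rintro ⟨h2, h1⟩
    exact ⟨⟨h2.one_lt.le, h1⟩, h2⟩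

/-- the sum over a set of divisors that contains the support -/
theorem FW_sum {E D : ℕ} {θ : ℕ → ℝ} (h : ∀ d, θ d ≠ 0 → d ∣ ∏ p ∈ SP E, p ∧ d ≤ D) (F : ℕ → ℝ) :
    ∑ d ∈ Icc 1 D, θ d * F d = ∑ d ∈ (∏ p ∈ SP E, p).divisors, θ d * F d := by
  have h0 : (∏ p ∈ SP E, p) ≠ 0 := Finset.prod_ne_zero_iff.2 fun p hp => (mem_SP.1 hp).1.ne_zero
  have e1 : ∑ d ∈ (Icc 1 D).filter (fun d => θ d ≠ 0), θ d * F d = ∑ d ∈ Icc 1 D, θ d * F d := by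
    apply Finset.sum_filter_of_ne
    intro d _ hd h1
    exact hd (by rw [h1, zero_mul])
  have e2 : ∑ d ∈ ((∏ p ∈ SP E, p).divisors).filter (fun d => θ d ≠ 0), θ d * F d =
      ∑ d ∈ (∏ p ∈ SP E, p).divisors, θ d * F d := by
    apply Finset.sum_filter_of_ne
    intro d _ hd h1
    exact hd (by rw [h1, zero_mul])
  rw [← e1, ← e2]
  refine Finset.sum_congr ?_ fun _ _ => rfl
  ext d
  rw [mem_filter, mem_filter, mem_Icc, Nat.mem_divisors]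
  constructor
  · rintro ⟨_, h2⟩
    exact ⟨⟨(h d h2).1, h0⟩, h2⟩
  · rintro ⟨⟨h1, _⟩, h2⟩
    exact ⟨⟨Nat.pos_of_dvd_of_pos h1 (Nat.pos_of_ne_zero h0), (h d h2).2⟩, h2⟩

theorem FLW_supp {E D : ℕ} {θ : ℕ → ℝ} (h : ∀ d, θ d ≠ 0 → d ∣ ∏ p ∈ SP E, p ∧ d ≤ D) {d : ℕ} (hd : θ d ≠ 0) :
    1 ≤ d ∧ Squarefree d ∧ d ≤ D ∧ ∀ p : ℕ, p.Prime → p ∣ d → p ≤ 2 ^ E := by
  obtain ⟨h1, h2⟩ := h d hd
  have hp : ∀ p ∈ SP E, p.Prime := fun p hp => (mem_SP.1 hp).1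
  have h0 : (∏ p ∈ SP E, p) ≠ 0 := Finset.prod_ne_zero_iff.2 fun p hq => (hp p hq).ne_zero
  refine ⟨Nat.pos_of_dvd_of_pos h1 (Nat.pos_of_ne_zero h0), (PTWB.sqf_prod hp).squarefree_of_dvd h1, h2, ?_⟩
  intro p hpp hpd
  obtain ⟨q, hq, hpq⟩ := (hpp.prime.dvd_finsetProd_iff _).1 (hpd.trans h1)
  have := (Nat.prime_dvd_prime_iff_eq hpp (hp q hq)).1 hpq
  rw [this]
  exact (mem_SP.1 hq).2

/-- [PTW-B] (FLW) -/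
theorem FLW : ∃ δ : ℕ → ℝ, (∀ b, 0 ≤ δ b) ∧ Tendsto (fun b : ℕ => (b : ℝ) ^ 4 * δ b) atTop (nhds 0) ∧
    ∀ b E : ℕ, ∃ xp xm : ℕ → ℝ, (∀ e, |xp e| ≤ 1) ∧ (∀ e, |xm e| ≤ 1) ∧
      (∀ e, xp e ≠ 0 ∨ xm e ≠ 0 → 1 ≤ e ∧ Squarefree e ∧ e ≤ 2 ^ (E * (4 * b + 6)) ∧
        ∀ p : ℕ, p.Prime → p ∣ e → p ≤ 2 ^ E) ∧
      (∀ n : ℕ, n ≠ 0 → ∑ e ∈ n.divisors, xm e ≤ (if ∀ p ∈ SP E, ¬ p ∣ n then (1 : ℝ) else 0) ∧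
        (if ∀ p ∈ SP E, ¬ p ∣ n then (1 : ℝ) else 0) ≤ ∑ e ∈ n.divisors, xp e) ∧
      ∀ φ : ℕ → ℝ, (∀ p ∈ SP E, 0 ≤ φ p ∧ φ p ≤ 2 / p ∧ φ p ≤ 1 / 2) →
        |∑ e ∈ Icc 1 (2 ^ (E * (4 * b + 6))), xp e * ∏ p ∈ e.primeFactors, φ p - ∏ p ∈ SP E, (1 - φ p)| ≤
          δ b * ∏ p ∈ SP E, (1 - φ p) ∧
        |∑ e ∈ Icc 1 (2 ^ (E * (4 * b + 6))), xm e * ∏ p ∈ e.primeFactors, φ p - ∏ p ∈ SP E, (1 - φ p)| ≤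
          δ b * ∏ p ∈ SP E, (1 - φ p) := by
  refine ⟨PTWB.del 2, PTWB.del_nonneg (by norm_num), PTWB.del_tendsto (by norm_num) 4, fun b E => ?_⟩
  obtain ⟨xp, xm, h⟩ := PTWB.flw_b 2 (by norm_num) b E (SP E) (fun p hp => mem_SP.1 hp)
  refine ⟨xp, xm, h.absp, h.absm, ?_, fun n hn => ⟨h.lo n hn, h.up n hn⟩, ?_⟩
  · rintro e (he | he)
    · exact FLW_supp h.suppp he
    · exact FLW_supp h.suppm he
  · intro φ hφ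
    have hD : PTWB.Dn 2 (SP E) φ := ⟨fun p hp => (hφ p hp).1, fun p hp => (hφ p hp).2.2, fun p hp => (hφ p hp).2.1⟩
    have hV : 0 ≤ ∏ p ∈ SP E, (1 - φ p) := Finset.prod_nonneg fun p hp => by linarith [(hφ p hp).2.2]
    have hδ := PTWB.del_nonneg (κ := 2) (by norm_num) b
    rw [FW_sum h.suppp, FW_sum h.suppm]
    have h1 := h.gp0 φ hD
    have h2 := h.gp1 φ hD
    have h3 := h.gm0 φ hD
    have h4 := h.gm1 φ hD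
    have h5 := mul_nonneg hδ hV
    constructor <;> rw [abs_le] <;> constructor <;> linarith

end Pool.Agent.PTW
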