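import Mathlib

/-! # [PTW-C0] cells of primes -/

set_option autoImplicit false

namespace Pool.Agent.PTW

open Finset

/-- the cell of `p`: `⌊n log p / log N⌋ + 1` -/
noncomputable def cell (n N p : ℕ) : ℕ := ⌊(n : ℝ) * Real.log p / Real.log N⌋₊ + 1

/-- `⌊i0 log N / (n log 2)⌋` -/
noncomputable def EE (n i0 N : ℕ) : ℕ := ⌊(i0 : ℝ) * Real.log N / (n * Real.log 2)⌋₊

/-- the primes `p = 1` modulo `4`, prime to `N`, above `2 ^ EE`, in the cells up to `I` -/
noncomputable def PP (n i0 I N : ℕ) : Finset ℕ :=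
  (range (N ^ I + 1)).filter
    (fun p => p.Prime ∧ p % 4 = 1 ∧ ¬ p ∣ N ∧ 2 ^ EE n i0 N < p ∧ cell n N p ≤ I)

theorem cell_le {n N p i : ℕ} (hN : 1 < N) (hp : 1 ≤ p) :
    cell n N p ≤ i ↔ (n : ℝ) * Real.log p < i * Real.log N := by
  have hl : 0 < Real.log N := Real.log_pos (by exact_mod_cast hN)
  have hlp : 0 ≤ Real.log p := Real.log_nonneg (by exact_mod_cast hp)
  unfold cell
  rw [Nat.succ_le_iff, Nat.floor_lt (by positivity), div_lt_iff₀ hl]

theorem lt_cell {n N p i : ℕ} (hN : 1 < N) (hp : 1 ≤ p) :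
    i < cell n N p ↔ (i : ℝ) * Real.log N ≤ n * Real.log p := by
  have hl : 0 < Real.log N := Real.log_pos (by exact_mod_cast hN)
  have hlp : 0 ≤ Real.log p := Real.log_nonneg (by exact_mod_cast hp)
  unfold cell
  rw [Nat.lt_succ_iff, Nat.le_floor_iff (by positivity), le_div_iff₀ hl]

theorem mem_PP {n i0 I N p : ℕ} (hn : 1 ≤ n) (hN : 1 < N) :
    p ∈ PP n i0 I N ↔ p.Prime ∧ p % 4 = 1 ∧ ¬ p ∣ N ∧ 2 ^ EE n i0 N < p ∧ cell n N p ≤ I := by
  unfold PP
  rw [mem_filter, mem_range]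
  constructor
  · rintro ⟨-, h⟩
    exact h
  · intro h
    refine ⟨?_, h⟩
    have h1 := (cell_le hN h.1.one_le).1 h.2.2.2.2
    have hl : 0 < Real.log N := Real.log_pos (by exact_mod_cast hN)
    have hlp : 0 ≤ Real.log p := Real.log_nonneg (by exact_mod_cast h.1.one_le)
    have hn0 : (1 : ℝ) ≤ n := by exact_mod_cast hn
    have h2 : Real.log p < I * Real.log N := by nlinarith
    rw [← Real.log_pow] at h2
    have h3 : (p : ℝ) < (N : ℝ) ^ I := by
      have hp0 : (0 : ℝ) < p := by exact_mod_cast h.1.pos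
      have hN0 : (0 : ℝ) < (N : ℝ) := by exact_mod_cast (by omega : 0 < N)
      exact (Real.log_lt_log_iff hp0 (by positivity)).1 h2
    have h4 : p < N ^ I := by exact_mod_cast h3
    omega

end Pool.Agent.PTW
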