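import Pool.Agent.MPC.D2

/-! # [PTW-C1] Mertens for the primes which are `1` modulo `4` -/

set_option autoImplicit false

namespace Pool.Agent.PTW

open Finset MeasureTheory

/-- Abel summation with `1 / log` -/
theorem abel_log {c : ℕ → ℝ} {C : ℝ}
    (h : ∀ t : ℝ, 2 ≤ t → |∑ k ∈ Icc 0 ⌊t⌋₊, c k - Real.log t| ≤ C) {x y : ℝ} (hx : 2 ≤ x) (hxy : x ≤ y) :
    |∑ k ∈ Ioc ⌊x⌋₊ ⌊y⌋₊, c k / Real.log k - Real.log (Real.log y / Real.log x)| ≤ 3 * C / Real.log x := by
  have hC : 0 ≤ C := (abs_nonneg _).trans (h 2 le_rfl)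
  have hy : 2 ≤ y := hx.trans hxy
  have hlx : 0 < Real.log x := Real.log_pos (by linarith)
  have hly : 0 < Real.log y := Real.log_pos (by linarith)
  have hlxy : Real.log x ≤ Real.log y := Real.log_le_log (by linarith) hxy
  set f : ℝ → ℝ := fun t => (Real.log t)⁻¹ with hf
  have hder : ∀ t ∈ Set.Icc x y, HasDerivAt f (-(t⁻¹) / Real.log t ^ 2) t := by
    intro t ht
    have ht0 : 0 < t := by linarith [ht.1]
    have hlt : Real.log t ≠ 0 := (Real.log_pos (by linarith [ht.1])).ne'
    exact (Real.hasDerivAt_log ht0.ne').inv hlt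
  have hdiff : ∀ t ∈ Set.Icc x y, DifferentiableAt ℝ f t := fun t ht => (hder t ht).differentiableAt
  have hcont : ContinuousOn (fun t : ℝ => -(t⁻¹) / Real.log t ^ 2) (Set.Icc x y) := by
    intro t ht
    have ht0 : 0 < t := by linarith [ht.1]
    have hlt : Real.log t ≠ 0 := (Real.log_pos (by linarith [ht.1])).ne'
    apply ContinuousAt.continuousWithinAt
    apply ContinuousAt.div
    · exact (continuousAt_inv₀ ht0.ne').neg
    · exact (Real.continuousAt_log ht0.ne').pow 2
    · exact pow_ne_zero 2 hlt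
  have hint0 : IntegrableOn (fun t : ℝ => -(t⁻¹) / Real.log t ^ 2) (Set.Icc x y) :=
    hcont.integrableOn_Icc
  have hderiv : ∀ t ∈ Set.Icc x y, deriv f t = -(t⁻¹) / Real.log t ^ 2 := fun t ht => (hder t ht).deriv
  have hint : IntegrableOn (deriv f) (Set.Icc x y) :=
    hint0.congr_fun (fun t ht => (hderiv t ht).symm) measurableSet_Icc
  have habel := sum_mul_eq_sub_sub_integral_mul c (by linarith : (0 : ℝ) ≤ x) hxy hdiff hint
  have hsum : ∑ k ∈ Ioc ⌊x⌋₊ ⌊y⌋₊, c k / Real.log k = ∑ k ∈ Ioc ⌊x⌋₊ ⌊y⌋₊, f k * c k := by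
    apply Finset.sum_congr rfl
    intro k _
    rw [hf]
    simp only
    rw [div_eq_inv_mul]
  -- the integral with `log t` in place of the sum
  have hI2 : IntegrableOn (fun t : ℝ => deriv f t * Real.log t) (Set.Icc x y) := by
    have h1 : ContinuousOn (fun t : ℝ => (-(t⁻¹) / Real.log t ^ 2) * Real.log t) (Set.Icc x y) := by
      apply hcont.mul
      intro t ht
      exact (Real.continuousAt_log (by linarith [ht.1] : t ≠ 0)).continuousWithinAt
    exact h1.integrableOn_Icc.congr_fun (fun t ht => by simp only; rw [hderiv t ht]) measurableSet_Icc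
  have hI1 : IntegrableOn (fun t : ℝ => deriv f t * ∑ k ∈ Icc 0 ⌊t⌋₊, c k) (Set.Icc x y) :=
    integrableOn_mul_sum_Icc c (by linarith) hint
  have hIlog : ∫ t in Set.Ioc x y, deriv f t * Real.log t = -Real.log (Real.log y / Real.log x) := by
    rw [← intervalIntegral.integral_of_le hxy]
    have h1 : ∀ t ∈ Set.uIcc x y, HasDerivAt (fun t => -Real.log (Real.log t)) (deriv f t * Real.log t) t := by
      intro t ht
      rw [Set.uIcc_of_le hxy] at ht
      have ht0 : 0 < t := by linarith [ht.1]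
      have hlt : 0 < Real.log t := Real.log_pos (by linarith [ht.1])
      have h2 := ((Real.hasDerivAt_log ht0.ne').log hlt.ne').neg
      have e : deriv f t * Real.log t = -(t⁻¹ / Real.log t) := by
        rw [hderiv t ht]
        field_simp
      rw [e]
      exact h2
    rw [intervalIntegral.integral_eq_sub_of_hasDerivAt h1
      ((intervalIntegrable_iff_integrableOn_Icc_of_le hxy).2 hI2), Real.log_div hly.ne' hlx.ne']
    ring
  have hIabs : ∫ t in Set.Ioc x y, C * (t⁻¹ / Real.log t ^ 2) = C * ((Real.log x)⁻¹ - (Real.log y)⁻¹) := by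
    rw [← intervalIntegral.integral_of_le hxy]
    have h1 : ∀ t ∈ Set.uIcc x y, HasDerivAt (fun t => -(C * (Real.log t)⁻¹)) (C * (t⁻¹ / Real.log t ^ 2)) t := by
      intro t ht
      rw [Set.uIcc_of_le hxy] at ht
      have h2 := ((hder t ht).const_mul C).neg
      have e : C * (t⁻¹ / Real.log t ^ 2) = -(C * (-(t⁻¹) / Real.log t ^ 2)) := by ring
      rw [e]
      exact h2
    rw [intervalIntegral.integral_eq_sub_of_hasDerivAt h1]
    · ring
    · apply ContinuousOn.intervalIntegrable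
      rw [Set.uIcc_of_le hxy]
      have h3 : ContinuousOn (fun t : ℝ => C * (-(-(t⁻¹) / Real.log t ^ 2))) (Set.Icc x y) :=
        continuousOn_const.mul hcont.neg
      refine h3.congr fun t _ => ?_
      ring
  have hdiffI : |(∫ t in Set.Ioc x y, deriv f t * ∑ k ∈ Icc 0 ⌊t⌋₊, c k) -
      ∫ t in Set.Ioc x y, deriv f t * Real.log t| ≤ C * ((Real.log x)⁻¹ - (Real.log y)⁻¹) := by
    rw [← integral_sub (hI1.mono_set Set.Ioc_subset_Icc_self) (hI2.mono_set Set.Ioc_subset_Icc_self), ← hIabs,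
      ← Real.norm_eq_abs]
    apply norm_integral_le_of_norm_le
    · have h3 : ContinuousOn (fun t : ℝ => C * (-(-(t⁻¹) / Real.log t ^ 2))) (Set.Icc x y) :=
        continuousOn_const.mul hcont.neg
      have h4 : IntegrableOn (fun t : ℝ => C * (t⁻¹ / Real.log t ^ 2)) (Set.Icc x y) :=
        h3.integrableOn_Icc.congr_fun (fun t _ => by ring) measurableSet_Icc
      exact h4.mono_set Set.Ioc_subset_Icc_self
    · rw [ae_restrict_iff' measurableSet_Ioc]
      refine Filter.Eventually.of_forall fun t ht => ?_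
      have ht' : t ∈ Set.Icc x y := Set.Ioc_subset_Icc_self ht
      have ht0 : 0 < t := by linarith [ht'.1]
      have hlt : 0 < Real.log t := Real.log_pos (by linarith [ht'.1])
      rw [← mul_sub, norm_mul, hderiv t ht', Real.norm_eq_abs, Real.norm_eq_abs]
      have h5 : |-(t⁻¹) / Real.log t ^ 2| = t⁻¹ / Real.log t ^ 2 := by
        rw [neg_div, abs_neg, abs_of_nonneg (by positivity)]
      rw [h5, mul_comm]
      exact mul_le_mul_of_nonneg_right (h t (hx.trans ht'.1)) (by positivity)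
  have hX := abs_le.1 (h x hx)
  have hY := abs_le.1 (h y hy)
  rw [hsum, habel]
  rw [hIlog] at hdiffI
  have hD := abs_le.1 hdiffI
  set AX := ∑ k ∈ Icc 0 ⌊x⌋₊, c k
  set AY := ∑ k ∈ Icc 0 ⌊y⌋₊, c k
  set I1 := ∫ t in Set.Ioc x y, deriv f t * ∑ k ∈ Icc 0 ⌊t⌋₊, c k
  have e1 : f y * AY - f x * AX = (AY - Real.log y) / Real.log y - (AX - Real.log x) / Real.log x := by
    rw [hf]
    simp only
    field_simp
    ring
  have hyx : (Real.log y)⁻¹ ≤ (Real.log x)⁻¹ := by
    rw [inv_le_inv₀ hly hlx]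
    exact hlxy
  have b1 : |(AY - Real.log y) / Real.log y| ≤ C * (Real.log y)⁻¹ := by
    rw [abs_div, abs_of_pos hly, div_eq_mul_inv]
    exact mul_le_mul_of_nonneg_right (abs_le.2 hY) (by positivity)
  have b2 : |(AX - Real.log x) / Real.log x| ≤ C * (Real.log x)⁻¹ := by
    rw [abs_div, abs_of_pos hlx, div_eq_mul_inv]
    exact mul_le_mul_of_nonneg_right (abs_le.2 hX) (by positivity)
  have b1' := abs_le.1 b1
  have b2' := abs_le.1 b2
  have hC1 : C * (Real.log y)⁻¹ ≤ C * (Real.log x)⁻¹ := mul_le_mul_of_nonneg_left hyx hC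
  have e3 : 3 * C / Real.log x = 3 * (C * (Real.log x)⁻¹) := by ring
  rw [e1, e3, abs_le]
  constructor
  · nlinarith [b1'.1, b2'.2, hD.2]
  · nlinarith [b1'.2, b2'.1, hD.1]

end Pool.Agent.PTW
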