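import Pool.Agent.PTW.C1

/-! # [PTW-C2] the sum of `2 / p` over the primes `1` modulo `4` -/

set_option autoImplicit false

namespace Pool.Agent.PTW

open Finset

theorem mer : ∃ C : ℝ, 0 ≤ C ∧ ∀ x y : ℝ, 2 ≤ x → x ≤ y →
    |∑ p ∈ (Ioc ⌊x⌋₊ ⌊y⌋₊).filter (fun p => p.Prime ∧ p % 4 = 1), 2 / (p : ℝ) -
      Real.log (Real.log y / Real.log x)| ≤ C / Real.log x := by
  obtain ⟨C, hC, h⟩ := MPC.mertens_primes
  refine ⟨3 * (2 * C + Real.log 2), by have := Real.log_nonneg (by norm_num : (1 : ℝ) ≤ 2); positivity, fun x y hx hxy => ?_⟩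
  set c : ℕ → ℝ := fun k => if k.Prime ∧ k % 4 = 1 then 2 * (Real.log k / k) else 0 with hc
  have hsum : ∀ t : ℝ, 2 ≤ t → |∑ k ∈ Icc 0 ⌊t⌋₊, c k - Real.log t| ≤ 2 * C + Real.log 2 := by
    intro t ht
    have hN : 1 ≤ ⌊t⌋₊ := (Nat.one_le_floor_iff _).2 (by linarith)
    have h1 := abs_le.1 (h ⌊t⌋₊ hN)
    have h2 : ∑ k ∈ Icc 0 ⌊t⌋₊, c k =
        2 * ∑ p ∈ (Icc 1 ⌊t⌋₊).filter (fun p => p.Prime ∧ p % 4 = 1), Real.log p / (p : ℝ) := by
      rw [hc, ← Finset.sum_filter, Finset.mul_sum]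
      apply Finset.sum_congr _ fun _ _ => rfl
      ext p
      rw [mem_filter, mem_filter, mem_Icc, mem_Icc]
      constructor
      · rintro ⟨⟨_, h3⟩, h4⟩
        exact ⟨⟨h4.1.one_le, h3⟩, h4⟩
      · rintro ⟨⟨_, h3⟩, h4⟩
        exact ⟨⟨Nat.zero_le _, h3⟩, h4⟩
    have hf1 : (1 : ℝ) ≤ (⌊t⌋₊ : ℝ) := by exact_mod_cast hN
    have hf2 : (⌊t⌋₊ : ℝ) ≤ t := Nat.floor_le (by linarith)
    have hf3 : t < ⌊t⌋₊ + 1 := Nat.lt_floor_add_one t
    have h3 : Real.log (⌊t⌋₊ : ℝ) ≤ Real.log t := Real.log_le_log (by linarith) hf2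
    have h4 : Real.log t ≤ Real.log 2 + Real.log (⌊t⌋₊ : ℝ) := by
      rw [← Real.log_mul (by norm_num) (by linarith)]
      exact Real.log_le_log (by linarith) (by linarith)
    rw [h2, abs_le]
    constructor
    · linarith [h1.1]
    · linarith [h1.2]
  have key := abel_log hsum hx hxy
  have h5 : ∑ k ∈ Ioc ⌊x⌋₊ ⌊y⌋₊, c k / Real.log k =
      ∑ p ∈ (Ioc ⌊x⌋₊ ⌊y⌋₊).filter (fun p => p.Prime ∧ p % 4 = 1), 2 / (p : ℝ) := by
    rw [Finset.sum_filter]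
    apply Finset.sum_congr rfl
    intro k _
    rw [hc]
    simp only
    split_ifs with hk
    · have h6 : 0 < Real.log k := Real.log_pos (by exact_mod_cast hk.1.one_lt)
      have h7 : (0 : ℝ) < k := by exact_mod_cast hk.1.pos
      field_simp
    · simp
  rw [h5] at key
  exact key

end Pool.Agent.PTW
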