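import Pool.Agent.PTW.C0
import Pool.Agent.PTW.C2

/-! # [PTW-C3] the mass of the cells -/

set_option autoImplicit false

namespace Pool.Agent.PTW

open Finset

/-- the prime factors of `N` above `y` -/
theorem sum_dvd_le {N : ℕ} (hN : 1 < N) {y : ℝ} (hy : 0 < y) (S : Finset ℕ)
    (hS : ∀ p ∈ S, p.Prime ∧ p ∣ N ∧ y ≤ p) : ∑ p ∈ S, 2 / (p : ℝ) ≤ 3 * Real.log N / y := by
  have hl : 0 < Real.log N := Real.log_pos (by exact_mod_cast hN)
  have h1 : S ⊆ N.primeFactors := by
    intro p hp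
    rw [Nat.mem_primeFactors]
    exact ⟨(hS p hp).1, (hS p hp).2.1, by omega⟩
  have h2 : (S.card : ℝ) * Real.log 2 ≤ Real.log N := by
    have h3 : 2 ^ S.card ≤ N := by
      calc 2 ^ S.card ≤ 2 ^ N.primeFactors.card := Nat.pow_le_pow_right (by norm_num) (Finset.card_le_card h1)
        _ ≤ ∏ p ∈ N.primeFactors, p := by
            apply Finset.pow_card_le_prod
            intro p hp
            exact (Nat.prime_of_mem_primeFactors hp).two_le
        _ ≤ N := Nat.le_of_dvd (by omega) (Nat.prod_primeFactors_dvd N)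
    have h4 : ((2 : ℝ)) ^ S.card ≤ N := by exact_mod_cast h3
    rw [← Real.log_pow]
    exact Real.log_le_log (by positivity) h4
  calc ∑ p ∈ S, 2 / (p : ℝ) ≤ S.card • (2 / y) := by
        apply Finset.sum_le_card_nsmul
        intro p hp
        exact div_le_div_of_nonneg_left (by norm_num) hy (hS p hp).2.2
    _ = (S.card : ℝ) * (2 / y) := by rw [nsmul_eq_mul]
    _ ≤ (3 / 2 * Real.log N) * (2 / y) := by
        apply mul_le_mul_of_nonneg_right _ (by positivity)
        have h5 := Real.log_two_gt_d9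
        nlinarith [Nat.cast_nonneg (α := ℝ) S.card]
    _ = 3 * Real.log N / y := by ring

theorem sum_single_le {y : ℝ} (hy : 0 < y) (S : Finset ℕ) (hS : ∀ p ∈ S, (p : ℝ) = y) :
    ∑ p ∈ S, 2 / (p : ℝ) ≤ 2 / y := by
  have h1 : S.card ≤ 1 := by
    rw [Finset.card_le_one]
    intro a ha b hb
    have h2 : (a : ℝ) = b := by rw [hS a ha, hS b hb]
    exact_mod_cast h2
  calc ∑ p ∈ S, 2 / (p : ℝ) ≤ S.card • (2 / y) := by
        apply Finset.sum_le_card_nsmul
        intro p hp
        rw [hS p hp]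
    _ = (S.card : ℝ) * (2 / y) := by rw [nsmul_eq_mul]
    _ ≤ 1 * (2 / y) := by
        apply mul_le_mul_of_nonneg_right _ (by positivity)
        exact_mod_cast h1
    _ = 2 / y := one_mul _

theorem mass : ∀ n i0 I : ℕ, 1 ≤ n → 1 ≤ i0 → ∀ κ : ℝ, 0 < κ → ∃ N0 : ℕ, ∀ N : ℕ, N0 ≤ N →
    (∀ p ∈ PP n i0 I N, i0 ≤ cell n N p) ∧
    (∀ i : ℕ, i0 < i → i ≤ I →
      |∑ p ∈ (PP n i0 I N).filter (fun p => cell n N p = i), 2 / (p : ℝ) - Real.log ((i : ℝ) / (i - 1))| ≤ κ) ∧
    ∑ p ∈ (PP n i0 I N).filter (fun p => cell n N p ≤ i0), 2 / (p : ℝ) ≤ κ := by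
  intro n i0 I hn hi0 κ hκ
  obtain ⟨C, hC, hmer⟩ := mer
  have hn0 : (1 : ℝ) ≤ n := by exact_mod_cast hn
  have hi00 : (1 : ℝ) ≤ i0 := by exact_mod_cast hi0
  set l0 : ℝ := 2 * n + (C * n + 14 * (n : ℝ) ^ 2) / κ + n * ((1 + C) / κ + 1) with hl0
  have hl0a : 0 ≤ (C * n + 14 * (n : ℝ) ^ 2) / κ := by positivity
  have hl0b : 0 ≤ n * ((1 + C) / κ + 1) := by positivity
  refine ⟨⌈Real.exp l0⌉₊ + 2, fun N hN => ?_⟩
  have hN1 : 1 < N := by omega
  have hNr : (0 : ℝ) < N := by exact_mod_cast (by omega : 0 < N)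
  set l : ℝ := Real.log N with hl
  have hll : l0 ≤ l := by
    rw [hl, Real.le_log_iff_exp_le hNr]
    have h1 := Nat.le_ceil (Real.exp l0)
    have h2 : ((⌈Real.exp l0⌉₊ + 2 : ℕ) : ℝ) ≤ N := by exact_mod_cast hN
    push_cast at h2
    linarith
  have hl2n : 2 * (n : ℝ) ≤ l := by linarith
  have hlpos : 0 < l := by linarith
  have hl1 : 1 ≤ l := by linarith
  -- the two numerical conditions
  have hk1 : C * n / l + 14 * (n : ℝ) ^ 2 / l ≤ κ := by
    rw [← add_div, div_le_iff₀ hlpos]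
    have h1 : (C * n + 14 * (n : ℝ) ^ 2) / κ ≤ l := by linarith
    rw [div_le_iff₀ hκ] at h1
    linarith
  have hln1 : 0 < l / n - 1 := by
    rw [sub_pos, lt_div_iff₀ (by linarith)]
    linarith
  have hk2 : (1 + C) / (l / n - 1) ≤ κ := by
    rw [div_le_iff₀ hln1]
    have h1 : n * ((1 + C) / κ + 1) ≤ l := by linarith
    have h2 : (1 + C) / κ + 1 ≤ l / n := by
      rw [le_div_iff₀ (by linarith)]
      linarith
    have h3 : (1 + C) / κ ≤ l / n - 1 := by linarith
    rw [div_le_iff₀ hκ] at h3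
    linarith
  have hlog2 := Real.log_two_lt_d9
  have hlog2' : 0 < Real.log 2 := Real.log_pos (by norm_num)
  -- the endpoints
  set y : ℕ → ℝ := fun i => Real.exp (i * l / n) with hy
  have hypos : ∀ i, 0 < y i := fun i => Real.exp_pos _
  have hylog : ∀ i, Real.log (y i) = i * l / n := fun i => Real.log_exp _
  have hymono : ∀ i j : ℕ, i ≤ j → y i ≤ y j := by
    intro i j hij
    rw [hy]
    simp only
    apply Real.exp_le_exp.2
    apply div_le_div_of_nonneg_right _ (by linarith)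
    apply mul_le_mul_of_nonneg_right _ hlpos.le
    exact_mod_cast hij
  have hy1 : l ^ 2 / (2 * (n : ℝ) ^ 2) ≤ y 1 := by
    have h1 := Real.quadratic_le_exp_of_nonneg (show 0 ≤ (1 : ℕ) * l / n by positivity)
    rw [hy]
    simp only
    refine le_trans ?_ h1
    push_cast
    have h2 : (1 * l / n) ^ 2 / 2 = l ^ 2 / (2 * (n : ℝ) ^ 2) := by field_simp
    rw [h2]
    have h3 : 0 ≤ 1 * l / n := by positivity
    linarith
  have hy2 : 4 ≤ y 1 := by
    have h1 := Real.add_one_le_exp (2 : ℝ)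
    have h3 : Real.exp 2 ≤ y 1 := by
      rw [hy]
      simp only
      apply Real.exp_le_exp.2
      rw [le_div_iff₀ (by linarith)]
      push_cast
      linarith
    have h4 : (4 : ℝ) ≤ Real.exp 2 := by
      have h5 := Real.quadratic_le_exp_of_nonneg (show (0 : ℝ) ≤ 2 by norm_num)
      norm_num at h5
      linarith
    linarith
  have hElog : (EE n i0 N : ℝ) * Real.log 2 ≤ i0 * l / n := by
    have h1 := Nat.floor_le (show 0 ≤ (i0 : ℝ) * l / (n * Real.log 2) by positivity)
    unfold EE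
    rw [← hl]
    calc (⌊(i0 : ℝ) * l / (n * Real.log 2)⌋₊ : ℝ) * Real.log 2 ≤ ((i0 : ℝ) * l / (n * Real.log 2)) * Real.log 2 :=
          mul_le_mul_of_nonneg_right h1 hlog2'.le
      _ = i0 * l / n := by field_simp
  have hElog2 : i0 * l / n < ((EE n i0 N : ℝ) + 1) * Real.log 2 := by
    have h1 := Nat.lt_floor_add_one ((i0 : ℝ) * l / (n * Real.log 2))
    unfold EE
    rw [← hl]
    calc i0 * l / n = ((i0 : ℝ) * l / (n * Real.log 2)) * Real.log 2 := by field_simp
      _ < ((⌊(i0 : ℝ) * l / (n * Real.log 2)⌋₊ : ℝ) + 1) * Real.log 2 :=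
          mul_lt_mul_of_pos_right h1 hlog2'
  have hE1 : ((2 : ℝ)) ^ EE n i0 N ≤ y i0 := by
    rw [← Real.log_le_log_iff (by positivity) (hypos _), hylog, Real.log_pow]
    exact hElog
  have hE2 : y i0 / 2 < (2 : ℝ) ^ EE n i0 N := by
    rw [div_lt_iff₀ (by norm_num), ← pow_succ, ← Real.log_lt_log_iff (hypos _) (by positivity), hylog, Real.log_pow]
    push_cast
    exact hElog2
  refine ⟨?_, ?_, ?_⟩
  · intro p hp
    rw [mem_PP hn hN1] at hp
    obtain ⟨hpp, -, -, h2E, -⟩ := hp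
    have h1 : y i0 / 2 < p := hE2.trans (by exact_mod_cast h2E)
    have h2 : Real.log (y i0 / 2) < Real.log p := Real.log_lt_log (by have := hypos i0; positivity) h1
    rw [Real.log_div (hypos _).ne' (by norm_num), hylog] at h2
    have h3 : i0 - 1 < cell n N p := by
      rw [lt_cell hN1 hpp.one_le, ← hl]
      have h4 : ((i0 - 1 : ℕ) : ℝ) = i0 - 1 := by
        rw [Nat.cast_sub hi0]
        simp
      rw [h4]
      have h5 : (i0 : ℝ) * l < n * Real.log p + n * Real.log 2 := by
        rw [sub_lt_iff_lt_add, div_lt_iff₀ (by linarith)] at h2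
        linarith
      nlinarith
    omega
  · intro i hi hiI
    have hi1 : (1 : ℝ) ≤ ((i - 1 : ℕ) : ℝ) := by exact_mod_cast (by omega : 1 ≤ i - 1)
    have hii : ((i - 1 : ℕ) : ℝ) = i - 1 := by
      rw [Nat.cast_sub (by omega)]
      simp
    have hyi : y 1 ≤ y (i - 1) := hymono _ _ (by omega)
    have hyi0 : y i0 ≤ y (i - 1) := hymono _ _ (by omega)
    have hyy : y (i - 1) ≤ y i := hymono _ _ (by omega)
    set F := (PP n i0 I N).filter (fun p => cell n N p = i) with hF
    set G := (Ioc ⌊y (i - 1)⌋₊ ⌊y i⌋₊).filter (fun p => p.Prime ∧ p % 4 = 1) with hG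
    have memF : ∀ p, p ∈ F ↔ p.Prime ∧ p % 4 = 1 ∧ ¬ p ∣ N ∧ y (i - 1) ≤ p ∧ (p : ℝ) < y i := by
      intro p
      rw [hF, mem_filter, mem_PP hn hN1]
      constructor
      · rintro ⟨⟨h1, h2, h3, h4, h5⟩, h6⟩
        have h7 := (lt_cell (n := n) (i := i - 1) hN1 h1.one_le).1 (by omega)
        have h8 := (cell_le (n := n) (i := i) hN1 h1.one_le).1 h6.le
        have hp0 : (0 : ℝ) < p := by exact_mod_cast h1.pos
        refine ⟨h1, h2, h3, ?_, ?_⟩
        · rw [← Real.log_le_log_iff (hypos _) hp0, hylog, div_le_iff₀ (by linarith)]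
          rw [← hl] at h7
          linarith
        · rw [← Real.log_lt_log_iff hp0 (hypos _), hylog, lt_div_iff₀ (by linarith)]
          rw [← hl] at h8
          linarith
      · rintro ⟨h1, h2, h3, h4, h5⟩
        have hp0 : (0 : ℝ) < p := by exact_mod_cast h1.pos
        have h6 : i - 1 < cell n N p := by
          rw [lt_cell hN1 h1.one_le, ← hl]
          rw [← Real.log_le_log_iff (hypos _) hp0, hylog, div_le_iff₀ (by linarith)] at h4
          linarith
        have h7 : cell n N p ≤ i := by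
          rw [cell_le hN1 h1.one_le, ← hl]
          rw [← Real.log_lt_log_iff hp0 (hypos _), hylog, lt_div_iff₀ (by linarith)] at h5
          linarith
        refine ⟨⟨h1, h2, h3, ?_, by omega⟩, by omega⟩
        have h8 : (2 : ℝ) ^ EE n i0 N ≤ p := hE1.trans (hyi0.trans h4)
        have h9 : 2 ^ EE n i0 N ≤ p := by exact_mod_cast h8
        rcases Nat.lt_or_eq_of_le h9 with h | h
        · exact h
        · exfalso
          rcases Nat.eq_zero_or_pos (EE n i0 N) with h10 | h10
          · rw [h10, pow_zero] at h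
            rw [← h] at h1
            exact Nat.not_prime_one h1
          · have h11 : 2 ∣ p := by
              rw [← h]
              exact dvd_pow_self 2 (by omega)
            omega
    have memG : ∀ p, p ∈ G ↔ p.Prime ∧ p % 4 = 1 ∧ y (i - 1) < p ∧ (p : ℝ) ≤ y i := by
      intro p
      rw [hG, mem_filter, mem_Ioc, Nat.floor_lt (hypos _).le, Nat.le_floor_iff (hypos _).le]
      tauto
    have e1 : ∑ p ∈ F, 2 / (p : ℝ) ≤ ∑ p ∈ G, 2 / (p : ℝ) + 2 / y (i - 1) := by
      rw [← Finset.sum_inter_add_sum_sdiff F G (fun p => 2 / (p : ℝ))]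
      have h1 : ∑ p ∈ F \ G, 2 / (p : ℝ) ≤ 2 / y (i - 1) := by
        apply sum_single_le (hypos _)
        intro p hp
        rw [mem_sdiff, memF, memG] at hp
        obtain ⟨⟨h1, h2, h3, h4, h5⟩, h6⟩ := hp
        by_contra hne
        exact h6 ⟨h1, h2, lt_of_le_of_ne h4 (Ne.symm hne), h5.le⟩
      have h2 : ∑ p ∈ F ∩ G, 2 / (p : ℝ) ≤ ∑ p ∈ G, 2 / (p : ℝ) :=
        Finset.sum_le_sum_of_subset_of_nonneg Finset.inter_subset_right (fun p _ _ => by positivity)
      linarith
    have e2 : ∑ p ∈ G, 2 / (p : ℝ) ≤ ∑ p ∈ F, 2 / (p : ℝ) + (2 / y i + 3 * l / y (i - 1)) := by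
      rw [← Finset.sum_inter_add_sum_sdiff G F (fun p => 2 / (p : ℝ))]
      have h1 : ∑ p ∈ G \ F, 2 / (p : ℝ) ≤ 2 / y i + 3 * l / y (i - 1) := by
        rw [← Finset.sum_filter_add_sum_filter_not (G \ F) (fun p => (p : ℝ) = y i)]
        apply add_le_add
        · apply sum_single_le (hypos _)
          intro p hp
          exact (mem_filter.1 hp).2
        · apply sum_dvd_le hN1 (hypos _)
          intro p hp
          rw [mem_filter, mem_sdiff, memF, memG] at hp
          obtain ⟨⟨⟨h1, h2, h3, h4⟩, h5⟩, h6⟩ := hp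
          refine ⟨h1, ?_, h3.le⟩
          by_contra hnd
          exact h5 ⟨h1, h2, hnd, h3.le, lt_of_le_of_ne h4 h6⟩
      have h2 : ∑ p ∈ G ∩ F, 2 / (p : ℝ) ≤ ∑ p ∈ F, 2 / (p : ℝ) :=
        Finset.sum_le_sum_of_subset_of_nonneg Finset.inter_subset_right (fun p _ _ => by positivity)
      linarith
    have hm := hmer (y (i - 1)) (y i) (by linarith) hyy
    rw [← hG, hylog, hylog] at hm
    have e3 : (i : ℝ) * l / n / (((i - 1 : ℕ) : ℝ) * l / n) = (i : ℝ) / (i - 1) := by
      rw [hii]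
      rw [hii] at hi1
      field_simp
    rw [e3] at hm
    have e4 : C / (((i - 1 : ℕ) : ℝ) * l / n) ≤ C * n / l := by
      rw [div_le_div_iff₀ (by positivity) hlpos]
      have h1 : C * n * (((i - 1 : ℕ) : ℝ) * l / n) = C * l * ((i - 1 : ℕ) : ℝ) := by field_simp
      rw [h1]
      have h2 : 0 ≤ C * l := by positivity
      nlinarith
    have e5 : (4 + 3 * l) / y (i - 1) ≤ 14 * (n : ℝ) ^ 2 / l := by
      rw [div_le_div_iff₀ (hypos _) hlpos]
      have h1 : l ^ 2 / (2 * (n : ℝ) ^ 2) ≤ y (i - 1) := hy1.trans hyi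
      rw [div_le_iff₀ (by positivity)] at h1
      nlinarith
    have e6 : 2 / y (i - 1) + 2 / y i + 3 * l / y (i - 1) ≤ (4 + 3 * l) / y (i - 1) := by
      have h1 : 2 / y i ≤ 2 / y (i - 1) := div_le_div_of_nonneg_left (by norm_num) (hypos _) hyy
      have h2 : (4 + 3 * l) / y (i - 1) = 2 / y (i - 1) + 2 / y (i - 1) + 3 * l / y (i - 1) := by ring
      linarith
    have hm' := abs_le.1 hm
    have p1 : 0 ≤ 2 / y (i - 1) := by have := hypos (i - 1); positivity
    have p2 : 0 ≤ 2 / y i := by have := hypos i; positivity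
    have p3 : 0 ≤ 3 * l / y (i - 1) := by have := hypos (i - 1); positivity
    rw [abs_le]
    constructor
    · linarith [hm'.1]
    · linarith [hm'.2]
  · set Y := y i0 with hY
    have hY1 : y 1 ≤ Y := hymono _ _ hi0
    have hYlog : Real.log Y = i0 * l / n := hylog i0
    have hYl : l / n ≤ Real.log Y := by
      rw [hYlog]
      apply div_le_div_of_nonneg_right _ (by linarith)
      nlinarith
    have hYhalf : Real.log (Y / 2) = Real.log Y - Real.log 2 := Real.log_div (hypos _).ne' (by norm_num)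
    have hm := hmer (Y / 2) Y (by linarith) (by have := hypos i0; linarith)
    have hsub : (PP n i0 I N).filter (fun p => cell n N p ≤ i0) ⊆
        (Ioc ⌊Y / 2⌋₊ ⌊Y⌋₊).filter (fun p => p.Prime ∧ p % 4 = 1) := by
      intro p hp
      rw [mem_filter, mem_PP hn hN1] at hp
      obtain ⟨⟨h1, h2, h3, h4, h5⟩, h6⟩ := hp
      have hp0 : (0 : ℝ) < p := by exact_mod_cast h1.pos
      rw [mem_filter, mem_Ioc, Nat.floor_lt (by have := hypos i0; positivity), Nat.le_floor_iff (hypos _).le]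
      refine ⟨⟨hE2.trans (by exact_mod_cast h4), ?_⟩, h1, h2⟩
      rw [cell_le hN1 h1.one_le, ← hl] at h6
      rw [← Real.log_le_log_iff hp0 (hypos _), ← hY, hYlog, le_div_iff₀ (by linarith)]
      linarith
    have h1 : ∑ p ∈ (PP n i0 I N).filter (fun p => cell n N p ≤ i0), 2 / (p : ℝ) ≤
        ∑ p ∈ (Ioc ⌊Y / 2⌋₊ ⌊Y⌋₊).filter (fun p => p.Prime ∧ p % 4 = 1), 2 / (p : ℝ) :=
      Finset.sum_le_sum_of_subset_of_nonneg hsub (fun p _ _ => by positivity)
    have hden : l / n - 1 ≤ Real.log (Y / 2) := by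
      rw [hYhalf]
      linarith
    have hdpos : 0 < Real.log (Y / 2) := by linarith
    have h2 : Real.log (Real.log Y / Real.log (Y / 2)) ≤ 1 / (l / n - 1) := by
      have hq : 0 < Real.log Y / Real.log (Y / 2) := by
        apply div_pos _ hdpos
        rw [hYhalf] at hdpos
        linarith
      have h3 := Real.log_le_sub_one_of_pos hq
      have h4 : Real.log Y / Real.log (Y / 2) - 1 = Real.log 2 / Real.log (Y / 2) := by
        rw [div_sub_one hdpos.ne', hYhalf]
        congr 1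
        ring
      rw [h4] at h3
      refine h3.trans ?_
      exact div_le_div₀ (by norm_num) (by linarith) hln1 hden
    have h3 : C / Real.log (Y / 2) ≤ C / (l / n - 1) := div_le_div_of_nonneg_left hC hln1 hden
    have h4 := (abs_le.1 hm).2
    have h5 : (1 + C) / (l / n - 1) = 1 / (l / n - 1) + C / (l / n - 1) := by ring
    linarith

end Pool.Agent.PTW
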