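import Mathlib
import Pool.Agent.Lib.helper94.ANT.Mertens

/-! # [PTW-C5] lower bound of the product `∏ (1 - g p)` -/

set_option autoImplicit false

namespace Pool.Agent.PTW

open Finset

theorem one_sub_ge {u : ℝ} (h0 : 0 ≤ u) (h1 : u ≤ 1 / 2) : Real.exp (-(u + 2 * u ^ 2)) ≤ 1 - u := by
  have hp : 0 < 1 - u := by linarith
  rw [← Real.le_log_iff_exp_le hp]
  have h2 := Real.one_sub_inv_le_log_of_pos hp
  refine le_trans ?_ h2
  have h3 : (1 - u)⁻¹ ≤ 1 + u + 2 * u ^ 2 := by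
    rw [inv_eq_one_div, div_le_iff₀ hp]
    nlinarith [mul_nonneg h0 h0, mul_nonneg (mul_nonneg h0 h0) (by linarith : (0 : ℝ) ≤ 1 - 2 * u)]
  linarith

theorem sum_inv_sq_le (N : ℕ) : ∑ k ∈ (range (N + 1)).filter Nat.Prime, ((k : ℝ) ^ 2)⁻¹ ≤ 2 := by
  calc ∑ k ∈ (range (N + 1)).filter Nat.Prime, ((k : ℝ) ^ 2)⁻¹ ≤ ∑ k ∈ Ioo 0 (N + 1), ((k : ℝ) ^ 2)⁻¹ := by
        apply Finset.sum_le_sum_of_subset_of_nonneg
        · intro k hk
          rw [mem_filter, mem_range] at hk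
          rw [mem_Ioo]
          exact ⟨hk.2.pos, hk.1⟩
        · intro k _ _
          positivity
    _ ≤ 2 / ((0 : ℕ) + 1 : ℝ) := sum_Ioo_inv_sq_le 0 (N + 1)
    _ = 2 := by norm_num

/-- the product over the primes up to `2 ^ E` -/
theorem v0 : ∃ c : ℝ, 0 < c ∧ ∀ E : ℕ, 1 ≤ E → ∀ g : ℕ → ℝ,
    (∀ p : ℕ, p.Prime → 0 ≤ g p ∧ g p ≤ 2 / p ∧ g p ≤ 1 / 2) →
    c / (E : ℝ) ^ 2 ≤ ∏ p ∈ (range (2 ^ E + 1)).filter Nat.Prime, (1 - g p) := by
  obtain ⟨C, hC, h⟩ := Pool.Agent.Lib.helper94.ANT.mertens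
  refine ⟨Real.exp (-(2 * C + 16)), Real.exp_pos _, fun E hE g hg => ?_⟩
  have hE0 : (1 : ℝ) ≤ E := by exact_mod_cast hE
  set S := (range (2 ^ E + 1)).filter Nat.Prime with hS
  have h1 : ∏ p ∈ S, Real.exp (-(g p + 2 * g p ^ 2)) ≤ ∏ p ∈ S, (1 - g p) := by
    apply Finset.prod_le_prod
    · intro p _
      exact (Real.exp_pos _).le
    · intro p hp
      have hp' := (mem_filter.1 hp).2
      exact one_sub_ge (hg p hp').1 (hg p hp').2.2
  refine le_trans ?_ h1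
  rw [← Real.exp_sum, Finset.sum_neg_distrib]
  have h2 : ∑ p ∈ S, (g p + 2 * g p ^ 2) ≤ 2 * ∑ p ∈ S, (1 : ℝ) / p + 8 * ∑ p ∈ S, ((p : ℝ) ^ 2)⁻¹ := by
    rw [Finset.mul_sum, Finset.mul_sum, ← Finset.sum_add_distrib]
    apply Finset.sum_le_sum
    intro p hp
    have hp' := (mem_filter.1 hp).2
    obtain ⟨g0, g1, -⟩ := hg p hp'
    have hp0 : (0 : ℝ) < p := by exact_mod_cast hp'.pos
    have h3 : g p ^ 2 ≤ (2 / (p : ℝ)) ^ 2 := pow_le_pow_left₀ g0 g1 2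
    have h4 : 2 * (2 / (p : ℝ)) ^ 2 = 8 * ((p : ℝ) ^ 2)⁻¹ := by field_simp; ring
    have h5 : 2 / (p : ℝ) = 2 * (1 / p) := by ring
    linarith
  have h3 : ∑ p ∈ S, (1 : ℝ) / p ≤ Real.log E + C := by
    have h4 := (abs_le.1 (h (2 ^ E) (by
      calc 2 = 2 ^ 1 := rfl
        _ ≤ 2 ^ E := Nat.pow_le_pow_right (by norm_num) hE))).2
    have h5 : Nat.primesLE (2 ^ E) = S := by
      ext p
      rw [Nat.mem_primesLE, hS, mem_filter, mem_range, Nat.lt_succ_iff]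
    rw [h5] at h4
    have h6 : Real.log (Real.log ((2 ^ E : ℕ) : ℝ)) ≤ Real.log E := by
      push_cast
      rw [Real.log_pow]
      have hl2 : Real.log 2 ≤ 1 := by
        have := Real.log_two_lt_d9
        linarith
      have hl2' : 0 < Real.log 2 := Real.log_pos (by norm_num)
      apply Real.log_le_log (by positivity)
      nlinarith
    linarith
  have h4 := sum_inv_sq_le (2 ^ E)
  have h5 : ∑ p ∈ S, (g p + 2 * g p ^ 2) ≤ 2 * (Real.log E + C) + 16 := by linarith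
  have h6 : Real.exp (-(2 * C + 16)) / (E : ℝ) ^ 2 = Real.exp (-(2 * (Real.log E + C) + 16)) := by
    have h7 : (E : ℝ) ^ 2 = Real.exp (2 * Real.log E) := by
      rw [two_mul, Real.exp_add, Real.exp_log (by linarith)]
      ring
    rw [h7, ← Real.exp_sub]
    congr 1
    ring
  rw [h6]
  exact Real.exp_le_exp.2 (by linarith)

end Pool.Agent.PTW
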