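import Pool.Agent.PTW.Defs
import Pool.Agent.PTW.C3
import Pool.Agent.PTW.C5

/-! # [PTW-C6] block C with the names of `Defs` -/

set_option autoImplicit false

namespace Pool.Agent.PTW

open Finset

theorem cell_eq (n N p : ℕ) : cell n N p = ix n (N : ℝ) p := rfl

/-- [MASS] for any finite set `P` of primes which contains all those of the cells up to `I` -/
theorem mass_ix : ∀ n i0 I : ℕ, 1 ≤ n → 1 ≤ i0 → ∀ κ : ℝ, 0 < κ → ∃ N0 : ℕ, ∀ N : ℕ, N0 ≤ N →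
    (∀ p ∈ PP n i0 I N, i0 ≤ ix n (N : ℝ) p) ∧
    (∀ i : ℕ, i0 < i → i ≤ I →
      |∑ p ∈ (PP n i0 I N).filter (fun p => ix n (N : ℝ) p = i), 2 / (p : ℝ) - Real.log ((i : ℝ) / (i - 1))| ≤ κ) ∧
    ∑ p ∈ (PP n i0 I N).filter (fun p => ix n (N : ℝ) p ≤ i0), 2 / (p : ℝ) ≤ κ := mass

theorem v0_SP : ∃ c : ℝ, 0 < c ∧ ∀ E : ℕ, 1 ≤ E → ∀ g : ℕ → ℝ,
    (∀ p : ℕ, p.Prime → 0 ≤ g p ∧ g p ≤ 2 / p ∧ g p ≤ 1 / 2) →
    c / (E : ℝ) ^ 2 ≤ ∏ p ∈ SP E, (1 - g p) := by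
  obtain ⟨c, hc, h⟩ := v0
  refine ⟨c, hc, fun E hE g hg => ?_⟩
  have h1 : SP E = (range (2 ^ E + 1)).filter Nat.Prime := by
    unfold SP
    ext p
    rw [mem_filter, mem_filter, mem_Icc, mem_range, Nat.lt_succ_iff]
    constructor
    · rintro ⟨⟨_, h2⟩, h3⟩
      exact ⟨h2, h3⟩
    · rintro ⟨h2, h3⟩
      exact ⟨⟨h3.one_le, h2⟩, h3⟩
  rw [h1]
  exact h E hE g hg

/-- the index is monotone in `p` -/
theorem ix_mono {n : ℕ} {x : ℝ} (hx : 1 < x) {p q : ℕ} (hp : 1 ≤ p) (hpq : p ≤ q) : ix n x p ≤ ix n x q := by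
  unfold ix
  have hl : 0 < Real.log x := Real.log_pos hx
  have h1 : Real.log p ≤ Real.log q := Real.log_le_log (by exact_mod_cast hp) (by exact_mod_cast hpq)
  apply Nat.succ_le_succ
  apply Nat.floor_le_floor
  apply div_le_div_of_nonneg_right _ hl.le
  exact mul_le_mul_of_nonneg_left h1 (Nat.cast_nonneg n)

end Pool.Agent.PTW
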