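import Pool.Agent.PTW.Defs

set_option autoImplicit false

namespace Pool.Agent.PTW

open Finset

/-- [PTW-D1a] subsets by their largest member. Proof. Induction on `S` by the maximum (`Finset.induction_on_max`), or the bijection `T ↦ (max T, T.erase max)` of the non-empty subsets. -/
theorem sum_powerset_max (S : Finset ℕ) (F : Finset ℕ → ℝ) :
    ∑ T ∈ S.powerset, F T = F ∅ + ∑ p ∈ S, ∑ T ∈ (S.filter (· < p)).powerset, F (insert p T) := by
  induction S using Finset.induction_on_max with
  | empty => simp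
  | insert a s ha ih =>
    have hna : a ∉ s := fun h => lt_irrefl a (ha a h)
    rw [Finset.sum_powerset_insert hna, ih, Finset.sum_insert hna]
    have h1 : (insert a s).filter (· < a) = s := by
      ext x
      simp only [Finset.mem_filter, Finset.mem_insert]
      constructor
      · rintro ⟨h | h, hx⟩
        · omega
        · exact h
      · intro h
        exact ⟨Or.inr h, ha x h⟩
    have h2 : ∀ p ∈ s, (insert a s).filter (· < p) = s.filter (· < p) := by
      intro p hp
      have := ha p hp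
      ext x
      simp only [Finset.mem_filter, Finset.mem_insert]
      constructor
      · rintro ⟨h | h, hx⟩
        · omega
        · exact ⟨h, hx⟩
      · rintro ⟨h, hx⟩
        exact ⟨Or.inr h, hx⟩
    rw [h1]
    have h3 : ∑ p ∈ s, ∑ T ∈ ((insert a s).filter (· < p)).powerset, F (insert p T) = ∑ p ∈ s, ∑ T ∈ (s.filter (· < p)).powerset, F (insert p T) :=
      Finset.sum_congr rfl (fun p hp => by rw [h2 p hp])
    rw [h3]
    ring

theorem pat_empty (ix : ℕ → ℕ) : pat ix ∅ = [] := by
  unfold pat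
  rw [Finset.sort_empty, List.map_nil]

/-- [PTW-D1b] Proof. `(insert p T).sort (≥) = p :: T.sort (≥)` for `p > max T` (`List.eq_of_perm_of_sorted`/`Finset.sort_insert`). -/
theorem pat_insert (ix : ℕ → ℕ) (T : Finset ℕ) (p : ℕ) (h : ∀ q ∈ T, q < p) : pat ix (insert p T) = ix p :: pat ix T := by
  unfold pat
  rw [Finset.sort_insert (r := (· ≥ ·)) (fun b hb => (h b hb).le) (fun hp => lt_irrefl p (h p hp)), List.map_cons]

theorem D1_term (ix : ℕ → ℕ) (φ : ℕ → ℝ) (up : Bool) (l : ℕ) (T : Finset ℕ) (p : ℕ) (h : ∀ q ∈ T, q < p) :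
    lam ix up l (insert p T) * ∏ q ∈ insert p T, φ q = φ p * (lamL up l (ix p :: pat ix T) * ∏ q ∈ T, φ q) := by
  unfold lam
  rw [pat_insert ix T p h, Finset.prod_insert (fun hp => lt_irrefl p (h p hp))]
  ring

theorem D1_MT (ix : ℕ → ℕ) (φ : ℕ → ℝ) (up : Bool) (l : ℕ) (S : Finset ℕ) :
    MT ix φ up l S = 1 + ∑ p ∈ S, φ p * ∑ T ∈ (S.filter (· < p)).powerset, lamL up l (ix p :: pat ix T) * ∏ q ∈ T, φ q := by
  have h0 := sum_powerset_max S (fun T => lam ix up l T * ∏ p ∈ T, φ p)
  unfold MT
  rw [h0]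
  have h1 : lam ix up l ∅ * ∏ p ∈ (∅ : Finset ℕ), φ p = 1 := by
    unfold lam
    rw [pat_empty, Finset.prod_empty, mul_one]
    cases up <;> rfl
  rw [h1]
  refine congrArg _ (Finset.sum_congr rfl (fun p _ => ?_))
  rw [Finset.mul_sum]
  refine Finset.sum_congr rfl (fun T hT => ?_)
  refine D1_term ix φ up l T p (fun q hq => ?_)
  have := Finset.mem_powerset.1 hT hq
  exact (Finset.mem_filter.1 this).2

/-- [PTW-D1c] recursion of the main sums. Proof. `sum_powerset_max`, `pat_insert`, the definition of `lamL`. -/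
theorem MT_true (ix : ℕ → ℕ) (φ : ℕ → ℝ) (l : ℕ) (S : Finset ℕ) :
    MT ix φ true l S = 1 - ∑ p ∈ S.filter (fun p => 3 * ix p ≤ l), φ p * MT ix φ false (l - ix p) (S.filter (· < p)) := by
  rw [D1_MT, sub_eq_add_neg, ← Finset.sum_neg_distrib, Finset.sum_filter]
  refine congrArg _ (Finset.sum_congr rfl (fun p _ => ?_))
  by_cases h : 3 * ix p ≤ l
  · rw [if_pos h]
    unfold MT
    rw [← mul_neg, ← Finset.sum_neg_distrib]
    refine congrArg _ (Finset.sum_congr rfl (fun T _ => ?_))
    unfold lam
    rw [lamL, if_pos h]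
    ring
  · rw [if_neg h]
    have h1 : ∀ T ∈ (S.filter (· < p)).powerset, lamL true l (ix p :: pat ix T) * ∏ q ∈ T, φ q = 0 := by
      intro T _
      rw [lamL, if_neg h, zero_mul]
    rw [Finset.sum_congr rfl h1, Finset.sum_const_zero, mul_zero]

theorem MT_false (ix : ℕ → ℕ) (φ : ℕ → ℝ) (l : ℕ) (S : Finset ℕ) :
    MT ix φ false l S = 1 - ∑ p ∈ S, φ p * MT ix φ true (l - ix p) (S.filter (· < p)) := by
  rw [D1_MT, sub_eq_add_neg, ← Finset.sum_neg_distrib]
  refine congrArg _ (Finset.sum_congr rfl (fun p _ => ?_))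
  unfold MT
  rw [← mul_neg, ← Finset.sum_neg_distrib]
  refine congrArg _ (Finset.sum_congr rfl (fun T _ => ?_))
  unfold lam
  rw [lamL]
  ring

theorem D1_min (S : Finset ℕ) : (∑ p ∈ S, if S.filter (· < p) = ∅ then (1 : ℝ) else 0) = 1 - (if S = ∅ then (1 : ℝ) else 0) := by
  rcases S.eq_empty_or_nonempty with h | h
  · subst h
    simp
  · rw [if_neg h.ne_empty, sub_zero, Finset.sum_eq_single (S.min' h)]
    · rw [if_pos]
      rw [Finset.filter_eq_empty_iff]
      intro x hx
      exact not_lt.2 (S.min'_le x hx)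
    · intro b hb hne
      rw [if_neg]
      intro h0
      rw [Finset.filter_eq_empty_iff] at h0
      have h1 := h0 (S.min'_mem h)
      have h2 := S.min'_le b hb
      omega
    · intro h0
      exact absurd (S.min'_mem h) h0

/-- [PTW-D1d] the sieve inequalities. Proof. Strong induction on `#S` for both: `MT true l S = 1 - ∑_{3 ix p ≤ l} MT false (..) S_{<p} ≥ 1 - ∑_{p ∈ S} [S_{<p} = ∅] = [S = ∅]` (only the least `p` has `S_{<p} = ∅`; all the
indicators are `≥ 0`), `MT false l S = 1 - ∑_{p ∈ S} MT true (..) S_{<p} ≤ 1 - ∑_{p ∈ S} [S_{<p} = ∅]`. -/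
theorem MT_one (ix : ℕ → ℕ) (l : ℕ) (S : Finset ℕ) :
    (if S = ∅ then (1 : ℝ) else 0) ≤ MT ix (fun _ => 1) true l S ∧ MT ix (fun _ => 1) false l S ≤ (if S = ∅ then (1 : ℝ) else 0) := by
  induction S using Finset.strongInduction generalizing l with
  | H S ih =>
    have hlt : ∀ p ∈ S, S.filter (· < p) ⊂ S := by
      intro p hp
      refine (Finset.filter_subset _ _).ssubset_of_ne ?_
      intro h
      have : p ∈ S.filter (· < p) := by rw [h]; exact hp
      exact lt_irrefl p (Finset.mem_filter.1 this).2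
    have hmin := D1_min S
    constructor
    · rw [MT_true]
      have h1 : ∑ p ∈ S.filter (fun p => 3 * ix p ≤ l), (1 : ℝ) * MT ix (fun _ => 1) false (l - ix p) (S.filter (· < p)) ≤
          ∑ p ∈ S, if S.filter (· < p) = ∅ then (1 : ℝ) else 0 := by
        refine (Finset.sum_le_sum (g := fun p => if S.filter (· < p) = ∅ then (1 : ℝ) else 0) (fun p hp => ?_)).trans ?_
        · rw [one_mul]
          exact (ih _ (hlt p (Finset.mem_filter.1 hp).1) _).2
        · exact Finset.sum_le_sum_of_subset_of_nonneg (Finset.filter_subset _ _) (fun p _ _ => by split_ifs <;> norm_num)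
      linarith
    · rw [MT_false]
      have h1 : (∑ p ∈ S, if S.filter (· < p) = ∅ then (1 : ℝ) else 0) ≤
          ∑ p ∈ S, (1 : ℝ) * MT ix (fun _ => 1) true (l - ix p) (S.filter (· < p)) := by
        refine Finset.sum_le_sum (fun p hp => ?_)
        rw [one_mul]
        exact (ih _ (hlt p hp) _).1
      linarith

/-- [PTW-D1e] Proof. Induction on the list. -/
theorem abs_lamL (up : Bool) (l : ℕ) (L : List ℕ) : |lamL up l L| ≤ 1 := by
  induction L generalizing up l with
  | nil => cases up <;> simp [lamL]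
  | cons i t ih =>
    cases up
    · rw [lamL, abs_neg]
      exact ih true (l - i)
    · rw [lamL]
      split_ifs
      · rw [abs_neg]
        exact ih false (l - i)
      · simp

end Pool.Agent.PTW
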