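import Pool.Agent.PTW.Defs

set_option autoImplicit false

namespace Pool.Agent.PTW

open Finset

theorem D2_rec (L : List ℕ) : ∀ (up : Bool) (l μ κ : ℕ), L.Pairwise (· ≥ ·) → lamL up l L ≠ 0 →
    (up = false → ∀ i ∈ L, 2 * i ≤ l) → μ + κ = l →
    ∃ L₁ L₂ : List ℕ, L.Perm (L₁ ++ L₂) ∧ L₁.Sublist L ∧ L₂.Sublist L ∧ L₁.sum ≤ μ ∧ L₂.sum ≤ κ := by
  induction L with
  | nil =>
    intro up l μ κ _ _ _ _
    exact ⟨[], [], by simp, by simp, by simp, by simp, by simp⟩
  | cons i t ih =>
    intro up l μ κ hL h h2 hl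
    rw [List.pairwise_cons] at hL
    obtain ⟨hi, ht⟩ := hL
    have h2i : 2 * i ≤ l := by
      cases up with
      | true =>
        by_contra hc
        apply h
        simp only [lamL]
        rw [if_neg (by omega)]
      | false => exact h2 rfl i List.mem_cons_self
    have hnz : lamL (!up) (l - i) t ≠ 0 := by
      cases up with
      | true =>
        intro hc
        apply h
        simp only [lamL]
        simp only [Bool.not_true] at hc
        rw [hc]
        simp
      | false =>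
        intro hc
        apply h
        simp only [lamL]
        simp only [Bool.not_false] at hc
        rw [hc]
        simp
    have h2' : (!up) = false → ∀ j ∈ t, 2 * j ≤ l - i := by
      intro hup j hj
      have hup' : up = true := by simpa using hup
      subst hup'
      have h3 : 3 * i ≤ l := by
        by_contra hc
        apply h
        simp only [lamL]
        rw [if_neg hc]
      have := hi j hj
      omega
    rcases Nat.lt_or_ge μ i with hlt | hge
    · -- put `i` in the second part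
      have hκ : i ≤ κ := by omega
      obtain ⟨L₁, L₂, hp, hs1, hs2, hm1, hm2⟩ := ih (!up) (l - i) μ (κ - i) ht hnz h2' (by omega)
      refine ⟨L₁, i :: L₂, ?_, hs1.trans (List.sublist_cons_self i t), hs2.cons_cons i, hm1, ?_⟩
      · exact (List.Perm.cons i hp).trans List.perm_middle.symm
      · rw [List.sum_cons]; omega
    · obtain ⟨L₁, L₂, hp, hs1, hs2, hm1, hm2⟩ := ih (!up) (l - i) (μ - i) κ ht hnz h2' (by omega)
      refine ⟨i :: L₁, L₂, ?_, hs1.cons_cons i, hs2.trans (List.sublist_cons_self i t), ?_, hm2⟩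
      · rw [List.cons_append]
        exact List.Perm.cons i hp
      · rw [List.sum_cons]; omega

/-- [PTW-D2a] well factorable. Proof. Induction on `L` for all `up`, `l`, `μ`, `κ`. `L = i :: L'`, `2 i ≤ l = μ + κ` (if `up = true`, `lamL ≠ 0` gives `3 i ≤ l`), so `i ≤ μ` or `i ≤ κ`; put `i` in that part, and apply the induction
hypothesis to `L'`, `!up`, `l - i`, the remaining capacities. For `up = false` the next sign is `true` (nothing to check); for `up = true` the next is `false` and every member `i'` of `L'` has `2 i' ≤ 2 i ≤ l - i`. `l₁`, `l₂` are sublists. -/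
theorem split (up : Bool) (l μ κ : ℕ) (L : List ℕ) (hL : L.Pairwise (· ≥ ·)) (h : lamL up l L ≠ 0)
    (h2 : up = false → ∀ i ∈ L, 2 * i ≤ l) (hl : μ + κ = l) :
    ∃ L₁ L₂ : List ℕ, L.Perm (L₁ ++ L₂) ∧ L₁.Sublist L ∧ L₂.Sublist L ∧ L₁.sum ≤ μ ∧ L₂.sum ≤ κ :=
  D2_rec L up l μ κ hL h h2 hl

theorem D2_coe (ix : ℕ → ℕ) (T : Finset ℕ) : ((pat ix T : List ℕ) : Multiset ℕ) = T.val.map ix := by
  unfold pat
  rw [← Multiset.map_coe, Finset.sort_eq]

/-- [PTW-D2b] Proof. `pat ix T` is the decreasing rearrangement of the multiset of the indices (`ix` monotone): by `Finset.sort` and monotonicity it is pairwise `≥`, and a permutation of any list with the same multiset. -/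
theorem pat_sorted (ix : ℕ → ℕ) (hix : Monotone ix) (T : Finset ℕ) : (pat ix T).Pairwise (· ≥ ·) := by
  unfold pat
  refine List.Pairwise.map ix (fun a b hab => hix hab) ?_
  exact Finset.pairwise_sort T (· ≥ ·)

theorem pat_eq_iff (ix : ℕ → ℕ) (hix : Monotone ix) (T : Finset ℕ) (L : List ℕ) (hL : L.Pairwise (· ≥ ·)) :
    pat ix T = L ↔ T.val.map ix = (L : Multiset ℕ) := by
  rw [← D2_coe]
  constructor
  · rintro rfl; rfl
  · intro h
    exact (Multiset.coe_eq_coe.1 h).eq_of_pairwise' (pat_sorted ix hix T) hL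

open Classical in
/-- the number of ways to split `T` into parts with patterns `L₁`, `L₂` -/
noncomputable def waysN (ix : ℕ → ℕ) (L₁ L₂ : List ℕ) (T : Finset ℕ) : ℕ :=
  (T.powerset.filter (fun T₁ => pat ix T₁ = L₁ ∧ pat ix (T \ T₁) = L₂)).card

theorem D2_bij (ix : ℕ → ℕ) (T : Finset ℕ) : ∀ T' : Finset ℕ, T.val.map ix = T'.val.map ix →
    ∃ f : ℕ → ℕ, Set.InjOn f T ∧ (∀ x ∈ T, ix (f x) = ix x) ∧ T.image f = T' := by
  induction T using Finset.induction_on with
  | empty =>
    intro T' h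
    refine ⟨id, by simp, by simp, ?_⟩
    have : T'.val = 0 := by
      have h' : (0 : Multiset ℕ) = T'.val.map ix := by simpa using h
      exact Multiset.map_eq_zero.1 h'.symm
    rw [Finset.image_empty]
    exact (Finset.val_eq_zero.1 this).symm
  | insert a S ha ih =>
    intro T' h
    rw [Finset.insert_val_of_notMem ha, Multiset.map_cons] at h
    have hmem : ix a ∈ T'.val.map ix := by rw [← h]; exact Multiset.mem_cons_self _ _
    obtain ⟨b, hb, hab⟩ := Multiset.mem_map.1 hmem
    have hb' : b ∈ T' := hb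
    have hT : T' = insert b (T'.erase b) := (Finset.insert_erase hb').symm
    have h2 : S.val.map ix = (T'.erase b).val.map ix := by
      rw [hT, Finset.insert_val_of_notMem (Finset.notMem_erase b T'), Multiset.map_cons, hab] at h
      exact (Multiset.cons_inj_right _).1 h
    obtain ⟨f, hf1, hf2, hf3⟩ := ih _ h2
    have hne : ∀ x ∈ S, x ≠ a := fun x hx hxa => ha (hxa ▸ hx)
    refine ⟨Function.update f a b, ?_, ?_, ?_⟩
    · intro x hx y hy hxy
      rw [Finset.mem_coe, Finset.mem_insert] at hx hy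
      have hfS : ∀ z ∈ S, f z ∈ T'.erase b := fun z hz => hf3 ▸ Finset.mem_image_of_mem f hz
      rcases hx with rfl | hx <;> rcases hy with rfl | hy
      · rfl
      · rw [Function.update_self, Function.update_of_ne (hne y hy)] at hxy
        exact absurd (hfS y hy) (by rw [← hxy]; exact Finset.notMem_erase b T')
      · rw [Function.update_self, Function.update_of_ne (hne x hx)] at hxy
        exact absurd (hfS x hx) (by rw [hxy]; exact Finset.notMem_erase b T')
      · rw [Function.update_of_ne (hne x hx), Function.update_of_ne (hne y hy)] at hxy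
        exact hf1 hx hy hxy
    · intro x hx
      rw [Finset.mem_insert] at hx
      rcases hx with rfl | hx
      · rw [Function.update_self, hab]
      · rw [Function.update_of_ne (hne x hx)]
        exact hf2 x hx
    · rw [Finset.image_insert, Function.update_self, hT]
      congr 1
      rw [← hf3]
      refine Finset.image_congr fun x hx => ?_
      rw [Function.update_of_ne (hne x hx)]

theorem D2_pat_image (ix : ℕ → ℕ) (hix : Monotone ix) (f : ℕ → ℕ) (T : Finset ℕ) (hf : Set.InjOn f T)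
    (h : ∀ x ∈ T, ix (f x) = ix x) : pat ix (T.image f) = pat ix T := by
  rw [pat_eq_iff ix hix _ _ (pat_sorted ix hix T), D2_coe, Finset.image_val_of_injOn hf,
    Multiset.map_map]
  exact Multiset.map_congr rfl fun x hx => h x hx

theorem D2_ways_le (ix : ℕ → ℕ) (hix : Monotone ix) (L₁ L₂ : List ℕ) (T T' : Finset ℕ)
    (h : pat ix T = pat ix T') : waysN ix L₁ L₂ T ≤ waysN ix L₁ L₂ T' := by
  classical
  have h' : T.val.map ix = T'.val.map ix := by rw [← D2_coe, ← D2_coe, h]
  obtain ⟨f, hf1, hf2, hf3⟩ := D2_bij ix T T' h'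
  unfold waysN
  refine Finset.card_le_card_of_injOn (fun A => A.image f) ?_ ?_
  · intro A hA
    rw [Finset.mem_coe, Finset.mem_filter, Finset.mem_powerset] at hA ⊢
    obtain ⟨hAT, hA1, hA2⟩ := hA
    refine ⟨hf3 ▸ Finset.image_subset_image hAT, ?_, ?_⟩
    · rw [D2_pat_image ix hix f A (hf1.mono (Finset.coe_subset.2 hAT)) fun x hx => hf2 x (hAT hx)]
      exact hA1
    · have hs : T' \ A.image f = (T \ A).image f := by
        rw [← hf3]
        ext y
        simp only [Finset.mem_sdiff, Finset.mem_image, not_exists, not_and]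
        constructor
        · rintro ⟨⟨x, hx, rfl⟩, hy⟩
          exact ⟨x, ⟨hx, fun hxA => hy x hxA rfl⟩, rfl⟩
        · rintro ⟨x, ⟨hx, hxA⟩, rfl⟩
          refine ⟨⟨x, hx, rfl⟩, fun z hz hzx => hxA ?_⟩
          rw [← hf1 (hAT hz) hx hzx]; exact hz
      have hsub : T \ A ⊆ T := Finset.sdiff_subset
      simp only []
      rw [hs, D2_pat_image ix hix f (T \ A) (hf1.mono (Finset.coe_subset.2 hsub))
        fun x hx => hf2 x (hsub hx)]
      exact hA2
  · intro A hA B hB hAB
    rw [Finset.mem_coe, Finset.mem_filter, Finset.mem_powerset] at hA hB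
    simp only [] at hAB
    ext x
    constructor
    · intro hx
      have : f x ∈ B.image f := hAB ▸ Finset.mem_image_of_mem f hx
      obtain ⟨y, hy, hyx⟩ := Finset.mem_image.1 this
      rw [← hf1 (hB.1 hy) (hA.1 hx) hyx]; exact hy
    · intro hx
      have : f x ∈ A.image f := hAB ▸ Finset.mem_image_of_mem f hx
      obtain ⟨y, hy, hyx⟩ := Finset.mem_image.1 this
      rw [← hf1 (hA.1 hy) (hB.1 hx) hyx]; exact hy

/-- [PTW-D2c] Proof. If `pat ix T = pat ix T'` there is a bijection `e : T ≃ T'` with `ix ∘ e = ix` (the fibres of `ix` have the same cardinality); it induces a bijection of the subsets that keeps the patterns of `T₁` and `T \ T₁`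
(`pat_eq_iff`: the pattern is determined by the multiset of the indices; for `L₁` not pairwise `≥` both sides are `0` by `pat_sorted`). -/
theorem ways_eq (ix : ℕ → ℕ) (hix : Monotone ix) (L₁ L₂ : List ℕ) (T T' : Finset ℕ) (h : pat ix T = pat ix T') :
    waysN ix L₁ L₂ T = waysN ix L₁ L₂ T' :=
  le_antisymm (D2_ways_le ix hix L₁ L₂ T T' h) (D2_ways_le ix hix L₁ L₂ T' T h.symm)

theorem D2_parts (ix : ℕ → ℕ) (T : Finset ℕ) : ∀ m₁ m₂ : Multiset ℕ, T.val.map ix = m₁ + m₂ →
    ∃ A ⊆ T, A.val.map ix = m₁ ∧ (T \ A).val.map ix = m₂ := by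
  induction T using Finset.induction_on with
  | empty =>
    intro m₁ m₂ h
    have h0 : m₁ + m₂ = 0 := by rw [← h]; simp
    have h1 : m₁ = 0 := (add_eq_zero.1 h0).1
    have h2 : m₂ = 0 := (add_eq_zero.1 h0).2
    exact ⟨∅, by simp, by simp [h1], by simp [h2]⟩
  | insert a S ha ih =>
    intro m₁ m₂ h
    rw [Finset.insert_val_of_notMem ha, Multiset.map_cons] at h
    have hmem : ix a ∈ m₁ + m₂ := by rw [← h]; exact Multiset.mem_cons_self _ _
    rcases Multiset.mem_add.1 hmem with hm | hm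
    · obtain ⟨m, rfl⟩ := Multiset.exists_cons_of_mem hm
      rw [Multiset.cons_add] at h
      obtain ⟨A, hA, hA1, hA2⟩ := ih m m₂ ((Multiset.cons_inj_right _).1 h)
      have haA : a ∉ A := fun hh => ha (hA hh)
      refine ⟨insert a A, Finset.insert_subset_insert a hA, ?_, ?_⟩
      · rw [Finset.insert_val_of_notMem haA, Multiset.map_cons, hA1]
      · have : insert a S \ insert a A = S \ A := by
          ext x
          simp only [Finset.mem_sdiff, Finset.mem_insert, not_or]
          constructor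
          · rintro ⟨rfl | hx, h1, h2⟩
            · exact absurd rfl h1
            · exact ⟨hx, h2⟩
          · rintro ⟨hx, h2⟩
            exact ⟨Or.inr hx, fun hxa => ha (hxa ▸ hx), h2⟩
        rw [this, hA2]
    · obtain ⟨m, rfl⟩ := Multiset.exists_cons_of_mem hm
      rw [Multiset.add_cons] at h
      obtain ⟨A, hA, hA1, hA2⟩ := ih m₁ m ((Multiset.cons_inj_right _).1 h)
      have haA : a ∉ A := fun hh => ha (hA hh)
      refine ⟨A, hA.trans (Finset.subset_insert a S), hA1, ?_⟩
      have : insert a S \ A = insert a (S \ A) := by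
        ext x
        simp only [Finset.mem_sdiff, Finset.mem_insert]
        constructor
        · rintro ⟨rfl | hx, h1⟩
          · exact Or.inl rfl
          · exact Or.inr ⟨hx, h1⟩
        · rintro (rfl | ⟨hx, h1⟩)
          · exact ⟨Or.inl rfl, haA⟩
          · exact ⟨Or.inr hx, h1⟩
      rw [this, Finset.insert_val_of_notMem (fun hh => ha (Finset.mem_sdiff.1 hh).1),
        Multiset.map_cons, hA2]

/-- [PTW-D2d] Proof. `L₁ ++ L₂` is a permutation of `pat ix T`; take the elements of `T` at the positions of the sublist `L₁` (existence: `T.val.map ix = L₁ + L₂` as multisets, `Multiset.map` splits: there are `m₁ + m₂ = T.val` with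
`m₁.map ix = L₁`, `m₂.map ix = L₂`). -/
theorem ways_pos (ix : ℕ → ℕ) (hix : Monotone ix) (L₁ L₂ : List ℕ) (T : Finset ℕ) (h : (pat ix T).Perm (L₁ ++ L₂))
    (h₁ : L₁.Pairwise (· ≥ ·)) (h₂ : L₂.Pairwise (· ≥ ·)) : 1 ≤ waysN ix L₁ L₂ T := by
  classical
  have h' : T.val.map ix = (L₁ : Multiset ℕ) + (L₂ : Multiset ℕ) := by
    rw [← D2_coe, Multiset.coe_add]
    exact Multiset.coe_eq_coe.2 h
  obtain ⟨A, hA, hA1, hA2⟩ := D2_parts ix T _ _ h'
  unfold waysN
  refine Finset.card_pos.2 ⟨A, ?_⟩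
  rw [Finset.mem_filter, Finset.mem_powerset]
  exact ⟨hA, (pat_eq_iff ix hix A L₁ h₁).2 hA1, (pat_eq_iff ix hix (T \ A) L₂ h₂).2 hA2⟩

theorem D2_union (ix : ℕ → ℕ) (hix : Monotone ix) (L L₁ L₂ : List ℕ) (hL : L.Pairwise (· ≥ ·))
    (hP : L.Perm (L₁ ++ L₂)) (A B : Finset ℕ) (hA : pat ix A = L₁) (hB : pat ix B = L₂)
    (hAB : Disjoint A B) : pat ix (A ∪ B) = L := by
  rw [pat_eq_iff ix hix _ L hL]
  have hv : (A ∪ B).val = A.val + B.val := by
    rw [← Finset.disjUnion_eq_union A B hAB]; rfl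
  rw [hv, Multiset.map_add, ← D2_coe, ← D2_coe, hA, hB, Multiset.coe_add]
  exact (Multiset.coe_eq_coe.2 hP).symm

open Classical in
/-- [PTW-D2e] the sum over one pattern is a bilinear form. Proof. If no `T ⊆ P` has pattern `L` then both sides are `0` with `c = 1` (two disjoint sets with patterns `L₁`, `L₂` have a union with pattern `L`, by `pat_eq_iff`). Otherwise `c = waysN` of any such `T`
(`ways_eq`), `c ≥ 1` (`ways_pos`); `(T₁, T₂) ↦ T₁ ∪ T₂` has fibres of size `c`. -/
theorem pattern_sum (ix : ℕ → ℕ) (hix : Monotone ix) (L L₁ L₂ : List ℕ) (hL : L.Pairwise (· ≥ ·)) (hP : L.Perm (L₁ ++ L₂))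
    (h₁ : L₁.Pairwise (· ≥ ·)) (h₂ : L₂.Pairwise (· ≥ ·)) (P : Finset ℕ) :
    ∃ c : ℝ, 1 ≤ c ∧ ∀ R : Finset ℕ → ℝ,
      ∑ T₁ ∈ P.powerset.filter (fun T => pat ix T = L₁), ∑ T₂ ∈ P.powerset.filter (fun T => pat ix T = L₂ ∧ Disjoint T₁ T), R (T₁ ∪ T₂) =
        c * ∑ T ∈ P.powerset.filter (fun T => pat ix T = L), R T := by
  have key : ∀ R : Finset ℕ → ℝ,
      ∑ T₁ ∈ P.powerset.filter (fun T => pat ix T = L₁),
        ∑ T₂ ∈ P.powerset.filter (fun T => pat ix T = L₂ ∧ Disjoint T₁ T), R (T₁ ∪ T₂) =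
      ∑ T ∈ P.powerset.filter (fun T => pat ix T = L),
        ∑ _T₁ ∈ T.powerset.filter (fun T₁ => pat ix T₁ = L₁ ∧ pat ix (T \ T₁) = L₂), R T := by
    intro R
    rw [Finset.sum_sigma', Finset.sum_sigma']
    refine Finset.sum_bij' (fun x _ => ⟨x.1 ∪ x.2, x.1⟩) (fun x _ => ⟨x.2, x.1 \ x.2⟩) ?_ ?_ ?_ ?_ ?_
    · rintro ⟨A, B⟩ h
      simp only [Finset.mem_sigma, Finset.mem_filter, Finset.mem_powerset] at h ⊢
      obtain ⟨⟨hA, hA1⟩, hB, hB1, hd⟩ := h
      refine ⟨⟨Finset.union_subset hA hB, D2_union ix hix L L₁ L₂ hL hP A B hA1 hB1 hd⟩,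
        Finset.subset_union_left, hA1, ?_⟩
      rw [Finset.union_sdiff_cancel_left hd]
      exact hB1
    · rintro ⟨T, A⟩ h
      simp only [Finset.mem_sigma, Finset.mem_filter, Finset.mem_powerset] at h ⊢
      obtain ⟨⟨hT, hT1⟩, hA, hA1, hA2⟩ := h
      exact ⟨⟨hA.trans hT, hA1⟩, Finset.sdiff_subset.trans hT, hA2, Finset.disjoint_sdiff⟩
    · rintro ⟨A, B⟩ h
      simp only [Finset.mem_sigma, Finset.mem_filter, Finset.mem_powerset] at h
      obtain ⟨⟨hA, hA1⟩, hB, hB1, hd⟩ := h
      simp only [Finset.union_sdiff_cancel_left hd]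
    · rintro ⟨T, A⟩ h
      simp only [Finset.mem_sigma, Finset.mem_filter, Finset.mem_powerset] at h
      obtain ⟨⟨hT, hT1⟩, hA, hA1, hA2⟩ := h
      simp only [Finset.union_sdiff_of_subset hA]
    · rintro ⟨A, B⟩ h
      rfl
  by_cases hex : ∃ T₀ ∈ P.powerset.filter (fun T => pat ix T = L), True
  · obtain ⟨T₀, hT₀, -⟩ := hex
    rw [Finset.mem_filter, Finset.mem_powerset] at hT₀
    refine ⟨(waysN ix L₁ L₂ T₀ : ℝ), ?_, fun R => ?_⟩
    · exact_mod_cast ways_pos ix hix L₁ L₂ T₀ (hT₀.2 ▸ hP) h₁ h₂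
    · rw [key R, Finset.mul_sum]
      refine Finset.sum_congr rfl fun T hT => ?_
      rw [Finset.mem_filter, Finset.mem_powerset] at hT
      rw [Finset.sum_const, nsmul_eq_mul, ways_eq ix hix L₁ L₂ T₀ T (hT₀.2.trans hT.2.symm)]
      rfl
  · refine ⟨1, le_rfl, fun R => ?_⟩
    have he : P.powerset.filter (fun T => pat ix T = L) = ∅ := by
      rw [Finset.eq_empty_iff_forall_notMem]
      exact fun T hT => hex ⟨T, hT, trivial⟩
    rw [key R, he]
    simp

end Pool.Agent.PTW
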