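import Mathlib

/-!
# MP_2fff8e_nt [PTW], block E: the functions of the linear sieve as a least fixed point
-/

set_option autoImplicit false

open MeasureTheory Set Filter Topology

open scoped ENNReal

namespace Pool.Agent.PTW

noncomputable section

/-- The operator on pairs `(P, Q)`; `F = 1 + P`, `f = 1 - Q`. -/
def TT (z : (ℝ → ℝ≥0∞) × (ℝ → ℝ≥0∞)) : (ℝ → ℝ≥0∞) × (ℝ → ℝ≥0∞) :=
  (fun s => if s < 3 then (ENNReal.ofReal (3 - s) + ∫⁻ y in Ioi (2 : ℝ), z.2 y) / ENNReal.ofReal s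
      else (∫⁻ y in Ioi (s - 1), z.2 y) / ENNReal.ofReal s,
    fun s => (∫⁻ y in Ioi (s - 1), z.1 y) / ENNReal.ofReal s)

theorem TT_mono : Monotone TT := by
  intro z w h
  refine ⟨fun s => ?_, fun s => ?_⟩
  · simp only [TT]
    split_ifs
    · exact ENNReal.div_le_div_right (add_le_add_right (lintegral_mono h.2) _) _
    · exact ENNReal.div_le_div_right (lintegral_mono h.2) _
  · exact ENNReal.div_le_div_right (lintegral_mono h.1) _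

/-- The least fixed point. -/
def PQ : (ℝ → ℝ≥0∞) × (ℝ → ℝ≥0∞) := OrderHom.lfp ⟨TT, TT_mono⟩

theorem PQ_eq : TT PQ = PQ := OrderHom.map_lfp ⟨TT, TT_mono⟩

theorem PQ_le {z : (ℝ → ℝ≥0∞) × (ℝ → ℝ≥0∞)} (h : TT z ≤ z) : PQ ≤ z :=
  OrderHom.lfp_le ⟨TT, TT_mono⟩ h

theorem P_lt {s : ℝ} (hs : s < 3) :
    PQ.1 s = (ENNReal.ofReal (3 - s) + ∫⁻ y in Ioi (2 : ℝ), PQ.2 y) / ENNReal.ofReal s := by
  conv_lhs => rw [← PQ_eq]
  simp [TT, hs]

theorem P_ge {s : ℝ} (hs : 3 ≤ s) :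
    PQ.1 s = (∫⁻ y in Ioi (s - 1), PQ.2 y) / ENNReal.ofReal s := by
  conv_lhs => rw [← PQ_eq]
  simp [TT, not_lt.mpr hs]

theorem Q_eq (s : ℝ) : PQ.2 s = (∫⁻ y in Ioi (s - 1), PQ.1 y) / ENNReal.ofReal s := by
  conv_lhs => rw [← PQ_eq]
  rfl

/-- The supersolution is `12 e² (Ho, exp (-s))`. -/
def Ho (s : ℝ) : ℝ := if s ≤ 3 then 5 / 4 * Real.exp (-2) / s else 5 / 4 * Real.exp (1 - s) / s

end

end Pool.Agent.PTW
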