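import Pool.Agent.PTW.E0

set_option autoImplicit false

open MeasureTheory Set Filter Topology

open scoped ENNReal

namespace Pool.Agent.PTW

/-- one interval -/
private theorem ee1_step {s a b c : ℝ} (ha : 2 ≤ a) (hc : 3 / (a - 1) ≤ Real.exp c)
    (E : ℝ) (hE : Real.exp ((b - 2) / 2) ≤ E) (h0 : 0 ≤ c + 1 / 3)
    (h1 : (c + 1 / 3) * E ^ 2 ≤ 4 / 5 * b) (hs : a ≤ s) (hb : s ≤ b) :
    Real.log (3 / (s - 1)) + 1 / 3 ≤ 4 / 5 * s * Real.exp (2 - s) := by
  have hs0 : 0 < s := by linarith
  have h2 : Real.log (3 / (s - 1)) ≤ c := by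
    have h3 : 3 / (s - 1) ≤ 3 / (a - 1) :=
      div_le_div_of_nonneg_left (by norm_num) (by linarith) (by linarith)
    rw [Real.log_le_iff_le_exp (div_pos (by norm_num) (by linarith))]
    exact h3.trans hc
  have hb0 : 0 < b := by linarith
  have h4 : Real.exp (b - 2) ≤ E ^ 2 := by
    have h5 : Real.exp (b - 2) = Real.exp ((b - 2) / 2) ^ 2 := by
      rw [← Real.exp_nat_mul]
      congr 1
      push_cast
      ring
    rw [h5]
    exact pow_le_pow_left₀ (Real.exp_nonneg _) hE 2
  have h6 : (c + 1 / 3) * Real.exp (b - 2) ≤ 4 / 5 * b :=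
    (mul_le_mul_of_nonneg_left h4 h0).trans h1
  have h7 : c + 1 / 3 ≤ 4 / 5 * b * Real.exp (2 - b) := by
    have h8 : Real.exp (b - 2) * Real.exp (2 - b) = 1 := by
      rw [← Real.exp_add]
      simp
    calc c + 1 / 3 = (c + 1 / 3) * Real.exp (b - 2) * Real.exp (2 - b) := by
          rw [mul_assoc, h8, mul_one]
      _ ≤ 4 / 5 * b * Real.exp (2 - b) :=
          mul_le_mul_of_nonneg_right h6 (Real.exp_nonneg _)
  have h9 : b * Real.exp (2 - b) ≤ s * Real.exp (2 - s) := by
    have h10 : b ≤ s * Real.exp (b - s) := by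
      have h11 : b - s + 1 ≤ Real.exp (b - s) := Real.add_one_le_exp _
      have h12 : b ≤ s * (b - s + 1) := by nlinarith
      exact h12.trans (mul_le_mul_of_nonneg_left h11 hs0.le)
    have h13 : Real.exp (2 - s) = Real.exp (b - s) * Real.exp (2 - b) := by
      rw [← Real.exp_add]
      congr 1
      ring
    rw [h13, ← mul_assoc]
    exact mul_le_mul_of_nonneg_right h10 (Real.exp_nonneg _)
  have h14 : 4 / 5 * b * Real.exp (2 - b) ≤ 4 / 5 * s * Real.exp (2 - s) := by
    rw [mul_assoc, mul_assoc]
    exact mul_le_mul_of_nonneg_left h9 (by norm_num)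
  linarith

/-- [EE1] numeric inequality. -/
theorem num {s : ℝ} (h2 : 2 ≤ s) (h4 : s ≤ 4) :
    Real.log (3 / (s - 1)) + 1 / 3 ≤ 4 / 5 * s * Real.exp (2 - s) := by
  rcases le_total s (21 / 10) with h100 | h100
  · refine ee1_step (a := 2) (b := 21 / 10) (c := 111 / 100) (by norm_num) ?_
      (1683 / 1600) ?_ (by norm_num) (by norm_num) h2 h100
    · refine le_trans ?_ (Real.sum_le_exp_of_nonneg (by norm_num) 5)
      norm_num [Finset.sum_range_succ, Nat.factorial]
    · refine (Real.exp_bound' (by norm_num) (by norm_num) (n := 2) (by norm_num)).trans ?_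
      norm_num [Finset.sum_range_succ, Nat.factorial]
  rcases le_total s (9 / 4) with h101 | h101
  · refine ee1_step (a := 21 / 10) (b := 9 / 4) (c := 101 / 100) (by norm_num) ?_
      (291 / 256) ?_ (by norm_num) (by norm_num) h100 h101
    · refine le_trans ?_ (Real.sum_le_exp_of_nonneg (by norm_num) 5)
      norm_num [Finset.sum_range_succ, Nat.factorial]
    · refine (Real.exp_bound' (by norm_num) (by norm_num) (n := 2) (by norm_num)).trans ?_
      norm_num [Finset.sum_range_succ, Nat.factorial]
  rcases le_total s (12 / 5) with h102 | h102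
  · refine ee1_step (a := 9 / 4) (b := 12 / 5) (c := 22 / 25) (by norm_num) ?_
      (123 / 100) ?_ (by norm_num) (by norm_num) h101 h102
    · refine le_trans ?_ (Real.sum_le_exp_of_nonneg (by norm_num) 5)
      norm_num [Finset.sum_range_succ, Nat.factorial]
    · refine (Real.exp_bound' (by norm_num) (by norm_num) (n := 2) (by norm_num)).trans ?_
      norm_num [Finset.sum_range_succ, Nat.factorial]
  rcases le_total s (13 / 5) with h103 | h103
  · refine ee1_step (a := 12 / 5) (b := 13 / 5) (c := 77 / 100) (by norm_num) ?_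
      (547 / 400) ?_ (by norm_num) (by norm_num) h102 h103
    · refine le_trans ?_ (Real.sum_le_exp_of_nonneg (by norm_num) 5)
      norm_num [Finset.sum_range_succ, Nat.factorial]
    · refine (Real.exp_bound' (by norm_num) (by norm_num) (n := 2) (by norm_num)).trans ?_
      norm_num [Finset.sum_range_succ, Nat.factorial]
  rcases le_total s (14 / 5) with h104 | h104
  · refine ee1_step (a := 13 / 5) (b := 14 / 5) (c := 16 / 25) (by norm_num) ?_
      (1681 / 1125) ?_ (by norm_num) (by norm_num) h103 h104
    · refine le_trans ?_ (Real.sum_le_exp_of_nonneg (by norm_num) 4)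
      norm_num [Finset.sum_range_succ, Nat.factorial]
    · refine (Real.exp_bound' (by norm_num) (by norm_num) (n := 3) (by norm_num)).trans ?_
      norm_num [Finset.sum_range_succ, Nat.factorial]
  rcases le_total s (3) with h105 | h105
  · refine ee1_step (a := 14 / 5) (b := 3) (c := 13 / 25) (by norm_num) ?_
      (119 / 72) ?_ (by norm_num) (by norm_num) h104 h105
    · refine le_trans ?_ (Real.sum_le_exp_of_nonneg (by norm_num) 4)
      norm_num [Finset.sum_range_succ, Nat.factorial]
    · refine (Real.exp_bound' (by norm_num) (by norm_num) (n := 3) (by norm_num)).trans ?_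
      norm_num [Finset.sum_range_succ, Nat.factorial]
  rcases le_total s (16 / 5) with h106 | h106
  · refine ee1_step (a := 3) (b := 16 / 5) (c := 41 / 100) (by norm_num) ?_
      (457 / 250) ?_ (by norm_num) (by norm_num) h105 h106
    · refine le_trans ?_ (Real.sum_le_exp_of_nonneg (by norm_num) 4)
      norm_num [Finset.sum_range_succ, Nat.factorial]
    · refine (Real.exp_bound' (by norm_num) (by norm_num) (n := 3) (by norm_num)).trans ?_
      norm_num [Finset.sum_range_succ, Nat.factorial]
  rcases le_total s (17 / 5) with h107 | h107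
  · refine ee1_step (a := 16 / 5) (b := 17 / 5) (c := 8 / 25) (by norm_num) ?_
      (18191 / 9000) ?_ (by norm_num) (by norm_num) h106 h107
    · refine le_trans ?_ (Real.sum_le_exp_of_nonneg (by norm_num) 3)
      norm_num [Finset.sum_range_succ, Nat.factorial]
    · refine (Real.exp_bound' (by norm_num) (by norm_num) (n := 3) (by norm_num)).trans ?_
      norm_num [Finset.sum_range_succ, Nat.factorial]
  rcases le_total s (18 / 5) with h108 | h108
  · refine ee1_step (a := 17 / 5) (b := 18 / 5) (c := 23 / 100) (by norm_num) ?_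
      (2513 / 1125) ?_ (by norm_num) (by norm_num) h107 h108
    · refine le_trans ?_ (Real.sum_le_exp_of_nonneg (by norm_num) 3)
      norm_num [Finset.sum_range_succ, Nat.factorial]
    · refine (Real.exp_bound' (by norm_num) (by norm_num) (n := 3) (by norm_num)).trans ?_
      norm_num [Finset.sum_range_succ, Nat.factorial]
  rcases le_total s (19 / 5) with h109 | h109
  · refine ee1_step (a := 18 / 5) (b := 19 / 5) (c := 3 / 20) (by norm_num) ?_
      (1003 / 400) ?_ (by norm_num) (by norm_num) h108 h109
    · refine le_trans ?_ (Real.sum_le_exp_of_nonneg (by norm_num) 3)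
      norm_num [Finset.sum_range_succ, Nat.factorial]
    · refine (Real.exp_bound' (by norm_num) (by norm_num) (n := 2) (by norm_num)).trans ?_
      norm_num [Finset.sum_range_succ, Nat.factorial]
  refine ee1_step (a := 19 / 5) (b := 4) (c := 2 / 25) (by norm_num) ?_
    (11 / 4) ?_ (by norm_num) (by norm_num) h109 h4
  · refine le_trans ?_ (Real.sum_le_exp_of_nonneg (by norm_num) 2)
    norm_num [Finset.sum_range_succ, Nat.factorial]
  · refine (Real.exp_bound' (by norm_num) (by norm_num) (n := 2) (by norm_num)).trans ?_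
    norm_num [Finset.sum_range_succ, Nat.factorial]

end Pool.Agent.PTW
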