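import Pool.Agent.PTW.EE1

set_option autoImplicit false

open MeasureTheory Set Filter Topology

open scoped ENNReal

namespace Pool.Agent.PTW

theorem EE2_int (c C : ℝ) (hC : 0 ≤ C) :
    ∫⁻ y in Ioi c, ENNReal.ofReal (C * Real.exp (-y)) = ENNReal.ofReal (C * Real.exp (-c)) := by
  rw [← ofReal_integral_eq_lintegral_ofReal ((integrableOn_exp_neg_Ioi c).const_mul C)
    (ae_of_all _ fun y => mul_nonneg hC (Real.exp_pos _).le), integral_const_mul,
    integral_exp_neg_Ioi]

theorem EE2_log (a C : ℝ) (ha : 0 < a) (ha3 : a ≤ 3) (hC : 0 ≤ C) :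
    ∫⁻ y in Ioc a 3, ENNReal.ofReal (C * y⁻¹) = ENNReal.ofReal (C * Real.log (3 / a)) := by
  have hc : ContinuousOn (fun y : ℝ => C * y⁻¹) (Icc a 3) := by
    refine continuousOn_const.mul (ContinuousOn.inv₀ continuousOn_id fun y hy => ?_)
    exact (lt_of_lt_of_le ha hy.1).ne'
  have hi : IntegrableOn (fun y : ℝ => C * y⁻¹) (Ioc a 3) :=
    (hc.integrableOn_compact isCompact_Icc).mono_set Ioc_subset_Icc_self
  rw [← ofReal_integral_eq_lintegral_ofReal hi, ← intervalIntegral.integral_of_le ha3,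
    intervalIntegral.integral_const_mul, integral_inv_of_pos ha (by norm_num)]
  refine (ae_restrict_iff' measurableSet_Ioc).2 (ae_of_all _ fun y hy => ?_)
  exact mul_nonneg hC (inv_nonneg.2 (lt_trans ha hy.1).le)

theorem EE2_div {a : ℝ≥0∞} {b s : ℝ} (hb : 0 ≤ b) (hs : 0 < s) (h : a ≤ ENNReal.ofReal (b * s)) :
    a / ENNReal.ofReal s ≤ ENNReal.ofReal b := by
  rw [ENNReal.ofReal_mul hb] at h
  exact ENNReal.div_le_of_le_mul h

/-- The supersolution. -/
noncomputable def EE2z : (ℝ → ℝ≥0∞) × (ℝ → ℝ≥0∞) :=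
  (fun s => if s ≤ 0 then ⊤ else ENNReal.ofReal (12 * Real.exp 2 * Ho s),
    fun s => if s < 2 then ⊤ else ENNReal.ofReal (12 * Real.exp 2 * Real.exp (-s)))

theorem EE2_Q (c : ℝ) (hc : 2 ≤ c) :
    ∫⁻ y in Ioi c, EE2z.2 y = ENNReal.ofReal (12 * Real.exp 2 * Real.exp (-c)) := by
  rw [← EE2_int c (12 * Real.exp 2) (by positivity)]
  refine setLIntegral_congr_fun measurableSet_Ioi fun y hy => ?_
  have h : ¬ y < 2 := not_lt.2 (hc.trans (le_of_lt hy))
  simp only [EE2z, if_neg h]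

theorem EE2_one (s : ℝ) : (TT EE2z).1 s ≤ EE2z.1 s := by
  by_cases h0 : s ≤ 0
  · simp only [EE2z, if_pos h0]
    exact le_top
  have h0' : 0 < s := not_le.1 h0
  have e2 : Real.exp 2 * Real.exp (-2) = 1 := by rw [← Real.exp_add]; norm_num
  have hR : EE2z.1 s = ENNReal.ofReal (12 * Real.exp 2 * Ho s) := by
    simp only [EE2z, if_neg h0]
  rw [hR]
  by_cases h3 : s < 3
  · have hL : (TT EE2z).1 s =
        (ENNReal.ofReal (3 - s) + ∫⁻ y in Ioi (2 : ℝ), EE2z.2 y) / ENNReal.ofReal s := by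
      simp only [TT, if_pos h3]
    have hH : 12 * Real.exp 2 * Ho s = 15 / s := by
      unfold Ho
      rw [if_pos h3.le]
      calc 12 * Real.exp 2 * (5 / 4 * Real.exp (-2) / s)
          = 15 * (Real.exp 2 * Real.exp (-2)) / s := by ring
        _ = 15 / s := by rw [e2]; ring
    rw [hL, hH, EE2_Q 2 (le_refl 2), ← ENNReal.ofReal_add (by linarith) (by positivity)]
    refine EE2_div (by positivity) h0' (ENNReal.ofReal_le_ofReal ?_)
    rw [div_mul_cancel₀ _ h0'.ne', mul_assoc, e2]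
    linarith
  · have h3' : 3 ≤ s := not_lt.1 h3
    have hL : (TT EE2z).1 s = (∫⁻ y in Ioi (s - 1), EE2z.2 y) / ENNReal.ofReal s := by
      simp only [TT, if_neg h3]
    have hH : Ho s = 5 / 4 * Real.exp (1 - s) / s := by
      unfold Ho
      split_ifs with h
      · have hs : s = 3 := le_antisymm h h3'
        rw [hs]
        norm_num
      · rfl
    rw [hL, hH, EE2_Q (s - 1) (by linarith)]
    refine EE2_div (by positivity) h0' (ENNReal.ofReal_le_ofReal ?_)
    have e : 12 * Real.exp 2 * (5 / 4 * Real.exp (1 - s) / s) * s =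
        12 * Real.exp 2 * (5 / 4 * Real.exp (1 - s)) := by
      field_simp
    rw [e, neg_sub]
    have := Real.exp_pos (1 - s)
    have := Real.exp_pos 2
    nlinarith [mul_pos (Real.exp_pos 2) (Real.exp_pos (1 - s))]

theorem EE2_far (c : ℝ) (hc : 3 ≤ c) :
    ∫⁻ y in Ioi c, EE2z.1 y ≤
      ENNReal.ofReal (12 * Real.exp 2 * (5 / 4 * Real.exp (1 - c) / c)) := by
  have h1 : ∫⁻ y in Ioi c, EE2z.1 y ≤
      ∫⁻ y in Ioi c, ENNReal.ofReal (12 * Real.exp 2 * (5 / 4 * Real.exp 1 / c) * Real.exp (-y)) := by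
    refine setLIntegral_mono' measurableSet_Ioi fun y hy => ?_
    have hy' : c < y := hy
    have h0 : ¬ y ≤ 0 := by linarith
    have h3 : ¬ y ≤ 3 := by linarith
    simp only [EE2z, if_neg h0, Ho, if_neg h3]
    refine ENNReal.ofReal_le_ofReal ?_
    have e : Real.exp (1 - y) = Real.exp 1 * Real.exp (-y) := by
      rw [← Real.exp_add]; ring_nf
    have hc0 : 0 < c := by linarith
    have h4 : 5 / 4 * Real.exp (1 - y) / y ≤ 5 / 4 * Real.exp (1 - y) / c :=
      div_le_div_of_nonneg_left (by positivity) hc0 hy'.le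
    calc 12 * Real.exp 2 * (5 / 4 * Real.exp (1 - y) / y)
        ≤ 12 * Real.exp 2 * (5 / 4 * Real.exp (1 - y) / c) :=
          mul_le_mul_of_nonneg_left h4 (by positivity)
      _ = 12 * Real.exp 2 * (5 / 4 * Real.exp 1 / c) * Real.exp (-y) := by rw [e]; ring
  refine h1.trans ?_
  rw [EE2_int c _ (by positivity)]
  refine ENNReal.ofReal_le_ofReal (le_of_eq ?_)
  have e : Real.exp (1 - c) = Real.exp 1 * Real.exp (-c) := by
    rw [← Real.exp_add]; ring_nf
  rw [e]
  ring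

theorem EE2_two (s : ℝ) : (TT EE2z).2 s ≤ EE2z.2 s := by
  by_cases h2 : s < 2
  · simp only [EE2z, if_pos h2]
    exact le_top
  have h2' : 2 ≤ s := not_lt.1 h2
  have h0' : 0 < s := by linarith
  have hR : EE2z.2 s = ENNReal.ofReal (12 * Real.exp 2 * Real.exp (-s)) := by
    simp only [EE2z, if_neg h2]
  have hL : (TT EE2z).2 s = (∫⁻ y in Ioi (s - 1), EE2z.1 y) / ENNReal.ofReal s := rfl
  rw [hR, hL]
  refine EE2_div (by positivity) h0' ?_
  by_cases h4 : 4 ≤ s
  · refine (EE2_far (s - 1) (by linarith)).trans (ENNReal.ofReal_le_ofReal ?_)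
    have e : Real.exp (1 - (s - 1)) = Real.exp 2 * Real.exp (-s) := by
      rw [← Real.exp_add]; ring_nf
    have he : Real.exp 2 ≤ 8 := by
      have h := Real.exp_one_lt_d9
      have h' : Real.exp 2 = Real.exp 1 * Real.exp 1 := by rw [← Real.exp_add]; norm_num
      rw [h']
      nlinarith [Real.exp_pos 1]
    have hs1 : 0 < s - 1 := by linarith
    have hk : 5 / 4 * Real.exp 2 / (s - 1) ≤ s := by
      rw [div_le_iff₀ hs1]
      nlinarith
    rw [e]
    calc 12 * Real.exp 2 * (5 / 4 * (Real.exp 2 * Real.exp (-s)) / (s - 1))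
        = 12 * Real.exp 2 * Real.exp (-s) * (5 / 4 * Real.exp 2 / (s - 1)) := by ring
      _ ≤ 12 * Real.exp 2 * Real.exp (-s) * s := mul_le_mul_of_nonneg_left hk (by positivity)
  · have h4' : s ≤ 4 := (not_le.1 h4).le
    have hs1 : 0 < s - 1 := by linarith
    have hs3 : s - 1 ≤ 3 := by linarith
    have e2 : Real.exp 2 * Real.exp (-2) = 1 := by rw [← Real.exp_add]; norm_num
    have hu : ∫⁻ y in Ioi (s - 1), EE2z.1 y ≤
        (∫⁻ y in Ioc (s - 1) 3, EE2z.1 y) + ∫⁻ y in Ioi (3 : ℝ), EE2z.1 y := by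
      rw [← Ioc_union_Ioi_eq_Ioi hs3]
      exact lintegral_union_le _ _ _
    have hn : ∫⁻ y in Ioc (s - 1) 3, EE2z.1 y = ENNReal.ofReal (15 * Real.log (3 / (s - 1))) := by
      rw [← EE2_log (s - 1) 15 hs1 hs3 (by norm_num)]
      refine setLIntegral_congr_fun measurableSet_Ioc fun y hy => ?_
      have h0 : ¬ y ≤ 0 := by
        have := hy.1
        linarith
      have h3 : y ≤ 3 := hy.2
      simp only [EE2z, if_neg h0, Ho, if_pos h3]
      congr 1
      calc 12 * Real.exp 2 * (5 / 4 * Real.exp (-2) / y)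
          = 15 * (Real.exp 2 * Real.exp (-2)) * y⁻¹ := by ring
        _ = 15 * y⁻¹ := by rw [e2]; ring
    have hf : 12 * Real.exp 2 * (5 / 4 * Real.exp (1 - 3) / 3) = 5 := by
      have e3 : Real.exp (1 - 3) = Real.exp (-2) := by norm_num
      rw [e3]
      calc 12 * Real.exp 2 * (5 / 4 * Real.exp (-2) / 3)
          = 5 * (Real.exp 2 * Real.exp (-2)) := by ring
        _ = 5 := by rw [e2]; ring
    have hfar := EE2_far 3 (le_refl 3)
    rw [hf] at hfar
    have hl : 0 ≤ Real.log (3 / (s - 1)) := by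
      refine Real.log_nonneg ?_
      rw [le_div_iff₀ hs1]
      linarith
    refine (hu.trans (add_le_add (le_of_eq hn) hfar)).trans ?_
    rw [← ENNReal.ofReal_add (by positivity) (by norm_num)]
    refine ENNReal.ofReal_le_ofReal ?_
    have hnum := num h2' h4'
    have e4 : Real.exp (2 - s) = Real.exp 2 * Real.exp (-s) := by
      rw [← Real.exp_add]; ring_nf
    rw [e4] at hnum
    nlinarith

theorem bound : (∀ s : ℝ, 0 < s → PQ.1 s ≤ ENNReal.ofReal (12 * Real.exp 2 * Ho s)) ∧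
    ∀ s : ℝ, 2 ≤ s → PQ.2 s ≤ ENNReal.ofReal (12 * Real.exp 2 * Real.exp (-s)) := by
  have h : PQ ≤ EE2z := PQ_le ⟨EE2_one, EE2_two⟩
  refine ⟨fun s hs => ?_, fun s hs => ?_⟩
  · have h1 := h.1 s
    simp only [EE2z, if_neg (not_le.2 hs)] at h1
    exact h1
  · have h1 := h.2 s
    simp only [EE2z, if_neg (not_lt.2 hs)] at h1
    exact h1

end Pool.Agent.PTW
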