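import Pool.Agent.PTW.E0

set_option autoImplicit false

open MeasureTheory Set Filter Topology

open scoped ENNReal

namespace Pool.Agent.PTW

/-- [EE3] monotonicity. -/
theorem anti : AntitoneOn PQ.1 (Ioi 0) ∧ AntitoneOn PQ.2 (Ioi 0) := by
  have hden : ∀ {s t : ℝ}, s ≤ t → ENNReal.ofReal s ≤ ENNReal.ofReal t :=
    fun h => ENNReal.ofReal_le_ofReal h
  have hint : ∀ (g : ℝ → ℝ≥0∞) {s t : ℝ}, s ≤ t →
      ∫⁻ y in Ioi (t - 1), g y ≤ ∫⁻ y in Ioi (s - 1), g y := fun g s t h =>
    lintegral_mono_set (Ioi_subset_Ioi (by linarith))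
  constructor
  · intro s _ t _ hst
    rcases lt_or_ge t 3 with ht | ht
    · rw [P_lt ht, P_lt (lt_of_le_of_lt hst ht)]
      refine ENNReal.div_le_div ?_ (hden hst)
      exact add_le_add (ENNReal.ofReal_le_ofReal (by linarith)) le_rfl
    · rcases lt_or_ge s 3 with hs | hs
      · rw [P_ge ht, P_lt hs]
        refine ENNReal.div_le_div ?_ (hden hst)
        refine le_trans ?_ le_add_self
        exact lintegral_mono_set (Ioi_subset_Ioi (by linarith))
      · rw [P_ge ht, P_ge hs]
        exact ENNReal.div_le_div (hint _ hst) (hden hst)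
  · intro s _ t _ hst
    rw [Q_eq, Q_eq]
    exact ENNReal.div_le_div (hint _ hst) (hden hst)

end Pool.Agent.PTW
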