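import Pool.Agent.PTW.E0

set_option autoImplicit false

open MeasureTheory Set Filter Topology

open scoped ENNReal

namespace Pool.Agent.PTW

theorem tonelli_aux (c : ℝ) (g : ℝ → ℝ≥0∞) (hg : Measurable g) :
    ∫⁻ s in Ioi c, ∫⁻ y in Ioi (s - 1), g y =
      ∫⁻ y in Ioi (c - 1), ENNReal.ofReal (y + 1 - c) * g y := by
  have h1 : ∀ s : ℝ, ∫⁻ y in Ioi (s - 1), g y = ∫⁻ y, (Ioi (s - 1)).indicator g y := fun s =>
    (lintegral_indicator measurableSet_Ioi g).symm
  simp_rw [h1]
  have hm : Measurable (Function.uncurry fun s y : ℝ => (Ioi (s - 1)).indicator g y) := by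
    have h2 : (Function.uncurry fun s y : ℝ => (Ioi (s - 1)).indicator g y) =
        {p : ℝ × ℝ | p.1 - 1 < p.2}.indicator (fun p => g p.2) := by
      funext p
      by_cases h : p.1 - 1 < p.2
      · rw [indicator_of_mem (show p ∈ {p : ℝ × ℝ | p.1 - 1 < p.2} from h)]
        exact indicator_of_mem (show p.2 ∈ Ioi (p.1 - 1) from h) g
      · rw [indicator_of_notMem (show p ∉ {p : ℝ × ℝ | p.1 - 1 < p.2} from h)]
        exact indicator_of_notMem (show p.2 ∉ Ioi (p.1 - 1) from h) g
    rw [h2]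
    exact (hg.comp measurable_snd).indicator
      (measurableSet_lt (measurable_fst.sub_const 1) measurable_snd)
  rw [lintegral_lintegral_swap hm.aemeasurable]
  have h3 : ∀ y : ℝ, ∫⁻ s in Ioi c, (Ioi (s - 1)).indicator g y =
      (Ioi (c - 1)).indicator (fun y => ENNReal.ofReal (y + 1 - c) * g y) y := by
    intro y
    have h4 : ∀ s : ℝ, (Ioi (s - 1)).indicator g y = (Iio (y + 1)).indicator (fun _ => g y) s := by
      intro s
      by_cases h : s - 1 < y
      · rw [indicator_of_mem (show y ∈ Ioi (s - 1) from h),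
          indicator_of_mem (show s ∈ Iio (y + 1) by simp only [mem_Iio]; linarith)]
      · rw [indicator_of_notMem (show y ∉ Ioi (s - 1) from h),
          indicator_of_notMem (show s ∉ Iio (y + 1) by
            simp only [mem_Iio, not_lt]; linarith [not_lt.mp h])]
    simp_rw [h4]
    rw [lintegral_indicator measurableSet_Iio, setLIntegral_const,
      Measure.restrict_apply measurableSet_Iio]
    have h5 : Iio (y + 1) ∩ Ioi c = Ioo c (y + 1) := by
      ext z
      simp [and_comm]
    rw [h5, Real.volume_Ioo]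
    by_cases h : c - 1 < y
    · rw [indicator_of_mem (show y ∈ Ioi (c - 1) from h), mul_comm]
    · rw [indicator_of_notMem (show y ∉ Ioi (c - 1) from h),
        ENNReal.ofReal_of_nonpos (by linarith [not_lt.mp h]), mul_zero]
  simp_rw [h3]
  rw [lintegral_indicator measurableSet_Ioi]

theorem tonelli (c : ℝ) (hc : 2 ≤ c) (g : ℝ → ℝ≥0∞) (hg : AntitoneOn g (Ioi 0)) :
    ∫⁻ s in Ioi c, ∫⁻ y in Ioi (s - 1), g y =
      ∫⁻ y in Ioi (c - 1), ENNReal.ofReal (y + 1 - c) * g y := by
  have hm : AEMeasurable g (volume.restrict (Ioi 0)) :=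
    aemeasurable_restrict_of_antitoneOn measurableSet_Ioi hg
  have key : ∀ t : ℝ, 0 ≤ t → g =ᵐ[volume.restrict (Ioi t)] hm.mk g := by
    intro t ht
    exact ae_restrict_of_ae_restrict_of_subset (Ioi_subset_Ioi ht) hm.ae_eq_mk
  have h1 : ∫⁻ s in Ioi c, ∫⁻ y in Ioi (s - 1), g y =
      ∫⁻ s in Ioi c, ∫⁻ y in Ioi (s - 1), hm.mk g y := by
    refine setLIntegral_congr_fun measurableSet_Ioi fun s hs => ?_
    have hs' : c < s := hs
    exact lintegral_congr_ae (key (s - 1) (by linarith))
  have h2 : ∫⁻ y in Ioi (c - 1), ENNReal.ofReal (y + 1 - c) * g y =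
      ∫⁻ y in Ioi (c - 1), ENNReal.ofReal (y + 1 - c) * hm.mk g y := by
    refine lintegral_congr_ae ?_
    filter_upwards [key (c - 1) (by linarith)] with y hy
    rw [hy]
  rw [h1, h2]
  exact tonelli_aux c _ hm.measurable_mk

end Pool.Agent.PTW
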