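import Pool.Agent.PTW.EE2
import Pool.Agent.PTW.EE3
import Pool.Agent.PTW.EE4

set_option autoImplicit false

open MeasureTheory Set Filter Topology

open scoped ENNReal

namespace Pool.Agent.PTW

theorem EE5_P_le3 {s : ℝ} (hs : s ≤ 3) :
    PQ.1 s = (ENNReal.ofReal (3 - s) + ∫⁻ y in Ioi (2 : ℝ), PQ.2 y) / ENNReal.ofReal s := by
  rcases lt_or_eq_of_le hs with h | h
  · exact P_lt h
  · subst h
    rw [P_ge le_rfl]
    norm_num

theorem EE5_sQ {s : ℝ} (hs : 0 < s) :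
    ENNReal.ofReal s * PQ.2 s = ∫⁻ y in Ioi (s - 1), PQ.1 y := by
  rw [Q_eq]
  exact ENNReal.mul_div_cancel (by simpa using hs) ENNReal.ofReal_ne_top

theorem EE5_sP {s : ℝ} (hs : 3 ≤ s) :
    ENNReal.ofReal s * PQ.1 s = ∫⁻ y in Ioi (s - 1), PQ.2 y := by
  rw [P_ge hs]
  exact ENNReal.mul_div_cancel (by simpa using (by linarith : (0:ℝ) < s)) ENNReal.ofReal_ne_top

theorem EE5_Ho {s : ℝ} (hs : 0 < s) : s * Ho s ≤ 5 / 4 * Real.exp (1 - s) := by
  unfold Ho
  split_ifs with h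
  · have : Real.exp (-2) ≤ Real.exp (1 - s) := Real.exp_le_exp.mpr (by linarith)
    have h2 : s * (5 / 4 * Real.exp (-2) / s) = 5 / 4 * Real.exp (-2) := by
      field_simp
    rw [h2]; linarith
  · have h2 : s * (5 / 4 * Real.exp (1 - s) / s) = 5 / 4 * Real.exp (1 - s) := by
      field_simp
    rw [h2]

theorem EE5_fin : ∫⁻ s in Ioi (2 : ℝ), ENNReal.ofReal s * PQ.1 s ≠ ⊤ := by
  obtain ⟨hbP, -⟩ := bound
  have h1 : ∫⁻ s in Ioi (2 : ℝ), ENNReal.ofReal s * PQ.1 s ≤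
      ∫⁻ s in Ioi (2 : ℝ), ENNReal.ofReal (12 * Real.exp 2 * (5 / 4 * Real.exp 1) * Real.exp (-s)) := by
    apply setLIntegral_mono' measurableSet_Ioi
    intro s hs
    have hs' : (0 : ℝ) < s := by
      have : (2 : ℝ) < s := hs
      linarith
    calc ENNReal.ofReal s * PQ.1 s ≤ ENNReal.ofReal s * ENNReal.ofReal (12 * Real.exp 2 * Ho s) :=
          mul_le_mul_right (hbP s hs') _
      _ = ENNReal.ofReal (s * (12 * Real.exp 2 * Ho s)) := (ENNReal.ofReal_mul hs'.le).symm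
      _ ≤ _ := by
          apply ENNReal.ofReal_le_ofReal
          have h2 := EE5_Ho hs'
          have h3 : Real.exp (1 - s) = Real.exp 1 * Real.exp (-s) := by
            rw [← Real.exp_add]; ring_nf
          rw [h3] at h2
          have h4 : 0 < Real.exp 2 := Real.exp_pos 2
          calc s * (12 * Real.exp 2 * Ho s) = 12 * Real.exp 2 * (s * Ho s) := by ring
            _ ≤ 12 * Real.exp 2 * (5 / 4 * (Real.exp 1 * Real.exp (-s))) := by
                apply mul_le_mul_of_nonneg_left h2 (by positivity)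
            _ = _ := by ring
  refine ne_top_of_le_ne_top ?_ h1
  have h5 : IntegrableOn (fun s : ℝ => 12 * Real.exp 2 * (5 / 4 * Real.exp 1) * Real.exp (-s))
      (Ioi (2 : ℝ)) := (integrableOn_exp_neg_Ioi 2).const_mul _
  exact h5.lintegral_lt_top.ne

theorem EE5_aeP (c : ℝ) (hc : 0 ≤ c) : AEMeasurable PQ.1 (volume.restrict (Ioi c)) := by
  obtain ⟨haP, -⟩ := anti
  exact aemeasurable_restrict_of_antitoneOn measurableSet_Ioi
    (haP.mono (Ioi_subset_Ioi hc))

theorem EE5_aeQ (c : ℝ) (hc : 0 ≤ c) : AEMeasurable PQ.2 (volume.restrict (Ioi c)) := by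
  obtain ⟨-, haQ⟩ := anti
  exact aemeasurable_restrict_of_antitoneOn measurableSet_Ioi
    (haQ.mono (Ioi_subset_Ioi hc))

/-- `∫_2^∞ s P = 1/2 + a + V`. -/
theorem EE5_A : ∫⁻ s in Ioi (2 : ℝ), ENNReal.ofReal s * PQ.1 s =
    ENNReal.ofReal (1 / 2) + (∫⁻ y in Ioi (2 : ℝ), PQ.2 y) +
      ∫⁻ y in Ioi (2 : ℝ), ENNReal.ofReal (y - 2) * PQ.2 y := by
  obtain ⟨-, haQ⟩ := anti
  have hu : Ioi (2 : ℝ) = Ioc 2 3 ∪ Ioi 3 := (Ioc_union_Ioi_eq_Ioi (by norm_num)).symm
  have hsplit : ∫⁻ s in Ioi (2 : ℝ), ENNReal.ofReal s * PQ.1 s =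
      (∫⁻ s in Ioc (2 : ℝ) 3, ENNReal.ofReal s * PQ.1 s) +
        ∫⁻ s in Ioi (3 : ℝ), ENNReal.ofReal s * PQ.1 s := by
    conv_lhs => rw [hu]
    exact lintegral_union measurableSet_Ioi
      (Set.disjoint_left.mpr fun x hx hx' => not_lt.mpr hx.2 hx')
  rw [hsplit]
  congr 1
  · have h1 : ∫⁻ s in Ioc (2 : ℝ) 3, ENNReal.ofReal s * PQ.1 s =
        ∫⁻ s in Ioc (2 : ℝ) 3, (ENNReal.ofReal (3 - s) + ∫⁻ y in Ioi (2 : ℝ), PQ.2 y) := by
      apply setLIntegral_congr_fun measurableSet_Ioc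
      intro s hs
      have hs0 : (0 : ℝ) < s := by linarith [hs.1]
      simp only
      rw [EE5_P_le3 hs.2]
      exact ENNReal.mul_div_cancel (by simpa using hs0) ENNReal.ofReal_ne_top
    rw [h1, lintegral_add_right _ measurable_const, setLIntegral_const]
    congr 1
    · have h2 : ∫⁻ s in Ioc (2 : ℝ) 3, ENNReal.ofReal (3 - s) =
          ENNReal.ofReal (∫ s in Ioc (2 : ℝ) 3, (3 - s)) := by
        rw [ofReal_integral_eq_lintegral_ofReal]
        · exact (continuous_const.sub continuous_id).continuousOn.integrableOn_Icc.mono_set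
            Ioc_subset_Icc_self
        · filter_upwards [ae_restrict_mem measurableSet_Ioc] with s hs
          simpa using hs.2
      rw [h2, ← intervalIntegral.integral_of_le (by norm_num : (2:ℝ) ≤ 3)]
      congr 1
      rw [intervalIntegral.integral_eq_sub_of_hasDerivAt
        (f := fun y : ℝ => 3 * y - y ^ 2 / 2)]
      · norm_num
      · intro y hy
        have h2 := ((hasDerivAt_id y).const_mul 3).sub ((hasDerivAt_pow 2 y).div_const 2)
        have h3 : 3 - y = (3 : ℝ) * 1 - ((2 : ℕ) : ℝ) * y ^ (2 - 1) / 2 := by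
          push_cast
          ring
        rw [h3]
        exact h2
      · exact (continuous_const.sub continuous_id).intervalIntegrable _ _
    · simp
      norm_num
  · have h1 : ∫⁻ s in Ioi (3 : ℝ), ENNReal.ofReal s * PQ.1 s =
        ∫⁻ s in Ioi (3 : ℝ), ∫⁻ y in Ioi (s - 1), PQ.2 y := by
      apply setLIntegral_congr_fun measurableSet_Ioi
      intro s hs
      exact EE5_sP (le_of_lt hs)
    rw [h1, tonelli 3 (by norm_num) _ haQ]
    have h3 : (3 : ℝ) - 1 = 2 := by norm_num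
    rw [h3]
    apply lintegral_congr
    intro y
    congr 2
    ring

/-- `V + 2 a = ∫_1^∞ (y-1) P`. -/
theorem EE5_B : (∫⁻ y in Ioi (2 : ℝ), ENNReal.ofReal (y - 2) * PQ.2 y) +
      2 * (∫⁻ y in Ioi (2 : ℝ), PQ.2 y) =
    (∫⁻ y in Ioc (1 : ℝ) 2, ENNReal.ofReal (y - 1) * PQ.1 y) +
      ∫⁻ y in Ioi (2 : ℝ), ENNReal.ofReal (y - 1) * PQ.1 y := by
  obtain ⟨haP, -⟩ := anti
  have hu : Ioi (1 : ℝ) = Ioc 1 2 ∪ Ioi 2 := (Ioc_union_Ioi_eq_Ioi (by norm_num)).symm
  have hsplit : ∫⁻ s in Ioi (1 : ℝ), ENNReal.ofReal (s - 1) * PQ.1 s =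
      (∫⁻ s in Ioc (1 : ℝ) 2, ENNReal.ofReal (s - 1) * PQ.1 s) +
        ∫⁻ s in Ioi (2 : ℝ), ENNReal.ofReal (s - 1) * PQ.1 s := by
    conv_lhs => rw [hu]
    exact lintegral_union measurableSet_Ioi
      (Set.disjoint_left.mpr fun x hx hx' => not_lt.mpr hx.2 hx')
  rw [← hsplit]
  have h1 : ∫⁻ s in Ioi (2 : ℝ), ENNReal.ofReal s * PQ.2 s =
      ∫⁻ s in Ioi (2 : ℝ), ∫⁻ y in Ioi (s - 1), PQ.1 y := by
    apply setLIntegral_congr_fun measurableSet_Ioi
    intro s hs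
    have hs' : (2 : ℝ) < s := hs
    exact EE5_sQ (by linarith)
  have h2 := tonelli 2 le_rfl _ haP
  rw [← h1] at h2
  have h3 : (2 : ℝ) - 1 = 1 := by norm_num
  rw [h3] at h2
  have h4 : ∫⁻ s in Ioi (1 : ℝ), ENNReal.ofReal (s - 1) * PQ.1 s =
      ∫⁻ y in Ioi (1 : ℝ), ENNReal.ofReal (y + 1 - 2) * PQ.1 y := by
    apply lintegral_congr
    intro y
    congr 2
    ring
  rw [h4, ← h2]
  have h5 : ∫⁻ s in Ioi (2 : ℝ), ENNReal.ofReal s * PQ.2 s =
      ∫⁻ s in Ioi (2 : ℝ), (ENNReal.ofReal (s - 2) * PQ.2 s + 2 * PQ.2 s) := by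
    apply setLIntegral_congr_fun measurableSet_Ioi
    intro s hs
    have hs' : (2 : ℝ) < s := hs
    simp only
    rw [← add_mul]
    congr 1
    have : (2 : ℝ≥0∞) = ENNReal.ofReal 2 := by norm_num
    rw [this, ← ENNReal.ofReal_add (by linarith) (by norm_num)]
    congr 1; ring
  have hQ := EE5_aeQ 2 (by norm_num)
  rw [h5, lintegral_add_right' _ (hQ.const_mul 2), lintegral_const_mul'' _ hQ]

/-- `U + b = ∫_2^∞ s P`. -/
theorem EE5_C : ∫⁻ s in Ioi (2 : ℝ), ENNReal.ofReal s * PQ.1 s =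
    (∫⁻ y in Ioi (2 : ℝ), ENNReal.ofReal (y - 1) * PQ.1 y) + ∫⁻ y in Ioi (2 : ℝ), PQ.1 y := by
  have h5 : ∫⁻ s in Ioi (2 : ℝ), ENNReal.ofReal s * PQ.1 s =
      ∫⁻ s in Ioi (2 : ℝ), (ENNReal.ofReal (s - 1) * PQ.1 s + PQ.1 s) := by
    apply setLIntegral_congr_fun measurableSet_Ioi
    intro s hs
    have hs' : (2 : ℝ) < s := hs
    simp only
    have h1 : ENNReal.ofReal s = ENNReal.ofReal (s - 1) + 1 := by
      rw [← ENNReal.ofReal_one, ← ENNReal.ofReal_add (by linarith) (by norm_num)]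
      congr 1; ring
    rw [h1, add_mul, one_mul]
  rw [h5, lintegral_add_right' _ (EE5_aeP 2 (by norm_num))]

theorem EE5_Pr (a' : ℝ) (ha' : 0 ≤ a') (ha : ∫⁻ y in Ioi (2 : ℝ), PQ.2 y = ENNReal.ofReal a')
    {y : ℝ} (hy : 0 < y) (hy3 : y ≤ 3) : PQ.1 y = ENNReal.ofReal ((3 + a') / y - 1) := by
  rw [EE5_P_le3 hy3, ha, ← ENNReal.ofReal_add (by linarith) ha', ← ENNReal.ofReal_div_of_pos hy]
  congr 1
  field_simp
  ring

theorem value : ∫⁻ y in Ioi (1 : ℝ), PQ.1 y = 2 ∧ PQ.2 2 = 1 ∧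
    ∫⁻ y in Ioi (2 : ℝ), PQ.2 y ≠ ⊤ := by
  have hA := EE5_A
  have hB := EE5_B
  have hC := EE5_C
  have hfin := EE5_fin
  obtain ⟨a, ha⟩ : ∃ a, a = ∫⁻ y in Ioi (2 : ℝ), PQ.2 y := ⟨_, rfl⟩
  obtain ⟨b, hb⟩ : ∃ b, b = ∫⁻ y in Ioi (2 : ℝ), PQ.1 y := ⟨_, rfl⟩
  obtain ⟨U, hU⟩ : ∃ U, U = ∫⁻ y in Ioi (2 : ℝ), ENNReal.ofReal (y - 1) * PQ.1 y := ⟨_, rfl⟩
  obtain ⟨V, hV⟩ : ∃ V, V = ∫⁻ y in Ioi (2 : ℝ), ENNReal.ofReal (y - 2) * PQ.2 y := ⟨_, rfl⟩
  obtain ⟨K, hK⟩ : ∃ K, K = ∫⁻ y in Ioc (1 : ℝ) 2, ENNReal.ofReal (y - 1) * PQ.1 y := ⟨_, rfl⟩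
  have hfa : a ≠ ⊤ := by
    intro h
    rw [hA, ← ha, h] at hfin
    simp at hfin
  have hfV : V ≠ ⊤ := by
    intro h
    rw [hA, ← hV, h] at hfin
    simp at hfin
  have hfb : b ≠ ⊤ := by
    intro h
    rw [hC, ← hb, h] at hfin
    simp at hfin
  have hfU : U ≠ ⊤ := by
    intro h
    rw [hC, ← hU, h] at hfin
    simp at hfin
  have haa : ∫⁻ y in Ioi (2 : ℝ), PQ.2 y = ENNReal.ofReal a.toReal := by
    rw [ENNReal.ofReal_toReal hfa, ha]
  have ha0 : 0 ≤ a.toReal := ENNReal.toReal_nonneg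
  -- the two integrals over (1, 2]
  have hL : ∫⁻ y in Ioc (1 : ℝ) 2, PQ.1 y = ENNReal.ofReal ((3 + a.toReal) * Real.log 2 - 1) := by
    have h1 : ∫⁻ y in Ioc (1 : ℝ) 2, PQ.1 y =
        ∫⁻ y in Ioc (1 : ℝ) 2, ENNReal.ofReal ((3 + a.toReal) / y - 1) := by
      apply setLIntegral_congr_fun measurableSet_Ioc
      intro y hy
      exact EE5_Pr _ ha0 haa (by linarith [hy.1]) (by linarith [hy.2])
    have hc : ContinuousOn (fun y : ℝ => (3 + a.toReal) / y - 1) (Icc 1 2) := by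
      apply ContinuousOn.sub _ continuousOn_const
      exact continuousOn_const.div continuousOn_id fun y hy => by
        have := hy.1
        exact ne_of_gt (by linarith)
    rw [h1, ← ofReal_integral_eq_lintegral_ofReal (hc.integrableOn_Icc.mono_set Ioc_subset_Icc_self),
      ← intervalIntegral.integral_of_le (by norm_num : (1:ℝ) ≤ 2)]
    · congr 1
      rw [intervalIntegral.integral_eq_sub_of_hasDerivAt
        (f := fun y : ℝ => (3 + a.toReal) * Real.log y - y)]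
      · simp; ring
      · intro y hy
        rw [uIcc_of_le (by norm_num)] at hy
        have hy0 : y ≠ 0 := by linarith [hy.1]
        have h2 := ((Real.hasDerivAt_log hy0).const_mul (3 + a.toReal)).sub (hasDerivAt_id y)
        rw [div_eq_mul_inv]
        exact h2
      · apply ContinuousOn.intervalIntegrable
        rw [uIcc_of_le (by norm_num)]
        exact hc
    · filter_upwards [ae_restrict_mem measurableSet_Ioc] with y hy
      have hy0 : 0 < y := by linarith [hy.1]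
      have : 1 ≤ (3 + a.toReal) / y := by
        rw [le_div_iff₀ hy0]; linarith [hy.2]
      simpa using this
  have hKv : K = ENNReal.ofReal ((3 + a.toReal) * (1 - Real.log 2) - 1 / 2) := by
    have h1 : K = ∫⁻ y in Ioc (1 : ℝ) 2, ENNReal.ofReal ((y - 1) * ((3 + a.toReal) / y - 1)) := by
      rw [hK]
      apply setLIntegral_congr_fun measurableSet_Ioc
      intro y hy
      simp only
      rw [EE5_Pr _ ha0 haa (by linarith [hy.1]) (by linarith [hy.2]),
        ← ENNReal.ofReal_mul (by linarith [hy.1])]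
    have hc : ContinuousOn (fun y : ℝ => (y - 1) * ((3 + a.toReal) / y - 1)) (Icc 1 2) := by
      apply ContinuousOn.mul (by fun_prop)
      apply ContinuousOn.sub _ continuousOn_const
      exact continuousOn_const.div continuousOn_id fun y hy => by
        have := hy.1
        exact ne_of_gt (by linarith)
    rw [h1, ← ofReal_integral_eq_lintegral_ofReal (hc.integrableOn_Icc.mono_set Ioc_subset_Icc_self),
      ← intervalIntegral.integral_of_le (by norm_num : (1:ℝ) ≤ 2)]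
    · congr 1
      rw [intervalIntegral.integral_eq_sub_of_hasDerivAt
        (f := fun y : ℝ => (3 + a.toReal + 1) * y - y ^ 2 / 2 - (3 + a.toReal) * Real.log y)]
      · simp; ring
      · intro y hy
        rw [uIcc_of_le (by norm_num)] at hy
        have hy0 : y ≠ 0 := by linarith [hy.1]
        have h2 := (((hasDerivAt_id y).const_mul (3 + a.toReal + 1)).sub
          ((hasDerivAt_pow 2 y).div_const 2)).sub
          ((Real.hasDerivAt_log hy0).const_mul (3 + a.toReal))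
        have h3 : (y - 1) * ((3 + a.toReal) / y - 1) =
            (3 + a.toReal + 1) * 1 - ((2 : ℕ) : ℝ) * y ^ (2 - 1) / 2 - (3 + a.toReal) * y⁻¹ := by
          field_simp
          push_cast
          ring
        rw [h3]
        exact h2
      · apply ContinuousOn.intervalIntegrable
        rw [uIcc_of_le (by norm_num)]
        exact hc
    · filter_upwards [ae_restrict_mem measurableSet_Ioc] with y hy
      have hy0 : 0 < y := by linarith [hy.1]
      have h3 : 1 ≤ (3 + a.toReal) / y := by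
        rw [le_div_iff₀ hy0]; linarith [hy.2]
      exact mul_nonneg (by linarith [hy.1]) (by linarith)
  have hlog1 : Real.log 2 < 0.6931471808 := Real.log_two_lt_d9
  have hlog2 : 0.6931471803 < Real.log 2 := Real.log_two_gt_d9
  have hKr : K.toReal = (3 + a.toReal) * (1 - Real.log 2) - 1 / 2 := by
    rw [hKv, ENNReal.toReal_ofReal]
    nlinarith
  have hfK : K ≠ ⊤ := by rw [hKv]; exact ENNReal.ofReal_ne_top
  -- real equations
  have e1 : V.toReal + 2 * a.toReal = K.toReal + U.toReal := by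
    have := congrArg ENNReal.toReal hB
    rw [← ha, ← hU, ← hV, ← hK, ENNReal.toReal_add hfV (ENNReal.mul_ne_top (by norm_num) hfa),
      ENNReal.toReal_add hfK hfU, ENNReal.toReal_mul] at this
    simpa using this
  have e2 : U.toReal + b.toReal = 1 / 2 + a.toReal + V.toReal := by
    have := congrArg ENNReal.toReal (hC.symm.trans hA)
    rw [← ha, ← hU, ← hV, ← hb, ENNReal.toReal_add hfU hfb,
      ENNReal.toReal_add (ENNReal.add_ne_top.mpr ⟨ENNReal.ofReal_ne_top, hfa⟩) hfV,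
      ENNReal.toReal_add ENNReal.ofReal_ne_top hfa, ENNReal.toReal_ofReal (by norm_num)] at this
    exact this
  have e3 : b.toReal = (3 + a.toReal) * (1 - Real.log 2) - a.toReal := by
    rw [hKr] at e1
    linarith
  have hu : Ioi (1 : ℝ) = Ioc 1 2 ∪ Ioi 2 := (Ioc_union_Ioi_eq_Ioi (by norm_num)).symm
  have hmain : ∫⁻ y in Ioi (1 : ℝ), PQ.1 y = 2 := by
    have hsplit : ∫⁻ s in Ioi (1 : ℝ), PQ.1 s =
        (∫⁻ s in Ioc (1 : ℝ) 2, PQ.1 s) + ∫⁻ s in Ioi (2 : ℝ), PQ.1 s := by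
      conv_lhs => rw [hu]
      exact lintegral_union measurableSet_Ioi
        (Set.disjoint_left.mpr fun x hx hx' => not_lt.mpr hx.2 hx')
    rw [hsplit, hL, ← hb, ← ENNReal.ofReal_toReal hfb, ← ENNReal.ofReal_add _ ENNReal.toReal_nonneg,
      e3]
    · have : (3 + a.toReal) * Real.log 2 - 1 + ((3 + a.toReal) * (1 - Real.log 2) - a.toReal) = 2 := by
        ring
      rw [this]; norm_num
    · nlinarith
  refine ⟨hmain, ?_, ?_⟩
  · rw [Q_eq]
    have h3 : (2 : ℝ) - 1 = 1 := by norm_num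
    rw [h3, hmain]
    have : ENNReal.ofReal 2 = 2 := by norm_num
    rw [this]
    exact ENNReal.div_self (by norm_num) (by norm_num)
  · rw [← ha]; exact hfa

end Pool.Agent.PTW
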