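import Pool.Agent.PTW.EE5

set_option autoImplicit false

open MeasureTheory Set Filter Topology

open scoped ENNReal

namespace Pool.Agent.PTW

theorem ee_split (g : ℝ → ℝ≥0∞) (a t : ℝ) (hat : a ≤ t) (hg : AntitoneOn g (Ioi a))
    (hfin : ∀ y, a < y → g y ≠ ⊤) (hI : ∫⁻ y in Ioi a, g y ≠ ⊤) :
    ∫ y in a..t, (g y).toReal =
      (∫⁻ y in Ioi a, g y).toReal - (∫⁻ y in Ioi t, g y).toReal := by
  have h1 : ∫⁻ y in Ioi a, g y = (∫⁻ y in Ioc a t, g y) + ∫⁻ y in Ioi t, g y := by
    rw [← lintegral_union measurableSet_Ioi (Ioc_disjoint_Ioi le_rfl), Ioc_union_Ioi_eq_Ioi hat]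
  have h2 : ∫⁻ y in Ioc a t, g y ≠ ⊤ := fun h => hI (by rw [h1, h, top_add])
  have h3 : ∫⁻ y in Ioi t, g y ≠ ⊤ := fun h => hI (by rw [h1, h, add_top])
  rw [h1, ENNReal.toReal_add h2 h3, intervalIntegral.integral_of_le hat,
    integral_toReal (aemeasurable_restrict_of_antitoneOn measurableSet_Ioc
      (hg.mono Ioc_subset_Ioi_self)) ?_]
  · ring
  · rw [ae_restrict_iff' measurableSet_Ioc]
    exact Eventually.of_forall fun y hy => lt_top_iff_ne_top.mpr (hfin y hy.1)

theorem EEthm : ∃ (A : ℝ) (F f : ℝ → ℝ), 3 ≤ A ∧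
    (∀ s : ℝ, 0 < s → 1 ≤ F s) ∧ AntitoneOn F (Ioi 0) ∧
    (∀ s : ℝ, f s ≤ 1) ∧ MonotoneOn f (Ici 2) ∧ (∀ s : ℝ, 2 ≤ s → 0 ≤ f s) ∧ f 2 = 0 ∧
    (∀ s : ℝ, 0 < s → s ≤ 3 → F s = A / s) ∧
    (∀ s : ℝ, 2 ≤ s → s * f s = ∫ y in (1 : ℝ)..(s - 1), F y) ∧
    (∀ s : ℝ, 3 ≤ s → s * F s = A + ∫ y in (2 : ℝ)..(s - 1), f y) ∧
    (∀ s s' : ℝ, 2 ≤ s → s ≤ s' → s * f s + ∫ y in (s - 1)..(s' - 1), F y ≤ s') ∧
    (∀ s s' : ℝ, 3 ≤ s → s ≤ s' → s' ≤ s * F s + ∫ y in (s - 1)..(s' - 1), f y) ∧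
    (∀ s : ℝ, 2 ≤ s → A * Real.log (s - 1) / s ≤ f s) ∧
    (∀ s : ℝ, 3 ≤ s → s ≤ 7 / 2 → F s ≤ A / s * (1 + (s - 3) ^ 2 / 4)) := by
  obtain ⟨hbP, hbQ⟩ := bound
  obtain ⟨hP, hQ⟩ := anti
  obtain ⟨vP, vQ, vI⟩ := value
  have finP : ∀ s : ℝ, 0 < s → PQ.1 s ≠ ⊤ := fun s hs =>
    ne_top_of_le_ne_top ENNReal.ofReal_ne_top (hbP s hs)
  have finQ : ∀ s : ℝ, 2 ≤ s → PQ.2 s ≠ ⊤ := fun s hs =>
    ne_top_of_le_ne_top ENNReal.ofReal_ne_top (hbQ s hs)
  set I : ℝ := (∫⁻ y in Ioi (2 : ℝ), PQ.2 y).toReal with hI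
  have hI0 : 0 ≤ I := ENNReal.toReal_nonneg
  obtain ⟨F, hF⟩ : ∃ F : ℝ → ℝ, ∀ s, F s = 1 + (PQ.1 s).toReal := ⟨_, fun _ => rfl⟩
  obtain ⟨f, hf⟩ : ∃ f : ℝ → ℝ, ∀ s, f s = 1 - (PQ.2 s).toReal := ⟨_, fun _ => rfl⟩
  have F1 : ∀ s : ℝ, 0 < s → 1 ≤ F s := by
    intro s _
    rw [hF]
    linarith [ENNReal.toReal_nonneg (a := PQ.1 s)]
  have Fanti : AntitoneOn F (Ioi 0) := by
    intro s hs t ht hst
    rw [hF, hF]
    linarith [ENNReal.toReal_mono (finP s hs) (hP hs ht hst)]
  have f1 : ∀ s : ℝ, f s ≤ 1 := by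
    intro s
    rw [hf]
    linarith [ENNReal.toReal_nonneg (a := PQ.2 s)]
  have fmono : MonotoneOn f (Ici 2) := by
    intro s hs t ht hst
    have hs' : (2 : ℝ) ≤ s := hs
    have ht' : (2 : ℝ) ≤ t := ht
    have h := hQ (show s ∈ Ioi (0 : ℝ) by simp only [mem_Ioi]; linarith)
      (show t ∈ Ioi (0 : ℝ) by simp only [mem_Ioi]; linarith) hst
    rw [hf, hf]
    linarith [ENNReal.toReal_mono (finQ s hs') h]
  have f2 : f 2 = 0 := by
    rw [hf, vQ]
    norm_num
  have f0 : ∀ s : ℝ, 2 ≤ s → 0 ≤ f s := by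
    intro s hs
    have := fmono (show (2 : ℝ) ∈ Ici (2 : ℝ) from le_refl (2 : ℝ)) (show s ∈ Ici (2 : ℝ) from hs) hs
    rwa [f2] at this
  have Fle : ∀ s : ℝ, 0 < s → s ≤ 3 → F s = (3 + I) / s := by
    intro s hs hs3
    rcases lt_or_eq_of_le hs3 with h | h
    · rw [hF, P_lt h, ENNReal.toReal_div, ENNReal.toReal_add ENNReal.ofReal_ne_top vI,
        ENNReal.toReal_ofReal (by linarith), ENNReal.toReal_ofReal hs.le]
      field_simp
      ring
    · subst h
      rw [hF, P_ge le_rfl, ENNReal.toReal_div, ENNReal.toReal_ofReal (by norm_num)]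
      norm_num
      ring
  have intF : ∀ a b : ℝ, 0 < a → 0 < b → IntervalIntegrable F volume a b := by
    intro a b ha hb
    refine AntitoneOn.intervalIntegrable (Fanti.mono ?_)
    intro x hx
    rw [mem_uIcc] at hx
    simp only [mem_Ioi]
    rcases hx with h | h
    · linarith [h.1]
    · linarith [h.1]
  have intf : ∀ a b : ℝ, 2 ≤ a → 2 ≤ b → IntervalIntegrable f volume a b := by
    intro a b ha hb
    refine MonotoneOn.intervalIntegrable (fmono.mono ?_)
    intro x hx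
    rw [mem_uIcc] at hx
    simp only [mem_Ici]
    rcases hx with h | h
    · linarith [h.1]
    · linarith [h.1]
  have E8 : ∀ s : ℝ, 2 ≤ s → s * f s = ∫ y in (1 : ℝ)..(s - 1), F y := by
    intro s hs
    have h1 := ee_split PQ.1 1 (s - 1) (by linarith) (hP.mono (Ioi_subset_Ioi zero_le_one))
      (fun y hy => finP y (by linarith)) (by rw [vP]; exact ENNReal.ofNat_ne_top)
    have h2 : ∫ y in (1 : ℝ)..(s - 1), F y =
        ∫ y in (1 : ℝ)..(s - 1), (1 + (PQ.1 y).toReal) := by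
      refine intervalIntegral.integral_congr fun y _ => hF y
    have h3 : IntervalIntegrable (fun y => (PQ.1 y).toReal) volume 1 (s - 1) := by
      have h4 := (intF 1 (s - 1) one_pos (by linarith)).sub
        (intervalIntegrable_const (c := (1 : ℝ)))
      refine h4.congr ?_
      intro y _
      simp only [hF]
      ring
    rw [h2, intervalIntegral.integral_add intervalIntegrable_const h3,
      intervalIntegral.integral_const, h1, vP, hf, Q_eq, ENNReal.toReal_div,
      ENNReal.toReal_ofReal (by linarith)]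
    have h5 : s ≠ 0 := by linarith
    simp only [smul_eq_mul, ENNReal.toReal_ofNat]
    field_simp
    ring
  have E9 : ∀ s : ℝ, 3 ≤ s → s * F s = 3 + I + ∫ y in (2 : ℝ)..(s - 1), f y := by
    intro s hs
    have h1 := ee_split PQ.2 2 (s - 1) (by linarith) (hQ.mono (Ioi_subset_Ioi zero_le_two))
      (fun y hy => finQ y hy.le) vI
    have h2 : ∫ y in (2 : ℝ)..(s - 1), f y =
        ∫ y in (2 : ℝ)..(s - 1), (1 - (PQ.2 y).toReal) := by
      refine intervalIntegral.integral_congr fun y _ => hf y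
    have h3 : IntervalIntegrable (fun y => (PQ.2 y).toReal) volume 2 (s - 1) := by
      have h4 := (intervalIntegrable_const (c := (1 : ℝ)) (μ := volume) (a := 2)
        (b := s - 1)).sub (intf 2 (s - 1) le_rfl (by linarith))
      refine h4.congr ?_
      intro y _
      simp only [hf]
      ring
    rw [h2, intervalIntegral.integral_sub intervalIntegrable_const h3,
      intervalIntegral.integral_const, h1, hF, P_ge hs, ENNReal.toReal_div,
      ENNReal.toReal_ofReal (by linarith), ← hI]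
    have h5 : s ≠ 0 := by linarith
    simp only [smul_eq_mul]
    field_simp
    ring
  have FA : ∀ y : ℝ, 0 < y → (3 + I) / y ≤ F y := by
    intro y hy
    rcases le_or_gt y 3 with h | h
    · rw [Fle y hy h]
    · rw [div_le_iff₀ hy, mul_comm, E9 y h.le]
      have : 0 ≤ ∫ u in (2 : ℝ)..(y - 1), f u :=
        intervalIntegral.integral_nonneg (by linarith) fun u hu => f0 u hu.1
      linarith
  have intA : ∀ a b : ℝ, 0 < a → 0 < b →
      IntervalIntegrable (fun y : ℝ => (3 + I) / y) volume a b := by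
    intro a b ha hb
    refine ContinuousOn.intervalIntegrable ?_
    refine ContinuousOn.div continuousOn_const continuousOn_id ?_
    intro x hx
    rw [mem_uIcc] at hx
    rcases hx with h | h
    · exact (lt_of_lt_of_le ha h.1).ne'
    · exact (lt_of_lt_of_le hb h.1).ne'
  have logA : ∀ t : ℝ, 1 ≤ t → ∫ y in (1 : ℝ)..t, (3 + I) / y = (3 + I) * Real.log t := by
    intro t ht
    have h1 : ∀ y : ℝ, (3 + I) / y = (3 + I) * (1 / y) := fun y => by ring
    have h2 : ∫ y in (1 : ℝ)..t, (3 + I) / y = ∫ y in (1 : ℝ)..t, (3 + I) * (1 / y) :=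
      intervalIntegral.integral_congr fun y _ => h1 y
    rw [h2, intervalIntegral.integral_const_mul, integral_one_div_of_pos one_pos (by linarith),
      div_one]
  have E12 : ∀ s : ℝ, 2 ≤ s → (3 + I) * Real.log (s - 1) / s ≤ f s := by
    intro s hs
    rw [div_le_iff₀ (by linarith), mul_comm (f s), E8 s hs, ← logA (s - 1) (by linarith)]
    refine intervalIntegral.integral_mono_on (by linarith) (intA 1 (s - 1) one_pos (by linarith))
      (intF 1 (s - 1) one_pos (by linarith)) fun y hy => FA y (by linarith [hy.1])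
  have E13 : ∀ s : ℝ, 3 ≤ s → s ≤ 7 / 2 → F s ≤ (3 + I) / s * (1 + (s - 3) ^ 2 / 4) := by
    intro s hs hs'
    have h1 : ∀ y ∈ Icc (2 : ℝ) (s - 1), f y ≤ (3 + I) / 2 * (y - 2) := by
      intro y hy
      obtain ⟨hy1, hy2⟩ := hy
      have h2 : y * f y = (3 + I) * Real.log (y - 1) := by
        rw [E8 y hy1, ← logA (y - 1) (by linarith)]
        refine intervalIntegral.integral_congr fun u hu => ?_
        rw [uIcc_of_le (by linarith : (1 : ℝ) ≤ y - 1)] at hu
        exact Fle u (by linarith [hu.1]) (by linarith [hu.2])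
      have h3 : Real.log (y - 1) ≤ y - 2 := by
        have := Real.log_le_sub_one_of_pos (show (0 : ℝ) < y - 1 by linarith)
        linarith
      have h4 : y * f y ≤ (3 + I) * (y - 2) := by
        rw [h2]
        exact mul_le_mul_of_nonneg_left h3 (by linarith)
      have h5 := f0 y hy1
      nlinarith
    have h6 : ∫ y in (2 : ℝ)..(s - 1), f y ≤ ∫ y in (2 : ℝ)..(s - 1), (3 + I) / 2 * (y - 2) := by
      refine intervalIntegral.integral_mono_on (by linarith) (intf 2 (s - 1) le_rfl (by linarith))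
        (Continuous.intervalIntegrable (by fun_prop) _ _) h1
    have h7 : ∫ y in (2 : ℝ)..(s - 1), (3 + I) / 2 * (y - 2) = (3 + I) * ((s - 3) ^ 2 / 4) := by
      rw [intervalIntegral.integral_const_mul, intervalIntegral.integral_sub
        (Continuous.intervalIntegrable (by fun_prop) _ _) intervalIntegrable_const,
        integral_id, intervalIntegral.integral_const]
      simp only [smul_eq_mul]
      ring
    have h8 := E9 s hs
    have h9 : F s = (s * F s) / s := by
      have : s ≠ 0 := by linarith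
      field_simp
    rw [h9, h8, div_mul_eq_mul_div]
    refine div_le_div_of_nonneg_right ?_ (by linarith)
    rw [h7] at h6
    nlinarith
  refine ⟨3 + I, F, f, by linarith, F1, Fanti, f1, fmono, f0, f2, Fle, E8, E9, ?_, ?_, E12, E13⟩
  · intro s s' hs hss
    have h1 := E8 s hs
    have h2 := E8 s' (by linarith)
    have h3 := intervalIntegral.integral_add_adjacent_intervals
      (intF 1 (s - 1) one_pos (by linarith)) (intF (s - 1) (s' - 1) (by linarith) (by linarith))
    rw [h1, h3, ← h2]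
    have h4 := f1 s'
    nlinarith
  · intro s s' hs hss
    have h1 := E9 s hs
    have h2 := E9 s' (by linarith)
    have h3 := intervalIntegral.integral_add_adjacent_intervals
      (intf 2 (s - 1) le_rfl (by linarith)) (intf (s - 1) (s' - 1) (by linarith) (by linarith))
    rw [h1, add_assoc, h3, ← h2]
    have h4 := F1 s' (by linarith)
    nlinarith

end Pool.Agent.PTW
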