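import Pool.Agent.PTW.Defs

/-!
# [PTW-F0] hypotheses of the comparison theorem
-/

set_option autoImplicit false

namespace Pool.Agent.PTW

open Finset

/-- the properties of the functions of the linear sieve that are used -/
structure LS (A : ℝ) (F f : ℝ → ℝ) : Prop where
  A3 : 3 ≤ A
  F1 : ∀ s : ℝ, 0 < s → 1 ≤ F s
  Fa : AntitoneOn F (Set.Ioi 0)
  f1 : ∀ s : ℝ, f s ≤ 1
  fm : MonotoneOn f (Set.Ici 2)
  f0 : ∀ s : ℝ, 2 ≤ s → 0 ≤ f s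
  FA : ∀ s : ℝ, 0 < s → s ≤ 3 → F s = A / s
  E5a : ∀ s s' : ℝ, 2 ≤ s → s ≤ s' → s * f s + ∫ y in (s - 1)..(s' - 1), F y ≤ s'
  E5b : ∀ s s' : ℝ, 3 ≤ s → s ≤ s' → s' ≤ s * F s + ∫ y in (s - 1)..(s' - 1), f y
  fl : ∀ s : ℝ, 2 ≤ s → A * Real.log (s - 1) / s ≤ f s
  Fu : ∀ s : ℝ, 3 ≤ s → s ≤ 7 / 2 → F s ≤ A / s * (1 + (s - 3) ^ 2 / 4)

/-- a set of primes whose cells above `i₀` have masses close to those of a one-dimensional sieve -/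
structure Sys (i₀ I : ℕ) (κ : ℝ) (P : Finset ℕ) (ix : ℕ → ℕ) (φ : ℕ → ℝ) : Prop where
  g0 : ∀ p ∈ P, 0 ≤ φ p
  mono : Monotone ix
  lo : ∀ p ∈ P, i₀ ≤ ix p
  m1 : ∀ i : ℕ, i₀ < i → i ≤ I → |∑ p ∈ P.filter (fun p => ix p = i), φ p - Real.log ((i : ℝ) / (i - 1))| ≤ κ
  m0 : ∑ p ∈ P.filter (fun p => ix p ≤ i₀), φ p ≤ κ

end Pool.Agent.PTW
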