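import Pool.Agent.PTW.EE6
import Pool.Agent.PTW.F0

/-!
# [PTW-EE7] the functions of the linear sieve exist
-/

set_option autoImplicit false

namespace Pool.Agent.PTW

theorem ls : ∃ (A : ℝ) (F f : ℝ → ℝ), LS A F f := by
  obtain ⟨A, F, f, h1, h2, h3, h4, h5, h6, -, h8, -, -, h11, h12, h13, h14⟩ := EEthm
  exact ⟨A, F, f, h1, h2, h3, h4, h5, h6, h8, h11, h12, h13, h14⟩

end Pool.Agent.PTW
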