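import Pool.Agent.PTW.F0

set_option autoImplicit false

namespace Pool.Agent.PTW

open Finset

/-- integrability of `F` between two positive points -/
theorem F1_intF {A : ℝ} {F f : ℝ → ℝ} (h : LS A F f) (a b : ℝ) (ha : 0 < a) (hb : 0 < b) :
    IntervalIntegrable F MeasureTheory.volume a b := by
  refine AntitoneOn.intervalIntegrable (h.Fa.mono ?_)
  intro x hx
  rw [Set.mem_uIcc] at hx
  rcases hx with hx | hx
  · exact lt_of_lt_of_le ha hx.1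
  · exact lt_of_lt_of_le hb hx.1

/-- integrability of `f` between two points at least `2` -/
theorem F1_intf {A : ℝ} {F f : ℝ → ℝ} (h : LS A F f) (a b : ℝ) (ha : 2 ≤ a) (hb : 2 ≤ b) :
    IntervalIntegrable f MeasureTheory.volume a b := by
  refine MonotoneOn.intervalIntegrable (h.fm.mono ?_)
  intro x hx
  rw [Set.mem_uIcc] at hx
  rcases hx with hx | hx
  · exact le_trans ha hx.1
  · exact le_trans hb hx.1

/-- one cell, lower step -/
theorem F1_cellF {A : ℝ} {F f : ℝ → ℝ} (h : LS A F f) (i₀ i l : ℕ) (h0 : 1 ≤ i₀) (hi : 1 ≤ i) (hl : i + 1 < l) :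
    (i₀ : ℝ) / ((i + 1 : ℕ) * ((i + 1 : ℕ) - 1)) * F ((l : ℝ) / i - 1) ≤
      (i₀ : ℝ) / l * ∫ y in ((l : ℝ) / (i + 1 : ℕ) - 1)..((l : ℝ) / i - 1), F y := by
  have hi0 : (0 : ℝ) < i := by exact_mod_cast hi
  have hl0 : (0 : ℝ) < l := by exact_mod_cast (by omega : 0 < l)
  have hlt : ((i : ℝ) + 1) < l := by exact_mod_cast hl
  have hi00 : (0 : ℝ) < i₀ := by exact_mod_cast h0
  push_cast
  have ha : 0 < (l : ℝ) / (i + 1) - 1 := by
    rw [sub_pos, lt_div_iff₀ (by linarith), one_mul]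
    exact hlt
  have hab : (l : ℝ) / (i + 1) - 1 ≤ (l : ℝ) / i - 1 := by
    have : (l : ℝ) / (i + 1) ≤ (l : ℝ) / i := by
      gcongr
      linarith
    linarith
  have hb : 0 < (l : ℝ) / i - 1 := lt_of_lt_of_le ha hab
  have hint : ((l : ℝ) / i - 1 - ((l : ℝ) / (i + 1) - 1)) * F ((l : ℝ) / i - 1) ≤
      ∫ y in ((l : ℝ) / (i + 1) - 1)..((l : ℝ) / i - 1), F y := by
    have e := intervalIntegral.integral_const (a := (l : ℝ) / (i + 1) - 1) (b := (l : ℝ) / i - 1)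
      (F ((l : ℝ) / i - 1))
    rw [smul_eq_mul] at e
    rw [← e]
    refine intervalIntegral.integral_mono_on hab intervalIntegrable_const
      (F1_intF h _ _ ha hb) fun y hy => ?_
    exact h.Fa (lt_of_lt_of_le ha hy.1) hb hy.2
  have e2 : (i₀ : ℝ) / ((i + 1) * (i + 1 - 1)) * F ((l : ℝ) / i - 1) =
      (i₀ : ℝ) / l * (((l : ℝ) / i - 1 - ((l : ℝ) / (i + 1) - 1)) * F ((l : ℝ) / i - 1)) := by
    generalize F ((l : ℝ) / i - 1) = X
    rw [add_sub_cancel_right]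
    field_simp
    ring
  rw [e2]
  exact mul_le_mul_of_nonneg_left hint (by positivity)

/-- the induction for the lower step -/
theorem F1_lo {A : ℝ} {F f : ℝ → ℝ} (h : LS A F f) (i₀ i l : ℕ) (h0 : 1 ≤ i₀) (hi : i₀ ≤ i) (hl : 2 * i ≤ l) :
    ∑ j ∈ Ioc i₀ i, (i₀ : ℝ) / (j * (j - 1)) * F ((l : ℝ) / j - 1) ≤
      (i₀ : ℝ) / l * (∫ y in ((l : ℝ) / i - 1)..((l : ℝ) / i₀ - 1), F y) +
        1 / i₀ * (F ((l : ℝ) / i - 1) - F ((l : ℝ) / i₀ - 1)) := by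
  have hi00 : (0 : ℝ) < i₀ := by exact_mod_cast h0
  induction i, hi using Nat.le_induction with
  | base => simp
  | succ n hn ih =>
    have hn1 : 1 ≤ n := le_trans h0 hn
    have hn0 : (0 : ℝ) < n := by exact_mod_cast hn1
    have hnn : (i₀ : ℝ) ≤ n := by exact_mod_cast hn
    have hl0 : (0 : ℝ) < l := by exact_mod_cast (by omega : 0 < l)
    have hl1 : 2 * ((n : ℝ) + 1) ≤ l := by exact_mod_cast hl
    have ih' := ih (by omega)
    have hc := F1_cellF h i₀ n l h0 hn1 (by omega)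
    have hins : Ioc i₀ (n + 1) = insert (n + 1) (Ioc i₀ n) := by
      ext j
      simp only [Finset.mem_Ioc, Finset.mem_insert]
      omega
    rw [hins, Finset.sum_insert (by simp)]
    have ha : 0 < (l : ℝ) / ((n + 1 : ℕ) : ℝ) - 1 := by
      push_cast
      rw [sub_pos, lt_div_iff₀ (by linarith), one_mul]
      linarith
    have hb : 0 < (l : ℝ) / n - 1 := by
      rw [sub_pos, lt_div_iff₀ hn0, one_mul]
      linarith
    have hc0 : 0 < (l : ℝ) / i₀ - 1 := by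
      rw [sub_pos, lt_div_iff₀ hi00, one_mul]
      linarith
    have hadd := intervalIntegral.integral_add_adjacent_intervals (F1_intF h _ _ ha hb)
      (F1_intF h _ _ hb hc0)
    have hmono : F ((l : ℝ) / n - 1) ≤ F ((l : ℝ) / ((n + 1 : ℕ) : ℝ) - 1) := by
      refine h.Fa ha hb ?_
      have : (l : ℝ) / ((n + 1 : ℕ) : ℝ) ≤ (l : ℝ) / n := by
        push_cast
        gcongr
        linarith
      linarith
    have hcoef : (i₀ : ℝ) / (((n + 1 : ℕ) : ℝ) * (((n + 1 : ℕ) : ℝ) - 1)) ≤ 1 / i₀ := by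
      push_cast
      rw [div_le_div_iff₀ (by nlinarith) hi00]
      nlinarith
    have h1 : (i₀ : ℝ) / (((n + 1 : ℕ) : ℝ) * (((n + 1 : ℕ) : ℝ) - 1)) *
        (F ((l : ℝ) / ((n + 1 : ℕ) : ℝ) - 1) - F ((l : ℝ) / n - 1)) ≤
        1 / i₀ * (F ((l : ℝ) / ((n + 1 : ℕ) : ℝ) - 1) - F ((l : ℝ) / n - 1)) :=
      mul_le_mul_of_nonneg_right hcoef (by linarith)
    rw [← hadd]
    linarith

/-- [PTW-F1a] the lower step, sum against integral.
Proof. `v ↦ F (l / v - 1)` is increasing on `[i₀, i]`, at most `F 1 = A` (`l / i ≥ 2`), so `∑_j i₀ (1/(j-1) - 1/j) F (l/j - 1) ≤ i₀ ∫_{i₀}^{i} F (l/v - 1) dv / v ^ 2 + i₀ ∑_j (1/(j-1) - 1/j) (F (l/j - 1) - F (l/(j-1) - 1))`, the last sum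
is `≤ i₀ * (1 / (i₀ (i₀ + 1))) * A` (telescoping). Substitution `y = l / v - 1`: the integral is `(i₀ / l) ∫_{l/i - 1}^{l/i₀ - 1} F`; `E5a` with `s = l / i`, `s' = l / i₀`, multiplied by `i₀ / l`. -/
theorem step_lo {A : ℝ} {F f : ℝ → ℝ} (h : LS A F f) (i₀ i l : ℕ) (h0 : 1 ≤ i₀) (hi : i₀ < i) (hl : 2 * i ≤ l) :
    (i₀ : ℝ) / i * f ((l : ℝ) / i) - A / i₀ ≤ 1 - ∑ j ∈ Ioc i₀ i, (i₀ : ℝ) / (j * (j - 1)) * F ((l : ℝ) / j - 1) := by
  have hi00 : (0 : ℝ) < i₀ := by exact_mod_cast h0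
  have hi0 : (0 : ℝ) < i := by exact_mod_cast (by omega : 0 < i)
  have hl0 : (0 : ℝ) < l := by exact_mod_cast (by omega : 0 < l)
  have hii : (i₀ : ℝ) ≤ i := by exact_mod_cast hi.le
  have hl1 : 2 * (i : ℝ) ≤ l := by exact_mod_cast hl
  have h1 := F1_lo h i₀ i l h0 hi.le hl
  have hs : 2 ≤ (l : ℝ) / i := by rwa [le_div_iff₀ hi0]
  have hss : (l : ℝ) / i ≤ (l : ℝ) / i₀ := by gcongr
  have hE := h.E5a _ _ hs hss
  have h2 := mul_le_mul_of_nonneg_left hE (by positivity : (0 : ℝ) ≤ (i₀ : ℝ) / l)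
  have e1 : (i₀ : ℝ) / l * ((l : ℝ) / i₀) = 1 := by field_simp
  have e2 : (i₀ : ℝ) / l * ((l : ℝ) / i * f ((l : ℝ) / i) + ∫ y in ((l : ℝ) / i - 1)..((l : ℝ) / i₀ - 1), F y) =
      (i₀ : ℝ) / i * f ((l : ℝ) / i) + (i₀ : ℝ) / l * ∫ y in ((l : ℝ) / i - 1)..((l : ℝ) / i₀ - 1), F y := by
    rw [mul_add]
    congr 1
    field_simp
  rw [e1, e2] at h2
  have hF1 : F 1 = A := by rw [h.FA 1 one_pos (by norm_num), div_one]
  have h3 : F ((l : ℝ) / i - 1) ≤ A := by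
    rw [← hF1]
    exact h.Fa (Set.mem_Ioi.mpr one_pos) (Set.mem_Ioi.mpr (by linarith)) (by linarith)
  have h4 : 0 ≤ F ((l : ℝ) / i₀ - 1) := by
    have := h.F1 ((l : ℝ) / i₀ - 1) (by linarith)
    linarith
  have h5 : 1 / (i₀ : ℝ) * (F ((l : ℝ) / i - 1) - F ((l : ℝ) / i₀ - 1)) ≤ A / i₀ := by
    rw [div_mul_eq_mul_div, one_mul]
    gcongr
    linarith
  linarith

/-- one cell, upper step -/
theorem F1_cellf {A : ℝ} {F f : ℝ → ℝ} (h : LS A F f) (i₀ i l : ℕ) (h0 : 1 ≤ i₀) (hi : 1 ≤ i) (hl : 3 * (i + 1) ≤ l) :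
    (i₀ : ℝ) / l * (∫ y in ((l : ℝ) / (i + 1 : ℕ) - 1)..((l : ℝ) / i - 1), f y) ≤
      (i₀ : ℝ) / ((i + 1) * i) * f ((l : ℝ) / i - 1) := by
  have hi0 : (0 : ℝ) < i := by exact_mod_cast hi
  have hl0 : (0 : ℝ) < l := by exact_mod_cast (by omega : 0 < l)
  have hlt : 3 * ((i : ℝ) + 1) ≤ l := by exact_mod_cast hl
  have hi00 : (0 : ℝ) < i₀ := by exact_mod_cast h0
  push_cast
  have ha : 2 ≤ (l : ℝ) / (i + 1) - 1 := by
    have : 3 ≤ (l : ℝ) / (i + 1) := by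
      rw [le_div_iff₀ (by linarith)]
      exact hlt
    linarith
  have hab : (l : ℝ) / (i + 1) - 1 ≤ (l : ℝ) / i - 1 := by
    have : (l : ℝ) / (i + 1) ≤ (l : ℝ) / i := by
      gcongr
      linarith
    linarith
  have hb : 2 ≤ (l : ℝ) / i - 1 := le_trans ha hab
  have hint : ∫ y in ((l : ℝ) / (i + 1) - 1)..((l : ℝ) / i - 1), f y ≤
      ((l : ℝ) / i - 1 - ((l : ℝ) / (i + 1) - 1)) * f ((l : ℝ) / i - 1) := by
    have e := intervalIntegral.integral_const (a := (l : ℝ) / (i + 1) - 1) (b := (l : ℝ) / i - 1)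
      (f ((l : ℝ) / i - 1))
    rw [smul_eq_mul] at e
    rw [← e]
    refine intervalIntegral.integral_mono_on hab (F1_intf h _ _ ha hb)
      intervalIntegrable_const fun y hy => ?_
    exact h.fm (le_trans ha hy.1) hb hy.2
  have e2 : (i₀ : ℝ) / ((i + 1) * i) * f ((l : ℝ) / i - 1) =
      (i₀ : ℝ) / l * (((l : ℝ) / i - 1 - ((l : ℝ) / (i + 1) - 1)) * f ((l : ℝ) / i - 1)) := by
    generalize f ((l : ℝ) / i - 1) = X
    field_simp
    ring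
  rw [e2]
  exact mul_le_mul_of_nonneg_left hint (by positivity)

/-- the induction for the upper step -/
theorem F1_up {A : ℝ} {F f : ℝ → ℝ} (h : LS A F f) (i₀ i l : ℕ) (h0 : 1 ≤ i₀) (hi : i₀ ≤ i) (hl : 3 * (i + 1) ≤ l) :
    (i₀ : ℝ) / l * (∫ y in ((l : ℝ) / (i + 1 : ℕ) - 1)..((l : ℝ) / i₀ - 1), f y) ≤
      ∑ j ∈ Ioc i₀ i, (i₀ : ℝ) / (j * j) * f ((l : ℝ) / j - 1) + 1 / i₀ := by
  have hi00 : (0 : ℝ) < i₀ := by exact_mod_cast h0
  induction i, hi using Nat.le_induction with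
  | base =>
    have hc := F1_cellf h i₀ i₀ l h0 h0 hl
    rw [Finset.Ioc_self, Finset.sum_empty, zero_add]
    refine hc.trans ?_
    have h1 := h.f1 ((l : ℝ) / i₀ - 1)
    have h2 : (i₀ : ℝ) / ((i₀ + 1) * i₀) ≤ 1 / i₀ := by
      rw [div_le_div_iff₀ (by positivity) hi00]
      nlinarith
    calc (i₀ : ℝ) / ((i₀ + 1) * i₀) * f ((l : ℝ) / i₀ - 1) ≤ (i₀ : ℝ) / ((i₀ + 1) * i₀) * 1 :=
          mul_le_mul_of_nonneg_left h1 (by positivity)
      _ ≤ 1 / i₀ := by rw [mul_one]; exact h2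
  | succ n hn ih =>
    have hn1 : 1 ≤ n := le_trans h0 hn
    have hn0 : (0 : ℝ) < n := by exact_mod_cast hn1
    have hnn : (i₀ : ℝ) ≤ n := by exact_mod_cast hn
    have hl0 : (0 : ℝ) < l := by exact_mod_cast (by omega : 0 < l)
    have hl1 : 3 * ((n : ℝ) + 1 + 1) ≤ l := by exact_mod_cast hl
    have ih' := ih (by omega)
    have hc := F1_cellf h i₀ (n + 1) l h0 (by omega) hl
    have hins : Ioc i₀ (n + 1) = insert (n + 1) (Ioc i₀ n) := by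
      ext j
      simp only [Finset.mem_Ioc, Finset.mem_insert]
      omega
    rw [hins, Finset.sum_insert (by simp)]
    have h3 : ∀ x : ℝ, 0 < x → 3 * x ≤ l → 2 ≤ (l : ℝ) / x - 1 := by
      intro x hx hx2
      have : 3 ≤ (l : ℝ) / x := by rwa [le_div_iff₀ hx]
      linarith
    have ha : 2 ≤ (l : ℝ) / ((n + 1 + 1 : ℕ) : ℝ) - 1 := h3 _ (by positivity) (by push_cast; linarith)
    have hb : 2 ≤ (l : ℝ) / ((n + 1 : ℕ) : ℝ) - 1 := h3 _ (by positivity) (by push_cast; linarith)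
    have hc0 : 2 ≤ (l : ℝ) / i₀ - 1 := h3 _ hi00 (by linarith)
    have hadd := intervalIntegral.integral_add_adjacent_intervals (F1_intf h _ _ ha hb)
      (F1_intf h _ _ hb hc0)
    have hf0 : 0 ≤ f ((l : ℝ) / ((n + 1 : ℕ) : ℝ) - 1) := h.f0 _ hb
    have hcoef : (i₀ : ℝ) / ((((n + 1 : ℕ) : ℝ) + 1) * ((n + 1 : ℕ) : ℝ)) ≤
        (i₀ : ℝ) / (((n + 1 : ℕ) : ℝ) * ((n + 1 : ℕ) : ℝ)) := by
      gcongr
      linarith
    have h4 := mul_le_mul_of_nonneg_right hcoef hf0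
    rw [← hadd]
    linarith


/-- [PTW-F1b] the upper step, sum against integral. Here `i₀ ≤ i'`, `3 i' ≤ l`.
Proof. `v ↦ f (l / v - 1) / v ^ 2` is decreasing and `≥ 0` on `[i₀, i']` (`l / v - 1 ≥ 2`), so `∑_{j ∈ Ioc i₀ i'} (i₀ / j ^ 2) f (l/j - 1) ≥ i₀ ∫_{i₀ + 1}^{i'} f (l/v - 1) dv / v ^ 2 ≥ i₀ ∫_{i₀}^{i'} .. - 1 / i₀` (`f ≤ 1`); substitution; `E5b` with
`s = l / i'`, `s' = l / i₀`, multiplied by `i₀ / l`. -/
theorem step_up {A : ℝ} {F f : ℝ → ℝ} (h : LS A F f) (i₀ i' l : ℕ) (h0 : 1 ≤ i₀) (hi : i₀ ≤ i') (hl : 3 * i' ≤ l) :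
    1 - ∑ j ∈ Ioc i₀ i', (i₀ : ℝ) / (j * j) * f ((l : ℝ) / j - 1) ≤ (i₀ : ℝ) / i' * F ((l : ℝ) / i') + 1 / i₀ := by
  have hi00 : (0 : ℝ) < i₀ := by exact_mod_cast h0
  have hi0 : (0 : ℝ) < i' := by exact_mod_cast (by omega : 0 < i')
  have hl0 : (0 : ℝ) < l := by exact_mod_cast (by omega : 0 < l)
  have hii : (i₀ : ℝ) ≤ i' := by exact_mod_cast hi
  have hl1 : 3 * (i' : ℝ) ≤ l := by exact_mod_cast hl
  have hs : 3 ≤ (l : ℝ) / i' := by rwa [le_div_iff₀ hi0]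
  have hss : (l : ℝ) / i' ≤ (l : ℝ) / i₀ := by gcongr
  have hE := h.E5b _ _ hs hss
  have h2 := mul_le_mul_of_nonneg_left hE (by positivity : (0 : ℝ) ≤ (i₀ : ℝ) / l)
  have e1 : (i₀ : ℝ) / l * ((l : ℝ) / i₀) = 1 := by field_simp
  have e2 : (i₀ : ℝ) / l * ((l : ℝ) / i' * F ((l : ℝ) / i') + ∫ y in ((l : ℝ) / i' - 1)..((l : ℝ) / i₀ - 1), f y) =
      (i₀ : ℝ) / i' * F ((l : ℝ) / i') + (i₀ : ℝ) / l * ∫ y in ((l : ℝ) / i' - 1)..((l : ℝ) / i₀ - 1), f y := by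
    rw [mul_add]
    congr 1
    field_simp
  rw [e1, e2] at h2
  have h3 : (i₀ : ℝ) / l * (∫ y in ((l : ℝ) / i' - 1)..((l : ℝ) / i₀ - 1), f y) ≤
      ∑ j ∈ Ioc i₀ i', (i₀ : ℝ) / (j * j) * f ((l : ℝ) / j - 1) + 1 / i₀ := by
    rcases Nat.eq_or_lt_of_le hi with h' | h'
    · subst h'
      simp
    · obtain ⟨n, rfl⟩ : ∃ n, i' = n + 1 := ⟨i' - 1, by omega⟩
      refine (F1_up h i₀ n l h0 (by omega) hl).trans ?_
      have hins : Ioc i₀ (n + 1) = insert (n + 1) (Ioc i₀ n) := by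
        ext j
        simp only [Finset.mem_Ioc, Finset.mem_insert]
        omega
      rw [hins, Finset.sum_insert (by simp)]
      have hf0 : 0 ≤ f ((l : ℝ) / ((n + 1 : ℕ) : ℝ) - 1) := h.f0 _ (by linarith)
      have : 0 ≤ (i₀ : ℝ) / (((n + 1 : ℕ) : ℝ) * ((n + 1 : ℕ) : ℝ)) * f ((l : ℝ) / ((n + 1 : ℕ) : ℝ) - 1) :=
        mul_nonneg (by positivity) hf0
      linarith
  linarith


/-- [PTW-F1c] Proof. Case `3 i ≤ l`: `i' = i - 1`, `F (l / (i - 1)) ≤ F (l / i) ≤ F 3 = A / 3`, `i₀ / (i - 1) - i₀ / i ≤ 1 / i₀`. Case `3 i > l`: `F (l / i) = A i / l`; `i' = l / 3` (floor), `F (l / i') ≤ F 3 = A / 3`,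
`i₀ A / (3 i') - i₀ A / l = i₀ A (l - 3 i') / (3 i' l) ≤ 2 i₀ A / (9 i₀ ^ 2)`. -/
theorem step_cmp {A : ℝ} {F f : ℝ → ℝ} (h : LS A F f) (i₀ i l : ℕ) (h0 : 1 ≤ i₀) (hi : i₀ < i) (hl : 3 * i₀ ≤ l) :
    (i₀ : ℝ) / (min (i - 1) (l / 3) : ℕ) * F ((l : ℝ) / (min (i - 1) (l / 3) : ℕ)) ≤ (i₀ : ℝ) / i * F ((l : ℝ) / i) + A / i₀ := by
  have hi00 : (0 : ℝ) < i₀ := by exact_mod_cast h0
  have hi0 : (0 : ℝ) < i := by exact_mod_cast (by omega : 0 < i)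
  have hl0 : (0 : ℝ) < l := by exact_mod_cast (by omega : 0 < l)
  have hA := h.A3
  have hF3 : F 3 = A / 3 := h.FA 3 (by norm_num) le_rfl
  have h3le : ∀ x : ℝ, 3 ≤ x → F x ≤ A / 3 := by
    intro x hx
    rw [← hF3]
    exact h.Fa (Set.mem_Ioi.mpr (by norm_num)) (Set.mem_Ioi.mpr (by linarith)) hx
  by_cases hc : 3 * i ≤ l
  · have hm : min (i - 1) (l / 3) = i - 1 := by omega
    rw [hm]
    obtain ⟨n, rfl⟩ : ∃ n, i = n + 1 := ⟨i - 1, by omega⟩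
    rw [Nat.add_sub_cancel]
    have hn : i₀ ≤ n := by omega
    have hnn : (i₀ : ℝ) ≤ n := by exact_mod_cast hn
    have hn0 : (0 : ℝ) < n := by linarith
    have hcl : 3 * ((n : ℝ) + 1) ≤ l := by exact_mod_cast hc
    push_cast
    have h1 : 3 ≤ (l : ℝ) / (n + 1) := by
      rw [le_div_iff₀ (by linarith)]
      exact hcl
    have h2 : (l : ℝ) / (n + 1) ≤ (l : ℝ) / n := by
      gcongr
      linarith
    have h4 : F ((l : ℝ) / n) ≤ F ((l : ℝ) / (n + 1)) :=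
      h.Fa (Set.mem_Ioi.mpr (by linarith)) (Set.mem_Ioi.mpr (by linarith)) h2
    have h5 := h3le _ h1
    have h6 : 0 ≤ F ((l : ℝ) / (n + 1)) := by
      have := h.F1 ((l : ℝ) / (n + 1)) (by linarith)
      linarith
    have h7 : (i₀ : ℝ) / n - (i₀ : ℝ) / (n + 1) ≤ 1 / i₀ := by
      have e : (i₀ : ℝ) / n - (i₀ : ℝ) / (n + 1) = i₀ / (n * (n + 1)) := by
        field_simp
        ring
      rw [e, div_le_div_iff₀ (by positivity) hi00]
      nlinarith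
    have h8 : (i₀ : ℝ) / n * F ((l : ℝ) / n) ≤ (i₀ : ℝ) / n * F ((l : ℝ) / (n + 1)) :=
      mul_le_mul_of_nonneg_left h4 (by positivity)
    have h9 : ((i₀ : ℝ) / n - (i₀ : ℝ) / (n + 1)) * F ((l : ℝ) / (n + 1)) ≤ 1 / i₀ * A := by
      refine mul_le_mul h7 (by linarith) h6 (by positivity)
    have h10 : 1 / (i₀ : ℝ) * A = A / i₀ := by ring
    linarith
  · have hm : min (i - 1) (l / 3) = l / 3 := by omega
    rw [hm]
    set m := l / 3 with hmdef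
    have hm1 : i₀ ≤ m := by omega
    have hm2 : 3 * m ≤ l := by omega
    have hm3 : l ≤ 3 * m + 2 := by omega
    have hmm : (i₀ : ℝ) ≤ m := by exact_mod_cast hm1
    have hm0 : (0 : ℝ) < m := by linarith
    have hm2' : 3 * (m : ℝ) ≤ l := by exact_mod_cast hm2
    have hm3' : (l : ℝ) ≤ 3 * m + 2 := by exact_mod_cast hm3
    have hlt : (l : ℝ) < 3 * i := by exact_mod_cast (by omega : l < 3 * i)
    have hFi : F ((l : ℝ) / i) = A / ((l : ℝ) / i) := by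
      refine h.FA _ (by positivity) ?_
      rw [div_le_iff₀ hi0]
      exact hlt.le
    have e1 : (i₀ : ℝ) / i * F ((l : ℝ) / i) = i₀ * A / l := by
      rw [hFi]
      field_simp
    have h1 : F ((l : ℝ) / m) ≤ A / 3 := h3le _ (by rwa [le_div_iff₀ hm0])
    have h2 : (i₀ : ℝ) / m * F ((l : ℝ) / m) ≤ (i₀ : ℝ) / m * (A / 3) :=
      mul_le_mul_of_nonneg_left h1 (by positivity)
    have e2 : (i₀ : ℝ) / m * (A / 3) - i₀ * A / l = i₀ * A * (l - 3 * m) / (3 * m * l) := by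
      field_simp
    have h3 : (i₀ : ℝ) * A * (l - 3 * m) / (3 * m * l) ≤ A / i₀ := by
      rw [div_le_div_iff₀ (by positivity) hi00]
      have hA0 : 0 ≤ A := by linarith
      have h31 : (i₀ : ℝ) * i₀ ≤ m * m := mul_le_mul hmm hmm hi00.le hm0.le
      have h32 : (l : ℝ) - 3 * m ≤ 2 := by linarith
      have h33 : (i₀ : ℝ) * i₀ * (l - 3 * m) ≤ 3 * m * l := by
        have h34 : (i₀ : ℝ) * i₀ * (l - 3 * m) ≤ (m * m) * 2 := by
          refine mul_le_mul h31 h32 (by linarith) (by positivity)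
        have h35 : (m : ℝ) * m * 2 ≤ 3 * m * l := by nlinarith
        linarith
      calc (i₀ : ℝ) * A * (l - 3 * m) * i₀ = A * ((i₀ : ℝ) * i₀ * (l - 3 * m)) := by ring
        _ ≤ A * (3 * m * l) := mul_le_mul_of_nonneg_left h33 hA0
    rw [e1]
    linarith

end Pool.Agent.PTW
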