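import Pool.Agent.PTW.D1
import Pool.Agent.PTW.F1

set_option autoImplicit false

namespace Pool.Agent.PTW

open Finset

/-- [PTW-F2a] crude bound. Proof. `|lam| ≤ 1` (`abs_lamL`), `∑_T ∏ φ = ∏ (1 + φ) ≤ exp (∑ φ)`. -/
theorem MT_crude (ix : ℕ → ℕ) (φ : ℕ → ℝ) (up : Bool) (l : ℕ) (S : Finset ℕ) (h : ∀ p ∈ S, 0 ≤ φ p) :
    |MT ix φ up l S| ≤ Real.exp (∑ p ∈ S, φ p) := by
  unfold MT
  calc |∑ T ∈ S.powerset, lam ix up l T * ∏ p ∈ T, φ p|
      ≤ ∑ T ∈ S.powerset, |lam ix up l T * ∏ p ∈ T, φ p| := Finset.abs_sum_le_sum_abs _ _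
    _ ≤ ∑ T ∈ S.powerset, ∏ p ∈ T, φ p := by
        refine Finset.sum_le_sum fun T hT => ?_
        have hT' := Finset.mem_powerset.mp hT
        have h0 : 0 ≤ ∏ p ∈ T, φ p := Finset.prod_nonneg fun p hp => h p (hT' hp)
        rw [abs_mul, abs_of_nonneg h0]
        exact mul_le_of_le_one_left h0 (abs_lamL up l _)
    _ = ∏ p ∈ S, (1 + φ p) := (Finset.prod_one_add _).symm
    _ ≤ ∏ p ∈ S, Real.exp (φ p) := by
        refine Finset.prod_le_prod (fun p hp => by linarith [h p hp]) fun p hp => ?_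
        linarith [Real.add_one_le_exp (φ p)]
    _ = Real.exp (∑ p ∈ S, φ p) := (Real.exp_sum _ _).symm

/-- decomposition of a sum into cells -/
theorem F2_cells (S : Finset ℕ) (ix : ℕ → ℕ) (i₀ i : ℕ) (h4 : ∀ p ∈ S, ix p ≤ i) (G : ℕ → ℝ) :
    ∑ p ∈ S, G p = ∑ p ∈ S.filter (fun p => ix p ≤ i₀), G p +
      ∑ j ∈ Ioc i₀ i, ∑ p ∈ S.filter (fun p => ix p = j), G p := by
  rw [← Finset.sum_filter_add_sum_filter_not S (fun p => ix p ≤ i₀)]
  congr 1
  rw [← Finset.sum_fiberwise_of_maps_to (s := S.filter (fun p => ¬ ix p ≤ i₀)) (t := Ioc i₀ i) (g := ix)]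
  · refine Finset.sum_congr rfl fun j hj => ?_
    rw [Finset.mem_Ioc] at hj
    refine Finset.sum_congr ?_ fun _ _ => rfl
    ext p
    simp only [Finset.mem_filter]
    constructor
    · rintro ⟨⟨h1, h2⟩, h3⟩
      exact ⟨h1, h3⟩
    · rintro ⟨h1, h3⟩
      exact ⟨⟨h1, by omega⟩, h3⟩
  · intro p hp
    rw [Finset.mem_filter] at hp
    rw [Finset.mem_Ioc]
    exact ⟨by omega, h4 p hp.1⟩

theorem F2_log_le (j : ℕ) (hj : 2 ≤ j) : Real.log ((j : ℝ) / (j - 1)) ≤ 1 / (j - 1) := by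
  have h : (2 : ℝ) ≤ j := by exact_mod_cast hj
  have h1 : (0 : ℝ) < j - 1 := by linarith
  refine (Real.log_le_sub_one_of_pos (by positivity)).trans (le_of_eq ?_)
  field_simp
  ring

theorem F2_le_log (j : ℕ) (hj : 2 ≤ j) : 1 / (j : ℝ) ≤ Real.log ((j : ℝ) / (j - 1)) := by
  have h : (2 : ℝ) ≤ j := by exact_mod_cast hj
  have h1 : (0 : ℝ) < j - 1 := by linarith
  refine le_trans (le_of_eq ?_) (Real.one_sub_inv_le_log_of_pos (by positivity))
  field_simp
  ring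

theorem F2_sum_log (i₀ i : ℕ) (h0 : 1 ≤ i₀) (hi : i₀ ≤ i) :
    ∑ j ∈ Ioc i₀ i, Real.log ((j : ℝ) / (j - 1)) = Real.log ((i : ℝ) / i₀) := by
  have hi00 : (0 : ℝ) < i₀ := by exact_mod_cast h0
  induction i, hi using Nat.le_induction with
  | base =>
    rw [Finset.Ioc_self, Finset.sum_empty, div_self hi00.ne', Real.log_one]
  | succ n hn ih =>
    have hn0 : (0 : ℝ) < n := by exact_mod_cast (by omega : 0 < n)
    have hins : Ioc i₀ (n + 1) = insert (n + 1) (Ioc i₀ n) := by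
      ext j
      simp only [Finset.mem_Ioc, Finset.mem_insert]
      omega
    rw [hins, Finset.sum_insert (by simp), ih]
    push_cast
    rw [add_sub_cancel_right, ← Real.log_mul (by positivity) (by positivity)]
    congr 1
    field_simp

/-- the sets below `p` -/
theorem F2_cond {i₀ I : ℕ} {κ : ℝ} {P : Finset ℕ} {ix : ℕ → ℕ} {φ : ℕ → ℝ} (hS : Sys i₀ I κ P ix φ)
    (S : Finset ℕ) (hSP : S ⊆ P) (i p : ℕ) (h3 : ∀ p ∈ P, ix p < i → p ∈ S) (hp : ix p ≤ i) :
    S.filter (· < p) ⊆ P ∧ (∀ q ∈ P, ix q < ix p → q ∈ S.filter (· < p)) ∧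
      (∀ q ∈ S.filter (· < p), ix q ≤ ix p) := by
  refine ⟨(Finset.filter_subset _ _).trans hSP, ?_, ?_⟩
  · intro q hq hlt
    rw [Finset.mem_filter]
    refine ⟨h3 q hq (by omega), ?_⟩
    by_contra hcon
    have := hS.mono (not_lt.mp hcon)
    omega
  · intro q hq
    rw [Finset.mem_filter] at hq
    exact hS.mono hq.2.le

/-- the mass of a cell -/
theorem F2_mass {i₀ I : ℕ} {κ : ℝ} {P : Finset ℕ} {ix : ℕ → ℕ} {φ : ℕ → ℝ} (hS : Sys i₀ I κ P ix φ)
    (S : Finset ℕ) (hSP : S ⊆ P) (j : ℕ) (hj : i₀ < j) (hjI : j ≤ I) :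
    ∑ p ∈ S.filter (fun p => ix p = j), φ p ≤ Real.log ((j : ℝ) / (j - 1)) + κ := by
  have h1 : ∑ p ∈ S.filter (fun p => ix p = j), φ p ≤ ∑ p ∈ P.filter (fun p => ix p = j), φ p :=
    Finset.sum_le_sum_of_subset_of_nonneg (Finset.filter_subset_filter _ hSP)
      fun p hp _ => hS.g0 p (Finset.mem_filter.mp hp).1
  have h2 := (abs_le.mp (hS.m1 j hj hjI)).2
  linarith

theorem F2_mass0 {i₀ I : ℕ} {κ : ℝ} {P : Finset ℕ} {ix : ℕ → ℕ} {φ : ℕ → ℝ} (hS : Sys i₀ I κ P ix φ)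
    (S : Finset ℕ) (hSP : S ⊆ P) (hle : ∀ p ∈ S, ix p ≤ i₀) :
    ∑ p ∈ S, φ p ≤ κ := by
  refine le_trans (Finset.sum_le_sum_of_subset_of_nonneg (fun p hp => ?_)
      fun p hp _ => hS.g0 p (Finset.mem_filter.mp hp).1) hS.m0
  exact Finset.mem_filter.mpr ⟨hSP hp, hle p hp⟩

/-- the total mass above `i₀` -/
theorem F2_total {i₀ r : ℕ} {κ : ℝ} (i : ℕ) (h0 : 1 ≤ i₀) (hκ : 0 ≤ κ)
    (hi : i₀ < i) (hir : i ≤ r * i₀) :
    ∑ j ∈ Ioc i₀ i, (Real.log ((j : ℝ) / (j - 1)) + κ) ≤ Real.log r + κ * (r * i₀) := by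
  have hi00 : (0 : ℝ) < i₀ := by exact_mod_cast h0
  have hi0 : (0 : ℝ) < i := by exact_mod_cast (by omega : 0 < i)
  have hir' : (i : ℝ) ≤ r * i₀ := by exact_mod_cast hir
  rw [Finset.sum_add_distrib, F2_sum_log i₀ i h0 hi.le, Finset.sum_const, nsmul_eq_mul, Nat.card_Ioc]
  have h1 : Real.log ((i : ℝ) / i₀) ≤ Real.log r := by
    refine Real.log_le_log (by positivity) ?_
    rw [div_le_iff₀ hi00]
    exact hir'
  have h2 : ((i - i₀ : ℕ) : ℝ) ≤ r * i₀ := by
    have : ((i - i₀ : ℕ) : ℝ) ≤ i := by exact_mod_cast Nat.sub_le i i₀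
    linarith
  have h3 : ((i - i₀ : ℕ) : ℝ) * κ ≤ κ * (r * i₀) := by
    rw [mul_comm]
    exact mul_le_mul_of_nonneg_left h2 hκ
  linarith

/-- the cell `i₀` -/
theorem F2_zero {i₀ I : ℕ} {κ : ℝ} {P : Finset ℕ} {ix : ℕ → ℕ} {φ : ℕ → ℝ} (hS : Sys i₀ I κ P ix φ)
    (hκ1 : κ ≤ 1) (S : Finset ℕ) (hSP : S ⊆ P) (up : Bool) (lf : ℕ → ℕ) (S' : Finset ℕ) (hSS : S' ⊆ P)
    (hle : ∀ p ∈ S', ix p ≤ i₀) :
    |∑ p ∈ S', φ p * MT ix φ up (lf p) (S.filter (· < p))| ≤ 3 * κ := by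
  have h1 : ∀ p ∈ S', |φ p * MT ix φ up (lf p) (S.filter (· < p))| ≤ 3 * φ p := by
    intro p hp
    have h0 := hS.g0 p (hSS hp)
    rw [abs_mul, abs_of_nonneg h0, mul_comm]
    refine mul_le_mul_of_nonneg_right ?_ h0
    have hc : S.filter (· < p) ⊆ P := (Finset.filter_subset _ _).trans hSP
    refine (MT_crude ix φ up (lf p) (S.filter (· < p)) fun q hq => hS.g0 q (hc hq)).trans ?_
    have hm := F2_mass0 hS (S.filter (· < p)) hc (fun q hq => by
      rw [Finset.mem_filter] at hq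
      exact (hS.mono hq.2.le).trans (hle p hp))
    have he := Real.exp_one_lt_d9
    have h5 : Real.exp (∑ q ∈ S.filter (· < p), φ q) ≤ Real.exp 1 :=
      Real.exp_le_exp.mpr (hm.trans hκ1)
    linarith
  calc |∑ p ∈ S', φ p * MT ix φ up (lf p) (S.filter (· < p))|
      ≤ ∑ p ∈ S', |φ p * MT ix φ up (lf p) (S.filter (· < p))| := Finset.abs_sum_le_sum_abs _ _
    _ ≤ ∑ p ∈ S', 3 * φ p := Finset.sum_le_sum h1
    _ = 3 * ∑ p ∈ S', φ p := (Finset.mul_sum _ _ _).symm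
    _ ≤ 3 * κ := by
        have := F2_mass0 hS S' hSS hle
        linarith


/-- [PTW-F2b] COMPARISON THEOREM, one induction step made explicit (`E` is the error of the previous level; `r` bounds everything).
Proof. `MT_false`: group the `p ∈ S` by `j = ix p ∈ [i₀, i]`. For `j > i₀` and `ix p = j` the set `S_{<p}` satisfies `P_{ix < j} ⊆ S_{<p} ⊆ P_{ix ≤ j}` (`ix` monotone), `l - j < k i₀`, so `hE` gives `MT true (l - j) S_{<p} ≤ (i₀ / j) F (l / j - 1) + E`;
for `j = i₀` use `MT_crude` (`≤ exp κ ≤ 3`). The mass of the cell `j` is `≤ log (j/(j-1)) + κ ≤ 1/(j-1) + κ`, `(i₀ / j) F (l/j - 1) ≤ A`; the total mass is `≤ log r + r i₀ κ + κ`. Then `step_lo`. -/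
theorem cmp_lo {A : ℝ} {F f : ℝ → ℝ} (h : LS A F f) (r i₀ k : ℕ) (κ E : ℝ) (hr : 1 ≤ r) (h0 : 1 ≤ i₀) (hκ : 0 ≤ κ) (hκ1 : κ ≤ 1) (hE0 : 0 ≤ E)
    (P : Finset ℕ) (ix : ℕ → ℕ) (φ : ℕ → ℝ) (hS : Sys i₀ (r * i₀) κ P ix φ)
    (hE : ∀ l i : ℕ, l < k * i₀ → 1 ≤ l → i₀ < i → i ≤ r * i₀ → ∀ S ⊆ P, (∀ p ∈ P, ix p < i → p ∈ S) → (∀ p ∈ S, ix p ≤ i) →
      MT ix φ true l S ≤ (i₀ : ℝ) / i * F ((l : ℝ) / i) + E)
    (l i : ℕ) (hl : l < (k + 1) * i₀) (hi : i₀ < i) (hir : i ≤ r * i₀) (h2 : 2 * i ≤ l) (S : Finset ℕ) (hSP : S ⊆ P)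
    (h3 : ∀ p ∈ P, ix p < i → p ∈ S) (h4 : ∀ p ∈ S, ix p ≤ i) :
    (i₀ : ℝ) / i * f ((l : ℝ) / i) - (A / i₀ + 3 * κ + A * κ * (r * i₀) + E * (Real.log r + κ * (r * i₀ + 1))) ≤ MT ix φ false l S := by
  have hi00 : (0 : ℝ) < i₀ := by exact_mod_cast h0
  have hA := h.A3
  have hF1 : F 1 = A := by rw [h.FA 1 one_pos (by norm_num), div_one]
  rw [MT_false, F2_cells S ix i₀ i h4]
  have hz := F2_zero hS hκ1 S hSP true (fun p => l - ix p) (S.filter (fun p => ix p ≤ i₀))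
    ((Finset.filter_subset _ _).trans hSP) (fun p hp => (Finset.mem_filter.mp hp).2)
  have hz' := (abs_le.mp hz).2
  have hcell : ∀ j ∈ Ioc i₀ i, ∑ p ∈ S.filter (fun p => ix p = j), φ p * MT ix φ true (l - ix p) (S.filter (· < p)) ≤
      (i₀ : ℝ) / (j * (j - 1)) * F ((l : ℝ) / j - 1) + κ * A + E * (Real.log ((j : ℝ) / (j - 1)) + κ) := by
    intro j hj
    rw [Finset.mem_Ioc] at hj
    have hj0 : (0 : ℝ) < j := by exact_mod_cast (by omega : 0 < j)
    have hj1 : (0 : ℝ) < (j : ℝ) - 1 := by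
      have : (1 : ℝ) < j := by exact_mod_cast (by omega : 1 < j)
      linarith
    have hji : (i₀ : ℝ) ≤ j := by exact_mod_cast hj.1.le
    have hjl : 2 * (j : ℝ) ≤ l := by exact_mod_cast (by omega : 2 * j ≤ l)
    have harg : 1 ≤ (l : ℝ) / j - 1 := by
      have : 2 ≤ (l : ℝ) / j := by rwa [le_div_iff₀ hj0]
      linarith
    have hF0 : 1 ≤ F ((l : ℝ) / j - 1) := h.F1 _ (by linarith)
    have hFA : F ((l : ℝ) / j - 1) ≤ A := by
      rw [← hF1]
      exact h.Fa (Set.mem_Ioi.mpr one_pos) (Set.mem_Ioi.mpr (by linarith)) harg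
    have hbd : ∀ p ∈ S.filter (fun p => ix p = j), φ p * MT ix φ true (l - ix p) (S.filter (· < p)) ≤
        φ p * ((i₀ : ℝ) / j * F ((l : ℝ) / j - 1) + E) := by
      intro p hp
      rw [Finset.mem_filter] at hp
      obtain ⟨c1, c2, c3⟩ := F2_cond hS S hSP i p h3 (h4 p hp.1)
      rw [hp.2] at c2 c3 ⊢
      refine mul_le_mul_of_nonneg_left ?_ (hS.g0 p (hSP hp.1))
      have hlt : l - j < k * i₀ := by
        have : (k + 1) * i₀ = k * i₀ + i₀ := by ring
        omega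
      have := hE (l - j) j hlt (by omega) hj.1 (hj.2.trans hir) _ c1 c2 c3
      have ec : ((l - j : ℕ) : ℝ) / j = (l : ℝ) / j - 1 := by
        rw [Nat.cast_sub (by omega), sub_div, div_self hj0.ne']
      rwa [ec] at this
    have hm := F2_mass hS S hSP j hj.1 (hj.2.trans hir)
    have hlog := F2_log_le j (by omega)
    have hX0 : 0 ≤ (i₀ : ℝ) / j * F ((l : ℝ) / j - 1) := by positivity
    have hXA : (i₀ : ℝ) / j * F ((l : ℝ) / j - 1) ≤ A := by
      have h5 : (i₀ : ℝ) / j ≤ 1 := by rwa [div_le_one hj0]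
      calc (i₀ : ℝ) / j * F ((l : ℝ) / j - 1) ≤ 1 * F ((l : ℝ) / j - 1) :=
            mul_le_mul_of_nonneg_right h5 (by linarith)
        _ ≤ A := by rw [one_mul]; exact hFA
    calc ∑ p ∈ S.filter (fun p => ix p = j), φ p * MT ix φ true (l - ix p) (S.filter (· < p))
        ≤ ∑ p ∈ S.filter (fun p => ix p = j), φ p * ((i₀ : ℝ) / j * F ((l : ℝ) / j - 1) + E) :=
          Finset.sum_le_sum hbd
      _ = (∑ p ∈ S.filter (fun p => ix p = j), φ p) * ((i₀ : ℝ) / j * F ((l : ℝ) / j - 1) + E) :=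
          (Finset.sum_mul _ _ _).symm
      _ ≤ (Real.log ((j : ℝ) / (j - 1)) + κ) * ((i₀ : ℝ) / j * F ((l : ℝ) / j - 1) + E) :=
          mul_le_mul_of_nonneg_right hm (by linarith)
      _ ≤ (1 / (j - 1) + κ) * ((i₀ : ℝ) / j * F ((l : ℝ) / j - 1)) + E * (Real.log ((j : ℝ) / (j - 1)) + κ) := by
          have := mul_le_mul_of_nonneg_right (add_le_add_left hlog κ) hX0
          nlinarith
      _ ≤ (i₀ : ℝ) / (j * (j - 1)) * F ((l : ℝ) / j - 1) + κ * A + E * (Real.log ((j : ℝ) / (j - 1)) + κ) := by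
          have e1 : 1 / ((j : ℝ) - 1) * ((i₀ : ℝ) / j * F ((l : ℝ) / j - 1)) =
              (i₀ : ℝ) / (j * (j - 1)) * F ((l : ℝ) / j - 1) := by
            generalize F ((l : ℝ) / j - 1) = X
            field_simp
          have e2 := mul_le_mul_of_nonneg_left hXA hκ
          rw [add_mul, e1]
          linarith
  have hsum := Finset.sum_le_sum hcell
  rw [Finset.sum_add_distrib, Finset.sum_add_distrib, Finset.sum_const, nsmul_eq_mul,
    Nat.card_Ioc, ← Finset.mul_sum] at hsum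
  have htot := F2_total (r := r) (κ := κ) i h0 hκ hi hir
  have hst := step_lo h i₀ i l h0 hi h2
  have hcard : ((i - i₀ : ℕ) : ℝ) * (κ * A) ≤ A * κ * (r * i₀) := by
    have h5 : ((i - i₀ : ℕ) : ℝ) ≤ r * i₀ := by
      have : ((i - i₀ : ℕ) : ℝ) ≤ i := by exact_mod_cast Nat.sub_le i i₀
      have : (i : ℝ) ≤ r * i₀ := by exact_mod_cast hir
      linarith
    have h6 : 0 ≤ κ * A := by positivity
    nlinarith
  have hEt := mul_le_mul_of_nonneg_left htot hE0
  have hEκ : 0 ≤ E * κ := by positivity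
  have hexp : E * (Real.log r + κ * (r * i₀ + 1)) = E * (Real.log r + κ * (r * i₀)) + E * κ := by ring
  rw [hexp]
  linarith


/-- [PTW-F2c] Proof. If `l < 3 i₀` then `MT true l S = 1` (no `p` with `3 ix p ≤ l`) and `(i₀ / i) F (l / i) = i₀ A / l ≥ 1`. Otherwise `MT_true`, group by `j = ix p`, `3 j ≤ l`: the cells `i₀ < j ≤ i' = min (i - 1) (l / 3)` are complete, there
`MT false (l - j) S_{<p} ≥ (i₀ / j) f (l / j - 1) - E` (`hE`: `2 j ≤ l - j`), mass `≥ log (j/(j-1)) - κ ≥ 1/j - κ`, `0 ≤ f ≤ 1`; the cell `j = i` (not complete) contributes at least `- mass * E` to the sum, the cell `i₀` at least `- 3 κ`.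
Then `step_up` and `step_cmp`. -/
theorem cmp_up {A : ℝ} {F f : ℝ → ℝ} (h : LS A F f) (r i₀ k : ℕ) (κ E : ℝ) (hr : 1 ≤ r) (h0 : 1 ≤ i₀) (hκ : 0 ≤ κ) (hκ1 : κ ≤ 1) (hE0 : 0 ≤ E)
    (P : Finset ℕ) (ix : ℕ → ℕ) (φ : ℕ → ℝ) (hS : Sys i₀ (r * i₀) κ P ix φ)
    (hE : ∀ l i : ℕ, l < k * i₀ → i₀ < i → i ≤ r * i₀ → 2 * i ≤ l → ∀ S ⊆ P, (∀ p ∈ P, ix p < i → p ∈ S) → (∀ p ∈ S, ix p ≤ i) →
      (i₀ : ℝ) / i * f ((l : ℝ) / i) - E ≤ MT ix φ false l S)
    (l i : ℕ) (hl : l < (k + 1) * i₀) (hl1 : 1 ≤ l) (hi : i₀ < i) (hir : i ≤ r * i₀) (S : Finset ℕ) (hSP : S ⊆ P)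
    (h3 : ∀ p ∈ P, ix p < i → p ∈ S) (h4 : ∀ p ∈ S, ix p ≤ i) :
    MT ix φ true l S ≤ (i₀ : ℝ) / i * F ((l : ℝ) / i) + ((A + 1) / i₀ + 3 * κ + κ * (r * i₀) + E * (Real.log r + κ * (r * i₀ + 1))) := by
  have hi00 : (0 : ℝ) < i₀ := by exact_mod_cast h0
  have hi0 : (0 : ℝ) < i := by exact_mod_cast (by omega : 0 < i)
  have hl0 : (0 : ℝ) < l := by exact_mod_cast hl1
  have hA := h.A3
  have hr0 : (0 : ℝ) ≤ Real.log r := Real.log_nonneg (by exact_mod_cast hr)
  have herr : 0 ≤ (A + 1) / i₀ + 3 * κ + κ * (r * i₀) + E * (Real.log r + κ * (r * i₀ + 1)) := by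
    have : 0 ≤ (A + 1) / i₀ := by positivity
    positivity
  by_cases hc : l < 3 * i₀
  · have hcl : (l : ℝ) < 3 * i₀ := by exact_mod_cast hc
    have hemp : S.filter (fun p => 3 * ix p ≤ l) = ∅ := by
      rw [Finset.filter_eq_empty_iff]
      intro p hp
      have := hS.lo p (hSP hp)
      omega
    rw [MT_true, hemp, Finset.sum_empty, sub_zero]
    have hii : (i₀ : ℝ) < i := by exact_mod_cast hi
    have hFi : F ((l : ℝ) / i) = A / ((l : ℝ) / i) := by
      refine h.FA _ (by positivity) ?_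
      rw [div_le_iff₀ hi0]
      linarith
    have e1 : (i₀ : ℝ) / i * F ((l : ℝ) / i) = i₀ * A / l := by
      rw [hFi]
      field_simp
    have e2 : 1 ≤ (i₀ : ℝ) * A / l := by
      rw [le_div_iff₀ hl0, one_mul]
      nlinarith
    rw [e1]
    linarith
  · have hc' : 3 * i₀ ≤ l := not_lt.mp hc
    set i' := min (i - 1) (l / 3) with hi'def
    have hi'1 : i₀ ≤ i' := by omega
    have hi'2 : 3 * i' ≤ l := by omega
    have hi'3 : i' < i := by omega
    set S' := S.filter (fun p => 3 * ix p ≤ l) with hS'def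
    have hS'S : S' ⊆ S := Finset.filter_subset _ _
    have hS'P : S' ⊆ P := hS'S.trans hSP
    rw [MT_true, F2_cells S' ix i₀ i (fun p hp => h4 p (hS'S hp))]
    have hz := F2_zero hS hκ1 S hSP false (fun p => l - ix p) (S'.filter (fun p => ix p ≤ i₀))
      ((Finset.filter_subset _ _).trans hS'P) (fun p hp => (Finset.mem_filter.mp hp).2)
    have hz' := (abs_le.mp hz).1
    have hcell : ∀ j ∈ Ioc i₀ i, (if j ≤ i' then (i₀ : ℝ) / (j * j) * f ((l : ℝ) / j - 1) - κ else 0) -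
        E * (Real.log ((j : ℝ) / (j - 1)) + κ) ≤
        ∑ p ∈ S'.filter (fun p => ix p = j), φ p * MT ix φ false (l - ix p) (S.filter (· < p)) := by
      intro j hj
      rw [Finset.mem_Ioc] at hj
      have hj0 : (0 : ℝ) < j := by exact_mod_cast (by omega : 0 < j)
      have hji : (i₀ : ℝ) ≤ j := by exact_mod_cast hj.1.le
      have hm := F2_mass hS S' hS'P j hj.1 (hj.2.trans hir)
      have hlog := F2_le_log j (by omega)
      by_cases h3j : 3 * j ≤ l
      · have hjl : 3 * (j : ℝ) ≤ l := by exact_mod_cast h3j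
        have harg : 2 ≤ (l : ℝ) / j - 1 := by
          have : 3 ≤ (l : ℝ) / j := by rwa [le_div_iff₀ hj0]
          linarith
        have hf0 : 0 ≤ f ((l : ℝ) / j - 1) := h.f0 _ harg
        have hf1 := h.f1 ((l : ℝ) / j - 1)
        have hbd : ∀ p ∈ S'.filter (fun p => ix p = j), φ p * ((i₀ : ℝ) / j * f ((l : ℝ) / j - 1) - E) ≤
            φ p * MT ix φ false (l - ix p) (S.filter (· < p)) := by
          intro p hp
          rw [Finset.mem_filter] at hp
          have hpS := hS'S hp.1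
          obtain ⟨c1, c2, c3⟩ := F2_cond hS S hSP i p h3 (h4 p hpS)
          rw [hp.2] at c2 c3 ⊢
          refine mul_le_mul_of_nonneg_left ?_ (hS.g0 p (hSP hpS))
          have hlt : l - j < k * i₀ := by
            have : (k + 1) * i₀ = k * i₀ + i₀ := by ring
            omega
          have := hE (l - j) j hlt hj.1 (hj.2.trans hir) (by omega) _ c1 c2 c3
          have ec : ((l - j : ℕ) : ℝ) / j = (l : ℝ) / j - 1 := by
            rw [Nat.cast_sub (by omega), sub_div, div_self hj0.ne']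
          rwa [ec] at this
        have hm0 : 0 ≤ ∑ p ∈ S'.filter (fun p => ix p = j), φ p :=
          Finset.sum_nonneg fun p hp => hS.g0 p (hS'P (Finset.mem_filter.mp hp).1)
        have hX0 : 0 ≤ (i₀ : ℝ) / j * f ((l : ℝ) / j - 1) := by positivity
        have hX1 : (i₀ : ℝ) / j * f ((l : ℝ) / j - 1) ≤ 1 := by
          have h5 : (i₀ : ℝ) / j ≤ 1 := by rwa [div_le_one hj0]
          exact mul_le_one₀ h5 hf0 hf1
        have hmE := mul_le_mul_of_nonneg_right hm hE0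
        have hkey : (if j ≤ i' then (i₀ : ℝ) / (j * j) * f ((l : ℝ) / j - 1) - κ else 0) ≤
            (∑ p ∈ S'.filter (fun p => ix p = j), φ p) * ((i₀ : ℝ) / j * f ((l : ℝ) / j - 1)) := by
          by_cases hji' : j ≤ i'
          · rw [if_pos hji']
            have hfull : S'.filter (fun p => ix p = j) = P.filter (fun p => ix p = j) := by
              ext p
              simp only [hS'def, Finset.mem_filter]
              constructor
              · rintro ⟨⟨h5, h6⟩, h7⟩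
                exact ⟨hSP h5, h7⟩
              · rintro ⟨h5, h7⟩
                exact ⟨⟨h3 p h5 (by omega), by omega⟩, h7⟩
            have hlow := (abs_le.mp (hS.m1 j hj.1 (hj.2.trans hir))).1
            rw [hfull]
            have h8 : 1 / (j : ℝ) - κ ≤ ∑ p ∈ P.filter (fun p => ix p = j), φ p := by linarith
            have h9 := mul_le_mul_of_nonneg_right h8 hX0
            have e1 : 1 / (j : ℝ) * ((i₀ : ℝ) / j * f ((l : ℝ) / j - 1)) =
                (i₀ : ℝ) / (j * j) * f ((l : ℝ) / j - 1) := by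
              generalize f ((l : ℝ) / j - 1) = X
              field_simp
            rw [sub_mul, e1] at h9
            have h10 := mul_le_mul_of_nonneg_left hX1 hκ
            linarith
          · rw [if_neg hji']
            exact mul_nonneg hm0 hX0
        calc (if j ≤ i' then (i₀ : ℝ) / (j * j) * f ((l : ℝ) / j - 1) - κ else 0) -
            E * (Real.log ((j : ℝ) / (j - 1)) + κ)
            ≤ (∑ p ∈ S'.filter (fun p => ix p = j), φ p) * ((i₀ : ℝ) / j * f ((l : ℝ) / j - 1) - E) := by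
              rw [mul_sub]
              linarith
          _ = ∑ p ∈ S'.filter (fun p => ix p = j), φ p * ((i₀ : ℝ) / j * f ((l : ℝ) / j - 1) - E) :=
              Finset.sum_mul _ _ _
          _ ≤ _ := Finset.sum_le_sum hbd
      · have hemp : S'.filter (fun p => ix p = j) = ∅ := by
          rw [Finset.filter_eq_empty_iff]
          intro p hp hpj
          rw [hS'def, Finset.mem_filter] at hp
          omega
        rw [hemp, Finset.sum_empty, if_neg (by omega)]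
        have hl0' : 0 ≤ Real.log ((j : ℝ) / (j - 1)) := by
          have : 0 ≤ 1 / (j : ℝ) := by positivity
          linarith
        have : 0 ≤ E * (Real.log ((j : ℝ) / (j - 1)) + κ) := by positivity
        linarith
    have hsum := Finset.sum_le_sum hcell
    rw [Finset.sum_sub_distrib, ← Finset.mul_sum, ← Finset.sum_filter] at hsum
    have hfil : (Ioc i₀ i).filter (fun j => j ≤ i') = Ioc i₀ i' := by
      ext j
      simp only [Finset.mem_filter, Finset.mem_Ioc]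
      omega
    rw [hfil, Finset.sum_sub_distrib, Finset.sum_const, nsmul_eq_mul, Nat.card_Ioc] at hsum
    have htot := F2_total (r := r) (κ := κ) i h0 hκ hi hir
    have hst := step_up h i₀ i' l h0 hi'1 hi'2
    have hcmp := step_cmp h i₀ i l h0 hi hc'
    rw [← hi'def] at hcmp
    have hcard : ((i' - i₀ : ℕ) : ℝ) * κ ≤ κ * (r * i₀) := by
      have h5 : ((i' - i₀ : ℕ) : ℝ) ≤ r * i₀ := by
        have h6 : ((i' - i₀ : ℕ) : ℝ) ≤ i := by exact_mod_cast (by omega : i' - i₀ ≤ i)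
        have h7 : (i : ℝ) ≤ r * i₀ := by exact_mod_cast hir
        linarith
      rw [mul_comm]
      exact mul_le_mul_of_nonneg_left h5 hκ
    have hEt := mul_le_mul_of_nonneg_left htot hE0
    have hEκ : 0 ≤ E * κ := by positivity
    have hdiv : (A + 1) / (i₀ : ℝ) = A / i₀ + 1 / i₀ := by ring
    have hexp : E * (Real.log r + κ * (r * i₀ + 1)) = E * (Real.log r + κ * (r * i₀)) + E * κ := by ring
    rw [hdiv, hexp]
    linarith


end Pool.Agent.PTW
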