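import Pool.Agent.PTW.F2

set_option autoImplicit false

namespace Pool.Agent.PTW

open Finset

/-- the errors of the induction -/
noncomputable def F3_E (D L : ℝ) : ℕ → ℝ
  | 0 => 0
  | k + 1 => D + F3_E D L k * L

lemma F3_E_nonneg {D L : ℝ} (hD : 0 ≤ D) (hL : 0 ≤ L) (k : ℕ) : 0 ≤ F3_E D L k := by
  induction k with
  | zero => exact le_rfl
  | succ k ih =>
    rw [F3_E]
    positivity

lemma F3_E_eq (D L : ℝ) (k : ℕ) : F3_E D L k = D * ∑ i ∈ range k, L ^ i := by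
  induction k with
  | zero => simp [F3_E]
  | succ k ih =>
    rw [F3_E, ih, Finset.sum_range_succ', Finset.mul_sum, mul_add, Finset.mul_sum, Finset.sum_mul]
    simp only [pow_zero, mul_one]
    rw [add_comm]
    congr 1
    refine Finset.sum_congr rfl fun i _ => ?_
    ring

lemma F3_ind {A : ℝ} {F f : ℝ → ℝ} (h : LS A F f) (r : ℕ) (hr : 1 ≤ r) (i₀ : ℕ) (h0 : 1 ≤ i₀)
    (κ : ℝ) (hκ : 0 ≤ κ) (hκ1 : κ * (r * i₀ + 1) ≤ 1) (P : Finset ℕ) (ix : ℕ → ℕ) (φ : ℕ → ℝ)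
    (hS : Sys i₀ (r * i₀) κ P ix φ) (D : ℝ) (hD : (A + 1) / i₀ + 3 * κ + A * κ * (r * i₀) ≤ D)
    (hD0 : 0 ≤ D) (k : ℕ) :
    ∀ l i : ℕ, l < k * i₀ → i₀ < i → i ≤ r * i₀ → ∀ S ⊆ P, (∀ p ∈ P, ix p < i → p ∈ S) →
      (∀ p ∈ S, ix p ≤ i) →
        (2 * i ≤ l → (i₀ : ℝ) / i * f ((l : ℝ) / i) - F3_E D (Real.log r + 1) k ≤ MT ix φ false l S) ∧
        (1 ≤ l → MT ix φ true l S ≤ (i₀ : ℝ) / i * F ((l : ℝ) / i) + F3_E D (Real.log r + 1) k) := by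
  have hr1 : (1 : ℝ) ≤ r := by exact_mod_cast hr
  have hi1 : (1 : ℝ) ≤ i₀ := by exact_mod_cast h0
  have hlog : 0 ≤ Real.log r := Real.log_nonneg hr1
  have hA := h.A3
  have hri : (1 : ℝ) ≤ r * i₀ := by nlinarith
  have hκ1' : κ ≤ 1 := by nlinarith
  induction k with
  | zero =>
    intro l i hl
    omega
  | succ k ih =>
    intro l i hl hi hir S hSP h3 h4
    have hE0 := F3_E_nonneg hD0 (show 0 ≤ Real.log r + 1 by linarith) k
    set E := F3_E D (Real.log r + 1) k with hEdef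
    have hstep : E * (Real.log r + κ * (r * i₀ + 1)) ≤ E * (Real.log r + 1) :=
      mul_le_mul_of_nonneg_left (by linarith) hE0
    have hinv : 0 ≤ 1 / (i₀ : ℝ) := by positivity
    have hsplit : (A + 1) / i₀ = A / i₀ + 1 / i₀ := by ring
    constructor
    · intro h2
      have key := cmp_lo h r i₀ k κ E hr h0 hκ hκ1' hE0 P ix φ hS
        (fun l' i' hl' hl1' hi' hir' S' hS' h3' h4' => (ih l' i' hl' hi' hir' S' hS' h3' h4').2 hl1')
        l i hl hi hir h2 S hSP h3 h4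
      rw [F3_E]
      linarith
    · intro h2
      have key := cmp_up h r i₀ k κ E hr h0 hκ hκ1' hE0 P ix φ hS
        (fun l' i' hl' hi' hir' h2' S' hS' h3' h4' => (ih l' i' hl' hi' hir' S' hS' h3' h4').1 h2')
        l i hl h2 hi hir S hSP h3 h4
      rw [F3_E]
      have h5 : κ * (r * i₀) ≤ A * κ * (r * i₀) := by
        have : 0 ≤ κ * (r * i₀) := by positivity
        nlinarith
      linarith

/-- [PTW-F3] COMPARISON THEOREM.
Proof. Put `E_0 = 0`, `E_{k+1} = (A + 1) / i₀ + (3 + (A + 1) r i₀) κ + (log r + 1) E_k` and choose `κ ≤ 1 / (r i₀ + 1)` small. Induction on `k ≤ r + 1`: both statements hold for `l < k i₀` with error `E_k` (`k = 0` is empty; `cmp_lo`, `cmp_up`).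
`E_{r+1} ≤ (log r + 2) ^ (r + 2) * ((A + 1) / i₀ + (3 + (A+1) r i₀) κ) ≤ ε` if `i₀` is large and then `κ` small. -/
theorem cmp {A : ℝ} {F f : ℝ → ℝ} (h : LS A F f) (r : ℕ) (hr : 1 ≤ r) (ε : ℝ) (hε : 0 < ε) :
    ∃ i₀₀ : ℕ, ∀ i₀ : ℕ, i₀₀ ≤ i₀ → ∃ κ : ℝ, 0 < κ ∧ ∀ (P : Finset ℕ) (ix : ℕ → ℕ) (φ : ℕ → ℝ), Sys i₀ (r * i₀) κ P ix φ →
      ∀ l i : ℕ, l ≤ r * i₀ → i₀ < i → i ≤ r * i₀ → ∀ S ⊆ P, (∀ p ∈ P, ix p < i → p ∈ S) → (∀ p ∈ S, ix p ≤ i) →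
        (2 * i ≤ l → (i₀ : ℝ) / i * f ((l : ℝ) / i) - ε ≤ MT ix φ false l S) ∧
        (1 ≤ l → MT ix φ true l S ≤ (i₀ : ℝ) / i * F ((l : ℝ) / i) + ε) := by
  have hA := h.A3
  have hr1 : (1 : ℝ) ≤ r := by exact_mod_cast hr
  have hlog : 0 ≤ Real.log r := Real.log_nonneg hr1
  set G : ℝ := ∑ i ∈ range (r + 1), (Real.log r + 1) ^ i with hG
  have hG0 : 0 < G := by
    rw [hG, Finset.sum_range_succ']
    have : 0 ≤ ∑ i ∈ range r, (Real.log r + 1) ^ (i + 1) :=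
      Finset.sum_nonneg fun i _ => by positivity
    simp only [pow_zero]
    linarith
  refine ⟨⌈2 * (A + 1) * G / ε⌉₊ + 1, fun i₀ hi₀ => ?_⟩
  have h0 : 1 ≤ i₀ := by omega
  have hi1 : (1 : ℝ) ≤ i₀ := by exact_mod_cast h0
  have hi2 : 2 * (A + 1) * G / ε ≤ i₀ := by
    refine (Nat.le_ceil _).trans ?_
    exact_mod_cast (show ⌈2 * (A + 1) * G / ε⌉₊ ≤ i₀ by omega)
  have hD1 : (A + 1) / i₀ * G ≤ ε / 2 := by
    rw [div_mul_eq_mul_div, div_le_iff₀ (by linarith)]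
    rw [div_le_iff₀ hε] at hi2
    linarith
  have hden : 0 < 2 * G * (3 + A * (r * i₀)) := by positivity
  set κ : ℝ := min (1 / (r * i₀ + 1)) (ε / (2 * G * (3 + A * (r * i₀)))) with hκdef
  have hκ0 : 0 < κ := by
    rw [hκdef]
    exact lt_min (by positivity) (by positivity)
  refine ⟨κ, hκ0, ?_⟩
  intro P ix φ hS l i hl hi hir S hSP h3 h4
  have hκ1 : κ * (r * i₀ + 1) ≤ 1 := by
    have := min_le_left (1 / ((r : ℝ) * i₀ + 1)) (ε / (2 * G * (3 + A * (r * i₀))))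
    rwa [← hκdef, le_div_iff₀ (by positivity)] at this
  have hκ2 : κ * (2 * G * (3 + A * (r * i₀))) ≤ ε := by
    have := min_le_right (1 / ((r : ℝ) * i₀ + 1)) (ε / (2 * G * (3 + A * (r * i₀))))
    rwa [← hκdef, le_div_iff₀ hden] at this
  set D : ℝ := (A + 1) / i₀ + 3 * κ + A * κ * (r * i₀) with hD
  have hD0 : 0 ≤ D := by
    rw [hD]
    have : 0 ≤ A := by linarith
    positivity
  have hDG : D * G ≤ ε := by
    have : D * G = (A + 1) / i₀ * G + κ * (2 * G * (3 + A * (r * i₀))) / 2 := by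
      rw [hD]
      ring
    rw [this]
    linarith
  have key := F3_ind h r hr i₀ h0 κ hκ0.le hκ1 P ix φ hS D le_rfl hD0 (r + 1) l i
    (by nlinarith) hi hir S hSP h3 h4
  rw [F3_E_eq, ← hG] at key
  refine ⟨fun h2 => ?_, fun h2 => ?_⟩
  · have := key.1 h2
    linarith
  · have := key.2 h2
    linarith

end Pool.Agent.PTW
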