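import Pool.Agent.PTW.F0

set_option autoImplicit false

namespace Pool.Agent.PTW

open Finset

/-- the integrand: `w(u) / (u (θ - u)) (1 + ((θ - u)/α - 3)₊ ^ 2 / 4)`, `θ = 433/400`, `α = θ / 4.5 = 433/1800`, `μ = 1999/2000`, `w(u) = (2503/2500) (1 - u/μ)` -/
noncomputable def phi (u : ℝ) : ℝ :=
  2503 / 2500 * (1 - u / (1999 / 2000)) / (u * (433 / 400 - u)) * (1 + (max 0 ((433 / 400 - u) / (433 / 1800) - 3)) ^ 2 / 4)

/-- [PTW-G1a] Proof. `log` derivative of `(1 - u/μ) / (u (θ - u))`: `- 1/(μ - u) - 1/u + 1/(θ - u) < 0` as `μ < θ`; direct: cross-multiplied polynomial inequality. The last factor is decreasing. -/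
theorem phi_anti : AntitoneOn phi (Set.Icc (433 / 1800) (1999 / 2000)) := by
  intro u hu v hv huv
  obtain ⟨hu0, hu1⟩ := hu
  obtain ⟨hv0, hv1⟩ := hv
  unfold phi
  have hup : 0 < u := by linarith
  have hvp : 0 < v := by linarith
  have htu : 0 < 433 / 400 - u := by linarith
  have htv : 0 < 433 / 400 - v := by linarith
  have hA : 2503 / 2500 * (1 - v / (1999 / 2000)) / (v * (433 / 400 - v)) ≤
      2503 / 2500 * (1 - u / (1999 / 2000)) / (u * (433 / 400 - u)) := by
    rw [div_le_div_iff₀ (mul_pos hvp htv) (mul_pos hup htu)]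
    have key : (0:ℝ) ≤ (v - u) * ((1999 / 2000 - u) * (1999 / 2000 - v) + 1999 / 2000 * (433 / 400 - 1999 / 2000)) := by
      apply mul_nonneg (by linarith)
      have := mul_nonneg (show (0:ℝ) ≤ 1999 / 2000 - u by linarith) (show (0:ℝ) ≤ 1999 / 2000 - v by linarith)
      nlinarith
    nlinarith [key]
  have hB : 1 + (max 0 ((433 / 400 - v) / (433 / 1800) - 3)) ^ 2 / 4 ≤
      1 + (max 0 ((433 / 400 - u) / (433 / 1800) - 3)) ^ 2 / 4 := by
    have hm : max 0 ((433 / 400 - v) / (433 / 1800) - 3) ≤ max 0 ((433 / 400 - u) / (433 / 1800) - 3) := by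
      apply max_le_max le_rfl
      have : (433 / 400 - v) / (433 / 1800) ≤ (433 / 400 - u) / (433 / 1800) := by
        apply div_le_div_of_nonneg_right _ (by norm_num)
        linarith
      linarith
    have h0 : 0 ≤ max 0 ((433 / 400 - v) / (433 / 1800) - 3) := le_max_left _ _
    nlinarith
  have hC : 0 ≤ 2503 / 2500 * (1 - u / (1999 / 2000)) / (u * (433 / 400 - u)) := by
    apply div_nonneg _ (mul_pos hup htu).le
    apply mul_nonneg (by norm_num)
    rw [sub_nonneg, div_le_one (by norm_num)]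
    exact hu1
  exact mul_le_mul hA hB (by positivity) hC

theorem phi_nonneg (u : ℝ) (h0 : 433 / 1800 ≤ u) (h1 : u ≤ 1999 / 2000) : 0 ≤ phi u := by
  unfold phi
  apply mul_nonneg _ (by positivity)
  apply div_nonneg _ (mul_pos (by linarith) (by linarith)).le
  apply mul_nonneg (by norm_num)
  rw [sub_nonneg, div_le_one (by norm_num)]
  exact h1

/-- the main part of the integrand -/
noncomputable def G1_g (u : ℝ) : ℝ := 2503 / 2500 * (1 - u / (1999 / 2000)) / (u * (433 / 400 - u))

/-- its primitive -/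
noncomputable def G1_G (u : ℝ) : ℝ :=
  2503 / 2500 * (1 / (433 / 400) * (Real.log u - Real.log (433 / 400 - u)) + 1 / (1999 / 2000) * Real.log (433 / 400 - u))

theorem G1_deriv (u : ℝ) (h0 : 0 < u) (h1 : u < 433 / 400) : HasDerivAt G1_G (G1_g u) u := by
  have e1 : HasDerivAt (fun u : ℝ => Real.log u) u⁻¹ u := Real.hasDerivAt_log h0.ne'
  have e2 : HasDerivAt (fun u : ℝ => 433 / 400 - u) (-1) u := by
    simpa using (hasDerivAt_id u).const_sub (433 / 400 : ℝ)
  have hne : 433 / 400 - u ≠ 0 := by linarith [h1] |> fun (h : 0 < 433 / 400 - u) => h.ne'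
  have e3 : HasDerivAt (fun u : ℝ => Real.log (433 / 400 - u)) ((-1) / (433 / 400 - u)) u := e2.log hne
  have e4 := (((e1.sub e3).const_mul (1 / (433 / 400 : ℝ))).add (e3.const_mul (1 / (1999 / 2000 : ℝ)))).const_mul (2503 / 2500 : ℝ)
  have e5 : G1_g u = 2503 / 2500 * (1 / (433 / 400) * (u⁻¹ - -1 / (433 / 400 - u)) + 1 / (1999 / 2000) * (-1 / (433 / 400 - u))) := by
    unfold G1_g
    have hu := h0.ne'
    obtain ⟨w, hw⟩ : ∃ w : ℝ, w = 433 / 400 - u := ⟨_, rfl⟩
    rw [← hw] at hne ⊢
    have hu2 : u = 433 / 400 - w := by linarith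
    field_simp
    rw [hu2]
    ring
  rw [e5]
  exact e4

theorem G1_g_cont : ContinuousOn G1_g (Set.Icc (433 / 1800) (1999 / 2000)) := by
  intro u hu
  obtain ⟨h0, h1⟩ := hu
  have : 0 < u * (433 / 400 - u) := mul_pos (by linarith) (by linarith)
  unfold G1_g
  apply ContinuousAt.continuousWithinAt
  apply ContinuousAt.div
  · fun_prop
  · fun_prop
  · exact this.ne'

theorem G1_intg (a b : ℝ) (ha : 433 / 1800 ≤ a) (hab : a ≤ b) (hb : b ≤ 1999 / 2000) :
    ∫ u in a..b, G1_g u = G1_G b - G1_G a := by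
  apply intervalIntegral.integral_eq_sub_of_hasDerivAt
  · intro u hu
    rw [Set.uIcc_of_le hab] at hu
    exact G1_deriv u (by linarith [hu.1]) (by linarith [hu.2])
  · apply ContinuousOn.intervalIntegrable
    rw [Set.uIcc_of_le hab]
    exact G1_g_cont.mono (Set.Icc_subset_Icc ha hb)

/-- [PTW-G1b] THE NUMERICAL INEQUALITY (true value of the difference: .00951).
Proof. Without the last factor: the integral of `(1 - u/μ)/(u (θ - u))` is `(1/θ) (log u - log (θ - u)) + (1/μ) log (θ - u)`, between `α` (where `u/(θ - u) = 2/7`) and `μ` (where `u/(θ - u) = 1999/166`, `θ - u = 83/1000`, and at `α`: `θ - u = 7 θ/9 = 3031/3600`):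
`(1/θ) (log (1999/166) + log (7/2)) + (1/μ) (log (83/1000) - log (3031/3600))`. The extra part: `1/4 * ∫ ((θ - u)/α - 3) ^ 2 * (2503/2500)(1 - u/μ)/(u (θ - u))` over `[α, θ - 3 α]` is `≤ 3.754 * α / 96 ≤ .00941` (the first factor is decreasing, at `α` it is `≤ 3.754`).
So the integral is `≤ 1.14880`, `log (7/2) / θ ≥ 1.15728`; difference `≥ .0084`. Logarithms to 4 digits (`Real.log_two_gt_d9`, series of `log (1 + x)`, or `Real.exp` bounds). -/
theorem num_int : ∫ u in (433 / 1800 : ℝ)..(1999 / 2000), phi u ≤ Real.log (7 / 2) / (433 / 400) - 8 / 1000 := by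
  have hphii : ∀ a b : ℝ, 433 / 1800 ≤ a → a ≤ b → b ≤ 1999 / 2000 → IntervalIntegrable phi MeasureTheory.volume a b := by
    intro a b ha hab hb
    apply AntitoneOn.intervalIntegrable
    rw [Set.uIcc_of_le hab]
    exact phi_anti.mono (Set.Icc_subset_Icc ha hb)
  have hgi : ∀ a b : ℝ, 433 / 1800 ≤ a → a ≤ b → b ≤ 1999 / 2000 → IntervalIntegrable G1_g MeasureTheory.volume a b := by
    intro a b ha hab hb
    apply ContinuousOn.intervalIntegrable
    rw [Set.uIcc_of_le hab]
    exact G1_g_cont.mono (Set.Icc_subset_Icc ha hb)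
  rw [← intervalIntegral.integral_add_adjacent_intervals (hphii (433 / 1800) (433 / 1200) le_rfl (by norm_num) (by norm_num))
    (hphii (433 / 1200) (1999 / 2000) (by norm_num) (by norm_num) le_rfl)]
  have hg0 : ∀ u : ℝ, 433 / 1800 ≤ u → u ≤ 1999 / 2000 → G1_g u ≤ 3754 / 1000 := by
    intro u h0 h1
    unfold G1_g
    rw [div_le_iff₀ (mul_pos (by linarith) (by linarith))]
    nlinarith [mul_nonneg (sub_nonneg.2 h0) (sub_nonneg.2 h1)]
  have hI1 : ∫ u in (433 / 1800 : ℝ)..(433 / 1200), phi u ≤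
      (G1_G (433 / 1200) - G1_G (433 / 1800)) + 3754 / 1000 * (433 / 1800) / 96 := by
    have hH : ∀ u : ℝ, HasDerivAt (fun u : ℝ => -(3754 / 1000 / 4 * (433 / 1800) / 3) * ((433 / 400 - u) / (433 / 1800) - 3) ^ 3)
        (3754 / 1000 / 4 * ((433 / 400 - u) / (433 / 1800) - 3) ^ 2) u := by
      intro u
      have e2 : HasDerivAt (fun u : ℝ => (433 / 400 - u) / (433 / 1800) - 3) (-1 / (433 / 1800)) u := by
        have : HasDerivAt (fun u : ℝ => 433 / 400 - u) (-1) u := by
          simpa using (hasDerivAt_id u).const_sub (433 / 400 : ℝ)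
        exact (this.div_const _).sub_const _
      have e3 := (e2.pow 3).const_mul (-(3754 / 1000 / 4 * (433 / 1800) / 3 : ℝ))
      have e4 : -(3754 / 1000 / 4 * (433 / 1800) / 3 : ℝ) * (((3 : ℕ) : ℝ) * ((433 / 400 - u) / (433 / 1800) - 3) ^ (3 - 1) * (-1 / (433 / 1800))) =
          3754 / 1000 / 4 * ((433 / 400 - u) / (433 / 1800) - 3) ^ 2 := by
        push_cast
        norm_num
        ring
      rw [← e4]
      exact e3
    have hHi : IntervalIntegrable (fun u : ℝ => 3754 / 1000 / 4 * ((433 / 400 - u) / (433 / 1800) - 3) ^ 2)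
        MeasureTheory.volume (433 / 1800) (433 / 1200) := by
      apply Continuous.intervalIntegrable
      fun_prop
    have e1 : ∫ u in (433 / 1800 : ℝ)..(433 / 1200), 3754 / 1000 / 4 * ((433 / 400 - u) / (433 / 1800) - 3) ^ 2 =
        3754 / 1000 * (433 / 1800) / 96 := by
      rw [intervalIntegral.integral_eq_sub_of_hasDerivAt (fun u _ => hH u) hHi]
      norm_num
    have e2 := G1_intg (433 / 1800) (433 / 1200) le_rfl (by norm_num) (by norm_num)
    rw [← e1, ← e2, ← intervalIntegral.integral_add (hgi _ _ le_rfl (by norm_num) (by norm_num)) hHi]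
    apply intervalIntegral.integral_mono_on (by norm_num) (hphii _ _ le_rfl (by norm_num) (by norm_num))
      ((hgi _ _ le_rfl (by norm_num) (by norm_num)).add hHi)
    intro u hu
    obtain ⟨h0, h1⟩ := hu
    have hmx : max 0 ((433 / 400 - u) / (433 / 1800) - 3) = (433 / 400 - u) / (433 / 1800) - 3 := by
      apply max_eq_right
      rw [sub_nonneg, le_div_iff₀ (by norm_num)]
      linarith
    have : phi u = G1_g u + G1_g u * (((433 / 400 - u) / (433 / 1800) - 3) ^ 2 / 4) := by
      unfold phi G1_g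
      rw [hmx]
      ring
    rw [this]
    have hgu := hg0 u h0 (by linarith)
    have := mul_le_mul_of_nonneg_right hgu (show 0 ≤ ((433 / 400 - u) / (433 / 1800) - 3) ^ 2 / 4 by positivity)
    linarith
  have hI2 : ∫ u in (433 / 1200 : ℝ)..(1999 / 2000), phi u = (G1_G (1999 / 2000) - G1_G (433 / 1200)) := by
    rw [← G1_intg (433 / 1200) (1999 / 2000) (by norm_num) (by norm_num) le_rfl]
    apply intervalIntegral.integral_congr
    intro u hu
    rw [Set.uIcc_of_le (by norm_num)] at hu
    obtain ⟨h0, h1⟩ := hu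
    have hmx : max 0 ((433 / 400 - u) / (433 / 1800) - 3) = 0 := by
      apply max_eq_left
      rw [sub_nonpos, div_le_iff₀ (by norm_num)]
      linarith
    unfold phi G1_g
    rw [hmx]
    norm_num
  rw [hI2]
  have l1 : Real.log (1999 / 166) ≤ 24885 / 10000 := by
    rw [Real.log_le_iff_le_exp (by norm_num)]
    have e1 : Real.exp (24885 / 10000) = Real.exp 1 ^ 2 * Real.exp (4885 / 10000) := by
      rw [← Real.exp_nat_mul, ← Real.exp_add]
      norm_num
    have e2 := Real.exp_one_gt_d9
    have e3 : (1.62984 : ℝ) ≤ Real.exp (4885 / 10000) := by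
      have := Real.sum_le_exp_of_nonneg (show (0:ℝ) ≤ 4885 / 10000 by norm_num) 6
      refine le_trans ?_ this
      simp only [Finset.sum_range_succ, Finset.sum_range_zero, Nat.factorial]
      norm_num
    rw [e1]
    have e4 : (7.389056 : ℝ) ≤ Real.exp 1 ^ 2 := by nlinarith
    have := mul_le_mul e4 e3 (by norm_num) (by positivity)
    refine le_trans ?_ this
    norm_num
  have l2 : Real.log (83 / 1000) ≤ - (24888 / 10000) := by
    rw [Real.log_le_iff_le_exp (by norm_num), Real.exp_neg]
    rw [le_inv_comm₀ (by norm_num) (Real.exp_pos _)]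
    have e1 : Real.exp (24888 / 10000) = Real.exp 1 ^ 2 * Real.exp (4888 / 10000) := by
      rw [← Real.exp_nat_mul, ← Real.exp_add]
      norm_num
    have e2 := Real.exp_one_lt_d9
    have e2' := Real.exp_one_gt_d9
    have e3 : Real.exp (4888 / 10000) ≤ 1.63037 := by
      have := Real.exp_bound' (show (0:ℝ) ≤ 4888 / 10000 by norm_num) (by norm_num) (n := 7) (by norm_num)
      refine le_trans this ?_
      simp only [Finset.sum_range_succ, Finset.sum_range_zero, Nat.factorial]
      norm_num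
    rw [e1]
    have e4 : Real.exp 1 ^ 2 ≤ 7.389057 := by nlinarith
    have := mul_le_mul e4 e3 (by positivity) (by norm_num)
    refine le_trans this ?_
    norm_num
  have l3 : -(1721 / 10000) ≤ Real.log (3031 / 3600) := by
    rw [Real.le_log_iff_exp_le (by norm_num), Real.exp_neg]
    rw [inv_le_comm₀ (Real.exp_pos _) (by norm_num)]
    have := Real.sum_le_exp_of_nonneg (show (0:ℝ) ≤ 1721 / 10000 by norm_num) 5
    refine le_trans ?_ this
    simp only [Finset.sum_range_succ, Finset.sum_range_zero, Nat.factorial]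
    norm_num
  have l4 : Real.log (7 / 2) ≤ 13 / 10 := by
    rw [Real.log_le_iff_le_exp (by norm_num)]
    have e1 : Real.exp (13 / 10) = Real.exp 1 * Real.exp (3 / 10) := by
      rw [← Real.exp_add]
      norm_num
    have e2 := Real.exp_one_gt_d9
    have e3 : (1.3 : ℝ) ≤ Real.exp (3 / 10) := by
      have := Real.add_one_le_exp (3 / 10 : ℝ)
      linarith
    rw [e1]
    nlinarith
  have hGm : G1_G (1999 / 2000) = 2503 / 2500 * (1 / (433 / 400) * Real.log (1999 / 166) + 1 / (1999 / 2000) * Real.log (83 / 1000)) := by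
    unfold G1_G
    have : (433 / 400 - 1999 / 2000 : ℝ) = 83 / 1000 := by norm_num
    rw [this, ← Real.log_div (by norm_num) (by norm_num)]
    norm_num
  have hGa : G1_G (433 / 1800) = 2503 / 2500 * (1 / (433 / 400) * (- Real.log (7 / 2)) + 1 / (1999 / 2000) * Real.log (3031 / 3600)) := by
    unfold G1_G
    have : (433 / 400 - 433 / 1800 : ℝ) = 3031 / 3600 := by norm_num
    rw [this, ← Real.log_div (by norm_num) (by norm_num), ← Real.log_inv]
    norm_num
  have hfin : G1_G (1999 / 2000) - G1_G (433 / 1800) + 3754 / 1000 * (433 / 1800) / 96 ≤ Real.log (7 / 2) / (433 / 400) - 8 / 1000 := by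
    rw [hGm, hGa]
    have e : Real.log (7 / 2) / (433 / 400) = 400 / 433 * Real.log (7 / 2) := by ring
    rw [e]
    norm_num
    linarith
  linarith

end Pool.Agent.PTW
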