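import Pool.Agent.PTW.G1

set_option autoImplicit false

namespace Pool.Agent.PTW

open Finset

/-- the weight of the cell `i`: `w ((i - 1) / n)`, `n μ = 17991 m` (`m = R j`, `n = 18000 m`) -/
noncomputable def wb (m i : ℕ) : ℝ := 2503 / 2500 * (1 - ((i : ℝ) - 1) / (17991 * m))

/-- upper bound of `F` near `(0, 7/2]` -/
theorem G2_F {A : ℝ} {F f : ℝ → ℝ} (h : LS A F f) (s : ℝ) (h0 : 0 < s) (h1 : s ≤ 7 / 2) :
    F s ≤ A / s * (1 + (max 0 (s - 3)) ^ 2 / 4) := by
  rcases le_or_gt s 3 with h3 | h3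
  · rw [h.FA s h0 h3, max_eq_left (by linarith)]
    norm_num
  · rw [max_eq_right (by linarith)]
    exact h.Fu s h3.le h1

/-- the bound of a term of the sum -/
theorem G2_term {A : ℝ} {F f : ℝ → ℝ} (h : LS A F f) (m i : ℕ) (hm : 1 ≤ m) (h0 : 4330 * m < i) (h1 : i ≤ 17991 * m) :
    1 / ((i : ℝ) - 1) * wb m i * F (((19485 * m - i : ℕ) : ℝ) / (4330 * m)) ≤
      A * (4330 * m) / (18000 * m) ^ 2 * (1 + 1 / (1494 * m)) * phi (((i : ℝ) - 1) / (18000 * m)) := by
  have hM : (1 : ℝ) ≤ (m : ℝ) := by exact_mod_cast hm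
  have hM0 : (0 : ℝ) < (m : ℝ) := by linarith
  have hi0 : 4330 * (m : ℝ) + 1 ≤ (i : ℝ) := by exact_mod_cast h0
  have hi1 : (i : ℝ) ≤ 17991 * (m : ℝ) := by exact_mod_cast h1
  rw [Nat.cast_sub (by omega)]
  push_cast
  obtain ⟨x, hx⟩ : ∃ x : ℝ, x = (i : ℝ) - 1 := ⟨_, rfl⟩
  have hxi : (i : ℝ) = x + 1 := by linarith
  obtain ⟨w, hw⟩ : ∃ w : ℝ, w = wb m i := ⟨_, rfl⟩
  have hw' : w = 2503 / 2500 * (1 - x / (17991 * m)) := by rw [hw]; unfold wb; rw [hx]
  have hw0 : 0 ≤ w := by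
    rw [hw']
    apply mul_nonneg (by norm_num)
    rw [sub_nonneg, div_le_one (by positivity)]
    linarith
  rw [← hw, ← hx, hxi]
  rw [hxi] at hi0 hi1
  obtain ⟨y, hy⟩ : ∃ y : ℝ, y = 19485 * (m : ℝ) - (x + 1) := ⟨_, rfl⟩
  have hy0 : 1494 * (m : ℝ) ≤ y := by linarith
  have hyp : 0 < y := by linarith
  have hxp : 0 < x := by linarith
  rw [← hy]
  have hs0 : 0 < y / (4330 * m) := by positivity
  have hs1 : y / (4330 * m) ≤ 7 / 2 := by
    rw [div_le_iff₀ (by positivity)]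
    linarith
  have hF := G2_F h _ hs0 hs1
  have hA : 0 < A := by linarith [h.A3]
  have hphi : phi (x / (18000 * m)) = w * (18000 * m) ^ 2 / (x * (y + 1)) * (1 + (max 0 ((y + 1) / (4330 * m) - 3)) ^ 2 / 4) := by
    unfold phi
    have e1 : (433 / 400 - x / (18000 * m)) / (433 / 1800) = (y + 1) / (4330 * m) := by
      rw [hy]
      field_simp
      ring
    have e2 : 2503 / 2500 * (1 - x / (18000 * m) / (1999 / 2000)) / (x / (18000 * m) * (433 / 400 - x / (18000 * m))) =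
        w * (18000 * m) ^ 2 / (x * (y + 1)) := by
      have e3 : 1 - x / (18000 * m) / (1999 / 2000) = 1 - x / (17991 * m) := by
        rw [div_div]
        congr 2
        ring
      have e4 : 433 / 400 - x / (18000 * m) = (y + 1) / (18000 * m) := by
        rw [hy]
        field_simp
        ring
      rw [e3, e4, ← hw']
      have : y + 1 ≠ 0 := by positivity
      field_simp
    rw [e1, e2]
  rw [hphi]
  have hB : 1 + (max 0 (y / (4330 * m) - 3)) ^ 2 / 4 ≤ 1 + (max 0 ((y + 1) / (4330 * m) - 3)) ^ 2 / 4 := by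
    have hm : max 0 (y / (4330 * m) - 3) ≤ max 0 ((y + 1) / (4330 * m) - 3) := by
      apply max_le_max le_rfl
      have : y / (4330 * m) ≤ (y + 1) / (4330 * m) := by
        apply div_le_div_of_nonneg_right _ (by positivity)
        linarith
      linarith
    have h0 : 0 ≤ max 0 (y / (4330 * m) - 3) := le_max_left _ _
    nlinarith
  obtain ⟨B, hBd⟩ : ∃ B : ℝ, B = 1 + (max 0 (y / (4330 * m) - 3)) ^ 2 / 4 := ⟨_, rfl⟩
  obtain ⟨B', hB'd⟩ : ∃ B' : ℝ, B' = 1 + (max 0 ((y + 1) / (4330 * m) - 3)) ^ 2 / 4 := ⟨_, rfl⟩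
  rw [← hBd, ← hB'd] at hB
  rw [← hBd] at hF
  rw [← hB'd]
  have hB0 : 0 ≤ B := by rw [hBd]; positivity
  have hB'0 : 0 ≤ B' := by rw [hB'd]; positivity
  have s1 : 1 / x * w * F (y / (4330 * m)) ≤ 1 / x * w * (A / (y / (4330 * m)) * B') := by
    apply mul_le_mul_of_nonneg_left _ (by positivity)
    exact hF.trans (mul_le_mul_of_nonneg_left hB (by positivity))
  refine s1.trans ?_
  have s2 : 1 / x * w * (A / (y / (4330 * m)) * B') = (w * A * (4330 * m) * B' / x) * (1 / y) := by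
    field_simp
  have s3 : A * (4330 * m) / (18000 * m) ^ 2 * (1 + 1 / (1494 * m)) * (w * (18000 * m) ^ 2 / (x * (y + 1)) * B') =
      (w * A * (4330 * m) * B' / x) * ((1 + 1 / (1494 * m)) / (y + 1)) := by
    have : y + 1 ≠ 0 := by positivity
    field_simp
  rw [s2, s3]
  apply mul_le_mul_of_nonneg_left _ (by positivity)
  rw [div_le_div_iff₀ hyp (by positivity)]
  have s4 : 1 ≤ 1 / (1494 * m) * y := by
    rw [one_div_mul_eq_div, le_div_iff₀ (by positivity)]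
    linarith
  nlinarith

/-- the Riemann sum of `phi` -/
theorem G2_sum (m : ℕ) (hm : 1 ≤ m) :
    ∑ i ∈ Ioc (4330 * m) (17991 * m), phi (((i : ℝ) - 1) / (18000 * m)) ≤
      4 + 18000 * m * ∫ u in (433 / 1800 : ℝ)..(1999 / 2000), phi u := by
  have hM : (1 : ℝ) ≤ (m : ℝ) := by exact_mod_cast hm
  have hM0 : (0 : ℝ) < (m : ℝ) := by linarith
  obtain ⟨g, hg⟩ : ∃ g : ℝ → ℝ, g = fun x => phi (x / (18000 * m)) := ⟨_, rfl⟩
  have hanti : AntitoneOn g (Set.Icc ((4330 * m : ℕ) : ℝ) (((4330 * m : ℕ) : ℝ) + ((13661 * m : ℕ) : ℝ))) := by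
    intro a ha b hb hab
    push_cast at ha hb
    rw [hg]
    apply phi_anti
    · constructor
      · rw [le_div_iff₀ (by positivity)]
        linarith [ha.1]
      · rw [div_le_iff₀ (by positivity)]
        linarith [ha.2]
    · constructor
      · rw [le_div_iff₀ (by positivity)]
        linarith [hb.1]
      · rw [div_le_iff₀ (by positivity)]
        linarith [hb.2]
    · exact div_le_div_of_nonneg_right hab (by positivity)
  have h1 := hanti.sum_le_integral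
  have h2 : ∫ x in ((4330 * m : ℕ) : ℝ)..(((4330 * m : ℕ) : ℝ) + ((13661 * m : ℕ) : ℝ)), g x =
      18000 * m * ∫ u in (433 / 1800 : ℝ)..(1999 / 2000), phi u := by
    rw [hg]
    rw [intervalIntegral.integral_comp_div (fun x => phi x) (by positivity)]
    push_cast
    have e1 : 4330 * (m : ℝ) / (18000 * m) = 433 / 1800 := by
      field_simp
      norm_num
    have e2 : (4330 * (m : ℝ) + 13661 * m) / (18000 * m) = 1999 / 2000 := by
      field_simp
      norm_num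
    rw [e1, e2, smul_eq_mul]
  rw [h2] at h1
  have h3 : ∑ i ∈ Ioc (4330 * m) (17991 * m), phi (((i : ℝ) - 1) / (18000 * m)) = ∑ k ∈ range (13661 * m), g (((4330 * m : ℕ) : ℝ) + k) := by
    symm
    apply Finset.sum_bij (fun k _ => 4330 * m + k + 1)
    · intro k hk
      rw [mem_range] at hk
      rw [mem_Ioc]
      omega
    · intro a ha b hb hab
      omega
    · intro b hb
      rw [mem_Ioc] at hb
      refine ⟨b - 4330 * m - 1, ?_, ?_⟩
      · rw [mem_range]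
        omega
      · omega
    · intro k hk
      rw [hg]
      push_cast
      congr 2
      ring
  rw [h3]
  have h4 : ∑ k ∈ range (13661 * m), g (((4330 * m : ℕ) : ℝ) + k) ≤ ∑ k ∈ range (13661 * m + 1), g (((4330 * m : ℕ) : ℝ) + k) := by
    rw [sum_range_succ]
    have : 0 ≤ g (((4330 * m : ℕ) : ℝ) + ((13661 * m : ℕ) : ℝ)) := by
      rw [hg]
      apply phi_nonneg
      · push_cast
        rw [le_div_iff₀ (by positivity)]
        linarith
      · push_cast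
        rw [div_le_iff₀ (by positivity)]
        linarith
    linarith
  have h5 : ∑ k ∈ range (13661 * m + 1), g (((4330 * m : ℕ) : ℝ) + k) =
      ∑ k ∈ range (13661 * m), g (((4330 * m : ℕ) : ℝ) + ((k + 1 : ℕ) : ℝ)) + g (((4330 * m : ℕ) : ℝ) + ((0 : ℕ) : ℝ)) := by
    rw [sum_range_succ' (fun k => g (((4330 * m : ℕ) : ℝ) + (k : ℝ)))]
  have h6 : g (((4330 * m : ℕ) : ℝ) + ((0 : ℕ) : ℝ)) ≤ 4 := by
    rw [hg]
    have e1 : (((4330 * m : ℕ) : ℝ) + ((0 : ℕ) : ℝ)) / (18000 * m) = 433 / 1800 := by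
      push_cast
      field_simp
      ring
    simp only []
    rw [e1]
    unfold phi
    rw [max_eq_right (by norm_num)]
    norm_num
  linarith

/-- [PTW-G2] Riemann sum. With `n = 18000 m`, `iz = 4330 m`, `Iu = 17991 m`, `l₀ = 19485 m` (so `iz / n = α`, `Iu / n = μ`, `l₀ / n = θ`).
Proof. `s = (l₀ - i) / iz ∈ (0, 7/2]` for `iz < i ≤ Iu`: `F s ≤ (A / s) (1 + (max 0 (s - 3)) ^ 2 / 4)` (`FA`, `Fu`). So the term is `≤ A iz wb(i) / ((i - 1) (l₀ - i)) (1 + ..)`; with `u = (i - 1) / n` this is `≤ (A iz / n) (1/n) phi(u) * (l₀ - i + 1) / (l₀ - i)`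
(the corrections `(max 0 ..)` increase when `i` is replaced by `i - 1`); `(l₀ - i + 1)/(l₀ - i) ≤ 1 + 1/(1494 m)`. Sum over `i`: `(1/n) ∑ phi((i-1)/n) ≤ ∫_α^μ phi + phi(α) / n` (`phi_anti`). So the sum is
`≤ A α (1 + 1/(1494 m)) (∫ phi + 4 / n)`; with `num_int` and `α / θ = 2/9`: `≤ A (2/9) log (7/2) - A α 8/1000 + O(A / m)`, and `f (9/2) ≥ A log (7/2) / (9/2)`. -/
theorem riemann {A : ℝ} {F f : ℝ → ℝ} (h : LS A F f) : ∃ m₀ : ℕ, 1 ≤ m₀ ∧ ∀ m : ℕ, m₀ ≤ m →
    ∑ i ∈ Ioc (4330 * m) (17991 * m), 1 / ((i : ℝ) - 1) * wb m i * F (((19485 * m - i : ℕ) : ℝ) / (4330 * m)) ≤ f (9 / 2) - A / 1000 := by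
  refine ⟨1, le_rfl, fun m hm => ?_⟩
  have hM : (1 : ℝ) ≤ (m : ℝ) := by exact_mod_cast hm
  have hM0 : (0 : ℝ) < (m : ℝ) := by linarith
  have hA : 0 < A := by linarith [h.A3]
  have h1 : ∑ i ∈ Ioc (4330 * m) (17991 * m), 1 / ((i : ℝ) - 1) * wb m i * F (((19485 * m - i : ℕ) : ℝ) / (4330 * m)) ≤
      ∑ i ∈ Ioc (4330 * m) (17991 * m), A * (4330 * m) / (18000 * m) ^ 2 * (1 + 1 / (1494 * m)) * phi (((i : ℝ) - 1) / (18000 * m)) := by
    apply sum_le_sum
    intro i hi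
    rw [mem_Ioc] at hi
    exact G2_term h m i hm hi.1 hi.2
  rw [← mul_sum] at h1
  refine h1.trans ?_
  have h2 := G2_sum m hm
  have h3 := num_int
  have h4 := h.fl (9 / 2) (by norm_num)
  have h4' : A * Real.log (7 / 2) / (9 / 2) ≤ f (9 / 2) := by
    have : (9 / 2 - 1 : ℝ) = 7 / 2 := by norm_num
    rw [this] at h4
    exact h4
  obtain ⟨L, hL⟩ : ∃ L : ℝ, L = Real.log (7 / 2) := ⟨_, rfl⟩
  obtain ⟨I, hI⟩ : ∃ I : ℝ, I = ∫ u in (433 / 1800 : ℝ)..(1999 / 2000), phi u := ⟨_, rfl⟩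
  rw [← hI] at h2 h3
  rw [← hL] at h3 h4'
  have hL1 : L ≤ 5 / 2 := by
    have := Real.log_le_sub_one_of_pos (show (0:ℝ) < 7 / 2 by norm_num)
    rw [← hL] at this
    linarith
  have h5 : A * (4330 * m) / (18000 * m) ^ 2 * (1 + 1 / (1494 * m)) * ∑ i ∈ Ioc (4330 * m) (17991 * m), phi (((i : ℝ) - 1) / (18000 * m)) ≤
      A * (4330 * m) / (18000 * m) ^ 2 * (1 + 1 / (1494 * m)) * (4 + 18000 * m * (L / (433 / 400) - 8 / 1000)) := by
    apply mul_le_mul_of_nonneg_left _ (by positivity)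
    refine h2.trans ?_
    have := mul_le_mul_of_nonneg_left h3 (show (0:ℝ) ≤ 18000 * m by positivity)
    linarith
  refine h5.trans ?_
  have h6 : A * (4330 * m) / (18000 * m) ^ 2 * (1 + 1 / (1494 * m)) * (4 + 18000 * m * (L / (433 / 400) - 8 / 1000)) =
      A * (433 / 1800) * ((1 + 1 / (1494 * m)) * (4 / (18000 * m) + (L / (433 / 400) - 8 / 1000))) := by
    field_simp
    ring
  rw [h6]
  have hinv : 1 / (1494 * (m:ℝ)) ≤ 1 / 1494 := by
    apply one_div_le_one_div_of_le (by norm_num)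
    linarith
  have hinv2 : 4 / (18000 * (m:ℝ)) ≤ 4 / 18000 := by
    apply div_le_div_of_nonneg_left (by norm_num) (by norm_num)
    linarith
  have hinv0 : 0 ≤ 1 / (1494 * (m:ℝ)) := by positivity
  have hinv20 : 0 ≤ 4 / (18000 * (m:ℝ)) := by positivity
  have h7 : (1 + 1 / (1494 * (m:ℝ))) * (4 / (18000 * m) + (L / (433 / 400) - 8 / 1000)) ≤ L / (433 / 400) - 8 / 1000 + 23 / 10000 := by
    have e1 : 4 / (18000 * (m:ℝ)) + (L / (433 / 400) - 8 / 1000) ≤ 3 := by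
      have : L / (433 / 400) ≤ (5 / 2) / (433 / 400) := div_le_div_of_nonneg_right hL1 (by norm_num)
      norm_num at this ⊢
      linarith
    have e2 := mul_le_mul_of_nonneg_left e1 hinv0
    nlinarith
  have h8 := mul_le_mul_of_nonneg_left h7 (show 0 ≤ A * (433 / 1800) by positivity)
  refine h8.trans ?_
  have e9 : A * L / (9 / 2) = 2 / 9 * (A * L) := by ring
  have e10 : A * (433 / 1800) * (L / (433 / 400) - 8 / 1000 + 23 / 10000) = 2 / 9 * (A * L) - A * (433 / 1800) * (8 / 1000 - 23 / 10000) := by ring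
  rw [e10]
  rw [e9] at h4'
  linarith

end Pool.Agent.PTW
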