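import Pool.Agent.PTW.F3
import Pool.Agent.PTW.G2

set_option autoImplicit false

namespace Pool.Agent.PTW

open Finset

/-- a smaller deviation is allowed -/
theorem G3_Sys {i₀ I : ℕ} {κ κ' : ℝ} {P : Finset ℕ} {ix : ℕ → ℕ} {φ : ℕ → ℝ} (h : Sys i₀ I κ P ix φ) (hk : κ ≤ κ') :
    Sys i₀ I κ' P ix φ :=
  ⟨h.g0, h.mono, h.lo, fun i h1 h2 => (h.m1 i h1 h2).trans hk, h.m0.trans hk⟩

/-- the second sum, cell by cell -/
theorem G3_group (P : Finset ℕ) (ix : ℕ → ℕ) (φ : ℕ → ℝ) (a b : ℕ) (c : ℕ → ℝ) (u κ : ℝ) (hu : 0 ≤ u)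
    (hφ : ∀ p ∈ P, 0 ≤ φ p) (hc : ∀ i ∈ Ioc a b, 0 ≤ c i)
    (hm : ∀ i ∈ Ioc a b, ∑ p ∈ P.filter (fun p => ix p = i), φ p ≤ 1 / ((i : ℝ) - 1) + κ)
    (w : ℕ → ℝ) (hw : ∀ i ∈ Ioc a b, 0 ≤ w i) (T : ℕ → ℝ) (hT : ∀ i ∈ Ioc a b, T i ≤ c i + u) :
    ∑ p ∈ P.filter (fun p => a < ix p ∧ ix p ≤ b), w (ix p) * φ p * T (ix p) ≤
      ∑ i ∈ Ioc a b, w i * (c i + u) * (1 / ((i : ℝ) - 1) + κ) := by
  have h1 : ∑ p ∈ P.filter (fun p => a < ix p ∧ ix p ≤ b), w (ix p) * φ p * T (ix p) =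
      ∑ i ∈ Ioc a b, ∑ p ∈ (P.filter (fun p => a < ix p ∧ ix p ≤ b)).filter (fun p => ix p = i), w (ix p) * φ p * T (ix p) := by
    symm
    apply sum_fiberwise_of_maps_to
    intro p hp
    rw [mem_filter] at hp
    rw [mem_Ioc]
    exact hp.2
  rw [h1]
  apply sum_le_sum
  intro i hi
  have hi' := mem_Ioc.1 hi
  have h2 : (P.filter (fun p => a < ix p ∧ ix p ≤ b)).filter (fun p => ix p = i) = P.filter (fun p => ix p = i) := by
    ext p
    simp only [mem_filter]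
    constructor
    · rintro ⟨⟨h1, _⟩, h2⟩
      exact ⟨h1, h2⟩
    · rintro ⟨h1, h2⟩
      refine ⟨⟨h1, ?_⟩, h2⟩
      rw [h2]
      exact hi'
  rw [h2]
  have h3 : ∑ p ∈ P.filter (fun p => ix p = i), w (ix p) * φ p * T (ix p) ≤ ∑ p ∈ P.filter (fun p => ix p = i), w i * (c i + u) * φ p := by
    apply sum_le_sum
    intro p hp
    rw [mem_filter] at hp
    rw [hp.2]
    have h4 := mul_le_mul_of_nonneg_left (hT i hi) (mul_nonneg (hw i hi) (hφ p hp.1))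
    linarith
  refine h3.trans ?_
  rw [← mul_sum]
  apply mul_le_mul_of_nonneg_left (hm i hi)
  exact mul_nonneg (hw i hi) (add_nonneg (hc i hi) hu)

/-- bounds of `wb` -/
theorem G3_wb (m i : ℕ) (hm : 1 ≤ m) (h0 : 4330 * m < i) (h1 : i ≤ 17991 * m) : 0 ≤ wb m i ∧ wb m i ≤ 2503 / 2500 := by
  have hM : (1 : ℝ) ≤ (m : ℝ) := by exact_mod_cast hm
  have hi0 : 4330 * (m : ℝ) + 1 ≤ (i : ℝ) := by exact_mod_cast h0
  have hi1 : (i : ℝ) ≤ 17991 * (m : ℝ) := by exact_mod_cast h1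
  unfold wb
  have e1 : 0 ≤ ((i : ℝ) - 1) / (17991 * m) := div_nonneg (by linarith) (by positivity)
  have e2 : ((i : ℝ) - 1) / (17991 * m) ≤ 1 := by
    rw [div_le_one (by positivity)]
    linarith
  constructor
  · apply mul_nonneg (by norm_num)
    linarith
  · linarith

/-- [PTW-G3] MAIN TERM. `i₀ = 18000 j`, `m = R j`, `n = 18000 m` (so `i₀ / n = 1 / R`).
Proof. `cmp` with `r = 2 R` and `ε = 1 / (10 ^ 4 R ^ 2)` (`19485 m ≤ 2 R i₀`). Let `S = P_{ix ≤ 4330 m}`. First term (`i = 4330 m`, `l = 19485 m = (9/2) i`): `≥ (i₀ / iz) f (9/2) - ε`. For `p` with `iz < ix p = i ≤ Iu`: `MT true (l₀ - i) S ≤ (i₀ / iz) F ((l₀ - i) / iz) + ε`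
(`0 ≤ wb m i ≤ 1.0013`); the mass of the cell `i` is `≤ 1/(i - 1) + κ`, so the second sum is `≤ (i₀ / iz) ∑_i (1/(i-1) + κ) wb F + ε (2 + log R ..)`; `F ((l₀ - i)/iz) ≤ A iz / (1494 m) * 2 ≤ 6 A`. By `riemann` the difference is
`≥ (i₀ / iz) (A / 1000 - κ 7 A Iu) - ε (4 + log (5))`, `i₀ / iz = 18000/(4330 R) ≥ 4 / R`, `A ≥ 3`. -/
theorem main_term {A : ℝ} {F f : ℝ → ℝ} (h : LS A F f) : ∀ R : ℕ, 5 ≤ R → ∃ j₀ : ℕ, 1 ≤ j₀ ∧ ∀ j : ℕ, j₀ ≤ j →
    ∃ κ : ℝ, 0 < κ ∧ ∀ (P : Finset ℕ) (ix : ℕ → ℕ) (φ : ℕ → ℝ), Sys (18000 * j) (2 * R * (18000 * j)) κ P ix φ →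
      1 / (1000 * R : ℝ) ≤ MT ix φ false (19485 * (R * j)) (P.filter (fun p => ix p ≤ 4330 * (R * j))) -
        ∑ p ∈ P.filter (fun p => 4330 * (R * j) < ix p ∧ ix p ≤ 17991 * (R * j)),
          wb (R * j) (ix p) * φ p * MT ix φ true (19485 * (R * j) - ix p) (P.filter (fun p => ix p ≤ 4330 * (R * j))) := by
  intro R hR
  have hR' : (5 : ℝ) ≤ (R : ℝ) := by exact_mod_cast hR
  have hR0 : (0 : ℝ) < (R : ℝ) := by linarith
  obtain ⟨ε, hε⟩ : ∃ ε : ℝ, ε = 1 / (10 ^ 4 * (R : ℝ) ^ 2) := ⟨_, rfl⟩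
  have hε0 : 0 < ε := by rw [hε]; positivity
  have hε1 : ε ≤ 1 := by
    rw [hε, div_le_one (by positivity)]
    nlinarith
  obtain ⟨i₀₀, hcmp⟩ := cmp h (2 * R) (by omega) ε hε0
  obtain ⟨m₀, hm₀, hrie⟩ := riemann h
  refine ⟨max 1 (max i₀₀ m₀), le_max_left _ _, fun j hj => ?_⟩
  have hj1 : 1 ≤ j := (le_max_left _ _).trans hj
  have hj2 : i₀₀ ≤ j := ((le_max_left _ _).trans (le_max_right _ _)).trans hj
  have hj3 : m₀ ≤ j := ((le_max_right _ _).trans (le_max_right _ _)).trans hj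
  obtain ⟨κ₁, hκ₁, hcmp1⟩ := hcmp (18000 * j) (by omega)
  have hA3 := h.A3
  have hA : 0 < A := by linarith
  obtain ⟨m, hm⟩ : ∃ m : ℕ, m = R * j := ⟨_, rfl⟩
  have hmj : j ≤ m := by rw [hm]; nlinarith
  have hm5 : 5 * j ≤ m := by rw [hm]; exact Nat.mul_le_mul_right j hR
  have hm1 : 1 ≤ m := by omega
  have hM : (1 : ℝ) ≤ (m : ℝ) := by exact_mod_cast hm1
  have hM0 : (0 : ℝ) < (m : ℝ) := by linarith
  have hJ : (0 : ℝ) < (j : ℝ) := by exact_mod_cast hj1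
  have hden : 0 < 14000 * (m : ℝ) * (3 * A + 1) := by positivity
  refine ⟨min κ₁ (ε / (14000 * (m : ℝ) * (3 * A + 1))), lt_min hκ₁ (div_pos hε0 hden), ?_⟩
  intro P ix φ hS
  obtain ⟨κ, hκ⟩ : ∃ κ : ℝ, κ = min κ₁ (ε / (14000 * (m : ℝ) * (3 * A + 1))) := ⟨_, rfl⟩
  rw [← hκ] at hS
  have hκ0 : 0 < κ := by rw [hκ]; exact lt_min hκ₁ (div_pos hε0 hden)
  have hκle : κ ≤ κ₁ := by rw [hκ]; exact min_le_left _ _
  have hκε : κ * (14000 * (m : ℝ) * (3 * A + 1)) ≤ ε := by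
    have : κ ≤ ε / (14000 * (m : ℝ) * (3 * A + 1)) := by rw [hκ]; exact min_le_right _ _
    rwa [le_div_iff₀ hden] at this
  have hC := hcmp1 P ix φ (G3_Sys hS hκle)
  rw [← hm]
  obtain ⟨S, hSd⟩ : ∃ S : Finset ℕ, S = P.filter (fun p => ix p ≤ 4330 * m) := ⟨_, rfl⟩
  rw [← hSd]
  have hSP : S ⊆ P := by rw [hSd]; exact filter_subset _ _
  have hS3 : ∀ p ∈ P, ix p < 4330 * m → p ∈ S := by
    intro p hp hpi
    rw [hSd, mem_filter]
    exact ⟨hp, hpi.le⟩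
  have hS4 : ∀ p ∈ S, ix p ≤ 4330 * m := by
    intro p hp
    rw [hSd, mem_filter] at hp
    exact hp.2
  have hRm : 2 * R * (18000 * j) = 36000 * m := by rw [hm]; ring
  have hi0 : 18000 * j < 4330 * m := by omega
  have hi1 : 4330 * m ≤ 2 * R * (18000 * j) := by rw [hRm]; omega
  -- the first term
  have hq : ((18000 * j : ℕ) : ℝ) / ((4330 * m : ℕ) : ℝ) = 18000 / (4330 * R) := by
    rw [hm]
    push_cast
    field_simp
  obtain ⟨q, hqd⟩ : ∃ q : ℝ, q = 18000 / (4330 * (R : ℝ)) := ⟨_, rfl⟩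
  rw [← hqd] at hq
  have hq0 : 0 < q := by rw [hqd]; positivity
  have hq1 : q ≤ 1 := by
    rw [hqd, div_le_one (by positivity)]
    linarith
  have hqR : 4 ≤ q * R := by
    rw [hqd]
    field_simp
    norm_num
  have hfirst : q * f (9 / 2) - ε ≤ MT ix φ false (19485 * m) S := by
    have := (hC (19485 * m) (4330 * m) (by rw [hRm]; omega) hi0 hi1 S hSP hS3 hS4).1 (by omega)
    rw [hq] at this
    have e : ((19485 * m : ℕ) : ℝ) / ((4330 * m : ℕ) : ℝ) = 9 / 2 := by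
      push_cast
      field_simp
      norm_num
    rw [e] at this
    exact this
  -- the second sum
  have hT : ∀ i ∈ Ioc (4330 * m) (17991 * m), MT ix φ true (19485 * m - i) S ≤
      q * F (((19485 * m - i : ℕ) : ℝ) / (4330 * m)) + ε := by
    intro i hi
    rw [mem_Ioc] at hi
    have := (hC (19485 * m - i) (4330 * m) (by rw [hRm]; omega) hi0 hi1 S hSP hS3 hS4).2 (by omega)
    rw [hq] at this
    have e : (((4330 * m : ℕ) : ℝ)) = 4330 * (m : ℝ) := by push_cast; ring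
    rw [e] at this
    exact this
  have hF3 : ∀ i ∈ Ioc (4330 * m) (17991 * m), 0 ≤ F (((19485 * m - i : ℕ) : ℝ) / (4330 * m)) ∧
      F (((19485 * m - i : ℕ) : ℝ) / (4330 * m)) ≤ 3 * A := by
    intro i hi
    rw [mem_Ioc] at hi
    have hi' : (i : ℝ) ≤ 17991 * (m : ℝ) := by exact_mod_cast hi.2
    have e : 1494 / 4330 ≤ ((19485 * m - i : ℕ) : ℝ) / (4330 * m) := by
      rw [Nat.cast_sub (by omega), le_div_iff₀ (by positivity)]
      push_cast
      linarith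
    have e0 : 0 < ((19485 * m - i : ℕ) : ℝ) / (4330 * m) := lt_of_lt_of_le (by norm_num) e
    constructor
    · linarith [h.F1 _ e0]
    · have e2 := h.Fa (show (1494 / 4330 : ℝ) ∈ Set.Ioi 0 by norm_num) e0 e
      have e3 := h.FA (1494 / 4330) (by norm_num) (by norm_num)
      rw [e3] at e2
      refine e2.trans ?_
      rw [div_le_iff₀ (by norm_num)]
      linarith
  have hgr := G3_group P ix φ (4330 * m) (17991 * m) (fun i => q * F (((19485 * m - i : ℕ) : ℝ) / (4330 * m))) ε κ hε0.le hS.g0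
    (fun i hi => mul_nonneg hq0.le (hF3 i hi).1)
    (by
      intro i hi
      rw [mem_Ioc] at hi
      have := hS.m1 i (by omega) (by rw [hRm]; omega)
      have h1 := (abs_le.1 this).2
      have hi' : 4330 * (m : ℝ) + 1 ≤ (i : ℝ) := by exact_mod_cast hi.1
      have h2 : Real.log ((i : ℝ) / (i - 1)) ≤ 1 / ((i : ℝ) - 1) := by
        have h3 := Real.log_le_sub_one_of_pos (show 0 < (i : ℝ) / (i - 1) by apply div_pos <;> linarith)
        have h4 : (i : ℝ) / (i - 1) - 1 = 1 / ((i : ℝ) - 1) := by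
          have : (i : ℝ) - 1 ≠ 0 := by linarith |> fun (h : 0 < (i : ℝ) - 1) => h.ne'
          field_simp
          ring
        linarith
      linarith)
    (wb m) (fun i hi => (G3_wb m i hm1 (mem_Ioc.1 hi).1 (mem_Ioc.1 hi).2).1)
    (fun i => MT ix φ true (19485 * m - i) S) hT
  have hsplit : ∑ i ∈ Ioc (4330 * m) (17991 * m), wb m i * (q * F (((19485 * m - i : ℕ) : ℝ) / (4330 * m)) + ε) * (1 / ((i : ℝ) - 1) + κ) ≤
      q * ∑ i ∈ Ioc (4330 * m) (17991 * m), 1 / ((i : ℝ) - 1) * wb m i * F (((19485 * m - i : ℕ) : ℝ) / (4330 * m)) + 4 * ε + ε := by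
    have h1 : ∀ i ∈ Ioc (4330 * m) (17991 * m), wb m i * (q * F (((19485 * m - i : ℕ) : ℝ) / (4330 * m)) + ε) * (1 / ((i : ℝ) - 1) + κ) ≤
        q * (1 / ((i : ℝ) - 1) * wb m i * F (((19485 * m - i : ℕ) : ℝ) / (4330 * m))) + (2503 / 2500 * ε / (4330 * m) + 2503 / 2500 * (3 * A + 1) * κ) := by
      intro i hi
      obtain ⟨hw0, hw1⟩ := G3_wb m i hm1 (mem_Ioc.1 hi).1 (mem_Ioc.1 hi).2
      obtain ⟨hF0, hF1⟩ := hF3 i hi
      have hi' : 4330 * (m : ℝ) ≤ (i : ℝ) - 1 := by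
        have : 4330 * (m : ℝ) + 1 ≤ (i : ℝ) := by exact_mod_cast (mem_Ioc.1 hi).1
        linarith
      have hx0 : 0 < (i : ℝ) - 1 := by
        have : 0 < 4330 * (m : ℝ) := by positivity
        linarith
      obtain ⟨Fi, hFi⟩ : ∃ Fi : ℝ, Fi = F (((19485 * m - i : ℕ) : ℝ) / (4330 * m)) := ⟨_, rfl⟩
      rw [← hFi] at hF0 hF1 ⊢
      obtain ⟨w, hw⟩ : ∃ w : ℝ, w = wb m i := ⟨_, rfl⟩
      rw [← hw] at hw0 hw1 ⊢
      have e1 : w * (q * Fi + ε) * (1 / ((i : ℝ) - 1) + κ) = q * (1 / ((i : ℝ) - 1) * w * Fi) + (w * ε * (1 / ((i : ℝ) - 1)) + w * (q * Fi + ε) * κ) := by ring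
      rw [e1]
      have e2 : 1 / ((i : ℝ) - 1) ≤ 1 / (4330 * m) := one_div_le_one_div_of_le (by positivity) hi'
      have e3 : w * ε * (1 / ((i : ℝ) - 1)) ≤ 2503 / 2500 * ε * (1 / (4330 * m)) := by
        apply mul_le_mul (mul_le_mul_of_nonneg_right hw1 hε0.le) e2 (by positivity) (by positivity)
      have e4 : q * Fi + ε ≤ 3 * A + 1 := by
        have : q * Fi ≤ 1 * (3 * A) := mul_le_mul hq1 hF1 hF0 (by norm_num)
        linarith
      have e5 : w * (q * Fi + ε) * κ ≤ 2503 / 2500 * (3 * A + 1) * κ := by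
        apply mul_le_mul_of_nonneg_right _ hκ0.le
        exact mul_le_mul hw1 e4 (by positivity) (by norm_num)
      have e6 : 2503 / 2500 * ε / (4330 * m) = 2503 / 2500 * ε * (1 / (4330 * m)) := by ring
      rw [e6]
      linarith
    refine (sum_le_sum h1).trans ?_
    rw [sum_add_distrib, ← mul_sum, sum_const, Nat.card_Ioc, nsmul_eq_mul]
    have h2 : ((17991 * m - 4330 * m : ℕ) : ℝ) = 13661 * m := by
      have : 17991 * m - 4330 * m = 13661 * m := by omega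
      rw [this]
      push_cast
      ring
    rw [h2]
    have h3 : 13661 * (m : ℝ) * (2503 / 2500 * ε / (4330 * m) + 2503 / 2500 * (3 * A + 1) * κ) =
        13661 * 2503 / 2500 / 4330 * ε + 13661 * 2503 / 2500 / 14000 * (κ * (14000 * (m : ℝ) * (3 * A + 1))) := by
      field_simp
    rw [h3]
    have h4 : 13661 * 2503 / 2500 / 14000 * (κ * (14000 * (m : ℝ) * (3 * A + 1))) ≤ 13661 * 2503 / 2500 / 14000 * ε :=
      mul_le_mul_of_nonneg_left hκε (by norm_num)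
    norm_num at h4 ⊢
    linarith
  have hr := hrie m (by omega)
  have hr2 := mul_le_mul_of_nonneg_left hr hq0.le
  have hmain : q * (A / 1000) - 6 * ε ≤ MT ix φ false (19485 * m) S -
      ∑ p ∈ P.filter (fun p => 4330 * m < ix p ∧ ix p ≤ 17991 * m), wb m (ix p) * φ p * MT ix φ true (19485 * m - ix p) S := by
    linarith
  refine le_trans ?_ hmain
  have hq4 : 4 / R ≤ q := by
    rw [div_le_iff₀ hR0]
    exact hqR
  have h6 : 12 / (1000 * R) ≤ q * (A / 1000) := by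
    have : 4 / R * (3 / 1000) ≤ q * (A / 1000) := by
      apply mul_le_mul hq4 _ (by norm_num) hq0.le
      linarith
    refine le_trans (le_of_eq ?_) this
    field_simp
    norm_num
  have h7 : 6 * ε ≤ 1 / (1000 * R) := by
    rw [hε, mul_one_div, div_le_div_iff₀ (by positivity) (by positivity)]
    nlinarith
  have h8 : 12 / (1000 * (R : ℝ)) = 12 * (1 / (1000 * R)) := by ring
  rw [h8] at h6
  have h9 : 0 < 1 / (1000 * (R : ℝ)) := by positivity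
  linarith

end Pool.Agent.PTW
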