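import Pool.Agent.PTW.Defs

set_option autoImplicit false

namespace Pool.Agent.PTW.BH

open Finset

theorem H3b_prod (a : ℕ) (T : Finset ℕ) (hT : ∀ p ∈ T, p.Prime) :
    ∏ p ∈ T, (if p ∣ a then (1 : ℝ) else 0) = if (∏ p ∈ T, p) ∣ a then (1 : ℝ) else 0 := by
  rw [Finset.prod_ite_zero]
  simp only [Finset.prod_const_one]
  refine if_congr ?_ rfl rfl
  constructor
  · intro h
    exact Finset.prod_primes_dvd a (fun p hp => (hT p hp).prime) h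
  · intro h p hp
    exact (Finset.dvd_prod_of_mem (fun p => p) hp).trans h

/-- [PTW-H3b] interchange of the summations. Proof. For `1 ≤ s ≤ N`, `a = N ^ 2 + s ^ 2 ≥ 1`: `∑_{e ∣ a} x e = ∑_{e ∈ Icc 1 D} x e [e ∣ a]` (the support of `x`; divisors of `a ≠ 0`), and `[e ∣ a] ∏_{p ∈ T} [p ∣ a] = [e ∏ T ∣ a]` (`T` is a set of distinct primes, `∏ T ∣ a ↔ ∀ p ∈ T, p ∣ a`: `Finset.prod_primes_dvd`;
`e` is coprime to `∏ T`: `Nat.Coprime.mul_dvd_of_dvd_of_dvd`). Then `Finset.sum_comm` and `cA N d = ∑_{s ∈ Icc 1 N} [d ∣ N ^ 2 + s ^ 2]` (`Finset.card_filter`). -/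
theorem interchange (N D : ℕ) (hN : 1 ≤ N) (x : ℕ → ℝ) (P : Finset ℕ) (Λ : Finset ℕ → ℝ) (hx : ∀ e, x e ≠ 0 → 1 ≤ e ∧ e ≤ D)
    (hP : ∀ p ∈ P, p.Prime) (hc : ∀ e, x e ≠ 0 → ∀ p ∈ P, ¬ p ∣ e) :
    ∑ s ∈ Icc 1 N, (∑ e ∈ (N ^ 2 + s ^ 2).divisors, x e) *
        (∑ T ∈ P.powerset, Λ T * ∏ p ∈ T, (if p ∣ N ^ 2 + s ^ 2 then (1 : ℝ) else 0)) =
      ∑ e ∈ Icc 1 D, x e * ∑ T ∈ P.powerset, Λ T * (cA N (e * ∏ p ∈ T, p) : ℝ) := by
  have key : ∀ s ∈ Icc 1 N, (∑ e ∈ (N ^ 2 + s ^ 2).divisors, x e) *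
        (∑ T ∈ P.powerset, Λ T * ∏ p ∈ T, (if p ∣ N ^ 2 + s ^ 2 then (1 : ℝ) else 0)) =
      ∑ e ∈ Icc 1 D, x e * ∑ T ∈ P.powerset, Λ T * (if (e * ∏ p ∈ T, p) ∣ N ^ 2 + s ^ 2 then (1 : ℝ) else 0) := by
    intro s _
    obtain ⟨a, ha⟩ : ∃ a : ℕ, a = N ^ 2 + s ^ 2 := ⟨_, rfl⟩
    have ha0 : a ≠ 0 := by
      rw [ha]
      positivity
    rw [← ha]
    have h1 : ∑ e ∈ a.divisors, x e = ∑ e ∈ Icc 1 D, if e ∣ a then x e else 0 := by
      rw [← Finset.sum_filter]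
      refine (Finset.sum_subset_zero_on_sdiff ?_ ?_ (fun _ _ => rfl)).symm
      · intro e he
        rw [mem_filter] at he
        exact Nat.mem_divisors.2 ⟨he.2, ha0⟩
      · intro e he
        rw [mem_sdiff, mem_filter, mem_Icc, Nat.mem_divisors] at he
        by_contra h
        exact he.2 ⟨hx e h, he.1.1⟩
    rw [h1, Finset.sum_mul]
    refine Finset.sum_congr rfl fun e he => ?_
    by_cases hxe : x e = 0
    · rw [hxe]
      simp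
    · rw [Finset.mul_sum, Finset.mul_sum]
      refine Finset.sum_congr rfl fun T hT => ?_
      have hTP := Finset.mem_powerset.1 hT
      rw [H3b_prod a T (fun p hp => hP p (hTP hp))]
      have hcop : Nat.Coprime e (∏ p ∈ T, p) := by
        refine Nat.Coprime.prod_right fun p hp => ?_
        exact ((Nat.Prime.coprime_iff_not_dvd (hP p (hTP hp))).2 (hc e hxe p (hTP hp))).symm
      have hiff : (e * ∏ p ∈ T, p) ∣ a ↔ e ∣ a ∧ (∏ p ∈ T, p) ∣ a :=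
        ⟨fun h => ⟨(Dvd.intro _ rfl).trans h, (Dvd.intro_left _ rfl).trans h⟩, fun h => hcop.mul_dvd_of_dvd_of_dvd h.1 h.2⟩
      by_cases h2 : e ∣ a <;> by_cases h3 : (∏ p ∈ T, p) ∣ a <;> simp [hiff, h2, h3]
  rw [Finset.sum_congr rfl key, Finset.sum_comm]
  refine Finset.sum_congr rfl fun e _ => ?_
  rw [← Finset.mul_sum, Finset.sum_comm]
  congr 1
  refine Finset.sum_congr rfl fun T _ => ?_
  rw [← Finset.mul_sum]
  congr 1
  unfold cA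
  rw [Finset.card_filter]
  push_cast
  rfl

end Pool.Agent.PTW.BH
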