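import Pool.Agent.PTW.H2
import Pool.Agent.PTW.H3b

set_option autoImplicit false

namespace Pool.Agent.PTW.BH

open Finset

/-- [PTW-H3c] one composed sieve sum. Proof. `interchange` (with `Λ T := Λ (pat ix T)`); `cA N (e ∏ T) = N gg N e ∏ g + rest`; the main terms give `N * (∑_e x e gg N e) * (∑_T Λ ∏ g)`, the rest is `≤ ∑_{e ≤ D, x e ≠ 0} |x e| C N ^ (1 - ε/10) ≤ D C N ^ (1 - ε/10)` by `all_patterns`. -/
theorem total (ε : ℝ) (h0 : 0 < ε) (h1 : ε ≤ 1 / 100) (μ κ : ℕ) : ∃ C : ℝ, 0 < C ∧ ∀ (N D : ℕ) (y : ℝ) (ix : ℕ → ℕ) (P : Finset ℕ) (Λ : List ℕ → ℝ) (x : ℕ → ℝ),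
    Sys ε N D μ κ y ix P → (∀ L, |Λ L| ≤ 2) → (∀ L : List ℕ, L.Pairwise (· ≥ ·) → Λ L ≠ 0 → Splits μ κ L) →
    (∀ e, |x e| ≤ 1) → (∀ e, x e ≠ 0 → 1 ≤ e ∧ Squarefree e ∧ e ≤ D) → (∀ e, x e ≠ 0 → ∀ p ∈ P, ¬ p ∣ e) →
    |∑ s ∈ Icc 1 N, (∑ e ∈ (N ^ 2 + s ^ 2).divisors, x e) *
        (∑ T ∈ P.powerset, Λ (pat ix T) * ∏ p ∈ T, (if p ∣ N ^ 2 + s ^ 2 then (1 : ℝ) else 0)) -
      N * (∑ e ∈ Icc 1 D, x e * gg N e) * (∑ T ∈ P.powerset, Λ (pat ix T) * ∏ p ∈ T, g N p)| ≤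
      C * D * (N : ℝ) ^ (1 - ε / 10) := by
  obtain ⟨C, hC, hall⟩ := all_patterns ε h0 h1 μ κ
  refine ⟨C, hC, ?_⟩
  intro N D y ix P Λ x hS hΛ hsp hx1 hx hxP
  have hN0 : (0 : ℝ) ≤ (N : ℝ) ^ (1 - ε / 10) := Real.rpow_nonneg (Nat.cast_nonneg N) _
  rw [interchange N D hS.N1 x P (fun T => Λ (pat ix T)) (fun e he => ⟨(hx e he).1, (hx e he).2.2⟩)
    (fun p hp => (hS.prim p hp).1) hxP]
  have hmain : (∑ e ∈ Icc 1 D, x e * ∑ T ∈ P.powerset, (fun T => Λ (pat ix T)) T * (cA N (e * ∏ p ∈ T, p) : ℝ)) -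
      N * (∑ e ∈ Icc 1 D, x e * gg N e) * (∑ T ∈ P.powerset, Λ (pat ix T) * ∏ p ∈ T, g N p) =
      ∑ e ∈ Icc 1 D, x e * ∑ T ∈ P.powerset, Λ (pat ix T) * ((cA N (e * ∏ p ∈ T, p) : ℝ) - N * gg N e * ∏ p ∈ T, g N p) := by
    have e1 : N * (∑ e ∈ Icc 1 D, x e * gg N e) * (∑ T ∈ P.powerset, Λ (pat ix T) * ∏ p ∈ T, g N p) =
        ∑ e ∈ Icc 1 D, x e * (N * gg N e * (∑ T ∈ P.powerset, Λ (pat ix T) * ∏ p ∈ T, g N p)) := by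
      rw [mul_assoc, Finset.sum_mul, Finset.mul_sum]
      refine Finset.sum_congr rfl fun e _ => ?_
      ring
    rw [e1, ← Finset.sum_sub_distrib]
    refine Finset.sum_congr rfl fun e _ => ?_
    rw [← mul_sub, Finset.mul_sum, ← Finset.sum_sub_distrib]
    congr 1
    refine Finset.sum_congr rfl fun T _ => ?_
    show Λ (pat ix T) * _ - _ = _
    ring
  rw [hmain]
  refine (Finset.abs_sum_le_sum_abs _ _).trans ?_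
  have hterm : ∀ e ∈ Icc 1 D, |x e * ∑ T ∈ P.powerset, Λ (pat ix T) *
      ((cA N (e * ∏ p ∈ T, p) : ℝ) - N * gg N e * ∏ p ∈ T, g N p)| ≤ C * (N : ℝ) ^ (1 - ε / 10) := by
    intro e _
    by_cases he : x e = 0
    · rw [he, zero_mul, abs_zero]
      positivity
    · rw [abs_mul]
      have hb := hall N D e y ix P Λ hS (hx e he).2.1 (hx e he).2.2 (hxP e he) hΛ hsp
      calc _ ≤ 1 * (C * (N : ℝ) ^ (1 - ε / 10)) :=
            mul_le_mul (hx1 e) hb (abs_nonneg _) zero_le_one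
        _ = _ := one_mul _
  refine (Finset.sum_le_sum hterm).trans ?_
  rw [Finset.sum_const, Nat.card_Icc, nsmul_eq_mul]
  have : ((D + 1 - 1 : ℕ) : ℝ) = D := by simp
  rw [this]
  apply le_of_eq
  ring

end Pool.Agent.PTW.BH
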