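import Pool.Agent.PTW.H3a
import Pool.Agent.PTW.H3c

set_option autoImplicit false

namespace Pool.Agent.PTW.BH

open Finset

/-- the properties of the weights of `FLW` -/
structure Wts (δ : ℝ) (E D : ℕ) (xp xm : ℕ → ℝ) : Prop where
  ap : ∀ e, |xp e| ≤ 1
  am : ∀ e, |xm e| ≤ 1
  sp : ∀ e, xp e ≠ 0 → 1 ≤ e ∧ Squarefree e ∧ e ≤ D ∧ ∀ p : ℕ, p.Prime → p ∣ e → p ≤ 2 ^ E
  sm : ∀ e, xm e ≠ 0 → 1 ≤ e ∧ Squarefree e ∧ e ≤ D ∧ ∀ p : ℕ, p.Prime → p ∣ e → p ≤ 2 ^ E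
  lo : ∀ n : ℕ, n ≠ 0 → ∑ e ∈ n.divisors, xm e ≤ (if ∀ p ∈ SP E, ¬ p ∣ n then (1 : ℝ) else 0)
  up : ∀ n : ℕ, n ≠ 0 → (if ∀ p ∈ SP E, ¬ p ∣ n then (1 : ℝ) else 0) ≤ ∑ e ∈ n.divisors, xp e
  dp : ∀ φ : ℕ → ℝ, (∀ p ∈ SP E, 0 ≤ φ p ∧ φ p ≤ 2 / p ∧ φ p ≤ 1 / 2) →
    |∑ e ∈ Icc 1 D, xp e * ∏ p ∈ e.primeFactors, φ p - ∏ p ∈ SP E, (1 - φ p)| ≤ δ * ∏ p ∈ SP E, (1 - φ p)
  dm : ∀ φ : ℕ → ℝ, (∀ p ∈ SP E, 0 ≤ φ p ∧ φ p ≤ 2 / p ∧ φ p ≤ 1 / 2) →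
    |∑ e ∈ Icc 1 D, xm e * ∏ p ∈ e.primeFactors, φ p - ∏ p ∈ SP E, (1 - φ p)| ≤ δ * ∏ p ∈ SP E, (1 - φ p)

/-- the main term of the weighted sieve -/
noncomputable def M1 (N l iz : ℕ) (ix : ℕ → ℕ) (wb : ℕ → ℝ) (P : Finset ℕ) : ℝ :=
  MT ix (g N) false l (P.filter (fun p => ix p ≤ iz)) -
    ∑ p ∈ P.filter (fun p => iz < ix p), wb (ix p) * (g N p * MT ix (g N) true (l - ix p) (P.filter (fun p => ix p ≤ iz)))

/-- the auxiliary main term -/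
noncomputable def M2 (N l iz : ℕ) (ix : ℕ → ℕ) (P : Finset ℕ) : ℝ :=
  MT ix (g N) true l (P.filter (fun p => ix p ≤ iz))

/-- [PTW-H3d] the lower bound for the weighted sum. Proof. `Gs_ge` for every `s ∈ [1, N]` (`l = μ + κ`, `iu = μ`) with `X = ∑_{e ∣ a} xp e`, `Y = ∑_{e ∣ a} xm e` (`lo`, `up`, `a = N ^ 2 + s ^ 2 ≠ 0`). Expand `X A - (X - Y) B = X A - X B + Y B` and sum over `s`; apply `total` three times:
to `LW`, `xp`, `P` (`abs_LW`, `LW_splits`), and to `lamL true l`, `xp` resp. `xm`, `P_z` (`Sys.mono_set`, `abs_lamL`, `lam_true_splits`). Main terms: `N (∑ xp gg) M1 - N (∑ xp gg) M2 + N (∑ xm gg) M2` (`LW_sum` for `φ = g N`; `MT` by definition with `lam`), and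
`|∑_e xp e gg N e - V| ≤ δ V` by `dp` for `φ = g N` (`g_bounds`, `gg` unfolded). The primes of `P` exceed `2 ^ E`, so they do not divide `e` (`sp`, `sm`). -/
theorem W_ge (ε : ℝ) (h0 : 0 < ε) (h1 : ε ≤ 1 / 100) (μ κ iz : ℕ) (hz : 2 * iz ≤ μ + κ) : ∃ C : ℝ, 0 < C ∧
    ∀ (N E D : ℕ) (δ y : ℝ) (ix : ℕ → ℕ) (P : Finset ℕ) (wb xp xm : ℕ → ℝ), Sys ε N D μ κ y ix P → (∀ i, 0 ≤ wb i ∧ wb i ≤ 2) →
      (∀ p ∈ P, ix p ≤ μ ∧ 2 ^ E < p) → Wts δ E D xp xm → 0 ≤ δ →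
      N * (∏ p ∈ SP E, (1 - g N p)) * (M1 N (μ + κ) iz ix wb P - δ * (|M1 N (μ + κ) iz ix wb P| + 2 * |M2 N (μ + κ) iz ix P|)) -
        C * D * (N : ℝ) ^ (1 - ε / 10) ≤ ∑ s ∈ Icc 1 N, Gs N E iz ix wb P s := by
  obtain ⟨C₁, hC₁, htot⟩ := total ε h0 h1 μ κ
  refine ⟨3 * C₁, by positivity, ?_⟩
  intro N E D δ y ix P wb xp xm hS hwb hPx hW hδ
  set Pz : Finset ℕ := P.filter (fun p => ix p ≤ iz) with hPz
  have hSz : Sys ε N D μ κ y ix Pz := hS.mono_set (filter_subset _ _)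
  -- the three applications of `total`
  have hsupp : ∀ x : ℕ → ℝ, (∀ e, x e ≠ 0 → 1 ≤ e ∧ Squarefree e ∧ e ≤ D ∧
      ∀ p : ℕ, p.Prime → p ∣ e → p ≤ 2 ^ E) →
      (∀ e, x e ≠ 0 → 1 ≤ e ∧ Squarefree e ∧ e ≤ D) ∧ (∀ e, x e ≠ 0 → ∀ p ∈ P, ¬ p ∣ e) := by
    intro x hx
    refine ⟨fun e he => ⟨(hx e he).1, (hx e he).2.1, (hx e he).2.2.1⟩, fun e he p hp hpe => ?_⟩
    have h3 := (hx e he).2.2.2 p (hS.prim p hp).1 hpe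
    have h4 := (hPx p hp).2
    omega
  obtain ⟨hxp1, hxp2⟩ := hsupp xp hW.sp
  obtain ⟨hxm1, hxm2⟩ := hsupp xm hW.sm
  have hlam2 : ∀ L, |lamL true (μ + κ) L| ≤ 2 := fun L => (abs_lamL true (μ + κ) L).trans (by norm_num)
  have t1 := htot N D y ix P (LW (μ + κ) iz μ wb) xp hS (abs_LW (μ + κ) iz μ wb hwb)
    (fun L hL h => LW_splits (μ + κ) iz μ κ wb rfl hz L hL h) hW.ap hxp1 hxp2
  have t2 := htot N D y ix Pz (lamL true (μ + κ)) xp hSz hlam2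
    (fun L hL h => lam_true_splits (μ + κ) μ κ rfl L hL h) hW.ap hxp1
    (fun e he p hp => hxp2 e he p (filter_subset _ _ hp))
  have t3 := htot N D y ix Pz (lamL true (μ + κ)) xm hSz hlam2
    (fun L hL h => lam_true_splits (μ + κ) μ κ rfl L hL h) hW.am hxm1
    (fun e he p hp => hxm2 e he p (filter_subset _ _ hp))
  have hM1 : ∑ T ∈ P.powerset, LW (μ + κ) iz μ wb (pat ix T) * ∏ p ∈ T, g N p =
      M1 N (μ + κ) iz ix wb P :=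
    LW_sum ix hS.mono (μ + κ) iz μ wb (g N) P (fun p hp => (hPx p hp).1)
  have hM2 : ∑ T ∈ Pz.powerset, lamL true (μ + κ) (pat ix T) * ∏ p ∈ T, g N p =
      M2 N (μ + κ) iz ix P := rfl
  rw [hM1] at t1
  rw [hM2] at t2 t3
  -- the main terms of the weights
  have hb : ∀ p ∈ SP E, 0 ≤ g N p ∧ g N p ≤ 2 / p ∧ g N p ≤ 1 / 2 := fun p hp =>
    g_bounds (mem_filter.1 hp).2 N
  have hp := hW.dp (g N) hb
  have hm := hW.dm (g N) hb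
  set V : ℝ := ∏ p ∈ SP E, (1 - g N p) with hV
  have hGp : ∑ e ∈ Icc 1 D, xp e * gg N e = ∑ e ∈ Icc 1 D, xp e * ∏ p ∈ e.primeFactors, g N p := rfl
  have hGm : ∑ e ∈ Icc 1 D, xm e * gg N e = ∑ e ∈ Icc 1 D, xm e * ∏ p ∈ e.primeFactors, g N p := rfl
  rw [← hGp] at hp
  rw [← hGm] at hm
  set Gp : ℝ := ∑ e ∈ Icc 1 D, xp e * gg N e with hGpd
  set Gm : ℝ := ∑ e ∈ Icc 1 D, xm e * gg N e with hGmd
  set m1 : ℝ := M1 N (μ + κ) iz ix wb P with hm1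
  set m2 : ℝ := M2 N (μ + κ) iz ix P with hm2
  set err : ℝ := C₁ * D * (N : ℝ) ^ (1 - ε / 10) with herr
  -- the pointwise inequality, summed
  have hsum : ∑ s ∈ Icc 1 N, ((∑ e ∈ (N ^ 2 + s ^ 2).divisors, xp e) *
        (∑ T ∈ P.powerset, LW (μ + κ) iz μ wb (pat ix T) *
          ∏ p ∈ T, (if p ∣ N ^ 2 + s ^ 2 then (1 : ℝ) else 0)) -
      ((∑ e ∈ (N ^ 2 + s ^ 2).divisors, xp e) - (∑ e ∈ (N ^ 2 + s ^ 2).divisors, xm e)) *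
        (∑ T ∈ Pz.powerset, lamL true (μ + κ) (pat ix T) *
          ∏ p ∈ T, (if p ∣ N ^ 2 + s ^ 2 then (1 : ℝ) else 0))) ≤
      ∑ s ∈ Icc 1 N, Gs N E iz ix wb P s := by
    refine sum_le_sum fun s hs => ?_
    have hs1 : 1 ≤ s := (mem_Icc.1 hs).1
    have hne : N ^ 2 + s ^ 2 ≠ 0 := by
      have : 0 < s ^ 2 := by positivity
      omega
    exact Gs_ge N E (μ + κ) iz μ s ix hS.mono wb (fun i => (hwb i).1) P
      (fun p hp => (hPx p hp).1) _ _ (hW.up _ hne) (hW.lo _ hne)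
  have hexp : ∑ s ∈ Icc 1 N, ((∑ e ∈ (N ^ 2 + s ^ 2).divisors, xp e) *
        (∑ T ∈ P.powerset, LW (μ + κ) iz μ wb (pat ix T) *
          ∏ p ∈ T, (if p ∣ N ^ 2 + s ^ 2 then (1 : ℝ) else 0)) -
      ((∑ e ∈ (N ^ 2 + s ^ 2).divisors, xp e) - (∑ e ∈ (N ^ 2 + s ^ 2).divisors, xm e)) *
        (∑ T ∈ Pz.powerset, lamL true (μ + κ) (pat ix T) *
          ∏ p ∈ T, (if p ∣ N ^ 2 + s ^ 2 then (1 : ℝ) else 0))) =
      ∑ s ∈ Icc 1 N, (∑ e ∈ (N ^ 2 + s ^ 2).divisors, xp e) *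
        (∑ T ∈ P.powerset, LW (μ + κ) iz μ wb (pat ix T) *
          ∏ p ∈ T, (if p ∣ N ^ 2 + s ^ 2 then (1 : ℝ) else 0)) -
      ∑ s ∈ Icc 1 N, (∑ e ∈ (N ^ 2 + s ^ 2).divisors, xp e) *
        (∑ T ∈ Pz.powerset, lamL true (μ + κ) (pat ix T) *
          ∏ p ∈ T, (if p ∣ N ^ 2 + s ^ 2 then (1 : ℝ) else 0)) +
      ∑ s ∈ Icc 1 N, (∑ e ∈ (N ^ 2 + s ^ 2).divisors, xm e) *
        (∑ T ∈ Pz.powerset, lamL true (μ + κ) (pat ix T) *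
          ∏ p ∈ T, (if p ∣ N ^ 2 + s ^ 2 then (1 : ℝ) else 0)) := by
    rw [← sum_sub_distrib, ← sum_add_distrib]
    refine sum_congr rfl fun s _ => ?_
    ring
  rw [hexp] at hsum
  refine le_trans ?_ hsum
  rw [abs_le] at t1 t2 t3
  -- estimates of the main terms
  have hN0 : (0 : ℝ) ≤ N := Nat.cast_nonneg N
  have e1 : V * m1 - δ * V * |m1| ≤ Gp * m1 := by
    have h5 : |(Gp - V) * m1| ≤ δ * V * |m1| := by
      rw [abs_mul]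
      exact mul_le_mul_of_nonneg_right hp (abs_nonneg _)
    have h6 := (abs_le.1 h5).1
    linarith
  have e2 : -(2 * (δ * V * |m2|)) ≤ Gm * m2 - Gp * m2 := by
    have h5 : |(Gp - V) * m2| ≤ δ * V * |m2| := by
      rw [abs_mul]
      exact mul_le_mul_of_nonneg_right hp (abs_nonneg _)
    have h6 : |(Gm - V) * m2| ≤ δ * V * |m2| := by
      rw [abs_mul]
      exact mul_le_mul_of_nonneg_right hm (abs_nonneg _)
    have h7 := (abs_le.1 h5).2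
    have h8 := (abs_le.1 h6).1
    linarith
  have e3 : N * V * (m1 - δ * (|m1| + 2 * |m2|)) ≤
      N * Gp * m1 - N * Gp * m2 + N * Gm * m2 := by
    have h9 : V * m1 - δ * V * |m1| - 2 * (δ * V * |m2|) ≤ Gp * m1 + (Gm * m2 - Gp * m2) := by
      linarith
    have h10 := mul_le_mul_of_nonneg_left h9 hN0
    calc N * V * (m1 - δ * (|m1| + 2 * |m2|)) =
        N * (V * m1 - δ * V * |m1| - 2 * (δ * V * |m2|)) := by ring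
      _ ≤ _ := h10
      _ = _ := by ring
  have e4 : 3 * C₁ * D * (N : ℝ) ^ (1 - ε / 10) = 3 * err := by
    rw [herr]
    ring
  rw [e4]
  linarith [t1.1, t2.2, t3.1]

end Pool.Agent.PTW.BH
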