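import Pool.Agent.PTW.H1
import Pool.Agent.PTW.C0

set_option autoImplicit false

namespace Pool.Agent.PTW.BH

open Finset

/-- [PTW-H4a] Proof. `log` is monotone on `ℕ` (`log 0 = log 1 = 0`, `Real.log_le_log`), `log N > 0`, `Nat.floor_le_floor`. -/
theorem cell_mono (n N : ℕ) (hN : 1 < N) : Monotone (cell n N) := by
  intro p q hpq
  have hl : 0 < Real.log N := Real.log_pos (by exact_mod_cast hN)
  unfold cell
  refine Nat.succ_le_succ (Nat.floor_le_floor ?_)
  refine div_le_div_of_nonneg_right ?_ hl.le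
  refine mul_le_mul_of_nonneg_left ?_ (Nat.cast_nonneg n)
  rcases Nat.eq_zero_or_pos p with h | h
  · rw [h, Nat.cast_zero, Real.log_zero]
    rcases Nat.eq_zero_or_pos q with h' | h'
    · rw [h', Nat.cast_zero, Real.log_zero]
    · exact Real.log_nonneg (by exact_mod_cast h')
  · exact Real.log_le_log (by exact_mod_cast h) (by exact_mod_cast hpq)

/-- [PTW-H4b] Proof. `2 ^ EE ≤ N ^ (i0 / n)` (floor), so the power `4 b + 6` is `≤ N ^ ((4 b + 6) / R) ≤ N ^ (1 / 200000)` (`i0 / n = 1 / R`). -/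
theorem D_le (R j b N : ℕ) (hj : 1 ≤ j) (hR : 200000 * (4 * b + 6) ≤ R) (hN : 2 ≤ N) :
    ((2 ^ (EE (18000 * R * j) (18000 * j) N * (4 * b + 6)) : ℕ) : ℝ) ≤ (N : ℝ) ^ ((1 : ℝ) / 200000) := by
  have hN0 : (0 : ℝ) < N := by exact_mod_cast (by omega : 0 < N)
  have hl : 0 < Real.log N := Real.log_pos (by exact_mod_cast (by omega : 1 < N))
  have hl2 : 0 < Real.log 2 := Real.log_pos (by norm_num)
  have hR0 : 0 < R := by omega
  have hR1 : (0 : ℝ) < R := by exact_mod_cast hR0
  have hj1 : (0 : ℝ) < j := by exact_mod_cast hj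
  have hR' : (200000 : ℝ) * (4 * b + 6) ≤ R := by exact_mod_cast hR
  push_cast
  rw [← Real.log_le_log_iff (by positivity) (by positivity), Real.log_pow, Real.log_rpow hN0]
  have h1 : (EE (18000 * R * j) (18000 * j) N : ℝ) ≤ ((18000 * j : ℕ) : ℝ) * Real.log N / (((18000 * R * j : ℕ) : ℝ) * Real.log 2) := by
    unfold EE
    exact Nat.floor_le (by positivity)
  have h2 : ((18000 * j : ℕ) : ℝ) * Real.log N / (((18000 * R * j : ℕ) : ℝ) * Real.log 2) = Real.log N / (R * Real.log 2) := by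
    push_cast
    field_simp
  rw [h2] at h1
  rw [le_div_iff₀ (by positivity)] at h1
  have h3 : (EE (18000 * R * j) (18000 * j) N : ℝ) * Real.log 2 * (200000 * (4 * b + 6)) ≤ Real.log N := by
    have h4 : 0 ≤ (EE (18000 * R * j) (18000 * j) N : ℝ) * Real.log 2 := by positivity
    calc (EE (18000 * R * j) (18000 * j) N : ℝ) * Real.log 2 * (200000 * (4 * b + 6))
        ≤ (EE (18000 * R * j) (18000 * j) N : ℝ) * Real.log 2 * R := mul_le_mul_of_nonneg_left hR' h4
      _ = (EE (18000 * R * j) (18000 * j) N : ℝ) * (R * Real.log 2) := by ring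
      _ ≤ Real.log N := h1
  push_cast
  linarith

/-- [PTW-H4c] Proof. `n = 18000 R j`, `y = N ^ (1 / n) ≥ 1`; `y ^ μ = N ^ (.9995)`, `y ^ κ = N ^ (.083)` (`Real.rpow_mul`, `Real.rpow_natCast`). For `1 ≤ e ≤ D ≤ N ^ (1/200000)` (`D_le`): `N / e ≥ N ^ (1 - 1/200000)`, so
`(N / e) ^ (1 - 1/10000) ≥ N ^ ((1 - 1/200000) (1 - 1/10000)) ≥ N ^ (.99989)` and `e y ^ μ ≤ N ^ (.9995 + .000005)`; `(N / e) ^ (1/12 - 1/10000) ≥ N ^ ((1 - 1/200000) (1/12 - 1/10000)) ≥ N ^ (.0832)`. `cell_mono`; `1 ≤ cell` by definition; `p ≤ y ^ cell`: `lt_cell`/`cell_le` with `i = cell n N p`: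
`n log p < cell * log N`. `mem_PP`. -/
theorem sys_params (R j b N : ℕ) (hj : 1 ≤ j) (hR : 200000 * (4 * b + 6) ≤ R) (hN : 2 ≤ N) :
    Sys (1 / 10000) N (2 ^ (EE (18000 * R * j) (18000 * j) N * (4 * b + 6))) (17991 * R * j) (1494 * R * j)
      ((N : ℝ) ^ ((1 : ℝ) / ((18000 * R * j : ℕ) : ℝ))) (cell (18000 * R * j) N) (PP (18000 * R * j) (18000 * j) (17991 * R * j) N) := by
  have hN0 : (0 : ℝ) < N := by exact_mod_cast (by omega : 0 < N)
  have hN1 : (1 : ℝ) ≤ N := by exact_mod_cast (by omega : 1 ≤ N)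
  have hl : 0 < Real.log N := Real.log_pos (by exact_mod_cast (by omega : 1 < N))
  have hR0 : 0 < R := by omega
  have hR1 : (0 : ℝ) < R := by exact_mod_cast hR0
  have hj1 : (0 : ℝ) < j := by exact_mod_cast hj
  have hn0 : (0 : ℝ) < ((18000 * R * j : ℕ) : ℝ) := by
    push_cast
    positivity
  have hD := D_le R j b N hj hR hN
  set D : ℕ := 2 ^ (EE (18000 * R * j) (18000 * j) N * (4 * b + 6)) with hDdef
  set y : ℝ := (N : ℝ) ^ ((1 : ℝ) / ((18000 * R * j : ℕ) : ℝ)) with hy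
  have hy0 : 0 < y := Real.rpow_pos_of_pos hN0 _
  have hlogy : Real.log y = 1 / ((18000 * R * j : ℕ) : ℝ) * Real.log N := by
    rw [hy, Real.log_rpow hN0]
  have hloge : ∀ e : ℕ, 1 ≤ e → e ≤ D → Real.log e ≤ 1 / 200000 * Real.log N := by
    intro e he heD
    have he0 : (0 : ℝ) < e := by exact_mod_cast he
    have h1 : (e : ℝ) ≤ (N : ℝ) ^ ((1 : ℝ) / 200000) := le_trans (by exact_mod_cast heD) hD
    have h2 := Real.log_le_log he0 h1
    rwa [Real.log_rpow hN0] at h2
  refine ⟨by omega, ?_, ?_, ?_, ?_, cell_mono _ _ (by omega), ?_, ?_⟩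
  · have h1 : (N : ℝ) ^ ((1 : ℝ) / 200000) ≤ (N : ℝ) ^ (1 : ℝ) := Real.rpow_le_rpow_of_exponent_le hN1 (by norm_num)
    rw [Real.rpow_one] at h1
    have h2 := hD.trans h1
    exact_mod_cast h2
  · exact Real.one_le_rpow hN1 (by positivity)
  · intro e he heD
    have he0 : (0 : ℝ) < e := by exact_mod_cast he
    have h1 := hloge e he heD
    rw [← Real.log_le_log_iff (by positivity) (by positivity), Real.log_mul he0.ne' (by positivity), Real.log_pow, hlogy,
      Real.log_rpow (by positivity), Real.log_div hN0.ne' he0.ne']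
    have h2 : (((17991 * R * j : ℕ)) : ℝ) * (1 / ((18000 * R * j : ℕ) : ℝ) * Real.log N) = 17991 / 18000 * Real.log N := by
      push_cast
      field_simp
    rw [h2]
    linarith
  · intro e he heD
    have he0 : (0 : ℝ) < e := by exact_mod_cast he
    have h1 := hloge e he heD
    rw [← Real.log_le_log_iff (by positivity) (by positivity), Real.log_pow, hlogy,
      Real.log_rpow (by positivity), Real.log_div hN0.ne' he0.ne']
    have h2 : (((1494 * R * j : ℕ)) : ℝ) * (1 / ((18000 * R * j : ℕ) : ℝ) * Real.log N) = 1494 / 18000 * Real.log N := by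
      push_cast
      field_simp
    rw [h2]
    linarith
  · intro p
    exact Nat.succ_le_succ (Nat.zero_le _)
  · intro p hp
    have hn1 : 1 ≤ 18000 * R * j := by
      have : 0 < 18000 * R * j := by positivity
      omega
    have h := (mem_PP hn1 (by omega)).1 hp
    refine ⟨h.1, h.2.2.1, ?_⟩
    have hp0 : (0 : ℝ) < p := by exact_mod_cast h.1.pos
    have h1 := (cell_le (n := 18000 * R * j) (N := N) (p := p) (i := cell (18000 * R * j) N p) (by omega) h.1.one_le).1 le_rfl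
    rw [← Real.log_le_log_iff hp0 (by positivity), Real.log_pow, hlogy]
    have h2 : (cell (18000 * R * j) N p : ℝ) * (1 / ((18000 * R * j : ℕ) : ℝ) * Real.log N) = (cell (18000 * R * j) N p : ℝ) * Real.log N / ((18000 * R * j : ℕ) : ℝ) := by
      ring
    rw [h2, le_div_iff₀ hn0, mul_comm]
    exact h1.le

end Pool.Agent.PTW.BH
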