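import Pool.Agent.PTW.I1
import Pool.Agent.PTW.C6

/-! # [PTW-I3] from the weighted sum to the number of `s` -/

set_option autoImplicit false

namespace Pool.Agent.PTW

open Finset
open scoped Classical

/-- the weight of `s`: `0` if a prime of `SP E` or of `PP` (cells up to `iz`) divides `N ^ 2 + s ^ 2`, otherwise
`1 - ∑ wb (cell p)` over the primes `p` of the cells in `(iz, Iu]` dividing `N ^ 2 + s ^ 2` -/
noncomputable def GW (n i0 iz Iu N : ℕ) (wb : ℕ → ℝ) (s : ℕ) : ℝ :=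
  if (∀ p ∈ SP (EE n i0 N), ¬ p ∣ N ^ 2 + s ^ 2) ∧ (∀ p ∈ PP n i0 Iu N, cell n N p ≤ iz → ¬ p ∣ N ^ 2 + s ^ 2)
  then 1 - ∑ p ∈ (PP n i0 Iu N).filter (fun p => iz < cell n N p ∧ p ∣ N ^ 2 + s ^ 2), wb (cell n N p) else 0

/-- `N ^ 2 + s ^ 2` is a product of at most two primes, all greater than `N ^ 0.24` -/
def IsP2 (N s : ℕ) : Prop := (N ^ 2 + s ^ 2).primeFactorsList.length ≤ 2 ∧
  ∀ p : ℕ, p.Prime → p ∣ N ^ 2 + s ^ 2 → (N : ℝ) ^ (0.24 : ℝ) < p

theorem GW_le {n i0 iz Iu N : ℕ} (hn : 1 ≤ n) (hN : 1 < N) {wb : ℕ → ℝ} (hwb : ∀ i, i ≤ Iu → 0 ≤ wb i) (s : ℕ) : GW n i0 iz Iu N wb s ≤ 1 := by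
  unfold GW
  split_ifs
  · have : 0 ≤ ∑ p ∈ (PP n i0 Iu N).filter (fun p => iz < cell n N p ∧ p ∣ N ^ 2 + s ^ 2), wb (cell n N p) :=
      Finset.sum_nonneg fun p hp => hwb _ ((mem_PP hn hN).1 (mem_filter.1 hp).1).2.2.2.2
    linarith
  · norm_num

/-- the weighted sum is at most the number of `s < N` with `N ^ 2 + s ^ 2 = P_2` plus the number of bad `s` -/
theorem sum_GW_le {n i0 iz Iu N : ℕ} {R j : ℕ} (hR : 1 ≤ R) (hj : 1 ≤ j)
    (hn : n = 18000 * R * j) (hiz : iz = 4330 * R * j) (hIu : Iu = 17991 * R * j)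
    (hN : 7000 ≤ Real.log N) (hE : 1 ≤ EE n i0 N)
    (wb : ℕ → ℝ) (hwb : ∀ i, i ≤ Iu → 0 ≤ wb i ∧ 1.0012 * (1 - ((i : ℝ) - 1) / Iu) ≤ wb i) :
    ∑ s ∈ Icc 1 N, GW n i0 iz Iu N wb s ≤ (((Ico 1 N).filter (fun s => IsP2 N s)).card : ℝ) +
      (((Icc 1 N).filter (fun s => BadS N (EE n i0 N) s 0.9995)).card : ℝ) := by
  have hN1 : 1 < N := by
    by_contra h
    have h4 : N = 0 ∨ N = 1 := by omega
    rcases h4 with h4 | h4 <;> subst h4 <;> norm_num at hN
  have hn1 : 1 ≤ n := by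
    rw [hn]
    have : 0 < 18000 * R * j := by positivity
    omega
  have key : ∀ s ∈ Icc 1 N, GW n i0 iz Iu N wb s ≤
      (if s ∈ (Ico 1 N).filter (fun s => IsP2 N s) then (1 : ℝ) else 0) +
      (if s ∈ (Icc 1 N).filter (fun s => BadS N (EE n i0 N) s 0.9995) then (1 : ℝ) else 0) := by
    intro s hs
    have hs' := mem_Icc.1 hs
    by_cases hbad : BadS N (EE n i0 N) s 0.9995
    · rw [if_pos (show s ∈ (Icc 1 N).filter (fun s => BadS N (EE n i0 N) s 0.9995) from mem_filter.2 ⟨hs, hbad⟩)]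
      have h1 := GW_le (n := n) (i0 := i0) (iz := iz) (Iu := Iu) (N := N) hn1 hN1 (fun i hi => (hwb i hi).1) s
      have h2 : (0 : ℝ) ≤ if s ∈ (Ico 1 N).filter (fun s => IsP2 N s) then (1 : ℝ) else 0 := by
        split_ifs <;> norm_num
      linarith
    · rcases le_or_gt (GW n i0 iz Iu N wb s) 0 with hG | hG
      · refine hG.trans ?_
        apply add_nonneg
        · split_ifs <;> norm_num
        · split_ifs <;> norm_num
      · have hcond : (∀ p ∈ SP (EE n i0 N), ¬ p ∣ N ^ 2 + s ^ 2) ∧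
            (∀ p ∈ PP n i0 Iu N, cell n N p ≤ iz → ¬ p ∣ N ^ 2 + s ^ 2) := by
          by_contra hc
          unfold GW at hG
          rw [if_neg hc] at hG
          exact lt_irrefl _ hG
        have hG2 := hG
        unfold GW at hG2
        rw [if_pos hcond] at hG2
        have h2E : 2 ≤ 2 ^ EE n i0 N := by
          calc 2 = 2 ^ 1 := rfl
            _ ≤ 2 ^ EE n i0 N := Nat.pow_le_pow_right (by norm_num) hE
        have hP2 := P2_of_pos hR hj hn hiz hIu hN hs'.1 hs'.2 hE wb hwb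
          (fun p hp hp2 => hcond.1 p (by
            unfold SP
            rw [mem_filter, mem_Icc]
            exact ⟨⟨hp.one_le, hp2⟩, hp⟩)) hcond.2 (by linarith) hbad
        have hsN : s < N := by
          rcases Nat.lt_or_eq_of_le hs'.2 with h | h
          · exact h
          · exfalso
            apply hcond.1 2
            · unfold SP
              rw [mem_filter, mem_Icc]
              exact ⟨⟨by norm_num, h2E⟩, Nat.prime_two⟩
            · rw [h]
              exact ⟨N ^ 2, by ring⟩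
        rw [if_pos (show s ∈ (Ico 1 N).filter (fun s => IsP2 N s) from
          mem_filter.2 ⟨mem_Ico.2 ⟨hs'.1, hsN⟩, hP2⟩)]
        have h1 := GW_le (n := n) (i0 := i0) (iz := iz) (Iu := Iu) (N := N) hn1 hN1 (fun i hi => (hwb i hi).1) s
        have h2 : (0 : ℝ) ≤ if s ∈ (Icc 1 N).filter (fun s => BadS N (EE n i0 N) s 0.9995) then (1 : ℝ) else 0 := by
          split_ifs <;> norm_num
        linarith
  refine (Finset.sum_le_sum key).trans (le_of_eq ?_)
  rw [Finset.sum_add_distrib]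
  congr 1
  · rw [← Finset.sum_filter, Finset.sum_const, nsmul_eq_mul, mul_one]
    congr 2
    ext s
    rw [mem_filter]
    constructor
    · exact fun h => h.2
    · intro h
      have h1 := mem_Ico.1 (mem_filter.1 h).1
      exact ⟨mem_Icc.2 ⟨h1.1, h1.2.le⟩, h⟩
  · rw [← Finset.sum_filter, Finset.sum_const, nsmul_eq_mul, mul_one]
    congr 2
    ext s
    rw [mem_filter]
    constructor
    · exact fun h => h.2
    · intro h
      exact ⟨(mem_filter.1 h).1, h⟩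

theorem exp_bd {a l : ℝ} (ha : 0 < a) (hl : 0 < l) : Real.exp (-(a * l)) * l ^ 4 ≤ 120 / (a ^ 5 * l) := by
  have h := Real.pow_div_factorial_le_exp (a * l) (by positivity) 5
  have h5 : ((Nat.factorial 5 : ℕ) : ℝ) = 120 := by norm_num [Nat.factorial]
  rw [h5, div_le_iff₀ (by norm_num)] at h
  rw [Real.exp_neg, le_div_iff₀ (by positivity), inv_mul_eq_div, div_mul_eq_mul_div, div_le_iff₀ (Real.exp_pos _)]
  calc l ^ 4 * (a ^ 5 * l) = (a * l) ^ 5 := by ring
    _ ≤ Real.exp (a * l) * 120 := h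
    _ = 120 * Real.exp (a * l) := by ring

/-- the number of bad `s` is small: the form used at the end -/
theorem bad_small {n i0 Rr j : ℕ} (hR : 1 ≤ Rr) (hj : 1 ≤ j) (hn : n = 18000 * Rr * j) (hi0 : i0 = 18000 * j) :
    ∀ C : ℝ, 0 < C → ∃ N0 : ℕ, ∀ N : ℕ, N0 ≤ N → 7000 ≤ Real.log N ∧ 1 ≤ EE n i0 N ∧
      (((Icc 1 N).filter (fun s => BadS N (EE n i0 N) s 0.9995)).card : ℝ) ≤ C * N / Real.log N ^ 3 := by
  intro C hC
  have hRr : (1 : ℝ) ≤ Rr := by exact_mod_cast hR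
  set K : ℝ := 12 * (120 * (Rr : ℝ) ^ 5) + 2 * (120 * 2000 ^ 5) + 2 * 120 with hK
  have hK0 : 0 < K := by positivity
  set l0 : ℝ := 7000 + Rr + K / C with hl0
  have hKC : 0 < K / C := by positivity
  refine ⟨⌈Real.exp l0⌉₊ + 2, fun N hN => ?_⟩
  have hN1 : 1 < N := by omega
  have hNr : (0 : ℝ) < N := by exact_mod_cast (by omega : 0 < N)
  set l : ℝ := Real.log N with hl
  have hll : l0 ≤ l := by
    rw [hl, Real.le_log_iff_exp_le hNr]
    have h1 := Nat.le_ceil (Real.exp l0)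
    have h2 : ((⌈Real.exp l0⌉₊ + 2 : ℕ) : ℝ) ≤ N := by exact_mod_cast hN
    push_cast at h2
    linarith
  have hl7 : 7000 ≤ l := by linarith
  have hlR : (Rr : ℝ) ≤ l := by linarith
  have hlK : K / C ≤ l := by linarith
  have hlpos : 0 < l := by linarith
  have hlog2 := Real.log_two_lt_d9
  have hlog2' : 0 < Real.log 2 := Real.log_pos (by norm_num)
  have hjr : (0 : ℝ) < j := by exact_mod_cast hj
  have hquot : (i0 : ℝ) * l / (n * Real.log 2) = l / (Rr * Real.log 2) := by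
    rw [hn, hi0]
    push_cast
    field_simp
  have hE1 : 1 ≤ EE n i0 N := by
    unfold EE
    rw [← hl, hquot]
    rw [Nat.one_le_floor_iff, le_div_iff₀ (by positivity)]
    nlinarith
  refine ⟨hl7, hE1, ?_⟩
  have hE2 : l / Rr < ((EE n i0 N : ℝ) + 1) * Real.log 2 := by
    have h1 := Nat.lt_floor_add_one (l / (Rr * Real.log 2))
    unfold EE
    rw [← hl, hquot]
    calc l / Rr = (l / (Rr * Real.log 2)) * Real.log 2 := by field_simp
      _ < ((⌊l / (Rr * Real.log 2)⌋₊ : ℝ) + 1) * Real.log 2 := mul_lt_mul_of_pos_right h1 hlog2'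
  have hE3 : Real.exp (l / Rr) / 2 ≤ (2 : ℝ) ^ EE n i0 N := by
    rw [div_le_iff₀ (by norm_num), ← pow_succ]
    have h1 : (2 : ℝ) ^ (EE n i0 N + 1) = Real.exp (((EE n i0 N : ℝ) + 1) * Real.log 2) := by
      rw [← Real.rpow_natCast, Real.rpow_def_of_pos (by norm_num)]
      congr 1
      push_cast
      ring
    rw [h1]
    exact Real.exp_le_exp.2 hE2.le
  have hb := bad_card (E := EE n i0 N) hN1 hE1 (θ := 0.9995) (by norm_num)
  refine hb.trans ?_
  rw [← hl]
  have hNexp : (N : ℝ) = Real.exp l := (Real.exp_log hNr).symm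
  have hl3 : 0 < l ^ 3 := by positivity
  have hl34 : l ^ 3 ≤ l ^ 4 := pow_le_pow_right₀ (by linarith) (by norm_num)
  -- the three terms, times `l ^ 3 / N`
  have t1 : N * (4 + 2 * l) / 2 ^ EE n i0 N * l ^ 3 ≤ 12 * (120 * (Rr : ℝ) ^ 5) / l * N := by
    have h1 : N * (4 + 2 * l) / 2 ^ EE n i0 N ≤ N * (4 + 2 * l) / (Real.exp (l / Rr) / 2) :=
      div_le_div_of_nonneg_left (by positivity) (by positivity) hE3
    have h2 : N * (4 + 2 * l) / (Real.exp (l / Rr) / 2) = 2 * N * (4 + 2 * l) * Real.exp (-((1 / Rr) * l)) := by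
      rw [Real.exp_neg]
      have : 1 / (Rr : ℝ) * l = l / Rr := by ring
      rw [this]
      field_simp
    have h3 := exp_bd (a := 1 / (Rr : ℝ)) (by positivity) hlpos
    have h4 : 120 / ((1 / (Rr : ℝ)) ^ 5 * l) = 120 * (Rr : ℝ) ^ 5 / l := by field_simp
    rw [h4] at h3
    calc N * (4 + 2 * l) / 2 ^ EE n i0 N * l ^ 3 ≤
          (2 * N * (4 + 2 * l) * Real.exp (-((1 / Rr) * l))) * l ^ 3 := by
            rw [← h2]
            exact mul_le_mul_of_nonneg_right h1 hl3.le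
      _ = 2 * N * ((4 + 2 * l) * l ^ 3) * Real.exp (-((1 / Rr) * l)) := by ring
      _ ≤ 2 * N * (6 * l ^ 4) * Real.exp (-((1 / Rr) * l)) := by
            apply mul_le_mul_of_nonneg_right _ (Real.exp_pos _).le
            apply mul_le_mul_of_nonneg_left _ (by positivity)
            nlinarith
      _ = 12 * (Real.exp (-((1 / Rr) * l)) * l ^ 4) * N := by ring
      _ ≤ 12 * (120 * (Rr : ℝ) ^ 5 / l) * N := by
            apply mul_le_mul_of_nonneg_right _ hNr.le
            exact mul_le_mul_of_nonneg_left h3 (by norm_num)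
      _ = 12 * (120 * (Rr : ℝ) ^ 5) / l * N := by ring
  have t2 : 2 * (N : ℝ) ^ (0.9995 : ℝ) * l ^ 3 ≤ 2 * (120 * 2000 ^ 5) / l * N := by
    have h1 : (N : ℝ) ^ (0.9995 : ℝ) = N * Real.exp (-((1 / 2000) * l)) := by
      rw [Real.rpow_def_of_pos hNr, ← hl]
      have h2 : (N : ℝ) * Real.exp (-((1 / 2000) * l)) = Real.exp l * Real.exp (-((1 / 2000) * l)) := by
        rw [← hNexp]
      rw [h2, ← Real.exp_add]
      congr 1
      norm_num
      ring
    have h3 := exp_bd (a := 1 / 2000) (by norm_num) hlpos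
    have h4 : (120 : ℝ) / ((1 / 2000) ^ 5 * l) = 120 * 2000 ^ 5 / l := by field_simp
    rw [h4] at h3
    calc 2 * (N : ℝ) ^ (0.9995 : ℝ) * l ^ 3 ≤ 2 * (N * Real.exp (-((1 / 2000) * l))) * l ^ 4 := by
          rw [h1]
          exact mul_le_mul_of_nonneg_left hl34 (by positivity)
      _ = 2 * (Real.exp (-((1 / 2000) * l)) * l ^ 4) * N := by ring
      _ ≤ 2 * (120 * 2000 ^ 5 / l) * N := by
          apply mul_le_mul_of_nonneg_right _ hNr.le
          exact mul_le_mul_of_nonneg_left h3 (by norm_num)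
      _ = 2 * (120 * 2000 ^ 5) / l * N := by ring
  have t3 : 2 * l ^ 3 ≤ 2 * 120 / l * N := by
    have h3 := exp_bd (a := 1) (by norm_num) hlpos
    have h4 : (120 : ℝ) / (1 ^ 5 * l) = 120 / l := by norm_num
    rw [h4, one_mul, Real.exp_neg, ← hNexp, inv_mul_eq_div, div_le_iff₀ hNr] at h3
    calc 2 * l ^ 3 ≤ 2 * l ^ 4 := by linarith
      _ ≤ 2 * (120 / l * N) := by linarith
      _ = 2 * 120 / l * N := by ring
  rw [le_div_iff₀ hl3]
  have hsum : (N * (4 + 2 * l) / 2 ^ EE n i0 N + 2 * (N : ℝ) ^ (0.9995 : ℝ) + 2) * l ^ 3 ≤ K / l * N := by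
    have e : K / l * N = 12 * (120 * (Rr : ℝ) ^ 5) / l * N + 2 * (120 * 2000 ^ 5) / l * N + 2 * 120 / l * N := by
      rw [hK]
      ring
    rw [e]
    have e2 : (N * (4 + 2 * l) / 2 ^ EE n i0 N + 2 * (N : ℝ) ^ (0.9995 : ℝ) + 2) * l ^ 3 =
      N * (4 + 2 * l) / 2 ^ EE n i0 N * l ^ 3 + 2 * (N : ℝ) ^ (0.9995 : ℝ) * l ^ 3 + 2 * l ^ 3 := by ring
    rw [e2]
    linarith
  refine hsum.trans ?_
  apply mul_le_mul_of_nonneg_right _ hNr.le
  rw [div_le_iff₀ hlpos]
  rw [div_le_iff₀ hC] at hlK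
  linarith

end Pool.Agent.PTW
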