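import Pool.Agent.PTW.B
import Pool.Agent.PTW.H3d
import Pool.Agent.PTW.H4
import Pool.Agent.PTW.I3

set_option autoImplicit false

namespace Pool.Agent.PTW

open Finset Filter

theorem BH.Gs_eq_GW {n i0 iz iu N : ℕ} (hn : 1 ≤ n) (hN : 1 < N) (wb : ℕ → ℝ) (s : ℕ) :
    BH.Gs N (EE n i0 N) iz (cell n N) (fun i => if i ≤ iu then wb i else 0) (PP n i0 iu N) s = GW n i0 iz iu N wb s := by
  unfold BH.Gs GW
  split_ifs with h1
  · congr 1
    refine Finset.sum_congr rfl fun p hp => ?_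
    have h2 := ((mem_PP hn hN).1 (mem_filter.1 hp).1).2.2.2.2
    exact if_pos h2
  · rfl

/-- [PTW-H] the lower bound for the weighted sum, with the parameters -/
theorem Hfin : ∃ δ : ℕ → ℝ, (∀ b, 0 ≤ δ b) ∧ Tendsto (fun b : ℕ => (b : ℝ) ^ 4 * δ b) atTop (nhds 0) ∧
    ∀ R j b : ℕ, 1 ≤ j → 200000 * (4 * b + 6) ≤ R → ∃ C : ℝ, 0 < C ∧
      ∀ (wb : ℕ → ℝ), (∀ i, i ≤ 17991 * R * j → 0 ≤ wb i ∧ wb i ≤ 2) → ∀ N : ℕ, 2 ≤ N → ∀ M₁ M₂ : ℝ,
        M₁ = MT (cell (18000 * R * j) N) (g N) false (19485 * (R * j))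
              ((PP (18000 * R * j) (18000 * j) (17991 * R * j) N).filter (fun p => cell (18000 * R * j) N p ≤ 4330 * (R * j))) -
            ∑ p ∈ (PP (18000 * R * j) (18000 * j) (17991 * R * j) N).filter
                (fun p => 4330 * (R * j) < cell (18000 * R * j) N p ∧ cell (18000 * R * j) N p ≤ 17991 * (R * j)),
              wb (cell (18000 * R * j) N p) * g N p *
                MT (cell (18000 * R * j) N) (g N) true (19485 * (R * j) - cell (18000 * R * j) N p)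
                  ((PP (18000 * R * j) (18000 * j) (17991 * R * j) N).filter (fun p => cell (18000 * R * j) N p ≤ 4330 * (R * j))) →
        M₂ = MT (cell (18000 * R * j) N) (g N) true (19485 * (R * j))
              ((PP (18000 * R * j) (18000 * j) (17991 * R * j) N).filter (fun p => cell (18000 * R * j) N p ≤ 4330 * (R * j))) →
        N * (∏ p ∈ SP (EE (18000 * R * j) (18000 * j) N), (1 - g N p)) * (M₁ - δ b * (|M₁| + 2 * |M₂|)) -
            C * (N : ℝ) ^ (1 - (1 : ℝ) / 200000) ≤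
          ∑ s ∈ Icc 1 N, GW (18000 * R * j) (18000 * j) (4330 * R * j) (17991 * R * j) N wb s := by
  obtain ⟨δ, hδ0, hδ, hW⟩ := FLW
  refine ⟨δ, hδ0, hδ, fun R j b hj hR => ?_⟩
  obtain ⟨C, hC, hmain⟩ := BH.W_ge (1 / 10000) (by norm_num) (by norm_num) (17991 * R * j) (1494 * R * j) (4330 * R * j)
    (by nlinarith [Nat.zero_le (R * j)])
  refine ⟨C, hC, fun wb hwb N hN M₁ M₂ hM₁ hM₂ => ?_⟩
  have hs := BH.sys_params R j b N hj hR hN
  have hD := BH.D_le R j b N hj hR hN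
  have hR1 : 1 ≤ R := by omega
  have hn1 : 1 ≤ 18000 * R * j := Nat.mul_pos (Nat.mul_pos (by norm_num) hR1) hj
  have e1 : 19485 * R * j = 19485 * (R * j) := by ring
  have e2 : 4330 * R * j = 4330 * (R * j) := by ring
  have e3 : 17991 * R * j = 17991 * (R * j) := by ring
  set n := 18000 * R * j with hn
  set i0 := 18000 * j with hi0
  set iu := 17991 * R * j with hiu
  obtain ⟨xp, xm, a1, a2, a3, a4, a5⟩ := hW b (EE n i0 N)
  have hw : BH.Wts (δ b) (EE n i0 N) (2 ^ (EE n i0 N * (4 * b + 6))) xp xm := by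
    refine ⟨a1, a2, ?_, ?_, fun m hm => (a4 m hm).1, fun m hm => (a4 m hm).2, fun φ hφ => (a5 φ hφ).1, fun φ hφ => (a5 φ hφ).2⟩
    · intro e he
      exact a3 e (Or.inl he)
    · intro e he
      exact a3 e (Or.inr he)
  have hcell : ∀ p ∈ PP n i0 iu N, cell n N p ≤ iu := fun p hp => ((mem_PP hn1 (by omega)).1 hp).2.2.2.2
  have hP : ∀ p ∈ PP n i0 iu N, cell n N p ≤ iu ∧ 2 ^ EE n i0 N < p := by
    intro p hp
    rw [mem_PP hn1 (by omega)] at hp
    exact ⟨hp.2.2.2.2, hp.2.2.2.1⟩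
  have hwb' : ∀ i, 0 ≤ (if i ≤ iu then wb i else 0) ∧ (if i ≤ iu then wb i else 0) ≤ 2 := by
    intro i
    split_ifs with h
    · exact hwb i h
    · norm_num
  have h1 := hmain N (EE n i0 N) (2 ^ (EE n i0 N * (4 * b + 6))) (δ b) _ (cell n N) (PP n i0 iu N)
    (fun i => if i ≤ iu then wb i else 0) xp xm hs hwb' hP hw (hδ0 b)
  have hl : iu + 1494 * R * j = 19485 * R * j := by rw [hiu]; ring
  rw [hl] at h1
  have hM1 : BH.M1 N (19485 * R * j) (4330 * R * j) (cell n N) (fun i => if i ≤ iu then wb i else 0) (PP n i0 iu N) = M₁ := by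
    rw [hM₁]
    unfold BH.M1
    rw [e1, e2]
    congr 1
    have hf : (PP n i0 iu N).filter (fun p => 4330 * (R * j) < cell n N p) =
        (PP n i0 iu N).filter (fun p => 4330 * (R * j) < cell n N p ∧ cell n N p ≤ 17991 * (R * j)) := by
      apply Finset.filter_congr
      intro p hp
      have := hcell p hp
      rw [e3] at this
      exact ⟨fun h => ⟨h, this⟩, fun h => h.1⟩
    rw [hf]
    refine Finset.sum_congr rfl fun p hp => ?_
    have h3 := hcell p (mem_filter.1 hp).1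
    have h4 : (fun i => if i ≤ iu then wb i else 0) (cell n N p) = wb (cell n N p) := if_pos h3
    rw [h4]
    ring
  have hM2 : BH.M2 N (19485 * R * j) (4330 * R * j) (cell n N) (PP n i0 iu N) = M₂ := by
    rw [hM₂]
    unfold BH.M2
    rw [e1, e2]
  rw [hM1, hM2] at h1
  have hG : ∑ s ∈ Icc 1 N, BH.Gs N (EE n i0 N) (4330 * R * j) (cell n N) (fun i => if i ≤ iu then wb i else 0) (PP n i0 iu N) s =
      ∑ s ∈ Icc 1 N, GW n i0 (4330 * R * j) iu N wb s :=
    Finset.sum_congr rfl fun s _ => BH.Gs_eq_GW hn1 (by omega) wb s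
  rw [hG] at h1
  refine le_trans ?_ h1
  have hN0 : (0 : ℝ) < N := by exact_mod_cast (by omega : 0 < N)
  have h2 : C * ((2 ^ (EE n i0 N * (4 * b + 6)) : ℕ) : ℝ) * (N : ℝ) ^ (1 - (1 : ℝ) / 10000 / 10) ≤ C * (N : ℝ) ^ (1 - (1 : ℝ) / 200000) := by
    rw [mul_assoc]
    refine mul_le_mul_of_nonneg_left ?_ hC.le
    calc ((2 ^ (EE n i0 N * (4 * b + 6)) : ℕ) : ℝ) * (N : ℝ) ^ (1 - (1 : ℝ) / 10000 / 10)
        ≤ (N : ℝ) ^ ((1 : ℝ) / 200000) * (N : ℝ) ^ (1 - (1 : ℝ) / 10000 / 10) := mul_le_mul_of_nonneg_right hD (by positivity)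
      _ = (N : ℝ) ^ (1 - (1 : ℝ) / 200000) := by
          rw [← Real.rpow_add hN0]
          norm_num
  linarith

end Pool.Agent.PTW
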