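import Pool.Agent.PTW.Defs

set_option autoImplicit false

namespace Pool.Agent.PTW.BH

open Finset

/-- [PTW-H0a] the count with an additional squarefree factor `e`.
Proof. `G = gcd e N`, `e = G e'`, `N = G N'` (`e ≠ 0`, so `G ≥ 1`). `e`, `d` are coprime, so `e * d ∣ x ↔ e ∣ x ∧ d ∣ x`. If `e * d ∣ N ^ 2 + s ^ 2` then `G ∣ s ^ 2`, so `G ∣ s` (`G` is squarefree:
`Squarefree.dvd_pow_iff_dvd` or `Squarefree.dvd_of_squarefree_of_mul_dvd_mul_..`). With `s = G s'`: `N ^ 2 + s ^ 2 = G ^ 2 (N' ^ 2 + s' ^ 2)` and `G e' d ∣ G ^ 2 x ↔ e' d ∣ G x ↔ e' d ∣ x`, since `G` is coprime to `e'` (squarefree `G e'`) and to `d`.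
So `s' ↦ G s'` is a bijection from `{s' ∈ [1, N'] : e' d ∣ N' ^ 2 + s' ^ 2}` to `{s ∈ [1, N] : e d ∣ N ^ 2 + s ^ 2}` (`Finset.card_nbij'` with inverse `s ↦ s / G`). `N = 0` is trivial. -/
theorem cA_mul (N e d : ℕ) (he : Squarefree e) (hed : Nat.Coprime e d) :
    cA N (e * d) = cA (N / Nat.gcd e N) (e / Nat.gcd e N * d) := by
  obtain ⟨G, hG⟩ : ∃ G, G = Nat.gcd e N := ⟨_, rfl⟩
  have he0 : 0 < e := Nat.pos_of_ne_zero he.ne_zero
  have hG0 : 0 < G := hG ▸ Nat.gcd_pos_of_pos_left N he0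
  obtain ⟨e', he'⟩ : G ∣ e := hG ▸ Nat.gcd_dvd_left e N
  obtain ⟨N', hN'⟩ : G ∣ N := hG ▸ Nat.gcd_dvd_right e N
  rw [← hG]
  have h1 : N / G = N' := by rw [hN', Nat.mul_div_cancel_left _ hG0]
  have h2 : e / G = e' := by rw [he', Nat.mul_div_cancel_left _ hG0]
  rw [h1, h2]
  have hGsq : Squarefree G := he.squarefree_of_dvd ⟨e', he'⟩
  have hcop1 : Nat.Coprime G e' := by
    have h := he
    rw [he'] at h
    exact Nat.coprime_of_squarefree_mul h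
  have hcop2 : Nat.Coprime G d := Nat.Coprime.coprime_dvd_left ⟨e', he'⟩ hed
  have hkey : ∀ s', e * d ∣ N ^ 2 + (G * s') ^ 2 ↔ e' * d ∣ N' ^ 2 + s' ^ 2 := by
    intro s'
    have h3 : N ^ 2 + (G * s') ^ 2 = G * (G * (N' ^ 2 + s' ^ 2)) := by
      rw [hN']
      ring
    rw [h3, he', mul_assoc, Nat.mul_dvd_mul_iff_left hG0]
    have h4 : Nat.Coprime (e' * d) G := (Nat.Coprime.mul_right hcop1 hcop2).symm
    exact h4.dvd_mul_left
  have hdvd : ∀ s, e * d ∣ N ^ 2 + s ^ 2 → G ∣ s := by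
    intro s hs
    have h3 : G ∣ N ^ 2 + s ^ 2 := ((Dvd.intro e' he'.symm).trans (dvd_mul_right e d)).trans hs
    have h4 : G ∣ N ^ 2 := (Dvd.intro N' hN'.symm).trans (dvd_pow_self N two_ne_zero)
    have h5 : G ∣ s ^ 2 := (Nat.dvd_add_right h4).1 h3
    exact (hGsq.dvd_pow_iff_dvd two_ne_zero).1 h5
  unfold cA
  refine Finset.card_nbij' (fun s => s / G) (fun s' => G * s') ?_ ?_ ?_ ?_
  · intro s hs
    rw [mem_coe, mem_filter, mem_Icc] at hs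
    obtain ⟨⟨hs1, hs2⟩, hs3⟩ := hs
    obtain ⟨s', rfl⟩ := hdvd s hs3
    rw [mem_coe, mem_filter, mem_Icc]
    beta_reduce
    rw [Nat.mul_div_cancel_left _ hG0]
    refine ⟨⟨?_, ?_⟩, (hkey s').1 hs3⟩
    · rcases Nat.eq_zero_or_pos s' with h | h
      · rw [h, mul_zero] at hs1
        omega
      · exact h
    · rw [hN'] at hs2
      exact Nat.le_of_mul_le_mul_left hs2 hG0
  · intro s' hs
    rw [mem_coe, mem_filter, mem_Icc] at hs
    obtain ⟨⟨hs1, hs2⟩, hs3⟩ := hs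
    rw [mem_coe, mem_filter, mem_Icc]
    refine ⟨⟨Nat.mul_pos hG0 hs1, ?_⟩, (hkey s').2 hs3⟩
    rw [hN']
    exact Nat.mul_le_mul_left G hs2
  · intro s hs
    rw [mem_coe, mem_filter] at hs
    exact Nat.mul_div_cancel' (hdvd s hs.2)
  · intro s' _
    exact Nat.mul_div_cancel_left _ hG0

end Pool.Agent.PTW.BH
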