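import Pool.Agent.PTW.Defs

set_option autoImplicit false

namespace Pool.Agent.PTW.BH

open Finset

/-- [PTW-H0b1] Proof. `p ∣ N ^ 2 + s ^ 2 ↔ p ∣ s` and the only multiple of `p` in `range p` is `0`. -/
theorem g_dvd {N p : ℕ} (hp : p.Prime) (h : p ∣ N) : g N p = 1 / p := by
  have h1 : (range p).filter (fun s => p ∣ N ^ 2 + s ^ 2) = {0} := by
    ext s
    rw [mem_filter, mem_range, mem_singleton]
    have h2 : p ∣ N ^ 2 := h.trans (dvd_pow_self N two_ne_zero)
    constructor
    · rintro ⟨hs, hd⟩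
      have h3 : p ∣ s ^ 2 := (Nat.dvd_add_right h2).1 hd
      have h4 : p ∣ s := hp.dvd_of_dvd_pow h3
      exact Nat.eq_zero_of_dvd_of_lt h4 hs
    · rintro rfl
      exact ⟨hp.pos, by simpa using h2⟩
  unfold g
  rw [h1, card_singleton, Nat.cast_one]

theorem H0b_cong {p : ℕ} (a b : ℕ) (h : a ≡ b [MOD p]) : p ∣ a ↔ p ∣ b := h.dvd_iff (dvd_refl p)

/-- [PTW-H0b2] Proof. `N` is invertible mod `p`: `s ↦ s * N⁻¹` mod `p` is a bijection of `{s < p : p ∣ N ^ 2 + s ^ 2}` and `roots p` (inverse `v ↦ N v` mod `p`). -/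
theorem g_not_dvd {N p : ℕ} (hp : p.Prime) (h : ¬ p ∣ N) : g N p = rho p / p := by
  have hcop : Nat.Coprime N p := ((Nat.Prime.coprime_iff_not_dvd hp).2 h).symm
  obtain ⟨M, hM⟩ := Nat.exists_mul_mod_eq_one_of_coprime hcop hp.one_lt
  have hM1 : N * M ≡ 1 [MOD p] := by
    unfold Nat.ModEq
    rw [hM.2, Nat.mod_eq_of_lt hp.one_lt]
  have hcard : ((range p).filter (fun s => p ∣ N ^ 2 + s ^ 2)).card = (roots p).card := by
    unfold roots
    refine Finset.card_nbij' (fun s => M * s % p) (fun v => N * v % p) ?_ ?_ ?_ ?_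
    · intro s hs
      rw [mem_coe, mem_filter, mem_range] at hs
      rw [mem_coe, mem_filter, mem_range]
      refine ⟨Nat.mod_lt _ hp.pos, ?_⟩
      have e1 : (M * s % p) ^ 2 + 1 ≡ (M * s) ^ 2 + (N * M) ^ 2 [MOD p] := by
        refine Nat.ModEq.add ((Nat.mod_modEq _ _).pow 2) ?_
        simpa using (hM1.pow 2).symm
      rw [H0b_cong _ _ e1]
      have e2 : (M * s) ^ 2 + (N * M) ^ 2 = M ^ 2 * (N ^ 2 + s ^ 2) := by ring
      rw [e2]
      exact hs.2.mul_left _
    · intro v hv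
      rw [mem_coe, mem_filter, mem_range] at hv
      rw [mem_coe, mem_filter, mem_range]
      refine ⟨Nat.mod_lt _ hp.pos, ?_⟩
      have e1 : N ^ 2 + (N * v % p) ^ 2 ≡ N ^ 2 + (N * v) ^ 2 [MOD p] :=
        Nat.ModEq.add_left _ ((Nat.mod_modEq _ _).pow 2)
      rw [H0b_cong _ _ e1]
      have e2 : N ^ 2 + (N * v) ^ 2 = N ^ 2 * (v ^ 2 + 1) := by ring
      rw [e2]
      exact hv.2.mul_left _
    · intro s hs
      rw [mem_coe, mem_filter, mem_range] at hs
      have e1 : N * (M * s % p) ≡ s [MOD p] := by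
        calc N * (M * s % p) ≡ N * (M * s) [MOD p] := (Nat.mod_modEq _ _).mul_left _
          _ = (N * M) * s := by ring
          _ ≡ 1 * s [MOD p] := hM1.mul_right _
          _ = s := one_mul s
      have e2 : N * (M * s % p) % p = s % p := e1
      change N * (M * s % p) % p = s
      rw [e2, Nat.mod_eq_of_lt hs.1]
    · intro v hv
      rw [mem_coe, mem_filter, mem_range] at hv
      have e1 : M * (N * v % p) ≡ v [MOD p] := by
        calc M * (N * v % p) ≡ M * (N * v) [MOD p] := (Nat.mod_modEq _ _).mul_left _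
          _ = (N * M) * v := by ring
          _ ≡ 1 * v [MOD p] := hM1.mul_right _
          _ = v := one_mul v
      have e2 : M * (N * v % p) % p = v % p := e1
      change M * (N * v % p) % p = v
      rw [e2, Nat.mod_eq_of_lt hv.1]
  unfold g rho
  rw [hcard]

/-- [PTW-H0b3] Proof. Chinese remainder: `roots (a * b) ≃ roots a × roots b` by `v ↦ (v % a, v % b)` (`Nat.chineseRemainder`). Both positive: if `a = 0` then `b = 1` (coprime), `roots 0 = ∅` (range 0), fine. -/
theorem rho_mul {a b : ℕ} (h : Nat.Coprime a b) : rho (a * b) = rho a * rho b := by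
  have h00 : rho 0 = 0 := by decide
  rcases Nat.eq_zero_or_pos a with ha | ha
  · subst ha
    rw [zero_mul, h00, zero_mul]
  rcases Nat.eq_zero_or_pos b with hb | hb
  · subst hb
    rw [mul_zero, h00, mul_zero]
  unfold rho
  rw [← Finset.card_product]
  have hmem : ∀ (c v w : ℕ), 0 < c → v ≡ w [MOD c] → (c ∣ v ^ 2 + 1 ↔ c ∣ w ^ 2 + 1) := by
    intro c v w _ hvw
    exact H0b_cong _ _ ((hvw.pow 2).add_right 1)
  refine Finset.card_nbij' (fun v => (v % a, v % b)) (fun x => (Nat.chineseRemainder h x.1 x.2 : ℕ)) ?_ ?_ ?_ ?_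
  · intro v hv
    rw [mem_coe] at hv
    unfold roots at hv
    rw [mem_filter, mem_range] at hv
    rw [mem_coe, mem_product]
    unfold roots
    rw [mem_filter, mem_range, mem_filter, mem_range]
    refine ⟨⟨Nat.mod_lt _ ha, ?_⟩, ⟨Nat.mod_lt _ hb, ?_⟩⟩
    · exact (hmem a _ _ ha (Nat.mod_modEq v a)).2 ((Dvd.intro _ rfl).trans hv.2)
    · exact (hmem b _ _ hb (Nat.mod_modEq v b)).2 ((Dvd.intro_left _ rfl).trans hv.2)
  · rintro ⟨v, w⟩ hv
    rw [mem_coe, mem_product] at hv
    unfold roots at hv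
    rw [mem_filter, mem_range, mem_filter, mem_range] at hv
    rw [mem_coe]
    unfold roots
    rw [mem_filter, mem_range]
    obtain ⟨⟨h1, h2⟩, ⟨h3, h4⟩⟩ := hv
    have hx := (Nat.chineseRemainder h v w).2
    refine ⟨Nat.chineseRemainder_lt_mul h v w ha.ne' hb.ne', ?_⟩
    refine Nat.Coprime.mul_dvd_of_dvd_of_dvd h ?_ ?_
    · exact (hmem a _ _ ha hx.1).2 h2
    · exact (hmem b _ _ hb hx.2).2 h4
  · intro v hv
    rw [mem_coe] at hv
    unfold roots at hv
    rw [mem_filter, mem_range] at hv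
    have hx := (Nat.chineseRemainder h (v % a) (v % b)).2
    have hlt := Nat.chineseRemainder_lt_mul h (v % a) (v % b) ha.ne' hb.ne'
    refine Nat.ModEq.eq_of_lt_of_lt ?_ hlt hv.1
    exact (Nat.modEq_and_modEq_iff_modEq_mul h).1
      ⟨hx.1.trans (Nat.mod_modEq v a), hx.2.trans (Nat.mod_modEq v b)⟩
  · rintro ⟨v, w⟩ hv
    rw [mem_coe, mem_product] at hv
    unfold roots at hv
    rw [mem_filter, mem_range, mem_filter, mem_range] at hv
    obtain ⟨⟨h1, h2⟩, ⟨h3, h4⟩⟩ := hv
    have hx := (Nat.chineseRemainder h v w).2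
    have e1 : (Nat.chineseRemainder h v w : ℕ) % a = v := by
      have : (Nat.chineseRemainder h v w : ℕ) % a = v % a := hx.1
      rw [this, Nat.mod_eq_of_lt h1]
    have e2 : (Nat.chineseRemainder h v w : ℕ) % b = w := by
      have : (Nat.chineseRemainder h v w : ℕ) % b = w % b := hx.2
      rw [this, Nat.mod_eq_of_lt h3]
    exact Prod.ext e1 e2

theorem rho_one : rho 1 = 1 := by
  decide

/-- [PTW-H0b4] Proof. If `p ∣ v ^ 2 + 1`, `p ∣ w ^ 2 + 1` then `p ∣ (v - w) (v + w)`, so at most `2` values mod `p`; existence of a root for `p % 4 = 1` (`ZMod.exists_sq_eq_neg_one_iff` or `Nat.Prime.sq_add_sq`), `v ≠ p - v`. -/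
theorem rho_prime_le {p : ℕ} (hp : p.Prime) : rho p ≤ 2 := by
  unfold rho
  rcases (roots p).eq_empty_or_nonempty with h | ⟨v0, h0⟩
  · rw [h]
    exact Nat.zero_le _
  · have hsub : roots p ⊆ {v0, p - v0} := by
      intro v hv
      unfold roots at hv h0
      rw [Finset.mem_filter, Finset.mem_range] at hv h0
      rw [Finset.mem_insert, Finset.mem_singleton]
      have h1 : (p : ℤ) ∣ ((v : ℤ) - v0) * (v + v0) := by
        have a1 : (p : ℤ) ∣ (v : ℤ) ^ 2 + 1 := by exact_mod_cast hv.2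
        have a2 : (p : ℤ) ∣ (v0 : ℤ) ^ 2 + 1 := by exact_mod_cast h0.2
        have e : ((v : ℤ) - v0) * (v + v0) = ((v : ℤ) ^ 2 + 1) - ((v0 : ℤ) ^ 2 + 1) := by ring
        rw [e]
        exact dvd_sub a1 a2
      rcases (Nat.prime_iff_prime_int.1 hp).dvd_or_dvd h1 with h2 | h2
      · left
        have h3 : (v0 : ℤ) ≡ v [ZMOD p] := (Int.modEq_iff_dvd).2 h2
        exact (Nat.ModEq.eq_of_lt_of_lt ((Int.natCast_modEq_iff).1 h3) h0.1 hv.1).symm
      · have h3 : p ∣ v + v0 := by exact_mod_cast h2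
        obtain ⟨c, hc⟩ := h3
        have hc2 : c < 2 := by
          by_contra hcon
          push Not at hcon
          have : p * 2 ≤ p * c := Nat.mul_le_mul_left p hcon
          omega
        interval_cases c
        · left; omega
        · right; omega
    exact (Finset.card_le_card hsub).trans Finset.card_le_two

theorem rho_four {p : ℕ} (hp : p.Prime) (h4 : p % 4 = 1) : rho p = 2 := by
  apply le_antisymm (rho_prime_le hp)
  have : Fact p.Prime := ⟨hp⟩
  obtain ⟨y, hy⟩ : IsSquare (-1 : ZMod p) := ZMod.exists_sq_eq_neg_one_iff.2 (by omega)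
  have hv0 : p ∣ y.val ^ 2 + 1 := by
    rw [← ZMod.natCast_eq_zero_iff]
    push_cast
    rw [ZMod.natCast_zmod_val, sq, ← hy]
    ring
  have hlt : y.val < p := ZMod.val_lt y
  have hpos : 0 < y.val := by
    rcases Nat.eq_zero_or_pos y.val with h | h
    · rw [h] at hv0
      have : p ∣ 1 := by simpa using hv0
      exact absurd (Nat.dvd_one.1 this) hp.one_lt.ne'
    · exact h
  have hv1 : p ∣ (p - y.val) ^ 2 + 1 := by
    have e1 : ((p - y.val : ℕ) : ℤ) = (p : ℤ) - y.val := by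
      rw [Nat.cast_sub hlt.le]
    have e2 : (p : ℤ) ∣ ((p - y.val : ℕ) : ℤ) ^ 2 + 1 := by
      rw [e1]
      have a1 : (p : ℤ) ∣ (y.val : ℤ) ^ 2 + 1 := by exact_mod_cast hv0
      have e : ((p : ℤ) - y.val) ^ 2 + 1 = (p : ℤ) * (p - 2 * y.val) + ((y.val : ℤ) ^ 2 + 1) := by ring
      rw [e]
      exact dvd_add (Dvd.intro _ rfl) a1
    exact_mod_cast e2
  have hne : y.val ≠ p - y.val := by
    intro h
    omega
  have hsub : ({y.val, p - y.val} : Finset ℕ) ⊆ roots p := by
    intro v hv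
    rw [mem_insert, mem_singleton] at hv
    unfold roots
    rw [mem_filter, mem_range]
    rcases hv with rfl | rfl
    · exact ⟨hlt, hv0⟩
    · exact ⟨by omega, hv1⟩
  have := Finset.card_le_card hsub
  rw [Finset.card_pair hne] at this
  exact this

/-- [PTW-H0b5] Proof. `rho_prime_le`; `p = 2`: `rho 2 = 1` (decide) so `g = 1/2` in both cases; `p = 3`: `rho 3 = 0`; `p ≥ 5`: `2 / p ≤ 1/2`. -/
theorem g_bounds {p : ℕ} (hp : p.Prime) (N : ℕ) : 0 ≤ g N p ∧ g N p ≤ 2 / p ∧ g N p ≤ 1 / 2 := by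
  have hp2 : (2 : ℝ) ≤ p := by exact_mod_cast hp.two_le
  have hp0 : (0 : ℝ) < p := by linarith
  by_cases h : p ∣ N
  · rw [g_dvd hp h]
    refine ⟨by positivity, ?_, ?_⟩
    · exact div_le_div_of_nonneg_right (by norm_num) hp0.le
    · exact div_le_div_of_nonneg_left (by norm_num) (by norm_num) hp2
  · rw [g_not_dvd hp h]
    have h1 : (rho p : ℝ) ≤ 2 := by exact_mod_cast rho_prime_le hp
    refine ⟨by positivity, div_le_div_of_nonneg_right h1 hp0.le, ?_⟩
    by_cases h5 : 4 ≤ p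
    · have h6 : (4 : ℝ) ≤ p := by exact_mod_cast h5
      rw [div_le_div_iff₀ hp0 (by norm_num)]
      linarith
    · have h7 : p < 4 := by omega
      have h8 := hp.two_le
      interval_cases p
      · have : rho 2 = 1 := by decide
        rw [this]
        norm_num
      · have : rho 3 = 0 := by decide
        rw [this]
        norm_num

/-- [PTW-H0b6] Proof. `rho_mul` by induction on the set, `g_not_dvd`. -/
theorem prod_g (N : ℕ) (T : Finset ℕ) (hT : ∀ p ∈ T, p.Prime ∧ ¬ p ∣ N) :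
    ∏ p ∈ T, g N p = (rho (∏ p ∈ T, p) : ℝ) / ((∏ p ∈ T, p : ℕ) : ℝ) := by
  classical
  induction T using Finset.induction_on with
  | empty => simp [rho_one]
  | insert q T hq ih =>
    have hT' : ∀ p ∈ T, p.Prime ∧ ¬ p ∣ N := fun p hp => hT p (mem_insert_of_mem hp)
    have hqp := hT q (mem_insert_self q T)
    rw [prod_insert hq, prod_insert hq, ih hT', g_not_dvd hqp.1 hqp.2]
    have hcop : Nat.Coprime q (∏ p ∈ T, p) := by
      apply Nat.Coprime.prod_right
      intro p hp
      rw [Nat.coprime_primes hqp.1 (hT' p hp).1]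
      rintro rfl
      exact hq hp
    rw [rho_mul hcop]
    push_cast
    ring

/-- [PTW-H0b7] Proof. `e = G e'`, `G = gcd e N`, coprime; the primes of `G` divide `N` (`g = 1/p`), those of `e'` do not (`p ∣ e'`, `p ∣ N` gives `p ∣ G`, contradiction to squarefree): `∏_{p ∣ G} 1/p = 1/G` (`Nat.prod_primeFactors_of_squarefree`), `prod_g` for
`e'.primeFactors`; `Nat.primeFactors_mul` for coprime numbers (`Nat.Coprime.primeFactors_mul`). -/
theorem gg_eq (N e : ℕ) (he : Squarefree e) : gg N e = (rho (e / Nat.gcd e N) : ℝ) / e := by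
  classical
  have he0 : 0 < e := Nat.pos_of_ne_zero he.ne_zero
  obtain ⟨G, hG⟩ : ∃ G, G = Nat.gcd e N := ⟨_, rfl⟩
  have hG0 : 0 < G := hG ▸ Nat.gcd_pos_of_pos_left N he0
  obtain ⟨e', he'⟩ : G ∣ e := hG ▸ Nat.gcd_dvd_left e N
  have hGN : G ∣ N := hG ▸ Nat.gcd_dvd_right e N
  have h2 : e / G = e' := by rw [he', Nat.mul_div_cancel_left _ hG0]
  rw [← hG, h2]
  have hcop : Nat.Coprime G e' := by
    have h := he
    rw [he'] at h
    exact Nat.coprime_of_squarefree_mul h
  have hGsq : Squarefree G := he.squarefree_of_dvd ⟨e', he'⟩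
  have he'sq : Squarefree e' := he.squarefree_of_dvd ⟨G, by rw [he', mul_comm]⟩
  have hpr : e.primeFactors = G.primeFactors ∪ e'.primeFactors := by
    rw [he', hcop.primeFactors_mul]
  unfold gg
  rw [hpr, Finset.prod_union hcop.disjoint_primeFactors]
  have p1 : ∏ p ∈ G.primeFactors, g N p = 1 / (G : ℝ) := by
    have e1 : ∏ p ∈ G.primeFactors, g N p = ∏ p ∈ G.primeFactors, (1 / (p : ℝ)) := by
      apply Finset.prod_congr rfl
      intro p hp
      rw [g_dvd (Nat.prime_of_mem_primeFactors hp) ((Nat.dvd_of_mem_primeFactors hp).trans hGN)]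
    rw [e1, Finset.prod_div_distrib, Finset.prod_const_one]
    congr 1
    have := Nat.prod_primeFactors_of_squarefree hGsq
    conv_rhs => rw [← this]
    push_cast
    rfl
  have p2 : ∏ p ∈ e'.primeFactors, g N p = (rho e' : ℝ) / (e' : ℝ) := by
    have := prod_g N e'.primeFactors (by
      intro p hp
      refine ⟨Nat.prime_of_mem_primeFactors hp, ?_⟩
      intro hpN
      have hpe' : p ∣ e' := Nat.dvd_of_mem_primeFactors hp
      have hpG : p ∣ G := by
        rw [hG]
        exact Nat.dvd_gcd (hpe'.trans ⟨G, by rw [he', mul_comm]⟩) hpN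
      have hp1 : p ∣ Nat.gcd G e' := Nat.dvd_gcd hpG hpe'
      rw [hcop] at hp1
      exact absurd (Nat.dvd_one.1 hp1) (Nat.prime_of_mem_primeFactors hp).one_lt.ne')
    rw [Nat.prod_primeFactors_of_squarefree he'sq] at this
    exact this
  rw [p1, p2]
  have : (e : ℝ) = G * e' := by
    rw [he']
    push_cast
    ring
  rw [this]
  have hGR : (G : ℝ) ≠ 0 := by exact_mod_cast hG0.ne'
  have heR : (e' : ℝ) ≠ 0 := by
    intro h
    have h3 : (e : ℝ) = 0 := by rw [this, h, mul_zero]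
    have : (e : ℝ) ≠ 0 := by exact_mod_cast he0.ne'
    exact this h3
  field_simp

end Pool.Agent.PTW.BH
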