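import Pool.Agent.PTW.A10c
import Pool.Agent.PTW.H0a
import Pool.Agent.PTW.H0b

set_option autoImplicit false

namespace Pool.Agent.PTW.BH

open Finset

/-- reindexing of the sum over the multiples of `q` -/
theorem H0_reindex (q M : ℕ) (hq : 1 ≤ q) (f : ℕ → ℝ) (hf : ∀ m, ¬ q ∣ m → f m = 0) :
    ∑ m' ∈ Icc 1 (q * M), f m' = ∑ m ∈ Icc 1 M, f (q * m) := by
  classical
  have hinj : Set.InjOn (fun m => q * m) (Icc 1 M : Finset ℕ) := by
    intro x _ y _ h
    exact Nat.eq_of_mul_eq_mul_left (by omega) h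
  rw [← Finset.sum_image (f := f) (g := fun m => q * m) hinj]
  symm
  apply Finset.sum_subset
  · intro x hx
    rw [mem_image] at hx
    obtain ⟨m, hm, rfl⟩ := hx
    rw [mem_Icc] at hm ⊢
    exact ⟨Nat.mul_pos (by omega) (by omega), Nat.mul_le_mul_left _ hm.2⟩
  · intro x hx hx'
    apply hf
    rintro ⟨c, rfl⟩
    apply hx'
    rw [mem_Icc] at hx
    rw [mem_image]
    refine ⟨c, ?_, rfl⟩
    rw [mem_Icc]
    constructor
    · rcases Nat.eq_zero_or_pos c with h | h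
      · subst h; simp at hx
      · exact h
    · exact Nat.le_of_mul_le_mul_left hx.2 (by omega)

/-- [PTW-H0] level of distribution with an additional factor `e`.
Proof. `G = gcd e N`, `e' = e / G`, `N' = N / G` (`1 ≤ N'`, `(N : ℝ) / e ≤ N'` because `G ≤ e`). Apply `LD ε` to `N'`, `M' = e' * M`, `K`, `a' m' = if e' ∣ m' then a (m' / e') else 0`, the same `β` (`M' ≤ e M ≤ (N / e) ^ (1 - ε) ≤ N' ^ (1 - ε)`). In the sum over `m'` only
the multiples `m' = e' m`, `m ∈ Icc 1 M` matter (reindex: `Finset.sum_nbij'` on the filter, or `Finset.sum_filter`/image of `m ↦ e' * m`). For `a m ≠ 0`, `β k ≠ 0`: `Coprime (e' m) k ↔ Coprime m k` (`k` is coprime to `e`) and `Coprime (e' m k) N'` holds (`e'` is coprime to `N`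
because `e` is squarefree; `m`, `k` are coprime to `N`), so the filters agree up to terms `0`. `cA N' (e' m k) = cA N (e (m k))` (`cA_mul`, `Coprime e (m k)`), `rho (e' m) = rho e' * rho m` (`rho_mul`, `e'` coprime to `m`), and
`rho e' rho m rho k N' / (e' m k) = N (rho e' / e) rho m rho k / (m k)` (`gg_eq`, `e = G e'`, `N = G N'`). `N' ^ (1 - ε/10) ≤ N ^ (1 - ε/10)`. -/
theorem LDe (ε : ℝ) (h0 : 0 < ε) (h1 : ε ≤ 1 / 100) : ∃ C : ℝ, 0 < C ∧ ∀ N M K e : ℕ, 1 ≤ N → Squarefree e → e ≤ N →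
    (e : ℝ) * M ≤ ((N : ℝ) / e) ^ (1 - ε) → (K : ℝ) ≤ ((N : ℝ) / e) ^ (1 / 12 - ε) →
    ∀ a β : ℕ → ℝ, (∀ m, |a m| ≤ 1) → (∀ k, |β k| ≤ 1) →
    (∀ m, a m ≠ 0 → Nat.Coprime m e ∧ Nat.Coprime m N) →
    (∀ k, β k ≠ 0 → Squarefree k ∧ Nat.Coprime k e ∧ Nat.Coprime k N) →
    |∑ m ∈ Icc 1 M, ∑ k ∈ (Icc 1 K).filter (fun k => Nat.Coprime m k),
        a m * β k * ((cA N (e * (m * k)) : ℝ) - N * gg N e * (rho m * rho k / (m * k)))| ≤ C * (N : ℝ) ^ (1 - ε / 10) := by
  classical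
  obtain ⟨C, hC, hLD⟩ := LD ε h0 h1
  refine ⟨C, hC, ?_⟩
  intro N M K e hN he heN hM hK a β ha hβ ham hβk
  have he0 : 0 < e := Nat.pos_of_ne_zero he.ne_zero
  obtain ⟨G, hG⟩ : ∃ G, G = Nat.gcd e N := ⟨_, rfl⟩
  have hG0 : 0 < G := by rw [hG]; exact Nat.gcd_pos_of_pos_left _ he0
  obtain ⟨e', he'⟩ : ∃ e', e' = e / Nat.gcd e N := ⟨_, rfl⟩
  obtain ⟨N', hN'⟩ : ∃ N', N' = N / Nat.gcd e N := ⟨_, rfl⟩
  have eG : G * e' = e := by rw [he', hG]; exact Nat.mul_div_cancel' (Nat.gcd_dvd_left e N)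
  have nG : G * N' = N := by rw [hN', hG]; exact Nat.mul_div_cancel' (Nat.gcd_dvd_right e N)
  have he'0 : 0 < e' := by
    rcases Nat.eq_zero_or_pos e' with h | h
    · rw [h, mul_zero] at eG; omega
    · exact h
  have hN'0 : 0 < N' := by
    rcases Nat.eq_zero_or_pos N' with h | h
    · rw [h, mul_zero] at nG; omega
    · exact h
  have hcop : Nat.Coprime e' N' := by
    rw [he', hN']
    exact Nat.coprime_div_gcd_div_gcd (by rw [← hG]; exact hG0)
  have he'e : e' ∣ e := ⟨G, by rw [mul_comm]; exact eG.symm⟩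
  have hN'N : N' ∣ N := ⟨G, by rw [mul_comm]; exact nG.symm⟩
  have hGR : (0 : ℝ) < G := by exact_mod_cast hG0
  have he'R : (1 : ℝ) ≤ e' := by exact_mod_cast he'0
  have heR : (0 : ℝ) < e := by exact_mod_cast he0
  have hN'R : (1 : ℝ) ≤ N' := by exact_mod_cast hN'0
  have eGR : (e : ℝ) = G * e' := by rw [← eG]; push_cast; ring
  have nGR : (N : ℝ) = G * N' := by rw [← nG]; push_cast; ring
  have hNe : (N : ℝ) / e ≤ N' := by
    rw [div_le_iff₀ heR, eGR, nGR]
    have : (G : ℝ) * N' * 1 ≤ G * N' * e' := mul_le_mul_of_nonneg_left he'R (by positivity)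
    linarith
  have hNe0 : (0 : ℝ) ≤ (N : ℝ) / e := by positivity
  have hM' : ((e' * M : ℕ) : ℝ) ≤ (N' : ℝ) ^ (1 - ε) := by
    have h2 : (e' : ℝ) ≤ e := by exact_mod_cast Nat.le_of_dvd he0 he'e
    calc ((e' * M : ℕ) : ℝ) = e' * M := by push_cast; ring
      _ ≤ e * M := mul_le_mul_of_nonneg_right h2 (Nat.cast_nonneg _)
      _ ≤ ((N : ℝ) / e) ^ (1 - ε) := hM
      _ ≤ (N' : ℝ) ^ (1 - ε) := Real.rpow_le_rpow hNe0 hNe (by linarith)
  have hK' : (K : ℝ) ≤ (N' : ℝ) ^ (1 / 12 - ε) :=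
    hK.trans (Real.rpow_le_rpow hNe0 hNe (by linarith))
  have hmain := hLD N' (e' * M) K hN'0 hM' hK' (fun m' => if e' ∣ m' then a (m' / e') else 0) β
    (by
      intro m
      split_ifs
      · exact ha _
      · simp) hβ
    (by
      intro k hk
      exact ⟨(hβk k hk).1, (hβk k hk).2.2.coprime_dvd_right hN'N⟩)
  rw [H0_reindex e' M he'0 _ (by
    intro m hm
    apply Finset.sum_eq_zero
    intro k _
    rw [if_neg hm]
    ring)] at hmain
  have hsum : ∑ m ∈ Icc 1 M, ∑ k ∈ (Icc 1 K).filter (fun k => Nat.Coprime m k),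
        a m * β k * ((cA N (e * (m * k)) : ℝ) - N * gg N e * (rho m * rho k / (m * k))) =
      ∑ m ∈ Icc 1 M, ∑ k ∈ (Icc 1 K).filter (fun k => Nat.Coprime (e' * m) k ∧ Nat.Coprime (e' * m * k) N'),
        (if e' ∣ e' * m then a (e' * m / e') else 0) * β k *
          ((cA N' (e' * m * k) : ℝ) - rho (e' * m) * rho k * N' / (((e' * m : ℕ) : ℝ) * k)) := by
    apply Finset.sum_congr rfl
    intro m hm
    rw [mem_Icc] at hm
    rw [if_pos (dvd_mul_right e' m), Nat.mul_div_cancel_left m he'0]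
    by_cases ham0 : a m = 0
    · rw [ham0]; simp
    obtain ⟨hme, hmN⟩ := ham m ham0
    rw [Finset.sum_filter, Finset.sum_filter]
    apply Finset.sum_congr rfl
    intro k hk
    rw [mem_Icc] at hk
    by_cases hβ0 : β k = 0
    · rw [hβ0]; simp
    obtain ⟨hks, hke, hkN⟩ := hβk k hβ0
    have c1 : Nat.Coprime e' k := (hke.coprime_dvd_right he'e).symm
    have c2 : Nat.Coprime e' m := (hme.coprime_dvd_right he'e).symm
    have c3 : Nat.Coprime (e' * m * k) N' :=
      Nat.Coprime.mul_left (Nat.Coprime.mul_left hcop (hmN.coprime_dvd_right hN'N))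
        (hkN.coprime_dvd_right hN'N)
    by_cases hmk : Nat.Coprime m k
    · rw [if_pos hmk, if_pos ⟨Nat.Coprime.mul_left c1 hmk, c3⟩]
      have h3 : cA N (e * (m * k)) = cA N' (e' * m * k) := by
        rw [cA_mul N e (m * k) he (Nat.Coprime.mul_right hme.symm hke.symm), ← he', ← hN', mul_assoc]
      have h4 : rho (e' * m) = rho e' * rho m := rho_mul c2
      have h5 : gg N e = (rho e' : ℝ) / e := by rw [gg_eq N e he, ← he']
      rw [h3, h4, h5]
      have hm0 : (m : ℝ) ≠ 0 := by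
        have : 0 < m := hm.1
        positivity
      have hk0 : (k : ℝ) ≠ 0 := by
        have : 0 < k := hk.1
        positivity
      have he'0' : (e' : ℝ) ≠ 0 := by linarith
      have h6 : (N : ℝ) * ((rho e' : ℝ) / e) * (rho m * rho k / (m * k)) =
          ((rho e' * rho m : ℕ) : ℝ) * rho k * N' / (((e' * m : ℕ) : ℝ) * k) := by
        rw [eGR, nGR]
        push_cast
        field_simp
      rw [h6]
    · rw [if_neg hmk, if_neg]
      intro h
      exact hmk (Nat.Coprime.coprime_mul_left h.1)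
  rw [hsum]
  refine hmain.trans ?_
  apply mul_le_mul_of_nonneg_left _ hC.le
  apply Real.rpow_le_rpow (by positivity) _ (by linarith)
  exact_mod_cast Nat.le_of_dvd (by omega) hN'N

end Pool.Agent.PTW.BH
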