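import Pool.Agent.PTW.Defs

set_option autoImplicit false

namespace Pool.Agent.PTW.BH

open Finset

open Classical in
/-- the indicator of the products of the members of `X` -/
noncomputable def ch (X : Finset (Finset ℕ)) (m : ℕ) : ℝ := if Squarefree m ∧ m.primeFactors ∈ X then 1 else 0

lemma H1a_sqf (T : Finset ℕ) (hT : ∀ p ∈ T, p.Prime) : Squarefree (∏ p ∈ T, p) := by
  classical
  induction T using Finset.induction_on with
  | empty => simp
  | insert p T hp ih =>
    rw [Finset.prod_insert hp, Nat.squarefree_mul]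
    · exact ⟨(hT p (Finset.mem_insert_self _ _)).squarefree,
        ih fun q hq => hT q (Finset.mem_insert_of_mem hq)⟩
    · refine Nat.Coprime.prod_right fun q hq => ?_
      refine (Nat.coprime_primes (hT p (Finset.mem_insert_self _ _))
        (hT q (Finset.mem_insert_of_mem hq))).2 ?_
      rintro rfl
      exact hp hq

/-- [PTW-H1a1] Proof. `T ↦ ∏ T` is a bijection of `X` and `{m ∈ Icc 1 M : Squarefree m, m.primeFactors ∈ X}` with inverse `Nat.primeFactors` (`Nat.primeFactors_prod`, `Nat.prod_primeFactors_of_squarefree`; the product of a set of primes is squarefree, see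
`Pool.Agent.PTWB.sqf_prod` if you like: file PTWB/FW5.lean, copy it). -/
theorem sum_ch (X : Finset (Finset ℕ)) (M : ℕ) (hX : ∀ T ∈ X, (∀ p ∈ T, p.Prime) ∧ ∏ p ∈ T, p ≤ M) (R : ℕ → ℝ) :
    ∑ T ∈ X, R (∏ p ∈ T, p) = ∑ m ∈ Icc 1 M, ch X m * R m := by
  classical
  have h1 : ∑ m ∈ Icc 1 M, ch X m * R m =
      ∑ m ∈ (Icc 1 M).filter (fun m => Squarefree m ∧ m.primeFactors ∈ X), R m := by
    rw [Finset.sum_filter]
    refine Finset.sum_congr rfl fun m _ => ?_
    unfold ch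
    by_cases h : Squarefree m ∧ m.primeFactors ∈ X
    · rw [if_pos h, if_pos h, one_mul]
    · rw [if_neg h, if_neg h, zero_mul]
  rw [h1]
  refine Finset.sum_nbij' (fun T => ∏ p ∈ T, p) (fun m => m.primeFactors) ?_ ?_ ?_ ?_ ?_
  · intro T hT
    rw [mem_filter, mem_Icc]
    refine ⟨⟨Finset.prod_pos fun p hp => ((hX T hT).1 p hp).pos, (hX T hT).2⟩,
      H1a_sqf T (hX T hT).1, ?_⟩
    rwa [Nat.primeFactors_prod (hX T hT).1]
  · intro m hm
    exact (mem_filter.1 hm).2.2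
  · intro T hT
    exact Nat.primeFactors_prod (hX T hT).1
  · intro m hm
    exact Nat.prod_primeFactors_of_squarefree (mem_filter.1 hm).2.1
  · intro T _
    rfl

theorem ch_abs (X : Finset (Finset ℕ)) (m : ℕ) : |ch X m| ≤ 1 := by
  unfold ch
  split_ifs
  · rw [abs_one]
  · rw [abs_zero]
    exact zero_le_one

/-- [PTW-H1a2] Proof. By definition: `m` is squarefree and `m = ∏ p ∈ m.primeFactors, p`. -/
theorem ch_ne (X : Finset (Finset ℕ)) (m : ℕ) (h : ch X m ≠ 0) : Squarefree m ∧ m.primeFactors ∈ X := by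
  by_contra hc
  apply h
  unfold ch
  rw [if_neg hc]

/-- [PTW-H1a3] Proof. `Nat.Coprime.prod_left/right`, `Nat.coprime_primes`; conversely a common element divides both products. -/
theorem coprime_prod_iff (T₁ T₂ : Finset ℕ) (h₁ : ∀ p ∈ T₁, p.Prime) (h₂ : ∀ p ∈ T₂, p.Prime) :
    Nat.Coprime (∏ p ∈ T₁, p) (∏ p ∈ T₂, p) ↔ Disjoint T₁ T₂ := by
  constructor
  · intro h
    rw [Finset.disjoint_left]
    intro p hp hp'
    have h3 : p ∣ Nat.gcd (∏ p ∈ T₁, p) (∏ p ∈ T₂, p) :=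
      Nat.dvd_gcd (Finset.dvd_prod_of_mem _ hp) (Finset.dvd_prod_of_mem _ hp')
    rw [Nat.Coprime] at h
    rw [h] at h3
    exact (h₁ p hp).one_lt.ne' (Nat.dvd_one.1 h3)
  · intro h
    refine Nat.Coprime.prod_left fun p hp => Nat.Coprime.prod_right fun q hq => ?_
    refine (Nat.coprime_primes (h₁ p hp) (h₂ q hq)).2 ?_
    rintro rfl
    exact (Finset.disjoint_left.1 h) hp hq

/-- [PTW-H1a4] Proof. `pat ix T` is a permutation of the list of the `ix p`, so `(pat ix T).sum = ∑ p ∈ T, ix p` (`Finset.sort_perm_toList`/`Multiset`), and `∏ p ≤ ∏ y ^ ix p = y ^ (∑ ix p)`. -/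
theorem prod_le_pat (ix : ℕ → ℕ) (y : ℝ) (hy : 1 ≤ y) (T : Finset ℕ) (hT : ∀ p ∈ T, (p : ℝ) ≤ y ^ ix p) :
    ((∏ p ∈ T, p : ℕ) : ℝ) ≤ y ^ (pat ix T).sum := by
  have h1 : (pat ix T).sum = ∑ p ∈ T, ix p := by
    unfold pat
    rw [← Multiset.sum_coe, ← Multiset.map_coe, Finset.sort_eq]
    rfl
  rw [h1, ← Finset.prod_pow_eq_pow_sum]
  push_cast
  exact Finset.prod_le_prod (fun p _ => Nat.cast_nonneg p) hT

end Pool.Agent.PTW.BH
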