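import Pool.Agent.PTW.H0
import Pool.Agent.PTW.H1a
import Pool.Agent.PTW.D2

set_option autoImplicit false

namespace Pool.Agent.PTW.BH

open Finset

/-- the hypotheses for the remainder terms -/
structure Sys (ε : ℝ) (N D μ κ : ℕ) (y : ℝ) (ix : ℕ → ℕ) (P : Finset ℕ) : Prop where
  N1 : 1 ≤ N
  DN : D ≤ N
  y1 : 1 ≤ y
  lev1 : ∀ e : ℕ, 1 ≤ e → e ≤ D → (e : ℝ) * y ^ μ ≤ ((N : ℝ) / e) ^ (1 - ε)
  lev2 : ∀ e : ℕ, 1 ≤ e → e ≤ D → y ^ κ ≤ ((N : ℝ) / e) ^ (1 / 12 - ε)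
  mono : Monotone ix
  one : ∀ p, 1 ≤ ix p
  prim : ∀ p ∈ P, p.Prime ∧ ¬ p ∣ N ∧ (p : ℝ) ≤ y ^ ix p

theorem Sys.mono_set {ε : ℝ} {N D μ κ : ℕ} {y : ℝ} {ix : ℕ → ℕ} {P Q : Finset ℕ} (h : Sys ε N D μ κ y ix P) (hQ : Q ⊆ P) :
    Sys ε N D μ κ y ix Q :=
  ⟨h.N1, h.DN, h.y1, h.lev1, h.lev2, h.mono, h.one, fun p hp => h.prim p (hQ hp)⟩

/-- the list `L` splits into two parts with sums at most `μ`, `κ` -/
def Splits (μ κ : ℕ) (L : List ℕ) : Prop :=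
  ∃ L₁ L₂ : List ℕ, L.Perm (L₁ ++ L₂) ∧ L₁.Pairwise (· ≥ ·) ∧ L₂.Pairwise (· ≥ ·) ∧ L₁.sum ≤ μ ∧ L₂.sum ≤ κ

/-- [PTW-H1] the remainder of one pattern.
Proof. `C` from `LDe`. `pattern_sum` with `R T = cA N (e ∏ T) - N gg N e ∏_{p ∈ T} g N p` gives `c ≥ 1`, so `|∑_T R T| ≤ |∑_{T₁} ∑_{T₂} R (T₁ ∪ T₂)|`. For disjoint `T₁`, `T₂ ⊆ P`: `∏ (T₁ ∪ T₂) = m k`, `∏ g = rho m rho k / (m k)` (`prod_g` for `T₁`, `T₂`), with `m = ∏ T₁ ≤ y ^ μ`,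
`k = ∏ T₂ ≤ y ^ κ` (`prod_le_pat`). `X₁ = {T ⊆ P : pat ix T = L₁}`, `X₂` similarly; with `M = ⌊y ^ μ⌋₊`, `K = ⌊y ^ κ⌋₊` `sum_ch` twice (write the inner condition as `if Disjoint T₁ T₂`, `coprime_prod_iff`) turns the double sum into the one of `LDe` with `a = ch X₁`, `β = ch X₂` (`ch_abs`, `ch_ne`; a prime
factor of `m` with `a m ≠ 0` lies in `P`, so it divides neither `e` nor `N`). -/
theorem one_pattern (ε : ℝ) (h0 : 0 < ε) (h1 : ε ≤ 1 / 100) : ∃ C : ℝ, 0 < C ∧ ∀ (N D μ κ e : ℕ) (y : ℝ) (ix : ℕ → ℕ) (P : Finset ℕ) (L : List ℕ),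
    Sys ε N D μ κ y ix P → Squarefree e → e ≤ D → (∀ p ∈ P, ¬ p ∣ e) → L.Pairwise (· ≥ ·) → Splits μ κ L →
    |∑ T ∈ P.powerset.filter (fun T => pat ix T = L), ((cA N (e * ∏ p ∈ T, p) : ℝ) - N * gg N e * ∏ p ∈ T, g N p)| ≤
      C * (N : ℝ) ^ (1 - ε / 10) := by
  classical
  obtain ⟨C, hC, hLD⟩ := LDe ε h0 h1
  refine ⟨C, hC, ?_⟩
  intro N D μ κ e y ix P L hS he heD hPe hL hSp
  obtain ⟨L₁, L₂, hperm, h₁, h₂, hs₁, hs₂⟩ := hSp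
  obtain ⟨c, hc1, hc⟩ := pattern_sum ix hS.mono L L₁ L₂ hL hperm h₁ h₂ P
  have he0 : 1 ≤ e := Nat.one_le_iff_ne_zero.2 he.ne_zero
  have hy1 := hS.y1
  have hX : ∀ (Li : List ℕ) (ν : ℕ), Li.sum ≤ ν →
      ∀ T ∈ P.powerset.filter (fun T => pat ix T = Li),
        (∀ p ∈ T, p.Prime) ∧ ∏ p ∈ T, p ≤ ⌊y ^ ν⌋₊ := by
    intro Li ν hν T hT
    rw [mem_filter, mem_powerset] at hT
    refine ⟨fun p hp => (hS.prim p (hT.1 hp)).1, ?_⟩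
    refine Nat.le_floor ?_
    refine (prod_le_pat ix y hy1 T fun p hp => (hS.prim p (hT.1 hp)).2.2).trans ?_
    rw [hT.2]
    exact pow_le_pow_right₀ hy1 hν
  have hcop : ∀ (Li : List ℕ) (m : ℕ),
      ch (P.powerset.filter (fun T => pat ix T = Li)) m ≠ 0 →
      Squarefree m ∧ Nat.Coprime m e ∧ Nat.Coprime m N := by
    intro Li m hm
    obtain ⟨hsq, hmem⟩ := ch_ne _ _ hm
    rw [mem_filter, mem_powerset] at hmem
    have hpf : ∀ q, q.Prime → q ∣ m → q ∈ P := fun q hq hqm =>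
      hmem.1 (Nat.mem_primeFactors.2 ⟨hq, hqm, hsq.ne_zero⟩)
    refine ⟨hsq, ?_, ?_⟩
    · exact Nat.coprime_of_dvd fun q hq hqm hqe => hPe q (hpf q hq hqm) hqe
    · exact Nat.coprime_of_dvd fun q hq hqm hqN => (hS.prim q (hpf q hq hqm)).2.1 hqN
  -- the remainder of the union
  have hR : ∀ T₁ ∈ P.powerset.filter (fun T => pat ix T = L₁),
      ∀ T₂ ∈ P.powerset.filter (fun T => pat ix T = L₂), Disjoint T₁ T₂ →
      ((cA N (e * ∏ p ∈ T₁ ∪ T₂, p) : ℝ) - N * gg N e * ∏ p ∈ T₁ ∪ T₂, g N p) =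
      ((cA N (e * ((∏ p ∈ T₁, p) * ∏ p ∈ T₂, p)) : ℝ) - N * gg N e *
        (rho (∏ p ∈ T₁, p) * rho (∏ p ∈ T₂, p) /
          (((∏ p ∈ T₁, p : ℕ) : ℝ) * ((∏ p ∈ T₂, p : ℕ) : ℝ)))) := by
    intro T₁ hT₁ T₂ hT₂ hd
    rw [mem_filter, mem_powerset] at hT₁ hT₂
    rw [prod_union hd, prod_union hd,
      prod_g N T₁ fun p hp => ⟨(hS.prim p (hT₁.1 hp)).1, (hS.prim p (hT₁.1 hp)).2.1⟩,
      prod_g N T₂ fun p hp => ⟨(hS.prim p (hT₂.1 hp)).1, (hS.prim p (hT₂.1 hp)).2.1⟩,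
      div_mul_div_comm]
  obtain ⟨S, hSdef⟩ : ∃ S : ℕ → ℕ → ℝ, ∀ m k, S m k = ((cA N (e * (m * k)) : ℝ) -
      N * gg N e * (rho m * rho k / (m * k))) := ⟨_, fun _ _ => rfl⟩
  have hR' : ∀ T₁ ∈ P.powerset.filter (fun T => pat ix T = L₁),
      ∀ T₂ ∈ P.powerset.filter (fun T => pat ix T = L₂), Disjoint T₁ T₂ →
      ((cA N (e * ∏ p ∈ T₁ ∪ T₂, p) : ℝ) - N * gg N e * ∏ p ∈ T₁ ∪ T₂, g N p) =
      S (∏ p ∈ T₁, p) (∏ p ∈ T₂, p) := by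
    intro T₁ hT₁ T₂ hT₂ hd
    rw [hR T₁ hT₁ T₂ hT₂ hd, hSdef]
  have hdouble : ∑ T₁ ∈ P.powerset.filter (fun T => pat ix T = L₁),
      ∑ T₂ ∈ P.powerset.filter (fun T => pat ix T = L₂ ∧ Disjoint T₁ T),
        ((cA N (e * ∏ p ∈ T₁ ∪ T₂, p) : ℝ) - N * gg N e * ∏ p ∈ T₁ ∪ T₂, g N p) =
      ∑ m ∈ Icc 1 ⌊y ^ μ⌋₊, ∑ k ∈ (Icc 1 ⌊y ^ κ⌋₊).filter (fun k => Nat.Coprime m k),
        ch (P.powerset.filter (fun T => pat ix T = L₁)) m *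
          ch (P.powerset.filter (fun T => pat ix T = L₂)) k * S m k := by
    have e1 : ∀ T₁ ∈ P.powerset.filter (fun T => pat ix T = L₁),
        ∑ T₂ ∈ P.powerset.filter (fun T => pat ix T = L₂ ∧ Disjoint T₁ T),
          ((cA N (e * ∏ p ∈ T₁ ∪ T₂, p) : ℝ) - N * gg N e * ∏ p ∈ T₁ ∪ T₂, g N p) =
        ∑ k ∈ (Icc 1 ⌊y ^ κ⌋₊).filter (fun k => Nat.Coprime (∏ p ∈ T₁, p) k),
          ch (P.powerset.filter (fun T => pat ix T = L₂)) k * S (∏ p ∈ T₁, p) k := by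
      intro T₁ hT₁
      have hp₁ := (hX L₁ μ hs₁ T₁ hT₁).1
      have e2 : P.powerset.filter (fun T => pat ix T = L₂ ∧ Disjoint T₁ T) =
          (P.powerset.filter (fun T => pat ix T = L₂)).filter (fun T => Disjoint T₁ T) := by
        rw [filter_filter]
      rw [e2, sum_filter]
      have e3 : ∀ T₂ ∈ P.powerset.filter (fun T => pat ix T = L₂),
          (if Disjoint T₁ T₂ then
            ((cA N (e * ∏ p ∈ T₁ ∪ T₂, p) : ℝ) - N * gg N e * ∏ p ∈ T₁ ∪ T₂, g N p) else 0) =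
          (fun k => if Nat.Coprime (∏ p ∈ T₁, p) k then S (∏ p ∈ T₁, p) k else 0)
            (∏ p ∈ T₂, p) := by
        intro T₂ hT₂
        have hp₂ := (hX L₂ κ hs₂ T₂ hT₂).1
        show (if Disjoint T₁ T₂ then
            ((cA N (e * ∏ p ∈ T₁ ∪ T₂, p) : ℝ) - N * gg N e * ∏ p ∈ T₁ ∪ T₂, g N p) else 0) =
          if Nat.Coprime (∏ p ∈ T₁, p) (∏ p ∈ T₂, p) then S (∏ p ∈ T₁, p) (∏ p ∈ T₂, p) else 0
        by_cases hd : Disjoint T₁ T₂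
        · rw [if_pos hd, if_pos ((coprime_prod_iff T₁ T₂ hp₁ hp₂).2 hd), hR' T₁ hT₁ T₂ hT₂ hd]
        · rw [if_neg hd, if_neg fun hh => hd ((coprime_prod_iff T₁ T₂ hp₁ hp₂).1 hh)]
      have e6 := sum_ch _ _ (hX L₂ κ hs₂)
        (fun k => if Nat.Coprime (∏ p ∈ T₁, p) k then S (∏ p ∈ T₁, p) k else 0)
      rw [sum_congr rfl e3]
      refine e6.trans ?_
      rw [sum_filter]
      refine sum_congr rfl fun k _ => ?_
      show ch (P.powerset.filter (fun T => pat ix T = L₂)) k *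
        (if Nat.Coprime (∏ p ∈ T₁, p) k then S (∏ p ∈ T₁, p) k else 0) = _
      rw [mul_ite, mul_zero]
    rw [sum_congr rfl e1]
    have e4 := sum_ch _ _ (hX L₁ μ hs₁) (fun m =>
      ∑ k ∈ (Icc 1 ⌊y ^ κ⌋₊).filter (fun k => Nat.Coprime m k),
          ch (P.powerset.filter (fun T => pat ix T = L₂)) k * S m k)
    refine e4.trans ?_
    refine sum_congr rfl fun m _ => ?_
    show ch (P.powerset.filter (fun T => pat ix T = L₁)) m *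
      ∑ k ∈ (Icc 1 ⌊y ^ κ⌋₊).filter (fun k => Nat.Coprime m k),
          ch (P.powerset.filter (fun T => pat ix T = L₂)) k * S m k = _
    rw [mul_sum]
    exact sum_congr rfl fun k _ => (mul_assoc _ _ _).symm
  have hbound := hLD N ⌊y ^ μ⌋₊ ⌊y ^ κ⌋₊ e hS.N1 he (heD.trans hS.DN) ?_ ?_
    (ch (P.powerset.filter (fun T => pat ix T = L₁)))
    (ch (P.powerset.filter (fun T => pat ix T = L₂))) (ch_abs _) (ch_abs _)
    (fun m hm => (hcop L₁ m hm).2) (fun k hk => hcop L₂ k hk)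
  · have e5 : ∑ m ∈ Icc 1 ⌊y ^ μ⌋₊, ∑ k ∈ (Icc 1 ⌊y ^ κ⌋₊).filter (fun k => Nat.Coprime m k),
        ch (P.powerset.filter (fun T => pat ix T = L₁)) m *
          ch (P.powerset.filter (fun T => pat ix T = L₂)) k * S m k =
        ∑ m ∈ Icc 1 ⌊y ^ μ⌋₊, ∑ k ∈ (Icc 1 ⌊y ^ κ⌋₊).filter (fun k => Nat.Coprime m k),
        ch (P.powerset.filter (fun T => pat ix T = L₁)) m *
          ch (P.powerset.filter (fun T => pat ix T = L₂)) k *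
          ((cA N (e * (m * k)) : ℝ) - N * gg N e * (rho m * rho k / (m * k))) :=
      sum_congr rfl fun m _ => sum_congr rfl fun k _ => by rw [hSdef]
    rw [← e5, ← hdouble] at hbound
    have h3 := hc (fun T => ((cA N (e * ∏ p ∈ T, p) : ℝ) - N * gg N e * ∏ p ∈ T, g N p))
    have h4 : ∑ T₁ ∈ P.powerset.filter (fun T => pat ix T = L₁),
      ∑ T₂ ∈ P.powerset.filter (fun T => pat ix T = L₂ ∧ Disjoint T₁ T),
        ((cA N (e * ∏ p ∈ T₁ ∪ T₂, p) : ℝ) - N * gg N e * ∏ p ∈ T₁ ∪ T₂, g N p) =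
        c * ∑ T ∈ P.powerset.filter (fun T => pat ix T = L),
          ((cA N (e * ∏ p ∈ T, p) : ℝ) - N * gg N e * ∏ p ∈ T, g N p) := by
      refine Eq.trans ?_ h3
      refine sum_congr rfl fun T₁ _ => ?_
      refine sum_congr ?_ fun _ _ => rfl
      ext T
      simp only [mem_filter]
    rw [h4, abs_mul, abs_of_nonneg (by linarith)] at hbound
    refine le_trans ?_ hbound
    exact le_mul_of_one_le_left (abs_nonneg _) hc1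
  · refine le_trans ?_ (hS.lev1 e he0 heD)
    exact mul_le_mul_of_nonneg_left (Nat.floor_le (by positivity)) (by positivity)
  · exact (Nat.floor_le (by positivity)).trans (hS.lev2 e he0 heD)

end Pool.Agent.PTW.BH
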