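import Pool.Agent.PTW.Defs

set_option autoImplicit false

namespace Pool.Agent.PTW.BH

/-- [PTW-H2a] Proof. The length is at most the sum, every entry is `≤ l`: the set is contained in `⋃_{k ≤ l} {L : length = k, entries ≤ l}`; e.g. by induction on `l`: a list is `[]` or `i :: t` with `1 ≤ i ≤ l`, `t.sum ≤ l - i`: the set `A l ⊆ {[]} ∪ ⋃_{i ∈ Icc 1 l} (List.cons i) '' A (l - i)`
(strong induction, `Set.Finite.union`, `Set.Finite.biUnion`, `Set.Finite.image`). -/
theorem finite_lists (l : ℕ) : {L : List ℕ | L.sum ≤ l ∧ ∀ i ∈ L, 1 ≤ i}.Finite := by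
  induction l using Nat.strong_induction_on with
  | _ l ih =>
    have hsub : {L : List ℕ | L.sum ≤ l ∧ ∀ i ∈ L, 1 ≤ i} ⊆
        {[]} ∪ ⋃ i ∈ Finset.Icc 1 l, (List.cons i) '' {L : List ℕ | L.sum ≤ l - i ∧ ∀ j ∈ L, 1 ≤ j} := by
      intro L hL
      cases L with
      | nil => left; rfl
      | cons i t =>
        right
        obtain ⟨h1, h2⟩ := hL
        have hi : 1 ≤ i := h2 i (by simp)
        have hs : i + t.sum ≤ l := by simpa using h1
        simp only [Set.mem_iUnion]
        refine ⟨i, Finset.mem_Icc.mpr ⟨hi, by omega⟩, t, ⟨by omega, ?_⟩, rfl⟩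
        intro j hj
        exact h2 j (by simp [hj])
    refine Set.Finite.subset ?_ hsub
    refine Set.Finite.union (Set.finite_singleton _) ?_
    refine Set.Finite.biUnion (Finset.finite_toSet _) ?_
    intro i hi
    have hi' := Finset.mem_Icc.mp (Finset.mem_coe.mp hi)
    exact Set.Finite.image _ (ih (l - i) (by omega))

end Pool.Agent.PTW.BH
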