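import Pool.Agent.PTW.H1
import Pool.Agent.PTW.H2a

set_option autoImplicit false

namespace Pool.Agent.PTW.BH

open Finset

/-- [PTW-H2] the remainder of all patterns.
Proof. `C = 2 C₁ (number of lists of finite_lists (μ + κ))`, `C₁` from `one_pattern`. Group the `T` by `L = pat ix T` (`Finset.sum_fiberwise_of_maps_to` with the finite set `(finite_lists (μ + κ)).toFinset` after removing the `T` with `Λ (pat ix T) = 0`: those with `Λ ≠ 0` have
`(pat ix T).sum ≤ μ + κ` (`Splits`, sum of a permutation) and entries `≥ 1`; `pat_sorted`). `|Λ L| ≤ 2`. -/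
theorem all_patterns (ε : ℝ) (h0 : 0 < ε) (h1 : ε ≤ 1 / 100) (μ κ : ℕ) : ∃ C : ℝ, 0 < C ∧ ∀ (N D e : ℕ) (y : ℝ) (ix : ℕ → ℕ) (P : Finset ℕ) (Λ : List ℕ → ℝ),
    Sys ε N D μ κ y ix P → Squarefree e → e ≤ D → (∀ p ∈ P, ¬ p ∣ e) → (∀ L, |Λ L| ≤ 2) →
    (∀ L : List ℕ, L.Pairwise (· ≥ ·) → Λ L ≠ 0 → Splits μ κ L) →
    |∑ T ∈ P.powerset, Λ (pat ix T) * ((cA N (e * ∏ p ∈ T, p) : ℝ) - N * gg N e * ∏ p ∈ T, g N p)| ≤
      C * (N : ℝ) ^ (1 - ε / 10) := by
  obtain ⟨C₁, hC₁, hone⟩ := one_pattern ε h0 h1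
  set S : Finset (List ℕ) := (finite_lists (μ + κ)).toFinset with hS
  have hmemS : ∀ L : List ℕ, L ∈ S ↔ (L.sum ≤ μ + κ ∧ ∀ i ∈ L, 1 ≤ i) := by
    intro L; rw [hS]; simp
  refine ⟨2 * C₁ * ((S.card : ℝ) + 1), by positivity, ?_⟩
  intro N D e y ix P Λ hsys hsq heD hPe hΛ hsplit
  set R : Finset ℕ → ℝ := fun T => ((cA N (e * ∏ p ∈ T, p) : ℝ) - N * gg N e * ∏ p ∈ T, g N p) with hR
  set X : ℝ := (N : ℝ) ^ (1 - ε / 10) with hX
  have hX0 : 0 ≤ X := Real.rpow_nonneg (Nat.cast_nonneg _) _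
  have hred : ∑ T ∈ P.powerset, Λ (pat ix T) * R T
      = ∑ T ∈ P.powerset.filter (fun T => Λ (pat ix T) ≠ 0), Λ (pat ix T) * R T := by
    symm
    apply Finset.sum_filter_of_ne
    intro T _ hT h
    exact hT (by rw [h, zero_mul])
  have hmaps : ∀ T ∈ P.powerset.filter (fun T => Λ (pat ix T) ≠ 0), pat ix T ∈ S := by
    intro T hT
    have hT2 := (Finset.mem_filter.mp hT).2
    obtain ⟨L₁, L₂, hp, _, _, hs1, hs2⟩ := hsplit (pat ix T) (pat_sorted ix hsys.mono T) hT2
    rw [hmemS]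
    refine ⟨?_, ?_⟩
    · rw [hp.sum_eq, List.sum_append]; omega
    · intro i hi
      unfold pat at hi
      obtain ⟨p, _, rfl⟩ := List.mem_map.mp hi
      exact hsys.one p
  have hfib := Finset.sum_fiberwise_of_maps_to hmaps (fun T => Λ (pat ix T) * R T)
  have hgoal : |∑ T ∈ P.powerset, Λ (pat ix T) * R T| ≤ 2 * C₁ * ((S.card : ℝ) + 1) * X := by
    rw [hred, ← hfib]
    have hb : ∀ L ∈ S, |∑ T ∈ (P.powerset.filter (fun T => Λ (pat ix T) ≠ 0)).filter (fun T => pat ix T = L),
        Λ (pat ix T) * R T| ≤ 2 * C₁ * X := by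
      intro L _
      by_cases hL : Λ L = 0
      · have : ∑ T ∈ (P.powerset.filter (fun T => Λ (pat ix T) ≠ 0)).filter (fun T => pat ix T = L),
            Λ (pat ix T) * R T = 0 := by
          apply Finset.sum_eq_zero
          intro T hT
          rw [(Finset.mem_filter.mp hT).2, hL, zero_mul]
        rw [this, abs_zero]; positivity
      · by_cases hP : L.Pairwise (· ≥ ·)
        · have hset : (P.powerset.filter (fun T => Λ (pat ix T) ≠ 0)).filter (fun T => pat ix T = L)
              = P.powerset.filter (fun T => pat ix T = L) := by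
            ext T
            simp only [Finset.mem_filter]
            constructor
            · rintro ⟨⟨h1, _⟩, h3⟩; exact ⟨h1, h3⟩
            · rintro ⟨h1, h3⟩; exact ⟨⟨h1, by rw [h3]; exact hL⟩, h3⟩
          rw [hset]
          have hcongr : ∑ T ∈ P.powerset.filter (fun T => pat ix T = L), Λ (pat ix T) * R T
              = Λ L * ∑ T ∈ P.powerset.filter (fun T => pat ix T = L), R T := by
            rw [Finset.mul_sum]
            apply Finset.sum_congr rfl
            intro T hT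
            rw [(Finset.mem_filter.mp hT).2]
          rw [hcongr, abs_mul]
          have hb1 := hone N D μ κ e y ix P L hsys hsq heD hPe hP (hsplit L hP hL)
          calc |Λ L| * |∑ T ∈ P.powerset.filter (fun T => pat ix T = L), R T|
              ≤ 2 * (C₁ * X) := mul_le_mul (hΛ L) hb1 (abs_nonneg _) (by norm_num)
            _ = 2 * C₁ * X := by ring
        · have : ∑ T ∈ (P.powerset.filter (fun T => Λ (pat ix T) ≠ 0)).filter (fun T => pat ix T = L),
            Λ (pat ix T) * R T = 0 := by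
            apply Finset.sum_eq_zero
            intro T hT
            exfalso
            apply hP
            rw [← (Finset.mem_filter.mp hT).2]
            exact pat_sorted ix hsys.mono T
          rw [this, abs_zero]; positivity
    calc |∑ L ∈ S, ∑ T ∈ (P.powerset.filter (fun T => Λ (pat ix T) ≠ 0)).filter (fun T => pat ix T = L),
        Λ (pat ix T) * R T|
        ≤ ∑ L ∈ S, |∑ T ∈ (P.powerset.filter (fun T => Λ (pat ix T) ≠ 0)).filter (fun T => pat ix T = L),
        Λ (pat ix T) * R T| := Finset.abs_sum_le_sum_abs _ _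
      _ ≤ ∑ _L ∈ S, 2 * C₁ * X := Finset.sum_le_sum hb
      _ = (S.card : ℝ) * (2 * C₁ * X) := by rw [Finset.sum_const, nsmul_eq_mul]
      _ ≤ 2 * C₁ * ((S.card : ℝ) + 1) * X := by nlinarith [mul_nonneg hC₁.le hX0]
  exact hgoal

end Pool.Agent.PTW.BH
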