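import Pool.Agent.PTW.H1
import Pool.Agent.PTW.D1

set_option autoImplicit false

namespace Pool.Agent.PTW.BH

open Finset

open Classical in
/-- the list weight of the weighted sieve: the first index may exceed `iz`, then it has the weight `wb` -/
noncomputable def LW (l iz iu : ℕ) (wb : ℕ → ℝ) : List ℕ → ℝ
  | [] => 1
  | i :: t => if i ≤ iz then lamL false l (i :: t) else if i ≤ iu ∧ ∀ j ∈ t, j ≤ iz then wb i * lamL false l (i :: t) else 0

open Classical in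
theorem H3a_LW_cons (l iz iu : ℕ) (wb : ℕ → ℝ) (i : ℕ) (t : List ℕ) : LW l iz iu wb (i :: t) =
    if i ≤ iz then lamL false l (i :: t) else if i ≤ iu ∧ ∀ j ∈ t, j ≤ iz then wb i * lamL false l (i :: t) else 0 := rfl

theorem abs_LW (l iz iu : ℕ) (wb : ℕ → ℝ) (hwb : ∀ i, 0 ≤ wb i ∧ wb i ≤ 2) (L : List ℕ) : |LW l iz iu wb L| ≤ 2 := by
  cases L with
  | nil =>
    unfold LW
    norm_num
  | cons i t =>
    rw [H3a_LW_cons]
    split_ifs with h1 h2
    · exact (abs_lamL false l (i :: t)).trans (by norm_num)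
    · rw [abs_mul, abs_of_nonneg (hwb i).1]
      calc wb i * |lamL false l (i :: t)| ≤ 2 * 1 :=
            mul_le_mul (hwb i).2 (abs_lamL false l (i :: t)) (abs_nonneg _) (by norm_num)
        _ = 2 := by norm_num
    · rw [abs_zero]
      norm_num

/-- [PTW-H3a1] Proof. `[]`: trivial. `i :: t` with `i ≤ iz`: `split` for `up = false` (all members are `≤ i ≤ iz`, `2 iz ≤ l`); the parts are sublists of a sorted list, so sorted. `i > iz`: `i ≤ iu = μ`, `lamL false l (i :: t) = - lamL true (l - i) t ≠ 0`: `split true (l - i) (μ - i) κ t`, then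
`L₁ = i :: l₁` (all members of `t`, so of `l₁`, are `≤ i`). -/
theorem LW_splits (l iz μ κ : ℕ) (wb : ℕ → ℝ) (hl : μ + κ = l) (hz : 2 * iz ≤ l) (L : List ℕ) (hL : L.Pairwise (· ≥ ·))
    (h : LW l iz μ wb L ≠ 0) : Splits μ κ L := by
  cases L with
  | nil => exact ⟨[], [], List.Perm.refl _, List.Pairwise.nil, List.Pairwise.nil, by simp, by simp⟩
  | cons i t =>
    rw [H3a_LW_cons] at h
    rw [List.pairwise_cons] at hL
    split_ifs at h with h1 h2
    · obtain ⟨L₁, L₂, a, b, c, d, e⟩ := split false l μ κ (i :: t) (List.pairwise_cons.2 hL) h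
        (fun _ j hj => by
          rw [List.mem_cons] at hj
          rcases hj with rfl | hj
          · omega
          · have := hL.1 j hj
            omega) hl
      exact ⟨L₁, L₂, a, (List.pairwise_cons.2 hL).sublist b, (List.pairwise_cons.2 hL).sublist c, d, e⟩
    · have h3 : lamL true (l - i) t ≠ 0 := by
        intro h4
        apply h
        have : lamL false l (i :: t) = - lamL true (l - i) t := by rw [lamL]
        rw [this, h4]
        ring
      obtain ⟨L₁, L₂, a, b, c, d, e⟩ := split true (l - i) (μ - i) κ t hL.2 h3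
        (fun h5 => by cases h5) (by omega)
      refine ⟨i :: L₁, L₂, ?_, ?_, hL.2.sublist c, ?_, e⟩
      · rw [List.cons_append]
        exact a.cons i
      · exact List.pairwise_cons.2 ⟨fun j hj => hL.1 j (b.subset hj), hL.2.sublist b⟩
      · rw [List.sum_cons]
        omega
    · exact absurd rfl h

theorem lam_true_splits (l μ κ : ℕ) (hl : μ + κ = l) (L : List ℕ) (hL : L.Pairwise (· ≥ ·)) (h : lamL true l L ≠ 0) : Splits μ κ L := by
  obtain ⟨L₁, L₂, a, b, c, d, e⟩ := split true l μ κ L hL h (fun h5 => by cases h5) hl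
  exact ⟨L₁, L₂, a, hL.sublist b, hL.sublist c, d, e⟩

/-- [PTW-H3a2] Proof. `sum_powerset_max` on both sides: `∑_{T ⊆ P} F T = F ∅ + ∑_{p ∈ P} ∑_{T ⊆ P_{<p}} F (insert p T)` with `pat ix (insert p T) = ix p :: pat ix T`. For `ix p ≤ iz` all members of `P_{<p}` have `ix ≤ iz` (`ix` monotone), `P_{<p} = (P_z)_{<p}`, and the terms are those of
`MT ix φ false l P_z` (with `F ∅ = 1`). For `ix p > iz` the term is `0` unless all members of `T` have `ix ≤ iz`, i.e. `T ⊆ P_z` (and `P_z ⊆ P_{<p}`), and it is `- wb (ix p) φ p lamL true (l - ix p) (pat ix T) ∏ φ`. -/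
theorem LW_sum (ix : ℕ → ℕ) (hix : Monotone ix) (l iz iu : ℕ) (wb φ : ℕ → ℝ) (P : Finset ℕ) (hP : ∀ p ∈ P, ix p ≤ iu) :
    ∑ T ∈ P.powerset, LW l iz iu wb (pat ix T) * ∏ p ∈ T, φ p =
      MT ix φ false l (P.filter (fun p => ix p ≤ iz)) -
        ∑ p ∈ P.filter (fun p => iz < ix p), wb (ix p) * (φ p * MT ix φ true (l - ix p) (P.filter (fun p => ix p ≤ iz))) := by
  classical
  rw [sum_powerset_max, MT_false]
  have h0 : LW l iz iu wb (pat ix ∅) * ∏ p ∈ (∅ : Finset ℕ), φ p = 1 := by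
    rw [pat_empty, prod_empty, mul_one]
    rfl
  rw [h0, ← sum_filter_add_sum_filter_not P (fun p => ix p ≤ iz)]
  have hnot : P.filter (fun p => ¬ ix p ≤ iz) = P.filter (fun p => iz < ix p) :=
    filter_congr fun p _ => by rw [not_le]
  rw [hnot]
  have hT : ∀ p, ∀ T ∈ (P.filter (· < p)).powerset, pat ix (insert p T) = ix p :: pat ix T ∧
      ∏ q ∈ insert p T, φ q = φ p * ∏ q ∈ T, φ q := by
    intro p T hT
    rw [mem_powerset] at hT
    have hlt : ∀ q ∈ T, q < p := fun q hq => (mem_filter.1 (hT hq)).2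
    refine ⟨pat_insert ix T p hlt, prod_insert fun hp => (hlt p hp).false⟩
  have e1 : ∑ p ∈ P.filter (fun p => ix p ≤ iz), ∑ T ∈ (P.filter (· < p)).powerset,
      LW l iz iu wb (pat ix (insert p T)) * ∏ q ∈ insert p T, φ q =
      - ∑ p ∈ P.filter (fun p => ix p ≤ iz), φ p *
        MT ix φ true (l - ix p) ((P.filter (fun p => ix p ≤ iz)).filter (· < p)) := by
    rw [← sum_neg_distrib]
    refine sum_congr rfl fun p hp => ?_
    rw [mem_filter] at hp
    have hs : (P.filter (fun p => ix p ≤ iz)).filter (· < p) = P.filter (· < p) := by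
      ext q
      simp only [mem_filter]
      constructor
      · exact fun h => ⟨h.1.1, h.2⟩
      · exact fun h => ⟨⟨h.1, (hix h.2.le).trans hp.2⟩, h.2⟩
    rw [hs]
    unfold MT lam
    rw [mul_sum, ← sum_neg_distrib]
    refine sum_congr rfl fun T hT' => ?_
    rw [(hT p T hT').1, (hT p T hT').2]
    rw [H3a_LW_cons, if_pos hp.2, lamL]
    ring
  have e2 : ∑ p ∈ P.filter (fun p => iz < ix p), ∑ T ∈ (P.filter (· < p)).powerset,
      LW l iz iu wb (pat ix (insert p T)) * ∏ q ∈ insert p T, φ q =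
      - ∑ p ∈ P.filter (fun p => iz < ix p), wb (ix p) * (φ p *
        MT ix φ true (l - ix p) (P.filter (fun p => ix p ≤ iz))) := by
    rw [← sum_neg_distrib]
    refine sum_congr rfl fun p hp => ?_
    rw [mem_filter] at hp
    have hsub : (P.filter (fun p => ix p ≤ iz)).powerset ⊆ (P.filter (· < p)).powerset := by
      rw [powerset_mono]
      intro q hq
      rw [mem_filter] at hq ⊢
      refine ⟨hq.1, ?_⟩
      by_contra h
      have := hix (not_lt.1 h)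
      omega
    rw [← sum_subset hsub]
    · unfold MT lam
      rw [mul_sum, mul_sum, ← sum_neg_distrib]
      refine sum_congr rfl fun T hT' => ?_
      rw [(hT p T (hsub hT')).1, (hT p T (hsub hT')).2]
      have hall : ∀ j ∈ pat ix T, j ≤ iz := by
        intro j hj
        unfold pat at hj
        rw [List.mem_map] at hj
        obtain ⟨q, hq, rfl⟩ := hj
        rw [Finset.mem_sort] at hq
        exact (mem_filter.1 ((mem_powerset.1 hT') hq)).2
      rw [H3a_LW_cons, if_neg (not_le.2 hp.2), if_pos ⟨hP p hp.1, hall⟩, lamL]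
      ring
    · intro T hT1 hT2
      rw [(hT p T hT1).1]
      rw [H3a_LW_cons, if_neg (not_le.2 hp.2), if_neg, zero_mul]
      rintro ⟨-, h3⟩
      apply hT2
      rw [mem_powerset]
      intro q hq
      rw [mem_powerset] at hT1
      rw [mem_filter]
      refine ⟨(mem_filter.1 (hT1 hq)).1, h3 _ ?_⟩
      unfold pat
      rw [List.mem_map]
      exact ⟨q, (Finset.mem_sort _).2 hq, rfl⟩
  rw [e1, e2]
  ring

/-- [PTW-H3a3] Proof. `∏ p ∈ T, (if p ∣ a then 1 else 0)` is `1` if `T ⊆ S.filter (· ∣ a)`, else `0`. -/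
theorem MT_ind (ix : ℕ → ℕ) (up : Bool) (l : ℕ) (S : Finset ℕ) (a : ℕ) :
    MT ix (fun p => if p ∣ a then (1 : ℝ) else 0) up l S = MT ix (fun _ => 1) up l (S.filter (fun p => p ∣ a)) := by
  unfold MT
  have hsub : (S.filter (fun p => p ∣ a)).powerset ⊆ S.powerset := by
    rw [powerset_mono]
    exact filter_subset _ _
  rw [← sum_subset hsub]
  · refine sum_congr rfl fun T hT => ?_
    rw [mem_powerset] at hT
    congr 1
    refine prod_congr rfl fun p hp => ?_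
    exact if_pos (mem_filter.1 (hT hp)).2
  · intro T hT1 hT2
    rw [mem_powerset] at hT1 hT2
    have : ∃ p ∈ T, ¬ p ∣ a := by
      by_contra h
      push Not at h
      exact hT2 fun p hp => mem_filter.2 ⟨hT1 hp, h p hp⟩
    obtain ⟨p, hp, hpa⟩ := this
    rw [prod_eq_zero hp (if_neg hpa), mul_zero]

open Classical in
/-- the weighted indicator of the sieve -/
noncomputable def Gs (N E iz : ℕ) (ix : ℕ → ℕ) (wb : ℕ → ℝ) (P : Finset ℕ) (s : ℕ) : ℝ :=
  if (∀ p ∈ SP E, ¬ p ∣ N ^ 2 + s ^ 2) ∧ (∀ p ∈ P, ix p ≤ iz → ¬ p ∣ N ^ 2 + s ^ 2) then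
    1 - ∑ p ∈ P.filter (fun p => iz < ix p ∧ p ∣ N ^ 2 + s ^ 2), wb (ix p) else 0

/-- [PTW-H3a4] Proof. `a = N ^ 2 + s ^ 2`, `φ p = [p ∣ a]`, `S = {p ∈ P : ix p ≤ iz, p ∣ a}`, `ι = [S = ∅]`, `u = [no p ∈ SP E divides a]`. By `LW_sum`, `MT_ind`: the first sum is `A - ∑_q wb (ix q) B_q` over `q ∈ P`, `iz < ix q`, `q ∣ a`, with `A = MT 1 false l S ≤ ι`, `B_q = MT 1 true (l - ix q) S ≥ ι`; the second
is `D = MT 1 true l S ≥ ι` (`MT_one`). `Gs = u ι - ∑_q wb u ι`. Now `u ι ≤ X ι ≤ X B_q` and `X A - (X - Y) D ≤ X ι - (X - Y) ι = Y ι ≤ u ι` (`X ≥ u ≥ 0`, `X - Y ≥ 0`, `ι ≥ 0`). -/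
theorem Gs_ge (N E l iz iu s : ℕ) (ix : ℕ → ℕ) (hix : Monotone ix) (wb : ℕ → ℝ) (hwb : ∀ i, 0 ≤ wb i) (P : Finset ℕ) (hP : ∀ p ∈ P, ix p ≤ iu)
    (X Y : ℝ) (hX : (if ∀ p ∈ SP E, ¬ p ∣ N ^ 2 + s ^ 2 then (1 : ℝ) else 0) ≤ X) (hY : Y ≤ (if ∀ p ∈ SP E, ¬ p ∣ N ^ 2 + s ^ 2 then (1 : ℝ) else 0)) :
    X * (∑ T ∈ P.powerset, LW l iz iu wb (pat ix T) * ∏ p ∈ T, (if p ∣ N ^ 2 + s ^ 2 then (1 : ℝ) else 0)) -
      (X - Y) * (∑ T ∈ (P.filter (fun p => ix p ≤ iz)).powerset, lamL true l (pat ix T) * ∏ p ∈ T, (if p ∣ N ^ 2 + s ^ 2 then (1 : ℝ) else 0)) ≤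
      Gs N E iz ix wb P s := by
  classical
  have hsum := LW_sum ix hix l iz iu wb (fun p => if p ∣ N ^ 2 + s ^ 2 then (1 : ℝ) else 0) P hP
  rw [hsum]
  have hD : ∑ T ∈ (P.filter (fun p => ix p ≤ iz)).powerset, lamL true l (pat ix T) *
      ∏ p ∈ T, (if p ∣ N ^ 2 + s ^ 2 then (1 : ℝ) else 0) =
      MT ix (fun p => if p ∣ N ^ 2 + s ^ 2 then (1 : ℝ) else 0) true l (P.filter (fun p => ix p ≤ iz)) := rfl
  rw [hD]
  simp only [MT_ind]
  obtain ⟨S, hS⟩ : ∃ S, S = (P.filter (fun p => ix p ≤ iz)).filter (fun p => p ∣ N ^ 2 + s ^ 2) := ⟨_, rfl⟩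
  obtain ⟨ι, hι⟩ : ∃ ι : ℝ, ι = if S = ∅ then (1 : ℝ) else 0 := ⟨_, rfl⟩
  obtain ⟨u, hu⟩ : ∃ u : ℝ, u = if ∀ p ∈ SP E, ¬ p ∣ N ^ 2 + s ^ 2 then (1 : ℝ) else 0 := ⟨_, rfl⟩
  rw [← hS]
  rw [← hu] at hX hY
  have hι0 : 0 ≤ ι := by rw [hι]; split_ifs <;> norm_num
  have hu0 : 0 ≤ u := by rw [hu]; split_ifs <;> norm_num
  have hX0 : 0 ≤ X := hu0.trans hX
  have hA : MT ix (fun _ => 1) false l S ≤ ι := by rw [hι]; exact (MT_one ix l S).2
  have hB : ∀ l', ι ≤ MT ix (fun _ => 1) true l' S := fun l' => by rw [hι]; exact (MT_one ix l' S).1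
  have hSe : S = ∅ ↔ ∀ p ∈ P, ix p ≤ iz → ¬ p ∣ N ^ 2 + s ^ 2 := by
    rw [hS, filter_eq_empty_iff]
    constructor
    · exact fun h p hp hp2 => h (mem_filter.2 ⟨hp, hp2⟩)
    · exact fun h p hp => h p (mem_filter.1 hp).1 (mem_filter.1 hp).2
  have hG : Gs N E iz ix wb P s = u * ι * (1 - ∑ p ∈ P.filter (fun p => iz < ix p),
      wb (ix p) * (if p ∣ N ^ 2 + s ^ 2 then (1 : ℝ) else 0)) := by
    have hw : ∑ p ∈ P.filter (fun p => iz < ix p ∧ p ∣ N ^ 2 + s ^ 2), wb (ix p) =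
        ∑ p ∈ P.filter (fun p => iz < ix p), wb (ix p) * (if p ∣ N ^ 2 + s ^ 2 then (1 : ℝ) else 0) := by
      rw [← filter_filter, sum_filter]
      refine sum_congr rfl fun p _ => ?_
      split_ifs <;> ring
    unfold Gs
    rw [hw, hu, hι]
    by_cases h1 : ∀ p ∈ SP E, ¬ p ∣ N ^ 2 + s ^ 2
    · by_cases h2 : S = ∅
      · rw [if_pos ⟨h1, hSe.1 h2⟩, if_pos h1, if_pos h2]
        ring
      · rw [if_neg (fun h => h2 (hSe.2 h.2)), if_neg h2]
        ring
    · rw [if_neg (fun h => h1 h.1), if_neg h1]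
      ring
  rw [hG]
  have k1 : X * MT ix (fun _ => 1) false l S ≤ X * ι := mul_le_mul_of_nonneg_left hA hX0
  have k2 : (X - Y) * ι ≤ (X - Y) * MT ix (fun _ => 1) true l S :=
    mul_le_mul_of_nonneg_left (hB l) (by linarith)
  have k3 : ∑ p ∈ P.filter (fun p => iz < ix p), u * ι * (wb (ix p) *
      (if p ∣ N ^ 2 + s ^ 2 then (1 : ℝ) else 0)) ≤
      ∑ p ∈ P.filter (fun p => iz < ix p), X * (wb (ix p) *
      ((if p ∣ N ^ 2 + s ^ 2 then (1 : ℝ) else 0) * MT ix (fun _ => 1) true (l - ix p) S)) := by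
    refine sum_le_sum fun p _ => ?_
    have a1 : (0 : ℝ) ≤ if p ∣ N ^ 2 + s ^ 2 then (1 : ℝ) else 0 := by split_ifs <;> norm_num
    have a2 := hB (l - ix p)
    have a3 := hwb (ix p)
    have a4 : u * ι ≤ X * MT ix (fun _ => 1) true (l - ix p) S :=
      mul_le_mul hX a2 hι0 hX0
    calc u * ι * (wb (ix p) * (if p ∣ N ^ 2 + s ^ 2 then (1 : ℝ) else 0))
        ≤ X * MT ix (fun _ => 1) true (l - ix p) S * (wb (ix p) * (if p ∣ N ^ 2 + s ^ 2 then (1 : ℝ) else 0)) :=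
          mul_le_mul_of_nonneg_right a4 (mul_nonneg a3 a1)
      _ = _ := by ring
  rw [← mul_sum, ← mul_sum] at k3
  have k4 : Y * ι ≤ u * ι := mul_le_mul_of_nonneg_right hY hι0
  nlinarith [k1, k2, k3, k4]

end Pool.Agent.PTW.BH
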