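import Pool.Agent.PTW.I2

/-! # [PTW-I1] few bad `s` -/

set_option autoImplicit false

namespace Pool.Agent.PTW

open Finset

/-- the count of `s ∈ [1, N]` in given classes modulo `q` -/
theorem count_classes (N q : ℕ) (hq : 0 < q) (P : ℕ → Prop) [DecidablePred P] (hP : ∀ s, P s → P (s % q)) :
    ((Icc 1 N).filter P).card ≤ ((range q).filter P).card * (N / q + 1) := by
  have h1 : ((Icc 1 N).filter P) ⊆ ((range q).filter P).biUnion
      (fun r => (range (N / q + 1)).image (fun t => r + q * t)) := by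
    intro s hs
    rw [mem_filter, mem_Icc] at hs
    rw [mem_biUnion]
    refine ⟨s % q, ?_, ?_⟩
    · rw [mem_filter, mem_range]
      exact ⟨Nat.mod_lt _ hq, hP s hs.2⟩
    · rw [mem_image]
      refine ⟨s / q, ?_, Nat.mod_add_div s q⟩
      rw [mem_range, Nat.lt_succ_iff]
      exact Nat.div_le_div_right hs.1.2
  calc ((Icc 1 N).filter P).card ≤ _ := Finset.card_le_card h1
    _ ≤ ∑ r ∈ (range q).filter P, ((range (N / q + 1)).image (fun t => r + q * t)).card := Finset.card_biUnion_le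
    _ ≤ ∑ _r ∈ (range q).filter P, (N / q + 1) := by
        apply Finset.sum_le_sum
        intro r _
        exact Finset.card_image_le.trans (by rw [card_range])
    _ = ((range q).filter P).card * (N / q + 1) := by rw [Finset.sum_const, smul_eq_mul]

/-- at most two roots of `N ^ 2 + s ^ 2 = 0` modulo `p ^ 2` -/
theorem roots_sq (N p : ℕ) (hp : p.Prime) (h2 : p ≠ 2) (hN : ¬ p ∣ N) :
    ((range (p ^ 2)).filter (fun s => p ^ 2 ∣ N ^ 2 + s ^ 2)).card ≤ 2 := by
  classical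
  by_cases h : ∃ r, r < p ^ 2 ∧ p ^ 2 ∣ N ^ 2 + r ^ 2
  · obtain ⟨r, hr1, hr2⟩ := h
    have hrp : ¬ p ∣ r := by
      intro h3
      have h4 : p ∣ N ^ 2 + r ^ 2 := (dvd_pow_self p two_ne_zero).trans hr2
      have h5 : p ∣ N ^ 2 := (Nat.dvd_add_left (dvd_pow h3 two_ne_zero)).1 h4
      exact hN (hp.dvd_of_dvd_pow h5)
    have hsub : (range (p ^ 2)).filter (fun s => p ^ 2 ∣ N ^ 2 + s ^ 2) ⊆ {r, p ^ 2 - r} := by
      intro s hs
      rw [mem_filter, mem_range] at hs
      rw [mem_insert, mem_singleton]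
      have h6 : ((p ^ 2 : ℕ) : ℤ) ∣ ((s : ℤ) - r) * (s + r) := by
        have h7 : ((p ^ 2 : ℕ) : ℤ) ∣ ((N ^ 2 + s ^ 2 : ℕ) : ℤ) - ((N ^ 2 + r ^ 2 : ℕ) : ℤ) :=
          dvd_sub (Int.natCast_dvd_natCast.2 hs.2) (Int.natCast_dvd_natCast.2 hr2)
        have h8 : ((N ^ 2 + s ^ 2 : ℕ) : ℤ) - ((N ^ 2 + r ^ 2 : ℕ) : ℤ) = ((s : ℤ) - r) * (s + r) := by
          push_cast
          ring
        rwa [h8] at h7
      have hpi : Prime (p : ℤ) := Nat.prime_iff_prime_int.1 hp
      have hnot : ¬ ((p : ℤ) ∣ (s : ℤ) - r ∧ (p : ℤ) ∣ (s : ℤ) + r) := by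
        rintro ⟨h7, h8⟩
        have h9 : (p : ℤ) ∣ 2 * r := by
          have h10 := dvd_sub h8 h7
          have h11 : (s : ℤ) + r - (s - r) = 2 * r := by ring
          rwa [h11] at h10
        rcases hpi.dvd_or_dvd h9 with h10 | h10
        · have h11 : p ∣ 2 := by exact_mod_cast h10
          have := (Nat.prime_dvd_prime_iff_eq hp Nat.prime_two).1 h11
          exact h2 this
        · exact hrp (by exact_mod_cast h10)
      push_cast at h6
      have hcase : ((p : ℤ) ^ 2 ∣ (s : ℤ) - r) ∨ ((p : ℤ) ^ 2 ∣ (s : ℤ) + r) := by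
        by_cases h7 : (p : ℤ) ∣ (s : ℤ) - r
        · left
          have h8 : ¬ (p : ℤ) ∣ (s : ℤ) + r := fun h8 => hnot ⟨h7, h8⟩
          have h9 : IsCoprime ((p : ℤ) ^ 2) ((s : ℤ) + r) :=
            ((Prime.coprime_iff_not_dvd hpi).2 h8).pow_left
          exact h9.dvd_of_dvd_mul_right h6
        · right
          have h9 : IsCoprime ((p : ℤ) ^ 2) ((s : ℤ) - r) :=
            ((Prime.coprime_iff_not_dvd hpi).2 h7).pow_left
          exact h9.dvd_of_dvd_mul_left h6
      have hsl : (s : ℤ) < (p : ℤ) ^ 2 := by exact_mod_cast hs.1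
      have hrl : (r : ℤ) < (p : ℤ) ^ 2 := by exact_mod_cast hr1
      have hs0 : (0 : ℤ) ≤ s := Int.natCast_nonneg s
      have hr0 : (0 : ℤ) < r := by
        have : 0 < r := Nat.pos_of_ne_zero fun h7 => hrp (by rw [h7]; exact dvd_zero p)
        exact_mod_cast this
      rcases hcase with h7 | h7
      · left
        have h8 : (s : ℤ) - r = 0 := by
          apply Int.eq_zero_of_abs_lt_dvd h7
          rw [abs_lt]
          constructor <;> linarith
        have h9 : (s : ℤ) = r := by linarith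
        exact_mod_cast h9
      · right
        obtain ⟨k, hk⟩ := h7
        have hp0 : (0 : ℤ) < (p : ℤ) ^ 2 := by
          have : (0 : ℤ) < (p : ℤ) := by exact_mod_cast hp.pos
          positivity
        have hk1 : k = 1 := by
          have h8 : 0 < k := by
            by_contra h9
            rw [not_lt] at h9
            nlinarith
          have h10 : k < 2 := by
            by_contra h9
            rw [not_lt] at h9
            nlinarith
          omega
        rw [hk1, mul_one] at hk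
        have h8 : s + r = p ^ 2 := by exact_mod_cast hk
        omega
    exact (Finset.card_le_card hsub).trans Finset.card_le_two
  · rw [Finset.filter_false_of_mem]
    · simp
    · intro r hr h3
      exact h ⟨r, mem_range.1 hr, h3⟩

open Classical in
/-- [I1] few bad `s` -/
theorem bad_card {N E : ℕ} (hN : 1 < N) (hE : 1 ≤ E) {θ : ℝ} (hθ : 0 < θ) :
    (((Icc 1 N).filter (fun s => BadS N E s θ)).card : ℝ) ≤
      N * (4 + 2 * Real.log N) / 2 ^ E + 2 * (N : ℝ) ^ θ + 2 := by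
  have hNr : (1 : ℝ) < N := by exact_mod_cast hN
  have hl : 0 < Real.log N := Real.log_pos hNr
  set X : ℕ := ⌊(N : ℝ) ^ θ⌋₊ with hX
  -- the two families
  set P1 := N.primeFactors.filter (fun p => 2 ^ E < p) with hP1
  set P2 := (Ioc (2 ^ E) X).filter (fun p => p.Prime ∧ ¬ p ∣ N) with hP2
  have hcov : (Icc 1 N).filter (fun s => BadS N E s θ) ⊆
      P1.biUnion (fun p => (Icc 1 N).filter (fun s => p ∣ s)) ∪
      P2.biUnion (fun p => (Icc 1 N).filter (fun s => p ^ 2 ∣ N ^ 2 + s ^ 2)) := by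
    intro s hs
    rw [mem_filter] at hs
    obtain ⟨hs1, p, hp, hpE, h | h⟩ := hs
    · rw [mem_union]
      left
      rw [mem_biUnion]
      refine ⟨p, ?_, mem_filter.2 ⟨hs1, h.2⟩⟩
      rw [hP1, mem_filter, Nat.mem_primeFactors]
      exact ⟨⟨hp, h.1, by omega⟩, hpE⟩
    · rw [mem_union]
      right
      rw [mem_biUnion]
      refine ⟨p, ?_, mem_filter.2 ⟨hs1, h.2.1⟩⟩
      rw [hP2, mem_filter, mem_Ioc]
      exact ⟨⟨hpE, Nat.le_floor h.2.2.le⟩, hp, h.1⟩
  have hE0 : (0 : ℝ) < 2 ^ E := by positivity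
  -- first family
  have hcard1 : (P1.card : ℝ) ≤ 2 * Real.log N := by
    have h2 : (P1.card : ℝ) * Real.log 2 ≤ Real.log N := by
      have h3 : 2 ^ P1.card ≤ N := by
        calc 2 ^ P1.card ≤ 2 ^ N.primeFactors.card :=
              Nat.pow_le_pow_right (by norm_num) (Finset.card_filter_le _ _)
          _ ≤ ∏ p ∈ N.primeFactors, p := by
              apply Finset.pow_card_le_prod
              intro p hp
              exact (Nat.prime_of_mem_primeFactors hp).two_le
          _ ≤ N := Nat.le_of_dvd (by omega) (Nat.prod_primeFactors_dvd N)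
      have h4 : ((2 : ℝ)) ^ P1.card ≤ N := by exact_mod_cast h3
      rw [← Real.log_pow]
      exact Real.log_le_log (by positivity) h4
    have h5 := Real.log_two_gt_d9
    nlinarith [Nat.cast_nonneg (α := ℝ) P1.card]
  have hfam1 : ((P1.biUnion (fun p => (Icc 1 N).filter (fun s => p ∣ s))).card : ℝ) ≤
      2 * Real.log N * (N / 2 ^ E) := by
    calc ((P1.biUnion (fun p => (Icc 1 N).filter (fun s => p ∣ s))).card : ℝ) ≤
        ∑ p ∈ P1, (((Icc 1 N).filter (fun s => p ∣ s)).card : ℝ) := by exact_mod_cast Finset.card_biUnion_le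
      _ ≤ P1.card • ((N : ℝ) / 2 ^ E) := by
          apply Finset.sum_le_card_nsmul
          intro p hp
          rw [hP1, mem_filter] at hp
          have h3 : ((Icc 1 N).filter (fun s => p ∣ s)).card = N / p := by
            rw [← Nat.Ioc_filter_dvd_card_eq_div]
            rfl
          rw [h3]
          have h4 : ((N / p : ℕ) : ℝ) ≤ (N : ℝ) / p := Nat.cast_div_le
          refine h4.trans ?_
          apply div_le_div_of_nonneg_left (by linarith) hE0
          exact_mod_cast hp.2.le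
      _ = (P1.card : ℝ) * ((N : ℝ) / 2 ^ E) := by rw [nsmul_eq_mul]
      _ ≤ 2 * Real.log N * (N / 2 ^ E) := mul_le_mul_of_nonneg_right hcard1 (by positivity)
  -- second family
  have hfam2 : ((P2.biUnion (fun p => (Icc 1 N).filter (fun s => p ^ 2 ∣ N ^ 2 + s ^ 2))).card : ℝ) ≤
      2 * (2 * (N : ℝ) / 2 ^ E + (N : ℝ) ^ θ) := by
    have h0 : ∀ p ∈ P2, (((Icc 1 N).filter (fun s => p ^ 2 ∣ N ^ 2 + s ^ 2)).card : ℝ) ≤
        2 * (N * ((p : ℝ) ^ 2)⁻¹ + 1) := by
      intro p hp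
      rw [hP2, mem_filter, mem_Ioc] at hp
      obtain ⟨⟨h3, h4⟩, h5, h6⟩ := hp
      have h7 : p ≠ 2 := by
        have : 2 ≤ 2 ^ E := by
          calc 2 = 2 ^ 1 := rfl
            _ ≤ 2 ^ E := Nat.pow_le_pow_right (by norm_num) hE
        omega
      have h8 := count_classes N (p ^ 2) (by have := h5.pos; positivity) (fun s => p ^ 2 ∣ N ^ 2 + s ^ 2) (by
        intro s hs
        have h9 : N ^ 2 + (s % p ^ 2) ^ 2 ≡ N ^ 2 + s ^ 2 [MOD p ^ 2] :=
          Nat.ModEq.add_left _ ((Nat.mod_modEq s (p ^ 2)).pow 2)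
        exact (Nat.ModEq.dvd_iff h9 dvd_rfl).2 hs)
      have h9 := roots_sq N p h5 h7 h6
      have h10 : ((Icc 1 N).filter (fun s => p ^ 2 ∣ N ^ 2 + s ^ 2)).card ≤ 2 * (N / p ^ 2 + 1) :=
        h8.trans (Nat.mul_le_mul_right _ h9)
      have h11 : (((Icc 1 N).filter (fun s => p ^ 2 ∣ N ^ 2 + s ^ 2)).card : ℝ) ≤
          2 * (((N / p ^ 2 : ℕ) : ℝ) + 1) := by exact_mod_cast h10
      have h12 : ((N / p ^ 2 : ℕ) : ℝ) ≤ (N : ℝ) / ((p ^ 2 : ℕ) : ℝ) := Nat.cast_div_le
      push_cast at h12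
      rw [div_eq_mul_inv] at h12
      linarith
    have h1 : ∑ p ∈ P2, ((p : ℝ) ^ 2)⁻¹ ≤ 2 / 2 ^ E := by
      calc ∑ p ∈ P2, ((p : ℝ) ^ 2)⁻¹ ≤ ∑ p ∈ Ioo (2 ^ E) (X + 1), ((p : ℝ) ^ 2)⁻¹ := by
            apply Finset.sum_le_sum_of_subset_of_nonneg
            · intro p hp
              rw [hP2, mem_filter, mem_Ioc] at hp
              rw [mem_Ioo]
              omega
            · intro p _ _
              positivity
        _ ≤ 2 / (((2 ^ E : ℕ) : ℝ) + 1) := sum_Ioo_inv_sq_le (2 ^ E) (X + 1)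
        _ ≤ 2 / 2 ^ E := by
            apply div_le_div_of_nonneg_left (by norm_num) hE0
            push_cast
            linarith
    have h2 : (P2.card : ℝ) ≤ (N : ℝ) ^ θ := by
      have h3 : P2.card ≤ X := by
        calc P2.card ≤ (Ioc (2 ^ E) X).card := Finset.card_filter_le _ _
          _ ≤ X := by rw [Nat.card_Ioc]; exact Nat.sub_le _ _
      calc (P2.card : ℝ) ≤ X := by exact_mod_cast h3
        _ ≤ (N : ℝ) ^ θ := Nat.floor_le (by positivity)
    calc ((P2.biUnion (fun p => (Icc 1 N).filter (fun s => p ^ 2 ∣ N ^ 2 + s ^ 2))).card : ℝ) ≤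
        ∑ p ∈ P2, (((Icc 1 N).filter (fun s => p ^ 2 ∣ N ^ 2 + s ^ 2)).card : ℝ) := by
          exact_mod_cast Finset.card_biUnion_le
      _ ≤ ∑ p ∈ P2, 2 * (N * ((p : ℝ) ^ 2)⁻¹ + 1) := Finset.sum_le_sum h0
      _ = 2 * (N * ∑ p ∈ P2, ((p : ℝ) ^ 2)⁻¹ + P2.card) := by
          rw [← Finset.mul_sum, Finset.sum_add_distrib, ← Finset.mul_sum, Finset.sum_const, nsmul_eq_mul, mul_one]
      _ ≤ 2 * (N * (2 / 2 ^ E) + (N : ℝ) ^ θ) := by
          have := mul_le_mul_of_nonneg_left h1 (by linarith : (0 : ℝ) ≤ N)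
          linarith
      _ = 2 * (2 * (N : ℝ) / 2 ^ E + (N : ℝ) ^ θ) := by ring
  calc (((Icc 1 N).filter (fun s => BadS N E s θ)).card : ℝ) ≤
      ((P1.biUnion (fun p => (Icc 1 N).filter (fun s => p ∣ s)) ∪
      P2.biUnion (fun p => (Icc 1 N).filter (fun s => p ^ 2 ∣ N ^ 2 + s ^ 2))).card : ℝ) := by
        exact_mod_cast Finset.card_le_card hcov
    _ ≤ ((P1.biUnion (fun p => (Icc 1 N).filter (fun s => p ∣ s))).card : ℝ) +
      ((P2.biUnion (fun p => (Icc 1 N).filter (fun s => p ^ 2 ∣ N ^ 2 + s ^ 2))).card : ℝ) := by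
        exact_mod_cast Finset.card_union_le _ _
    _ ≤ 2 * Real.log N * (N / 2 ^ E) + 2 * (2 * (N : ℝ) / 2 ^ E + (N : ℝ) ^ θ) := add_le_add hfam1 hfam2
    _ ≤ N * (4 + 2 * Real.log N) / 2 ^ E + 2 * (N : ℝ) ^ θ + 2 := by
        have : N * (4 + 2 * Real.log N) / 2 ^ E = 2 * Real.log N * (N / 2 ^ E) + 4 * (N : ℝ) / 2 ^ E := by ring
        rw [this]
        have h3 : 2 * (2 * (N : ℝ) / 2 ^ E + (N : ℝ) ^ θ) = 4 * (N : ℝ) / 2 ^ E + 2 * (N : ℝ) ^ θ := by ring
        rw [h3]
        linarith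

end Pool.Agent.PTW
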