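import Pool.Agent.PTW.C3

/-! # [PTW-I2] at most two prime factors -/

set_option autoImplicit false

namespace Pool.Agent.PTW

open Finset

/-- an odd prime dividing `N ^ 2 + s ^ 2` and not `N` is `1` modulo `4` -/
theorem mod_four {N s p : ℕ} (hp : p.Prime) (h2 : p ≠ 2) (hN : ¬ p ∣ N) (hd : p ∣ N ^ 2 + s ^ 2) : p % 4 = 1 := by
  have : Fact p.Prime := ⟨hp⟩
  have hs : (s : ZMod p) ^ 2 = -(N : ZMod p) ^ 2 := by
    have h := (ZMod.natCast_eq_zero_iff (N ^ 2 + s ^ 2) p).2 hd
    push_cast at h
    linear_combination h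
  have hN0 : (N : ZMod p) ≠ 0 := by
    rw [Ne, ZMod.natCast_eq_zero_iff]
    exact hN
  have h3 : IsSquare (-1 : ZMod p) := by
    refine ⟨(s : ZMod p) * (N : ZMod p)⁻¹, ?_⟩
    field_simp
    linear_combination -hs
  have h4 := (ZMod.exists_sq_eq_neg_one_iff (p := p)).1 h3
  have h5 := hp.eq_two_or_odd
  omega

/-- `s` is bad -/
def BadS (N E s : ℕ) (θ : ℝ) : Prop :=
  ∃ p : ℕ, p.Prime ∧ 2 ^ E < p ∧ ((p ∣ N ∧ p ∣ s) ∨ (¬ p ∣ N ∧ p ^ 2 ∣ N ^ 2 + s ^ 2 ∧ (p : ℝ) < (N : ℝ) ^ θ))

/-- if no small prime divides `N ^ 2 + s ^ 2` and the weighted count of the others is `< 1`, then `N ^ 2 + s ^ 2` has at most two prime factors -/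
theorem P2_of_pos {n i0 iz Iu N s : ℕ} {R j : ℕ} (hR : 1 ≤ R) (hj : 1 ≤ j)
    (hn : n = 18000 * R * j) (hiz : iz = 4330 * R * j) (hIu : Iu = 17991 * R * j)
    (hN : 7000 ≤ Real.log N) (hs1 : 1 ≤ s) (hsN : s ≤ N) (hE : 1 ≤ EE n i0 N)
    (wb : ℕ → ℝ) (hwb : ∀ i, i ≤ Iu → 0 ≤ wb i ∧ 1.0012 * (1 - ((i : ℝ) - 1) / Iu) ≤ wb i)
    (h1 : ∀ p : ℕ, p.Prime → p ≤ 2 ^ EE n i0 N → ¬ p ∣ N ^ 2 + s ^ 2)
    (h2 : ∀ p ∈ PP n i0 Iu N, cell n N p ≤ iz → ¬ p ∣ N ^ 2 + s ^ 2)
    (h3 : ∑ p ∈ (PP n i0 Iu N).filter (fun p => iz < cell n N p ∧ p ∣ N ^ 2 + s ^ 2), wb (cell n N p) < 1)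
    (hb : ¬ BadS N (EE n i0 N) s 0.9995) :
    (N ^ 2 + s ^ 2).primeFactorsList.length ≤ 2 ∧
      ∀ p : ℕ, p.Prime → p ∣ N ^ 2 + s ^ 2 → (N : ℝ) ^ (0.24 : ℝ) < p := by
  have hN1 : 1 < N := by
    by_contra h
    have h4 : N = 0 ∨ N = 1 := by omega
    rcases h4 with h4 | h4 <;> subst h4 <;> norm_num at hN
  have hNr : (1 : ℝ) < N := by exact_mod_cast hN1
  have hl : 0 < Real.log N := by linarith
  have hn1 : 1 ≤ n := by
    rw [hn]
    have : 0 < 18000 * R * j := by positivity
    omega
  have hn0 : (0 : ℝ) < n := by exact_mod_cast hn1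
  have hRj : (0 : ℝ) < (R : ℝ) * j := by
    have a : (0 : ℝ) < R := by exact_mod_cast hR
    have b : (0 : ℝ) < j := by exact_mod_cast hj
    positivity
  have en : (n : ℝ) = 18000 * ((R : ℝ) * j) := by rw [hn]; push_cast; ring
  have eiz : (iz : ℝ) = 4330 * ((R : ℝ) * j) := by rw [hiz]; push_cast; ring
  have eIu : (Iu : ℝ) = 17991 * ((R : ℝ) * j) := by rw [hIu]; push_cast; ring
  set m := N ^ 2 + s ^ 2 with hm
  have hm0 : m ≠ 0 := by positivity
  -- the primes of `m`
  have key : ∀ p : ℕ, p.Prime → p ∣ m → p % 4 = 1 ∧ ¬ p ∣ N ∧ 2 ^ EE n i0 N < p ∧ iz < cell n N p := by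
    intro p hp hd
    have hE2 : 2 ^ EE n i0 N < p := by
      by_contra h
      exact h1 p hp (by omega) hd
    have h2E : 2 ≤ 2 ^ EE n i0 N := by
      calc 2 = 2 ^ 1 := rfl
        _ ≤ 2 ^ EE n i0 N := Nat.pow_le_pow_right (by norm_num) hE
    have hpN : ¬ p ∣ N := by
      intro h
      apply hb
      refine ⟨p, hp, hE2, Or.inl ⟨h, ?_⟩⟩
      have h5 : p ∣ s ^ 2 := (Nat.dvd_add_right (dvd_pow h two_ne_zero)).1 hd
      exact hp.dvd_of_dvd_pow h5
    have h4 : p % 4 = 1 := mod_four hp (by omega) hpN hd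
    refine ⟨h4, hpN, hE2, ?_⟩
    by_contra h
    rw [not_lt] at h
    have hizIu : iz ≤ Iu := by
      rw [hiz, hIu]
      gcongr
      norm_num
    exact h2 p ((mem_PP hn1 hN1).2 ⟨hp, h4, hpN, hE2, h.trans hizIu⟩) h hd
  constructor
  · by_contra hk
    rw [not_le] at hk
    set f : ℕ → ℝ := fun p => 1 - Real.log p / (0.9995 * Real.log N) with hf
    -- the sum over the prime factors with multiplicity
    have e1 : ((m.primeFactorsList.length : ℕ) : ℝ) - Real.log m / (0.9995 * Real.log N) =
        ∑ p ∈ m.primeFactors, (m.factorization p : ℝ) * f p := by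
      have e2 : m.primeFactorsList.length = ∑ p ∈ m.primeFactors, m.factorization p := by
        have h := ArithmeticFunction.cardFactors_eq_sum_factorization (n := m)
        rw [ArithmeticFunction.cardFactors_apply] at h
        rw [h, Finsupp.sum, Nat.support_factorization]
      have e3 : Real.log (m : ℝ) = ∑ p ∈ m.primeFactors, (m.factorization p : ℝ) * Real.log p := by
        rw [Real.log_nat_eq_sum_factorization, Finsupp.sum, Nat.support_factorization]
      rw [e2, e3]
      push_cast
      rw [Finset.sum_div, ← Finset.sum_sub_distrib]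
      apply Finset.sum_congr rfl
      intro p _
      rw [hf]
      simp only
      ring
    set A := (PP n i0 Iu N).filter (fun p => iz < cell n N p ∧ p ∣ m) with hA
    have e4 : ∑ p ∈ m.primeFactors, (m.factorization p : ℝ) * f p ≤ ∑ p ∈ A, wb (cell n N p) / 1.0012 := by
      rw [← Finset.sum_filter_add_sum_filter_not m.primeFactors (fun p => cell n N p ≤ Iu)]
      have hneg : ∑ p ∈ m.primeFactors.filter (fun p => ¬ cell n N p ≤ Iu), (m.factorization p : ℝ) * f p ≤ 0 := by
        apply Finset.sum_nonpos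
        intro p hp
        rw [mem_filter, Nat.mem_primeFactors] at hp
        have h5 : Iu < cell n N p := by omega
        rw [lt_cell hN1 hp.1.1.one_le, eIu, en] at h5
        apply mul_nonpos_of_nonneg_of_nonpos (Nat.cast_nonneg _)
        rw [hf]
        simp only
        have h6 : 1 ≤ Real.log p / (0.9995 * Real.log N) := by
          rw [le_div_iff₀ (by positivity)]
          have h7 : 17991 * Real.log N ≤ 18000 * Real.log p := by
            by_contra hc
            rw [not_le] at hc
            nlinarith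
          norm_num
          linarith
        linarith
      have hpos : ∑ p ∈ m.primeFactors.filter (fun p => cell n N p ≤ Iu), (m.factorization p : ℝ) * f p ≤
          ∑ p ∈ A, wb (cell n N p) / 1.0012 := by
        have hset : m.primeFactors.filter (fun p => cell n N p ≤ Iu) = A := by
          ext p
          rw [hA, mem_filter, mem_filter, Nat.mem_primeFactors, mem_PP hn1 hN1]
          constructor
          · rintro ⟨⟨h5, h6, -⟩, h7⟩
            obtain ⟨h8, h9, h10, h11⟩ := key p h5 h6
            exact ⟨⟨h5, h8, h9, h10, h7⟩, h11, h6⟩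
          · rintro ⟨⟨h5, h8, h9, h10, h7⟩, h11, h6⟩
            exact ⟨⟨h5, h6, hm0⟩, h7⟩
        rw [hset]
        apply Finset.sum_le_sum
        intro p hp
        rw [hA, mem_filter, mem_PP hn1 hN1] at hp
        obtain ⟨⟨h5, h8, h9, h10, h7⟩, h11, h6⟩ := hp
        have hpr : (0 : ℝ) < p := by exact_mod_cast h5.pos
        have h12 : m.factorization p = 1 := by
          have h13 : 1 ≤ m.factorization p := (Nat.Prime.dvd_iff_one_le_factorization h5 hm0).1 h6
          by_contra hne
          have h14 : 2 ≤ m.factorization p := by omega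
          apply hb
          refine ⟨p, h5, h10, Or.inr ⟨h9, ?_, ?_⟩⟩
          · exact (Nat.Prime.pow_dvd_iff_le_factorization h5 hm0).2 h14
          · rw [cell_le hN1 h5.one_le, eIu, en] at h7
            rw [← Real.log_lt_log_iff hpr (by positivity), Real.log_rpow (by linarith)]
            have h15 : 18000 * Real.log p < 17991 * Real.log N := by
              by_contra hc
              rw [not_lt] at hc
              nlinarith
            norm_num
            linarith
        rw [h12]
        have h16 := (hwb (cell n N p) h7).2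
        rw [le_div_iff₀ (by norm_num)]
        have h17 : f p ≤ 1 - (((cell n N p : ℕ) : ℝ) - 1) / Iu := by
          rw [hf]
          simp only
          have h18 : (((cell n N p : ℕ) : ℝ) - 1) ≤ n * Real.log p / Real.log N := by
            unfold cell
            push_cast
            rw [add_sub_cancel_right]
            apply Nat.floor_le
            have : 0 ≤ Real.log p := Real.log_nonneg (by exact_mod_cast h5.one_le)
            positivity
          have h19 : (((cell n N p : ℕ) : ℝ) - 1) / Iu ≤ Real.log p / (0.9995 * Real.log N) := by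
            rw [div_le_div_iff₀ (by rw [eIu]; positivity) (by positivity)]
            rw [le_div_iff₀ hl] at h18
            rw [eIu]
            rw [en] at h18
            have h20 : ((((cell n N p : ℕ) : ℝ) - 1) * Real.log N) * 0.9995 ≤ (18000 * ((R : ℝ) * j) * Real.log p) * 0.9995 :=
              mul_le_mul_of_nonneg_right h18 (by norm_num)
            have h21 : (18000 * ((R : ℝ) * j) * Real.log p) * 0.9995 = Real.log p * (17991 * ((R : ℝ) * j)) := by
              norm_num
              ring
            linarith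
          linarith
        push_cast
        nlinarith
      linarith
    have e5 : Real.log m ≤ 2.0001 * Real.log N := by
      have h5 : (m : ℝ) ≤ 2 * (N : ℝ) ^ 2 := by
        have h6 : s ^ 2 ≤ N ^ 2 := Nat.pow_le_pow_left hsN 2
        have h7 : m ≤ 2 * N ^ 2 := by omega
        exact_mod_cast h7
      have h6 : Real.log m ≤ Real.log (2 * (N : ℝ) ^ 2) := Real.log_le_log (by exact_mod_cast Nat.pos_of_ne_zero hm0) h5
      rw [Real.log_mul (by norm_num) (by positivity), Real.log_pow] at h6
      have h7 := Real.log_two_lt_d9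
      push_cast at h6
      linarith
    have e6 : Real.log m / (0.9995 * Real.log N) ≤ 2.0012 := by
      rw [div_le_iff₀ (by positivity)]
      nlinarith
    have e7 : (3 : ℝ) ≤ ((m.primeFactorsList.length : ℕ) : ℝ) := by exact_mod_cast hk
    have e8 : ∑ p ∈ A, wb (cell n N p) / 1.0012 < 1 / 1.0012 := by
      rw [← Finset.sum_div]
      exact div_lt_div_of_pos_right h3 (by norm_num)
    have e9 : (1 : ℝ) / 1.0012 ≤ 0.9989 := by norm_num
    have e10 : Real.log m / (0.9995 * Real.log N) ≤ 2.00111 := by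
      rw [div_le_iff₀ (by positivity)]
      nlinarith
    norm_num at e9
    linarith
  · intro p hp hd
    have h4 := (key p hp hd).2.2.2
    rw [lt_cell hN1 hp.one_le, eiz, en] at h4
    have hpr : (0 : ℝ) < p := by exact_mod_cast hp.pos
    rw [← Real.log_lt_log_iff (by positivity) hpr, Real.log_rpow (by linarith)]
    have h5 : 4330 * Real.log N ≤ 18000 * Real.log p := by
      by_contra hc
      rw [not_le] at hc
      nlinarith
    norm_num
    linarith

end Pool.Agent.PTW
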