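import Pool.Agent.PTW.C2
import Pool.Agent.PTW.C5
import Pool.Agent.PTW.H0b

/-! # [PTW-V1] the product over the small primes, of the right order -/

set_option autoImplicit false

namespace Pool.Agent.PTW

open Finset BH

/-- no roots of `-1` modulo the primes `3` modulo `4` -/
theorem V1_rho3 {p : ℕ} (hp : p.Prime) (h3 : p % 4 = 3) : rho p = 0 := by
  unfold rho roots
  rw [Finset.card_eq_zero, Finset.filter_eq_empty_iff]
  intro v _ hv
  have : Fact p.Prime := ⟨hp⟩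
  have h1 : ((v ^ 2 + 1 : ℕ) : ZMod p) = 0 := (ZMod.natCast_eq_zero_iff _ _).2 hv
  push_cast at h1
  have h2 : IsSquare (-1 : ZMod p) := ⟨v, by linear_combination -h1⟩
  exact (ZMod.exists_sq_eq_neg_one_iff (p := p)).1 h2 h3

/-- the factor at each prime -/
theorem V1_term {p : ℕ} (hp : p.Prime) (N : ℕ) :
    (if p = 2 then (1 / 2 : ℝ) else 1) * (if p % 4 = 1 then Real.exp (-(2 / p + 8 * ((p : ℝ) ^ 2)⁻¹)) else 1) *
      (if p ∣ N then 1 - (p : ℝ)⁻¹ else 1) ≤ 1 - g N p := by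
  have hp0 : (0 : ℝ) < p := by exact_mod_cast hp.pos
  have hp2 : (2 : ℝ) ≤ p := by exact_mod_cast hp.two_le
  obtain ⟨g0, g1, g2⟩ := g_bounds hp N
  have hinv : (p : ℝ)⁻¹ ≤ 1 / 2 := by
    rw [inv_eq_one_div, div_le_div_iff₀ hp0 (by norm_num)]
    linarith
  have hinv0 : 0 < (p : ℝ)⁻¹ := by positivity
  have hD0 : 0 ≤ (if p ∣ N then 1 - (p : ℝ)⁻¹ else 1) := by split_ifs <;> linarith
  have hD1 : (if p ∣ N then 1 - (p : ℝ)⁻¹ else 1) ≤ 1 := by split_ifs <;> linarith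
  rcases hp.eq_two_or_odd with h2 | hodd
  · rw [if_pos h2, if_neg (by omega)]
    linarith
  · rw [if_neg (by rintro rfl; omega)]
    rcases (by omega : p % 4 = 1 ∨ p % 4 = 3) with h4 | h4
    · rw [if_pos h4]
      have h5 : (4 : ℝ) ≤ p := by
        have : 4 ≤ p := by
          have := hp.two_le
          omega
        exact_mod_cast this
      have h6 : 2 / (p : ℝ) ≤ 1 / 2 := by
        rw [div_le_div_iff₀ hp0 (by norm_num)]
        linarith
      have h7 := one_sub_ge (u := 2 / (p : ℝ)) (by positivity) h6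
      have h8 : 2 / (p : ℝ) + 2 * (2 / (p : ℝ)) ^ 2 = 2 / p + 8 * ((p : ℝ) ^ 2)⁻¹ := by
        field_simp
        ring
      rw [h8] at h7
      have h9 : 0 ≤ Real.exp (-(2 / (p : ℝ) + 8 * ((p : ℝ) ^ 2)⁻¹)) := (Real.exp_pos _).le
      calc 1 * Real.exp (-(2 / (p : ℝ) + 8 * ((p : ℝ) ^ 2)⁻¹)) * (if p ∣ N then 1 - (p : ℝ)⁻¹ else 1)
          ≤ 1 * Real.exp (-(2 / (p : ℝ) + 8 * ((p : ℝ) ^ 2)⁻¹)) * 1 := by
            apply mul_le_mul_of_nonneg_left hD1
            linarith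
        _ = Real.exp (-(2 / (p : ℝ) + 8 * ((p : ℝ) ^ 2)⁻¹)) := by ring
        _ ≤ 1 - 2 / p := h7
        _ ≤ 1 - g N p := by linarith
    · rw [if_neg (by omega)]
      by_cases hN : p ∣ N
      · rw [if_pos hN, g_dvd hp hN]
        rw [one_div]
        linarith
      · rw [if_neg hN, g_not_dvd hp hN, V1_rho3 hp h4]
        simp

/-- the product over the prime divisors -/
theorem V1_phi {N : ℕ} (hN : 1 ≤ N) (E : ℕ) :
    (Nat.totient N : ℝ) / N ≤ ∏ p ∈ SP E, (if p ∣ N then 1 - (p : ℝ)⁻¹ else 1) := by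
  have hN0 : (0 : ℝ) < N := by exact_mod_cast hN
  have h1 : (Nat.totient N : ℝ) = N * ∏ p ∈ N.primeFactors, (1 - (p : ℝ)⁻¹) := by
    have := Nat.totient_eq_mul_prod_factors N
    have h2 : ((Nat.totient N : ℚ) : ℝ) = ((N * ∏ p ∈ N.primeFactors, (1 - (p : ℚ)⁻¹) : ℚ) : ℝ) := by rw [this]
    push_cast at h2
    exact h2
  rw [h1, mul_div_cancel_left₀ _ hN0.ne']
  rw [← Finset.prod_filter]
  have hsub : (SP E).filter (fun p => p ∣ N) ⊆ N.primeFactors := by
    intro p hp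
    unfold SP at hp
    rw [mem_filter, mem_filter] at hp
    exact Nat.mem_primeFactors.2 ⟨hp.1.2, hp.2, by omega⟩
  rw [← Finset.prod_sdiff hsub]
  have hb : ∀ p ∈ N.primeFactors, 0 ≤ 1 - (p : ℝ)⁻¹ ∧ 1 - (p : ℝ)⁻¹ ≤ 1 := by
    intro p hp
    have hpp := Nat.prime_of_mem_primeFactors hp
    have hp0 : (0 : ℝ) < p := by exact_mod_cast hpp.pos
    have hp1 : (1 : ℝ) ≤ p := by exact_mod_cast hpp.one_le
    have h3 : (p : ℝ)⁻¹ ≤ 1 := inv_le_one_of_one_le₀ hp1
    have h4 : 0 ≤ (p : ℝ)⁻¹ := by positivity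
    constructor <;> linarith
  have h5 : ∏ p ∈ N.primeFactors \ (SP E).filter (fun p => p ∣ N), (1 - (p : ℝ)⁻¹) ≤ 1 :=
    Finset.prod_le_one (fun p hp => (hb p (mem_sdiff.1 hp).1).1) (fun p hp => (hb p (mem_sdiff.1 hp).1).2)
  have h6 : 0 ≤ ∏ p ∈ (SP E).filter (fun p => p ∣ N), (1 - (p : ℝ)⁻¹) :=
    Finset.prod_nonneg (fun p hp => (hb p (hsub hp)).1)
  calc _ ≤ 1 * ∏ p ∈ (SP E).filter (fun p => p ∣ N), (1 - (p : ℝ)⁻¹) := mul_le_mul_of_nonneg_right h5 h6
    _ = _ := one_mul _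

/-- `∏_{p ≤ 2 ^ E} (1 - g N p) ≥ c φ(N) / (N E)` -/
theorem V1 : ∃ c : ℝ, 0 < c ∧ ∀ E N : ℕ, 1 ≤ E → 1 ≤ N →
    c / E * ((Nat.totient N : ℝ) / N) ≤ ∏ p ∈ SP E, (1 - g N p) := by
  obtain ⟨C, hC, hmer⟩ := mer
  refine ⟨1 / 2 * Real.exp (-(C / Real.log 2 + 16)), by positivity, fun E N hE hN => ?_⟩
  have hE0 : (1 : ℝ) ≤ E := by exact_mod_cast hE
  have hl2 : 0 < Real.log 2 := Real.log_pos (by norm_num)
  have hSP : ∀ p ∈ SP E, p.Prime := fun p hp => by unfold SP at hp; exact (mem_filter.1 hp).2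
  have h1 : ∏ p ∈ SP E, ((if p = 2 then (1 / 2 : ℝ) else 1) * (if p % 4 = 1 then Real.exp (-(2 / p + 8 * ((p : ℝ) ^ 2)⁻¹)) else 1) *
      (if p ∣ N then 1 - (p : ℝ)⁻¹ else 1)) ≤ ∏ p ∈ SP E, (1 - g N p) := by
    apply Finset.prod_le_prod
    · intro p hp
      have hp0 : (0 : ℝ) < p := by exact_mod_cast (hSP p hp).pos
      have hp1 : (1 : ℝ) ≤ p := by exact_mod_cast (hSP p hp).one_le
      have h3 : (p : ℝ)⁻¹ ≤ 1 := inv_le_one_of_one_le₀ hp1
      have a1 : (0 : ℝ) ≤ (if p = 2 then (1 / 2 : ℝ) else 1) := by split_ifs <;> norm_num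
      have a2 : (0 : ℝ) ≤ (if p % 4 = 1 then Real.exp (-(2 / p + 8 * ((p : ℝ) ^ 2)⁻¹)) else 1) := by
        split_ifs
        · exact (Real.exp_pos _).le
        · norm_num
      have a3 : (0 : ℝ) ≤ (if p ∣ N then 1 - (p : ℝ)⁻¹ else 1) := by split_ifs <;> linarith
      exact mul_nonneg (mul_nonneg a1 a2) a3
    · intro p hp
      exact V1_term (hSP p hp) N
  refine le_trans ?_ h1
  rw [Finset.prod_mul_distrib, Finset.prod_mul_distrib]
  have hφ := V1_phi hN E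
  have hφ0 : 0 ≤ (Nat.totient N : ℝ) / N := by positivity
  refine mul_le_mul ?_ hφ hφ0 ?_
  · have h2 : (1 / 2 : ℝ) ≤ ∏ p ∈ SP E, (if p = 2 then (1 / 2 : ℝ) else 1) := by
      rw [Finset.prod_ite_eq' (SP E) 2 (fun _ => (1 / 2 : ℝ))]
      split_ifs <;> norm_num
    have h3 : Real.exp (-(C / Real.log 2 + 16)) / E ≤
        ∏ p ∈ SP E, (if p % 4 = 1 then Real.exp (-(2 / (p : ℝ) + 8 * ((p : ℝ) ^ 2)⁻¹)) else 1) := by
      rw [← Finset.prod_filter, ← Real.exp_sum, Finset.sum_neg_distrib]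
      have hS : (SP E).filter (fun p => p % 4 = 1) =
          (Ioc ⌊(2 : ℝ)⌋₊ ⌊((2 : ℝ) ^ E)⌋₊).filter (fun p => p.Prime ∧ p % 4 = 1) := by
        have e1 : ⌊(2 : ℝ)⌋₊ = 2 := by norm_num
        have e2 : ⌊((2 : ℝ) ^ E)⌋₊ = 2 ^ E := by
          have : ((2 : ℝ) ^ E) = ((2 ^ E : ℕ) : ℝ) := by push_cast; rfl
          rw [this, Nat.floor_natCast]
        rw [e1, e2]
        unfold SP
        ext p
        rw [mem_filter, mem_filter, mem_filter, mem_Icc, mem_Ioc]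
        constructor
        · rintro ⟨⟨⟨_, b⟩, c⟩, d⟩
          refine ⟨⟨?_, b⟩, c, d⟩
          have := c.two_le
          rcases Nat.lt_or_ge 2 p with h | h
          · exact h
          · have : p = 2 := by omega
            subst this
            norm_num at d
        · rintro ⟨⟨a, b⟩, c, d⟩
          exact ⟨⟨⟨by omega, b⟩, c⟩, d⟩
      have hm := hmer 2 ((2 : ℝ) ^ E) le_rfl (by
        calc (2 : ℝ) = 2 ^ 1 := (pow_one 2).symm
          _ ≤ 2 ^ E := pow_le_pow_right₀ (by norm_num) hE)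
      rw [← hS] at hm
      have hlog : Real.log (Real.log ((2 : ℝ) ^ E) / Real.log 2) = Real.log E := by
        rw [Real.log_pow]
        congr 1
        field_simp
      rw [hlog] at hm
      have hm' := (abs_le.1 hm).2
      have hsq : ∑ p ∈ (SP E).filter (fun p => p % 4 = 1), ((p : ℝ) ^ 2)⁻¹ ≤ 2 := by
        refine le_trans ?_ (sum_inv_sq_le (2 ^ E))
        apply Finset.sum_le_sum_of_subset_of_nonneg
        · intro p hp
          unfold SP at hp
          rw [mem_filter, mem_filter, mem_Icc] at hp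
          rw [mem_filter, mem_range]
          exact ⟨by omega, hp.1.2⟩
        · intro p _ _
          positivity
      have hE' : Real.exp (-(C / Real.log 2 + 16)) / E = Real.exp (-(C / Real.log 2 + 16) - Real.log E) := by
        rw [Real.exp_sub, Real.exp_log (by linarith)]
      rw [hE']
      apply Real.exp_le_exp.2
      rw [Finset.sum_add_distrib, ← Finset.mul_sum]
      linarith
    calc 1 / 2 * Real.exp (-(C / Real.log 2 + 16)) / E = 1 / 2 * (Real.exp (-(C / Real.log 2 + 16)) / E) := by ring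
      _ ≤ _ := mul_le_mul h2 h3 (by positivity) (le_trans (by norm_num) h2)
  · apply mul_nonneg
    · exact Finset.prod_nonneg (fun p _ => by split_ifs <;> norm_num)
    · exact Finset.prod_nonneg (fun p _ => by
        split_ifs
        · exact (Real.exp_pos _).le
        · norm_num)

end Pool.Agent.PTW
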