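import Pool.Agent.PTW.Z4
import Pool.Agent.PTW.H

/-! # [PTW-Z] the theorem -/

set_option autoImplicit false

namespace Pool.Agent.PTW

open Finset
open scoped Classical

/-- for every large `N` at least `c φ(N) / log N` integers `1 ≤ s < N` are such that `N ^ 2 + s ^ 2` has at most two prime factors -/
theorem Z : ∃ c : ℝ, 0 < c ∧ ∃ N0 : ℕ, ∀ N : ℕ, N0 ≤ N →
    c * Nat.totient N / Real.log N ≤ (((Ico 1 N).filter (fun s => IsP2 N s)).card : ℝ) := Z4_of Hfin

end Pool.Agent.PTW
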