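import Pool.Agent.PTW.I3
import Pool.Agent.PTW.H0b
import Pool.Agent.PTW.D1
import Pool.Agent.PTW.G3

/-! # [PTW-Z1] the primes of `PP` satisfy the hypotheses of the comparison theorem; trivial bounds of the main sums -/

set_option autoImplicit false

namespace Pool.Agent.PTW

open Finset

theorem Z1_cell_mono (n N : ℕ) (hN : 1 < N) : Monotone (cell n N) := by
  intro p q hpq
  rcases Nat.eq_zero_or_pos p with h | h
  · subst h
    unfold cell
    simp
  · exact ix_mono (by exact_mod_cast hN) h hpq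

theorem Z1_sys (R j : ℕ) (hR : 1 ≤ R) (hj : 1 ≤ j) (κ : ℝ) (hκ : 0 < κ) : ∃ N0 : ℕ, ∀ N : ℕ, N0 ≤ N →
    Sys (18000 * j) (2 * R * (18000 * j)) κ (PP (18000 * R * j) (18000 * j) (2 * R * (18000 * j)) N)
      (cell (18000 * R * j) N) (g N) := by
  have hn : 1 ≤ 18000 * R * j := by
    have : 0 < R * j := Nat.mul_pos hR hj
    rw [Nat.mul_assoc]; omega
  obtain ⟨N0, h⟩ := mass_ix (18000 * R * j) (18000 * j) (2 * R * (18000 * j)) hn (by omega) κ hκ
  refine ⟨max N0 2, fun N hN => ?_⟩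
  have hN1 : 1 < N := by
    have := le_max_right N0 2
    omega
  obtain ⟨h1, h2, h3⟩ := h N ((le_max_left _ _).trans hN)
  have hg : ∀ p ∈ PP (18000 * R * j) (18000 * j) (2 * R * (18000 * j)) N, g N p = 2 / (p : ℝ) := by
    intro p hp
    rw [mem_PP hn hN1] at hp
    rw [BH.g_not_dvd hp.1 hp.2.2.1, BH.rho_four hp.1 hp.2.1]
    norm_num
  refine ⟨?_, Z1_cell_mono _ N hN1, h1, ?_, ?_⟩
  · intro p hp
    rw [mem_PP hn hN1] at hp
    exact (BH.g_bounds hp.1 N).1
  · intro i hi hi'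
    have := h2 i hi hi'
    rw [show (∑ p ∈ (PP (18000 * R * j) (18000 * j) (2 * R * (18000 * j)) N).filter
        (fun p => cell (18000 * R * j) N p = i), g N p) =
        ∑ p ∈ (PP (18000 * R * j) (18000 * j) (2 * R * (18000 * j)) N).filter
        (fun p => ix (18000 * R * j) (N : ℝ) p = i), 2 / (p : ℝ) from
      Finset.sum_congr rfl fun p hp => hg p (mem_filter.1 hp).1]
    exact this
  · rw [show (∑ p ∈ (PP (18000 * R * j) (18000 * j) (2 * R * (18000 * j)) N).filter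
        (fun p => cell (18000 * R * j) N p ≤ 18000 * j), g N p) =
        ∑ p ∈ (PP (18000 * R * j) (18000 * j) (2 * R * (18000 * j)) N).filter
        (fun p => ix (18000 * R * j) (N : ℝ) p ≤ 18000 * j), 2 / (p : ℝ) from
      Finset.sum_congr rfl fun p hp => hg p (mem_filter.1 hp).1]
    exact h3

/-- the restriction to the cells up to `I` does not matter below `I` -/
theorem Z1_filter {n i0 I I' N : ℕ} (hn : 1 ≤ n) (hN : 1 < N) (q : ℕ → Prop) [DecidablePred q]
    (h : ∀ i, q i → i ≤ I ∧ i ≤ I') :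
    (PP n i0 I N).filter (fun p => q (cell n N p)) = (PP n i0 I' N).filter (fun p => q (cell n N p)) := by
  ext p
  rw [mem_filter, mem_filter, mem_PP hn hN, mem_PP hn hN]
  constructor
  · rintro ⟨⟨h1, h2, h3, h4, _⟩, h6⟩
    exact ⟨⟨h1, h2, h3, h4, (h _ h6).2⟩, h6⟩
  · rintro ⟨⟨h1, h2, h3, h4, _⟩, h6⟩
    exact ⟨⟨h1, h2, h3, h4, (h _ h6).1⟩, h6⟩

/-- the main sums bound the product from below and from above -/
theorem Z1_MT (ix : ℕ → ℕ) (φ : ℕ → ℝ) : ∀ S : Finset ℕ, (∀ p ∈ S, 0 ≤ φ p ∧ φ p ≤ 1) → ∀ l : ℕ,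
    MT ix φ false l S ≤ ∏ p ∈ S, (1 - φ p) ∧ ∏ p ∈ S, (1 - φ p) ≤ MT ix φ true l S := by
  intro S
  induction S using Finset.strongInduction with
  | H S ih =>
    intro h0 l
    have hsub : ∀ p ∈ S, S.filter (· < p) ⊂ S := by
      intro p hp
      refine Finset.filter_ssubset.2 ⟨p, hp, lt_irrefl p⟩
    have h1 : ∀ p ∈ S, ∀ q ∈ S.filter (· < p), 0 ≤ φ q ∧ φ q ≤ 1 := fun p _ q hq => h0 q (mem_filter.1 hq).1
    have hprod : ∏ p ∈ S, (1 - φ p) = 1 - ∑ p ∈ S, φ p * ∏ q ∈ S.filter (· < p), (1 - φ q) :=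
      Finset.prod_one_sub_ordered S φ
    rw [hprod, MT_true, MT_false]
    constructor
    · refine sub_le_sub_left (Finset.sum_le_sum fun p hp => ?_) _
      exact mul_le_mul_of_nonneg_left ((ih _ (hsub p hp) (h1 p hp) _).2) (h0 p hp).1
    · refine sub_le_sub_left ?_ _
      calc ∑ p ∈ S.filter (fun p => 3 * ix p ≤ l), φ p * MT ix φ false (l - ix p) (S.filter (· < p))
          ≤ ∑ p ∈ S.filter (fun p => 3 * ix p ≤ l), φ p * ∏ q ∈ S.filter (· < p), (1 - φ q) := by
            refine Finset.sum_le_sum fun p hp => ?_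
            have hp' := (mem_filter.1 hp).1
            exact mul_le_mul_of_nonneg_left ((ih _ (hsub p hp') (h1 p hp') _).1) (h0 p hp').1
        _ ≤ ∑ p ∈ S, φ p * ∏ q ∈ S.filter (· < p), (1 - φ q) := by
            refine Finset.sum_le_sum_of_subset_of_nonneg (filter_subset _ _) fun p hp _ => ?_
            exact mul_nonneg (h0 p hp).1 (Finset.prod_nonneg fun q hq => by
              have := (h1 p hp q hq).2
              linarith)

theorem Z1_MT' (ix : ℕ → ℕ) (φ : ℕ → ℝ) (S : Finset ℕ) (h : ∀ p ∈ S, 0 ≤ φ p ∧ φ p ≤ 1) (l : ℕ) :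
    MT ix φ false l S ≤ 1 ∧ 0 ≤ MT ix φ true l S := by
  obtain ⟨h1, h2⟩ := Z1_MT ix φ S h l
  refine ⟨h1.trans ?_, le_trans ?_ h2⟩
  · exact Finset.prod_le_one (fun p hp => by linarith [(h p hp).2]) (fun p hp => by linarith [(h p hp).1])
  · exact Finset.prod_nonneg fun p hp => by linarith [(h p hp).2]

end Pool.Agent.PTW
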