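import Pool.Agent.PTW.Z1

/-! # [PTW-Z2] bounds of the two main terms -/

set_option autoImplicit false

namespace Pool.Agent.PTW

open Finset

theorem Z2_main {A : ℝ} {F f : ℝ → ℝ} (h : LS A F f) (R : ℕ) (hR : 5 ≤ R) : ∃ j : ℕ, 1 ≤ j ∧ ∃ N0 : ℕ, ∀ N : ℕ, N0 ≤ N →
    ∀ M₁ M₂ : ℝ,
    M₁ = MT (cell (18000 * R * j) N) (g N) false (19485 * (R * j))
          ((PP (18000 * R * j) (18000 * j) (17991 * R * j) N).filter (fun p => cell (18000 * R * j) N p ≤ 4330 * (R * j))) -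
        ∑ p ∈ (PP (18000 * R * j) (18000 * j) (17991 * R * j) N).filter
            (fun p => 4330 * (R * j) < cell (18000 * R * j) N p ∧ cell (18000 * R * j) N p ≤ 17991 * (R * j)),
          wb (R * j) (cell (18000 * R * j) N p) * g N p * MT (cell (18000 * R * j) N) (g N) true
            (19485 * (R * j) - cell (18000 * R * j) N p)
            ((PP (18000 * R * j) (18000 * j) (17991 * R * j) N).filter (fun p => cell (18000 * R * j) N p ≤ 4330 * (R * j))) →
    M₂ = MT (cell (18000 * R * j) N) (g N) true (19485 * (R * j))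
          ((PP (18000 * R * j) (18000 * j) (17991 * R * j) N).filter (fun p => cell (18000 * R * j) N p ≤ 4330 * (R * j))) →
    1 / (1000 * R : ℝ) ≤ M₁ ∧ M₁ ≤ 1 ∧ 0 ≤ M₂ ∧ M₂ ≤ A + 1 := by
  obtain ⟨j₀, hj₀, hmain⟩ := main_term h R hR
  obtain ⟨i₀₀, hcmp⟩ := cmp h (2 * R) (by omega) 1 one_pos
  obtain ⟨j, hj⟩ : ∃ j : ℕ, j = max j₀ i₀₀ := ⟨_, rfl⟩
  have hjj : j₀ ≤ j := hj ▸ le_max_left _ _
  have hji : i₀₀ ≤ j := hj ▸ le_max_right _ _
  have hj1 : 1 ≤ j := hj₀.trans hjj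
  obtain ⟨κ₁, hκ₁, hm1⟩ := hmain j hjj
  obtain ⟨κ₂, hκ₂, hc1⟩ := hcmp (18000 * j) (by omega)
  obtain ⟨N0, hN0⟩ := Z1_sys R j (by omega) hj1 (min κ₁ κ₂) (lt_min hκ₁ hκ₂)
  refine ⟨j, hj1, max N0 2, fun N hN M₁ M₂ hM₁ hM₂ => ?_⟩
  have hN1 : 1 < N := by
    have := le_max_right N0 2
    omega
  have hn : 1 ≤ 18000 * R * j := by
    have : 0 < R * j := Nat.mul_pos (by omega) hj1
    rw [Nat.mul_assoc]; omega
  have hS := hN0 N ((le_max_left _ _).trans hN)
  obtain ⟨m, hm⟩ : ∃ m : ℕ, m = R * j := ⟨_, rfl⟩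
  have hm1' : 1 ≤ m := by rw [hm]; exact Nat.mul_pos (by omega) hj1
  have hm5 : 5 * j ≤ m := by rw [hm]; exact Nat.mul_le_mul_right j hR
  have hRm : 2 * R * (18000 * j) = 36000 * m := by rw [hm]; ring
  have hIm : 17991 * R * j = 17991 * m := by rw [hm]; ring
  have e1 : (PP (18000 * R * j) (18000 * j) (17991 * R * j) N).filter (fun p => cell (18000 * R * j) N p ≤ 4330 * (R * j)) =
      (PP (18000 * R * j) (18000 * j) (2 * R * (18000 * j)) N).filter (fun p => cell (18000 * R * j) N p ≤ 4330 * (R * j)) := by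
    apply Z1_filter hn hN1 (fun i => i ≤ 4330 * (R * j))
    intro i hi
    rw [hRm, hIm]
    rw [← hm] at hi
    omega
  have e2 : (PP (18000 * R * j) (18000 * j) (17991 * R * j) N).filter
            (fun p => 4330 * (R * j) < cell (18000 * R * j) N p ∧ cell (18000 * R * j) N p ≤ 17991 * (R * j)) =
      (PP (18000 * R * j) (18000 * j) (2 * R * (18000 * j)) N).filter
            (fun p => 4330 * (R * j) < cell (18000 * R * j) N p ∧ cell (18000 * R * j) N p ≤ 17991 * (R * j)) := by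
    apply Z1_filter hn hN1 (fun i => 4330 * (R * j) < i ∧ i ≤ 17991 * (R * j))
    intro i hi
    rw [hRm, hIm]
    rw [← hm] at hi
    omega
  have hlow : 1 / (1000 * R : ℝ) ≤ M₁ := by
    rw [hM₁, e1, e2]
    exact hm1 _ _ _ (G3_Sys hS (min_le_left _ _))
  have hφ : ∀ p ∈ (PP (18000 * R * j) (18000 * j) (17991 * R * j) N).filter (fun p => cell (18000 * R * j) N p ≤ 4330 * (R * j)),
      0 ≤ g N p ∧ g N p ≤ 1 := by
    intro p hp
    have hp' := ((mem_PP hn hN1).1 (mem_filter.1 hp).1).1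
    obtain ⟨a1, a2, a3⟩ := BH.g_bounds hp' N
    exact ⟨a1, by linarith⟩
  refine ⟨hlow, ?_, ?_, ?_⟩
  · rw [hM₁]
    have h1 := (Z1_MT' (cell (18000 * R * j) N) (g N) _ hφ (19485 * (R * j))).1
    have h2 : 0 ≤ ∑ p ∈ (PP (18000 * R * j) (18000 * j) (17991 * R * j) N).filter
            (fun p => 4330 * (R * j) < cell (18000 * R * j) N p ∧ cell (18000 * R * j) N p ≤ 17991 * (R * j)),
          wb (R * j) (cell (18000 * R * j) N p) * g N p * MT (cell (18000 * R * j) N) (g N) true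
            (19485 * (R * j) - cell (18000 * R * j) N p)
            ((PP (18000 * R * j) (18000 * j) (17991 * R * j) N).filter (fun p => cell (18000 * R * j) N p ≤ 4330 * (R * j))) := by
      refine Finset.sum_nonneg fun p hp => ?_
      obtain ⟨hp1, hp2, hp3⟩ := mem_filter.1 hp
      have hp' := ((mem_PP hn hN1).1 hp1).1
      refine mul_nonneg (mul_nonneg ?_ (BH.g_bounds hp' N).1) (Z1_MT' _ _ _ hφ _).2
      exact (G3_wb (R * j) _ (by rw [← hm]; exact hm1') hp2 hp3).1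
    linarith
  · rw [hM₂]
    exact (Z1_MT' _ _ _ hφ _).2
  · rw [hM₂, e1]
    have hA3 := h.A3
    have hc := (hc1 _ _ _ (G3_Sys hS (min_le_right _ _)) (19485 * (R * j)) (4330 * (R * j)) (by rw [hRm, ← hm]; omega)
      (by rw [← hm]; omega) (by rw [hRm, ← hm]; omega)
      ((PP (18000 * R * j) (18000 * j) (2 * R * (18000 * j)) N).filter (fun p => cell (18000 * R * j) N p ≤ 4330 * (R * j)))
      (filter_subset _ _) (fun p hp hpi => mem_filter.2 ⟨hp, hpi.le⟩) (fun p hp => (mem_filter.1 hp).2)).2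
      (by rw [← hm]; omega)
    refine hc.trans ?_
    have hmR : (1 : ℝ) ≤ (m : ℝ) := by exact_mod_cast hm1'
    have hmj : 5 * (j : ℝ) ≤ (m : ℝ) := by exact_mod_cast hm5
    have hj0 : (1 : ℝ) ≤ (j : ℝ) := by exact_mod_cast hj1
    rw [← hm]
    have e3 : ((19485 * m : ℕ) : ℝ) / ((4330 * m : ℕ) : ℝ) = 9 / 2 := by
      push_cast
      field_simp
      norm_num
    have e4 : ((18000 * j : ℕ) : ℝ) / ((4330 * m : ℕ) : ℝ) ≤ 1 := by
      push_cast
      rw [div_le_one (by positivity)]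
      linarith
    have e5 : 0 ≤ ((18000 * j : ℕ) : ℝ) / ((4330 * m : ℕ) : ℝ) := by positivity
    rw [e3]
    have e6 : F (9 / 2) ≤ A / 3 := by
      have := h.Fa (show (3 : ℝ) ∈ Set.Ioi 0 by norm_num) (show (9 / 2 : ℝ) ∈ Set.Ioi 0 by norm_num) (by norm_num)
      rwa [h.FA 3 (by norm_num) le_rfl] at this
    have e7 : 0 ≤ F (9 / 2) := by linarith [h.F1 (9 / 2) (by norm_num)]
    have e8 : ((18000 * j : ℕ) : ℝ) / ((4330 * m : ℕ) : ℝ) * F (9 / 2) ≤ 1 * F (9 / 2) :=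
      mul_le_mul_of_nonneg_right e4 e7
    linarith

end Pool.Agent.PTW
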