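import Pool.Agent.PTW.Z2
import Pool.Agent.PTW.V1
import Pool.Agent.PTW.EE7

/-! # [PTW-Z3] the final count from the lower bound of the weighted sum -/

set_option autoImplicit false

namespace Pool.Agent.PTW

open Finset
open scoped Classical

/-- the lower bound of the weighted sum -/
def HSt4 : Prop := ∃ δ : ℕ → ℝ, (∀ b, 0 ≤ δ b) ∧ Filter.Tendsto (fun b : ℕ => (b : ℝ) ^ 4 * δ b) Filter.atTop (nhds 0) ∧
  ∀ R j b : ℕ, 1 ≤ j → 200000 * (4 * b + 6) ≤ R → ∃ C : ℝ, 0 < C ∧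
    ∀ wb : ℕ → ℝ, (∀ i ≤ 17991 * R * j, 0 ≤ wb i ∧ wb i ≤ 2) → ∀ N : ℕ, 2 ≤ N → ∀ M₁ M₂ : ℝ,
    M₁ = MT (cell (18000 * R * j) N) (g N) false (19485 * (R * j))
          ((PP (18000 * R * j) (18000 * j) (17991 * R * j) N).filter (fun p => cell (18000 * R * j) N p ≤ 4330 * (R * j))) -
        ∑ p ∈ (PP (18000 * R * j) (18000 * j) (17991 * R * j) N).filter
            (fun p => 4330 * (R * j) < cell (18000 * R * j) N p ∧ cell (18000 * R * j) N p ≤ 17991 * (R * j)),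
          wb (cell (18000 * R * j) N p) * g N p * MT (cell (18000 * R * j) N) (g N) true
            (19485 * (R * j) - cell (18000 * R * j) N p)
            ((PP (18000 * R * j) (18000 * j) (17991 * R * j) N).filter (fun p => cell (18000 * R * j) N p ≤ 4330 * (R * j))) →
    M₂ = MT (cell (18000 * R * j) N) (g N) true (19485 * (R * j))
          ((PP (18000 * R * j) (18000 * j) (17991 * R * j) N).filter (fun p => cell (18000 * R * j) N p ≤ 4330 * (R * j))) →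
    (N : ℝ) * (∏ p ∈ SP (EE (18000 * R * j) (18000 * j) N), (1 - g N p)) * (M₁ - δ b * (|M₁| + 2 * |M₂|)) -
      C * (N : ℝ) ^ (1 - (1 : ℝ) / 200000) ≤
      ∑ s ∈ Icc 1 N, GW (18000 * R * j) (18000 * j) (4330 * R * j) (17991 * R * j) N wb s

theorem Z4_of (hH : HSt4) : ∃ c : ℝ, 0 < c ∧ ∃ N0 : ℕ, ∀ N : ℕ, N0 ≤ N →
    c * Nat.totient N / Real.log N ≤ (((Ico 1 N).filter (fun s => IsP2 N s)).card : ℝ) := by
  obtain ⟨A, F, f, h⟩ := ls
  have hA3 := h.A3
  obtain ⟨δ, hδ0, hδ, hH⟩ := hH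
  obtain ⟨b, hb1, hb⟩ : ∃ b : ℕ, 1 ≤ b ∧ (b : ℝ) ^ 4 * δ b < 1 / (4 * 10 ^ 9 * (2 * A + 3)) :=
    ((Filter.eventually_ge_atTop 1).and (hδ.eventually (gt_mem_nhds (by positivity)))).exists
  obtain ⟨R, hR⟩ : ∃ R : ℕ, R = 200000 * (4 * b + 6) := ⟨_, rfl⟩
  have hR5 : 5 ≤ R := by rw [hR]; omega
  have hb1' : (1 : ℝ) ≤ b := by exact_mod_cast hb1
  have hRr : (R : ℝ) = 200000 * (4 * b + 6) := by rw [hR]; push_cast; ring
  have hR5' : (5 : ℝ) ≤ R := by exact_mod_cast hR5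
  obtain ⟨j, hj, N1, hN1⟩ := Z2_main h R hR5
  obtain ⟨C, hC, hHC⟩ := hH R j b hj (by rw [hR])
  obtain ⟨c, hc, hv⟩ := v0_SP
  obtain ⟨c', hc', hv'⟩ := V1
  obtain ⟨N2, hN2⟩ := bad_small (n := 18000 * R * j) (i0 := 18000 * j) (Rr := R) (j := j) (by omega) hj rfl rfl 1 one_pos
  have hδb : δ b * (2 * A + 3) ≤ 1 / (2000 * R) := by
    rw [lt_div_iff₀ (by positivity)] at hb
    rw [le_div_iff₀ (by positivity), hRr]
    have h1 : (4 * (b : ℝ) + 6) ≤ 10 * (b : ℝ) ^ 4 := by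
      have : (b : ℝ) ≤ (b : ℝ) ^ 4 := le_self_pow₀ hb1' (by norm_num)
      linarith
    have h2 : 0 ≤ δ b * (2 * A + 3) := mul_nonneg (hδ0 b) (by linarith)
    calc δ b * (2 * A + 3) * (2000 * (200000 * (4 * b + 6)))
        = δ b * (2 * A + 3) * (4 * 10 ^ 8) * (4 * b + 6) := by ring
      _ ≤ δ b * (2 * A + 3) * (4 * 10 ^ 8) * (10 * (b : ℝ) ^ 4) :=
          mul_le_mul_of_nonneg_left h1 (by positivity)
      _ = (b : ℝ) ^ 4 * δ b * (4 * 10 ^ 9 * (2 * A + 3)) := by ring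
      _ ≤ 1 := hb.le
  obtain ⟨c₁, hc₁⟩ : ∃ c₁ : ℝ, c₁ = c / (2000 * R) := ⟨_, rfl⟩
  have hc₁0 : 0 < c₁ := by rw [hc₁]; positivity
  obtain ⟨X, hX⟩ : ∃ X : ℝ, X = max (4 / c₁) (4 * C * (120 * 200000 ^ 5) / c₁) := ⟨_, rfl⟩
  have hlog : Filter.Tendsto (fun N : ℕ => Real.log (N : ℝ)) Filter.atTop Filter.atTop :=
    Real.tendsto_log_atTop.comp tendsto_natCast_atTop_atTop
  obtain ⟨N3, hN3⟩ := Filter.eventually_atTop.1 (hlog.eventually (Filter.eventually_ge_atTop X))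
  refine ⟨c' / (4000 * R), by positivity, max (max N1 N2) N3, fun N hN => ?_⟩
  have hNN1 : N1 ≤ N := (le_max_left _ _).trans ((le_max_left _ _).trans hN)
  have hNN2 : N2 ≤ N := (le_max_right _ _).trans ((le_max_left _ _).trans hN)
  have hNN3 : N3 ≤ N := (le_max_right _ _).trans hN
  obtain ⟨hL, hE, hbad⟩ := hN2 N hNN2
  have hLX := hN3 N hNN3
  obtain ⟨L, hLd⟩ : ∃ L : ℝ, L = Real.log N := ⟨_, rfl⟩
  rw [← hLd] at hL hLX hbad ⊢
  have hL0 : 0 < L := by linarith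
  have hN2' : 2 ≤ N := by
    rcases Nat.lt_or_ge N 2 with h2 | h2
    · exfalso
      have : L = 0 := by
        rw [hLd]
        interval_cases N <;> simp
      linarith
    · exact h2
  have hN0 : (0 : ℝ) < N := by exact_mod_cast (by omega : 0 < N)
  have hn0 : 0 < R * j := Nat.mul_pos (by omega) hj
  -- the weighted sum
  have hwb : ∀ i ≤ 17991 * R * j, 0 ≤ wb (R * j) i ∧ wb (R * j) i ≤ 2 ∧
      1.0012 * (1 - ((i : ℝ) - 1) / ((17991 * R * j : ℕ) : ℝ)) ≤ wb (R * j) i := by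
    intro i hi
    have hm : (1 : ℝ) ≤ ((R * j : ℕ) : ℝ) := by exact_mod_cast hn0
    have e0 : ((17991 * R * j : ℕ) : ℝ) = 17991 * ((R * j : ℕ) : ℝ) := by push_cast; ring
    have hi' : (i : ℝ) ≤ 17991 * ((R * j : ℕ) : ℝ) := by
      rw [← e0]; exact_mod_cast hi
    have hi0 : (0 : ℝ) ≤ i := Nat.cast_nonneg i
    rw [e0]
    unfold wb
    have e1 : ((i : ℝ) - 1) / (17991 * ((R * j : ℕ) : ℝ)) ≤ 1 := by
      rw [div_le_one (by positivity)]
      linarith
    have e2 : -(1 / 17991) ≤ ((i : ℝ) - 1) / (17991 * ((R * j : ℕ) : ℝ)) := by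
      rw [le_div_iff₀ (by positivity)]
      nlinarith
    refine ⟨mul_nonneg (by norm_num) (by linarith), by linarith, ?_⟩
    have e3 : (1.0012 : ℝ) = 2503 / 2500 := by norm_num
    rw [e3]
  obtain ⟨M₁, hM₁⟩ : ∃ M₁ : ℝ, M₁ = MT (cell (18000 * R * j) N) (g N) false (19485 * (R * j))
          ((PP (18000 * R * j) (18000 * j) (17991 * R * j) N).filter (fun p => cell (18000 * R * j) N p ≤ 4330 * (R * j))) -
        ∑ p ∈ (PP (18000 * R * j) (18000 * j) (17991 * R * j) N).filter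
            (fun p => 4330 * (R * j) < cell (18000 * R * j) N p ∧ cell (18000 * R * j) N p ≤ 17991 * (R * j)),
          wb (R * j) (cell (18000 * R * j) N p) * g N p * MT (cell (18000 * R * j) N) (g N) true
            (19485 * (R * j) - cell (18000 * R * j) N p)
            ((PP (18000 * R * j) (18000 * j) (17991 * R * j) N).filter (fun p => cell (18000 * R * j) N p ≤ 4330 * (R * j))) :=
    ⟨_, rfl⟩
  obtain ⟨M₂, hM₂⟩ : ∃ M₂ : ℝ, M₂ = MT (cell (18000 * R * j) N) (g N) true (19485 * (R * j))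
          ((PP (18000 * R * j) (18000 * j) (17991 * R * j) N).filter (fun p => cell (18000 * R * j) N p ≤ 4330 * (R * j))) :=
    ⟨_, rfl⟩
  obtain ⟨hm1, hm2, hm3, hm4⟩ := hN1 N hNN1 M₁ M₂ hM₁ hM₂
  have hW := hHC (wb (R * j)) (fun i hi => ⟨(hwb i hi).1, (hwb i hi).2.1⟩) N hN2' M₁ M₂ hM₁ hM₂
  have hG := sum_GW_le (n := 18000 * R * j) (i0 := 18000 * j) (iz := 4330 * R * j) (Iu := 17991 * R * j) (N := N) (R := R) (j := j)
    (by omega) hj rfl rfl rfl (by rw [← hLd]; exact hL) hE (wb (R * j)) (fun i hi => ⟨(hwb i hi).1, (hwb i hi).2.2⟩)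
  -- the product over the small primes
  obtain ⟨E, hEd⟩ : ∃ E : ℕ, E = EE (18000 * R * j) (18000 * j) N := ⟨_, rfl⟩
  rw [← hEd] at hE hW
  have hEL : (E : ℝ) ≤ L := by
    have h1 : (E : ℝ) ≤ ((18000 * j : ℕ) : ℝ) * L / (((18000 * R * j : ℕ) : ℝ) * Real.log 2) := by
      rw [hEd, hLd]
      exact Nat.floor_le (by positivity)
    refine h1.trans ?_
    have hl2 : (0.5 : ℝ) < Real.log 2 := by linarith [Real.log_two_gt_d9]
    have hj' : (1 : ℝ) ≤ j := by exact_mod_cast hj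
    rw [div_le_iff₀ (by positivity)]
    push_cast
    have h2 : (1 : ℝ) ≤ R * Real.log 2 := by nlinarith
    have h3 : (18000 * (j : ℝ) * L) * 1 ≤ (18000 * (j : ℝ) * L) * (R * Real.log 2) :=
      mul_le_mul_of_nonneg_left h2 (by positivity)
    linarith
  have hE1 : (1 : ℝ) ≤ E := by exact_mod_cast hE
  have hV := hv E hE (g N) (fun p hp => BH.g_bounds hp N)
  have hV' : c / L ^ 2 ≤ ∏ p ∈ SP E, (1 - g N p) := by
    refine le_trans ?_ hV
    exact div_le_div_of_nonneg_left hc.le (by positivity) (pow_le_pow_left₀ (by linarith) hEL 2)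
  have hmain : 1 / (2000 * R) ≤ M₁ - δ b * (|M₁| + 2 * |M₂|) := by
    have h0 : (0 : ℝ) < 1 / (1000 * R) := by positivity
    have h1 : |M₁| + 2 * |M₂| ≤ 2 * A + 3 := by
      rw [abs_of_nonneg (by linarith), abs_of_nonneg hm3]
      linarith
    have h2 : δ b * (|M₁| + 2 * |M₂|) ≤ δ b * (2 * A + 3) := mul_le_mul_of_nonneg_left h1 (hδ0 b)
    have h3 : (1 : ℝ) / (1000 * R) = 1 / (2000 * R) + 1 / (2000 * R) := by
      field_simp
      norm_num
    linarith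
  obtain ⟨V, hVd⟩ : ∃ V : ℝ, V = ∏ p ∈ SP E, (1 - g N p) := ⟨_, rfl⟩
  have hV2 := hv' E N hE (by omega)
  rw [← hVd] at hV' hV2 hW
  have hV0 : 0 ≤ V := le_trans (by positivity) hV'
  have hmul : N * V * (1 / (2000 * R)) ≤ (N : ℝ) * V * (M₁ - δ b * (|M₁| + 2 * |M₂|)) :=
    mul_le_mul_of_nonneg_left hmain (mul_nonneg hN0.le hV0)
  have hmul1 : c₁ * N / L ^ 2 ≤ N * V * (1 / (2000 * R)) := by
    have h1 : c₁ * N / L ^ 2 = N * (c / L ^ 2) * (1 / (2000 * R)) := by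
      rw [hc₁]
      field_simp
    rw [h1]
    exact mul_le_mul_of_nonneg_right (mul_le_mul_of_nonneg_left hV' hN0.le) (by positivity)
  have hmul2 : c' / (4000 * R) * Nat.totient N / L ≤ N * V * (1 / (2000 * R)) / 2 := by
    have h1 : c' / L * ((Nat.totient N : ℝ) / N) ≤ V := by
      refine le_trans ?_ hV2
      apply mul_le_mul_of_nonneg_right _ (by positivity)
      exact div_le_div_of_nonneg_left hc'.le (by linarith) hEL
    have h2 : c' / (4000 * R) * Nat.totient N / L = N * (c' / L * ((Nat.totient N : ℝ) / N)) * (1 / (2000 * R)) / 2 := by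
      field_simp
      norm_num
    rw [h2]
    have h3 := mul_le_mul_of_nonneg_right (mul_le_mul_of_nonneg_left h1 hN0.le) (by positivity : (0 : ℝ) ≤ 1 / (2000 * R))
    linarith
  -- the error terms
  have hX1 : 4 / c₁ ≤ L := le_trans (by rw [hX]; exact le_max_left _ _) hLX
  have hX2 : 4 * C * (120 * 200000 ^ 5) / c₁ ≤ L := le_trans (by rw [hX]; exact le_max_right _ _) hLX
  have he1 : 1 * (N : ℝ) / L ^ 3 ≤ c₁ * N / L ^ 2 / 4 := by
    rw [div_le_iff₀ hc₁0] at hX1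
    rw [div_div, div_le_div_iff₀ (by positivity) (by positivity)]
    have h1 : 1 * (N : ℝ) * (L ^ 2 * 4) = (4 : ℝ) * (N * L ^ 2) := by ring
    have h2 : c₁ * N * L ^ 3 = (L * c₁) * (N * L ^ 2) := by ring
    rw [h1, h2]
    exact mul_le_mul_of_nonneg_right hX1 (by positivity)
  have he2 : C * (N : ℝ) ^ (1 - (1 : ℝ) / 200000) ≤ c₁ * N / L ^ 2 / 4 := by
    have h1 := exp_bd (a := 1 / 200000) (l := L) (by norm_num) hL0
    have h2 : (N : ℝ) ^ (1 - (1 : ℝ) / 200000) = N * Real.exp (-(1 / 200000 * L)) := by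
      rw [Real.rpow_sub hN0, Real.rpow_one, hLd, Real.exp_neg, div_eq_mul_inv]
      congr 2
      rw [Real.rpow_def_of_pos hN0]
      congr 1
      ring
    rw [h2]
    have h3 : Real.exp (-(1 / 200000 * L)) * L ^ 2 ≤ 120 * 200000 ^ 5 / L := by
      calc Real.exp (-(1 / 200000 * L)) * L ^ 2 ≤ Real.exp (-(1 / 200000 * L)) * L ^ 4 := by
            apply mul_le_mul_of_nonneg_left _ (Real.exp_pos _).le
            exact pow_le_pow_right₀ (by linarith) (by norm_num)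
        _ ≤ 120 / ((1 / 200000) ^ 5 * L) := h1
        _ = 120 * 200000 ^ 5 / L := by field_simp
    have h4 : 120 * 200000 ^ 5 / L ≤ c₁ / (4 * C) := by
      rw [div_le_iff₀ hc₁0] at hX2
      rw [div_le_div_iff₀ hL0 (by positivity)]
      linarith
    have h5 : Real.exp (-(1 / 200000 * L)) ≤ c₁ / (4 * C) / L ^ 2 := by
      rw [le_div_iff₀ (by positivity)]
      exact h3.trans h4
    calc C * (N * Real.exp (-(1 / 200000 * L))) ≤ C * (N * (c₁ / (4 * C) / L ^ 2)) :=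
          mul_le_mul_of_nonneg_left (mul_le_mul_of_nonneg_left h5 hN0.le) hC.le
      _ = c₁ * N / L ^ 2 / 4 := by field_simp
  linarith

end Pool.Agent.PTW
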